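import Pool.Agent.R241.SS1

/-!
# Average shadowing for one-sided subshifts
-/

set_option autoImplicit false

open Filter Topology Set

namespace Pool.Agent.R241.AS

section Defs

variable {X : Type*} [MetricSpace X]

/-- The average shadowing property. -/
def ASP (f : X → X) : Prop :=
  ∀ ε : ℝ, 0 < ε → ∃ δ : ℝ, 0 < δ ∧ ∀ x : ℕ → X,
    (∃ N : ℕ, ∀ n ≥ N, ∀ k : ℕ,
      (∑ i ∈ Finset.range n, dist (f (x (i + k))) (x (i + k + 1))) / n < δ) →
    ∃ z : X, limsup (fun n : ℕ => (∑ i ∈ Finset.range n, dist (f^[i] z) (x i)) / n) atTop < ε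

/-- The asymptotic average shadowing property. -/
def AASP (f : X → X) : Prop :=
  ∀ x : ℕ → X,
    Tendsto (fun n : ℕ => (∑ i ∈ Finset.range n, dist (f (x i)) (x (i + 1))) / n) atTop (𝓝 0) →
    ∃ z : X, Tendsto (fun n : ℕ => (∑ i ∈ Finset.range n, dist (f^[i] z) (x i)) / n) atTop (𝓝 0)

end Defs

open Classical in
/-- The number of the elements of `S` below `n`. -/
noncomputable def cnt (S : Set ℕ) (n : ℕ) : ℕ := ((Finset.range n).filter (· ∈ S)).card

theorem cnt_mono {S T : Set ℕ} (h : S ⊆ T) (n : ℕ) : cnt S n ≤ cnt T n := by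
  classical
  unfold cnt
  refine Finset.card_le_card fun i hi => ?_
  rw [Finset.mem_filter] at hi ⊢
  exact ⟨hi.1, h hi.2⟩

theorem cnt_le_add {U S T : Set ℕ} (hU : U ⊆ S ∪ T) (n : ℕ) : cnt U n ≤ cnt S n + cnt T n := by
  classical
  unfold cnt
  refine (Finset.card_le_card fun i hi => ?_).trans (Finset.card_union_le _ _)
  rw [Finset.mem_union, Finset.mem_filter, Finset.mem_filter]
  rw [Finset.mem_filter] at hi
  rcases hU hi.2 with h | h
  · exact Or.inl ⟨hi.1, h⟩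
  · exact Or.inr ⟨hi.1, h⟩

theorem cnt_union (S T : Set ℕ) (n : ℕ) : cnt (S ∪ T) n ≤ cnt S n + cnt T n :=
  cnt_le_add subset_rfl n

theorem cnt_biUnion {ι : Type*} (F : Finset ι) (S : ι → Set ℕ) (n : ℕ) :
    cnt (⋃ i ∈ F, S i) n ≤ ∑ i ∈ F, cnt (S i) n := by
  classical
  unfold cnt
  refine (Finset.card_le_card fun i hi => ?_).trans Finset.card_biUnion_le
  rw [Finset.mem_filter] at hi
  obtain ⟨j, hj, h⟩ := mem_iUnion₂.1 hi.2
  rw [Finset.mem_biUnion]
  exact ⟨j, hj, Finset.mem_filter.2 ⟨hi.1, h⟩⟩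

theorem cnt_le (S : Set ℕ) (n : ℕ) : cnt S n ≤ n := by
  classical
  unfold cnt
  exact (Finset.card_filter_le _ _).trans (Finset.card_range n).le

theorem cnt_add_right (S : Set ℕ) (n m : ℕ) : cnt S (n + m) ≤ cnt S n + m := by
  classical
  unfold cnt
  have : (Finset.range (n + m)).filter (· ∈ S) ⊆
      (Finset.range n).filter (· ∈ S) ∪ Finset.Ico n (n + m) := by
    intro i hi
    rw [Finset.mem_filter, Finset.mem_range] at hi
    rw [Finset.mem_union, Finset.mem_filter, Finset.mem_range, Finset.mem_Ico]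
    rcases lt_or_ge i n with h | h
    · exact Or.inl ⟨h, hi.2⟩
    · exact Or.inr ⟨h, hi.1⟩
  refine (Finset.card_le_card this).trans ((Finset.card_union_le _ _).trans ?_)
  rw [Nat.card_Ico]
  omega

theorem cnt_add (S : Set ℕ) (n m : ℕ) : cnt {i | i + m ∈ S} n ≤ cnt S n + m := by
  classical
  refine le_trans ?_ (cnt_add_right S n m)
  unfold cnt
  refine Finset.card_le_card_of_injOn (fun i => i + m) (fun i hi => ?_) fun i _ j _ h => by
    simp only at h
    omega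
  simp only [Finset.coe_filter, Finset.mem_range, Set.mem_ofPred_eq] at hi ⊢
  exact ⟨by omega, hi.2⟩

theorem cnt_sub (S : Set ℕ) (n m : ℕ) : cnt {i | m ≤ i ∧ i - m ∈ S} n ≤ cnt S n := by
  classical
  unfold cnt
  refine Finset.card_le_card_of_injOn (fun i => i - m) (fun i hi => ?_) fun i hi j hj h => ?_
  · simp only [Finset.coe_filter, Finset.mem_range, Set.mem_ofPred_eq] at hi ⊢
    exact ⟨by omega, hi.2.2⟩
  · simp only [Finset.coe_filter, Finset.mem_range, Set.mem_ofPred_eq] at hi hj h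
    omega

/-- The upper density of `S` is at most `c`. -/
def Dn (S : Set ℕ) (c : ℝ) : Prop := ∀ ε > 0, ∃ N : ℕ, ∀ n ≥ N, (cnt S n : ℝ) ≤ (c + ε) * n

theorem Dn.mono {S T : Set ℕ} {c c' : ℝ} (hT : Dn T c) (h : S ⊆ T) (hc : c ≤ c') : Dn S c' := by
  intro ε hε
  obtain ⟨N, hN⟩ := hT ε hε
  refine ⟨N, fun n hn => ?_⟩
  have h1 : (cnt S n : ℝ) ≤ cnt T n := by exact_mod_cast cnt_mono h n
  have h2 := hN n hn
  have h3 : (0 : ℝ) ≤ n := Nat.cast_nonneg n
  nlinarith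

theorem Dn.union {S T : Set ℕ} {a b : ℝ} (hS : Dn S a) (hT : Dn T b) : Dn (S ∪ T) (a + b) := by
  intro ε hε
  obtain ⟨N, hN⟩ := hS (ε / 2) (by linarith)
  obtain ⟨M, hM⟩ := hT (ε / 2) (by linarith)
  refine ⟨max N M, fun n hn => ?_⟩
  have h1 : (cnt (S ∪ T) n : ℝ) ≤ cnt S n + cnt T n := by exact_mod_cast cnt_union S T n
  have h2 := hN n ((le_max_left _ _).trans hn)
  have h3 := hM n ((le_max_right _ _).trans hn)
  linarith

theorem dn_of_bdd {S : Set ℕ} {N : ℕ} (h : ∀ i ∈ S, i < N) : Dn S 0 := by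
  classical
  intro ε hε
  obtain ⟨M, hM⟩ := exists_nat_gt (N / ε)
  refine ⟨M, fun n hn => ?_⟩
  have h1 : cnt S n ≤ N := by
    unfold cnt
    calc ((Finset.range n).filter (· ∈ S)).card ≤ (Finset.range N).card :=
          Finset.card_le_card fun i hi => Finset.mem_range.2 (h i (Finset.mem_filter.1 hi).2)
      _ = N := Finset.card_range N
  have h2 : (cnt S n : ℝ) ≤ N := by exact_mod_cast h1
  have h3 : (M : ℝ) ≤ n := by exact_mod_cast hn
  rw [div_lt_iff₀ hε] at hM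
  nlinarith

theorem dn_empty : Dn ∅ 0 := dn_of_bdd (N := 0) fun _ h => h.elim

theorem dn_biUnion {ι : Type*} (F : Finset ι) (S : ι → Set ℕ) (c : ι → ℝ)
    (h : ∀ i ∈ F, Dn (S i) (c i)) : Dn (⋃ i ∈ F, S i) (∑ i ∈ F, c i) := by
  classical
  induction F using Finset.induction_on with
  | empty => simpa using dn_empty
  | insert a F ha ih =>
    rw [Finset.sum_insert ha, Finset.set_biUnion_insert]
    exact (h a (Finset.mem_insert_self _ _)).union
      (ih fun i hi => h i (Finset.mem_insert_of_mem hi))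

theorem Dn.add {S : Set ℕ} {c : ℝ} (hS : Dn S c) (m : ℕ) : Dn {i | i + m ∈ S} c := by
  intro ε hε
  obtain ⟨N, hN⟩ := hS (ε / 2) (by linarith)
  obtain ⟨M, hM⟩ := exists_nat_gt (m / (ε / 2))
  refine ⟨max N M, fun n hn => ?_⟩
  have h1 : (cnt {i | i + m ∈ S} n : ℝ) ≤ cnt S n + m := by exact_mod_cast cnt_add S n m
  have h2 := hN n ((le_max_left _ _).trans hn)
  have h3 : (M : ℝ) ≤ n := by exact_mod_cast (le_max_right _ _).trans hn
  rw [div_lt_iff₀ (by linarith)] at hM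
  nlinarith

theorem Dn.sub {S : Set ℕ} {c : ℝ} (hS : Dn S c) (m : ℕ) : Dn {i | m ≤ i ∧ i - m ∈ S} c := by
  intro ε hε
  obtain ⟨N, hN⟩ := hS ε hε
  refine ⟨N, fun n hn => le_trans ?_ (hN n hn)⟩
  exact_mod_cast cnt_sub S n m

/-- The union of the intervals of length `L` starting in `S`. -/
def spread (S : Set ℕ) (L : ℕ) : Set ℕ := {n | ∃ i ∈ S, i ≤ n ∧ n < i + L}

theorem spread_sub (S : Set ℕ) (L : ℕ) :
    spread S L ⊆ ⋃ r ∈ Finset.range L, {n | r ≤ n ∧ n - r ∈ S} := by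
  rintro n ⟨i, hi, h1, h2⟩
  refine mem_iUnion₂.2 ⟨n - i, Finset.mem_range.2 (by omega), by omega, ?_⟩
  rwa [show n - (n - i) = i by omega]

theorem cnt_spread (S : Set ℕ) (L n : ℕ) : cnt (spread S L) n ≤ L * cnt S n := by
  refine (cnt_mono (spread_sub S L) n).trans ((cnt_biUnion _ _ _).trans ?_)
  refine (Finset.sum_le_sum fun r _ => cnt_sub S n r).trans ?_
  simp

theorem Dn.spread {S : Set ℕ} {c : ℝ} (hS : Dn S c) (L : ℕ) : Dn (spread S L) (L * c) := by
  refine (dn_biUnion (Finset.range L) _ (fun _ => c) fun r _ => hS.sub r).mono (spread_sub S L) ?_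
  simp

theorem dn_of_le {S : Set ℕ} {c : ℝ} (h : ∀ n, (cnt S n : ℝ) ≤ c * n) : Dn S c := by
  intro ε hε
  refine ⟨0, fun n _ => ?_⟩
  have := h n
  have h3 : (0 : ℝ) ≤ n := Nat.cast_nonneg n
  nlinarith

theorem cnt_iUnion_le {E : ℕ → Set ℕ} {c : ℕ → ℝ} {C : ℝ} {n : ℕ}
    (h : ∀ k, (cnt (E k) n : ℝ) ≤ c k * n) (hc : ∀ F : Finset ℕ, ∑ k ∈ F, c k ≤ C) :
    (cnt (⋃ k, E k) n : ℝ) ≤ C * n := by
  classical
  have hch : ∀ i, ∃ k, i ∈ ⋃ k, E k → i ∈ E k := by
    intro i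
    by_cases hi : i ∈ ⋃ k, E k
    · obtain ⟨k, hk⟩ := mem_iUnion.1 hi
      exact ⟨k, fun _ => hk⟩
    · exact ⟨0, fun h => absurd h hi⟩
  choose κ hκ using hch
  set F := (Finset.range n).image κ with hF
  have h1 : cnt (⋃ k, E k) n ≤ cnt (⋃ k ∈ F, E k) n := by
    unfold cnt
    refine Finset.card_le_card fun i hi => ?_
    rw [Finset.mem_filter] at hi ⊢
    exact ⟨hi.1, mem_iUnion₂.2 ⟨κ i, Finset.mem_image_of_mem κ hi.1, hκ i hi.2⟩⟩
  have h2 : (cnt (⋃ k, E k) n : ℝ) ≤ ∑ k ∈ F, (cnt (E k) n : ℝ) := by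
    exact_mod_cast h1.trans (cnt_biUnion F E n)
  calc (cnt (⋃ k, E k) n : ℝ) ≤ ∑ k ∈ F, (cnt (E k) n : ℝ) := h2
    _ ≤ ∑ k ∈ F, c k * n := Finset.sum_le_sum fun k _ => h k
    _ = (∑ k ∈ F, c k) * n := by rw [Finset.sum_mul]
    _ ≤ C * n := mul_le_mul_of_nonneg_right (hc F) (Nat.cast_nonneg n)

theorem sum_le_of {u : ℕ → ℝ} {S : Set ℕ} {η : ℝ} (hη : 0 ≤ η) (h1 : ∀ i, u i ≤ 1)
    (h2 : ∀ i, i ∉ S → u i ≤ η) (n : ℕ) :
    ∑ i ∈ Finset.range n, u i ≤ η * n + cnt S n := by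
  classical
  have h3 : ∀ i ∈ Finset.range n, u i ≤ η + if i ∈ S then 1 else 0 := by
    intro i _
    split_ifs with h
    · linarith [h1 i]
    · linarith [h2 i h]
  refine (Finset.sum_le_sum h3).trans ?_
  rw [Finset.sum_add_distrib]
  simp only [Finset.sum_const, Finset.card_range, nsmul_eq_mul, Finset.sum_boole]
  unfold cnt
  linarith

theorem markov {u : ℕ → ℝ} (hu : ∀ i, 0 ≤ u i) {c : ℝ} (n : ℕ) :
    c * cnt {i | c ≤ u i} n ≤ ∑ i ∈ Finset.range n, u i := by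
  classical
  calc c * cnt {i | c ≤ u i} n = ∑ i ∈ Finset.range n, (if c ≤ u i then c else 0) := by
        unfold cnt
        rw [← Finset.sum_filter, Finset.sum_const, nsmul_eq_mul, mul_comm]
        rfl
    _ ≤ ∑ i ∈ Finset.range n, u i := Finset.sum_le_sum fun i _ => by
        split_ifs with h
        · exact h
        · exact hu i

/-- The subshift defined by the predicate `A`. -/
def Sub (A : (ℕ → Bool) → Prop) : Type := {x : ℕ → Bool // A x}

variable {A : (ℕ → Bool) → Prop}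

noncomputable instance : MetricSpace (Sub A) :=
  letI := SS.boolMetric
  inferInstanceAs (MetricSpace {x : ℕ → Bool // A x})

theorem sub_top : (inferInstance : TopologicalSpace (Sub A)) =
    (instTopologicalSpaceSubtype : TopologicalSpace {x : ℕ → Bool // A x}) := rfl

theorem sub_dist (x y : Sub A) : dist x y = @dist (ℕ → Bool) PiNat.dist x.1 y.1 := rfl

theorem compactSpace_sub (hA : IsClosed {x | A x}) : CompactSpace (Sub A) :=
  (isCompact_iff_compactSpace.1 hA.isCompact : CompactSpace {x : ℕ → Bool // A x})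

theorem continuous_val : Continuous fun x : Sub A => x.1 :=
  (continuous_subtype_val : Continuous fun x : {x : ℕ → Bool // A x} => x.1)

theorem continuous_mk {Y : Type*} [TopologicalSpace Y] {f : Y → ℕ → Bool} (hf : Continuous f)
    (h : ∀ y, A (f y)) : Continuous fun y => (⟨f y, h y⟩ : Sub A) :=
  (Continuous.subtype_mk hf h : Continuous fun y => (⟨f y, h y⟩ : {x : ℕ → Bool // A x}))

theorem dist_le_of {x y : Sub A} {J : ℕ} (h : ∀ i < J, x.1 i = y.1 i) :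
    dist x y ≤ (1 / 2 : ℝ) ^ J := by
  rw [sub_dist]
  by_cases he : x.1 = y.1
  · rw [he]
    have : @dist (ℕ → Bool) PiNat.dist y.1 y.1 = 0 := PiNat.dist_self _
    rw [this]
    positivity
  · rw [PiNat.dist_eq_of_ne he]
    refine pow_le_pow_of_le_one (by norm_num) (by norm_num) ?_
    by_contra hc
    exact PiNat.apply_firstDiff_ne he (h _ (not_le.1 hc))

theorem le_dist_of {x y : Sub A} {J i : ℕ} (hi : i < J) (h : x.1 i ≠ y.1 i) :
    (1 / 2 : ℝ) ^ J ≤ dist x y := by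
  rw [sub_dist]
  have he : x.1 ≠ y.1 := fun he => h (by rw [he])
  rw [PiNat.dist_eq_of_ne he]
  refine pow_le_pow_of_le_one (by norm_num) (by norm_num) ?_
  by_contra hc
  exact h (PiNat.apply_eq_of_lt_firstDiff (by omega))

theorem dist_le_one (x y : Sub A) : dist x y ≤ 1 := by
  have := dist_le_of (x := x) (y := y) (J := 0) (by simp)
  simpa using this

theorem exists_cyl_sub {x : Sub A} {U : Set (Sub A)} (hU : U ∈ 𝓝 x) :
    ∃ M : ℕ, ∀ y : Sub A, (∀ i < M, y.1 i = x.1 i) → y ∈ U := by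
  obtain ⟨ε, hε, h⟩ := Metric.mem_nhds_iff.1 hU
  obtain ⟨M, hM⟩ := exists_pow_lt_of_lt_one hε (by norm_num : (1 / 2 : ℝ) < 1)
  exact ⟨M, fun y hy => h (Metric.mem_ball.2 ((dist_le_of hy).trans_lt hM))⟩

theorem isOpen_coord_sub (i : ℕ) (b : Bool) : IsOpen {x : Sub A | x.1 i = b} := by
  have : Continuous fun x : Sub A => x.1 i := (continuous_apply i).comp continuous_val
  exact (isOpen_discrete {b}).preimage this

/-- The shift. -/
def sh (hs : ∀ x : ℕ → Bool, A x → A fun n => x (n + 1)) (x : Sub A) : Sub A :=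
  ⟨fun n => x.1 (n + 1), hs x.1 x.2⟩

variable {hs : ∀ x : ℕ → Bool, A x → A fun n => x (n + 1)}

theorem continuous_sh : Continuous (sh hs) :=
  continuous_mk (continuous_pi fun n => (continuous_apply (n + 1)).comp continuous_val) _

theorem sh_iterate (x : Sub A) (n i : ℕ) : ((sh hs)^[n] x).1 i = x.1 (i + n) := by
  induction n generalizing i with
  | zero => rfl
  | succ n ih =>
    rw [Function.iterate_succ_apply']
    show ((sh hs)^[n] x).1 (i + 1) = _
    rw [ih, show i + 1 + n = i + (n + 1) by omega]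

/-- The places where the windows of length `J` of the points differ from those of the sequence of the
first letters. -/
def mis (x : ℕ → Sub A) (J : ℕ) : Set ℕ := {i | ∃ m < J, (x (i + m)).1 0 ≠ (x i).1 m}

/-- The places where the step is large. -/
def bad (hs : ∀ x : ℕ → Bool, A x → A fun n => x (n + 1)) (x : ℕ → Sub A) (J : ℕ) : Set ℕ :=
  {i | (1 / 2 : ℝ) ^ J ≤ dist (sh hs (x i)) (x (i + 1))}

theorem mis_sub (x : ℕ → Sub A) (J : ℕ) :
    mis x J ⊆ ⋃ r ∈ Finset.range J, {i | i + r ∈ bad hs x J} := by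
  rintro i ⟨m, hm, h⟩
  by_contra hc
  have h1 : ∀ r < J, i + r ∉ bad hs x J := by
    intro r hr hb
    exact hc (mem_iUnion₂.2 ⟨r, Finset.mem_range.2 hr, hb⟩)
  have h2 : ∀ r < J, ∀ s < J, (x (i + r)).1 (s + 1) = (x (i + r + 1)).1 s := by
    intro r hr s hs'
    by_contra hne
    exact h1 r hr (le_dist_of (x := sh hs (x (i + r))) hs' hne)
  have h3 : ∀ r ≤ m, (x (i + r)).1 (m - r) = (x i).1 m := by
    intro r hr
    induction r with
    | zero => rfl
    | succ r ih =>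
      rw [← ih (by omega), show m - r = (m - (r + 1)) + 1 by omega, h2 r (by omega) _ (by omega)]
      rfl
  apply h
  have := h3 m le_rfl
  rwa [Nat.sub_self] at this

theorem dn_mis {x : ℕ → Sub A} {J : ℕ} {c : ℝ} (h : Dn (bad hs x J) c) : Dn (mis x J) (J * c) := by
  refine (dn_biUnion (Finset.range J) _ (fun _ => c) fun r _ => h.add r).mono (mis_sub x J) ?_
  simp

theorem dn_bad {x : ℕ → Sub A} {δ : ℝ} (h : ∃ N : ℕ, ∀ n ≥ N,
    (∑ i ∈ Finset.range n, dist (sh hs (x i)) (x (i + 1))) / n < δ) (J : ℕ) :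
    Dn (bad hs x J) (2 ^ J * δ) := by
  obtain ⟨N, hN⟩ := h
  intro ε hε
  refine ⟨max N 1, fun n hn => ?_⟩
  have hn0 : (0 : ℝ) < n := by
    have : 1 ≤ n := (le_max_right _ _).trans hn
    exact_mod_cast this
  have h1 := hN n ((le_max_left _ _).trans hn)
  rw [div_lt_iff₀ hn0] at h1
  have h2 := (markov (c := (1 / 2 : ℝ) ^ J) (fun i => dist_nonneg (x := sh hs (x i))
    (y := x (i + 1))) n).trans h1.le
  have h3 : (cnt (bad hs x J) n : ℝ) ≤ 2 ^ J * (δ * n) := by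
    have e : (2 : ℝ) ^ J * (1 / 2 : ℝ) ^ J = 1 := by rw [← mul_pow]; norm_num
    calc (cnt (bad hs x J) n : ℝ) = 2 ^ J * ((1 / 2 : ℝ) ^ J * cnt (bad hs x J) n) := by
          rw [← mul_assoc, e, one_mul]
      _ ≤ 2 ^ J * (δ * n) := mul_le_mul_of_nonneg_left h2 (by positivity)
  nlinarith

/-- The final estimate. -/
theorem dn_final {x : ℕ → Sub A} {y : Sub A} {J : ℕ} {a b : ℝ} (hm : Dn (mis x J) a)
    (hy : Dn {i | y.1 i ≠ (x i).1 0} b) :
    ∀ ε > 0, ∃ N : ℕ, ∀ n ≥ N, (∑ i ∈ Finset.range n, dist ((sh hs)^[i] y) (x i)) / n ≤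
      (1 / 2 : ℝ) ^ J + a + J * b + ε := by
  intro ε hε
  set S : Set ℕ := mis x J ∪ ⋃ m ∈ Finset.range J, {i | i + m ∈ {i | y.1 i ≠ (x i).1 0}} with hS
  have hDS : Dn S (a + J * b) := by
    refine (hm.union (dn_biUnion (Finset.range J) _ (fun _ => b) fun r _ => hy.add r)).mono
      subset_rfl ?_
    simp
  obtain ⟨N, hN⟩ := hDS ε hε
  refine ⟨max N 1, fun n hn => ?_⟩
  have hn0 : (0 : ℝ) < n := by
    have : 1 ≤ n := (le_max_right _ _).trans hn
    exact_mod_cast this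
  have h1 := sum_le_of (u := fun i => dist ((sh hs)^[i] y) (x i)) (S := S)
    (η := (1 / 2 : ℝ) ^ J) (by positivity) (fun i => dist_le_one _ _) (fun i hi => ?_) n
  · have h2 := hN n ((le_max_left _ _).trans hn)
    rw [div_le_iff₀ hn0]
    calc ∑ i ∈ Finset.range n, dist ((sh hs)^[i] y) (x i) ≤ (1 / 2 : ℝ) ^ J * n + cnt S n := h1
      _ ≤ ((1 / 2 : ℝ) ^ J + a + J * b + ε) * n := by nlinarith
  · refine dist_le_of fun m hm' => ?_
    rw [sh_iterate]
    by_contra hne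
    apply hi
    by_cases h3 : (x (i + m)).1 0 = (x i).1 m
    · refine Or.inr (mem_iUnion₂.2 ⟨m, Finset.mem_range.2 hm', ?_⟩)
      show y.1 (i + m) ≠ (x (i + m)).1 0
      rw [h3, Nat.add_comm]
      exact hne
    · exact Or.inl ⟨m, hm', h3⟩

/-- A criterion for the average shadowing property. -/
theorem asp_of (h : ∀ ε : ℝ, 0 < ε → ∃ (J : ℕ) (c : ℝ), 0 < c ∧ ∀ x : ℕ → Sub A, Dn (mis x J) c →
    ∃ y : Sub A, Dn {i | y.1 i ≠ (x i).1 0} ε) : ASP (sh hs) := by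
  intro ε hε
  obtain ⟨J0, hJ0⟩ := exists_pow_lt_of_lt_one (show 0 < ε / 4 by linarith)
    (by norm_num : (1 / 2 : ℝ) < 1)
  obtain ⟨J, c, hc, h1⟩ := h (ε / (4 * (J0 + 1))) (by positivity)
  obtain ⟨δ, hδ⟩ : ∃ δ : ℝ, δ = min (c / ((J + 1) * 2 ^ J)) (ε / (4 * ((J0 + 1) * 2 ^ J0))) :=
    ⟨_, rfl⟩
  have hδ0 : 0 < δ := by rw [hδ]; positivity
  have hδ1 : (J : ℝ) * (2 ^ J * δ) ≤ c := by
    have h2 : δ ≤ c / ((J + 1) * 2 ^ J) := hδ.le.trans (min_le_left _ _)
    rw [le_div_iff₀ (by positivity)] at h2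
    have h3 : (0 : ℝ) < 2 ^ J := by positivity
    nlinarith
  have hδ2 : (J0 : ℝ) * (2 ^ J0 * δ) ≤ ε / 4 := by
    have h2 : δ ≤ ε / (4 * ((J0 + 1) * 2 ^ J0)) := hδ.le.trans (min_le_right _ _)
    rw [le_div_iff₀ (by positivity)] at h2
    have h3 : (0 : ℝ) < 2 ^ J0 := by positivity
    nlinarith
  refine ⟨δ, hδ0, fun x hx => ?_⟩
  have hx' : ∃ N : ℕ, ∀ n ≥ N,
      (∑ i ∈ Finset.range n, dist (sh hs (x i)) (x (i + 1))) / n < δ := by
    obtain ⟨N, hN⟩ := hx
    exact ⟨N, fun n hn => by simpa using hN n hn 0⟩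
  obtain ⟨y, hy⟩ := h1 x ((dn_mis (dn_bad hx' J)).mono subset_rfl hδ1)
  have h4 : (J0 : ℝ) * (ε / (4 * (J0 + 1))) ≤ ε / 4 := by
    rw [← mul_div_assoc, div_le_iff₀ (by positivity)]
    nlinarith
  have h5 := dn_final (hs := hs) ((dn_mis (dn_bad hx' J0)).mono subset_rfl hδ2) hy
    ((ε / 4 - (1 / 2 : ℝ) ^ J0) / 2) (by linarith)
  obtain ⟨N, hN⟩ := h5
  refine ⟨y, lt_of_le_of_lt (limsup_le_of_le ?_ (eventually_atTop.2 ⟨N, hN⟩)) (by linarith)⟩
  refine isCoboundedUnder_le_of_le atTop (x := 0) fun n => ?_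
  exact div_nonneg (Finset.sum_nonneg fun i _ => dist_nonneg) (Nat.cast_nonneg n)

/-- A criterion for the asymptotic average shadowing property. -/
theorem aasp_of (h : ∀ x : ℕ → Sub A, (∀ J, Dn (mis x J) 0) →
    ∃ y : Sub A, Dn {i | y.1 i ≠ (x i).1 0} 0) : AASP (sh hs) := by
  intro x hx
  have h1 : ∀ J, Dn (mis x J) 0 := by
    intro J ε hε
    have h2 : ∃ N : ℕ, ∀ n ≥ N, (∑ i ∈ Finset.range n, dist (sh hs (x i)) (x (i + 1))) / n <
        ε / (2 * ((J + 1) * 2 ^ J)) :=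
      eventually_atTop.1 (hx.eventually (gt_mem_nhds (by positivity)))
    obtain ⟨N, hN⟩ := dn_mis (dn_bad h2 J) (ε / 2) (by linarith)
    refine ⟨N, fun n hn => (hN n hn).trans ?_⟩
    refine mul_le_mul_of_nonneg_right ?_ (Nat.cast_nonneg n)
    have h3 : (J : ℝ) * (2 ^ J * (ε / (2 * ((J + 1) * 2 ^ J)))) ≤ ε / 2 := by
      rw [← mul_div_assoc, ← mul_div_assoc, div_le_iff₀ (by positivity)]
      have h3 : (0 : ℝ) < 2 ^ J := by positivity
      nlinarith [mul_pos h3 hε]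
    linarith
  obtain ⟨y, hy⟩ := h x h1
  refine ⟨y, ?_⟩
  rw [Metric.tendsto_atTop]
  intro ε hε
  obtain ⟨J, hJ⟩ := exists_pow_lt_of_lt_one (show 0 < ε / 2 by linarith)
    (by norm_num : (1 / 2 : ℝ) < 1)
  obtain ⟨N, hN⟩ := dn_final (hs := hs) (h1 J) hy (ε / 2) (by linarith)
  refine ⟨N, fun n hn => ?_⟩
  rw [Real.dist_eq, sub_zero, abs_of_nonneg
    (div_nonneg (Finset.sum_nonneg fun i _ => dist_nonneg) (Nat.cast_nonneg n))]
  refine (hN n hn).trans_lt ?_
  linarith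

end Pool.Agent.R241.AS
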