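import Pool.Agent.R241.AS1

/-!
# The subshift of the sequences with long blocks of zeros in all long windows
-/

set_option autoImplicit false

open Filter Topology Set

namespace Pool.Agent.R241.AS

section Minimal

variable {X : Type*} [TopologicalSpace X]

/-- A minimal set: a nonempty closed invariant set without proper nonempty closed invariant
subsets. -/
def IsMinimalSet (f : X → X) (M : Set X) : Prop :=
  M.Nonempty ∧ IsClosed M ∧ MapsTo f M M ∧
    ∀ C : Set X, C ⊆ M → C.Nonempty → IsClosed C → MapsTo f C C → C = M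

/-- A minimal point: the orbit closure is a minimal set. -/
def IsMinimalPoint (f : X → X) (x : X) : Prop :=
  IsMinimalSet f (closure (range fun n : ℕ => f^[n] x))

end Minimal

/-- The lengths. -/
def Mk (k : ℕ) : ℕ := 2 ^ (k ^ 2 + 3)

/-- The lengths of the windows. -/
def Lk (k : ℕ) : ℕ := 2 * Mk k

theorem Mk_succ (k : ℕ) : Mk (k + 1) = Mk k * 2 ^ (2 * k + 1) := by
  unfold Mk
  rw [← pow_add]
  congr 1
  ring

theorem le_Mk (k : ℕ) : 2 * k + 1 ≤ Mk k := by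
  induction k with
  | zero => decide
  | succ k ih =>
    rw [Mk_succ]
    have : 2 ^ 1 ≤ 2 ^ (2 * k + 1) := Nat.pow_le_pow_right (by norm_num) (by omega)
    have h2 : Mk k * 2 ≤ Mk k * 2 ^ (2 * k + 1) := Nat.mul_le_mul_left _ (by simpa using this)
    have h3 : 1 ≤ k ∨ k = 0 := by omega
    rcases h3 with h3 | h3
    · omega
    · subst h3
      decide

theorem two_pow_le_Mk (k : ℕ) : k * 2 ^ k ≤ Mk k := by
  have h1 : k < 2 ^ k := Nat.lt_two_pow_self
  have h2 : k + k ≤ k ^ 2 + 3 := by nlinarith [sq_nonneg ((k : ℤ) - 1)]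
  calc k * 2 ^ k ≤ 2 ^ k * 2 ^ k := Nat.mul_le_mul_right _ h1.le
    _ = 2 ^ (k + k) := by rw [pow_add]
    _ ≤ 2 ^ (k ^ 2 + 3) := Nat.pow_le_pow_right (by norm_num) h2

theorem Mk_pos (k : ℕ) : 0 < Mk k := by unfold Mk; positivity

/-- Every window of length `Lk k` contains `k` consecutive zeros. -/
def Cond (k : ℕ) (x : ℕ → Bool) : Prop :=
  ∀ i : ℤ, ∃ j : ℤ, i ≤ j ∧ j + k ≤ i + Lk k ∧ ∀ n : ℕ, j ≤ n → (n : ℤ) < j + k → x n = false

/-- The predicate of the subshift. -/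
def AX (x : ℕ → Bool) : Prop := ∀ k, Cond k x

theorem isClosed_AX : IsClosed {x | AX x} := by
  rw [← isOpen_compl_iff, isOpen_iff_mem_nhds]
  intro x hx
  have hx' : ¬ AX x := hx
  unfold AX Cond at hx'
  push Not at hx'
  obtain ⟨k, i, h⟩ := hx'
  refine mem_of_superset ((PiNat.isOpen_cylinder _ x (i + Lk k).toNat).mem_nhds
    (PiNat.self_mem_cylinder _ _)) ?_
  intro y hy hyA
  rw [PiNat.mem_cylinder_iff] at hy
  obtain ⟨j, h1, h2, h3⟩ := hyA k i
  obtain ⟨n, h4, h5, h6⟩ := h j h1 h2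
  have := h3 n h4 h5
  rw [hy n (by omega)] at this
  exact h6 this

theorem AX_shift (x : ℕ → Bool) (h : AX x) : AX fun n => x (n + 1) := by
  intro k i
  obtain ⟨j, h1, h2, h3⟩ := h k (i + 1)
  exact ⟨j - 1, by omega, by omega, fun n h4 h5 => h3 (n + 1) (by omega) (by omega)⟩

theorem AX_cons {x : ℕ → Bool} (h : AX x) : AX fun n => Nat.casesOn n false x := by
  intro k i
  obtain ⟨j, h1, h2, h3⟩ := h k (i - 1)
  refine ⟨j + 1, by omega, by omega, fun n h4 h5 => ?_⟩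
  rcases n with _ | n
  · rfl
  · exact h3 n (by omega) (by omega)

theorem AX_mono {x y : ℕ → Bool} (h : AX x) (hy : ∀ n, x n = false → y n = false) : AX y := by
  intro k i
  obtain ⟨j, h1, h2, h3⟩ := h k i
  exact ⟨j, h1, h2, fun n h4 h5 => hy n (h3 n h4 h5)⟩

theorem AX_zero : AX fun _ => false := fun k i => ⟨i, le_rfl, by have := le_Mk k; unfold Lk; omega,
  fun _ _ _ => rfl⟩

theorem AX_single : AX fun n => decide (n = 0) := by
  intro k i
  have h1 := le_Mk k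
  have h2 : Lk k = 2 * Mk k := rfl
  rcases le_or_gt (i + k) 0 with h | h
  · exact ⟨i, le_rfl, by omega, fun n h3 h4 => by omega⟩
  · rcases le_or_gt i 0 with h5 | h5
    · refine ⟨1, by omega, by omega, fun n h3 h4 => ?_⟩
      simp only [decide_eq_false_iff_not]
      omega
    · refine ⟨i, by omega, by omega, fun n h3 h4 => ?_⟩
      simp only [decide_eq_false_iff_not]
      omega

/-- The system. -/
abbrev XX : Type := Sub AX

/-- The shift. -/
def T : XX → XX := sh AX_shift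

instance : CompactSpace XX := compactSpace_sub isClosed_AX

theorem T_surjective : Function.Surjective T := fun x => ⟨⟨_, AX_cons x.2⟩, rfl⟩

/-- The zero sequence. -/
def zz : XX := ⟨_, AX_zero⟩

theorem minimal_eq_zero {x : XX} (h : IsMinimalPoint T x) : x = zz := by
  obtain ⟨-, -, -, h4⟩ := h
  have h5 : zz ∈ closure (range fun n : ℕ => T^[n] x) := by
    rw [mem_closure_iff_nhds]
    intro U hU
    obtain ⟨M, hM⟩ := exists_cyl_sub hU
    obtain ⟨j, h1, h2, h3⟩ := x.2 M 0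
    refine ⟨T^[j.toNat] x, hM _ fun i hi => ?_, j.toNat, rfl⟩
    unfold T
    rw [sh_iterate]
    exact h3 _ (by omega) (by omega)
  have h6 : MapsTo T {zz} {zz} := by
    rintro _ rfl
    rfl
  have h7 := h4 {zz} (singleton_subset_iff.2 h5) (singleton_nonempty _) isClosed_singleton h6
  have h8 : x ∈ ({zz} : Set XX) := by
    rw [h7]
    exact subset_closure ⟨0, rfl⟩
  exact h8

theorem not_dense_minimal : ¬ Dense {x : XX | IsMinimalPoint T x} := by
  intro h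
  obtain ⟨x, hx1, hx2⟩ := h.inter_open_nonempty {x : XX | x.1 0 = true} (isOpen_coord_sub 0 true)
    ⟨⟨_, AX_single⟩, by show decide ((0 : ℕ) = 0) = true; simp⟩
  have h3 := minimal_eq_zero hx2
  have h4 : x.1 0 = true := hx1
  rw [h3] at h4
  simp [zz] at h4

/-- The places where the window has no block of zeros. -/
def Bk (z : ℕ → Bool) (k : ℕ) : Set ℕ :=
  {i | ¬ ∃ j, i ≤ j ∧ j + k ≤ i + Lk k ∧ ∀ n, j ≤ n → n < j + k → z n = false}

/-- The places which are overwritten periodically. -/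
def E1 (τ : ℕ → ℕ → Prop) (k : ℕ) : Set ℕ :=
  {n | ∃ i j : ℕ, (τ k i ∨ i = 0) ∧ 1 ≤ j ∧ j * Mk k ≤ i + Mk k ∧ j * Mk k ≤ n ∧ n < j * Mk k + k}

/-- The places which are overwritten because the window has no block of zeros. -/
def E2 (τ : ℕ → ℕ → Prop) (z : ℕ → Bool) (k : ℕ) : Set ℕ :=
  {n | ∃ i : ℕ, ¬ τ k i ∧ i ∈ Bk z k ∧ i ≤ n ∧ n < i + Lk k}

open Classical in
/-- The new sequence. -/
noncomputable def ov (τ : ℕ → ℕ → Prop) (z : ℕ → Bool) : ℕ → Bool := fun n =>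
  if n ∈ ⋃ k, (E1 τ k ∪ E2 τ z k) then false else z n

theorem AX_ov (τ : ℕ → ℕ → Prop) (z : ℕ → Bool) : AX (ov τ z) := by
  intro k i
  have h1 := le_Mk k
  have h2 : Lk k = 2 * Mk k := rfl
  have hov : ∀ n, n ∈ E1 τ k ∪ E2 τ z k → ov τ z n = false := by
    intro n hn
    unfold ov
    rw [if_pos (mem_iUnion.2 ⟨k, hn⟩)]
  rcases le_or_gt (i + k) 0 with h | h
  · exact ⟨i, le_rfl, by omega, fun n h3 h4 => by omega⟩
  · by_cases hτ : τ k i.toNat ∨ i.toNat = 0
    · obtain ⟨j, hj⟩ : ∃ j, j = i.toNat / Mk k + 1 := ⟨_, rfl⟩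
      have h3 : j * Mk k ≤ i.toNat + Mk k := by
        rw [hj, add_mul, one_mul]
        have := Nat.div_mul_le_self i.toNat (Mk k)
        omega
      have h4 : i.toNat < j * Mk k := by
        rw [hj]
        have := Nat.lt_div_mul_add (a := i.toNat) (Mk_pos k)
        rw [add_mul, one_mul]
        omega
      obtain ⟨s, hs⟩ : ∃ s, s = j * Mk k := ⟨_, rfl⟩
      rw [← hs] at h3 h4
      refine ⟨(s : ℤ), by omega, by omega, fun n h5 h6 => hov n (Or.inl ?_)⟩
      exact ⟨i.toNat, j, hτ, by rw [hj]; exact Nat.succ_le_succ (Nat.zero_le _), by rw [← hs]; exact h3, by rw [← hs]; omega, by rw [← hs]; omega⟩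
    · push Not at hτ
      obtain ⟨hτ, hi0⟩ := hτ
      by_cases hB : i.toNat ∈ Bk z k
      · refine ⟨i, le_rfl, by omega, fun n h5 h6 => hov n (Or.inr ?_)⟩
        exact ⟨i.toNat, hτ, hB, by omega, by omega⟩
      · unfold Bk at hB
        simp only [Set.mem_ofPred_eq, not_not] at hB
        obtain ⟨j, h3, h4, h5⟩ := hB
        refine ⟨j, by omega, by omega, fun n h6 h7 => ?_⟩
        unfold ov
        split_ifs
        · rfl
        · exact h5 n (by omega) (by omega)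

theorem ov_ne_sub (τ : ℕ → ℕ → Prop) (z : ℕ → Bool) :
    {i | ov τ z i ≠ z i} ⊆ ⋃ k, (E1 τ k ∪ E2 τ z k) := by
  intro i hi
  by_contra hc
  apply hi
  unfold ov
  rw [if_neg hc]

theorem cnt_E1_nat (τ : ℕ → ℕ → Prop) (k n : ℕ) : cnt (E1 τ k) n ≤ (n / Mk k) * k := by
  classical
  unfold cnt
  have : (Finset.range n).filter (· ∈ E1 τ k) ⊆
      (Finset.Icc 1 (n / Mk k)).biUnion fun j => Finset.Ico (j * Mk k) (j * Mk k + k) := by
    intro m hm
    rw [Finset.mem_filter, Finset.mem_range] at hm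
    obtain ⟨hm, i, j, -, hj, -, h2, h3⟩ := hm
    refine Finset.mem_biUnion.2 ⟨j, Finset.mem_Icc.2 ⟨hj, ?_⟩, Finset.mem_Ico.2 ⟨h2, h3⟩⟩
    exact (Nat.le_div_iff_mul_le (Mk_pos k)).2 (by omega)
  refine (Finset.card_le_card this).trans (Finset.card_biUnion_le.trans ?_)
  simp

theorem cnt_E1 (τ : ℕ → ℕ → Prop) (k n : ℕ) : (cnt (E1 τ k) n : ℝ) ≤ (1 / 2 : ℝ) ^ k * n := by
  have h1 := cnt_E1_nat τ k n
  have h2 : (n / Mk k) * Mk k ≤ n := Nat.div_mul_le_self n (Mk k)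
  have h3 : (n / Mk k) * k * 2 ^ k ≤ n := by
    calc (n / Mk k) * k * 2 ^ k = (n / Mk k) * (k * 2 ^ k) := by ring
      _ ≤ (n / Mk k) * Mk k := Nat.mul_le_mul_left _ (two_pow_le_Mk k)
      _ ≤ n := h2
  have h4 : ((n / Mk k : ℕ) : ℝ) * k * 2 ^ k ≤ n := by exact_mod_cast h3
  have h5 : (cnt (E1 τ k) n : ℝ) ≤ ((n / Mk k : ℕ) : ℝ) * k := by exact_mod_cast h1
  have h6 : (0 : ℝ) < 2 ^ k := by positivity
  rw [one_div, inv_pow, ← div_eq_inv_mul, le_div_iff₀ h6]
  calc (cnt (E1 τ k) n : ℝ) * 2 ^ k ≤ (((n / Mk k : ℕ) : ℝ) * k) * 2 ^ k :=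
        mul_le_mul_of_nonneg_right h5 h6.le
    _ ≤ n := h4

theorem E2_sub (τ : ℕ → ℕ → Prop) (z : ℕ → Bool) (k : ℕ) : E2 τ z k ⊆ spread (Bk z k) (Lk k) := by
  rintro n ⟨i, -, h1, h2, h3⟩
  exact ⟨i, h1, h2, h3⟩

theorem Bk_sub {x : ℕ → XX} {k J : ℕ} (hJ : Lk k ≤ J) :
    Bk (fun i => (x i).1 0) k ⊆ mis x J := by
  intro i hi
  by_contra hc
  apply hi
  have h1 : ∀ m < J, (x (i + m)).1 0 = (x i).1 m := by
    intro m hm
    by_contra hne
    exact hc ⟨m, hm, hne⟩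
  obtain ⟨j, h2, h3, h4⟩ := (x i).2 k 0
  refine ⟨i + j.toNat, by omega, by omega, fun n h5 h6 => ?_⟩
  have h7 := h1 (n - i) (by omega)
  rw [show i + (n - i) = n by omega] at h7
  simp only
  rw [h7]
  exact h4 _ (by omega) (by omega)

/-- The density of the union. -/
theorem dn_iUnion {E : ℕ → Set ℕ} {K : ℕ} {c : ℕ → ℝ} (h1 : ∀ k < K, Dn (E k) (c k))
    (h2 : ∀ k n, (cnt (E (k + K)) n : ℝ) ≤ 2 * (1 / 2 : ℝ) ^ (k + K) * n) :
    Dn (⋃ k, E k) (∑ k ∈ Finset.range K, c k + 4 * (1 / 2 : ℝ) ^ K) := by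
  have h3 : Dn (⋃ k, E (k + K)) (4 * (1 / 2 : ℝ) ^ K) := by
    refine dn_of_le fun n => cnt_iUnion_le (fun k => h2 k n) fun F => ?_
    have h4 : ∑ k ∈ F, (1 / 2 : ℝ) ^ k ≤ 2 := by
      have := Summable.sum_le_tsum F (fun i _ => by positivity) summable_geometric_two
      rwa [tsum_geometric_two] at this
    calc ∑ k ∈ F, 2 * (1 / 2 : ℝ) ^ (k + K) = (2 * (1 / 2 : ℝ) ^ K) * ∑ k ∈ F, (1 / 2 : ℝ) ^ k := by
          rw [Finset.mul_sum]
          exact Finset.sum_congr rfl fun k _ => by rw [pow_add]; ring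
      _ ≤ (2 * (1 / 2 : ℝ) ^ K) * 2 := mul_le_mul_of_nonneg_left h4 (by positivity)
      _ = 4 * (1 / 2 : ℝ) ^ K := by ring
  refine ((dn_biUnion (Finset.range K) E c fun k hk => h1 k (Finset.mem_range.1 hk)).union h3).mono
    ?_ le_rfl
  intro n hn
  obtain ⟨k, hk⟩ := mem_iUnion.1 hn
  rcases lt_or_ge k K with h | h
  · exact Or.inl (mem_iUnion₂.2 ⟨k, Finset.mem_range.2 h, hk⟩)
  · refine Or.inr (mem_iUnion.2 ⟨k - K, ?_⟩)
    rwa [Nat.sub_add_cancel h]

theorem aasp_T : AASP T := by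
  refine aasp_of fun x hx => ?_
  set z : ℕ → Bool := fun i => (x i).1 0 with hz
  have hB : ∀ k, Dn (Bk z k) 0 := fun k => (hx (Lk k)).mono (Bk_sub le_rfl) le_rfl
  have hLpos : ∀ k, (0 : ℝ) < Lk k := fun k => by
    have : 0 < Lk k := by have := le_Mk k; unfold Lk; omega
    exact_mod_cast this
  have ht : ∀ k, ∃ t : ℕ, ∀ n ≥ t, (cnt (Bk z k) n : ℝ) ≤ (1 / 2 : ℝ) ^ k / Lk k * n := by
    intro k
    obtain ⟨t, ht⟩ := hB k ((1 / 2 : ℝ) ^ k / Lk k) (div_pos (by positivity) (hLpos k))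
    exact ⟨t, fun n hn => by simpa using ht n hn⟩
  choose t ht using ht
  set τ : ℕ → ℕ → Prop := fun k i => i < t k with hτ
  refine ⟨⟨ov τ z, AX_ov τ z⟩, ?_⟩
  have h1 : ∀ k, Dn (E1 τ k ∪ E2 τ z k) 0 := by
    intro k
    have h2 : Dn (E1 τ k) 0 := by
      refine dn_of_bdd (N := t k + Mk k + k) ?_
      rintro n ⟨i, j, h3, h4, h5, h6, h7⟩
      have h8 : i < t k ∨ i = 0 := h3
      omega
    have h3 : Dn (E2 τ z k) 0 := ((hB k).spread (Lk k)).mono (E2_sub τ z k) (by simp)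
    exact (h2.union h3).mono subset_rfl (by simp)
  have h2 : ∀ k n, (cnt (E1 τ k ∪ E2 τ z k) n : ℝ) ≤ 2 * (1 / 2 : ℝ) ^ k * n := by
    intro k n
    have h3 : (cnt (E2 τ z k) n : ℝ) ≤ (1 / 2 : ℝ) ^ k * n := by
      rcases le_or_gt n (t k) with h | h
      · have : cnt (E2 τ z k) n = 0 := by
          classical
          unfold cnt
          rw [Finset.card_eq_zero, Finset.filter_eq_empty_iff]
          rintro m hm ⟨i, h4, h5, h6, h7⟩
          rw [Finset.mem_range] at hm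
          apply h4
          show i < t k
          omega
        rw [this]
        simp only [Nat.cast_zero]
        positivity
      · have h4 : (cnt (E2 τ z k) n : ℝ) ≤ Lk k * cnt (Bk z k) n := by
          exact_mod_cast (cnt_mono (E2_sub τ z k) n).trans (cnt_spread _ _ _)
        have h5 := ht k n h.le
        have h6 := hLpos k
        calc (cnt (E2 τ z k) n : ℝ) ≤ Lk k * cnt (Bk z k) n := h4
          _ ≤ Lk k * ((1 / 2 : ℝ) ^ k / Lk k * n) := mul_le_mul_of_nonneg_left h5 h6.le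
          _ = (1 / 2 : ℝ) ^ k * n := by field_simp
    have h4 : (cnt (E1 τ k ∪ E2 τ z k) n : ℝ) ≤ cnt (E1 τ k) n + cnt (E2 τ z k) n := by
      exact_mod_cast cnt_union _ _ n
    have h5 := cnt_E1 τ k n
    linarith
  have h3 : ∀ K, Dn (⋃ k, (E1 τ k ∪ E2 τ z k)) (4 * (1 / 2 : ℝ) ^ K) := by
    intro K
    have := dn_iUnion (K := K) (c := fun _ => 0) (fun k _ => h1 k) fun k n => h2 (k + K) n
    simpa using this
  intro ε hε
  obtain ⟨K, hK⟩ := exists_pow_lt_of_lt_one (show 0 < ε / 8 by linarith)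
    (by norm_num : (1 / 2 : ℝ) < 1)
  obtain ⟨N, hN⟩ := (h3 K).mono (ov_ne_sub τ z) le_rfl (ε / 2) (by linarith)
  refine ⟨N, fun n hn => (hN n hn).trans (mul_le_mul_of_nonneg_right ?_ (Nat.cast_nonneg n))⟩
  linarith

theorem asp_T : ASP T := by
  refine asp_of fun ε hε => ?_
  obtain ⟨K, hK⟩ := exists_pow_lt_of_lt_one (show 0 < ε / 8 by linarith)
    (by norm_num : (1 / 2 : ℝ) < 1)
  obtain ⟨J, hJ⟩ : ∃ J, J = ∑ k ∈ Finset.range K, Lk k := ⟨_, rfl⟩
  refine ⟨J, ε / (2 * (J + 1)), by positivity, fun x hx => ?_⟩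
  set z : ℕ → Bool := fun i => (x i).1 0 with hz
  set τ : ℕ → ℕ → Prop := fun k _ => K ≤ k with hτ
  have hB : ∀ k < K, Dn (Bk z k) (ε / (2 * (J + 1))) := by
    intro k hk
    refine hx.mono (Bk_sub ?_) le_rfl
    rw [hJ]
    exact Finset.single_le_sum (f := Lk) (fun i _ => Nat.zero_le _) (Finset.mem_range.2 hk)
  refine ⟨⟨ov τ z, AX_ov τ z⟩, ?_⟩
  have h1 : ∀ k < K, Dn (E1 τ k ∪ E2 τ z k) (Lk k * (ε / (2 * (J + 1)))) := by
    intro k hk
    have h2 : Dn (E1 τ k) 0 := by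
      refine dn_of_bdd (N := Mk k + k) ?_
      rintro n ⟨i, j, h3, h4, h5, h6, h7⟩
      have h8 : i = 0 := by
        rcases h3 with h3 | h3
        · have : K ≤ k := h3
          omega
        · exact h3
      omega
    exact (h2.union (((hB k hk).spread (Lk k)).mono (E2_sub τ z k) le_rfl)).mono subset_rfl
      (by simp)
  have h2 : ∀ k n, (cnt (E1 τ (k + K) ∪ E2 τ z (k + K)) n : ℝ) ≤ 2 * (1 / 2 : ℝ) ^ (k + K) * n := by
    intro k n
    have h3 : E2 τ z (k + K) ⊆ ∅ := by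
      rintro m ⟨i, h4, -⟩
      apply h4
      show K ≤ k + K
      omega
    have h4 : (cnt (E1 τ (k + K) ∪ E2 τ z (k + K)) n : ℝ) ≤ cnt (E1 τ (k + K)) n := by
      exact_mod_cast cnt_mono (union_subset subset_rfl (h3.trans (empty_subset _))) n
    have h5 := cnt_E1 τ (k + K) n
    have h6 : 0 ≤ (1 / 2 : ℝ) ^ (k + K) * n := by positivity
    linarith
  have h3 := dn_iUnion (E := fun k => E1 τ k ∪ E2 τ z k) (K := K) h1 h2
  refine h3.mono (ov_ne_sub τ z) ?_
  rw [← Finset.sum_mul]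
  have h4 : (∑ k ∈ Finset.range K, (Lk k : ℝ)) = J := by rw [hJ]; push_cast; rfl
  rw [h4]
  have h5 : (J : ℝ) * (ε / (2 * (J + 1))) ≤ ε / 2 := by
    rw [← mul_div_assoc, div_le_iff₀ (by positivity)]
    nlinarith
  linarith

end Pool.Agent.R241.AS
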