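import Pool.Agent.R241.AS2
import Pool.Agent.W765.KB

/-!
# An invariant measure of full support
-/

set_option autoImplicit false

open Filter Topology Set MeasureTheory

namespace Pool.Agent.R241.AS

noncomputable instance (A : (ℕ → Bool) → Prop) : MeasurableSpace (Sub A) := borel (Sub A)

instance (A : (ℕ → Bool) → Prop) : BorelSpace (Sub A) := ⟨rfl⟩

open Classical in
/-- The copies of the word `x 0 ... x (m - 1)` with the period `Mk K`, overwritten by zeros. -/
noncomputable def yK (x : ℕ → Bool) (m K : ℕ) : ℕ → Bool := fun n =>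
  decide ((n % Mk K < m ∧ x (n % Mk K) = true) ∧ ∀ k, K < k → ¬ (Mk k ≤ n ∧ n % Mk k < k))

theorem yK_iff {x : ℕ → Bool} {m K n : ℕ} : yK x m K n = true ↔
    ((n % Mk K < m ∧ x (n % Mk K) = true) ∧ ∀ k, K < k → ¬ (Mk k ≤ n ∧ n % Mk k < k)) := by
  classical
  unfold yK
  simp only [decide_eq_true_eq]

theorem Mk_dvd {K k : ℕ} (h : K ≤ k) : Mk K ∣ Mk k := by
  unfold Mk
  exact pow_dvd_pow 2 (by have := Nat.pow_le_pow_left h 2; omega)

theorem Mk_mono {K k : ℕ} (h : K ≤ k) : Mk K ≤ Mk k := Nat.le_of_dvd (Mk_pos k) (Mk_dvd h)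

theorem AX_yK {x : ℕ → Bool} (hx : AX x) (m : ℕ) : AX (yK x m (m + 2)) := by
  obtain ⟨K, hK⟩ : ∃ K, K = m + 2 := ⟨_, rfl⟩
  rw [← hK]
  have hKK := le_Mk K
  intro k i
  have h1 := le_Mk k
  have h2 : Lk k = 2 * Mk k := rfl
  have hy : ∀ n, yK x m K n = true → n % Mk K < m ∧ x (n % Mk K) = true := fun n hn =>
    (yK_iff.1 hn).1
  obtain ⟨P, hP⟩ : ∃ P, P = Mk K := ⟨_, rfl⟩
  rw [← hP] at hy hKK
  rcases lt_trichotomy k K with hk | hk | hk
  · -- short windows
    have h3 : Lk k + m ≤ P := by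
      have h4 : Mk k ≤ Mk (m + 1) := Mk_mono (by omega)
      have h5 : Mk (m + 2) = Mk (m + 1) * 2 ^ (2 * (m + 1) + 1) := Mk_succ (m + 1)
      have h6 : 2 ^ 3 ≤ 2 ^ (2 * (m + 1) + 1) := Nat.pow_le_pow_right (by norm_num) (by omega)
      have h7 : Mk (m + 1) * 8 ≤ Mk (m + 1) * 2 ^ (2 * (m + 1) + 1) := Nat.mul_le_mul_left _ h6
      have h8 := le_Mk (m + 1)
      rw [← hK, ← hP] at h5
      omega
    -- the copy
    obtain ⟨c, hc⟩ : ∃ c : ℤ, c = (i - m + P) / P * P := ⟨_, rfl⟩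
    have hPp : (0 : ℤ) < P := by have := Mk_pos K; omega
    have hc1 : c ≤ i - m + P := by rw [hc]; exact Int.ediv_mul_le _ hPp.ne'
    have hc2 : i - m < c := by
      have := Int.lt_ediv_add_one_mul_self (i - m + P) hPp
      rw [add_mul, one_mul, ← hc] at this
      omega
    obtain ⟨j, hj1, hj2, hj3⟩ := hx k (i - c)
    refine ⟨j + c, by omega, by omega, fun n hn1 hn2 => ?_⟩
    by_contra hne
    rw [Bool.not_eq_false] at hne
    obtain ⟨hr, hxr⟩ := hy n hne
    -- the copy which contains `n`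
    have h9 : (n : ℤ) = (n / P : ℕ) * P + (n % P : ℕ) := by
      have := Nat.div_add_mod n P
      have h10 : (P : ℤ) * (n / P : ℕ) + (n % P : ℕ) = n := by exact_mod_cast this
      rw [← h10]
      ring
    obtain ⟨a, ha⟩ : ∃ a : ℤ, a = (n / P : ℕ) := ⟨_, rfl⟩
    obtain ⟨b, hb⟩ : ∃ b : ℤ, b = (i - m + P) / P := ⟨_, rfl⟩
    rw [← ha] at h9
    rw [← hb] at hc
    have hab : a = b := by
      have h11 : (a - 1) * P < b * P := by
        have : (a - 1) * (P : ℤ) = a * P - P := by ring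
        rw [this, ← hc]
        omega
      have h12 : (b - 1) * P < a * P := by
        have : (b - 1) * (P : ℤ) = b * P - P := by ring
        rw [this, ← hc]
        omega
      have h13 := lt_of_mul_lt_mul_right h11 hPp.le
      have h14 := lt_of_mul_lt_mul_right h12 hPp.le
      omega
    rw [hab, ← hc] at h9
    have h15 := hj3 (n % P) (by omega) (by omega)
    rw [h15] at hxr
    simp at hxr
  · -- the period
    subst hk
    rw [← hP] at h1 h2
    obtain ⟨c, hc⟩ : ∃ c : ℤ, c = (i - m + P - 1) / P * P := ⟨_, rfl⟩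
    have hPp : (0 : ℤ) < P := by omega
    have hc1 : c ≤ i - m + P - 1 := by rw [hc]; exact Int.ediv_mul_le _ hPp.ne'
    have hc2 : i - m ≤ c := by
      have := Int.lt_ediv_add_one_mul_self (i - m + P - 1) hPp
      rw [add_mul, one_mul, ← hc] at this
      omega
    refine ⟨c + m, by omega, by omega, fun n hn1 hn2 => ?_⟩
    by_contra hne
    rw [Bool.not_eq_false] at hne
    obtain ⟨hr, hxr⟩ := hy n hne
    have h9 : (n : ℤ) = (n / P : ℕ) * P + (n % P : ℕ) := by
      have := Nat.div_add_mod n P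
      have h10 : (P : ℤ) * (n / P : ℕ) + (n % P : ℕ) = n := by exact_mod_cast this
      rw [← h10]
      ring
    obtain ⟨a, ha⟩ : ∃ a : ℤ, a = (n / P : ℕ) := ⟨_, rfl⟩
    obtain ⟨b, hb⟩ : ∃ b : ℤ, b = (i - m + P - 1) / P := ⟨_, rfl⟩
    rw [← ha] at h9
    rw [← hb] at hc
    have h11 : b * P < a * P := by rw [← hc]; omega
    have h12 : a * P < (b + 1) * P := by
      have : (b + 1) * (P : ℤ) = b * P + P := by ring
      rw [this, ← hc]
      omega
    have h13 := lt_of_mul_lt_mul_right h11 hPp.le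
    have h14 := lt_of_mul_lt_mul_right h12 hPp.le
    omega
  · -- long windows
    rcases le_or_gt (i + k) 0 with h | h
    · exact ⟨i, le_rfl, by omega, fun n h3 h4 => by omega⟩
    · obtain ⟨j, hj⟩ : ∃ j, j = i.toNat / Mk k + 1 := ⟨_, rfl⟩
      have h3 : j * Mk k ≤ i.toNat + Mk k := by
        rw [hj, add_mul, one_mul]
        have := Nat.div_mul_le_self i.toNat (Mk k)
        omega
      have h4 : i.toNat < j * Mk k := by
        rw [hj]
        have := Nat.lt_div_mul_add (a := i.toNat) (Mk_pos k)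
        rw [add_mul, one_mul]
        omega
      have h5 : Mk k ≤ j * Mk k := by
        rw [hj, add_mul, one_mul]
        omega
      obtain ⟨s, hs⟩ : ∃ s, s = j * Mk k := ⟨_, rfl⟩
      rw [← hs] at h3 h4 h5
      refine ⟨(s : ℤ), by omega, by omega, fun n h6 h7 => ?_⟩
      by_contra hne
      rw [Bool.not_eq_false, yK_iff] at hne
      refine hne.2 k hk ⟨by omega, ?_⟩
      have h9 : n = n - s + Mk k * j := by
        have : s = Mk k * j := by rw [hs, mul_comm]
        omega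
      rw [h9, Nat.add_mul_mod_self_left, Nat.mod_eq_of_lt (by omega)]
      omega

theorem growth (m j : ℕ) :
    (m + 2 + (j + 1)) * 2 ^ (j + 2) * Mk (m + 2) ≤ Mk (m + 2 + (j + 1)) := by
  have h1 : m + 2 + (j + 1) < 2 ^ (m + 2 + (j + 1)) := Nat.lt_two_pow_self
  unfold Mk
  calc (m + 2 + (j + 1)) * 2 ^ (j + 2) * 2 ^ ((m + 2) ^ 2 + 3) ≤
        2 ^ (m + 2 + (j + 1)) * 2 ^ (j + 2) * 2 ^ ((m + 2) ^ 2 + 3) :=
        Nat.mul_le_mul_right _ (Nat.mul_le_mul_right _ h1.le)
    _ = 2 ^ (m + 2 + (j + 1) + (j + 2) + ((m + 2) ^ 2 + 3)) := by rw [← pow_add, ← pow_add]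
    _ ≤ 2 ^ ((m + 2 + (j + 1)) ^ 2 + 3) := Nat.pow_le_pow_right (by norm_num) (by nlinarith)

/-- The number of the damaged copies. -/
theorem cnt_damaged (m q : ℕ) :
    (cnt {a | ∃ k, m + 2 < k ∧ a * Mk (m + 2) ∈ E1 (fun _ _ => True) k} q : ℝ) ≤ 1 / 2 * q := by
  classical
  obtain ⟨P, hP⟩ : ∃ P, P = Mk (m + 2) := ⟨_, rfl⟩
  have hPp : 0 < P := by rw [hP]; exact Mk_pos _
  rw [← hP]
  have hsub : {a | ∃ k, m + 2 < k ∧ a * P ∈ E1 (fun _ _ => True) k} ⊆
      ⋃ j, {a | a * P ∈ E1 (fun _ _ => True) (m + 2 + (j + 1))} := by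
    rintro a ⟨k, hk, ha⟩
    refine mem_iUnion.2 ⟨k - (m + 3), ?_⟩
    rwa [show m + 2 + (k - (m + 3) + 1) = k by omega]
  have h1 : (cnt {a | ∃ k, m + 2 < k ∧ a * P ∈ E1 (fun _ _ => True) k} q : ℝ) ≤
      cnt (⋃ j, {a | a * P ∈ E1 (fun _ _ => True) (m + 2 + (j + 1))}) q := by
    exact_mod_cast cnt_mono hsub q
  refine h1.trans (cnt_iUnion_le (c := fun j => (1 / 4 : ℝ) * (1 / 2) ^ j) (fun j => ?_) fun F => ?_)
  · obtain ⟨k, hk⟩ : ∃ k, k = m + 2 + (j + 1) := ⟨_, rfl⟩
    rw [← hk]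
    have h2 : cnt {a | a * P ∈ E1 (fun _ _ => True) k} q ≤ cnt (E1 (fun _ _ => True) k) (q * P) := by
      unfold cnt
      refine Finset.card_le_card_of_injOn (fun a => a * P) (fun a ha => ?_) fun a _ b _ h =>
        Nat.eq_of_mul_eq_mul_right hPp h
      simp only [Finset.coe_filter, Finset.mem_range, Set.mem_ofPred_eq] at ha ⊢
      exact ⟨Nat.mul_lt_mul_of_pos_right ha.1 hPp, ha.2⟩
    have h3 := h2.trans (cnt_E1_nat _ k (q * P))
    have h4 := growth m j
    rw [← hk, ← hP] at h4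
    have h5 : cnt {a | a * P ∈ E1 (fun _ _ => True) k} q * 2 ^ (j + 2) * P ≤ q * P := by
      calc cnt {a | a * P ∈ E1 (fun _ _ => True) k} q * 2 ^ (j + 2) * P ≤
            (q * P / Mk k) * k * 2 ^ (j + 2) * P :=
            Nat.mul_le_mul_right _ (Nat.mul_le_mul_right _ h3)
        _ = (q * P / Mk k) * (k * 2 ^ (j + 2) * P) := by ring
        _ ≤ (q * P / Mk k) * Mk k := Nat.mul_le_mul_left _ h4
        _ ≤ q * P := Nat.div_mul_le_self _ _
    have h6 := Nat.le_of_mul_le_mul_right h5 hPp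
    have h7 : (cnt {a | a * P ∈ E1 (fun _ _ => True) k} q : ℝ) * 2 ^ (j + 2) ≤ q := by
      exact_mod_cast h6
    have h8 : (1 / 4 : ℝ) * (1 / 2) ^ j * q = q / 2 ^ (j + 2) := by
      rw [one_div, one_div, inv_pow, pow_add]
      field_simp
      ring
    rw [h8, le_div_iff₀ (by positivity)]
    exact h7
  · have h4 : ∑ k ∈ F, (1 / 2 : ℝ) ^ k ≤ 2 := by
      have := Summable.sum_le_tsum F (fun i _ => by positivity) summable_geometric_two
      rwa [tsum_geometric_two] at this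
    rw [← Finset.mul_sum]
    linarith

theorem yK_copy {x : ℕ → Bool} {m a : ℕ} (h : ¬ ∃ k, m + 2 < k ∧
    a * Mk (m + 2) ∈ E1 (fun _ _ => True) k) {t : ℕ} (ht : t < m) :
    yK x m (m + 2) (t + a * Mk (m + 2)) = x t := by
  obtain ⟨K, hK⟩ : ∃ K, K = m + 2 := ⟨_, rfl⟩
  rw [← hK] at h ⊢
  obtain ⟨P, hP⟩ : ∃ P, P = Mk K := ⟨_, rfl⟩
  have hPK := le_Mk K
  have htP : (t + a * P) % P = t := by
    rw [Nat.add_mul_mod_self_right, Nat.mod_eq_of_lt (by omega)]
  have h2 : ∀ k, K < k → ¬ (Mk k ≤ t + a * Mk K ∧ (t + a * Mk K) % Mk k < k) := by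
    rintro k hk ⟨h3, h4⟩
    apply h
    obtain ⟨d, hd⟩ := Mk_dvd hk.le
    obtain ⟨j, hj⟩ : ∃ j, j = (t + a * Mk K) / Mk k := ⟨_, rfl⟩
    have h5 := Nat.div_add_mod (t + a * Mk K) (Mk k)
    have hj1 : 1 ≤ j := by
      rw [hj]
      exact (Nat.le_div_iff_mul_le (Mk_pos k)).2 (by omega)
    rw [← hj] at h5
    have h6 : j * Mk k ≤ a * Mk K := by
      have h7 : Mk k * j = Mk K * (d * j) := by rw [hd]; ring
      rw [mul_comm, h7, mul_comm a]
      refine Nat.mul_le_mul_left _ ?_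
      by_contra hc
      have h8 : Mk K * (a + 1) ≤ Mk K * (d * j) := Nat.mul_le_mul_left _ (by omega)
      rw [← h7, mul_add, mul_one, mul_comm (Mk K) a] at h8
      omega
    rw [mul_comm (Mk k) j] at h5
    refine ⟨k, hk, j * Mk k, j, Or.inl trivial, hj1, by omega, h6, by omega⟩
  cases hx : x t
  · by_contra hne
    rw [Bool.not_eq_false, yK_iff, ← hP, htP, hx] at hne
    simp at hne
  · rw [yK_iff]
    rw [← hP] at h2 ⊢
    rw [htP, hx]
    exact ⟨⟨ht, rfl⟩, h2⟩

theorem card_count {p : ℕ → Prop} {dp : DecidablePred p} {q P : ℕ} (hP : 0 < P) (D : Set ℕ)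
    (hp : ∀ a < q, a ∉ D → ¬ p (a * P)) :
    (@Finset.filter ℕ p dp (Finset.range (q * P))).card + (q - cnt D q) ≤ q * P := by
  classical
  have h4 : (q - cnt D q) = ((Finset.range q).filter fun a => a ∉ D).card := by
    have := Finset.card_filter_add_card_filter_not (s := Finset.range q) (fun a => a ∈ D)
    rw [Finset.card_range] at this
    unfold cnt
    omega
  have h5 : ((Finset.range q).filter fun a => a ∉ D).card ≤
      ((Finset.range (q * P)).filter fun i => ¬ p i).card := by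
    refine Finset.card_le_card_of_injOn (fun a => a * P) (fun a ha => ?_) fun a _ b _ h =>
      Nat.eq_of_mul_eq_mul_right hP h
    simp only [Finset.coe_filter, Finset.mem_range, Set.mem_ofPred_eq] at ha ⊢
    exact ⟨Nat.mul_lt_mul_of_pos_right ha.1 hP, hp a ha.1 ha.2⟩
  have h6 := Finset.card_filter_add_card_filter_not (s := Finset.range (q * P)) p
  rw [Finset.card_range] at h6
  rw [h4]
  omega

/-- An invariant measure which is positive on a given cylinder. -/
theorem exists_meas (x : XX) (m : ℕ) : ∃ μ : Measure XX, IsProbabilityMeasure μ ∧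
    MeasurePreserving T μ μ ∧ 0 < μ {y | ∀ i < m, y.1 i = x.1 i} := by
  set C : Set XX := {y | ∀ i < m, y.1 i = x.1 i} with hC
  have hCcl : IsClosed C := by
    have : C = ⋂ i ∈ Finset.range m, {y : XX | y.1 i = x.1 i} := by
      ext y; simp [hC]
    rw [this]
    refine isClosed_biInter fun i _ => ?_
    have h1 : Continuous fun y : XX => y.1 i := (continuous_apply i).comp continuous_val
    exact isClosed_eq h1 continuous_const
  obtain ⟨P, hP⟩ : ∃ P, P = Mk (m + 2) := ⟨_, rfl⟩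
  have hPp : 0 < P := by rw [hP]; exact Mk_pos _
  have htend : Tendsto (fun L : ℕ => (L + 1) * P) atTop atTop := by
    refine tendsto_atTop_mono (fun L => ?_) tendsto_id
    simp only [id]
    nlinarith
  obtain ⟨y, hy⟩ : ∃ y : XX, y.1 = yK x.1 m (m + 2) := ⟨⟨_, AX_yK x.2 m⟩, rfl⟩
  obtain ⟨μ, hμ1, hμ2, hμ3⟩ := Pool.Agent.W765.KB.kb (f := T) continuous_sh
    y (fun _ => 0) (fun L => (L + 1) * P) htend (fun L => by positivity)
  refine ⟨μ, hμ1, hμ2, ?_⟩
  have h1 := hμ3 Cᶜ hCcl.isOpen_compl (ENNReal.ofReal (1 - 1 / (2 * P))) fun L => ?_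
  · have h2 : ENNReal.ofReal (1 - 1 / (2 * P)) < 1 := by
      rw [← ENNReal.ofReal_one]
      refine (ENNReal.ofReal_lt_ofReal_iff one_pos).2 ?_
      have : (0 : ℝ) < 1 / (2 * P) := by positivity
      linarith
    rw [pos_iff_ne_zero]
    intro h3
    have h4 : μ Cᶜ = 1 := by
      rw [prob_compl_eq_one_iff hCcl.measurableSet]
      exact h3
    rw [h4] at h1
    exact absurd h2 (not_lt.2 h1)
  · have hn0 : 0 < (L + 1) * P := by positivity
    refine (Pool.Agent.W765.KB.emp_apply hCcl.isOpen_compl.measurableSet).le.trans ?_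
    rw [ENNReal.inv_mul_le_iff (by exact_mod_cast hn0.ne') (ENNReal.natCast_ne_top _)]
    rw [← ENNReal.ofReal_natCast, ← ENNReal.ofReal_natCast,
      ← ENNReal.ofReal_mul (Nat.cast_nonneg _)]
    refine ENNReal.ofReal_le_ofReal ?_
    obtain ⟨q, hq⟩ : ∃ q, q = L + 1 := ⟨_, rfl⟩
    rw [← hq]
    set D : Set ℕ := {a | ∃ k, m + 2 < k ∧ a * Mk (m + 2) ∈ E1 (fun _ _ => True) k} with hD
    have h7 := cnt_damaged m q
    rw [← hD] at h7
    have h8 : cnt D q ≤ q := cnt_le D q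
    have h10 : ((q * P : ℕ) : ℝ) * (1 - 1 / (2 * P)) = q * P - q / 2 := by
      push_cast
      have : (P : ℝ) ≠ 0 := by positivity
      field_simp
    rw [h10]
    have h11 : ((q - cnt D q : ℕ) : ℝ) = q - cnt D q := by
      rw [Nat.cast_sub h8]
    have key : ∀ N : ℕ, N + (q - cnt D q) ≤ q * P → (N : ℝ) ≤ q * P - q / 2 := by
      intro N hN
      have h9 : (N : ℝ) + ((q - cnt D q : ℕ) : ℝ) ≤ q * P := by exact_mod_cast hN
      rw [h11] at h9
      linarith
    refine key _ (card_count hPp D fun a _ haD hmem => hmem ?_)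
    intro t ht
    unfold T
    rw [sh_iterate, zero_add, hP, hy]
    exact yK_copy haD ht

/-- An invariant measure of full support. -/
theorem exists_full : ∃ μ : Measure XX, IsProbabilityMeasure μ ∧ MeasurePreserving T μ μ ∧
    ∀ U : Set XX, IsOpen U → U.Nonempty → 0 < μ U := by
  have hne : ∀ U : Set XX, ∃ μ : Measure XX, IsProbabilityMeasure μ ∧ MeasurePreserving T μ μ ∧
      (IsOpen U → U.Nonempty → 0 < μ U) := by
    intro U
    by_cases hU : IsOpen U ∧ U.Nonempty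
    · obtain ⟨hU, x, hx⟩ := hU
      obtain ⟨m, hm⟩ := exists_cyl_sub (hU.mem_nhds hx)
      obtain ⟨μ, h1, h2, h3⟩ := exists_meas x m
      exact ⟨μ, h1, h2, fun _ _ => h3.trans_le (measure_mono hm)⟩
    · obtain ⟨μ, h1, h2, -⟩ := exists_meas zz 0
      exact ⟨μ, h1, h2, fun h3 h4 => absurd ⟨h3, h4⟩ hU⟩
  choose μ hμ1 hμ2 hμ3 using hne
  obtain ⟨b, hbc, hb0, hb⟩ := TopologicalSpace.exists_countable_basis XX
  have hbne : b.Nonempty := by
    obtain ⟨V, hV, -⟩ := hb.exists_subset_of_mem_open (mem_univ zz) isOpen_univ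
    exact ⟨V, hV⟩
  obtain ⟨u, hu⟩ := hbc.exists_eq_range hbne
  set w : ℕ → ENNReal := fun n => (1 / 2 : ENNReal) ^ (n + 1) with hw
  have hwsum : ∑' n, w n = 1 := by
    rw [hw, ENNReal.tsum_geometric_add_one, one_div, ENNReal.one_sub_inv_two, inv_inv]
    exact ENNReal.inv_mul_cancel (by norm_num) (by norm_num)
  set ν : Measure XX := Measure.sum fun n => w n • μ (u n) with hν
  have happ : ∀ s : Set XX, MeasurableSet s → ν s = ∑' n, w n * μ (u n) s := by
    intro s hs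
    rw [hν, Measure.sum_apply _ hs]
    rfl
  refine ⟨ν, ⟨?_⟩, ⟨?_, ?_⟩, ?_⟩
  · rw [happ _ MeasurableSet.univ]
    have : ∀ n, w n * μ (u n) univ = w n := fun n => by
      have := hμ1 (u n)
      rw [measure_univ, mul_one]
    simp only [this]
    exact hwsum
  · exact (continuous_sh (hs := AX_shift)).measurable
  · ext s hs
    have hT : Measurable T := (continuous_sh (hs := AX_shift)).measurable
    rw [Measure.map_apply hT hs, happ _ (hT hs), happ _ hs]
    refine tsum_congr fun n => ?_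
    rw [(hμ2 (u n)).measure_preimage hs.nullMeasurableSet]
  · rintro U hU ⟨x, hx⟩
    obtain ⟨V, hV, hxV, hVU⟩ := hb.exists_subset_of_mem_open hx hU
    have hV' := hV
    rw [hu] at hV'
    obtain ⟨n, rfl⟩ := hV'
    have hVo := hb.isOpen hV
    refine lt_of_lt_of_le ?_ (measure_mono hVU)
    rw [happ _ hVo.measurableSet]
    have h1 : 0 < w n * μ (u n) (u n) := by
      refine ENNReal.mul_pos ?_ (hμ3 (u n) hVo ⟨x, hxV⟩).ne'
      simp only [hw]
      exact pow_ne_zero _ (by simp)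
    exact h1.trans_le (ENNReal.le_tsum n)

end Pool.Agent.R241.AS
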