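import Pool.Agent.R241.AS2

/-!
# Words
-/

set_option autoImplicit false

open Filter Topology Set

namespace Pool.Agent.R241.AS

/-- The concatenations of the words of `W`. -/
def St (W : Set (List Bool)) : Set (List Bool) :=
  {v | ∃ L : List (List Bool), (∀ w ∈ L, w ∈ W) ∧ L.flatten = v}

variable {W : Set (List Bool)}

theorem St.nil : [] ∈ St W := ⟨[], by simp, rfl⟩

theorem st_append {v v' : List Bool} (hv : v ∈ St W) (hv' : v' ∈ St W) : v ++ v' ∈ St W := by
  obtain ⟨L, hL, rfl⟩ := hv
  obtain ⟨L', hL', rfl⟩ := hv'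
  refine ⟨L ++ L', fun w hw => ?_, by simp⟩
  rcases List.mem_append.1 hw with h | h
  · exact hL w h
  · exact hL' w h

theorem St.of_mem {w : List Bool} (h : w ∈ W) : w ∈ St W := ⟨[w], by simpa using h, by simp⟩

theorem St.replicate {w : List Bool} (h : w ∈ W) (n : ℕ) : (List.replicate n w).flatten ∈ St W :=
  ⟨_, fun v hv => by rw [List.eq_of_mem_replicate hv]; exact h, rfl⟩

theorem St.mono {W' : Set (List Bool)} (h : W' ⊆ St W) : St W' ⊆ St W := by
  rintro v ⟨L, hL, rfl⟩
  induction L with
  | nil => exact St.nil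
  | cons w L ih =>
    rw [List.flatten_cons]
    exact st_append (h (hL w (by simp))) (ih fun v hv => hL v (by simp [hv]))

/-- The word occurs in a concatenation of words of `W`. -/
def Inf (W : Set (List Bool)) (p : List Bool) : Prop := ∃ v ∈ St W, p <:+: v

theorem Inf.mono {p q : List Bool} (h : Inf W q) (hpq : p <:+: q) : Inf W p := by
  obtain ⟨v, hv, hqv⟩ := h
  exact ⟨v, hv, hpq.trans hqv⟩

/-- Cutting a concatenation near a given place. -/
theorem cut {M : ℕ} {L : List (List Bool)} (hL : ∀ w ∈ L, w.length ≤ M) {A : ℕ}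
    (hA : A ≤ L.flatten.length) : ∃ L1 L2 : List (List Bool), L = L1 ++ L2 ∧
      A ≤ L1.flatten.length ∧ L1.flatten.length ≤ A + M := by
  induction L generalizing A with
  | nil =>
    refine ⟨[], [], rfl, hA, by simp⟩
  | cons w L ih =>
    rcases Nat.eq_zero_or_pos A with h0 | h0
    · exact ⟨[], w :: L, rfl, by simp [h0], by simp⟩
    · have hw := hL w (by simp)
      rcases le_or_gt A w.length with h | h
      · exact ⟨[w], L, rfl, by simpa using h, by simp; omega⟩
      · rw [List.flatten_cons, List.length_append] at hA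
        obtain ⟨L1, L2, h1, h2, h3⟩ := ih (fun v hv => hL v (by simp [hv]))
          (A := A - w.length) (by omega)
        refine ⟨w :: L1, L2, by rw [h1]; rfl, ?_, ?_⟩
        · rw [List.flatten_cons, List.length_append]
          omega
        · rw [List.flatten_cons, List.length_append]
          omega

/-- A word which occurs in a concatenation contains a long concatenation. -/
theorem decomp {M : ℕ} (hM : ∀ w ∈ W, w.length ≤ M) {p : List Bool} (hp : Inf W p) {A B : ℕ}
    (h : A + B + 2 * M ≤ p.length) : ∃ p1 p2 p3 : List Bool, p = p1 ++ p2 ++ p3 ∧ p2 ∈ St W ∧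
      A ≤ p1.length ∧ p1.length ≤ A + M ∧ B ≤ p3.length ∧ p3.length ≤ B + M := by
  obtain ⟨v, ⟨L, hL, rfl⟩, s, t, hst⟩ := hp
  have hlen := congrArg List.length hst
  simp only [List.length_append] at hlen
  obtain ⟨L1, L2, h1, h2, h3⟩ := cut (fun w hw => hM w (hL w hw)) (A := s.length + A) (by omega)
  have hL2 : ∀ w ∈ L2, w.length ≤ M := fun w hw => hM w (hL w (by rw [h1]; simp [hw]))
  have hlen2 : L.flatten.length = L1.flatten.length + L2.flatten.length := by
    rw [h1, List.flatten_append, List.length_append]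
  obtain ⟨L3, L4, h4, h5, h6⟩ := cut hL2
    (A := s.length + p.length - B - M - L1.flatten.length) (by omega)
  have e1 : s ++ (p ++ t) = L1.flatten ++ (L3.flatten ++ L4.flatten) := by
    rw [← List.append_assoc, hst, h1, h4]
    simp
  have e2 : s <+: L1.flatten := by
    refine List.prefix_of_prefix_length_le (l₃ := s ++ (p ++ t)) (List.prefix_append _ _) ?_
      (by omega)
    rw [e1]
    exact List.prefix_append _ _
  obtain ⟨p1, hp1⟩ := e2
  rw [← hp1, List.append_assoc] at e1
  have e3 := List.append_cancel_left e1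
  have hlen3 := congrArg List.length hp1
  rw [List.length_append] at hlen3
  have e4 : p1 ++ L3.flatten <+: p := by
    refine List.prefix_of_prefix_length_le (l₃ := p ++ t) ?_ (List.prefix_append _ _) ?_
    · rw [e3, ← List.append_assoc]
      exact List.prefix_append _ _
    · rw [List.length_append]
      omega
  obtain ⟨p3, hp3⟩ := e4
  have hlen4 := congrArg List.length hp3
  simp only [List.length_append] at hlen4
  refine ⟨p1, L3.flatten, p3, hp3.symm, ⟨L3, fun w hw => hL w ?_, rfl⟩, ?_, ?_, ?_, ?_⟩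
  · rw [h1, h4]; simp [hw]
  · omega
  · omega
  · omega
  · omega

/-- A short word which occurs in a concatenation occurs in a concatenation of two words. -/
theorem two_words {l : ℕ} (hl : ∀ w ∈ W, l ≤ w.length) (hne : W.Nonempty) {p : List Bool}
    (hp : Inf W p) (hpl : p.length ≤ l) : ∃ w ∈ W, ∃ w' ∈ W, p <:+: w ++ w' := by
  obtain ⟨v, ⟨L, hL, rfl⟩, hpL⟩ := hp
  induction L with
  | nil =>
    obtain ⟨w, hw⟩ := hne
    have : p = [] := by simpa using hpL
    exact ⟨w, hw, w, hw, by rw [this]; exact List.nil_infix⟩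
  | cons w L ih =>
    have hw := hL w (by simp)
    have hL' : ∀ v ∈ L, v ∈ W := fun v hv => hL v (by simp [hv])
    obtain ⟨s, t, hst⟩ := hpL
    rw [List.flatten_cons] at hst
    rcases le_or_gt w.length s.length with h | h
    · -- the word starts after `w`
      apply ih hL'
      have e1 : w <+: s := by
        refine List.prefix_of_prefix_length_le (l₃ := s ++ p ++ t) ?_ ?_ h
        · rw [hst]; exact List.prefix_append _ _
        · rw [List.append_assoc]; exact List.prefix_append _ _
      obtain ⟨s', rfl⟩ := e1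
      rw [List.append_assoc, List.append_assoc] at hst
      have := List.append_cancel_left hst
      exact ⟨s', t, by rw [← this, List.append_assoc]⟩
    · cases L with
      | nil =>
        refine ⟨w, hw, w, hw, ?_⟩
        rw [List.flatten_nil, List.append_nil] at hst
        exact List.IsInfix.trans (show p <:+: w from ⟨s, t, hst⟩) ⟨[], w, by simp⟩
      | cons w' L =>
        have hw' := hL' w' (by simp)
        refine ⟨w, hw, w', hw', ?_⟩
        rw [List.flatten_cons] at hst
        have h1 := hl w' hw'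
        have e1 : s ++ p <+: w ++ w' := by
          refine List.prefix_of_prefix_length_le (l₃ := s ++ p ++ t) (List.prefix_append _ _) ?_ ?_
          · rw [hst, ← List.append_assoc]; exact List.prefix_append _ _
          · rw [List.length_append, List.length_append]
            omega
        obtain ⟨r, hr⟩ := e1
        exact ⟨s, r, hr⟩

/-- A level of the construction. -/
structure Lev where
  /-- the length -/
  l : ℕ
  /-- the words -/
  W : Set (List Bool)
  hl : 1 ≤ l
  len : ∀ w ∈ W, w.length = l ∨ w.length = l + 1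
  w0 : ∃ w ∈ W, w.length = l
  w1 : ∃ w ∈ W, w.length = l + 1

theorem Lev.fill (L : Lev) {n : ℕ} (hn : L.l ^ 2 ≤ n) : ∃ v ∈ St L.W, v.length = n := by
  obtain ⟨w0, h0, e0⟩ := L.w0
  obtain ⟨w1, h1, e1⟩ := L.w1
  have hl := L.hl
  obtain ⟨q, hq⟩ : ∃ q, q = n / L.l := ⟨_, rfl⟩
  obtain ⟨r, hr⟩ : ∃ r, r = n % L.l := ⟨_, rfl⟩
  have h2 : r < L.l := by rw [hr]; exact Nat.mod_lt _ hl
  have h3 : L.l ≤ q := by
    rw [hq]
    exact (Nat.le_div_iff_mul_le hl).2 (by rw [← pow_two]; exact hn)
  have h4 : L.l * q + r = n := by rw [hq, hr]; exact Nat.div_add_mod n L.l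
  refine ⟨(List.replicate (q - r) w0).flatten ++ (List.replicate r w1).flatten,
    st_append (St.replicate h0 _) (St.replicate h1 _), ?_⟩
  simp only [List.length_append, List.length_flatten, List.map_replicate, List.sum_replicate,
    smul_eq_mul, e0, e1]
  obtain ⟨d, hd⟩ : ∃ d, q = r + d := ⟨q - r, by omega⟩
  rw [hd] at h4 ⊢
  rw [Nat.add_sub_cancel_left, ← h4]
  ring

theorem Lev.exists_u (L : Lev) : ∃ u ∈ St L.W, (∀ w ∈ L.W, ∀ w' ∈ L.W, w ++ w' <:+: u) ∧
    L.l ∣ u.length := by
  have hfin : L.W.Finite := by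
    refine ((List.finite_length_eq Bool L.l).union (List.finite_length_eq Bool (L.l + 1))).subset ?_
    intro w hw
    rcases L.len w hw with h | h
    · exact Or.inl h
    · exact Or.inr h
  have hfin2 : (L.W ×ˢ L.W).Finite := hfin.prod hfin
  have key : ∀ S : Set (List Bool × List Bool), S.Finite → S ⊆ L.W ×ˢ L.W →
      ∃ u ∈ St L.W, ∀ q ∈ S, q.1 ++ q.2 <:+: u := by
    intro S hS
    induction S, hS using Set.Finite.induction_on with
    | empty => exact fun _ => ⟨[], St.nil, fun q hq => hq.elim⟩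
    | @insert q S _ _ ih =>
      intro hsub
      obtain ⟨u, hu, h⟩ := ih fun x hx => hsub (mem_insert_of_mem _ hx)
      have hq := hsub (mem_insert q S)
      refine ⟨u ++ (q.1 ++ q.2), st_append hu (st_append (St.of_mem hq.1) (St.of_mem hq.2)), ?_⟩
      intro x hx
      rcases hx with rfl | hx
      · exact ⟨u, [], by simp⟩
      · exact (h x hx).trans ⟨[], q.1 ++ q.2, by simp⟩
  obtain ⟨u, hu, h⟩ := key _ hfin2 subset_rfl
  obtain ⟨v, hv, hvl⟩ := L.fill (n := u.length * (L.l - 1) + L.l ^ 2) (by omega)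
  refine ⟨u ++ v, st_append hu hv, fun w hw w' hw' =>
    (h (w, w') ⟨hw, hw'⟩).trans ⟨[], v, by simp⟩, ?_⟩
  obtain ⟨d, hd⟩ : ∃ d, L.l = d + 1 := ⟨L.l - 1, by have := L.hl; omega⟩
  rw [List.length_append, hvl, hd]
  refine ⟨u.length + (d + 1), ?_⟩
  rw [Nat.add_sub_cancel]
  ring

/-- The word which contains all the pairs. -/
noncomputable def Lev.u (L : Lev) : List Bool := L.exists_u.choose

theorem Lev.u_mem (L : Lev) : L.u ∈ St L.W := L.exists_u.choose_spec.1

theorem Lev.infix_u (L : Lev) {w w' : List Bool} (hw : w ∈ L.W) (hw' : w' ∈ L.W) :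
    w ++ w' <:+: L.u := L.exists_u.choose_spec.2.1 w hw w' hw'

theorem Lev.dvd_u (L : Lev) : L.l ∣ L.u.length := L.exists_u.choose_spec.2.2

/-- The multiplier. -/
noncomputable def Lev.m (L : Lev) (j : ℕ) : ℕ :=
  2 ^ (j + 10) * (L.u.length + 2 * L.l ^ 2 + 2 * L.l + 2)

theorem Lev.le_m (L : Lev) (j : ℕ) : L.u.length + 2 * L.l ^ 2 + 2 * L.l + 2 ≤ L.m j := by
  unfold Lev.m
  exact Nat.le_mul_of_pos_left _ (by positivity)

theorem Lev.m_le (L : Lev) (j : ℕ) : L.m j ≤ L.l * L.m j := Nat.le_mul_of_pos_left _ L.hl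

/-- The next level. -/
noncomputable def Lev.next (L : Lev) (j : ℕ) : Lev where
  l := 8 * (L.l * L.m j)
  W := {v | ∃ v' ∈ St L.W, v = L.u ++ v' ∧
    (v.length = 8 * (L.l * L.m j) ∨ v.length = 8 * (L.l * L.m j) + 1)}
  hl := by have := L.le_m j; have := L.m_le j; omega
  len := by
    rintro w ⟨v', -, -, h⟩
    exact h
  w0 := by
    have h1 := L.le_m j
    have h2 := L.m_le j
    obtain ⟨v, hv, hvl⟩ := L.fill (n := 8 * (L.l * L.m j) - L.u.length) (by omega)
    refine ⟨L.u ++ v, ⟨v, hv, rfl, Or.inl ?_⟩, ?_⟩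
    · rw [List.length_append]; omega
    · rw [List.length_append]; omega
  w1 := by
    have h1 := L.le_m j
    have h2 := L.m_le j
    obtain ⟨v, hv, hvl⟩ := L.fill (n := 8 * (L.l * L.m j) + 1 - L.u.length) (by omega)
    refine ⟨L.u ++ v, ⟨v, hv, rfl, Or.inr ?_⟩, ?_⟩
    · rw [List.length_append]; omega
    · rw [List.length_append]; omega

/-- The first level. -/
def lev0 : Lev where
  l := 1
  W := {v | v.length = 1 ∨ v.length = 2}
  hl := le_rfl
  len := fun _ h => h
  w0 := ⟨[false], Or.inl rfl, rfl⟩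
  w1 := ⟨[false, false], Or.inr rfl, rfl⟩

/-- The levels. -/
noncomputable def lev : ℕ → Lev
  | 0 => lev0
  | j + 1 => (lev j).next j

theorem lev_succ (j : ℕ) : lev (j + 1) = (lev j).next j := rfl

theorem l_succ (j : ℕ) : (lev (j + 1)).l = 8 * ((lev j).l * (lev j).m j) := rfl

theorem mem_W_succ {j : ℕ} {v' : List Bool} (hv : v' ∈ St (lev j).W)
    (h : ((lev j).u ++ v').length = (lev (j + 1)).l) : (lev j).u ++ v' ∈ (lev (j + 1)).W :=
  ⟨v', hv, rfl, Or.inl h⟩

theorem W_succ_sub (j : ℕ) : (lev (j + 1)).W ⊆ St (lev j).W := by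
  rintro v ⟨v', hv', rfl, -⟩
  exact st_append (lev j).u_mem hv'

theorem St_mono {j k : ℕ} (h : j ≤ k) : St (lev k).W ⊆ St (lev j).W := by
  induction k, h using Nat.le_induction with
  | base => exact subset_rfl
  | succ k _ ih => exact (St.mono (W_succ_sub k)).trans ih

theorem len_le {j : ℕ} {w : List Bool} (hw : w ∈ (lev j).W) : w.length ≤ (lev j).l + 1 := by
  rcases (lev j).len w hw with h | h <;> omega

theorem le_len {j : ℕ} {w : List Bool} (hw : w ∈ (lev j).W) : (lev j).l ≤ w.length := by
  rcases (lev j).len w hw with h | h <;> omega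

theorem lt_l (j : ℕ) : j < (lev j).l := by
  induction j with
  | zero => exact lev0.hl
  | succ j ih =>
    rw [l_succ]
    have h1 := (lev j).le_m j
    have h2 := (lev j).m_le j
    omega

/-- The left extension. -/
theorem extend_left {j : ℕ} {p : List Bool} (hp : p ∈ St (lev j).W)
    (h : p.length ≤ (lev j).l + 1 + (lev j).l * (lev j).m j) : ∃ q, q ++ p ∈ (lev (j + 1)).W := by
  have h1 := (lev j).le_m j
  have h2 := (lev j).m_le j
  have h3 := l_succ j
  obtain ⟨v, hv, hvl⟩ := (lev j).fill (n := (lev (j + 1)).l - (lev j).u.length - p.length) (by omega)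
  refine ⟨(lev j).u ++ v, ?_⟩
  rw [List.append_assoc]
  refine mem_W_succ (st_append hv hp) ?_
  rw [List.length_append, List.length_append]
  omega

end Pool.Agent.R241.AS
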