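import Pool.Agent.R241.AS4

/-!
# The minimal subshift
-/

set_option autoImplicit false

open Filter Topology Set

namespace Pool.Agent.R241.AS

/-- The word `x a, ..., x (a + n - 1)`. -/
def seg (x : ℕ → Bool) (a n : ℕ) : List Bool := (List.range n).map fun i => x (a + i)

theorem seg_length (x : ℕ → Bool) (a n : ℕ) : (seg x a n).length = n := by simp [seg]

theorem seg_getElem {x : ℕ → Bool} {a n i : ℕ} (h : i < (seg x a n).length) :
    (seg x a n)[i] = x (a + i) := by
  simp [seg]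

theorem seg_add (x : ℕ → Bool) (a m n : ℕ) : seg x a (m + n) = seg x a m ++ seg x (a + m) n := by
  unfold seg
  rw [List.range_add, List.map_append, List.map_map]
  congr 1
  refine List.map_congr_left fun i _ => ?_
  simp [Function.comp, Nat.add_assoc]

theorem seg_congr {x y : ℕ → Bool} {a b n : ℕ} (h : ∀ i < n, x (a + i) = y (b + i)) :
    seg x a n = seg y b n := by
  unfold seg
  exact List.map_congr_left fun i hi => h i (List.mem_range.1 hi)

theorem seg_eq {x : ℕ → Bool} {a : ℕ} {u : List Bool}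
    (h : ∀ i < u.length, x (a + i) = u.getD i false) : seg x a u.length = u := by
  refine List.ext_getElem (seg_length _ _ _) fun i h1 h2 => ?_
  rw [seg_getElem, h i h2, List.getD_eq_getElem _ _ h2]

theorem seg_prefix {x : ℕ → Bool} {a m n : ℕ} (h : m ≤ n) : seg x a m <+: seg x a n := by
  obtain ⟨d, rfl⟩ := Nat.exists_eq_add_of_le h
  rw [seg_add]
  exact List.prefix_append _ _

theorem blocks_St {W : Set (List Bool)} {x : ℕ → Bool} {a l : ℕ}
    (h : ∀ c, seg x (a + c * l) l ∈ W) (c d : ℕ) : seg x (a + c * l) (d * l) ∈ St W := by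
  induction d with
  | zero => simpa [seg] using St.nil
  | succ d ih =>
    rw [add_mul, one_mul, seg_add]
    refine st_append ih (St.of_mem ?_)
    have := h (c + d)
    rwa [add_mul, ← add_assoc] at this

/-- The predicate of the minimal subshift. -/
def AM (x : ℕ → Bool) : Prop := ∀ j n, Inf (lev j).W (seg x 0 n)

theorem isClosed_AM : IsClosed {x | AM x} := by
  rw [← isOpen_compl_iff, isOpen_iff_mem_nhds]
  intro x hx
  have hx' : ¬ AM x := hx
  unfold AM at hx'
  push Not at hx'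
  obtain ⟨j, n, h⟩ := hx'
  refine mem_of_superset ((PiNat.isOpen_cylinder _ x n).mem_nhds
    (PiNat.self_mem_cylinder _ _)) ?_
  intro y hy hyA
  rw [PiNat.mem_cylinder_iff] at hy
  apply h
  have := hyA j n
  rwa [seg_congr (y := x) (b := 0) fun i hi => by rw [zero_add]; exact hy i hi] at this

theorem AM_shift (x : ℕ → Bool) (h : AM x) : AM fun n => x (n + 1) := by
  intro j n
  refine (h j (1 + n)).mono ?_
  rw [seg_add]
  refine ⟨seg x 0 1, [], ?_⟩
  rw [List.append_nil]
  congr 1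
  exact seg_congr fun i _ => by
    show x (0 + i + 1) = _
    rw [show 0 + i + 1 = 0 + 1 + i by omega]

/-- The system. -/
abbrev XM : Type := Sub AM

/-- The shift. -/
def TM : XM → XM := sh AM_shift

instance : CompactSpace XM := compactSpace_sub isClosed_AM

/-- The starting places. -/
noncomputable def aa (k0 : ℕ) : ℕ → ℕ
  | 0 => 0
  | i + 1 => aa k0 i + (lev (k0 + i)).l * (lev (k0 + i)).m (k0 + i)

/-- The overwritten sequences. -/
noncomputable def YY (k0 : ℕ) (y : ℕ → Bool) : ℕ → ℕ → Bool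
  | 0 => y
  | i + 1 => fun n =>
    if aa k0 (i + 1) ≤ n ∧ (n - aa k0 (i + 1)) % (lev (k0 + i + 1)).l < (lev (k0 + i)).u.length then
      (lev (k0 + i)).u.getD ((n - aa k0 (i + 1)) % (lev (k0 + i + 1)).l) false
    else YY k0 y i n

variable {k0 : ℕ} {y : ℕ → Bool}

theorem u_lt (k : ℕ) : (lev k).u.length < (lev (k + 1)).l := by
  rw [l_succ]
  have h1 := (lev k).le_m k
  have h2 := (lev k).m_le k
  omega

theorem aa_lt (k0 i : ℕ) : i ≤ aa k0 i := by
  induction i with
  | zero => exact Nat.zero_le _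
  | succ i ih =>
    show i + 1 ≤ aa k0 i + _
    have h1 := (lev (k0 + i)).le_m (k0 + i)
    have h2 := (lev (k0 + i)).m_le (k0 + i)
    omega

theorem aa_mono (k0 : ℕ) {i j : ℕ} (h : i ≤ j) : aa k0 i ≤ aa k0 j := by
  induction j, h using Nat.le_induction with
  | base => exact le_rfl
  | succ j _ ih => exact ih.trans (Nat.le_add_right _ _)

theorem YY_stable {i n : ℕ} (hn : n < aa k0 (i + 1)) {j : ℕ} (hj : i ≤ j) :
    YY k0 y j n = YY k0 y i n := by
  induction j, hj using Nat.le_induction with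
  | base => rfl
  | succ j hj ih =>
    rw [← ih]
    show (if _ then _ else _) = _
    rw [if_neg]
    rintro ⟨h, -⟩
    have := aa_mono k0 (show i + 1 ≤ j + 1 by omega)
    omega

theorem overwrite_block {Y Y' : ℕ → Bool} {u : List Bool} {a L r : ℕ}
    (hY : ∀ n, Y' n = if a ≤ n ∧ (n - a) % L < u.length then u.getD ((n - a) % L) false else Y n)
    (hr : L = u.length + r) (c : ℕ) :
    seg Y' (a + c * L) L = u ++ seg Y (a + c * L + u.length) r := by
  have hmod : ∀ t < L, (a + c * L + t - a) % L = t := by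
    intro t ht
    rw [show a + c * L + t - a = t + c * L by omega, Nat.add_mul_mod_self_right,
      Nat.mod_eq_of_lt ht]
  have this : seg Y' (a + c * L) L = seg Y' (a + c * L) (u.length + r) := by rw [← hr]
  rw [this, seg_add]
  congr 1
  · refine seg_eq fun t ht => ?_
    rw [hY, hmod t (by omega), if_pos ⟨by omega, ht⟩]
  · refine seg_congr fun t ht => ?_
    rw [Nat.add_assoc (a + c * L), hY, hmod _ (by omega), if_neg (by omega)]

theorem YY_succ (k0 : ℕ) (y : ℕ → Bool) (i n : ℕ) : YY k0 y (i + 1) n =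
    if aa k0 (i + 1) ≤ n ∧ (n - aa k0 (i + 1)) % (lev (k0 + i + 1)).l < (lev (k0 + i)).u.length then
      (lev (k0 + i)).u.getD ((n - aa k0 (i + 1)) % (lev (k0 + i + 1)).l) false
    else YY k0 y i n := rfl

theorem aa_succ (k0 i : ℕ) :
    aa k0 (i + 1) = aa k0 i + (lev (k0 + i)).m (k0 + i) * (lev (k0 + i)).l := by
  rw [mul_comm]
  rfl

theorem arith1 {a0 m l c e U L : ℕ} (he : U = l * e) (hL : L = 8 * (l * m)) :
    a0 + m * l + c * L + U = a0 + (m + c * (8 * m) + e) * l := by
  rw [he, hL]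
  ring

theorem arith2 {l U L m : ℕ} (hU : l ∣ U) (hL : L = 8 * (l * m)) (h : U < L) :
    ∃ d, L = U + d * l := by
  obtain ⟨e, rfl⟩ := hU
  refine ⟨8 * m - e, ?_⟩
  have h1 : l * e < l * (8 * m) := by rw [hL] at h; linarith
  have h2 : e < 8 * m := lt_of_mul_lt_mul_left h1 (Nat.zero_le _)
  obtain ⟨f, hf⟩ := Nat.exists_eq_add_of_le h2.le
  rw [hL, hf, Nat.add_sub_cancel_left, mul_comm f l, ← mul_add, ← hf]
  ring

theorem YY_block (h : ∀ c, seg y (c * (lev k0).l) (lev k0).l ∈ (lev k0).W) (i : ℕ) :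
    ∀ c, seg (YY k0 y i) (aa k0 i + c * (lev (k0 + i)).l) (lev (k0 + i)).l ∈ (lev (k0 + i)).W := by
  induction i with
  | zero =>
    intro c
    show seg y (0 + _) _ ∈ _
    rw [zero_add]
    exact h c
  | succ i ih =>
    intro c
    obtain ⟨e, he⟩ := (lev (k0 + i)).dvd_u
    obtain ⟨d, hd⟩ := arith2 (lev (k0 + i)).dvd_u (l_succ (k0 + i)) (u_lt (k0 + i))
    have e1 := overwrite_block (YY_succ k0 y i) hd c
    have e2 := arith1 (a0 := aa k0 i) (c := c) he (l_succ (k0 + i))
    rw [← aa_succ] at e2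
    rw [e2] at e1
    have e3 := mem_W_succ (blocks_St ih ((lev (k0 + i)).m (k0 + i) +
      c * (8 * (lev (k0 + i)).m (k0 + i)) + e) d) (by
        rw [List.length_append, seg_length]
        exact hd.symm)
    rw [← e1] at e3
    exact e3

theorem YY_prefix (h : ∀ c, seg y (c * (lev k0).l) (lev k0).l ∈ (lev k0).W) (i : ℕ) :
    ∃ q, q ++ seg (YY k0 y i) 0 (aa k0 i) ∈ (lev (k0 + i)).W := by
  induction i with
  | zero =>
    obtain ⟨w, hw, -⟩ := (lev k0).w0
    exact ⟨w, by simpa [seg, aa] using hw⟩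
  | succ i ih =>
    obtain ⟨q, hq⟩ := ih
    obtain ⟨k, hk⟩ : ∃ k, k = k0 + i := ⟨_, rfl⟩
    rw [show k0 + (i + 1) = k + 1 by omega]
    have e1 : seg (YY k0 y (i + 1)) 0 (aa k0 (i + 1)) = seg (YY k0 y i) 0 (aa k0 i) ++
        seg (YY k0 y i) (aa k0 i + 0 * (lev k).l) ((lev k).m k * (lev k).l) := by
      rw [seg_congr (y := YY k0 y i) (b := 0) fun t ht => YY_stable (by omega) (Nat.le_succ i)]
      rw [show aa k0 (i + 1) = aa k0 i + (lev k).m k * (lev k).l by
        rw [hk]
        show aa k0 i + _ = _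
        rw [mul_comm]]
      rw [seg_add, zero_mul, zero_add, add_zero]
    have h2 := YY_block h i
    rw [← hk] at hq h2
    obtain ⟨q', hq'⟩ := extend_left (j := k)
      (p := q ++ seg (YY k0 y i) 0 (aa k0 i) ++
        seg (YY k0 y i) (aa k0 i + 0 * (lev k).l) ((lev k).m k * (lev k).l))
      (st_append (St.of_mem hq) (blocks_St h2 0 _)) (by
        have := len_le hq
        rw [List.length_append, seg_length, mul_comm]
        omega)
    refine ⟨q' ++ q, ?_⟩
    rw [e1]
    simpa [List.append_assoc] using hq'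

/-- The limit. -/
noncomputable def YL (k0 : ℕ) (y : ℕ → Bool) : ℕ → Bool := fun n => YY k0 y n n

theorem YL_eq {i n : ℕ} (hn : n < aa k0 (i + 1)) : YL k0 y n = YY k0 y i n := by
  unfold YL
  rcases le_total i n with h | h
  · exact YY_stable hn h
  · exact (YY_stable (by have := aa_lt k0 (n + 1); omega) h).symm

theorem AM_YL (h : ∀ c, seg y (c * (lev k0).l) (lev k0).l ∈ (lev k0).W) : AM (YL k0 y) := by
  intro j n
  obtain ⟨i, hi⟩ : ∃ i, i = j + n := ⟨_, rfl⟩
  have h1 : n ≤ aa k0 i := by have := aa_lt k0 i; omega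
  obtain ⟨q, hq⟩ := YY_prefix h i
  refine Inf.mono ⟨_, St_mono (show j ≤ k0 + i by omega) (St.of_mem hq), ?_⟩
    (seg_prefix h1).isInfix
  have h2 : seg (YL k0 y) 0 (aa k0 i) = seg (YY k0 y i) 0 (aa k0 i) :=
    seg_congr fun t ht => YL_eq (by have := aa_mono k0 (show i ≤ i + 1 by omega); omega)
  rw [h2]
  exact ⟨q, [], by simp⟩

/-- The overwritten places. -/
noncomputable def EE (k0 i : ℕ) : Set ℕ :=
  {n | aa k0 (i + 1) ≤ n ∧ (n - aa k0 (i + 1)) % (lev (k0 + i + 1)).l < (lev (k0 + i)).u.length}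

theorem YL_ne (k0 : ℕ) (y : ℕ → Bool) : {n | YL k0 y n ≠ y n} ⊆ ⋃ i, EE k0 i := by
  intro n hn
  by_contra hc
  apply hn
  have h1 : ∀ i, YY k0 y i n = y n := by
    intro i
    induction i with
    | zero => rfl
    | succ i ih =>
      rw [← ih]
      show (if _ then _ else _) = _
      rw [if_neg]
      intro h
      exact hc (mem_iUnion.2 ⟨i, h⟩)
  exact h1 n

theorem cnt_periodic {l : ℕ} (R : Finset ℕ) (n : ℕ) :
    cnt {i | i % l ∈ R} n ≤ (n / l + 1) * R.card := by
  classical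
  unfold cnt
  have : (Finset.range (n / l + 1) ×ˢ R).card = (n / l + 1) * R.card := by
    rw [Finset.card_product, Finset.card_range]
  rw [← this]
  refine Finset.card_le_card_of_injOn (fun i => (i / l, i % l)) (fun i hi => ?_) fun i _ j _ h => ?_
  · simp only [Finset.coe_filter, Finset.mem_range, Set.mem_ofPred_eq] at hi
    simp only [Finset.coe_product, Set.mem_prod, Finset.mem_coe, Finset.mem_range]
    exact ⟨Nat.lt_succ_of_le (Nat.div_le_div_right hi.1.le), hi.2⟩
  · simp only [Prod.mk.injEq] at h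
    rw [← Nat.div_add_mod i l, ← Nat.div_add_mod j l, h.1, h.2]

theorem real_bound {c L n U p : ℝ} (hp : 0 < p) (hL : 0 < L) (hn : 0 ≤ n)
    (h4 : c * L ≤ 9 * n * U) (h5 : 1024 * p * U ≤ L) : c ≤ p⁻¹ * n := by
  rw [← div_eq_inv_mul, le_div_iff₀ hp]
  have h1 : (c * L) * p ≤ (9 * n * U) * p := mul_le_mul_of_nonneg_right h4 hp.le
  have h2 : n * (1024 * p * U) ≤ n * L := mul_le_mul_of_nonneg_left h5 hn
  have h3 : 0 ≤ n * L := by positivity
  have h6 : (c * p) * L ≤ n * L := by nlinarith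
  exact le_of_mul_le_mul_right h6 hL

theorem cnt_EE (k0 i n : ℕ) : (cnt (EE k0 i) n : ℝ) ≤ (1 / 2 : ℝ) ^ (k0 + i) * n := by
  classical
  obtain ⟨k, hk⟩ : ∃ k, k = k0 + i := ⟨_, rfl⟩
  obtain ⟨L, hL⟩ : ∃ L, L = (lev (k + 1)).l := ⟨_, rfl⟩
  obtain ⟨U, hU⟩ : ∃ U, U = (lev k).u.length := ⟨_, rfl⟩
  have hL1 : L = 8 * ((lev k).l * (lev k).m k) := by rw [hL, l_succ]
  have hE : EE k0 i = {n | aa k0 (i + 1) ≤ n ∧ n - aa k0 (i + 1) ∈ {i | i % L ∈ Finset.range U}} := by
    unfold EE
    rw [← hk, ← hL, ← hU]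
    ext n
    simp
  have hLp : 0 < L := by have := lt_l (k + 1); omega
  have haL : L ≤ 8 * aa k0 (i + 1) := by
    have : aa k0 (i + 1) = aa k0 i + (lev (k0 + i)).l * (lev (k0 + i)).m (k0 + i) := rfl
    rw [← hk] at this
    omega
  rcases le_or_gt n (aa k0 (i + 1)) with h | h
  · have : cnt (EE k0 i) n = 0 := by
      unfold cnt
      rw [Finset.card_eq_zero, Finset.filter_eq_empty_iff]
      rintro m hm ⟨h1, -⟩
      rw [Finset.mem_range] at hm
      omega
    rw [this]
    simp only [Nat.cast_zero]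
    positivity
  · have h1 : cnt (EE k0 i) n ≤ (n / L + 1) * U := by
      rw [hE]
      refine (cnt_sub _ n _).trans ?_
      have := cnt_periodic (l := L) (Finset.range U) n
      rwa [Finset.card_range] at this
    have h2 : cnt (EE k0 i) n * L ≤ 9 * n * U := by
      have h3 : (n / L) * L ≤ n := Nat.div_mul_le_self n L
      calc cnt (EE k0 i) n * L ≤ (n / L + 1) * U * L := Nat.mul_le_mul_right _ h1
        _ = ((n / L) * L + L) * U := by ring
        _ ≤ 9 * n * U := Nat.mul_le_mul_right _ (by omega)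
    have h3 : 2 ^ (k + 10) * U ≤ L := by
      rw [hL1, hU]
      have h4 : 2 ^ (k + 10) * (lev k).u.length ≤ (lev k).m k := by
        unfold Lev.m
        exact Nat.mul_le_mul_left _ (by omega)
      have h5 := (lev k).m_le k
      omega
    -- the quotient
    rw [← hk]
    have h4 : (cnt (EE k0 i) n : ℝ) * L ≤ 9 * n * U := by exact_mod_cast h2
    have h5 : (2 : ℝ) ^ (k + 10) * U ≤ L := by exact_mod_cast h3
    rw [pow_add] at h5
    have h6 : (0 : ℝ) < L := by exact_mod_cast hLp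
    rw [one_div, inv_pow]
    exact real_bound (by positivity) h6 (Nat.cast_nonneg n) h4 (by norm_num at h5; linarith)

theorem dn_YL (k0 : ℕ) (y : ℕ → Bool) : Dn {n | YL k0 y n ≠ y n} (2 * (1 / 2 : ℝ) ^ k0) := by
  refine Dn.mono (T := ⋃ i, EE k0 i) ?_ (YL_ne k0 y) le_rfl
  refine dn_of_le fun n => cnt_iUnion_le (fun i => cnt_EE k0 i n) fun F => ?_
  have h4 : ∑ k ∈ F, (1 / 2 : ℝ) ^ k ≤ 2 := by
    have := Summable.sum_le_tsum F (fun i _ => by positivity) summable_geometric_two
    rwa [tsum_geometric_two] at this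
  calc ∑ k ∈ F, (1 / 2 : ℝ) ^ (k0 + k) = (1 / 2 : ℝ) ^ k0 * ∑ k ∈ F, (1 / 2 : ℝ) ^ k := by
        rw [Finset.mul_sum]
        exact Finset.sum_congr rfl fun k _ => by rw [pow_add]
    _ ≤ (1 / 2 : ℝ) ^ k0 * 2 := mul_le_mul_of_nonneg_left h4 (by positivity)
    _ = 2 * (1 / 2 : ℝ) ^ k0 := by ring

end Pool.Agent.R241.AS
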