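import Pool.Agent.R241.AS5

/-!
# The minimal subshift has the average shadowing property
-/

set_option autoImplicit false

open Filter Topology Set

namespace Pool.Agent.R241.AS

theorem dn_of_le_add {S : Set ℕ} {c d : ℝ} (h : ∀ n, (cnt S n : ℝ) ≤ c * n + d) : Dn S c := by
  intro ε hε
  obtain ⟨M, hM⟩ := exists_nat_gt (d / ε)
  refine ⟨M, fun n hn => (h n).trans ?_⟩
  have h3 : (M : ℝ) ≤ n := by exact_mod_cast hn
  rw [div_lt_iff₀ hε] at hM
  nlinarith

/-- The choice of a block. -/
theorem block_choice {K : ℕ} {p : List Bool} (hp : Inf (lev K).W p)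
    (hl : p.length = (lev (K + 1)).l) : ∃ w ∈ (lev (K + 1)).W, w.length = (lev (K + 1)).l ∧
      ∀ t, (lev K).u.length + (lev K).l ^ 2 + (lev K).l + 1 ≤ t →
        t + ((lev K).u.length + (lev K).l ^ 2 + (lev K).l + 1) < (lev (K + 1)).l →
        w.getD t false = p.getD t false := by
  have h1 := (lev K).le_m K
  have h2 := (lev K).m_le K
  have h3 := l_succ K
  obtain ⟨p1, p2, p3, hpp, hp2, hA1, hA2, hB1, hB2⟩ := decomp (M := (lev K).l + 1)
    (fun w hw => len_le hw) hp (A := (lev K).u.length + (lev K).l ^ 2) (B := (lev K).l ^ 2) (by omega)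
  obtain ⟨f1, hf1, hf1l⟩ := (lev K).fill (n := p1.length - (lev K).u.length) (by omega)
  obtain ⟨f3, hf3, hf3l⟩ := (lev K).fill (n := p3.length) (by omega)
  have hlen := congrArg List.length hpp
  simp only [List.length_append] at hlen
  have hw : ((lev K).u ++ (f1 ++ (p2 ++ f3))).length = (lev (K + 1)).l := by
    simp only [List.length_append]
    omega
  refine ⟨(lev K).u ++ (f1 ++ (p2 ++ f3)), mem_W_succ (st_append hf1 (st_append hp2 hf3)) hw, hw,
    fun t ht1 ht2 => ?_⟩
  have e1 : ((lev K).u ++ f1).length = p1.length := by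
    rw [List.length_append]
    omega
  have e2 : (lev K).u ++ (f1 ++ (p2 ++ f3)) = ((lev K).u ++ f1) ++ (p2 ++ f3) := by
    rw [List.append_assoc]
  have e3 : p = p1 ++ (p2 ++ p3) := by rw [hpp, List.append_assoc]
  have g1 : (((lev K).u ++ f1) ++ (p2 ++ f3)).getD t false = p2.getD (t - p1.length) false := by
    rw [List.getD_append_right _ _ _ _ (by rw [e1]; omega), e1,
      List.getD_append _ _ _ _ (by omega)]
  have g2 : (p1 ++ (p2 ++ p3)).getD t false = p2.getD (t - p1.length) false := by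
    rw [List.getD_append_right _ _ _ _ (by omega), List.getD_append _ _ _ _ (by omega)]
  rw [e2, e3, g1, g2]

theorem phase1 (x : ℕ → XM) (K : ℕ) {c : ℝ} (hx : Dn (mis x (lev (K + 1)).l) c) :
    ∃ y : ℕ → Bool, (∀ a, seg y (a * (lev (K + 1)).l) (lev (K + 1)).l ∈ (lev (K + 1)).W) ∧
      Dn {n | y n ≠ (x n).1 0} ((1 / 2 : ℝ) ^ K + (lev (K + 1)).l * c) := by
  classical
  have hZm := (lev K).le_m K
  have hml := (lev K).m_le K
  have hLl := l_succ K
  obtain ⟨L, hL⟩ : ∃ L, L = (lev (K + 1)).l := ⟨_, rfl⟩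
  obtain ⟨Z, hZ⟩ : ∃ Z, Z = (lev K).u.length + (lev K).l ^ 2 + (lev K).l + 1 := ⟨_, rfl⟩
  have hLp : 0 < L := by have := lt_l (K + 1); omega
  have hch : ∀ a, ∃ w ∈ (lev (K + 1)).W, w.length = L ∧
      ∀ t, Z ≤ t → t + Z < L → w.getD t false = (x (a * L)).1 t := by
    intro a
    obtain ⟨w, hw, hwl, h⟩ := block_choice ((x (a * L)).2 K L) (by rw [seg_length, hL])
    refine ⟨w, hw, by rw [hwl, hL], fun t h1 h2 => ?_⟩
    rw [h t (by omega) (by omega), List.getD_eq_getElem _ _ (by rw [seg_length]; omega),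
      seg_getElem, zero_add]
  choose B hB1 hB2 hB3 using hch
  refine ⟨fun n => (B (n / L)).getD (n % L) false, fun a => ?_, ?_⟩
  · rw [← hL]
    have : seg (fun n => (B (n / L)).getD (n % L) false) (a * L) (B a).length = B a := by
      refine seg_eq fun t ht => ?_
      rw [hB2] at ht
      have e1 : (a * L + t) / L = a := by
        rw [add_comm, Nat.add_mul_div_right _ _ hLp, Nat.div_eq_of_lt ht, zero_add]
      have e2 : (a * L + t) % L = t := by
        rw [add_comm, Nat.add_mul_mod_self_right, Nat.mod_eq_of_lt ht]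
      simp only [e1, e2]
    rw [hB2] at this
    rw [this]
    exact hB1 a
  · rw [← hL] at hx ⊢
    obtain ⟨R, hR⟩ : ∃ R, R = Finset.range Z ∪ Finset.Ico (L - Z) L := ⟨_, rfl⟩
    have hRc : R.card ≤ 2 * Z := by
      rw [hR]
      refine (Finset.card_union_le _ _).trans ?_
      rw [Finset.card_range, Nat.card_Ico]
      omega
    have hsub : {n | (B (n / L)).getD (n % L) false ≠ (x n).1 0} ⊆
        {n | n % L ∈ R} ∪ spread (mis x L) L := by
      intro n hn
      by_contra hc
      rw [mem_union, not_or] at hc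
      obtain ⟨hc1, hc2⟩ := hc
      have hmod : n % L < L := Nat.mod_lt _ hLp
      have hdiv : n / L * L + n % L = n := by
        have := Nat.div_add_mod n L
        rw [mul_comm] at this
        exact this
      have h1 : n / L * L ∉ mis x L := fun h => hc2 ⟨_, h, by omega, by omega⟩
      have h2 : Z ≤ n % L ∧ n % L + Z < L := by
        have h3 : n % L ∉ R := hc1
        rw [hR, Finset.mem_union, Finset.mem_range, Finset.mem_Ico, not_or] at h3
        omega
      have h4 := hB3 (n / L) (n % L) h2.1 h2.2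
      apply hn
      rw [h4]
      by_contra hne
      refine h1 ⟨n % L, hmod, ?_⟩
      rw [hdiv]
      exact fun h => hne h.symm
    have hD1 : Dn {n | n % L ∈ R} ((1 / 2 : ℝ) ^ K) := by
      refine dn_of_le_add (d := 2 * Z) fun n => ?_
      have h1 : cnt {n | n % L ∈ R} n ≤ (n / L + 1) * (2 * Z) :=
        (cnt_periodic R n).trans (Nat.mul_le_mul_left _ hRc)
      have h2 : 2 ^ K * (2 * Z) ≤ L := by
        have h3 : 2 ^ (K + 10) * Z ≤ (lev K).m K := by
          unfold Lev.m
          exact Nat.mul_le_mul_left _ (by omega)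
        rw [pow_add] at h3
        have h4 : 2 ^ K * (2 * Z) = 2 * (2 ^ K * Z) := by ring
        have h5 : 2 ^ K * 2 ^ 10 * Z = 1024 * (2 ^ K * Z) := by ring
        omega
      have h3 : (n / L) * (2 ^ K * (2 * Z)) ≤ n :=
        (Nat.mul_le_mul_left _ h2).trans (Nat.div_mul_le_self n L)
      have h4 : (cnt {n | n % L ∈ R} n : ℝ) ≤ ((n / L : ℕ) + 1) * (2 * Z) := by exact_mod_cast h1
      have h5 : ((n / L : ℕ) : ℝ) * (2 ^ K * (2 * Z)) ≤ n := by exact_mod_cast h3
      have h6 : (0 : ℝ) < 2 ^ K := by positivity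
      have h7 : ((n / L : ℕ) : ℝ) * (2 * Z) ≤ (1 / 2 : ℝ) ^ K * n := by
        rw [one_div, inv_pow, ← div_eq_inv_mul, le_div_iff₀ h6]
        linarith
      linarith
    exact (hD1.union (hx.spread L)).mono hsub le_rfl

theorem asp_TM : ASP TM := by
  refine asp_of fun ε hε => ?_
  obtain ⟨K, hK⟩ := exists_pow_lt_of_lt_one (show 0 < ε / 4 by linarith)
    (by norm_num : (1 / 2 : ℝ) < 1)
  obtain ⟨L, hL⟩ : ∃ L, L = (lev (K + 1)).l := ⟨_, rfl⟩
  have hLp : (0 : ℝ) < L := by
    have : 0 < L := by have := lt_l (K + 1); omega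
    exact_mod_cast this
  refine ⟨L, ε / (2 * L), by positivity, fun x hx => ?_⟩
  rw [hL] at hx
  obtain ⟨y, hy1, hy2⟩ := phase1 x K hx
  refine ⟨⟨_, AM_YL hy1⟩, ?_⟩
  have h1 := (dn_YL (K + 1) y).union hy2
  rw [← hL] at h1
  refine h1.mono (fun n hn => ?_) ?_
  · by_contra hc
    rw [mem_union, not_or] at hc
    obtain ⟨h2, h3⟩ := hc
    have h4 : YL (K + 1) y n = y n := by
      by_contra h5
      exact h2 h5
    have h6 : y n = (x n).1 0 := by
      by_contra h5
      exact h3 h5
    exact hn (h4.trans h6)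
  · have h2 : (L : ℝ) * (ε / (2 * L)) = ε / 2 := by field_simp
    rw [h2, pow_succ]
    linarith

/-- Every point contains the word `u` of every level. -/
theorem contains_u (x : XM) (n : ℕ) : ∃ N, (lev n).u <:+: seg x.1 0 N := by
  obtain ⟨L, hL⟩ : ∃ L, L = (lev (n + 1)).l := ⟨_, rfl⟩
  refine ⟨2 * (L + 1) + 1, ?_⟩
  obtain ⟨p1, p2, p3, hpp, ⟨l, hl, rfl⟩, -, h2, -, h4⟩ := decomp (M := L + 1)
    (fun w hw => by rw [hL]; exact len_le hw) (x.2 (n + 1) (2 * (L + 1) + 1)) (A := 0) (B := 0)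
    (by rw [seg_length]; omega)
  have hlen := congrArg List.length hpp
  simp only [List.length_append, seg_length] at hlen
  cases l with
  | nil =>
    simp only [List.flatten_nil, List.length_nil] at hlen
    omega
  | cons w l =>
    obtain ⟨v', -, hw, -⟩ := hl w (by simp)
    rw [hpp, List.flatten_cons, hw]
    exact ⟨p1, v' ++ l.flatten ++ p3, by simp⟩

theorem infix_seg {x : ℕ → Bool} {v : List Bool} {N : ℕ} (h : v <:+: seg x 0 N) :
    ∃ i, ∀ t < v.length, x (i + t) = v.getD t false := by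
  obtain ⟨s, r, h⟩ := h
  refine ⟨s.length, fun t ht => ?_⟩
  have hlen := congrArg List.length h
  simp only [List.length_append, seg_length] at hlen
  have h1 : (seg x 0 N).getD (s.length + t) false = v.getD t false := by
    rw [← h, List.getD_append _ _ _ _ (by rw [List.length_append]; omega),
      List.getD_append_right _ _ _ _ (by omega), Nat.add_sub_cancel_left]
  rw [← h1, List.getD_eq_getElem _ _ (by rw [seg_length]; omega), seg_getElem, zero_add]

theorem dense_orbit (x x' : XM) (n : ℕ) : ∃ i, ∀ t < n, x.1 (i + t) = x'.1 t := by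
  have h1 := x'.2 n n
  obtain ⟨w, hw, w', hw', h2⟩ := two_words (fun w hw => le_len hw)
    (by obtain ⟨w, hw, -⟩ := (lev n).w0; exact ⟨w, hw⟩) h1 (by rw [seg_length]; exact (lt_l n).le)
  obtain ⟨N, hN⟩ := contains_u x n
  obtain ⟨i, hi⟩ := infix_seg ((h2.trans ((lev n).infix_u hw hw')).trans hN)
  refine ⟨i, fun t ht => ?_⟩
  rw [hi t (by rw [seg_length]; exact ht), List.getD_eq_getElem _ _ (by rw [seg_length]; exact ht),
    seg_getElem, zero_add]

theorem minimal_TM (C : Set XM) (hC : IsClosed C) (hne : C.Nonempty) (hinv : MapsTo TM C C) :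
    C = univ := by
  refine eq_univ_of_forall fun x' => ?_
  obtain ⟨x, hx⟩ := hne
  rw [← hC.closure_eq, mem_closure_iff_nhds]
  intro U hU
  obtain ⟨M, hM⟩ := exists_cyl_sub hU
  obtain ⟨i, hi⟩ := dense_orbit x x' M
  refine ⟨TM^[i] x, hM _ fun t ht => ?_, hinv.iterate i hx⟩
  unfold TM
  rw [sh_iterate, add_comm]
  exact hi t ht

theorem nontrivial_XM : Nontrivial XM := by
  have h0 : AM (YL 0 fun _ => false) := by
    refine AM_YL fun c => ?_
    exact Or.inl (seg_length _ _ _)
  obtain ⟨x0, -⟩ : ∃ x0 : XM, True := ⟨⟨_, h0⟩, trivial⟩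
  have h1 : ∀ b : Bool, ∃ x : XM, x.1 0 = b := by
    intro b
    have hb : [b] ∈ (lev 0).W := Or.inl rfl
    obtain ⟨N, hN⟩ := contains_u x0 0
    have h2 : [b] <:+: (lev 0).u :=
      List.IsInfix.trans ⟨[], [b], by simp⟩ ((lev 0).infix_u hb hb)
    obtain ⟨i, hi⟩ := infix_seg (h2.trans hN)
    have h3 := hi 0 (by simp)
    refine ⟨TM^[i] x0, ?_⟩
    unfold TM
    rw [sh_iterate, add_comm]
    exact h3
  obtain ⟨x, hx⟩ := h1 true
  obtain ⟨y, hy⟩ := h1 false
  refine ⟨x, y, fun h => ?_⟩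
  rw [h, hy] at hx
  simp at hx

end Pool.Agent.R241.AS
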