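import Pool.Agent.R241.BifDef

set_option autoImplicit false

open Filter Topology Set Metric

namespace Pool.Agent.R241.Bif

theorem differentiable_f (c : ℂ) : Differentiable ℂ (f c) := by
  unfold f; fun_prop

/-- Robustly invariant sets: the map is uniformly contracting on them. -/
theorem contract {F : ℂ → ℂ} (hF : Differentiable ℂ F) {L : Set ℂ} (hL : IsCompact L) {δ : ℝ}
    (hδ : 0 < δ) (h : ∀ z ∈ L, closedBall (F z) δ ⊆ L) :
    ∃ C θ : ℝ, 0 ≤ C ∧ 0 < θ ∧ θ < 1 ∧ ∀ x ∈ L, ∀ n : ℕ, ‖deriv F^[n] x‖ ≤ C * θ ^ n := by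
  obtain ⟨R₀, hR0, hR⟩ : ∃ R₀ : ℝ, 0 < R₀ ∧ ∀ z ∈ L, ‖z‖ ≤ R₀ := by
    obtain ⟨B, hB⟩ := hL.isBounded.exists_norm_le
    exact ⟨max B 1, by positivity, fun z hz => (hB z hz).trans (le_max_left _ _)⟩
  have hcd : Continuous (deriv F) := by
    have : ContDiff ℂ 1 F := hF.contDiff
    exact this.continuous_deriv le_rfl
  obtain ⟨M₀, hM1, hM⟩ : ∃ M₀ : ℝ, 1 ≤ M₀ ∧ ∀ z ∈ L, ‖deriv F z‖ ≤ M₀ := by
    obtain ⟨B, hB⟩ := (hL.image hcd).isBounded.exists_norm_le
    exact ⟨max B 1, le_max_right _ _, fun z hz => (hB _ (mem_image_of_mem _ hz)).trans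
      (le_max_left _ _)⟩
  set κ : ℝ := δ / (2 * R₀) with hκ
  have hκ0 : 0 < κ := by positivity
  set θ : ℝ := M₀ / (M₀ + κ) with hθ
  have hθ0 : 0 < θ := by positivity
  have hθ1 : θ < 1 := by rw [hθ, div_lt_one (by positivity)]; linarith
  have hit : ∀ n, Differentiable ℂ F^[n] := fun n => by
    induction n with
    | zero => exact differentiable_id
    | succ n ih => rw [Function.iterate_succ']; exact hF.comp ih
  have hmaps : ∀ z ∈ L, F z ∈ L := fun z hz => h z hz (mem_closedBall_self hδ.le)
  have hmaps' : ∀ n, ∀ z ∈ L, F^[n] z ∈ L := fun n => by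
    induction n with
    | zero => intro z hz; simpa using hz
    | succ n ih => intro z hz; rw [Function.iterate_succ_apply']; exact hmaps _ (ih z hz)
  have key : ∀ y : ℂ, closedBall y δ ⊆ L → ∀ n : ℕ, ∃ G : ℂ → ℂ, Differentiable ℂ G ∧
      (∀ z ∈ closedBall y δ, G z ∈ L) ∧ G y = F^[n] y ∧
      ‖deriv F^[n] y‖ ≤ θ ^ n * ‖deriv G y‖ := by
    intro y hy n
    have hyL : y ∈ L := hy (mem_closedBall_self hδ.le)
    induction n with
    | zero => exact ⟨id, differentiable_id, hy, rfl, by simp⟩
    | succ n ih =>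
      obtain ⟨G, hG, hGL, hGy, hGd⟩ := ih
      set x := F^[n] y with hx
      have hxL : x ∈ L := hmaps' n y hyL
      obtain ⟨k, hk1, hk2⟩ : ∃ k : ℂ, ‖k‖ = κ ∧ ‖deriv F x + k‖ = ‖deriv F x‖ + κ := by
        by_cases h0 : deriv F x = 0
        · refine ⟨(κ : ℂ), ?_, ?_⟩
          · rw [Complex.norm_real, Real.norm_eq_abs, abs_of_pos hκ0]
          · rw [h0, zero_add, norm_zero, zero_add, Complex.norm_real, Real.norm_eq_abs,
              abs_of_pos hκ0]
        · have hn : 0 < ‖deriv F x‖ := norm_pos_iff.2 h0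
          refine ⟨((κ / ‖deriv F x‖ : ℝ) : ℂ) * deriv F x, ?_, ?_⟩
          · rw [norm_mul, Complex.norm_real, Real.norm_eq_abs, abs_of_pos (by positivity)]
            field_simp
          · have : deriv F x + ((κ / ‖deriv F x‖ : ℝ) : ℂ) * deriv F x =
                ((1 + κ / ‖deriv F x‖ : ℝ) : ℂ) * deriv F x := by push_cast; ring
            rw [this, norm_mul, Complex.norm_real, Real.norm_eq_abs, abs_of_pos (by positivity)]
            field_simp
      refine ⟨fun z => F (G z) + k * (G z - x), ?_, ?_, ?_, ?_⟩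
      · exact (hF.comp hG).add ((differentiable_const k).mul (hG.sub (differentiable_const x)))
      · intro z hz
        apply h (G z) (hGL z hz)
        rw [mem_closedBall, dist_eq_norm, add_sub_cancel_left, norm_mul, hk1]
        have h1 : ‖G z - x‖ ≤ 2 * R₀ := by
          refine (norm_sub_le _ _).trans ?_
          have := hR _ (hGL z hz); have := hR _ hxL; linarith
        calc κ * ‖G z - x‖ ≤ κ * (2 * R₀) := by gcongr
          _ = δ := by rw [hκ]; field_simp
      · simp only [hGy, sub_self, mul_zero, add_zero]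
        rw [Function.iterate_succ_apply']
      · have hd1 : HasDerivAt (fun z => F (G z) + k * (G z - x))
            (deriv F x * deriv G y + k * deriv G y) y := by
          have h1 : HasDerivAt F (deriv F x) (G y) := by
            rw [hGy]; exact (hF x).hasDerivAt
          have h2 : HasDerivAt G (deriv G y) y := (hG y).hasDerivAt
          exact (h1.comp y h2).add ((h2.sub_const x).const_mul k)
        rw [hd1.deriv, ← add_mul, norm_mul, hk2]
        have hd2 : deriv F^[n + 1] y = deriv F x * deriv F^[n] y := by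
          rw [Function.iterate_succ']
          exact ((hF x).hasDerivAt.comp y (hit n y).hasDerivAt).deriv
        rw [hd2, norm_mul, pow_succ]
        have hm : ‖deriv F x‖ ≤ θ * (‖deriv F x‖ + κ) := by
          rw [hθ, div_mul_eq_mul_div, le_div_iff₀ (by positivity)]
          have := hM x hxL
          nlinarith
        calc ‖deriv F x‖ * ‖deriv F^[n] y‖
            ≤ (θ * (‖deriv F x‖ + κ)) * (θ ^ n * ‖deriv G y‖) := by gcongr
          _ = _ := by ring
  have key2 : ∀ y : ℂ, closedBall y δ ⊆ L → ∀ n : ℕ, ‖deriv F^[n] y‖ ≤ θ ^ n * (R₀ / δ) := by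
    intro y hy n
    obtain ⟨G, hG, hGL, -, hGd⟩ := key y hy n
    refine hGd.trans ?_
    have : ‖deriv G y‖ ≤ R₀ / δ :=
      Complex.norm_deriv_le_of_forall_mem_sphere_norm_le hδ hG.diffContOnCl
        (fun z hz => hR _ (hGL z (sphere_subset_closedBall hz)))
    gcongr
  refine ⟨1 + R₀ / δ * M₀ / θ, θ, by positivity, hθ0, hθ1, fun x hx n => ?_⟩
  rcases n with _ | n
  · simp only [Function.iterate_zero, deriv_id, norm_one, pow_zero, mul_one]
    have : 0 ≤ R₀ / δ * M₀ / θ := by positivity
    linarith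
  · have hd : deriv F^[n + 1] x = deriv F^[n] (F x) * deriv F x := by
      rw [Function.iterate_succ]
      exact ((hit n (F x)).hasDerivAt.comp x (hF x).hasDerivAt).deriv
    rw [hd, norm_mul]
    have h1 := key2 (F x) (h x hx) n
    have h2 := hM x hx
    calc ‖deriv F^[n] (F x)‖ * ‖deriv F x‖ ≤ (θ ^ n * (R₀ / δ)) * M₀ := by gcongr
      _ = (R₀ / δ * M₀ / θ) * θ ^ (n + 1) := by rw [pow_succ]; field_simp
      _ ≤ (1 + R₀ / δ * M₀ / θ) * θ ^ (n + 1) := by
        gcongr; linarith

/-- Holomorphic square roots on discs. -/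
theorem exists_sqrt {h : ℂ → ℂ} {y : ℂ} {δ : ℝ} (hδ : 0 < δ)
    (hd : DifferentiableOn ℂ h (ball y δ)) (h0 : ∀ z ∈ ball y δ, h z ≠ 0) :
    ∃ S : ℂ → ℂ, DifferentiableOn ℂ S (ball y δ) ∧ ∀ z ∈ ball y δ, S z ^ 2 = h z := by
  have hdd : DifferentiableOn ℂ (fun z => deriv h z / h z) (ball y δ) :=
    (hd.deriv isOpen_ball).div hd h0
  obtain ⟨g, hg⟩ := hdd.isExactOn_ball
  have hg' : ∀ z ∈ ball y δ, HasDerivAt g (deriv h z / h z) z := hg
  have hyB : y ∈ ball y δ := mem_ball_self hδ
  have hconst : ∀ z ∈ ball y δ, h z * Complex.exp (-g z) = h y * Complex.exp (-g y) := by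
    intro z hz
    have hder : ∀ w ∈ ball y δ, HasDerivAt (fun z => h z * Complex.exp (-g z)) 0 w := by
      intro w hw
      have h1 : HasDerivAt h (deriv h w) w := (hd.differentiableAt (isOpen_ball.mem_nhds hw)).hasDerivAt
      have h2 : HasDerivAt (fun z => Complex.exp (-g z))
          (Complex.exp (-g w) * (-(deriv h w / h w))) w := (hg' w hw).neg.cexp
      have h3 := h1.mul h2
      have h4 : h w * (deriv h w / h w) = deriv h w := by
        have := h0 w hw
        field_simp
      have h5 : deriv h w * Complex.exp (-g w) +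
          h w * (Complex.exp (-g w) * (-(deriv h w / h w))) = 0 := by
        calc _ = (deriv h w - h w * (deriv h w / h w)) * Complex.exp (-g w) := by ring
          _ = 0 := by rw [h4, sub_self, zero_mul]
      rw [← h5]
      exact h3
    have hdiff : DifferentiableOn ℂ (fun z => h z * Complex.exp (-g z)) (ball y δ) :=
      fun w hw => (hder w hw).differentiableAt.differentiableWithinAt
    exact IsOpen.is_const_of_deriv_eq_zero isOpen_ball (convex_ball y δ).isPreconnected hdiff
      (fun w hw => (hder w hw).deriv) hz hyB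
  set c0 := h y * Complex.exp (-g y) with hc0
  have hc0n : c0 ≠ 0 := mul_ne_zero (h0 y hyB) (Complex.exp_ne_zero _)
  refine ⟨fun z => Complex.exp ((g z + Complex.log c0) / 2), ?_, ?_⟩
  · intro w hw
    have : DifferentiableAt ℂ g w := (hg' w hw).differentiableAt
    exact (((this.add_const _).div_const 2).cexp).differentiableWithinAt
  · intro z hz
    simp only
    rw [← Complex.exp_nat_mul]
    have : ((2 : ℕ) : ℂ) * ((g z + Complex.log c0) / 2) = g z + Complex.log c0 := by
      push_cast; ring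
    rw [this, Complex.exp_add, Complex.exp_log hc0n, ← hconst z hz]
    have he : Complex.exp (g z) * Complex.exp (-g z) = 1 := by
      rw [← Complex.exp_add]; simp
    calc Complex.exp (g z) * (h z * Complex.exp (-g z))
        = h z * (Complex.exp (g z) * Complex.exp (-g z)) := by ring
      _ = h z := by rw [he, mul_one]

end Pool.Agent.R241.Bif
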