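import Pool.Agent.R241.Bif1

set_option autoImplicit false

open Filter Topology Set Metric N62a1eb23

namespace Pool.Agent.R241.Bif

/-- The points which do not escape. -/
def K (c : ℂ) : Set ℂ := {z | ¬ Tendsto (fun n : ℕ => (f c)^[n] z) atTop (Bornology.cobounded ℂ)}

theorem mem_M_iff (c : ℂ) : c ∈ mandelbrotSet ↔ (0 : ℂ) ∈ K c := Iff.rfl

theorem iterate_differentiable (c : ℂ) (n : ℕ) : Differentiable ℂ (f c)^[n] := by
  induction n with
  | zero => exact differentiable_id
  | succ n ih => rw [Function.iterate_succ']; exact (differentiable_f c).comp ih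

theorem mem_K_iterate (c : ℂ) (z : ℂ) (k : ℕ) : (f c)^[k] z ∈ K c ↔ z ∈ K c := by
  unfold K
  simp only [Set.mem_ofPred_eq]
  rw [not_iff_not]
  have : (fun n : ℕ => (f c)^[n] ((f c)^[k] z)) = fun n : ℕ => (fun m => (f c)^[m] z) (n + k) := by
    funext n
    simp only
    rw [← Function.iterate_add_apply]
  rw [this]
  exact tendsto_add_atTop_iff_nat (f := fun m => (f c)^[m] z) k

theorem escape {c z : ℂ} (hz : 2 + ‖c‖ < ‖z‖) (n : ℕ) :
    2 + ‖c‖ < ‖(f c)^[n] z‖ ∧ 2 ^ n * ‖z‖ ≤ ‖(f c)^[n] z‖ := by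
  induction n with
  | zero => simpa using hz
  | succ n ih =>
    obtain ⟨h1, h2⟩ := ih
    rw [Function.iterate_succ_apply']
    set w := (f c)^[n] z
    have h3 : 2 * ‖w‖ ≤ ‖f c w‖ := by
      unfold f
      have h4 : ‖w ^ 2‖ - ‖c‖ ≤ ‖w ^ 2 + c‖ := by
        have := norm_sub_norm_le (w ^ 2) (-c)
        rw [norm_neg, sub_neg_eq_add] at this
        exact this
      rw [norm_pow] at h4
      have : 0 ≤ ‖c‖ := norm_nonneg c
      nlinarith
    have hc : 0 ≤ ‖c‖ := norm_nonneg c
    constructor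
    · linarith
    · rw [pow_succ]; linarith

theorem norm_le_of_mem_K {c z : ℂ} (hz : z ∈ K c) : ‖z‖ ≤ 2 + ‖c‖ := by
  by_contra hcon
  push Not at hcon
  apply hz
  rw [← tendsto_norm_atTop_iff_cobounded]
  refine tendsto_atTop_mono (fun n => (escape hcon n).2) ?_
  have : 0 < ‖z‖ := lt_of_le_of_lt (by positivity) hcon
  exact (tendsto_pow_atTop_atTop_of_one_lt (by norm_num : (1 : ℝ) < 2)).atTop_mul_const this

theorem mem_K_of_bounded_subseq {c z : ℂ} {N : ℕ} (hN : 1 ≤ N) {L : Set ℂ} (hL : IsCompact L)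
    (h : ∀ n : ℕ, (f c)^[N * n] z ∈ L) : z ∈ K c := by
  intro ht
  have h1 : Tendsto (fun n : ℕ => N * n) atTop atTop :=
    tendsto_id.const_mul_atTop' (by omega)
  have h2 := ht.comp h1
  have h3 : ∀ᶠ w in Bornology.cobounded ℂ, w ∉ L := hL.isBounded
  obtain ⟨n, hn⟩ := (h2.eventually h3).exists
  exact hn (h n)

/-- Inverse branches along a backward orbit in the complement of the escaping critical orbit. -/
theorem branches {c : ℂ} (hc : c ∉ mandelbrotSet) {x y : ℂ} {δ : ℝ} (hδ : 0 < δ) {m : ℕ}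
    (hy : (f c)^[m] x = y) (hB : ball y δ ⊆ K c) (k : ℕ) (hk : k ≤ m) :
    ∃ H : ℂ → ℂ, DifferentiableOn ℂ H (ball y δ) ∧ (∀ z ∈ ball y δ, (f c)^[k] (H z) = z) ∧
      H y = (f c)^[m - k] x := by
  induction k with
  | zero => exact ⟨id, differentiableOn_id, fun z _ => rfl, by simpa using hy.symm⟩
  | succ k ih =>
    obtain ⟨H, hH, hH1, hH2⟩ := ih (by omega)
    have hne : ∀ z ∈ ball y δ, H z - c ≠ 0 := by
      intro z hz h0
      have h1 : H z = f c 0 := by unfold f; rw [sub_eq_zero] at h0; rw [h0]; simp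
      have h2 : (f c)^[k + 1] 0 = z := by
        rw [Function.iterate_succ_apply, ← h1, hH1 z hz]
      apply hc
      rw [mem_M_iff, ← mem_K_iterate c 0 (k + 1), h2]
      exact hB hz
    obtain ⟨S, hS, hS2⟩ := exists_sqrt hδ (hH.sub_const c) hne
    have hyB : y ∈ ball y δ := mem_ball_self hδ
    have h3 : S y ^ 2 = ((f c)^[m - (k + 1)] x) ^ 2 := by
      rw [hS2 y hyB, hH2]
      have : m - k = (m - (k + 1)) + 1 := by omega
      rw [this, Function.iterate_succ_apply']
      unfold f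
      ring
    have hfS : ∀ z ∈ ball y δ, f c (S z) = H z := by
      intro z hz
      unfold f
      rw [hS2 z hz]; ring
    have hfS' : ∀ z ∈ ball y δ, f c (-S z) = H z := by
      intro z hz
      unfold f
      rw [neg_sq, hS2 z hz]; ring
    rcases sq_eq_sq_iff_eq_or_eq_neg.1 h3 with h4 | h4
    · refine ⟨S, hS, fun z hz => ?_, h4⟩
      rw [Function.iterate_succ_apply, hfS z hz, hH1 z hz]
    · refine ⟨fun z => -S z, hS.neg, fun z hz => ?_, ?_⟩
      · rw [Function.iterate_succ_apply, hfS' z hz, hH1 z hz]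
      · simp only [h4, neg_neg]

/-- A quadratic polynomial with a robustly invariant compact set has a bounded critical orbit. -/
theorem mem_M_of_robust {c : ℂ} {N : ℕ} (hN : 1 ≤ N) {L : Set ℂ} (hL : IsCompact L)
    (hne : L.Nonempty) {δ : ℝ} (hδ : 0 < δ) (h : ∀ z ∈ L, closedBall ((f c)^[N] z) δ ⊆ L) :
    c ∈ mandelbrotSet := by
  by_contra hc
  obtain ⟨C, θ, hC, hθ0, hθ1, hder⟩ := contract (iterate_differentiable c N) hL hδ h
  obtain ⟨x, hx⟩ := hne
  have hmaps : ∀ z ∈ L, (f c)^[N] z ∈ L := fun z hz => h z hz (mem_closedBall_self hδ.le)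
  have hmaps' : ∀ n, ∀ z ∈ L, (f c)^[N * n] z ∈ L := fun n => by
    induction n with
    | zero => intro z hz; simpa using hz
    | succ n ih =>
      intro z hz
      rw [Nat.mul_succ, Nat.add_comm, Function.iterate_add_apply]
      exact hmaps _ (ih z hz)
  have hLK : L ⊆ K c := fun z hz => mem_K_of_bounded_subseq hN hL fun n => hmaps' n z hz
  have hbound : ∀ n : ℕ, 1 ≤ n → 1 ≤ (C * θ ^ n) * ((2 + ‖c‖) / (δ / 2)) := by
    intro n hn
    set m := N * n with hm
    set y := (f c)^[m] x with hy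
    have hball : closedBall y δ ⊆ L := by
      obtain ⟨k, rfl⟩ : ∃ k, n = k + 1 := ⟨n - 1, by omega⟩
      have : y = (f c)^[N] ((f c)^[N * k] x) := by
        rw [hy, hm, Nat.mul_succ, Nat.add_comm, Function.iterate_add_apply]
      rw [this]
      exact h _ (hmaps' k x hx)
    have hBK : ball y δ ⊆ K c := (ball_subset_closedBall.trans hball).trans hLK
    obtain ⟨H, hH, hH1, hH2⟩ := branches hc hδ (x := x) hy.symm hBK m le_rfl
    simp only [Nat.sub_self, Function.iterate_zero, id_eq] at hH2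
    have hyB : y ∈ ball y δ := mem_ball_self hδ
    have hHd : HasDerivAt H (deriv H y) y :=
      (hH.differentiableAt (isOpen_ball.mem_nhds hyB)).hasDerivAt
    have hfd : HasDerivAt (f c)^[m] (deriv (f c)^[m] x) (H y) := by
      rw [hH2]; exact (iterate_differentiable c m x).hasDerivAt
    have hcomp := hfd.comp y hHd
    have hid : HasDerivAt ((f c)^[m] ∘ H) 1 y := by
      have : ((f c)^[m] ∘ H) =ᶠ[𝓝 y] id := by
        filter_upwards [isOpen_ball.mem_nhds hyB] with z hz
        exact hH1 z hz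
      exact (hasDerivAt_id y).congr_of_eventuallyEq this
    have h1 : deriv (f c)^[m] x * deriv H y = 1 := hcomp.unique hid
    have h2 : ‖deriv (f c)^[m] x‖ * ‖deriv H y‖ = 1 := by rw [← norm_mul, h1, norm_one]
    have h3 : ‖deriv H y‖ ≤ (2 + ‖c‖) / (δ / 2) := by
      refine Complex.norm_deriv_le_of_forall_mem_sphere_norm_le (by positivity) ?_ ?_
      · refine DifferentiableOn.diffContOnCl_ball (U := ball y δ) hH ?_
        exact closedBall_subset_ball (by linarith)
      · intro z hz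
        have hz' : z ∈ ball y δ := by
          rw [mem_sphere] at hz; rw [mem_ball, hz]; linarith
        apply norm_le_of_mem_K
        rw [← mem_K_iterate c (H z) m, hH1 z hz']
        exact hBK hz'
    have h4 : ‖deriv (f c)^[m] x‖ ≤ C * θ ^ n := by
      have := hder x hx n
      rw [← Function.iterate_mul] at this
      exact this
    calc (1 : ℝ) = ‖deriv (f c)^[m] x‖ * ‖deriv H y‖ := h2.symm
      _ ≤ (C * θ ^ n) * ((2 + ‖c‖) / (δ / 2)) := by gcongr
  have hlim : Tendsto (fun n : ℕ => (C * θ ^ n) * ((2 + ‖c‖) / (δ / 2))) atTop (𝓝 0) := by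
    have h1 := (tendsto_pow_atTop_nhds_zero_of_lt_one hθ0.le hθ1)
    have h2 := (h1.const_mul C).mul_const ((2 + ‖c‖) / (δ / 2))
    simpa using h2
  obtain ⟨n, hn1, hn2⟩ := ((hlim.eventually (gt_mem_nhds one_pos)).and
    (eventually_ge_atTop 1)).exists
  exact absurd (hbound n hn2) (not_le.2 hn1)

end Pool.Agent.R241.Bif
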