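import Pool.Agent.R241.BifDef
import Pool.Agent.R241.Bif2

set_option autoImplicit false

open Filter Topology Set Metric N62a1eb23

namespace Pool.Agent.R241.Bif

/-- Planar invariant sets. -/
def Inv (c : ℂ) (r : ℝ) (S : Set ℂ) : Prop :=
  S.Nonempty ∧ IsCompact S ∧ ∀ a : ℂ, ‖a - c‖ ≤ r → ∀ z ∈ S, f a z ∈ S

theorem comp_append (l l' : List ℂ) (z : ℂ) : comp (l ++ l') z = comp l (comp l' z) := by
  induction l with
  | nil => rfl
  | cons a l ih => simp only [List.cons_append, comp, ih]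

theorem comp_mem {c : ℂ} {r : ℝ} {S : Set ℂ}
    (h : ∀ a : ℂ, ‖a - c‖ ≤ r → ∀ z ∈ S, f a z ∈ S) (l : List ℂ) (hl : ∀ a ∈ l, ‖a - c‖ ≤ r)
    (z : ℂ) (hz : z ∈ S) : comp l z ∈ S := by
  induction l with
  | nil => exact hz
  | cons a l ih =>
    exact h a (hl a (by simp)) _ (ih fun b hb => hl b (by simp [hb]))

theorem comp_continuous (l : List ℂ) : Continuous (comp l) := by
  induction l with
  | nil => exact continuous_id
  | cons a l ih =>
    exact (differentiable_f a).continuous.comp ih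

theorem inv_image {c : ℂ} {r : ℝ} {S : Set ℂ} (hS : Inv c r S) :
    Invariant c r ((↑) '' S : Set (OnePoint ℂ)) := by
  refine ⟨hS.1.image _, hS.2.1.image OnePoint.continuous_coe, ?_⟩
  rintro g ⟨l, -, hl, rfl⟩ x ⟨z, hz, rfl⟩
  exact ⟨comp l z, comp_mem hS.2.2 l hl z hz, rfl⟩

theorem inv_preimage {c : ℂ} {r : ℝ} {L : Set (OnePoint ℂ)} (hL : Invariant c r L)
    (hp : Planar L) : Inv c r ((↑) ⁻¹' L) ∧ ((↑) '' ((↑) ⁻¹' L : Set ℂ) : Set (OnePoint ℂ)) = L := by
  have himg : ((↑) '' ((↑) ⁻¹' L : Set ℂ) : Set (OnePoint ℂ)) = L := by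
    rw [image_preimage_eq_iff]
    intro x hx
    induction x using OnePoint.rec with
    | infty => exact absurd hx hp
    | coe z => exact ⟨z, rfl⟩
  refine ⟨⟨?_, ?_, ?_⟩, himg⟩
  · obtain ⟨x, hx⟩ := hL.1
    rw [← himg] at hx
    obtain ⟨z, hz, -⟩ := hx
    exact ⟨z, hz⟩
  · rw [OnePoint.isOpenEmbedding_coe.isInducing.isCompact_iff, himg]
    exact hL.2.1
  · intro a ha z hz
    have h1 := hL.2.2 (comp [a]) ⟨[a], by simp, by simpa using ha, rfl⟩ z hz
    exact h1

theorem exists_minimal {c : ℂ} {r : ℝ} {S : Set ℂ} (hS : Inv c r S) :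
    ∃ L : Set (OnePoint ℂ), IsMinimalSet c r L ∧ Planar L := by
  obtain ⟨m, hmS, hm⟩ := zorn_superset_nonempty {S | Inv c r S} (by
    intro C hC hchain hCne
    refine ⟨⋂₀ C, ⟨?_, ?_, ?_⟩, fun s hs => sInter_subset_of_mem hs⟩
    · have : Nonempty C := hCne.to_subtype
      rw [sInter_eq_iInter]
      refine IsCompact.nonempty_iInter_of_directed_nonempty_isCompact_isClosed _ ?_ ?_ ?_ ?_
      · intro a b
        rcases hchain.total a.2 b.2 with h | h
        · exact ⟨a, subset_rfl, h⟩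
        · exact ⟨b, h, subset_rfl⟩
      · intro a; exact (hC a.2).1
      · intro a; exact (hC a.2).2.1
      · intro a; exact (hC a.2).2.1.isClosed
    · obtain ⟨s, hs⟩ := hCne
      exact (hC hs).2.1.of_isClosed_subset
        (isClosed_sInter fun t ht => (hC ht).2.1.isClosed) (sInter_subset_of_mem hs)
    · intro a ha z hz s hs
      exact (hC hs).2.2 a ha z (hz s hs)) S hS
  refine ⟨(↑) '' m, ⟨inv_image hm.prop, ?_⟩, ?_⟩
  · intro L' hL' hinv
    have hp : Planar L' := by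
      intro h
      obtain ⟨z, -, hz⟩ := hL' h
      exact OnePoint.coe_ne_infty z hz
    obtain ⟨h1, h2⟩ := inv_preimage hinv hp
    have h3 : ((↑) ⁻¹' L' : Set ℂ) ⊆ m := by
      intro z hz
      obtain ⟨z', hz', h4⟩ := hL' hz
      rw [OnePoint.coe_eq_coe] at h4
      rwa [← h4]
    have h4 : m ⊆ ((↑) ⁻¹' L' : Set ℂ) := hm.le_of_le h1 h3
    refine subset_antisymm hL' ?_
    rintro x ⟨z, hz, rfl⟩
    exact h4 hz
  · rintro ⟨z, -, hz⟩
    exact OnePoint.coe_ne_infty z hz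

theorem planar_iff (c : ℂ) (r : ℝ) :
    (∃ L : Set (OnePoint ℂ), IsMinimalSet c r L ∧ Planar L) ↔ ∃ S : Set ℂ, Inv c r S :=
  ⟨fun ⟨_, hL, hp⟩ => ⟨_, (inv_preimage hL.1 hp).1⟩, fun ⟨_, hS⟩ => exists_minimal hS⟩

theorem rbif_eq (c : ℂ) : rbif c = sInf {r : ℝ | 0 ≤ r ∧ ¬ ∃ S : Set ℂ, Inv c r S} := by
  unfold rbif
  simp only [planar_iff]

/-- A parameter outside of the Mandelbrot set at distance less than `r` excludes planar invariant
sets. -/
theorem not_inv {c c' : ℂ} {r : ℝ} (hc' : c' ∉ mandelbrotSet) (h : ‖c' - c‖ < r) :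
    ¬ ∃ S : Set ℂ, Inv c r S := by
  rintro ⟨S, hne, hcomp, hinv⟩
  apply hc'
  refine mem_M_of_robust (N := 1) le_rfl hcomp hne (δ := r - ‖c' - c‖) (by linarith) ?_
  intro z hz u hu
  rw [Function.iterate_one, mem_closedBall, dist_eq_norm] at hu
  have h1 : f (c' + (u - f c' z)) z = u := by unfold f; ring
  rw [← h1]
  apply hinv _ _ z hz
  calc ‖c' + (u - f c' z) - c‖ = ‖(c' - c) + (u - f c' z)‖ := by ring_nf
    _ ≤ ‖c' - c‖ + ‖u - f c' z‖ := norm_add_le _ _
    _ ≤ r := by linarith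

theorem zero_mem : (0 : ℂ) ∈ mandelbrotSet := by
  rw [mem_M_iff]
  intro h
  have h1 : (fun n : ℕ => (f 0)^[n] (0 : ℂ)) = fun _ => 0 := by
    funext n
    induction n with
    | zero => rfl
    | succ n ih =>
      simp only [Function.iterate_succ_apply'] at ih ⊢
      rw [ih]; unfold f; simp
  rw [h1] at h
  have h2 := tendsto_norm_cobounded_atTop.comp h
  have h3 := (h2.eventually_gt_atTop 1).exists
  obtain ⟨n, hn⟩ := h3
  simp at hn
  linarith

theorem three_not_mem : (3 : ℂ) ∉ mandelbrotSet := by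
  rw [mem_M_iff, ← mem_K_iterate 3 0 2]
  intro h
  have h1 := norm_le_of_mem_K h
  have h2 : (f 3)^[2] (0 : ℂ) = 12 := by
    simp only [Function.iterate_succ_apply', Function.iterate_zero, id_eq, f]
    norm_num
  rw [h2] at h1
  norm_num at h1

theorem frontier_nonempty : (frontier mandelbrotSet).Nonempty := by
  rw [nonempty_iff_ne_empty]
  intro h
  rw [← isClopen_iff_frontier_eq_empty, isClopen_iff] at h
  rcases h with h | h
  · have := zero_mem; rw [h] at this; exact this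
  · apply three_not_mem; rw [h]; trivial

/-- Beyond the distance to the boundary there are no planar minimal sets. -/
theorem not_inv_of_dist {c : ℂ} {r : ℝ} (h : infDist c (frontier mandelbrotSet) < r) :
    ¬ ∃ S : Set ℂ, Inv c r S := by
  obtain ⟨y, hy, hyr⟩ := (infDist_lt_iff frontier_nonempty).1 h
  have h1 : y ∈ closure (mandelbrotSet)ᶜ := by
    rw [frontier_eq_closure_inter_closure] at hy
    exact hy.2
  obtain ⟨c', hc', h2⟩ := Metric.mem_closure_iff.1 h1 (r - dist c y) (by linarith)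
  refine not_inv (c' := c') hc' ?_
  rw [← dist_eq_norm, dist_comm]
  calc dist c c' ≤ dist c y + dist y c' := dist_triangle _ _ _
    _ < r := by linarith

theorem bddBelow (c : ℂ) : BddBelow {r : ℝ | 0 ≤ r ∧ ¬ ∃ S : Set ℂ, Inv c r S} :=
  ⟨0, fun _ hr => hr.1⟩

theorem rbif_le (c : ℂ) : rbif c ≤ infDist c (frontier mandelbrotSet) := by
  rw [rbif_eq]
  refine le_of_forall_gt fun r hr => ?_
  have h0 := infDist_nonneg (x := c) (s := frontier mandelbrotSet)
  obtain ⟨r', h1, h2⟩ := exists_between hr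
  exact (csInf_le (bddBelow c) ⟨by linarith, not_inv_of_dist h1⟩).trans_lt h2

theorem le_rbif {c : ℂ} {R : ℝ} (h : ∀ r : ℝ, 0 ≤ r → r < R → ∃ S : Set ℂ, Inv c r S) :
    R ≤ rbif c := by
  rw [rbif_eq]
  refine le_csInf ?_ ?_
  · refine ⟨infDist c (frontier mandelbrotSet) + 1, ?_, not_inv_of_dist (by linarith)⟩
    have h0 := infDist_nonneg (x := c) (s := frontier mandelbrotSet)
    linarith
  · rintro r ⟨hr0, hr⟩
    by_contra hcon
    push Not at hcon
    exact hr (h r hr0 hcon)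

theorem exists_inv_of_lt {c : ℂ} {r : ℝ} (hr : 0 ≤ r) (h : r < rbif c) : ∃ S : Set ℂ, Inv c r S := by
  by_contra hcon
  rw [rbif_eq] at h
  exact absurd (csInf_le (bddBelow c) ⟨hr, hcon⟩) (not_le.2 h)

end Pool.Agent.R241.Bif
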