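import Pool.Agent.R241.Bif3

set_option autoImplicit false

open Filter Topology Set Metric N62a1eb23

namespace Pool.Agent.R241.Bif

/-- A compact set which is invariant under all `f a`, `|a - c| ≤ R`. -/
def Rob (c : ℂ) (R : ℝ) (L : Set ℂ) : Prop :=
  L.Nonempty ∧ IsCompact L ∧ ∀ z ∈ L, closedBall (f c z) R ⊆ L

theorem norm_le_of_inv {c : ℂ} {r : ℝ} (hr : 0 ≤ r) {S : Set ℂ} (hS : Inv c r S) {z : ℂ}
    (hz : z ∈ S) : ‖z‖ ≤ 2 + ‖c‖ := by
  apply norm_le_of_mem_K
  refine mem_K_of_bounded_subseq (N := 1) le_rfl hS.2.1 fun n => ?_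
  rw [one_mul]
  induction n with
  | zero => exact hz
  | succ n ih =>
    rw [Function.iterate_succ_apply']
    exact hS.2.2 c (by simpa using hr) _ ih

/-- The limit of planar invariant sets. -/
theorem exists_rob {c : ℂ} {R : ℝ} (hR : 0 < R)
    (h : ∀ r : ℝ, 0 ≤ r → r < R → ∃ S : Set ℂ, Inv c r S) : ∃ L : Set ℂ, Rob c R L := by
  set X : ℝ → Set ℂ := fun r => {z | ∀ l : List ℂ, (∀ a ∈ l, ‖a - c‖ ≤ r) →
    ‖comp l z‖ ≤ 2 + ‖c‖} with hX
  have hXc : ∀ r, IsClosed (X r) := by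
    intro r
    have : X r = ⋂ (l : List ℂ) (_ : ∀ a ∈ l, ‖a - c‖ ≤ r), {z | ‖comp l z‖ ≤ 2 + ‖c‖} := by
      ext z; simp [hX]
    rw [this]
    exact isClosed_iInter fun l => isClosed_iInter fun _ =>
      isClosed_le (comp_continuous l).norm continuous_const
  have hXb : ∀ r, X r ⊆ closedBall 0 (2 + ‖c‖) := by
    intro r z hz
    rw [mem_closedBall_zero_iff]
    exact hz [] (by simp)
  have hXk : ∀ r, IsCompact (X r) := fun r =>
    (isCompact_closedBall (0 : ℂ) (2 + ‖c‖)).of_isClosed_subset (hXc r) (hXb r)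
  have hXm : ∀ r r', r ≤ r' → X r' ⊆ X r := fun r r' hrr z hz l hl =>
    hz l fun a ha => (hl a ha).trans hrr
  have hXn : ∀ r, 0 ≤ r → r < R → (X r).Nonempty := by
    intro r hr hrR
    obtain ⟨S, hS⟩ := h r hr hrR
    obtain ⟨z, hz⟩ := hS.1
    exact ⟨z, fun l hl => norm_le_of_inv hr hS (comp_mem hS.2.2 l hl z hz)⟩
  set ρ : ℕ → ℝ := fun n => R * (1 - 1 / ((n : ℝ) + 1)) with hρ
  have hρ0 : ∀ n, 0 ≤ ρ n := by
    intro n
    have : 1 / ((n : ℝ) + 1) ≤ 1 := by
      rw [div_le_one (by positivity)]; linarith [(Nat.cast_nonneg n : (0 : ℝ) ≤ n)]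
    exact mul_nonneg hR.le (by linarith)
  have hρR : ∀ n, ρ n < R := by
    intro n
    have : 0 < 1 / ((n : ℝ) + 1) := by positivity
    show R * (1 - 1 / ((n : ℝ) + 1)) < R
    nlinarith
  have hρm : ∀ n, ρ n ≤ ρ (n + 1) := by
    intro n
    have : 1 / (((n + 1 : ℕ) : ℝ) + 1) ≤ 1 / ((n : ℝ) + 1) := by
      apply one_div_le_one_div_of_le (by positivity)
      push_cast; linarith
    show R * (1 - 1 / ((n : ℝ) + 1)) ≤ R * (1 - 1 / (((n + 1 : ℕ) : ℝ) + 1))
    gcongr
  have hρlim : ∀ r < R, ∃ n, r ≤ ρ n := by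
    intro r hr
    have h1 : Tendsto (fun n : ℕ => R * (1 - 1 / ((n : ℝ) + 1))) atTop (𝓝 (R * (1 - 0))) :=
      (tendsto_const_nhds.sub tendsto_one_div_add_atTop_nhds_zero_nat).const_mul R
    rw [sub_zero, mul_one] at h1
    obtain ⟨n, hn⟩ := (h1.eventually (lt_mem_nhds hr)).exists
    exact ⟨n, le_of_lt hn⟩
  have hlist : ∀ l : List ℂ, (∀ a ∈ l, ‖a - c‖ < R) → ∃ n, ∀ a ∈ l, ‖a - c‖ ≤ ρ n := by
    intro l
    induction l with
    | nil => intro _; exact ⟨0, by simp⟩
    | cons a l ih =>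
      intro hl
      obtain ⟨n, hn⟩ := ih fun b hb => hl b (by simp [hb])
      obtain ⟨m, hm⟩ := hρlim _ (hl a (by simp))
      have hmono : Monotone ρ := monotone_nat_of_le_succ hρm
      refine ⟨max n m, fun b hb => ?_⟩
      rcases List.mem_cons.1 hb with rfl | hb
      · exact hm.trans (hmono (le_max_right _ _))
      · exact (hn b hb).trans (hmono (le_max_left _ _))
  obtain ⟨z₀, hz₀⟩ : (⋂ n, X (ρ n)).Nonempty :=
    IsCompact.nonempty_iInter_of_sequence_nonempty_isCompact_isClosed _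
      (fun n => hXm _ _ (hρm n)) (fun n => hXn _ (hρ0 n) (hρR n)) (hXk _) (fun n => hXc _)
  set L : Set ℂ := ⋂ n, X (ρ n) with hL
  have hLl : ∀ z, z ∈ L ↔ ∀ l : List ℂ, (∀ a ∈ l, ‖a - c‖ < R) → ‖comp l z‖ ≤ 2 + ‖c‖ := by
    intro z
    constructor
    · intro hz l hl
      obtain ⟨n, hn⟩ := hlist l hl
      exact (mem_iInter.1 hz n) l hn
    · intro hz
      exact mem_iInter.2 fun n l hl => hz l fun a ha => (hl a ha).trans_lt (hρR n)
  refine ⟨L, ⟨z₀, hz₀⟩, ?_, ?_⟩
  · exact (hXk (ρ 0)).of_isClosed_subset (isClosed_iInter fun n => hXc _) (iInter_subset _ 0)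
  · intro z hz u hu
    rw [hLl] at hz ⊢
    intro l hl
    have h1 : f (c + (u - f c z)) z = u := by unfold f; ring
    have h2 : IsClosed {a : ℂ | ‖comp l (f a z)‖ ≤ 2 + ‖c‖} := by
      refine isClosed_le (Continuous.norm ((comp_continuous l).comp ?_)) continuous_const
      unfold f; fun_prop
    have h3 : ball c R ⊆ {a : ℂ | ‖comp l (f a z)‖ ≤ 2 + ‖c‖} := by
      intro a ha
      have h4 := hz (l ++ [a]) (by
        intro b hb
        rcases List.mem_append.1 hb with hb | hb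
        · exact hl b hb
        · rw [List.mem_singleton] at hb
          rw [hb, ← dist_eq_norm]; exact ha)
      rw [comp_append] at h4
      exact h4
    have h4 : closedBall c R ⊆ {a : ℂ | ‖comp l (f a z)‖ ≤ 2 + ‖c‖} := by
      rw [← closure_ball c hR.ne']
      exact closure_minimal h3 h2
    have h5 : c + (u - f c z) ∈ closedBall c R := by
      rw [mem_closedBall, dist_eq_norm, add_sub_cancel_left, ← dist_eq_norm]
      exact hu
    have h6 := h4 h5
    rw [Set.mem_ofPred_eq, h1] at h6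
    exact h6

/-- An elementary estimate. -/
theorem small_lt {a b : ℂ} (ha : a.re < 0) : ∃ ε₀ : ℝ, 0 < ε₀ ∧ ∀ ε : ℝ, 0 < ε → ε < ε₀ →
    ‖1 + (ε : ℂ) * a + (ε : ℂ) ^ 2 * b‖ < 1 := by
  set α := -a.re with hα
  have hα0 : 0 < α := by linarith
  refine ⟨min (α / (‖a‖ ^ 2 + 1)) (min (α / (2 * (‖b‖ + 1))) (1 / α)), by positivity, ?_⟩
  intro ε hε hε1
  have h1 : ε < α / (‖a‖ ^ 2 + 1) := hε1.trans_le (min_le_left _ _)
  have h2 : ε < α / (2 * (‖b‖ + 1)) := hε1.trans_le ((min_le_right _ _).trans (min_le_left _ _))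
  have h3 : ε < 1 / α := hε1.trans_le ((min_le_right _ _).trans (min_le_right _ _))
  rw [lt_div_iff₀ (by positivity)] at h1 h2 h3
  have h4 : ‖1 + (ε : ℂ) * a‖ ^ 2 = 1 - 2 * ε * α + ε ^ 2 * ‖a‖ ^ 2 := by
    rw [← Complex.normSq_eq_norm_sq, ← Complex.normSq_eq_norm_sq, Complex.normSq_apply,
      Complex.normSq_apply]
    simp
    ring
  have h5 : ‖1 + (ε : ℂ) * a‖ ≤ 1 - ε * α / 2 := by
    refine le_of_pow_le_pow_left₀ two_ne_zero (by nlinarith) ?_
    rw [h4]
    have : ε ^ 2 * ‖a‖ ^ 2 ≤ ε * α := by nlinarith [norm_nonneg a]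
    nlinarith [sq_nonneg (ε * α)]
  calc ‖1 + (ε : ℂ) * a + (ε : ℂ) ^ 2 * b‖ ≤ ‖1 + (ε : ℂ) * a‖ + ‖(ε : ℂ) ^ 2 * b‖ :=
        norm_add_le _ _
    _ = ‖1 + (ε : ℂ) * a‖ + ε ^ 2 * ‖b‖ := by
      rw [norm_mul, norm_pow, Complex.norm_real, Real.norm_eq_abs, abs_of_pos hε]
    _ < 1 := by nlinarith [norm_nonneg b]

/-- If the critical direction is not positive, then the image point is interior. -/
theorem interior_step {L : Set ℂ} {w cs : ℂ} (hw : w ≠ 0)
    (h : ∀ z ∈ L, closedBall (f cs z + w) ‖w‖ ⊆ L) {z : ℂ} (hz : closedBall (z + w) ‖w‖ ⊆ L)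
    (hnp : ¬ (0 < z.re ∧ z.im = 0)) : f cs z ∈ interior L := by
  have hwn : 0 < ‖w‖ := norm_pos_iff.2 hw
  -- it suffices to find a good displacement
  have suff : ∀ s : ℂ, ‖s - w‖ ≤ ‖w‖ → ‖w + s * (2 * z + s)‖ < ‖w‖ → f cs z ∈ interior L := by
    intro s hs1 hs2
    have h1 : z + s ∈ L := by
      apply hz
      rw [mem_closedBall, dist_eq_norm]
      have : z + s - (z + w) = s - w := by ring
      rw [this]; exact hs1
    have h2 := h _ h1
    refine mem_interior.2 ⟨ball (f cs (z + s) + w) ‖w‖, ball_subset_closedBall.trans h2,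
      isOpen_ball, ?_⟩
    rw [mem_ball, dist_eq_norm]
    have : f cs z - (f cs (z + s) + w) = -(w + s * (2 * z + s)) := by unfold f; ring
    rw [this, norm_neg]; exact hs2
  -- the displacement is `ε t w`
  have suff2 : ∀ (t : ℂ) (ε : ℝ), 0 < ε → ε * ‖t‖ ^ 2 ≤ 2 * t.re →
      ‖1 + (ε : ℂ) * t * (2 * z + ε * t * w)‖ < 1 → f cs z ∈ interior L := by
    intro t ε hε h1 h2
    refine suff (ε * t * w) ?_ ?_
    · have h3 : (ε : ℂ) * t * w - w = ((ε : ℂ) * t - 1) * w := by ring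
      rw [h3, norm_mul]
      have h4 : ‖(ε : ℂ) * t - 1‖ ≤ 1 := by
        refine le_of_pow_le_pow_left₀ two_ne_zero zero_le_one ?_
        have h5 : ‖(ε : ℂ) * t - 1‖ ^ 2 = ε ^ 2 * ‖t‖ ^ 2 - 2 * ε * t.re + 1 := by
          rw [← Complex.normSq_eq_norm_sq, ← Complex.normSq_eq_norm_sq, Complex.normSq_apply,
            Complex.normSq_apply]
          simp
          ring
        rw [h5]
        nlinarith
      calc ‖(ε : ℂ) * t - 1‖ * ‖w‖ ≤ 1 * ‖w‖ := by gcongr
        _ = ‖w‖ := one_mul _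
    · have h3 : w + (ε : ℂ) * t * w * (2 * z + ε * t * w) =
          (1 + (ε : ℂ) * t * (2 * z + ε * t * w)) * w := by ring
      rw [h3, norm_mul]
      calc ‖1 + (ε : ℂ) * t * (2 * z + ε * t * w)‖ * ‖w‖ < 1 * ‖w‖ := by gcongr
        _ = ‖w‖ := one_mul _
  by_cases hz0 : z = 0
  · -- the critical point
    obtain ⟨k, hk⟩ : ∃ k : ℝ, ((1 + k * Complex.I) ^ 2 * w).re < 0 := by
      have hform : ∀ k : ℝ, ((1 + k * Complex.I) ^ 2 * w).re =
          (1 - k ^ 2) * w.re - 2 * k * w.im := by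
        intro k
        simp [pow_two]
        left
        ring
      have hne : w.re ≠ 0 ∨ w.im ≠ 0 := by
        by_contra hcon
        push Not at hcon
        exact hw (Complex.ext hcon.1 hcon.2)
      rcases lt_trichotomy w.re 0 with hr | hr | hr
      · exact ⟨0, by rw [hform]; nlinarith⟩
      · rcases lt_trichotomy w.im 0 with hi | hi | hi
        · exact ⟨-1, by rw [hform]; nlinarith⟩
        · rcases hne with h | h
          · exact absurd hr h
          · exact absurd hi h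
        · exact ⟨1, by rw [hform]; nlinarith⟩
      · rcases le_total 0 w.im with hi | hi
        · exact ⟨2, by rw [hform]; nlinarith⟩
        · exact ⟨-2, by rw [hform]; nlinarith⟩
    obtain ⟨ε₀, hε₀, hsm⟩ := small_lt (b := 0) hk
    set t : ℂ := 1 + k * Complex.I with ht
    have htre : t.re = 1 := by simp [ht]
    set ε : ℝ := min (1 / (‖t‖ ^ 2 + 1)) (min (ε₀ / 2) (1 / 2)) with hεd
    have hε : 0 < ε := by positivity
    have hε1 : ε ≤ 1 / (‖t‖ ^ 2 + 1) := min_le_left _ _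
    have hε2 : ε ≤ ε₀ / 2 := (min_le_right _ _).trans (min_le_left _ _)
    have hε3 : ε ≤ 1 / 2 := (min_le_right _ _).trans (min_le_right _ _)
    refine suff2 t ε hε ?_ ?_
    · rw [htre]
      rw [le_div_iff₀ (by positivity)] at hε1
      nlinarith
    · have h1 := hsm (ε ^ 2) (by positivity) (by nlinarith)
      rw [hz0]
      convert h1 using 2
      push_cast
      ring
  · -- other points
    obtain ⟨k, hk⟩ : ∃ k : ℝ, ((1 + k * Complex.I) * (2 * z)).re < 0 := by
      have hform : ∀ k : ℝ, ((1 + k * Complex.I) * (2 * z)).re = 2 * z.re - k * (2 * z.im) := by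
        intro k
        simp
      by_cases hi : z.im = 0
      · have hre : z.re < 0 := by
          by_contra hcon
          push Not at hcon
          rcases hcon.lt_or_eq with h1 | h1
          · exact hnp ⟨h1, hi⟩
          · exact hz0 (Complex.ext h1.symm hi)
        exact ⟨0, by rw [hform]; nlinarith⟩
      · refine ⟨(2 * z.re + 1) / (2 * z.im), ?_⟩
        rw [hform, div_mul_cancel₀ _ (mul_ne_zero two_ne_zero hi)]
        linarith
    set t : ℂ := 1 + k * Complex.I with ht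
    have htre : t.re = 1 := by simp [ht]
    obtain ⟨ε₀, hε₀, hsm⟩ := small_lt (b := t ^ 2 * w) hk
    set ε : ℝ := min (1 / (‖t‖ ^ 2 + 1)) (ε₀ / 2) with hεd
    have hε : 0 < ε := by positivity
    have hε1 : ε ≤ 1 / (‖t‖ ^ 2 + 1) := min_le_left _ _
    have hε2 : ε ≤ ε₀ / 2 := min_le_right _ _
    refine suff2 t ε hε ?_ ?_
    · rw [htre]
      rw [le_div_iff₀ (by positivity)] at hε1
      nlinarith
    · have h1 := hsm ε hε (by linarith)
      convert h1 using 2
      ring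

end Pool.Agent.R241.Bif
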