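import Pool.Agent.R241.Bif4

set_option autoImplicit false

open Filter Topology Set Metric N62a1eb23

namespace Pool.Agent.R241.Bif

/-- A nearby robust parameter with a fixed point of `f cs` in the invariant set has an attracting
fixed point. -/
theorem cardioid_of_fixed {L : Set ℂ} {c cs : ℂ} {R : ℝ} (hR : 0 < R) (hcs : ‖c - cs‖ = R)
    (hL : Rob c R L) {p : ℂ} (hp : p ∈ L) (hfix : f cs p = p) : c ∈ mainCardioid := by
  obtain ⟨hne, hcomp, hinv⟩ := hL
  obtain ⟨C, θ, hC, hθ0, hθ1, hder⟩ := contract (differentiable_f c) hcomp hR hinv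
  have hfp : f c p = p + (c - cs) := by
    have : f c p = f cs p + (c - cs) := by unfold f; ring
    rw [this, hfix]
  have hD : closedBall (f c p) R ⊆ L := hinv p hp
  have hpD : p ∈ closedBall (f c p) R := by
    rw [mem_closedBall, dist_eq_norm, hfp, ← hcs, ← norm_neg]
    simp
  have hqD : f c p ∈ closedBall (f c p) R := mem_closedBall_self hR.le
  have hstep : ∀ n : ℕ, dist ((f c)^[n] p) ((f c)^[n + 1] p) ≤ (C * R) * θ ^ n := by
    intro n
    rw [Function.iterate_succ_apply, dist_comm, dist_eq_norm]
    have h1 := (convex_closedBall (f c p) R).norm_image_sub_le_of_norm_deriv_le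
      (f := (f c)^[n]) (C := C * θ ^ n)
      (fun x _ => (iterate_differentiable c n) x) (fun x hx => hder x (hD hx) n) hpD hqD
    refine h1.trans ?_
    have : ‖f c p - p‖ = R := by rw [hfp, add_sub_cancel_left, hcs]
    rw [this]
    exact le_of_eq (by ring)
  have hcs : CauchySeq fun n : ℕ => (f c)^[n] p := cauchySeq_of_le_geometric θ _ hθ1 hstep
  obtain ⟨q, hq⟩ := cauchySeq_tendsto_of_complete hcs
  have hmem : ∀ n : ℕ, (f c)^[n] p ∈ L := by
    intro n
    induction n with
    | zero => exact hp
    | succ n ih =>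
      rw [Function.iterate_succ_apply']
      exact hinv _ ih (mem_closedBall_self hR.le)
  have hqL : q ∈ L := hcomp.isClosed.mem_of_tendsto hq (Eventually.of_forall hmem)
  have hqfix : f c q = q := by
    have h1 : Tendsto (fun n : ℕ => (f c)^[n + 1] p) atTop (𝓝 q) :=
      hq.comp (tendsto_add_atTop_nat 1)
    have h2 : Tendsto (fun n : ℕ => f c ((f c)^[n] p)) atTop (𝓝 (f c q)) :=
      ((differentiable_f c).continuous.tendsto q).comp hq
    simp only [Function.iterate_succ_apply'] at h1
    exact tendsto_nhds_unique h2 h1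
  have hmul : ‖2 * q‖ < 1 := by
    by_contra hcon
    push Not at hcon
    have hd : HasDerivAt (f c) (2 * q) q := by
      unfold f
      simpa using (hasDerivAt_pow 2 q).add_const c
    have hdn : ∀ n : ℕ, deriv (f c)^[n] q = (2 * q) ^ n := fun n =>
      (HasDerivAt.iterate q hd hqfix n).deriv
    have h1 : ∀ n : ℕ, 1 ≤ C * θ ^ n := by
      intro n
      have h2 := hder q hqL n
      rw [hdn, norm_pow] at h2
      exact (one_le_pow₀ hcon).trans h2
    have h3 : Tendsto (fun n : ℕ => C * θ ^ n) atTop (𝓝 (C * 0)) :=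
      (tendsto_pow_atTop_nhds_zero_of_lt_one hθ0.le hθ1).const_mul C
    rw [mul_zero] at h3
    obtain ⟨n, hn⟩ := (h3.eventually (gt_mem_nhds one_pos)).exists
    exact absurd (h1 n) (not_le.2 hn)
  refine ⟨2 * q, hmul, ?_⟩
  have : c = q - q ^ 2 := by
    have h := hqfix
    unfold f at h
    linear_combination h
  rw [this]
  ring

/-- If an iterate of `f cs` maps the compact set into its interior, then `cs` is an interior point
of the Mandelbrot set. -/
theorem interior_of_strict {L : Set ℂ} (hne : L.Nonempty) (hcomp : IsCompact L) {cs : ℂ} {N : ℕ}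
    (hN : 1 ≤ N) (h : ∀ z ∈ L, (f cs)^[N] z ∈ interior L) : cs ∈ interior mandelbrotSet := by
  have himg : IsCompact ((f cs)^[N] '' L) := hcomp.image (iterate_differentiable cs N).continuous
  have hsub : (f cs)^[N] '' L ⊆ interior L := by
    rintro _ ⟨z, hz, rfl⟩; exact h z hz
  obtain ⟨δ, hδ, hth⟩ := himg.exists_cthickening_subset_open isOpen_interior hsub
  -- uniform continuity in the parameter
  have hcont : Continuous fun q : ℂ × ℂ => (f q.1)^[N] q.2 := by
    have : ∀ n : ℕ, Continuous fun q : ℂ × ℂ => (f q.1)^[n] q.2 := by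
      intro n
      induction n with
      | zero => simpa using continuous_snd
      | succ n ih =>
        simp only [Function.iterate_succ_apply']
        unfold f at ih ⊢
        fun_prop
    exact this N
  have huc : ∀ᶠ c in 𝓝 cs, ∀ z ∈ L, dist ((f c)^[N] z) ((f cs)^[N] z) < δ / 2 := by
    have h1 : ∀ z ∈ L, ∀ᶠ p : ℂ × ℂ in 𝓝 (cs, z),
        dist ((f p.1)^[N] p.2) ((f cs)^[N] p.2) < δ / 2 := by
      intro z _
      have hc2 : Continuous fun p : ℂ × ℂ => dist ((f p.1)^[N] p.2) ((f cs)^[N] p.2) :=
        hcont.dist ((iterate_differentiable cs N).continuous.comp continuous_snd)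
      have h2 : (fun p : ℂ × ℂ => dist ((f p.1)^[N] p.2) ((f cs)^[N] p.2)) (cs, z) < δ / 2 := by
        simp only [dist_self]; positivity
      exact hc2.continuousAt.eventually (gt_mem_nhds h2)
    exact hcomp.eventually_forall_of_forall_eventually h1
  rw [mem_interior_iff_mem_nhds]
  filter_upwards [huc] with c hc
  refine mem_M_of_robust hN hcomp hne (δ := δ / 2) (by positivity) ?_
  intro z hz u hu
  apply interior_subset
  apply hth
  rw [mem_closedBall] at hu
  refine mem_cthickening_of_dist_le u ((f cs)^[N] z) δ _ (mem_image_of_mem _ hz) ?_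
  calc dist u ((f cs)^[N] z) ≤ dist u ((f c)^[N] z) + dist ((f c)^[N] z) ((f cs)^[N] z) :=
        dist_triangle _ _ _
    _ ≤ δ := by have := hc z hz; linarith

/-- The dichotomy at a nearest boundary point. -/
theorem exists_fixed {L : Set ℂ} (hne : L.Nonempty) (hcomp : IsCompact L) {cs w : ℂ} (hw : w ≠ 0)
    (h : ∀ z ∈ L, closedBall (f cs z + w) ‖w‖ ⊆ L) (hcs : cs ∉ interior mandelbrotSet) :
    ∃ p ∈ L, f cs p = p := by
  have hmaps : ∀ z ∈ L, f cs z ∈ L := by
    intro z hz
    apply h z hz
    rw [mem_closedBall, dist_eq_norm]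
    simp
  have hmapsn : ∀ n, ∀ z ∈ L, (f cs)^[n] z ∈ L := fun n => by
    induction n with
    | zero => intro z hz; exact hz
    | succ n ih => intro z hz; rw [Function.iterate_succ_apply']; exact hmaps _ (ih z hz)
  have hint : ∀ z ∈ interior L, f cs z ∈ interior L := by
    intro z hz
    have hopen : IsOpenMap (f cs) := by
      have han : AnalyticOnNhd ℂ (f cs) univ :=
        (differentiable_f cs).differentiableOn.analyticOnNhd isOpen_univ
      rcases han.is_constant_or_isOpen isPreconnected_univ with ⟨w', hw'⟩ | h2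
      · exfalso
        have h3 := hw' 0 trivial
        have h4 := hw' 1 trivial
        unfold f at h3 h4
        have h5 := h4.trans h3.symm
        simp at h5
      · intro s hs
        exact h2 s (subset_univ s) hs
    have h1 : f cs '' interior L ⊆ interior L := by
      refine interior_maximal ?_ (hopen _ isOpen_interior)
      rintro _ ⟨u, hu, rfl⟩
      exact hmaps u (interior_subset hu)
    exact h1 (mem_image_of_mem _ hz)
  set E : ℕ → Set ℂ := fun n => {z | z ∈ L ∧ (f cs)^[n + 1] z ∉ interior L} with hE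
  have hEc : ∀ n, IsCompact (E n) := by
    intro n
    have : E n = L ∩ (f cs)^[n + 1] ⁻¹' (interior L)ᶜ := rfl
    rw [this]
    exact hcomp.inter_right ((isOpen_interior.isClosed_compl).preimage
      (iterate_differentiable cs (n + 1)).continuous)
  have hEn : ∀ n, (E n).Nonempty := by
    intro n
    by_contra hcon
    rw [not_nonempty_iff_eq_empty] at hcon
    apply hcs
    refine interior_of_strict hne hcomp (N := n + 1) (by omega) fun z hz => ?_
    by_contra h1
    have : z ∈ E n := ⟨hz, h1⟩
    rw [hcon] at this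
    exact this
  have hEm : ∀ n, E (n + 1) ⊆ E n := by
    intro n z hz
    refine ⟨hz.1, fun h1 => hz.2 ?_⟩
    rw [Function.iterate_succ_apply']
    exact hint _ h1
  obtain ⟨z₀, hz₀⟩ : (⋂ n, E n).Nonempty :=
    IsCompact.nonempty_iInter_of_sequence_nonempty_isCompact_isClosed _ hEm hEn (hEc _)
      (fun n => (hEc n).isClosed)
  have hz₀' : ∀ n, z₀ ∈ E n := fun n => mem_iInter.1 hz₀ n
  -- the orbit
  set z : ℕ → ℂ := fun n => (f cs)^[n + 1] z₀ with hz
  have hzs : ∀ n, z (n + 1) = f cs (z n) := fun n => by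
    simp only [hz]
    rw [Function.iterate_succ_apply']
  have hzL : ∀ n, z n ∈ L := fun n => hmapsn _ _ (hz₀' 0).1
  have hpos : ∀ n, 0 < (z n).re ∧ (z n).im = 0 := by
    intro n
    by_contra hcon
    have hD : closedBall (z n + w) ‖w‖ ⊆ L := by
      have h1 : z n = f cs ((f cs)^[n] z₀) := by
        simp only [hz]
        rw [Function.iterate_succ_apply']
      rw [h1]
      exact h _ (hmapsn n _ (hz₀' 0).1)
    have h2 := interior_step hw h hD hcon
    rw [← hzs] at h2
    exact (hz₀' (n + 1)).2 h2
  set x : ℕ → ℝ := fun n => (z n).re with hx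
  have hzx : ∀ n, z n = (x n : ℂ) := fun n => Complex.ext rfl (by simpa using (hpos n).2)
  have hcsim : cs.im = 0 := by
    have h1 := hzs 0
    have h2 := (hpos 1).2
    rw [h1, hzx 0] at h2
    unfold f at h2
    rw [← Complex.ofReal_pow, Complex.add_im, Complex.ofReal_im, zero_add] at h2
    exact h2
  have hcsre : cs = (cs.re : ℂ) := Complex.ext rfl (by simpa using hcsim)
  have hxs : ∀ n, x (n + 1) = x n ^ 2 + cs.re := by
    intro n
    have h1 := hzs n
    rw [hzx (n + 1), hzx n] at h1
    unfold f at h1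
    rw [hcsre] at h1
    have h2 : ((x (n + 1) : ℝ) : ℂ) = ((x n ^ 2 + cs.re : ℝ) : ℂ) := by
      rw [h1]; push_cast; simp
    exact_mod_cast h2
  have hxpos : ∀ n, 0 < x n := fun n => (hpos n).1
  obtain ⟨B, hB⟩ := hcomp.isBounded.exists_norm_le
  have hxB : ∀ n, x n ≤ B := fun n => by
    have h1 := hB _ (hzL n)
    rw [hzx n, Complex.norm_real, Real.norm_eq_abs, abs_of_pos (hxpos n)] at h1
    exact h1
  obtain ⟨p, hp⟩ : ∃ p : ℝ, Tendsto x atTop (𝓝 p) := by
    rcases le_total (x 0) (x 1) with h1 | h1
    · have hmono : Monotone x := by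
        refine monotone_nat_of_le_succ fun n => ?_
        induction n with
        | zero => exact h1
        | succ n ih =>
          have e1 := hxs (n + 1)
          have e2 := hxs n
          have h2 : 0 ≤ (x (n + 1) - x n) * (x (n + 1) + x n) :=
            mul_nonneg (by linarith) (by linarith [hxpos n, hxpos (n + 1)])
          nlinarith
      exact ⟨_, tendsto_atTop_ciSup hmono ⟨B, by rintro _ ⟨n, rfl⟩; exact hxB n⟩⟩
    · have hanti : Antitone x := by
        refine antitone_nat_of_succ_le fun n => ?_
        induction n with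
        | zero => exact h1
        | succ n ih =>
          have e1 := hxs (n + 1)
          have e2 := hxs n
          have h2 : 0 ≤ (x n - x (n + 1)) * (x (n + 1) + x n) :=
            mul_nonneg (by linarith) (by linarith [hxpos n, hxpos (n + 1)])
          nlinarith
      exact ⟨_, tendsto_atTop_ciInf hanti ⟨0, by rintro _ ⟨n, rfl⟩; exact (hxpos n).le⟩⟩
  have hpc : Tendsto z atTop (𝓝 (p : ℂ)) := by
    have : z = fun n => (x n : ℂ) := funext hzx
    rw [this]
    exact (Complex.continuous_ofReal.tendsto p).comp hp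
  refine ⟨p, hcomp.isClosed.mem_of_tendsto hpc (Eventually.of_forall hzL), ?_⟩
  have h1 : Tendsto (fun n => z (n + 1)) atTop (𝓝 (p : ℂ)) := hpc.comp (tendsto_add_atTop_nat 1)
  have h2 : Tendsto (fun n => f cs (z n)) atTop (𝓝 (f cs p)) :=
    ((differentiable_f cs).continuous.tendsto _).comp hpc
  simp only [hzs] at h1
  exact tendsto_nhds_unique h2 h1

/-- Question 1. -/
theorem q1 {c : ℂ} (hc : c ∉ frontier mandelbrotSet) (hm : c ∉ mainCardioid) :
    rbif c < infDist c (frontier mandelbrotSet) := by
  by_contra hcon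
  push Not at hcon
  set R := infDist c (frontier mandelbrotSet) with hRdef
  have hR : 0 < R := by
    exact ((isClosed_frontier (s := mandelbrotSet)).notMem_iff_infDist_pos
      frontier_nonempty (x := c)).1 hc
  obtain ⟨cs, hcs, hdist⟩ := (isClosed_frontier (s := mandelbrotSet)).exists_infDist_eq_dist
    frontier_nonempty c
  obtain ⟨L, hL⟩ := exists_rob hR fun r hr0 hr => exists_inv_of_lt hr0 (hr.trans_le hcon)
  have hw : ‖c - cs‖ = R := by rw [hRdef, hdist, dist_eq_norm]
  have hw0 : c - cs ≠ 0 := by
    intro h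
    rw [h, norm_zero] at hw
    linarith
  have hinv : ∀ z ∈ L, closedBall (f cs z + (c - cs)) ‖c - cs‖ ⊆ L := by
    intro z hz
    have : f cs z + (c - cs) = f c z := by unfold f; ring
    rw [this, hw]
    exact hL.2.2 z hz
  obtain ⟨p, hp, hfix⟩ := exists_fixed hL.1 hL.2.1 hw0 hinv (fun h => hcs.2 h)
  exact hm (cardioid_of_fixed hR hw hL hp hfix)

end Pool.Agent.R241.Bif
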