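import Pool.Agent.R241.Bif3

set_option autoImplicit false

open Filter Topology Set Metric N62a1eb23

namespace Pool.Agent.R241.Bif

theorem disc_real {u1 u2 C ρ R x y : ℝ} (hu : u1 ^ 2 + u2 ^ 2 = 1) (hC : u1 = -C) (hC0 : 0 < C)
    (hρ : ρ = C / 4) (hR : 0 < R) (h : 40 * R ≤ C ^ 3)
    (hz : x ^ 2 + y ^ 2 ≤ 2 * ρ * (x * u1 + y * u2)) :
    (x + x ^ 2 - y ^ 2) ^ 2 + (y + 2 * x * y) ^ 2 ≤
      2 * (ρ - R) * ((x + x ^ 2 - y ^ 2) * u1 + (y + 2 * x * y) * u2) := by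
  have hC1 : C ≤ 1 := by nlinarith [sq_nonneg u2]
  set m := x ^ 2 + y ^ 2 with hm
  set s := x * u1 + y * u2 with hs
  have hm0 : 0 ≤ m := by positivity
  have hρ0 : 0 < ρ := by rw [hρ]; positivity
  have hs0 : 0 ≤ s := by
    by_contra hcon
    push Not at hcon
    nlinarith
  have hsm : s ^ 2 ≤ m := by
    have : m - s ^ 2 = (x * u2 - y * u1) ^ 2 := by
      have h1 : m * (u1 ^ 2 + u2 ^ 2) - s ^ 2 = (x * u2 - y * u1) ^ 2 := by rw [hm, hs]; ring
      rw [hu, mul_one] at h1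
      exact h1
    nlinarith [sq_nonneg (x * u2 - y * u1)]
  have hs2 : s ≤ 2 * ρ := by
    by_contra hcon
    push Not at hcon
    nlinarith
  have hm4 : m ≤ 4 * ρ ^ 2 := by nlinarith
  have hx2 : x ^ 2 ≤ 4 * ρ ^ 2 := by nlinarith [sq_nonneg y]
  have hxu : x ≤ 2 * ρ := by
    by_contra hcon
    push Not at hcon
    nlinarith
  have hxl : -(2 * ρ) ≤ x := by
    by_contra hcon
    push Not at hcon
    nlinarith
  have h1x : 0 ≤ 1 + 2 * x := by nlinarith
  have h1x2 : 1 + 2 * x ≤ 1 + C := by nlinarith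
  have hid1 : (x + x ^ 2 - y ^ 2) ^ 2 + (y + 2 * x * y) ^ 2 = m * (1 + 2 * x + m) := by
    rw [hm]; ring
  have hid2 : (x + x ^ 2 - y ^ 2) * u1 + (y + 2 * x * y) * u2 = s * (1 + 2 * x) + m * C := by
    have : C = -u1 := by linarith
    rw [hs, hm, this]; ring
  rw [hid1, hid2]
  have hRρ : R ≤ ρ := by
    rw [hρ]
    nlinarith [pow_pos hC0 3, sq_nonneg (C - 1), mul_pos hC0 hC0]
  -- main inequality, multiplied by `ρ`
  have hkey : R * (1 + 2 * x) + ρ * m ≤ 2 * (ρ - R) * C * ρ := by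
    have e1 : R * (1 + 2 * x) ≤ R * (1 + C) := by gcongr
    have e2 : ρ * m ≤ ρ * (4 * ρ ^ 2) := by gcongr
    have e3 : R * (1 + C) + ρ * (4 * ρ ^ 2) ≤ 2 * (ρ - R) * C * ρ := by
      rw [hρ]
      have hC2 : C ^ 2 ≤ 1 := by nlinarith
      nlinarith [mul_nonneg hR.le hC0.le, mul_nonneg hR.le (sub_nonneg.2 hC1),
        mul_nonneg hR.le (sub_nonneg.2 hC2)]
    linarith
  have e4 : m * (1 + 2 * x) ≤ 2 * ρ * s * (1 + 2 * x) := by gcongr
  have e5 : 0 ≤ ρ - R := by linarith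
  have e6 : (ρ - R) * (m * (1 + 2 * x)) ≤ (ρ - R) * (2 * ρ * s * (1 + 2 * x)) := by gcongr
  have e7 : m * (R * (1 + 2 * x) + ρ * m) ≤ m * (2 * (ρ - R) * C * ρ) := by gcongr
  have e8 : ρ * (m * (1 + 2 * x + m)) ≤ ρ * (2 * (ρ - R) * (s * (1 + 2 * x) + m * C)) := by
    nlinarith
  exact le_of_mul_le_mul_left e8 hρ0

/-- An invariant disc for the parameters near the cusp. -/
theorem inv_disc {c : ℂ} (hc : c ≠ 1 / 4) (h : 40 * ‖c - 1 / 4‖ ^ 4 ≤ (1 / 4 - c.re) ^ 3) :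
    ∃ S : Set ℂ, Inv c ‖c - 1 / 4‖ S := by
  set w : ℂ := c - 1 / 4 with hw
  set R : ℝ := ‖w‖ with hR
  have hR0 : 0 < R := norm_pos_iff.2 (sub_ne_zero.2 hc)
  set u1 : ℝ := w.re / R with hu1
  set u2 : ℝ := w.im / R with hu2
  have hwre : w.re = c.re - 1 / 4 := by simp [hw]
  have hsq : w.re ^ 2 + w.im ^ 2 = R ^ 2 := by
    rw [hR, ← Complex.normSq_eq_norm_sq, Complex.normSq_apply]; ring
  have hu : u1 ^ 2 + u2 ^ 2 = 1 := by
    rw [hu1, hu2, div_pow, div_pow, ← add_div, hsq]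
    field_simp
  have hpos : 0 < 1 / 4 - c.re := by
    by_contra hcon
    push Not at hcon
    have h1 : (1 / 4 - c.re) ^ 3 ≤ 0 := by
      have : (1 / 4 - c.re) ^ 3 = (1 / 4 - c.re) * (1 / 4 - c.re) ^ 2 := by ring
      rw [this]
      exact mul_nonpos_of_nonpos_of_nonneg hcon (sq_nonneg _)
    have h2 : 0 < 40 * R ^ 4 := by positivity
    linarith
  set C : ℝ := -u1 with hC
  have hC0 : 0 < C := by
    rw [hC, hu1, hwre, ← neg_div]
    apply div_pos _ hR0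
    linarith
  have hcond : 40 * R ≤ C ^ 3 := by
    have h1 : C ^ 3 = (1 / 4 - c.re) ^ 3 / R ^ 3 := by
      rw [hC, hu1, hwre, ← div_pow]
      congr 1
      ring
    rw [h1, le_div_iff₀ (by positivity)]
    calc 40 * R * R ^ 3 = 40 * R ^ 4 := by ring
      _ ≤ _ := h
  set ρ : ℝ := C / 4 with hρ
  have hρ0 : 0 < ρ := by positivity
  have hC1 : C ≤ 1 := by nlinarith [sq_nonneg u2]
  have hRρ : R ≤ ρ := by
    rw [hρ]
    nlinarith [pow_pos hC0 3, sq_nonneg (C - 1), mul_pos hC0 hC0]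
  set v : ℂ := ⟨u1, u2⟩ with hv
  have hvn : ‖v‖ = 1 := by
    have : ‖v‖ ^ 2 = 1 := by
      rw [← Complex.normSq_eq_norm_sq, Complex.normSq_apply]
      simp only [hv]
      nlinarith
    exact (pow_eq_one_iff_of_nonneg (norm_nonneg _) two_ne_zero).1 this
  have hwv : w = R * v := by
    apply Complex.ext
    · simp [hv, hu1]; field_simp
    · simp [hv, hu2]; field_simp
  refine ⟨closedBall (1 / 2 + ρ * v) ρ, ⟨_, mem_closedBall_self hρ0.le⟩, isCompact_closedBall _ _,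
    ?_⟩
  intro a ha z hz
  rw [mem_closedBall, dist_eq_norm] at hz ⊢
  set ζ : ℂ := z - 1 / 2 with hζ
  have hz' : ‖ζ - ρ * v‖ ≤ ρ := by
    have : ζ - ρ * v = z - (1 / 2 + ρ * v) := by rw [hζ]; ring
    rw [this]; exact hz
  have hz2 : ζ.re ^ 2 + ζ.im ^ 2 ≤ 2 * ρ * (ζ.re * u1 + ζ.im * u2) := by
    have h1 : ‖ζ - ρ * v‖ ^ 2 ≤ ρ ^ 2 := by gcongr
    rw [← Complex.normSq_eq_norm_sq, Complex.normSq_apply] at h1
    simp [hv] at h1
    nlinarith
  have hreal := disc_real hu (by rw [hC]; ring) hC0 hρ hR0 hcond hz2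
  have h3 : ‖ζ + ζ ^ 2 - ((ρ - R : ℝ) : ℂ) * v‖ ≤ ρ - R := by
    refine le_of_pow_le_pow_left₀ two_ne_zero (by linarith) ?_
    rw [← Complex.normSq_eq_norm_sq, Complex.normSq_apply]
    have e1 : (ζ + ζ ^ 2 - ((ρ - R : ℝ) : ℂ) * v).re = (ζ.re + ζ.re ^ 2 - ζ.im ^ 2) - (ρ - R) * u1 := by
      simp [hv, pow_two]; ring
    have e2 : (ζ + ζ ^ 2 - ((ρ - R : ℝ) : ℂ) * v).im = (ζ.im + 2 * ζ.re * ζ.im) - (ρ - R) * u2 := by
      simp [hv, pow_two]; ring
    rw [e1, e2]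
    nlinarith
  have h4 : f a z - (1 / 2 + ρ * v) = (ζ + ζ ^ 2 - ((ρ - R : ℝ) : ℂ) * v) + (a - c) := by
    have h5 : c = 1 / 4 + R * v := by rw [← hwv, hw]; ring
    rw [h5, hζ]
    unfold f
    push_cast
    ring
  rw [h4]
  calc _ ≤ ‖ζ + ζ ^ 2 - ((ρ - R : ℝ) : ℂ) * v‖ + ‖a - c‖ := norm_add_le _ _
    _ ≤ (ρ - R) + R := by gcongr
    _ = ρ := by ring

theorem quarter_mem_frontier : (1 / 4 : ℂ) ∈ frontier mandelbrotSet := by
  rw [frontier_eq_closure_inter_closure]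
  constructor
  · apply subset_closure
    rw [mem_M_iff]
    refine mem_K_of_bounded_subseq (N := 1) le_rfl (isCompact_closedBall (0 : ℂ) (1 / 2))
      fun n => ?_
    rw [one_mul, mem_closedBall_zero_iff]
    induction n with
    | zero => simp
    | succ n ih =>
      rw [Function.iterate_succ_apply']
      set u : ℂ := (f (1 / 4))^[n] 0
      have hu : f (1 / 4) u = u ^ 2 + 1 / 4 := rfl
      rw [hu]
      refine (norm_add_le _ _).trans ?_
      rw [norm_pow]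
      have : ‖(1 / 4 : ℂ)‖ = 1 / 4 := by norm_num
      rw [this]
      nlinarith [norm_nonneg u]
  · rw [Metric.mem_closure_iff]
    intro ε hε
    refine ⟨((1 / 4 + ε / 2 : ℝ) : ℂ), ?_, ?_⟩
    · show ((1 / 4 + ε / 2 : ℝ) : ℂ) ∉ mandelbrotSet
      rw [mem_M_iff]
      intro h
      apply h
      rw [← tendsto_norm_atTop_iff_cobounded]
      have h1 : ∀ n : ℕ, ∃ x : ℝ, (f ((1 / 4 + ε / 2 : ℝ) : ℂ))^[n] 0 = x ∧ n * (ε / 2) ≤ x := by
        intro n
        induction n with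
        | zero => exact ⟨0, by simp, by simp⟩
        | succ n ih =>
          obtain ⟨x, hx, hx2⟩ := ih
          refine ⟨x ^ 2 + (1 / 4 + ε / 2), ?_, ?_⟩
          · rw [Function.iterate_succ_apply', hx]; unfold f; push_cast; ring
          · push_cast
            nlinarith [sq_nonneg (x - 1 / 2)]
      refine tendsto_atTop_mono (f := fun n : ℕ => (n : ℝ) * (ε / 2)) (fun n => ?_) ?_
      · obtain ⟨x, hx, hx2⟩ := h1 n
        rw [hx, Complex.norm_real, Real.norm_eq_abs]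
        exact hx2.trans (le_abs_self x)
      · exact tendsto_natCast_atTop_atTop.atTop_mul_const (by positivity)
    · rw [dist_eq_norm]
      have : (1 / 4 : ℂ) - ((1 / 4 + ε / 2 : ℝ) : ℂ) = ((-(ε / 2) : ℝ) : ℂ) := by
        push_cast; ring
      rw [this, Complex.norm_real, Real.norm_eq_abs, abs_neg, abs_of_pos (by positivity)]
      linarith

/-- Near the cusp, to the left, the bifurcation radius is the distance to the boundary of the
Mandelbrot set, and this is the distance to the cusp. -/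
theorem region {c : ℂ} (h : 40 * ‖c - 1 / 4‖ ^ 4 ≤ (1 / 4 - c.re) ^ 3) :
    rbif c = ‖c - 1 / 4‖ ∧ infDist c (frontier mandelbrotSet) = ‖c - 1 / 4‖ := by
  have h1 : infDist c (frontier mandelbrotSet) ≤ ‖c - 1 / 4‖ := by
    rw [← dist_eq_norm]
    exact infDist_le_dist_of_mem quarter_mem_frontier
  have h2 := rbif_le c
  have h3 : ‖c - 1 / 4‖ ≤ rbif c := by
    by_cases hc : c = 1 / 4
    · rw [hc, sub_self, norm_zero]
      exact le_rbif fun r hr0 hr => absurd hr0 (not_le.2 hr)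
    · obtain ⟨S, hS⟩ := inv_disc hc h
      refine le_rbif fun r _ hr => ⟨S, hS.1, hS.2.1, fun a ha => hS.2.2 a (ha.trans hr.le)⟩
  constructor
  · linarith
  · linarith

end Pool.Agent.R241.Bif
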