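import Mathlib
import Pool.Prelude.Def_F_c31e40fa

/-!
# The bifurcation radius of noisy quadratic iteration: definitions
-/

set_option autoImplicit false

open Filter Topology Set Metric

namespace Pool.Agent.R241.Bif

/-- The quadratic polynomial `z ^ 2 + c`. -/
def f (c z : ℂ) : ℂ := z ^ 2 + c

/-- The composition `f_{a_1} ∘ ⋯ ∘ f_{a_n}` for the list `[a_1, …, a_n]`, where
`f_a z = z ^ 2 + a`. -/
def comp : List ℂ → ℂ → ℂ
  | [], z => z
  | a :: l, z => f a (comp l z)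

/-- The semigroup `G_{c,r}` of all the compositions `f_{a_1} ∘ ⋯ ∘ f_{a_n}` with `n ≥ 1` and
`|a_i - c| ≤ r` for all `i`. -/
def G (c : ℂ) (r : ℝ) : Set (ℂ → ℂ) :=
  {g | ∃ l : List ℂ, l ≠ [] ∧ (∀ a ∈ l, ‖a - c‖ ≤ r) ∧ g = comp l}

/-- `L` is a nonempty compact subset of the Riemann sphere with `g (L) ⊆ L` for all `g ∈ G_{c,r}`
(the maps are extended by `∞ ↦ ∞`). -/
def Invariant (c : ℂ) (r : ℝ) (L : Set (OnePoint ℂ)) : Prop :=
  L.Nonempty ∧ IsCompact L ∧ ∀ g ∈ G c r, ∀ x ∈ L, OnePoint.map g x ∈ L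

/-- `L` is a minimal set of `G_{c,r}`. -/
def IsMinimalSet (c : ℂ) (r : ℝ) (L : Set (OnePoint ℂ)) : Prop :=
  Invariant c r L ∧ ∀ L' ⊆ L, Invariant c r L' → L' = L

/-- `L` is contained in the plane. -/
def Planar (L : Set (OnePoint ℂ)) : Prop := OnePoint.infty ∉ L

/-- The bifurcation radius: the infimum of the `r ≥ 0` for which `G_{c,r}` has no planar minimal
set. -/
noncomputable def rbif (c : ℂ) : ℝ :=
  sInf {r : ℝ | 0 ≤ r ∧ ¬ ∃ L : Set (OnePoint ℂ), IsMinimalSet c r L ∧ Planar L}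

/-- The main cardioid. -/
def mainCardioid : Set ℂ := {c | ∃ l : ℂ, ‖l‖ < 1 ∧ c = l / 2 - l ^ 2 / 4}

end Pool.Agent.R241.Bif
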