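import Pool.Agent.H777R4.DM.Basic
import Pool.Agent.H777R4.DM.R0

/-! # The exchange of `x₀` and `x₁` and the Ihara bracket -/

set_option autoImplicit false

namespace Pool.Agent.R241.DL

open Pool.Agent.H777R4.DM

attribute [local instance 100] LieRing.ofAssociativeRing

/-- exchange the letters -/
def fl (i : Fin 2) : Fin 2 := 1 - i

theorem fl_fl (i : Fin 2) : fl (fl i) = i := by
  revert i; decide

theorem map_map (u : List (Fin 2)) : (u.map fl).map fl = u := by
  rw [List.map_map]
  conv_rhs => rw [← List.map_id u]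
  apply List.map_congr_left
  intro i _
  exact fl_fl i

/-- the automorphism of `ℚ⟨x₀, x₁⟩` exchanging `x₀` and `x₁` -/
noncomputable def sg : A →ₐ[ℚ] A :=
  MonoidAlgebra.lift ℚ A (FreeMonoid (Fin 2)) (FreeMonoid.lift (fun i => x (fl i)))

theorem sg_wd (u : List (Fin 2)) : sg (wd u) = wd (u.map fl) := by
  unfold sg wd
  rw [MonoidAlgebra.of_apply, MonoidAlgebra.lift_single, one_smul, MonoidAlgebra.of_apply]
  induction u with
  | nil => simp [MonoidAlgebra.one_def]
  | cons i u ih =>
    rw [FreeMonoid.ofList_cons, map_mul, ih, FreeMonoid.lift_eval_of, List.map_cons,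
      FreeMonoid.ofList_cons]
    unfold x wd
    rw [MonoidAlgebra.of_apply, MonoidAlgebra.single_mul_single, one_mul]
    rfl

theorem co_sg (P : A) (u : List (Fin 2)) : co (sg P) u = co P (u.map fl) := by
  induction P using al_induction with
  | h1 v =>
    rw [sg_wd, co_wd, co_wd]
    by_cases h : v.map fl = u
    · rw [if_pos h, if_pos]
      rw [← h, map_map]
    · rw [if_neg h, if_neg]
      intro h2
      apply h
      rw [h2, map_map]
  | h2 P Q hP hQ => rw [map_add, co_add, co_add, hP, hQ]
  | h3 c P hP => rw [map_smul, co_smul, co_smul, hP]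

theorem sg_sg (P : A) : sg (sg P) = P := by
  apply al_ext
  intro u
  rw [co_sg, co_sg, map_map]

theorem sg_x (i : Fin 2) : sg (x i) = x (fl i) := by
  unfold x
  rw [sg_wd]
  rfl

theorem sg_mem {P : A} (h : P ∈ LieX) : sg P ∈ LieX := by
  have h1 : LieX ≤ LieX.comap (sg : A →ₐ[ℚ] A).toLieHom := by
    unfold LieX
    rw [LieSubalgebra.lieSpan_le]
    intro y hy
    have h2 : ∀ i : Fin 2, (x i : A) ∈ LieSubalgebra.lieSpan ℚ A ({x 0, x 1} : Set A) := by
      intro i
      apply LieSubalgebra.subset_lieSpan
      have : i = 0 ∨ i = 1 := by omega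
      rcases this with rfl | rfl <;> simp
    have h3 : ∃ i, y = x i := by
      rcases hy with rfl | hy
      · exact ⟨0, rfl⟩
      · exact ⟨1, hy⟩
    obtain ⟨i, rfl⟩ := h3
    show sg (x i) ∈ LieSubalgebra.lieSpan ℚ A ({x 0, x 1} : Set A)
    rw [sg_x]
    exact h2 _
  exact h1 h

/-- `f ↦ - f(x₁, x₀)` -/
noncomputable def tau : A →ₗ[ℚ] A := -sg.toLinearMap

theorem tau_apply (f : A) : tau f = - sg f := rfl

theorem tau_tau (f : A) : tau (tau f) = f := by
  rw [tau_apply, tau_apply, map_neg, sg_sg, neg_neg]

theorem co_tau (f : A) (u : List (Fin 2)) : co (tau f) u = - co f (u.map fl) := by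
  rw [tau_apply, co_neg, co_sg]

theorem tau_mem {f : A} (h : f ∈ LieX) : tau f ∈ LieX := by
  rw [tau_apply]
  exact LieX.toSubmodule.neg_mem (sg_mem h)

theorem derW_tau (f : A) (u : List (Fin 2)) :
    derW (tau f) (u.map fl) = sg (derW f u + f * wd u - wd u * f) := by
  induction u with
  | nil =>
    rw [List.map_nil]
    unfold derW
    rw [R0.wd_nil, mul_one, one_mul, zero_add, sub_self, map_zero]
  | cons i u ih =>
    rw [List.map_cons]
    unfold derW
    rw [ih, R0.wd_cons i u]
    have hx : (wd [i] : A) = x i := rfl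
    rw [hx]
    have hi : i = 0 ∨ i = 1 := by omega
    rcases hi with rfl | rfl
    · have e : fl 0 = 1 := rfl
      rw [e, if_pos rfl, if_neg (by decide)]
      simp only [map_add, map_sub, map_mul, sg_x, ← sg_wd, e, tau_apply, map_zero, zero_mul]
      noncomm_ring
    · have e : fl 1 = 0 := rfl
      rw [e, if_neg (by decide), if_pos rfl]
      simp only [map_add, map_sub, map_mul, sg_x, ← sg_wd, e, zero_mul]
      noncomm_ring

theorem der_tau (f g : A) : der (tau f) (sg g) = sg (der f g + f * g - g * f) := by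
  induction g using al_induction with
  | h1 u =>
    rw [sg_wd]
    unfold der
    rw [lext_wd, lext_wd, derW_tau]
  | h2 P Q hP hQ =>
    simp only [map_add, map_sub, mul_add, add_mul, hP, hQ]
    abel
  | h3 c P hP =>
    simp only [map_smul, mul_smul_comm, smul_mul_assoc, hP, ← smul_add, ← smul_sub]

theorem ihara_tau (f g : A) : ihara (tau f) (tau g) = tau (ihara f g) := by
  have h1 : der (tau f) (tau g) = - sg (der f g + f * g - g * f) := by
    rw [tau_apply g, map_neg, der_tau]
  have h2 : der (tau g) (tau f) = - sg (der g f + g * f - f * g) := by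
    rw [tau_apply f, map_neg, der_tau]
  unfold ihara
  rw [h1, h2]
  simp only [tau_apply, map_add, map_sub, map_mul]
  noncomm_ring

end Pool.Agent.R241.DL
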