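import Pool.Agent.Y759.DS.Filt
import Pool.Agent.R241.DL1
import Pool.Agent.H777R4.DM.Cases

/-! # The part with the fewest letters `x₀` is cyclically symmetric -/

set_option autoImplicit false

namespace Pool.Agent.R241.DL

open Pool.Agent.H777R4.DM Pool.Agent.Y759.QS

/-- the sum over the words obtained by inserting `x₀ x₁^n` right before an `x₀` -/
def Mid (n : ℕ) : List (Fin 2) → (List (Fin 2) → ℚ) → ℚ
  | [], _ => 0
  | a :: w, β => (if a = 0 then β (0 :: (List.replicate n 1 ++ 0 :: w)) else 0) +
      Mid n w (fun t => β (a :: t))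

theorem En_eq (n : ℕ) (w : List (Fin 2)) : ∀ β : List (Fin 2) → ℚ,
    En n w β = Mid n w β + β (w ++ 0 :: List.replicate n 1) := by
  induction w with
  | nil => intro β; simp [En, Mid]
  | cons a w ih =>
    intro β
    rw [En, Mid, ih]
    simp only [List.cons_append]
    ring

theorem Mid_append (n : ℕ) (w : List (Fin 2)) (a : Fin 2) : ∀ β : List (Fin 2) → ℚ,
    Mid n (w ++ [a]) β = Mid n w (fun t => β (t ++ [a])) +
      (if a = 0 then β (w ++ 0 :: (List.replicate n 1 ++ [0])) else 0) := by
  induction w with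
  | nil => intro β; simp [Mid]
  | cons b w ih =>
    intro β
    rw [List.cons_append, Mid, Mid, ih]
    simp only [List.cons_append, List.append_assoc]
    ring

theorem Mid_reverse (n : ℕ) (w : List (Fin 2)) : ∀ β : List (Fin 2) → ℚ,
    Mid n w.reverse (fun t => β t.reverse) = Mid n w β := by
  induction w with
  | nil => intro β; rfl
  | cons a w ih =>
    intro β
    rw [List.reverse_cons, Mid_append, Mid]
    have e1 : Mid n w.reverse (fun t => β (t ++ [a]).reverse) = Mid n w (fun t => β (a :: t)) := by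
      rw [← ih (fun t => β (a :: t))]
      congr 1
      funext t
      simp
    rw [e1, add_comm]
    congr 1
    by_cases h : a = 0
    · subst h
      rw [if_pos rfl, if_pos rfl]
      congr 1
      simp
    · rw [if_neg h, if_neg h]

theorem Mid_smul (n : ℕ) (c : ℚ) (w : List (Fin 2)) : ∀ β : List (Fin 2) → ℚ,
    Mid n w (fun t => c * β t) = c * Mid n w β := by
  induction w with
  | nil => intro β; simp [Mid]
  | cons a w ih =>
    intro β
    rw [Mid, Mid, ih]
    split_ifs <;> ring

theorem Mid_null (n : ℕ) (w : List (Fin 2)) : ∀ β : List (Fin 2) → ℚ,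
    (∀ t, t.length = w.length + n + 1 → β t = 0) → Mid n w β = 0 := by
  induction w with
  | nil => intro β _; rfl
  | cons a w ih =>
    intro β h
    rw [Mid, ih, add_zero]
    · split_ifs
      · apply h
        simp
        omega
      · rfl
    · intro t ht
      apply h
      simp
      omega

/-- The relations with one letter. -/
theorem mid_zero {ψ : A} {N m : ℕ} (h : IsDM ψ) (hN : LenHom ψ N)
    (hm : ∀ u, co ψ u ≠ 0 → m ≤ u.count 0) (h2 : 2 ≤ m) (n : ℕ) (w : List (Fin 2))
    (hw : w.count 0 + 1 = m) :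
    Mid n w (co ψ) + co ψ (List.replicate n 1 ++ 0 :: w) = 0 ∧
      Mid n w (co ψ) + co ψ (w ++ 0 :: List.replicate n 1) = 0 := by
  have hcl := Pool.Agent.TH19.DS.count_len w
  by_cases hlen : w.count 1 + n + m = N
  · have hrev : ∀ t, co ψ t = (-1) ^ (N + 1) * co ψ t.reverse := by
      intro t
      by_cases ht : t.length = N
      · have h3 := rev_of h t
        rw [ht] at h3
        rw [h3, ← mul_assoc, ← pow_add]
        have h4 : Even (N + 1 + (N + 1)) := ⟨N + 1, rfl⟩
        rw [h4.neg_one_pow, one_mul]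
      · have h3 : co ψ t = 0 := by
          by_contra hne
          exact ht (hN t hne)
        have h4 : co ψ t.reverse = 0 := by
          by_contra hne
          exact ht (by simpa using hN _ hne)
        rw [h3, h4, mul_zero]
    have e1 := single h hN hm h2 n w hw hlen
    have e2 := single h hN hm h2 n w.reverse (by rw [List.count_reverse]; exact hw)
      (by rw [List.count_reverse]; exact hlen)
    rw [En_eq] at e1 e2
    have e3 : Mid n w.reverse (co ψ) = (-1) ^ (N + 1) * Mid n w (co ψ) := by
      rw [← Mid_reverse n w (co ψ), ← Mid_smul]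
      congr 1
      funext t
      exact hrev t
    have e4 : co ψ (w.reverse ++ 0 :: List.replicate n 1) =
        (-1) ^ (N + 1) * co ψ (List.replicate n 1 ++ 0 :: w) := by
      rw [hrev]
      congr 2
      simp
    rw [e3, e4, ← mul_add] at e2
    have h5 : ((-1 : ℚ)) ^ (N + 1) ≠ 0 := pow_ne_zero _ (by norm_num)
    exact ⟨(mul_eq_zero.1 e2).resolve_left h5, e1⟩
  · have hz : ∀ t : List (Fin 2), t.length = w.length + n + 1 → co ψ t = 0 := by
      intro t ht
      by_contra hne
      have := hN _ hne
      omega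
    rw [Mid_null n w _ hz, hz _ (by simp; omega), hz _ (by simp; omega), add_zero]
    exact ⟨rfl, rfl⟩

/-- **Cyclic symmetry of the part with the fewest letters `x₀`.** -/
theorem cyc {ψ : A} {N m : ℕ} (h : IsDM ψ) (hN : LenHom ψ N)
    (hm : ∀ u, co ψ u ≠ 0 → m ≤ u.count 0) (h2 : 2 ≤ m) (n : ℕ) (w : List (Fin 2))
    (hw : w.count 0 + 1 = m) :
    co ψ (w ++ 0 :: List.replicate n 1) = co ψ (List.replicate n 1 ++ 0 :: w) := by
  have := mid_zero h hN hm h2 n w hw
  linarith [this.1, this.2]

/-- the word `x₀^{a₀} x₁ x₀^{a₁} ⋯ x₁ x₀^{a_m}` -/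
def Wd : List ℕ → List (Fin 2)
  | [] => []
  | [a] => List.replicate a 0
  | a :: b :: l => List.replicate a 0 ++ 1 :: Wd (b :: l)

theorem Wd_snoc (v : List ℕ) (k : ℕ) : Wd (v ++ [k]) = wordX v ++ List.replicate k 0 := by
  induction v with
  | nil => rfl
  | cons a v ih =>
    have h : ∃ b l, v ++ [k] = b :: l := by
      cases v with
      | nil => exact ⟨k, [], rfl⟩
      | cons b l => exact ⟨b, l ++ [k], rfl⟩
    obtain ⟨b, l, hbl⟩ := h
    rw [List.cons_append, hbl, Wd, ← hbl, ih, wordX]
    simp

section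

variable {ψ : A} {N r : ℕ}

theorem tau_cyc (h : IsDM ψ) (hN : LenHom ψ N) (hm : ∀ u, co ψ u ≠ 0 → r ≤ u.count 0)
    (h2 : 2 ≤ r) (n : ℕ) (v : List ℕ) (j : ℕ) (hv : v.length + 1 = r) :
    co (tau ψ) (Wd (n :: (v ++ [j]))) = co (tau ψ) (Wd ((v ++ [j]) ++ [n])) := by
  have e1 : Wd (n :: (v ++ [j])) = List.replicate n 0 ++ 1 :: (wordX v ++ List.replicate j 0) := by
    rw [← List.cons_append, Wd_snoc, wordX]
    simp
  have e2 : Wd ((v ++ [j]) ++ [n]) = (wordX v ++ List.replicate j 0) ++ 1 :: List.replicate n 0 := by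
    rw [Wd_snoc, R0.wordX_append]
    simp [wordX]
  rw [e1, e2, co_tau, co_tau]
  have f0 : fl 0 = 1 := rfl
  have f1 : fl 1 = 0 := rfl
  have h3 := cyc h hN hm h2 n ((wordX v ++ List.replicate j 0).map fl) (by
    have : ((wordX v ++ List.replicate j 0).map fl).count 0 =
        (wordX v ++ List.replicate j (0 : Fin 2)).count 1 := by
      rw [← f1, List.count_map_of_injective]
      intro a b hab
      rw [← fl_fl a, hab, fl_fl]
    rw [this, word_count]
    exact hv)
  rw [List.map_append, List.map_append, List.map_cons, List.map_cons, List.map_replicate,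
    f0, f1, h3]

theorem tau_rot (h : IsDM ψ) (hN : LenHom ψ N) (hm : ∀ u, co ψ u ≠ 0 → r ≤ u.count 0)
    (h2 : 2 ≤ r) (t : ℕ) (L : List ℕ) (hL : L.length = r + 1) :
    co (tau ψ) (Wd (L.rotate t)) = co (tau ψ) (Wd L) := by
  induction t with
  | zero => rw [List.rotate_zero]
  | succ t ih =>
    rw [← ih, ← List.rotate_rotate]
    have h3 : (L.rotate t).length = r + 1 := by rw [List.length_rotate, hL]
    generalize L.rotate t = M at h3
    match M, h3 with
    | n :: M, h3 =>
      have hne : M ≠ [] := by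
        rintro rfl
        simp at h3
        omega
      have h4 := List.dropLast_append_getLast hne
      have h5 := tau_cyc h hN hm h2 n M.dropLast (M.getLast hne) (by
        rw [List.length_dropLast]
        simp at h3
        omega)
      rw [h4] at h5
      rw [h5, show (1 : ℕ) = 0 + 1 from rfl, List.rotate_cons_succ, List.rotate_zero]

/-- a word with many trailing letters -/
theorem large (h : IsDM ψ) (hN : LenHom ψ N) (hm : ∀ u, co ψ u ≠ 0 → r ≤ u.count 0)
    (h2 : 2 ≤ r) (hex : ∃ u, co ψ u ≠ 0 ∧ u.count 0 = r) :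
    ∃ k, N + 1 ≤ (k + 1) * (r + 1) ∧ Fp r (tau ψ) k ≠ 0 := by
  obtain ⟨u, hu, hur⟩ := hex
  have f1 : fl 1 = 0 := rfl
  have h3 := wordX_strip (u.map fl)
  generalize hv : (strip (u.map fl)).1 = v at h3
  generalize hk : (strip (u.map fl)).2 = k at h3
  have hlen : v.length = r := by
    have h4 := word_count v k
    rw [h3] at h4
    rw [← h4, ← hur, ← f1, ← List.count_map_of_injective (u.map fl) fl _ 1, map_map]
    intro a b hab
    rw [← fl_fl a, hab, fl_fl]
  have hsum : v.sum + r + k = N := by
    have h4 := word_length v k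
    rw [h3, List.length_map, hN u hu, hlen] at h4
    exact h4.symm
  have hG : co (tau ψ) (Wd (v ++ [k])) ≠ 0 := by
    rw [Wd_snoc, h3, co_tau, map_map]
    exact neg_ne_zero.2 hu
  have hL : (v ++ [k]).length = r + 1 := by simp [hlen]
  have hS : (v ++ [k]).sum + r = N := by simp; omega
  obtain ⟨e, he, hbig⟩ : ∃ e ∈ v ++ [k], N + 1 ≤ (e + 1) * (r + 1) := by
    by_contra hcon
    push Not at hcon
    have h5 : ∀ e ∈ v ++ [k], e ≤ N / (r + 1) - 1 := by
      intro e he
      have h6 := hcon e he
      have h7 : e + 1 ≤ N / (r + 1) := by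
        rw [Nat.le_div_iff_mul_le (by omega)]
        omega
      omega
    have h6 := List.sum_le_card_nsmul _ _ h5
    rw [hL, smul_eq_mul] at h6
    have h7 : 1 ≤ N / (r + 1) := by
      have h8 := hcon k (by simp)
      rw [Nat.le_div_iff_mul_le (by omega)]
      have : 1 * (r + 1) ≤ (k + 1) * (r + 1) := Nat.mul_le_mul_right _ (by omega)
      omega
    have h8 : (r + 1) * (N / (r + 1)) ≤ N := Nat.mul_div_le _ _
    have h9 : (r + 1) * (N / (r + 1) - 1) + (r + 1) = (r + 1) * (N / (r + 1)) := by
      rw [← Nat.mul_succ]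
      congr 1
      omega
    omega
  refine ⟨e, hbig, ?_⟩
  obtain ⟨s, t, hst⟩ := List.append_of_mem he
  have h5 : (v ++ [k]).rotate (s ++ [e]).length = (t ++ s) ++ [e] := by
    rw [hst]
    have : s ++ e :: t = (s ++ [e]) ++ t := by simp
    rw [this, List.rotate_append_length_eq]
    simp
  have h6 := tau_rot h hN hm h2 (s ++ [e]).length (v ++ [k]) hL
  rw [h5, Wd_snoc] at h6
  rw [← h6] at hG
  intro h7
  have h8 := co_Fp r (tau ψ) e (t ++ s)
  have h9 : (t ++ s).length = r := by
    have := congrArg List.length hst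
    rw [hL] at this
    simp at this
    simp
    omega
  rw [h7, co_zero, if_pos h9] at h8
  exact hG h8.symm

end

end Pool.Agent.R241.DL
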