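import Pool.Agent.R241.DL2
import Pool.Agent.H777R4.DM.AsmN
import Pool.Agent.H20R3.FreeN

/-! # Free Lie algebras in `dm` and the filtration by the number of letters `x₀` -/

set_option autoImplicit false

namespace Pool.Agent.R241.DL

open Pool.Agent.H777R4.DM

attribute [local instance 100] LieRing.ofAssociativeRing

theorem main {n r : ℕ} {ψ : Fin n → A} {wt : Fin n → ℕ} {W : Finset ℕ} (h2 : 2 ≤ r)
    (hW : ∀ w ∈ W, W.card * (r + 1) ≤ w) (hwt : ∀ i, wt i ∈ W) (hdm : ∀ i, IsDM (ψ i))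
    (hhom : ∀ i, LenHom (ψ i) (wt i)) (hcnt : ∀ i u, co (ψ i) u ≠ 0 → r ≤ u.count 0)
    (hind : ∀ c : Fin n → ℚ, (∀ u, u.count 0 = r → co (∑ i, c i • ψ i) u = 0) → c = 0) :
    Function.Injective (PhiN (fun i => tau (ψ i))) := by
  have f0 : fl 0 = 1 := rfl
  have f1 : fl 1 = 0 := rfl
  have hinj : Function.Injective fl := by
    intro a b hab
    rw [← fl_fl a, hab, fl_fl]
  have hc10 : ∀ u : List (Fin 2), (u.map fl).count 0 = u.count 1 := by
    intro u
    rw [← f1, List.count_map_of_injective u fl hinj]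
  have hc01 : ∀ u : List (Fin 2), (u.map fl).count 1 = u.count 0 := by
    intro u
    rw [← f0, List.count_map_of_injective u fl hinj]
  have hcmw : ∀ (c : Fin n → ℚ) (w : ℕ), cmw (fun i => tau (ψ i)) wt c w = tau (cmw ψ wt c w) := by
    intro c w
    unfold cmw
    rw [map_sum]
    exact Finset.sum_congr rfl fun i _ => by rw [map_smul]
  have hcmb : ∀ (c : Fin n → ℚ), cmb (fun i => tau (ψ i)) c = tau (∑ i, c i • ψ i) := by
    intro c
    unfold cmb
    rw [map_sum]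
    exact Finset.sum_congr rfl fun i _ => by rw [map_smul]
  refine core Pool.Agent.H337R3.Lead1.lead1 Pool.Agent.H861R3.DM.LeadN.leadN_ok
    Pool.Agent.H20R3.FreeN.taskFreeN Pool.Agent.H777R4.DM.R0.taskR0 taskVan
    Pool.Agent.H553R3.taskAdapt Pool.Agent.H826R3.DM.taskShearN (r := r) (wt := wt) (W := W)
    (by omega) hwt ?_ ?_ ?_ ?_ ?_ ?_
  · intro i u hu
    rw [co_tau] at hu
    have := hhom i _ (neg_ne_zero.1 hu)
    rwa [List.length_map] at this
  · intro i
    exact tau_mem (hdm i).mem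
  · intro i
    rw [co_tau]
    show - co (ψ i) [1] = 0
    rw [(hdm i).c1, neg_zero]
  · intro i u hu
    rw [co_tau] at hu
    have := hcnt i _ (neg_ne_zero.1 hu)
    rwa [hc10] at this
  · intro c hc
    refine hind c fun u hu => ?_
    have h1 := hc (u.map fl) (by rw [hc01]; exact hu)
    rw [hcmb, co_tau, map_map] at h1
    linarith
  · rintro c w hw ⟨u, hu, hur⟩
    rw [hcmw] at hu
    rw [co_tau] at hu
    have hd : IsDM (cmw ψ wt c w) := by
      unfold cmw
      exact isDM_sum _ _ fun i _ => isDM_smul (hdm i) _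
    have hcn : ∀ u, co (cmw ψ wt c w) u ≠ 0 → r ≤ u.count 0 := by
      intro u hu
      unfold cmw at hu
      rw [co_sum] at hu
      obtain ⟨i, _, hi⟩ := Finset.exists_ne_zero_of_sum_ne_zero hu
      rw [co_smul] at hi
      exact hcnt i u (right_ne_zero_of_mul hi)
    obtain ⟨k, hk, hkne⟩ := large hd (cmw_hom hhom c w) hcn h2
      ⟨u.map fl, neg_ne_zero.1 hu, by rw [hc10]; exact hur⟩
    refine ⟨k, ?_, ?_⟩
    · have h3 := hW w hw
      have h4 : W.card * (r + 1) < (k + 1) * (r + 1) := by omega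
      have := Nat.lt_of_mul_lt_mul_right h4
      omega
    · rw [hcmw]
      exact hkne

theorem final {n r : ℕ} {ψ : Fin n → A} {wt : Fin n → ℕ} {W : Finset ℕ} (h2 : 2 ≤ r)
    (hW : ∀ w ∈ W, W.card * (r + 1) ≤ w) (hwt : ∀ i, wt i ∈ W) (hdm : ∀ i, IsDM (ψ i))
    (hhom : ∀ i, LenHom (ψ i) (wt i)) (hcnt : ∀ i u, co (ψ i) u ≠ 0 → r ≤ u.count 0)
    (hind : ∀ c : Fin n → ℚ, (∀ u, u.count 0 = r → co (∑ i, c i • ψ i) u = 0) → c = 0) :
    ∃ φ : Al (Fin n) →ₗ[ℚ] A, Function.Injective φ ∧ (∀ i, φ (wd [i]) = ψ i) ∧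
      ∀ P ∈ LieN n, ∀ Q ∈ LieN n, φ (P * Q - Q * P) = ihara (φ P) (φ Q) := by
  refine ⟨tau ∘ₗ PhiN (fun i => tau (ψ i)), ?_, ?_, ?_⟩
  · intro P Q hPQ
    rw [LinearMap.comp_apply, LinearMap.comp_apply] at hPQ
    apply main h2 hW hwt hdm hhom hcnt hind
    rw [← tau_tau (PhiN _ P), hPQ, tau_tau]
  · intro i
    rw [LinearMap.comp_apply, (Pool.Agent.H358R3.DM.taskFinalN n _).1, tau_tau]
  · intro P hP Q hQ
    rw [LinearMap.comp_apply, LinearMap.comp_apply, LinearMap.comp_apply,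
      (Pool.Agent.H358R3.DM.taskFinalN n _).2 P hP Q hQ, ihara_tau]

end Pool.Agent.R241.DL
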