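import Pool.Agent.H777R4.DM.Core2
import Pool.Agent.H20R3.FreeN

/-! # The criterion of `H777R4.DM.core2` for a general class of leading parts, and the class of
elements killed by the shuffles with one letter -/

set_option autoImplicit false

namespace Pool.Agent.R241.DL

open Pool.Agent.H777R4.DM

attribute [local instance 100] LieRing.ofAssociativeRing

section
variable {n r R : ℕ} {ψ : Fin n → A} {wt : Fin n → ℕ} {W : Finset ℕ}

theorem core3 (Pr : AY → Prop) (pz : Pr 0) (padd : ∀ P Q, Pr P → Pr Q → Pr (P + Q))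
    (l1 : TaskLead1) (ln : TaskLeadN)
    (fp : ∀ (σ : Fin n → AY) (ρ : Fin n → ℕ), (∀ i, r ≤ ρ i ∧ ρ i ≤ R) → (∀ i, LenHom (σ i) (ρ i)) →
      (∀ i, Pr (σ i)) → LinearIndependent ℚ σ → Function.Injective (lamN σ))
    (r0 : TaskR0) (van : TaskVan)
    (ad : TaskAdMu) (shn : TaskShearN) 
    (hwt : ∀ i, wt i ∈ W) (hhom : ∀ i, LenHom (ψ i) (wt i)) (hmem : ∀ i, ψ i ∈ LieX)
    (hc0 : ∀ i, co (ψ i) [0] = 0) (hcnt : ∀ i u, co (ψ i) u ≠ 0 → r ≤ u.count 1)
    (hind : ∀ c : Fin n → ℚ, (∀ u, u.count 1 ≤ R → co (cmb ψ c) u = 0) → c = 0)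
    (hK : ∀ (c : Fin n → ℚ), ∀ w ∈ W, ∀ ρ, r ≤ ρ → ρ ≤ R →
      (∀ u, co (cmw ψ wt c w) u ≠ 0 → ρ ≤ u.count 1) →
      (∃ u, co (cmw ψ wt c w) u ≠ 0 ∧ u.count 1 = ρ) →
      ∃ k, W.card ≤ k ∧ Fp ρ (cmw ψ wt c w) k ≠ 0)
    (hP : ∀ (c : Fin n → ℚ), ∀ w ∈ W, ∀ ρ, r ≤ ρ → ρ ≤ R →
      (∀ u, co (cmw ψ wt c w) u ≠ 0 → ρ ≤ u.count 1) → ∀ k, Pr (Fp ρ (cmw ψ wt c w) k)) :
    Function.Injective (PhiN ψ) := by
  classical
  obtain ⟨m, hm⟩ : ∃ m, ∀ w ∈ W, w ≤ m := ⟨W.sup id, fun w hw => Finset.le_sup (f := id) hw⟩
  obtain ⟨q, hq⟩ : ∃ q, q = m + 1 := ⟨_, rfl⟩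
  -- words of θ
  have hword : ∀ (c : Fin n → ℚ) (v : List ℕ), co (θ (cmb ψ c)) v ≠ 0 → v.sum + v.length ≤ m := by
    intro c v hv
    obtain ⟨j, hj⟩ := theta_cmb hwt hhom hv
    have h1 := hm _ (co_cmb_ne hwt hhom hj)
    rw [word_length] at h1
    omega
  have hLc : ∀ N (c : Fin n → ℚ), ((lq q N) ∘ₗ (Fintype.linearCombination ℚ ψ)) c = lq q N (cmb ψ c) := by
    intro N c
    rw [LinearMap.comp_apply, Fintype.linearCombination_apply]
    rfl
  obtain ⟨M, sl, hM, hlow, hli⟩ := ad n (m + q * m) (vw q)
    (fun N => (lq q N) ∘ₗ (Fintype.linearCombination ℚ ψ)) (by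
      intro l c v hv
      rw [LinearMap.comp_apply, co_lq] at hv
      split_ifs at hv with h
      · exact h
      · exact absurd rfl hv) (by
      intro c hc
      by_contra hcon
      push Not at hcon
      apply hc
      apply hind
      intro u _
      have hz : ∀ v, co (θ (cmb ψ c)) v = 0 := by
        intro v
        by_contra hv
        have h1 := hword c v hv
        have h2 : q * v.length ≤ q * m := Nat.mul_le_mul_left q (by omega)
        have h3 := hcon (vw q v) (by rw [vw_eq]; omega)
        rw [hLc] at h3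
        have h4 := co_lq q (vw q v) (cmb ψ c) v
        rw [h3, co_zero, if_pos rfl] at h4
        exact hv h4.symm
      refine no_word r0 van hwt hhom hmem hc0 c (u.count 1) ?_ u rfl
      intro l
      apply al_ext
      intro v
      rw [co_lv, co_zero, hz]
      split_ifs <;> rfl)
  have hlow' : ∀ i, ∀ l < sl i, lq q l (cmb ψ (M i)) = 0 := by
    intro i l hl
    rw [← hLc]
    exact hlow i l hl
  have hli' : LinearIndependent ℚ (fun i => lq q (sl i) (cmb ψ (M i))) := by
    have : (fun i => lq q (sl i) (cmb ψ (M i))) = (fun i =>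
        ((lq q (sl i)) ∘ₗ (Fintype.linearCombination ℚ ψ)) (M i)) := by
      funext i
      rw [hLc]
    rw [this]
    exact hli
  have hmin : ∀ i v, co (θ (cmb ψ (M i))) v ≠ 0 → sl i ≤ vw q v := by
    intro i v hv
    by_contra hcon
    have h1 := hlow' i (vw q v) (by omega)
    have h4 := co_lq q (vw q v) (cmb ψ (M i)) v
    rw [h1, co_zero, if_pos rfl] at h4
    exact hv h4.symm
  -- depth and level of the leading part
  have hsel : ∀ i, ∃ ρ s, sl i = s + q * ρ ∧ s + ρ ≤ m ∧ ∃ u, co (cmb ψ (M i)) u ≠ 0 ∧ u.count 1 = ρ := by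
    intro i
    obtain ⟨v, hv⟩ := exists_co_ne (hli'.ne_zero i)
    rw [co_lq] at hv
    split_ifs at hv with h1
    · obtain ⟨j, hj⟩ := theta_cmb hwt hhom hv
      refine ⟨v.length, v.sum, ?_, hword _ _ hv, _, hj, word_count v j⟩
      rw [← h1, vw_eq]
    · exact absurd rfl hv
  choose ρ s h1 h2 h3 using hsel
  have hdepth : ∀ i u, co (cmb ψ (M i)) u ≠ 0 → ρ i ≤ u.count 1 := by
    intro i u hu
    by_contra hcon
    apply hu
    refine no_word r0 van hwt hhom hmem hc0 (M i) (u.count 1) ?_ u rfl
    intro l
    apply al_ext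
    intro v
    rw [co_lv, co_zero]
    split_ifs with h
    · by_contra hv
      have h4 := hword _ _ hv
      have h5 := hmin i v hv
      rw [vw_eq, h.1, h.2] at h5
      have h6 : q * (u.count 1 + 1) ≤ q * ρ i := Nat.mul_le_mul_left q (by omega)
      rw [mul_add, mul_one] at h6
      have h7 := h1 i
      omega
    · rfl
  have hdepthw : ∀ i w u, co (cmw ψ wt (M i) w) u ≠ 0 → ρ i ≤ u.count 1 := by
    intro i w u hu
    have h4 := cmw_hom hhom (M i) w u hu
    apply hdepth i u
    rw [co_cmb hhom, h4]
    exact hu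
  have hρr : ∀ i, r ≤ ρ i := by
    intro i
    obtain ⟨u, hu, hc⟩ := h3 i
    rw [← hc]
    rw [co_cmb hhom] at hu
    exact cmw_cnt hcnt _ _ u hu
  have hρR : ∀ i, ρ i ≤ R := by
    intro i
    by_contra hcon
    apply hM.ne_zero i
    apply hind
    intro u hu
    by_contra hne
    have := hdepth i u hne
    omega
  have hlev : ∀ i, ∀ l < s i, lv (ρ i) l (cmb ψ (M i)) = 0 := by
    intro i l hl
    apply al_ext
    intro v
    rw [co_lv, co_zero]
    split_ifs with h
    · by_contra hv
      have h5 := hmin i v hv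
      rw [vw_eq, h.1, h.2] at h5
      have h7 := h1 i
      omega
    · rfl
  -- condition (C)
  have hC : ∀ i u, co (cmb ψ (M i)) u ≠ 0 → u.count 1 = ρ i → s i + ρ i + 1 ≤ u.length := by
    intro i u hu hur
    have hw := co_cmb_ne hwt hhom hu
    rw [co_cmb hhom] at hu
    obtain ⟨k, hk, hkne⟩ := hK (M i) _ hw (ρ i) (hρr i) (hρR i) (hdepthw i _) ⟨u, hu, hur⟩
    have hkw : k + ρ i ≤ u.length := by
      obtain ⟨v, hv⟩ := exists_co_ne hkne
      have := (co_Fp_ne (cmw_hom hhom (M i) u.length) hv).2
      omega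
    by_contra hcon
    have hz := van_use r0 van hwt hhom hmem hc0 (M i) (s i) (hlev i) _ hw (u.length - ρ i - k) (by omega)
    rw [lv_hom (cmw_hom hhom (M i) u.length), if_pos (by omega)] at hz
    have : u.length - (u.length - ρ i - k + ρ i) = k := by omega
    rw [this] at hz
    exact hkne hz
  -- the leading parts
  have hlam : ∀ i, lq q (sl i) (cmb ψ (M i)) = lv (ρ i) (s i) (cmb ψ (M i)) := by
    intro i
    apply al_ext
    intro v
    rw [co_lq, co_lv]
    by_cases hv : co (θ (cmb ψ (M i))) v = 0
    · rw [hv]; split_ifs <;> rfl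
    · have h4 := hword _ _ hv
      have h5 := h2 i
      have h6 := h1 i
      by_cases h7 : v.length = ρ i ∧ v.sum = s i
      · rw [if_pos h7, if_pos]
        rw [vw_eq, h7.1, h7.2, h6]
      · rw [if_neg h7, if_neg]
        intro h8
        rw [vw_eq, h6] at h8
        have h9 := qdiv (show v.sum < q by omega) (show s i < q by omega) h8
        exact h7 ⟨h9.2, h9.1⟩
  have hprim : ∀ i, Pr (lq q (sl i) (cmb ψ (M i))) := by
    intro i
    rw [hlam, cmb_eq hwt, map_sum]
    refine Finset.sum_induction _ Pr padd pz fun w hw => ?_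
    rw [lv_hom (cmw_hom hhom (M i) w)]
    split_ifs
    · exact hP (M i) w hw (ρ i) (hρr i) (hρR i) (hdepthw i w) _
    · exact pz
  have hlen : ∀ i, LenHom (lq q (sl i) (cmb ψ (M i))) (ρ i) := by
    intro i v hv
    rw [hlam, co_lv] at hv
    split_ifs at hv with h
    · exact h.1
    · exact absurd rfl hv
  apply shn n ψ M hM
  have hg : ∀ i, (∑ j, M i j • ψ j) = cmb ψ (M i) := fun i => rfl
  refine ln l1 n _ (fun i => lq q (sl i) (cmb ψ (M i))) sl q ?_ ?_ ?_ ?_
  · intro i u hu
    rw [hg] at hu
    have h4 := hdepth i u hu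
    have h5 := cw_eq q u
    have h6 : u.count 1 ≤ u.length := List.count_le_length
    have h7 := h1 i
    have h8 := h2 i
    rcases Nat.lt_or_ge (ρ i) (u.count 1) with h | h
    · have h9 : q * (ρ i + 1) ≤ q * u.count 1 := Nat.mul_le_mul_left q h
      rw [mul_add, mul_one] at h9
      omega
    · have h9 : u.count 1 = ρ i := le_antisymm h h4
      have h10 := hC i u hu h9
      rw [h9] at h5
      omega
  · intro i v hv
    rw [hg] at hv
    have hv1 : co (θ (cmb ψ (M i))) v ≠ co (lq q (sl i) (cmb ψ (M i))) v := hv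
    rw [co_lq] at hv1
    by_cases h : vw q v = sl i
    · rw [if_pos h] at hv1; exact absurd rfl hv1
    · rw [if_neg h] at hv1
      have := hmin i v hv1
      omega
  · intro i v hv
    have hv1 : co (lq q (sl i) (cmb ψ (M i))) v ≠ 0 := hv
    rw [co_lq] at hv1
    split_ifs at hv1 with h
    · exact h
    · exact absurd rfl hv1
  · exact fp _ ρ (fun i => ⟨hρr i, hρR i⟩) hlen hprim hli'


end

/-! ### shuffles with one letter -/

/-- the sum of `β` over all lists obtained from `u` by inserting `a` -/
def IN (a : ℕ) : List ℕ → (List ℕ → ℚ) → ℚ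
  | [], β => β [a]
  | b :: u, β => β (a :: b :: u) + IN a u (fun t => β (b :: t))

theorem IN_add (a : ℕ) (u : List ℕ) : ∀ β γ : List ℕ → ℚ,
    IN a u (fun t => β t + γ t) = IN a u β + IN a u γ := by
  induction u with
  | nil => intro β γ; rfl
  | cons b u ih => intro β γ; rw [IN, IN, IN, ih]; ring

theorem IN_zero (a : ℕ) (u : List ℕ) : IN a u (fun _ => 0) = 0 := by
  induction u with
  | nil => rfl
  | cons b u ih => rw [IN, ih, add_zero]

theorem IN_smul (a : ℕ) (u : List ℕ) : ∀ (c : ℚ) (β : List ℕ → ℚ),
    IN a u (fun t => β t * c) = IN a u β * c := by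
  induction u with
  | nil => intro c β; rfl
  | cons b u ih => intro c β; rw [IN, IN, ih]; ring

theorem IN_sum {ι : Type} (s : Finset ι) (a : ℕ) (u : List ℕ) (β : ι → List ℕ → ℚ) :
    IN a u (fun t => ∑ i ∈ s, β i t) = ∑ i ∈ s, IN a u (β i) := by
  classical
  induction s using Finset.induction_on with
  | empty => simp only [Finset.sum_empty]; exact IN_zero a u
  | insert j s hj ih =>
    rw [Finset.sum_insert hj, ← ih, ← IN_add]
    congr 1
    funext t
    rw [Finset.sum_insert hj]

theorem IN_congr (a : ℕ) (u : List ℕ) : ∀ (β γ : List ℕ → ℚ),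
    (∀ v, v.length = u.length + 1 → β v = γ v) → IN a u β = IN a u γ := by
  induction u with
  | nil => intro β γ h; exact h [a] rfl
  | cons b u ih =>
    intro β γ h
    rw [IN, IN, h (a :: b :: u) rfl, ih _ (fun t => γ (b :: t))]
    intro v hv
    exact h (b :: v) (by rw [List.length_cons, hv, List.length_cons])

theorem IN_append (a b : ℕ) (u : List ℕ) : ∀ β : List ℕ → ℚ,
    IN a (u ++ [b]) β = IN a u (fun t => β (t ++ [b])) + β (u ++ [b] ++ [a]) := by
  induction u with
  | nil => intro β; rfl
  | cons c u ih =>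
    intro β
    rw [List.cons_append, IN, IN, ih]
    simp only [List.cons_append]
    ring

/-- killed by the shuffles with one letter -/
def S1 (P : AY) : Prop := ∀ (a : ℕ) (u : List ℕ), IN a u (co P) = 0

theorem S1_zero : S1 0 := by
  intro a u
  have : (co (0 : AY)) = fun _ => 0 := by funext t; exact co_zero t
  rw [this]
  exact IN_zero a u

theorem S1_add (P Q : AY) (hP : S1 P) (hQ : S1 Q) : S1 (P + Q) := by
  intro a u
  have : (co (P + Q)) = fun t => co P t + co Q t := by funext t; exact co_add P Q t
  rw [this, IN_add, hP, hQ, add_zero]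

open Pool.Agent.H428R3 Pool.Agent.H20R3.FreeN in
theorem indep1 {n r : ℕ} (hr : 1 ≤ r) (σ : Fin n → AY) (ρ : Fin n → ℕ)
    (hρ : ∀ i, r ≤ ρ i ∧ ρ i ≤ r + 1) (hσ : ∀ i, LenHom (σ i) (ρ i))
    (hp : ∀ i, S1 (σ i)) (hli : LinearIndependent ℚ σ) (a : Fin n → AY)
    (hs : ∑ i, σ i * a i = 0) : ∀ i, a i = 0 := by
  classical
  have hz : ∀ w z : List ℕ, w.length = r + 1 → ∑ i, (if ρ i = r then co (σ i) (w.take r) *
      co (a i) (w.drop r ++ z) else co (σ i) w * co (a i) z) = 0 := by
    intro w z hw
    have h1 : co (∑ i, σ i * a i) (w ++ z) = 0 := by rw [hs]; exact DMKL2.co_zero _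
    rw [Pool.Agent.H777R4.DM.co_sum] at h1
    rw [← h1]
    refine Finset.sum_congr rfl fun i _ => ?_
    rw [DMKL2.co_mul_hom (hσ i)]
    by_cases h : ρ i = r
    · rw [if_pos h, h, if_pos (by rw [List.length_append]; omega),
        List.take_append_of_le_length (by omega), List.drop_append_of_le_length (by omega)]
    · have h2 : ρ i = r + 1 := by have := hρ i; omega
      rw [if_neg h, h2, if_pos (by rw [List.length_append]; omega),
        List.take_append_of_le_length (by omega), List.drop_append_of_le_length (by omega),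
        ← hw, List.take_length, List.drop_length, List.nil_append]
  -- the short ones: all coefficients except the constant one vanish
  have h1 : ∀ (c : ℕ) (z : List ℕ) (i : Fin n), ρ i = r → co (a i) (c :: z) = 0 := by
    intro c z
    have key : ∀ u : List ℕ, u.length = r →
        ∑ i, (if ρ i = r then co (a i) (c :: z) else 0) * co (σ i) u = 0 := by
      intro u hu
      have hne : u ≠ [] := by rintro rfl; simp at hu; omega
      obtain ⟨u', b, rfl⟩ : ∃ u' b, u = u' ++ [b] :=
        ⟨u.dropLast, u.getLast hne, (List.dropLast_append_getLast hne).symm⟩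
      have hu' : u'.length + 1 = r := by simpa using hu
      have h2 : IN c (u' ++ [b]) (fun w => ∑ i, (if ρ i = r then co (σ i) (w.take r) *
          co (a i) (w.drop r ++ z) else co (σ i) w * co (a i) z)) = 0 := by
        rw [IN_congr c (u' ++ [b]) _ (fun _ => 0), IN_zero]
        intro v hv
        exact hz v z (by rw [hv, hu])
      rw [IN_sum] at h2
      refine (Finset.sum_congr rfl fun i _ => ?_).trans h2
      by_cases h : ρ i = r
      · simp only [if_pos h]
        rw [IN_append]
        have e1 : IN c u' (fun t => co (σ i) (List.take r (t ++ [b])) *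
            co (a i) (List.drop r (t ++ [b]) ++ z)) = 0 := by
          rw [IN_congr c u' _ (fun t => co (σ i) t * co (a i) (b :: z)), IN_smul, hp i, zero_mul]
          intro v hv
          have hv' : v.length = r := by omega
          rw [List.take_append_of_le_length (by omega), List.drop_append_of_le_length (by omega),
            ← hv', List.take_length, List.drop_length]
          rfl
        rw [e1, zero_add, List.take_append_of_le_length (by omega),
          List.drop_append_of_le_length (by omega)]
        have e2 : List.take r (u' ++ [b]) = u' ++ [b] := by rw [← hu, List.take_length]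
        have e3 : List.drop r (u' ++ [b]) = [] := by rw [← hu, List.drop_length]
        rw [e2, e3, mul_comm]
        rfl
      · simp only [if_neg h]
        rw [IN_smul, hp i, zero_mul, zero_mul]
    have h3 := Fintype.linearIndependent_iff.mp hli
      (fun i => if ρ i = r then co (a i) (c :: z) else 0) ?_
    · intro i hi
      have := h3 i
      rwa [if_pos hi] at this
    · refine DMKL2.co_ext fun w => ?_
      rw [DMKL2.co_zero, Pool.Agent.H777R4.DM.co_sum]
      by_cases hw : w.length = r
      · exact (Finset.sum_congr rfl fun i _ => DMKL2.co_smul _ _ _).trans (key w hw)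
      · refine Finset.sum_eq_zero fun i _ => ?_
        rw [DMKL2.co_smul]
        by_cases hi : ρ i = r
        · have : co (σ i) w = 0 := by
            by_contra hne
            exact hw ((hσ i w hne).trans hi)
          rw [this, mul_zero]
        · rw [if_neg hi, zero_mul]
  -- the long ones
  have h2 : ∀ (z : List ℕ) (i : Fin n), ρ i ≠ r → co (a i) z = 0 := by
    intro z
    have h3 := Fintype.linearIndependent_iff.mp hli
      (fun i => if ρ i = r then 0 else co (a i) z) ?_
    · intro i hi
      have := h3 i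
      rwa [if_neg hi] at this
    · refine DMKL2.co_ext fun w => ?_
      rw [DMKL2.co_zero, Pool.Agent.H777R4.DM.co_sum]
      by_cases hw : w.length = r + 1
      · refine (Finset.sum_congr rfl fun i _ => ?_).trans (hz w z hw)
        rw [DMKL2.co_smul]
        by_cases hi : ρ i = r
        · rw [if_pos hi, if_pos hi, zero_mul]
          have h4 : ∃ c, w.drop r = [c] := List.length_eq_one_iff.1 (by rw [List.length_drop]; omega)
          obtain ⟨c, hc⟩ := h4
          rw [hc, List.cons_append, List.nil_append, h1 c z i hi, mul_zero]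
        · rw [if_neg hi, if_neg hi, mul_comm]
      · refine Finset.sum_eq_zero fun i _ => ?_
        rw [DMKL2.co_smul]
        by_cases hi : ρ i = r
        · rw [if_pos hi, zero_mul]
        · have : co (σ i) w = 0 := by
            by_contra hne
            apply hw
            have := hσ i w hne
            have := hρ i
            omega
          rw [this, mul_zero]
  -- the constants
  have h3 := Fintype.linearIndependent_iff.mp hli (fun i => co (a i) []) ?_
  · intro i
    refine DMKL2.co_ext fun z => ?_
    rw [DMKL2.co_zero]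
    cases z with
    | nil => exact h3 i
    | cons c z =>
      by_cases hi : ρ i = r
      · exact h1 c z i hi
      · exact h2 _ i hi
  · refine DMKL2.co_ext fun w => ?_
    have h4 : co (∑ i, σ i * a i) w = 0 := by rw [hs]; exact DMKL2.co_zero _
    rw [DMKL2.co_zero, ← h4, Pool.Agent.H777R4.DM.co_sum, Pool.Agent.H777R4.DM.co_sum]
    refine Finset.sum_congr rfl fun i _ => ?_
    rw [DMKL2.co_smul, DMKL2.co_mul_hom (hσ i)]
    by_cases hle : ρ i ≤ w.length
    · rw [if_pos hle]
      by_cases hd : w.drop (ρ i) = []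
      · have h5 : w.length = ρ i := by
          have := congrArg List.length hd
          rw [List.length_drop, List.length_nil] at this
          omega
        rw [hd, ← h5, List.take_length, mul_comm]
      · obtain ⟨c, z, hcz⟩ := List.exists_cons_of_ne_nil hd
        have h5 : co (a i) (w.drop (ρ i)) = 0 := by
          rw [hcz]
          by_cases hi : ρ i = r
          · exact h1 c z i hi
          · exact h2 _ i hi
        have h6 : co (σ i) w = 0 := by
          by_contra hne
          apply hd
          rw [← hσ i w hne, List.drop_length]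
        rw [h5, h6, mul_zero, mul_zero]
    · rw [if_neg hle]
      have h6 : co (σ i) w = 0 := by
        by_contra hne
        apply hle
        rw [hσ i w hne]
      rw [h6, mul_zero]

open Pool.Agent.H428R3 Pool.Agent.H20R3.FreeN in
theorem free1 {n r : ℕ} (hr : 1 ≤ r) (σ : Fin n → AY) (ρ : Fin n → ℕ)
    (hρ : ∀ i, r ≤ ρ i ∧ ρ i ≤ r + 1) (hσ : ∀ i, LenHom (σ i) (ρ i))
    (hp : ∀ i, S1 (σ i)) (hli : LinearIndependent ℚ σ) : Function.Injective (lamN σ) := by
  rw [injective_iff_map_eq_zero]
  have key : ∀ N : ℕ, ∀ P : Al (Fin n), (∀ l, co P l ≠ 0 → l.length < N) → lamN σ P = 0 →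
      P = 0 := by
    intro N
    induction N with
    | zero =>
      intro P hP _
      refine DMKL2.co_ext fun l => ?_
      by_contra hne
      exact absurd (hP l hne) (by omega)
    | succ N ih =>
      intro P hP hlam
      choose Q hQ using fun i => exists_lq P i
      have hdec := decomp P Q hQ
      have e1 : lamN σ P = co P [] • (1 : AY) + ∑ i, σ i * lamN σ (Q i) := by
        conv_lhs => rw [hdec]
        rw [map_add, map_smul, map_one, map_sum]
        congr 1
        refine Finset.sum_congr rfl fun i _ => ?_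
        rw [map_mul, lamN_wd]
      have hc : co P [] = 0 := by
        have h2 : co (lamN σ P) [] = 0 := by rw [hlam]; exact DMKL2.co_zero _
        rw [e1, DMKL2.co_add, DMKL2.co_smul, DMKL2.co_one, if_pos rfl,
          Pool.Agent.H777R4.DM.co_sum, Finset.sum_eq_zero (fun i _ => ?_)] at h2
        · simpa using h2
        · have := (hρ i).1
          rw [DMKL2.co_mul_hom (hσ i), if_neg (by simp; omega)]
      have e2 : ∑ i, σ i * lamN σ (Q i) = 0 := by
        rw [hlam, hc, zero_smul, zero_add] at e1
        exact e1.symm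
      have hb : ∀ i, lamN σ (Q i) = 0 := indep1 hr σ ρ hρ hσ hp hli _ e2
      have z0 : ∀ i, Q i = 0 := fun i => ih (Q i) (fun l hl => by
        rw [hQ] at hl
        have := hP _ hl
        simpa using this) (hb i)
      rw [hdec, hc]
      simp [z0]
  intro P hP
  refine key ((P.coeff.support.sup fun m => (FreeMonoid.toList m).length) + 1) P
    (fun l hl => ?_) hP
  have hmem : FreeMonoid.ofList l ∈ P.coeff.support := Finsupp.mem_support_iff.2 hl
  have := Finset.le_sup (f := fun m : FreeMonoid (Fin n) => (FreeMonoid.toList m).length) hmem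
  simp only [FreeMonoid.toList_ofList] at this
  omega

end Pool.Agent.R241.DL
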