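import Pool.Agent.R241.DL3
import Pool.Agent.R241.DL4

/-! # Free Lie algebras in `dm` and the filtration by the number of letters `x₀`, window version -/

set_option autoImplicit false

namespace Pool.Agent.R241.DL

open Pool.Agent.H777R4.DM

attribute [local instance 100] LieRing.ofAssociativeRing

theorem Mid_rep (n b : ℕ) (w : List (Fin 2)) : ∀ β : List (Fin 2) → ℚ,
    Mid n (List.replicate b 1 ++ w) β = Mid n w (fun t => β (List.replicate b 1 ++ t)) := by
  induction b with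
  | zero => intro β; rfl
  | succ b ih =>
    intro β
    rw [List.replicate_succ, List.cons_append, Mid, if_neg (by decide), zero_add, ih]
    rfl

theorem Mid_word (n : ℕ) (u : List ℕ) (k : ℕ) : ∀ β : List (Fin 2) → ℚ,
    Mid n ((wordX u ++ List.replicate k 0).map fl) β +
      β (List.replicate n 1 ++ 0 :: (wordX u ++ List.replicate k 0).map fl) =
    IN n u (fun v => β ((wordX v ++ List.replicate k 0).map fl)) := by
  have f0 : fl 0 = 1 := rfl
  have f1 : fl 1 = 0 := rfl
  induction u with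
  | nil =>
    intro β
    have e1 : (wordX [] ++ List.replicate k (0 : Fin 2)).map fl = List.replicate k 1 ++ [] := by
      simp [wordX, f0]
    rw [e1, Mid_rep, Mid, zero_add, IN]
    congr 1
    simp [wordX, f0, f1]
  | cons b u ih =>
    intro β
    have e1 : ∀ (c : ℕ) (v : List ℕ), (wordX (c :: v) ++ List.replicate k (0 : Fin 2)).map fl =
        List.replicate c 1 ++ 0 :: (wordX v ++ List.replicate k (0 : Fin 2)).map fl := by
      intro c v
      simp [wordX, f0, f1]
    rw [e1 b u, Mid_rep, Mid, if_pos rfl, IN]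
    have h1 := ih (fun t => β (List.replicate b 1 ++ 0 :: t))
    have h2 : IN n u (fun v => β ((wordX (b :: v) ++ List.replicate k 0).map fl)) =
        IN n u (fun v => β (List.replicate b 1 ++ 0 :: (wordX v ++ List.replicate k 0).map fl)) := by
      congr 1
      funext v
      rw [e1]
    rw [h2, ← h1, e1, e1]
    ring

theorem S1_Fp {ψ : A} {N m : ℕ} (h : IsDM ψ) (hN : LenHom ψ N)
    (hm : ∀ u, co ψ u ≠ 0 → m ≤ u.count 0) (h2 : 2 ≤ m) (k : ℕ) : S1 (Fp m (tau ψ) k) := by
  have f1 : fl 1 = 0 := rfl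
  intro a u
  by_cases hu : u.length + 1 = m
  · have h3 := mid_zero h hN hm h2 a ((wordX u ++ List.replicate k 0).map fl) (by
      have : ((wordX u ++ List.replicate k 0).map fl).count 0 =
          (wordX u ++ List.replicate k (0 : Fin 2)).count 1 := by
        rw [← f1, List.count_map_of_injective]
        intro a b hab
        rw [← fl_fl a, hab, fl_fl]
      rw [this, word_count]
      exact hu)
    have h4 := h3.1
    rw [Mid_word] at h4
    have h5 : IN a u (co (Fp m (tau ψ) k)) =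
        IN a u (fun v => co ψ ((wordX v ++ List.replicate k 0).map fl) * (-1)) := by
      apply IN_congr
      intro v hv
      rw [co_Fp, if_pos (by omega), co_tau]
      ring
    rw [h5, IN_smul, h4, zero_mul]
  · rw [IN_congr a u _ (fun _ => 0), IN_zero]
    intro v hv
    rw [co_Fp, if_neg (by omega)]

theorem main2 {n r : ℕ} {ψ : Fin n → A} {wt : Fin n → ℕ} {W : Finset ℕ} (h2 : 2 ≤ r)
    (hW : ∀ w ∈ W, W.card * (r + 2) ≤ w) (hwt : ∀ i, wt i ∈ W) (hdm : ∀ i, IsDM (ψ i))
    (hhom : ∀ i, LenHom (ψ i) (wt i)) (hcnt : ∀ i u, co (ψ i) u ≠ 0 → r ≤ u.count 0)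
    (hind : ∀ c : Fin n → ℚ, (∀ u, u.count 0 ≤ r + 1 → co (∑ i, c i • ψ i) u = 0) → c = 0) :
    Function.Injective (PhiN (fun i => tau (ψ i))) := by
  have f0 : fl 0 = 1 := rfl
  have f1 : fl 1 = 0 := rfl
  have hinj : Function.Injective fl := by
    intro a b hab
    rw [← fl_fl a, hab, fl_fl]
  have hc10 : ∀ u : List (Fin 2), (u.map fl).count 0 = u.count 1 := by
    intro u
    rw [← f1, List.count_map_of_injective u fl hinj]
  have hc01 : ∀ u : List (Fin 2), (u.map fl).count 1 = u.count 0 := by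
    intro u
    rw [← f0, List.count_map_of_injective u fl hinj]
  have hcmw : ∀ (c : Fin n → ℚ) (w : ℕ), cmw (fun i => tau (ψ i)) wt c w = tau (cmw ψ wt c w) := by
    intro c w
    unfold cmw
    rw [map_sum]
    exact Finset.sum_congr rfl fun i _ => by rw [map_smul]
  have hcmb : ∀ (c : Fin n → ℚ), cmb (fun i => tau (ψ i)) c = tau (∑ i, c i • ψ i) := by
    intro c
    unfold cmb
    rw [map_sum]
    exact Finset.sum_congr rfl fun i _ => by rw [map_smul]
  have hd : ∀ c w, IsDM (cmw ψ wt c w) := by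
    intro c w
    unfold cmw
    exact isDM_sum _ _ fun i _ => isDM_smul (hdm i) _
  have hback : ∀ (c : Fin n → ℚ) (w ρ : ℕ),
      (∀ u, co (cmw (fun i => tau (ψ i)) wt c w) u ≠ 0 → ρ ≤ u.count 1) →
      ∀ u, co (cmw ψ wt c w) u ≠ 0 → ρ ≤ u.count 0 := by
    intro c w ρ h u hu
    have h3 := h (u.map fl) (by rw [hcmw, co_tau, map_map]; exact neg_ne_zero.2 hu)
    rwa [hc01] at h3
  refine core3 (r := r) (R := r + 1) (wt := wt) (W := W) S1 S1_zero S1_add
    Pool.Agent.H337R3.Lead1.lead1 Pool.Agent.H861R3.DM.LeadN.leadN_ok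
    (fun σ ρ h3 h4 h5 h6 => free1 (by omega) σ ρ h3 h4 h5 h6)
    Pool.Agent.H777R4.DM.R0.taskR0 taskVan Pool.Agent.H553R3.taskAdMu
    Pool.Agent.H826R3.DM.taskShearN hwt ?_ ?_ ?_ ?_ ?_ ?_ ?_
  · intro i u hu
    rw [co_tau] at hu
    have := hhom i _ (neg_ne_zero.1 hu)
    rwa [List.length_map] at this
  · intro i
    exact tau_mem (hdm i).mem
  · intro i
    rw [co_tau]
    show - co (ψ i) [1] = 0
    rw [(hdm i).c1, neg_zero]
  · intro i u hu
    rw [co_tau] at hu
    have := hcnt i _ (neg_ne_zero.1 hu)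
    rwa [hc10] at this
  · intro c hc
    refine hind c fun u hu => ?_
    have h1 := hc (u.map fl) (by rw [hc01]; exact hu)
    rw [hcmb, co_tau, map_map] at h1
    linarith
  · rintro c w hw ρ hρ hρR hdep ⟨u, hu, hur⟩
    have hcn := hback c w ρ hdep
    rw [hcmw] at hu
    rw [co_tau] at hu
    obtain ⟨k, hk, hkne⟩ := large (hd c w) (cmw_hom hhom c w) hcn (by omega)
      ⟨u.map fl, neg_ne_zero.1 hu, by rw [hc10]; exact hur⟩
    refine ⟨k, ?_, ?_⟩
    · have h3 := hW w hw
      have h4 : (k + 1) * (ρ + 1) ≤ (k + 1) * (r + 2) := Nat.mul_le_mul_left _ (by omega)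
      have h5 : W.card * (r + 2) < (k + 1) * (r + 2) := by omega
      have := Nat.lt_of_mul_lt_mul_right h5
      omega
    · rw [hcmw]
      exact hkne
  · intro c w hw ρ hρ hρR hdep k
    rw [hcmw]
    exact S1_Fp (hd c w) (cmw_hom hhom c w) (hback c w ρ hdep) (by omega) k

theorem final2 {n r : ℕ} {ψ : Fin n → A} {wt : Fin n → ℕ} {W : Finset ℕ} (h2 : 2 ≤ r)
    (hW : ∀ w ∈ W, W.card * (r + 2) ≤ w) (hwt : ∀ i, wt i ∈ W) (hdm : ∀ i, IsDM (ψ i))
    (hhom : ∀ i, LenHom (ψ i) (wt i)) (hcnt : ∀ i u, co (ψ i) u ≠ 0 → r ≤ u.count 0)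
    (hind : ∀ c : Fin n → ℚ, (∀ u, u.count 0 ≤ r + 1 → co (∑ i, c i • ψ i) u = 0) → c = 0) :
    ∃ φ : Al (Fin n) →ₗ[ℚ] A, Function.Injective φ ∧ (∀ i, φ (wd [i]) = ψ i) ∧
      ∀ P ∈ LieN n, ∀ Q ∈ LieN n, φ (P * Q - Q * P) = ihara (φ P) (φ Q) := by
  refine ⟨tau ∘ₗ PhiN (fun i => tau (ψ i)), ?_, ?_, ?_⟩
  · intro P Q hPQ
    rw [LinearMap.comp_apply, LinearMap.comp_apply] at hPQ
    apply main2 h2 hW hwt hdm hhom hcnt hind
    rw [← tau_tau (PhiN _ P), hPQ, tau_tau]
  · intro i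
    rw [LinearMap.comp_apply, (Pool.Agent.H358R3.DM.taskFinalN n _).1, tau_tau]
  · intro P hP Q hQ
    rw [LinearMap.comp_apply, LinearMap.comp_apply, LinearMap.comp_apply,
      (Pool.Agent.H358R3.DM.taskFinalN n _).2 P hP Q hQ, ihara_tau]

end Pool.Agent.R241.DL
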