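import Pool.Agent.R241.DL5

/-! # The part with the fewest letters `x₀`: shuffle relations -/

set_option autoImplicit false

namespace Pool.Agent.R241.DL

open Pool.Agent.H777R4.DM Pool.Agent.Y759.QS

/-- the word `x₁^{a₀} x₀ x₁^{a₁} ⋯ x₀ x₁^{a_m}` of the list `[a₀, …, a_m]` -/
def blk : List ℕ → List (Fin 2)
  | [] => []
  | [a] => List.replicate a 1
  | a :: b :: l => List.replicate a 1 ++ 0 :: blk (b :: l)

/-- the sum of `β` over the shuffles of two lists -/
def shuf : List ℕ → List ℕ → (List ℕ → ℚ) → ℚ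
  | [], v, β => β v
  | u, [], β => β u
  | a :: u, b :: v, β => shuf u (b :: v) (fun t => β (a :: t)) + shuf (a :: u) v (fun t => β (b :: t))

theorem blk_eq (L : List ℕ) : blk L = (Wd L).map fl := by
  have f0 : fl 0 = 1 := rfl
  have f1 : fl 1 = 0 := rfl
  induction L with
  | nil => rfl
  | cons a L ih =>
    cases L with
    | nil => simp [blk, Wd, f0]
    | cons b L => simp only [blk, Wd, List.map_append, List.map_replicate, List.map_cons, f0, f1, ih]

theorem co_blk (ψ : A) (L : List ℕ) : co ψ (blk L) = - co (tau ψ) (Wd L) := by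
  rw [co_tau, neg_neg, blk_eq]

theorem blk_snoc (L : List ℕ) (hL : L ≠ []) (a : ℕ) :
    blk (L ++ [a]) = blk L ++ 0 :: List.replicate a 1 := by
  induction L with
  | nil => exact absurd rfl hL
  | cons b L ih =>
    cases L with
    | nil => simp [blk]
    | cons c L =>
      rw [List.cons_append, List.cons_append, blk, ← List.cons_append, ih (by simp), blk]
      simp

theorem blk_reverse (L : List ℕ) : blk L.reverse = (blk L).reverse := by
  induction L with
  | nil => rfl
  | cons a L ih =>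
    cases L with
    | nil => simp [blk]
    | cons b L =>
      rw [List.reverse_cons, blk_snoc _ (by simp), ih, blk]
      simp

section

variable {ψ : A} {N m : ℕ}

theorem blk_rot (h : IsDM ψ) (hN : LenHom ψ N) (hm : ∀ u, co ψ u ≠ 0 → m ≤ u.count 0)
    (h2 : 2 ≤ m) (t : ℕ) (L : List ℕ) (hL : L.length = m + 1) :
    co ψ (blk (L.rotate t)) = co ψ (blk L) := by
  rw [co_blk, co_blk, tau_rot h hN hm h2 t L hL]

theorem blk_rev (h : IsDM ψ) (hN : LenHom ψ N) (L : List ℕ) :
    co ψ (blk L.reverse) = (-1) ^ (N + 1) * co ψ (blk L) := by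
  rw [blk_reverse]
  by_cases ht : (blk L).length = N
  · rw [rev_of h, ht]
  · have h3 : co ψ (blk L) = 0 := by
      by_contra hne
      exact ht (hN _ hne)
    have h4 : co ψ (blk L).reverse = 0 := by
      by_contra hne
      exact ht (by simpa using hN _ hne)
    rw [h3, h4, mul_zero]

/-- reversal with the first entry fixed -/
theorem blk_rev' (h : IsDM ψ) (hN : LenHom ψ N) (hm : ∀ u, co ψ u ≠ 0 → m ≤ u.count 0)
    (h2 : 2 ≤ m) (a : ℕ) (l : List ℕ) (hl : l.length = m) :
    co ψ (blk (a :: l.reverse)) = (-1) ^ (N + 1) * co ψ (blk (a :: l)) := by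
  rw [← blk_rev h hN, List.reverse_cons]
  have h3 := blk_rot h hN hm h2 l.reverse.length (l.reverse ++ [a]) (by simp [hl])
  rw [List.rotate_append_length_eq] at h3
  exact h3

/-- the relations with one letter, first entry fixed -/
theorem blk_one (h : IsDM ψ) (hN : LenHom ψ N) (hm : ∀ u, co ψ u ≠ 0 → m ≤ u.count 0)
    (h2 : 2 ≤ m) (a b : ℕ) (u : List ℕ) (hu : u.length + 1 = m) :
    IN b u (fun w => co ψ (blk (a :: w))) = 0 := by
  have h3 := S1_Fp h hN hm h2 a b u
  have h4 : IN b u (co (Fp m (tau ψ) a)) = IN b u (fun w => co ψ (blk (a :: w)) * (-1)) := by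
    apply IN_congr
    intro v hv
    rw [co_Fp, if_pos (by omega), ← Wd_snoc]
    have h5 := tau_rot h hN hm h2 v.length (v ++ [a]) (by simp; omega)
    rw [List.rotate_append_length_eq] at h5
    rw [← h5, co_blk]
    simp
  rw [h4, IN_smul] at h3
  linarith

theorem one_general (h : IsDM ψ) (hN : LenHom ψ N) (hm : ∀ u, co ψ u ≠ 0 → m ≤ u.count 0)
    (h2 : 2 ≤ m) (a b : ℕ) (v : List ℕ) (hv : v.length + 1 = m) :
    shuf [b] v (fun w => co ψ (blk (a :: w))) = 0 := by
  have key : ∀ (v : List ℕ) (β : List ℕ → ℚ), shuf [b] v β = IN b v β := by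
    intro v
    induction v with
    | nil => intro β; simp [shuf, IN]
    | cons c v ih =>
      intro β
      rw [shuf, IN, ih, shuf]
  rw [key]
  exact blk_one h hN hm h2 a b v hv

theorem two_four (h : IsDM ψ) (hN : LenHom ψ N) (hm : ∀ u, co ψ u ≠ 0 → 4 ≤ u.count 0)
    (hE : Even N) (z a b c d : ℕ) :
    shuf [a, b] [c, d] (fun w => co ψ (blk (z :: w))) = 0 := by
  have hs : (-1 : ℚ) ^ (N + 1) = -1 := hE.add_one.neg_one_pow
  have R : ∀ p q r s : ℕ, co ψ (blk [z, s, r, q, p]) = - co ψ (blk [z, p, q, r, s]) := by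
    intro p q r s
    have := blk_rev' h hN hm (by norm_num) z [p, q, r, s] rfl
    rw [hs] at this
    simpa using this
  have I : ∀ x p q r : ℕ, co ψ (blk [z, x, p, q, r]) + (co ψ (blk [z, p, x, q, r]) +
      (co ψ (blk [z, p, q, x, r]) + co ψ (blk [z, p, q, r, x]))) = 0 := by
    intro x p q r
    exact blk_one h hN hm (by norm_num) z x [p, q, r] rfl
  simp only [shuf]
  linear_combination (1 / 2 : ℚ) * (I a b c d + I a c b d + I a c d b) -
    (1 / 2 : ℚ) * (I c b a d + I c b d a + I c d b a) +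
    (1 / 2 : ℚ) * (R a b c d + R a c b d + R a c d b + R c a b d + R c a d b + R c d a b)

end

end Pool.Agent.R241.DL
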