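import Pool.Agent.R241.DL6

/-! # The part with the fewest letters `x₀`: all shuffle relations for at most five letters -/

set_option autoImplicit false

namespace Pool.Agent.R241.DL

open Pool.Agent.H777R4.DM Pool.Agent.Y759.QS

theorem shuf_nil_left (v : List ℕ) (β : List ℕ → ℚ) : shuf [] v β = β v := by
  cases v <;> simp [shuf]

theorem shuf_nil_right (u : List ℕ) (β : List ℕ → ℚ) : shuf u [] β = β u := by
  cases u <;> simp [shuf]

theorem shuf_comm (n : ℕ) : ∀ (u v : List ℕ), u.length + v.length = n → ∀ β : List ℕ → ℚ,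
    shuf u v β = shuf v u β := by
  induction n with
  | zero =>
    intro u v h β
    have h1 : u = [] := List.length_eq_zero_iff.1 (by omega)
    have h2 : v = [] := List.length_eq_zero_iff.1 (by omega)
    rw [h1, h2]
  | succ n ih =>
    intro u v h β
    cases u with
    | nil => rw [shuf_nil_left, shuf_nil_right]
    | cons a u =>
      cases v with
      | nil => rw [shuf_nil_left, shuf_nil_right]
      | cons b v =>
        rw [shuf, shuf, ih u (b :: v) (by simp at h ⊢; omega), ih (a :: u) v (by simp at h ⊢; omega),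
          add_comm]

section

variable {ψ : A} {N m : ℕ}

theorem two_five (h : IsDM ψ) (hN : LenHom ψ N) (hm : ∀ u, co ψ u ≠ 0 → 5 ≤ u.count 0)
    (hO : Odd N) (z a b c d e : ℕ) :
    shuf [a, b] [c, d, e] (fun w => co ψ (blk (z :: w))) = 0 := by
  have hs : (-1 : ℚ) ^ (N + 1) = 1 := hO.add_one.neg_one_pow
  have R : ∀ p q r s t : ℕ, co ψ (blk [z, t, s, r, q, p]) = co ψ (blk [z, p, q, r, s, t]) := by
    intro p q r s t
    have := blk_rev' h hN hm (by norm_num) z [p, q, r, s, t] rfl
    rw [hs, one_mul] at this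
    simpa using this
  have I : ∀ x p q r s : ℕ, co ψ (blk [z, x, p, q, r, s]) + (co ψ (blk [z, p, x, q, r, s]) +
      (co ψ (blk [z, p, q, x, r, s]) + (co ψ (blk [z, p, q, r, x, s]) +
        co ψ (blk [z, p, q, r, s, x])))) = 0 := by
    intro x p q r s
    exact blk_one h hN hm (by norm_num) z x [p, q, r, s] rfl
  simp only [shuf]
  linear_combination (1 / 2 : ℚ) * (I a b c d e + I a c b d e + I a c d b e + I a c d e b) -
    (1 / 2 : ℚ) * (I c b a d e + I c b d a e + I c b d e a + I c d b a e + I c d b e a +
      I c d e b a) +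
    (1 / 2 : ℚ) * (I e b a d c + I e b d a c + I e b d c a + I e d b a c + I e d b c a +
      I e d c b a) -
    (1 / 2 : ℚ) * (R a b c d e + R a c b d e + R a c d b e + R a c d e b + R c a b d e +
      R c a d b e + R c a d e b + R c d a b e + R c d a e b + R c d e a b)

/-- all shuffles, the first list not longer than the second -/
theorem all_le (h : IsDM ψ) (hN : LenHom ψ N) (hm : ∀ u, co ψ u ≠ 0 → m ≤ u.count 0)
    (h2 : 2 ≤ m) (h5 : m ≤ 3 ∨ (m ≤ 5 ∧ Even (N + m))) (a : ℕ) (u v : List ℕ) (hu : u ≠ [])
    (huv : u.length + v.length = m) (hle : u.length ≤ v.length) :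
    shuf u v (fun w => co ψ (blk (a :: w))) = 0 := by
  have hul : 0 < u.length := List.length_pos_of_ne_nil hu
  rcases Nat.lt_or_ge u.length 2 with h1 | h1
  · obtain ⟨b, rfl⟩ := List.length_eq_one_iff.1 (show u.length = 1 by omega)
    exact one_general h hN hm h2 a b v (by simp at huv; omega)
  · rcases h5 with h5 | ⟨h5, hE⟩
    · omega
    · have h6 : u.length = 2 := by omega
      obtain ⟨b, c, rfl⟩ := List.length_eq_two.1 h6
      rcases Nat.lt_or_ge v.length 3 with h7 | h7
      · have h8 : v.length = 2 := by omega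
        obtain ⟨d, e, rfl⟩ := List.length_eq_two.1 h8
        have h9 : m = 4 := by simp at huv; omega
        subst h9
        have hE' : Even N := by
          obtain ⟨k, hk⟩ := hE
          exact ⟨k - 2, by omega⟩
        exact two_four h hN hm hE' a b c d e
      · have h8 : v.length = 3 := by omega
        obtain ⟨d, e, f, rfl⟩ := List.length_eq_three.1 h8
        have h9 : m = 5 := by simp at huv; omega
        subst h9
        have hO : Odd N := by
          obtain ⟨k, hk⟩ := hE
          exact ⟨k - 3, by omega⟩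
        exact two_five h hN hm hO a b c d e f

theorem all_five (h : IsDM ψ) (hN : LenHom ψ N) (hm : ∀ u, co ψ u ≠ 0 → m ≤ u.count 0)
    (h2 : 2 ≤ m) (h5 : m ≤ 3 ∨ (m ≤ 5 ∧ Even (N + m))) (a : ℕ) (u v : List ℕ) (hu : u ≠ [])
    (hv : v ≠ []) (huv : u.length + v.length = m) :
    shuf u v (fun w => co ψ (blk (a :: w))) = 0 := by
  rcases Nat.le_total u.length v.length with h3 | h3
  · exact all_le h hN hm h2 h5 a u v hu huv h3
  · rw [shuf_comm _ u v rfl]
    exact all_le h hN hm h2 h5 a v u hv (by omega) h3

end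

end Pool.Agent.R241.DL
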