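import Pool.Agent.Y759.DS.Star
import Pool.Agent.H237R3.DM.Delta
import Pool.Agent.H777R4.DM.AsmN
import Pool.Agent.H20R3.FreeN
import Pool.Agent.H835R4.KL1

/-! # Elements primitive for the stuffle coproduct, graded by the weight -/

set_option autoImplicit false

namespace Pool.Agent.R241.DT

open Pool.Agent.H777R4.DM Pool.Agent.H835R4.KL1 Pool.Agent.H428R3 Pool.Agent.H20R3.FreeN
open scoped Classical

attribute [local instance 100] LieRing.ofAssociativeRing

/-- the weight of a word in the `y_n` -/
def wt (v : List ℕ) : ℕ := v.sum + v.length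

theorem wt_append (u v : List ℕ) : wt (u ++ v) = wt u + wt v := by
  unfold wt; simp; omega

theorem wt_cons (k : ℕ) (v : List ℕ) : wt (k :: v) = k + 1 + wt v := by
  unfold wt; simp; omega

theorem wt_zero {v : List ℕ} (h : wt v = 0) : v = [] := by
  unfold wt at h
  exact List.length_eq_zero_iff.1 (by omega)

def WHom (P : AY) (r : ℕ) : Prop := ∀ v, co P v ≠ 0 → wt v = r

def SPrim (P : AY) : Prop := starΔ P = inl P + inr P

/-! ### the coderivation `dl` -/

open Pool.Agent.H237R3.DM (D2 D2_inl_mul D2_inr_mul D2_inl D2_inr dlW_cons ext_wd)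

theorem starL_mul_D2 (k : ℕ) (X : AYY) : D2 (Pool.Agent.H777R4.DM.starL k * X) =
    (inl (dlW [k]) + inr (dlW [k]) + ∑ i ∈ Finset.range k, (inl (dlW [i]) * inr (wd [k - 1 - i]) +
      inl (wd [i]) * inr (dlW [k - 1 - i]))) * X + Pool.Agent.H777R4.DM.starL k * D2 X := by
  unfold Pool.Agent.H777R4.DM.starL
  rw [add_mul, add_mul, Finset.sum_mul, map_add, map_add, map_sum, D2_inl_mul, D2_inr_mul]
  have h : ∀ i ∈ Finset.range k, D2 (inl (wd [i]) * inr (wd [k - 1 - i]) * X) =
      (inl (dlW [i]) * inr (wd [k - 1 - i]) + inl (wd [i]) * inr (dlW [k - 1 - i])) * X +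
        inl (wd [i]) * inr (wd [k - 1 - i]) * D2 X := by
    intro i _
    rw [mul_assoc, D2_inl_mul, D2_inr_mul, mul_add]
    simp only [add_mul, mul_assoc]
    rw [add_assoc]
  rw [Finset.sum_congr rfl h, Finset.sum_add_distrib]
  simp only [add_mul, Finset.sum_mul]
  abel

theorem dlW_one (k : ℕ) : dlW [k] = (k : ℚ) • wd [k - 1] := by
  show (k : ℚ) • wd ((k - 1) :: []) + wd [k] * 0 = _
  rw [mul_zero, add_zero]

theorem star_dlW_one (k : ℕ) : starΔ (dlW [k]) =
    inl (dlW [k]) + inr (dlW [k]) + ∑ i ∈ Finset.range k, (inl (dlW [i]) * inr (wd [k - 1 - i]) +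
      inl (wd [i]) * inr (dlW [k - 1 - i])) := by
  rw [dlW_one, map_smul, Pool.Agent.Y759.QS.star_letter, map_smul, map_smul]
  cases k with
  | zero => simp
  | succ k =>
    have e : k + 1 - 1 = k := rfl
    rw [e, Pool.Agent.H777R4.DM.starL, smul_add, smul_add]
    congr 1
    rw [Finset.sum_add_distrib, Finset.sum_range_succ', Finset.sum_range_succ _ k]
    have e1 : inl (dlW [0]) * inr (wd [k - 0]) = 0 := by
      rw [dlW_one]; simp
    have e2 : inl (wd [k]) * inr (dlW [k - k]) = 0 := by
      rw [dlW_one]; simp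
    rw [e1, e2, add_zero, add_zero, ← Finset.sum_add_distrib, Finset.smul_sum]
    refine Finset.sum_congr rfl fun i hi => ?_
    have hi' := Finset.mem_range.1 hi
    rw [dlW_one, dlW_one, map_smul, map_smul, smul_mul_assoc, mul_smul_comm]
    have e3 : i + 1 - 1 = i := rfl
    have e4 : k - (i + 1) = k - 1 - i := by omega
    have e5 : k - i - 1 = k - 1 - i := by omega
    rw [e3, e4, e5, ← add_smul]
    congr 1
    have : k = i + (k - i) := by omega
    have h6 : ((k : ℕ) : ℚ) = (i : ℚ) + ((k - i : ℕ) : ℚ) := by exact_mod_cast this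
    push_cast
    push_cast at h6
    linarith

theorem star_dl (P : AY) : starΔ (dl P) = D2 (starΔ P) := by
  have h0 : ∀ v : List ℕ, starΔ (dlW v) = D2 (starΔ (wd v)) := by
    intro v
    induction v with
    | nil =>
      have h1 := Pool.Agent.H237R3.DM.D2_pair [] []
      have h2 : dlW [] = 0 := rfl
      rw [h2] at h1 ⊢
      rw [Pool.Agent.H237R3.DM.wd_nil, map_one, map_one] at h1
      rw [Pool.Agent.H237R3.DM.wd_nil, map_one, map_zero]
      simpa using h1.symm
    | cons k v ih =>
      rw [dlW_cons, map_add, map_mul, map_mul, ih, Pool.Agent.Y759.QS.star_cons k v,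
        Pool.Agent.Y759.QS.star_letter k, starL_mul_D2, star_dlW_one]
  have h : starΔ.toLinearMap ∘ₗ dl = D2 ∘ₗ starΔ.toLinearMap := by
    apply ext_wd
    intro l
    simp only [LinearMap.comp_apply, AlgHom.toLinearMap_apply]
    rw [show dl (wd l) = dlW l from Pool.Agent.H237R3.DM.lext_wd dlW l, h0]
  have := LinearMap.congr_fun h P
  simpa using this

theorem SPrim_dl {P : AY} (h : SPrim P) : SPrim (dl P) := by
  unfold SPrim at h ⊢
  rw [star_dl, h, map_add, D2_inl, D2_inr]

theorem SPrim_smul {P : AY} (c : ℚ) (h : SPrim P) : SPrim (c • P) := by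
  unfold SPrim at h ⊢
  rw [map_smul, map_smul, map_smul, h, smul_add]

/-! ### the left coefficients of the stuffle coproduct -/

theorem KK_inl_wt (w : W) (G : AY) (hG : ∀ v, co G v ≠ 0 → wt (FreeMonoid.toList w) ≤ wt v)
    (Y : AYY) : KK w (inl G * Y) = G.coeff w • KK 1 Y := by
  have e : G = ∑ a ∈ G.coeff.support, MonoidAlgebra.single a (G.coeff a) :=
    (MonoidAlgebra.sum_coeff_single G).symm
  conv_lhs => rw [e]
  rw [map_sum, Finset.sum_mul, map_sum]
  have : ∀ a ∈ G.coeff.support, KK w (inl (MonoidAlgebra.single a (G.coeff a)) * Y) =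
      (if a = w then G.coeff a else 0) • KK 1 Y := by
    intro a ha
    have hle := hG (FreeMonoid.toList a) (by
      unfold co; rw [FreeMonoid.ofList_toList]; exact Finsupp.mem_support_iff.1 ha)
    generalize G.coeff a = r
    induction Y using MonoidAlgebra.induction_linear with
    | zero => simp
    | add Y₁ Y₂ h1 h2 => rw [mul_add, map_add, h1, h2, map_add, smul_add]
    | single m s =>
      rw [inl_single, MonoidAlgebra.single_mul_single, KK_single, KK_single]
      simp only [Prod.fst_mul, one_mul, Prod.snd_mul]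
      by_cases h1 : m.1 = 1
      · rw [h1, mul_one, if_pos rfl]
        by_cases h2 : a = w
        · rw [if_pos h2, if_pos h2, MonoidAlgebra.smul_single, smul_eq_mul]
        · rw [if_neg h2, if_neg h2, zero_smul]
      · rw [if_neg h1, smul_zero, if_neg]
        intro h3
        have h4 := congrArg (fun z : W => wt (FreeMonoid.toList z)) h3
        simp only [FreeMonoid.toList_mul, wt_append] at h4
        apply h1
        have h5 : wt (FreeMonoid.toList m.1) = 0 := by omega
        exact FreeMonoid.toList.injective (by rw [wt_zero h5]; rfl)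
  rw [Finset.sum_congr rfl this, ← Finset.sum_smul]
  congr 1
  rw [Finset.sum_ite_eq']
  split_ifs with h
  · rfl
  · exact (Finsupp.notMem_support_iff.1 h).symm

theorem wd_eq_single (i : ℕ) : (wd [i] : AY) = MonoidAlgebra.single (FreeMonoid.of i) 1 := rfl

theorem KK_letter (w : W) (i : ℕ) (Z : AYY) (h : ∀ w', w = FreeMonoid.of i * w' → KK w' Z = 0) :
    KK w (inl (wd [i]) * Z) = 0 := by
  by_cases hw : ∃ w', w = FreeMonoid.of i * w'
  · obtain ⟨w', rfl⟩ := hw
    rw [← h w' rfl]
    clear h
    induction Z using MonoidAlgebra.induction_linear with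
    | zero => simp
    | add Y₁ Y₂ h1 h2 => rw [mul_add, map_add, h1, h2, map_add]
    | single m s =>
      rw [wd_eq_single, inl_single, MonoidAlgebra.single_mul_single, KK_single, KK_single]
      simp only [Prod.fst_mul, one_mul, Prod.snd_mul]
      by_cases h3 : m.1 = w'
      · rw [if_pos h3, if_pos (by rw [h3])]
      · rw [if_neg h3, if_neg (fun h4 => h3 (mul_left_cancel h4))]
  · clear h
    induction Z using MonoidAlgebra.induction_linear with
    | zero => simp
    | add Y₁ Y₂ h1 h2 => rw [mul_add, map_add, h1, h2, add_zero]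
    | single m s =>
      rw [wd_eq_single, inl_single, MonoidAlgebra.single_mul_single, KK_single, if_neg]
      intro h4
      exact hw ⟨m.1, h4.symm⟩

theorem KK_star_word (v : List ℕ) : ∀ w : W, wt v < wt (FreeMonoid.toList w) →
    KK w (starΔ (wd v)) = 0 := by
  induction v with
  | nil =>
    intro w hw
    rw [Pool.Agent.H237R3.DM.wd_nil, map_one]
    have h2 : (1 : AYY) = MonoidAlgebra.single (1, 1) 1 := rfl
    rw [h2, KK_single, if_neg]
    rintro rfl
    simp [wt] at hw
  | cons k v ih =>
    intro w hw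
    rw [wt_cons] at hw
    rw [Pool.Agent.Y759.QS.star_cons, Pool.Agent.H777R4.DM.starL, add_mul, add_mul, Finset.sum_mul, map_add, map_add,
      map_sum, KK_inr, ih w (by omega), mul_zero, add_zero, KK_letter, zero_add]
    · refine Finset.sum_eq_zero fun i hi => ?_
      have hi' := Finset.mem_range.1 hi
      rw [mul_assoc]
      apply KK_letter
      rintro w' rfl
      rw [KK_inr, ih w', mul_zero]
      rw [FreeMonoid.toList_mul, wt_append, FreeMonoid.toList_of] at hw
      have : wt [i] = i + 1 := by unfold wt; simp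
      omega
    · rintro w' rfl
      apply ih
      rw [FreeMonoid.toList_mul, wt_append, FreeMonoid.toList_of] at hw
      have : wt [k] = k + 1 := by unfold wt; simp
      omega

theorem KK_star_long (e : AY) (w : W) (h : ∀ v, co e v ≠ 0 → wt v < wt (FreeMonoid.toList w)) :
    KK w (starΔ e) = 0 := by
  have h0 : e = ∑ a ∈ e.coeff.support, MonoidAlgebra.single a (e.coeff a) :=
    (MonoidAlgebra.sum_coeff_single e).symm
  rw [h0, map_sum, map_sum]
  refine Finset.sum_eq_zero fun a ha => ?_
  have h1 : (MonoidAlgebra.single a (e.coeff a) : AY) =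
      e.coeff a • wd (FreeMonoid.toList a) := by
    unfold wd
    rw [MonoidAlgebra.of_apply, FreeMonoid.ofList_toList, MonoidAlgebra.smul_single, smul_eq_mul,
      mul_one]
  rw [h1, map_smul, map_smul, KK_star_word _ w (h _ ?_), smul_zero]
  unfold co
  rw [FreeMonoid.ofList_toList]
  exact Finsupp.mem_support_iff.1 ha

theorem KK_star (a : AY) : KK 1 (starΔ a) = a := by
  have h0 : ∀ v : List ℕ, KK 1 (starΔ (wd v)) = wd v := by
    intro v
    induction v with
    | nil =>
      rw [Pool.Agent.H237R3.DM.wd_nil, map_one]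
      have h2 : (1 : AYY) = MonoidAlgebra.single (1, 1) 1 := rfl
      rw [h2, KK_single, if_pos rfl]
      rfl
    | cons k v ih =>
      have hl : ∀ (i : ℕ) (Z : AYY), KK 1 (inl (wd [i]) * Z) = 0 := by
        intro i Z
        apply KK_letter
        intro w' hw'
        have := congrArg (fun z : W => (FreeMonoid.toList z).length) hw'
        simp at this
      rw [Pool.Agent.Y759.QS.star_cons, Pool.Agent.H777R4.DM.starL, add_mul, add_mul, Finset.sum_mul, map_add, map_add,
        map_sum, KK_inr, ih, hl, zero_add, Finset.sum_eq_zero, add_zero]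
      · exact (Pool.Agent.H237R3.DM.wd_cons k v).symm
      · intro i _
        rw [mul_assoc, hl]
  have h : (KK 1) ∘ₗ starΔ.toLinearMap = LinearMap.id := by
    apply ext_wd
    intro l
    simp only [LinearMap.comp_apply, AlgHom.toLinearMap_apply, LinearMap.id_apply]
    exact h0 l
  have := LinearMap.congr_fun h a
  simpa using this

end Pool.Agent.R241.DT
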