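import Pool.Agent.R241.DT1

/-! # Freeness of families of primitive elements with weights in `[s, 2s)` -/

set_option autoImplicit false

namespace Pool.Agent.R241.DT

open Pool.Agent.H777R4.DM Pool.Agent.H835R4.KL1 Pool.Agent.H428R3 Pool.Agent.H20R3.FreeN
open scoped Classical

attribute [local instance 100] LieRing.ofAssociativeRing

variable {n s : ℕ}

theorem indep_hom (σ : Fin n → AY) (ρ : Fin n → ℕ) (hρ : ∀ i, s ≤ ρ i)
    (hσ : ∀ i, WHom (σ i) (ρ i)) (hp : ∀ i, SPrim (σ i)) (hli : LinearIndependent ℚ σ) (R : ℕ)
    (e : Fin n → AY) (he : ∀ i v, co (e i) v ≠ 0 → ρ i + wt v = R) (hR : R < 2 * s)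
    (hs : ∑ i, σ i * e i = 0) : ∀ i, e i = 0 := by
  by_contra hc
  push Not at hc
  obtain ⟨i, hi⟩ := hc
  obtain ⟨i0, h0, hmin⟩ := Finset.exists_min_image (Finset.univ.filter (fun i => e i ≠ 0)) ρ
    ⟨i, by simp [hi]⟩
  have h0' : e i0 ≠ 0 := (Finset.mem_filter.1 h0).2
  have key : ∀ w : W, wt (FreeMonoid.toList w) = ρ i0 →
      ∑ i, (σ i).coeff w • e i = 0 := by
    intro w hw
    have h1 : KK w (starΔ (∑ i, σ i * e i)) = 0 := by rw [hs, map_zero, map_zero]
    rw [map_sum, map_sum] at h1
    rw [← h1]
    refine Finset.sum_congr rfl fun i _ => ?_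
    rw [map_mul, hp i, add_mul, map_add, KK_inr]
    by_cases hei : e i = 0
    · rw [hei]; simp
    have hm : ρ i0 ≤ ρ i := hmin i (Finset.mem_filter.2 ⟨Finset.mem_univ _, hei⟩)
    have h2 : KK w (starΔ (e i)) = 0 := by
      refine KK_star_long (e i) w fun v hv => ?_
      have h3 := he i v hv
      have h4 := hρ i
      have h5 := hρ i0
      omega
    rw [h2, mul_zero, add_zero, KK_inl_wt w (σ i) (fun v hv => by rw [hσ i v hv, hw]; exact hm),
      KK_star]
  obtain ⟨v, hv⟩ := DMKL2.exists_co_ne h0'
  have h3 := Fintype.linearIndependent_iff.mp hli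
    (fun i => if ρ i = ρ i0 then co (e i) v else 0) ?_ i0
  · rw [if_pos rfl] at h3
    exact hv h3
  · refine DMKL2.co_ext fun w => ?_
    rw [DMKL2.co_zero, Pool.Agent.H777R4.DM.co_sum]
    by_cases hw : wt w = ρ i0
    · have h4 := congrArg (fun P : AY => co P v) (key (FreeMonoid.ofList w) hw)
      rw [Pool.Agent.H777R4.DM.co_sum, DMKL2.co_zero] at h4
      refine (Finset.sum_congr rfl fun i _ => ?_).trans h4
      rw [DMKL2.co_smul, DMKL2.co_smul]
      by_cases hii : ρ i = ρ i0
      · rw [if_pos hii, mul_comm]; rfl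
      · have h5 : co (σ i) w = 0 := by
          by_contra hne
          exact hii ((hσ i w hne).symm.trans hw)
        have h6 : (σ i).coeff (FreeMonoid.ofList w) = 0 := h5
        rw [if_neg hii, zero_mul, h6, zero_mul]
    · refine Finset.sum_eq_zero fun i _ => ?_
      rw [DMKL2.co_smul]
      by_cases hii : ρ i = ρ i0
      · have : co (σ i) w = 0 := by
          by_contra hne
          exact hw ((hσ i w hne).trans hii)
        rw [this, mul_zero]
      · rw [if_neg hii, zero_mul]

/-- right quotient by a word, part of weight `m` -/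
theorem exists_rq (a : AY) (z : List ℕ) (m : ℕ) :
    ∃ e : AY, ∀ v, co e v = if wt v = m then co a (v ++ z) else 0 := by
  choose q hq using fun k : ℕ => DMKL2.exists_quot a z k 1
  refine ⟨selq 1 m (∑ k ∈ Finset.range (m + 1), q k), fun v => ?_⟩
  have hvw : vw 1 v = wt v := by rw [vw_eq, one_mul]; rfl
  rw [co_selq, hvw]
  by_cases h : wt v = m
  · rw [if_pos h, if_pos h, Pool.Agent.H777R4.DM.co_sum]
    have hl : v.length ∈ Finset.range (m + 1) := by
      rw [Finset.mem_range, ← h]
      unfold wt
      omega
    rw [Finset.sum_eq_single v.length]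
    · rw [hq, if_pos rfl, one_mul]
    · intro k _ hk
      rw [hq, if_neg (fun h => hk h.symm)]
    · intro h2
      exact absurd hl h2
  · rw [if_neg h, if_neg h]

theorem indep (σ : Fin n → AY) (ρ : Fin n → ℕ)
    (hρ : ∀ i, s ≤ ρ i ∧ ρ i < 2 * s) (hσ : ∀ i, WHom (σ i) (ρ i))
    (hp : ∀ i, SPrim (σ i)) (hli : LinearIndependent ℚ σ) (a : Fin n → AY)
    (hs : ∑ i, σ i * a i = 0) : ∀ i, a i = 0 := by
  by_contra hc
  push Not at hc
  obtain ⟨i, hi⟩ := hc
  obtain ⟨i1, h1, hmax⟩ := Finset.exists_max_image (Finset.univ.filter (fun i => a i ≠ 0)) ρ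
    ⟨i, by simp [hi]⟩
  have h1' : a i1 ≠ 0 := (Finset.mem_filter.1 h1).2
  have hai : ∀ i, ρ i1 < ρ i → a i = 0 := by
    intro i hi
    by_contra hne
    exact absurd (hmax i (Finset.mem_filter.2 ⟨Finset.mem_univ _, hne⟩)) (by omega)
  obtain ⟨z, hz⟩ := DMKL2.exists_co_ne h1'
  choose e he using fun i => exists_rq (a i) z (ρ i1 - ρ i)
  have hez : ∀ i, ρ i1 < ρ i → e i = 0 := by
    intro i hi
    refine DMKL2.co_ext fun v => ?_
    rw [he, hai i hi, DMKL2.co_zero, DMKL2.co_zero, ite_self]
  have h2 := indep_hom (s := s) σ ρ (fun i => (hρ i).1) hσ hp hli (ρ i1) e ?_ (hρ i1).2 ?_ i1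
  · have h3 := he i1 []
    rw [h2, DMKL2.co_zero, if_pos (by simp [wt]), List.nil_append] at h3
    exact hz h3.symm
  · intro i v hv
    by_cases hle : ρ i1 < ρ i
    · rw [hez i hle] at hv
      exact absurd (DMKL2.co_zero _) hv
    · rw [he] at hv
      by_cases hl : wt v = ρ i1 - ρ i
      · omega
      · rw [if_neg hl] at hv
        exact absurd rfl hv
  · refine DMKL2.co_ext fun w => ?_
    rw [DMKL2.co_zero, Pool.Agent.H777R4.DM.co_sum]
    by_cases hw : wt w = ρ i1
    · have h3 : co (∑ i, σ i * a i) (w ++ z) = 0 := by rw [hs]; exact DMKL2.co_zero _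
      rw [Pool.Agent.H777R4.DM.co_sum] at h3
      rw [← h3]
      refine Finset.sum_congr rfl fun i _ => ?_
      rw [DMKL2.co_mul, DMKL2.co_mul]
      have hsub : Finset.range (w.length + 1) ⊆ Finset.range ((w ++ z).length + 1) := by
        apply Finset.range_subset_range.2
        simp
      rw [← Finset.sum_subset hsub]
      · refine Finset.sum_congr rfl fun k hk => ?_
        have hk' : k ≤ w.length := by have := Finset.mem_range.1 hk; omega
        rw [List.take_append_of_le_length hk', List.drop_append_of_le_length hk']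
        by_cases h4 : co (σ i) (w.take k) = 0
        · rw [h4, zero_mul, zero_mul]
        · have h5 := hσ i _ h4
          have h6 : wt (w.take k) + wt (w.drop k) = wt w := by
            rw [← wt_append, List.take_append_drop]
          rw [he, if_pos (by omega)]
      · intro k hk hk2
        have hk' : w.length < k := by
          rw [Finset.mem_range] at hk2
          omega
        rw [Finset.mem_range, List.length_append] at hk
        by_cases h4 : co (σ i) ((w ++ z).take k) = 0
        · rw [h4, zero_mul]
        · have h5 := hσ i _ h4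
          have h6 : (w ++ z).take k = w ++ z.take (k - w.length) := by
            rw [List.take_append, List.take_of_length_le (by omega)]
          rw [h6, wt_append] at h5
          have h7 : 0 < (z.take (k - w.length)).length := by
            rw [List.length_take]
            omega
          have h8 : 0 < wt (z.take (k - w.length)) := by
            unfold wt
            omega
          rw [hai i (by omega), DMKL2.co_zero, mul_zero]
    · refine Finset.sum_eq_zero fun i _ => ?_
      rw [DMKL2.co_mul]
      refine Finset.sum_eq_zero fun k _ => ?_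
      by_contra hne
      have h4 := hσ i _ (left_ne_zero_of_mul hne)
      have h5 := right_ne_zero_of_mul hne
      by_cases hle : ρ i1 < ρ i
      · rw [hez i hle] at h5
        exact h5 (DMKL2.co_zero _)
      · rw [he] at h5
        by_cases h6 : wt (w.drop k) = ρ i1 - ρ i
        · apply hw
          have h7 : wt (w.take k) + wt (w.drop k) = wt w := by
            rw [← wt_append, List.take_append_drop]
          omega
        · rw [if_neg h6] at h5
          exact h5 rfl

theorem free (σ : Fin n → AY) (ρ : Fin n → ℕ)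
    (hρ : ∀ i, s ≤ ρ i ∧ ρ i < 2 * s) (hσ : ∀ i, WHom (σ i) (ρ i))
    (hp : ∀ i, SPrim (σ i)) (hli : LinearIndependent ℚ σ) : Function.Injective (lamN σ) := by
  rw [injective_iff_map_eq_zero]
  have key : ∀ N : ℕ, ∀ P : Al (Fin n), (∀ l, co P l ≠ 0 → l.length < N) → lamN σ P = 0 →
      P = 0 := by
    intro N
    induction N with
    | zero =>
      intro P hP _
      refine DMKL2.co_ext fun l => ?_
      by_contra hne
      exact absurd (hP l hne) (by omega)
    | succ N ih =>
      intro P hP hlam
      choose Q hQ using fun i => exists_lq P i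
      have hdec := decomp P Q hQ
      have e1 : lamN σ P = co P [] • (1 : AY) + ∑ i, σ i * lamN σ (Q i) := by
        conv_lhs => rw [hdec]
        rw [map_add, map_smul, map_one, map_sum]
        congr 1
        refine Finset.sum_congr rfl fun i _ => ?_
        rw [map_mul, lamN_wd]
      have hc : co P [] = 0 := by
        have h2 : co (lamN σ P) [] = 0 := by rw [hlam]; exact DMKL2.co_zero _
        rw [e1, DMKL2.co_add, DMKL2.co_smul, DMKL2.co_one, if_pos rfl,
          Pool.Agent.H777R4.DM.co_sum, Finset.sum_eq_zero (fun i _ => ?_)] at h2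
        · simpa using h2
        · have h3 := hρ i
          rw [DMKL2.co_mul]
          refine Finset.sum_eq_zero fun k _ => ?_
          by_contra hne
          have h4 := hσ i _ (left_ne_zero_of_mul hne)
          simp [wt] at h4
          omega
      have e2 : ∑ i, σ i * lamN σ (Q i) = 0 := by
        rw [hlam, hc, zero_smul, zero_add] at e1
        exact e1.symm
      have hb : ∀ i, lamN σ (Q i) = 0 := indep σ ρ hρ hσ hp hli _ e2
      have z0 : ∀ i, Q i = 0 := fun i => ih (Q i) (fun l hl => by
        rw [hQ] at hl
        have := hP _ hl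
        simpa using this) (hb i)
      rw [hdec, hc]
      simp [z0]
  intro P hP
  refine key ((P.coeff.support.sup fun m => (FreeMonoid.toList m).length) + 1) P
    (fun l hl => ?_) hP
  have hmem : FreeMonoid.ofList l ∈ P.coeff.support := Finsupp.mem_support_iff.2 hl
  have := Finset.le_sup (f := fun m : FreeMonoid (Fin n) => (FreeMonoid.toList m).length) hmem
  simp only [FreeMonoid.toList_ofList] at this
  omega

end Pool.Agent.R241.DT
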