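import Pool.Agent.R241.DT2
import Pool.Agent.Y759.DS.Filt2

/-! # Free Lie algebras in `dm`: elements of one weight whose words end with few letters `x₀` -/

set_option autoImplicit false

namespace Pool.Agent.R241.DT

open Pool.Agent.H777R4.DM Pool.Agent.Y759.QS

attribute [local instance 100] LieRing.ofAssociativeRing

/-- some word ends with `x₀` -/
theorem ends0 {f : A} {w : ℕ} (h : IsDM f) (hN : LenHom f w) (hf : f ≠ 0) :
    ∃ (v : List ℕ) (k : ℕ), 1 ≤ k ∧ co f (wordX v ++ List.replicate k 0) ≠ 0 := by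
  classical
  obtain ⟨u₀, hu₀⟩ := exists_co_ne hf
  have hex : ∃ c, ∃ u, co f u ≠ 0 ∧ u.count 1 = c := ⟨_, u₀, hu₀, rfl⟩
  obtain ⟨u, hu, huc⟩ := Nat.find_spec hex
  generalize hρ : Nat.find hex = ρ at huc
  have hmin : ∀ w, co f w ≠ 0 → ρ ≤ w.count 1 := fun w hw => by
    rw [← hρ]; exact Nat.find_min' hex ⟨w, hw, rfl⟩
  have hsmall := taskSmall_proof taskTwoB Pool.Agent.H352.DSH.taskTwoC f h u hu
  have h1 : 1 ≤ ρ := by rw [← huc]; exact hsmall.2
  have hlen := hN u hu
  have hlt : ρ < w := by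
    rw [← huc, ← hlen]
    refine lt_of_le_of_ne List.count_le_length fun he => ?_
    rw [List.count_eq_length] at he
    have h3 : u = List.replicate u.length 1 := List.eq_replicate_iff.2 ⟨rfl, fun b hb => (he b hb).symm⟩
    apply hu
    rw [h3]
    exact ones_zero h u.length (by omega)
  obtain ⟨k, hk, hkne⟩ := Pool.Agent.H30R3.DSNKB.taskKB Pool.Agent.H777R4.DM.R0.taskR0 taskTwoB f ρ w
    h.mem h.c0 hN h1 hmin ⟨u, hu, huc⟩
    (prim_all Pool.Agent.H466R3.DMPrim0.prim0 Pool.Agent.H237R3.DM.taskDelta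
      Pool.Agent.H777R4.DM.R0.taskR0 h h1 hmin 0)
  obtain ⟨v, hv⟩ := exists_co_ne hkne
  rw [co_Fp] at hv
  split_ifs at hv with h3
  · refine ⟨v, k, ?_, hv⟩
    rcases Nat.eq_zero_or_pos k with h4 | h4
    · subst h4
      omega
    · exact h4
  · exact absurd rfl hv

/-- the parts with a given number of final letters `x₀` are primitive -/
theorem run_prim {f : A} {w : ℕ} (h : IsDM f) (hN : LenHom f w)
    (htr : ∀ v k, co f (wordX v ++ List.replicate k 0) ≠ 0 → 2 * k ≤ w) (k : ℕ) :
    SPrim (run k f) := by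
  have hcorr : ∀ v, corr f v = 0 := by
    intro v
    unfold corr
    split_ifs with h2
    · have h3 : co f (List.replicate (v.length - 1) 0 ++ [1]) = 0 := by
        by_contra hne
        have h4 := rev_of h (List.replicate (v.length - 1) 0 ++ [1])
        have h5 : (List.replicate (v.length - 1) (0 : Fin 2) ++ [1]).reverse =
            wordX [0] ++ List.replicate (v.length - 1) 0 := by
          simp [wordX]
        rw [h5] at h4
        have h6 : co f (wordX [0] ++ List.replicate (v.length - 1) 0) ≠ 0 := by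
          rw [h4]
          exact mul_ne_zero (pow_ne_zero _ (by norm_num)) hne
        have h7 := htr _ _ h6
        have h8 := hN _ hne
        have h9 := (taskSmall_proof taskTwoB Pool.Agent.H352.DSH.taskTwoC f h _ hne).1
        rw [h8] at h9
        simp at h8
        omega
      rw [h3, mul_zero]
    · rfl
  induction k with
  | zero =>
    obtain ⟨P, hP, hs⟩ := h.star
    have e : run 0 f = P := by
      apply al_ext
      intro v
      rw [co_run, hP, hcorr, List.replicate_zero, List.append_nil, add_zero]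
    rw [e]
    exact hs
  | succ k ih =>
    have hR := Pool.Agent.H777R4.DM.R0.taskR0 f h.mem h.c0 k
    have h1 : run (k + 1) f = (-((k : ℚ) + 1)⁻¹) • dl (run k f) := by
      have : run (k + 1) f = ((k : ℚ) + 1)⁻¹ • (((k : ℚ) + 1) • run (k + 1) f) := by
        rw [smul_smul, inv_mul_cancel₀ (by positivity), one_smul]
      rw [this, hR, smul_neg, neg_smul]
    rw [h1]
    exact SPrim_smul _ (SPrim_dl ih)

theorem main {n w : ℕ} {ψ : Fin n → A} (hdm : ∀ i, IsDM (ψ i)) (hhom : ∀ i, LenHom (ψ i) w)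
    (hli : LinearIndependent ℚ ψ)
    (htr : ∀ i v k, co (ψ i) (wordX v ++ List.replicate k 0) ≠ 0 → 2 * k ≤ w) :
    Function.Injective (PhiN ψ) := by
  classical
  have gdm : ∀ c, IsDM (cmb ψ c) := by
    intro c
    unfold cmb
    exact isDM_sum _ _ fun i _ => isDM_smul (hdm i) _
  have gne : ∀ (c : Fin n → ℚ) (u : List (Fin 2)), co (cmb ψ c) u ≠ 0 → ∃ i, co (ψ i) u ≠ 0 := by
    intro c u hu
    unfold cmb at hu
    rw [co_sum] at hu
    obtain ⟨i, _, hi⟩ := Finset.exists_ne_zero_of_sum_ne_zero hu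
    rw [co_smul] at hi
    exact ⟨i, right_ne_zero_of_mul hi⟩
  have ghom : ∀ c, LenHom (cmb ψ c) w := by
    intro c u hu
    obtain ⟨i, hi⟩ := gne c u hu
    exact hhom i u hi
  have gtr : ∀ c v k, co (cmb ψ c) (wordX v ++ List.replicate k 0) ≠ 0 → 2 * k ≤ w := by
    intro c v k hu
    obtain ⟨i, hi⟩ := gne c _ hu
    exact htr i v k hi
  have hvw : ∀ v, vw 1 v = wt v := by
    intro v
    rw [vw_eq, one_mul]
    rfl
  have hLc : ∀ N (c : Fin n → ℚ), ((lq 1 N) ∘ₗ (Fintype.linearCombination ℚ ψ)) c =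
      lq 1 N (cmb ψ c) := by
    intro N c
    rw [LinearMap.comp_apply, Fintype.linearCombination_apply]
    rfl
  -- coefficients of the levels
  have hlq : ∀ (c : Fin n → ℚ) (l : ℕ) (v : List ℕ), co (lq 1 l (cmb ψ c)) v =
      if wt v = l ∧ l ≤ w then co (cmb ψ c) (wordX v ++ List.replicate (w - l) 0) else 0 := by
    intro c l v
    rw [co_lq, hvw, co_theta (ghom c)]
    have hw : v.sum + v.length = wt v := rfl
    rw [hw]
    by_cases h1 : wt v = l
    · subst h1
      by_cases h2 : wt v ≤ w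
      · rw [if_pos rfl, if_pos h2, if_pos ⟨rfl, h2⟩]
      · rw [if_pos rfl, if_neg h2, if_neg (fun h => h2 h.2)]
    · rw [if_neg h1, if_neg (fun h => h1 h.1)]
  obtain ⟨M, sl, hM, hlow, hlis⟩ := Pool.Agent.H553R3.taskAdMu n w (vw 1)
    (fun N => (lq 1 N) ∘ₗ (Fintype.linearCombination ℚ ψ)) (by
      intro l c v hv
      rw [LinearMap.comp_apply, co_lq] at hv
      split_ifs at hv with h
      · exact h
      · exact absurd rfl hv) (by
      intro c hc
      have hg : cmb ψ c ≠ 0 := fun h0 => hc (funext fun i =>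
        Fintype.linearIndependent_iff.mp hli c h0 i)
      obtain ⟨u, hu⟩ := exists_co_ne hg
      have h1 := wordX_strip u
      have h2 := word_length (strip u).1 (strip u).2
      rw [h1, ghom c u hu] at h2
      refine ⟨wt (strip u).1, by unfold wt; omega, fun h0 => ?_⟩
      rw [hLc] at h0
      have h3 := hlq c (wt (strip u).1) (strip u).1
      rw [h0, co_zero, if_pos ⟨rfl, by unfold wt; omega⟩] at h3
      have h4 : w - wt (strip u).1 = (strip u).2 := by unfold wt; omega
      rw [h4, h1] at h3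
      exact hu h3.symm)
  have hlow' : ∀ i, ∀ l < sl i, lq 1 l (cmb ψ (M i)) = 0 := by
    intro i l hl
    rw [← hLc]
    exact hlow i l hl
  have hlis' : LinearIndependent ℚ (fun i => lq 1 (sl i) (cmb ψ (M i))) := by
    have : (fun i => lq 1 (sl i) (cmb ψ (M i))) = (fun i =>
        ((lq 1 (sl i)) ∘ₗ (Fintype.linearCombination ℚ ψ)) (M i)) := by
      funext i
      rw [hLc]
    rw [this]
    exact hlis
  have hsl : ∀ i, sl i ≤ w ∧ 2 * (w - sl i) ≤ w := by
    intro i
    obtain ⟨v, hv⟩ := exists_co_ne (hlis'.ne_zero i)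
    rw [hlq] at hv
    split_ifs at hv with h
    · exact ⟨h.2, gtr _ _ _ hv⟩
    · exact absurd rfl hv
  have hlt : ∀ i, sl i < w := by
    intro i
    have hg : cmb ψ (M i) ≠ 0 := by
      intro h0
      apply hlis'.ne_zero i
      rw [h0, map_zero]
    obtain ⟨v, k, hk, hv⟩ := ends0 (gdm (M i)) (ghom (M i)) hg
    by_contra hcon
    have h2 := ghom _ _ hv
    rw [word_length] at h2
    have h3 := hlow' i (wt v) (by unfold wt; omega)
    have h4 := hlq (M i) (wt v) v
    rw [h3, co_zero, if_pos ⟨rfl, by unfold wt; omega⟩] at h4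
    have h5 : w - wt v = k := by unfold wt; omega
    rw [h5] at h4
    exact hv h4.symm
  have hrun : ∀ i, lq 1 (sl i) (cmb ψ (M i)) = run (w - sl i) (cmb ψ (M i)) := by
    intro i
    apply al_ext
    intro v
    rw [hlq, co_run]
    split_ifs with h
    · rfl
    · by_contra hne
      apply h
      have h2 := ghom _ _ (Ne.symm hne)
      rw [word_length] at h2
      have := (hsl i).1
      have hw : wt v = v.sum + v.length := rfl
      omega
  apply Pool.Agent.H826R3.DM.taskShearN n ψ M hM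
  have hg : ∀ i, (∑ j, M i j • ψ j) = cmb ψ (M i) := fun i => rfl
  refine Pool.Agent.H861R3.DM.LeadN.leadN_ok Pool.Agent.H337R3.Lead1.lead1 n _
    (fun i => lq 1 (sl i) (cmb ψ (M i))) sl 1 ?_ ?_ ?_ ?_
  · intro i u hu
    rw [hg] at hu
    have h5 := cw_eq 1 u
    rw [one_mul, ghom _ u hu] at h5
    have := hlt i
    omega
  · intro i v hv
    rw [hg] at hv
    have hv1 : co (θ (cmb ψ (M i))) v ≠ co (lq 1 (sl i) (cmb ψ (M i))) v := hv
    rw [co_lq] at hv1
    by_cases h : vw 1 v = sl i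
    · rw [if_pos h] at hv1; exact absurd rfl hv1
    · rw [if_neg h] at hv1
      by_contra hcon
      have h1 := hlow' i (vw 1 v) (by omega)
      have h4 := co_lq 1 (vw 1 v) (cmb ψ (M i)) v
      rw [h1, co_zero, if_pos rfl] at h4
      exact hv1 h4.symm
  · intro i v hv
    have hv1 : co (lq 1 (sl i) (cmb ψ (M i))) v ≠ 0 := hv
    rw [co_lq] at hv1
    split_ifs at hv1 with h
    · exact h
    · exact absurd rfl hv1
  · refine free (s := (w + 1) / 2) _ sl ?_ ?_ ?_ hlis'
    · intro i
      have h1 := hsl i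
      have h2 := hlt i
      omega
    · intro i v hv
      have hv1 : co (lq 1 (sl i) (cmb ψ (M i))) v ≠ 0 := hv
      rw [co_lq] at hv1
      split_ifs at hv1 with h
      · rw [← hvw]
        exact h
      · exact absurd rfl hv1
    · intro i
      rw [hrun]
      exact run_prim (gdm _) (ghom _) (gtr _) _

theorem final {n w : ℕ} {ψ : Fin n → A} (hdm : ∀ i, IsDM (ψ i)) (hhom : ∀ i, LenHom (ψ i) w)
    (hli : LinearIndependent ℚ ψ)
    (htr : ∀ i v k, co (ψ i) (wordX v ++ List.replicate k 0) ≠ 0 → 2 * k ≤ w) :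
    ∃ φ : Al (Fin n) →ₗ[ℚ] A, Function.Injective φ ∧ (∀ i, φ (wd [i]) = ψ i) ∧
      ∀ P ∈ LieN n, ∀ Q ∈ LieN n, φ (P * Q - Q * P) = ihara (φ P) (φ Q) :=
  ⟨PhiN ψ, main hdm hhom hli htr, (Pool.Agent.H358R3.DM.taskFinalN n ψ).1,
    (Pool.Agent.H358R3.DM.taskFinalN n ψ).2⟩

end Pool.Agent.R241.DT
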