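import Pool.Agent.R241.DT3

/-! # Free Lie algebras in `dm`: a window for the number of final letters `x₀` -/

set_option autoImplicit false

namespace Pool.Agent.R241.DT

open Pool.Agent.H777R4.DM Pool.Agent.Y759.QS

attribute [local instance 100] LieRing.ofAssociativeRing

theorem SPrim_zero : SPrim (0 : AY) := by
  unfold SPrim
  simp

theorem SPrim_add {P Q : AY} (hP : SPrim P) (hQ : SPrim Q) : SPrim (P + Q) := by
  unfold SPrim at *
  rw [map_add, map_add, map_add, hP, hQ]
  abel

theorem SPrim_sum {ι : Type*} (S : Finset ι) (f : ι → AY) (h : ∀ i ∈ S, SPrim (f i)) :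
    SPrim (∑ i ∈ S, f i) := by
  classical
  induction S using Finset.induction_on with
  | empty => rw [Finset.sum_empty]; exact SPrim_zero
  | insert a S ha ih =>
    rw [Finset.sum_insert ha]
    exact SPrim_add (h a (Finset.mem_insert_self _ _))
      (ih fun i hi => h i (Finset.mem_insert_of_mem hi))

/-- the parts with a given number of final letters `x₀` are primitive -/
theorem run_prim2 {f : A} {w s : ℕ} (hs : 2 ≤ s) (h : IsDM f) (hN : LenHom f w)
    (htr : ∀ v k, co f (wordX v ++ List.replicate k 0) ≠ 0 → k + s ≤ w) (k : ℕ) :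
    SPrim (run k f) := by
  have hcorr : ∀ v, corr f v = 0 := by
    intro v
    unfold corr
    split_ifs with h2
    · have h3 : co f (List.replicate (v.length - 1) 0 ++ [1]) = 0 := by
        by_contra hne
        have h4 := rev_of h (List.replicate (v.length - 1) 0 ++ [1])
        have h5 : (List.replicate (v.length - 1) (0 : Fin 2) ++ [1]).reverse =
            wordX [0] ++ List.replicate (v.length - 1) 0 := by
          simp [wordX]
        rw [h5] at h4
        have h6 : co f (wordX [0] ++ List.replicate (v.length - 1) 0) ≠ 0 := by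
          rw [h4]
          exact mul_ne_zero (pow_ne_zero _ (by norm_num)) hne
        have h7 := htr _ _ h6
        have h8 := hN _ hne
        have h9 := (taskSmall_proof taskTwoB Pool.Agent.H352.DSH.taskTwoC f h _ hne).1
        rw [h8] at h9
        simp at h8
        omega
      rw [h3, mul_zero]
    · rfl
  induction k with
  | zero =>
    obtain ⟨P, hP, hs⟩ := h.star
    have e : run 0 f = P := by
      apply al_ext
      intro v
      rw [co_run, hP, hcorr, List.replicate_zero, List.append_nil, add_zero]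
    rw [e]
    exact hs
  | succ k ih =>
    have hR := Pool.Agent.H777R4.DM.R0.taskR0 f h.mem h.c0 k
    have h1 : run (k + 1) f = (-((k : ℚ) + 1)⁻¹) • dl (run k f) := by
      have : run (k + 1) f = ((k : ℚ) + 1)⁻¹ • (((k : ℚ) + 1) • run (k + 1) f) := by
        rw [smul_smul, inv_mul_cancel₀ (by positivity), one_smul]
      rw [this, hR, smul_neg, neg_smul]
    rw [h1]
    exact SPrim_smul _ (SPrim_dl ih)

theorem main2 {n s : ℕ} (hs : 2 ≤ s) {ψ : Fin n → A} {w : Fin n → ℕ} (hdm : ∀ i, IsDM (ψ i))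
    (hhom : ∀ i, LenHom (ψ i) (w i)) (hw : ∀ i, 2 * s ≤ w i)
    (htr : ∀ i v k, co (ψ i) (wordX v ++ List.replicate k 0) ≠ 0 → k + s ≤ w i)
    (hind : ∀ c : Fin n → ℚ, (∀ v, wt v < 2 * s →
      ∑ i, c i * co (ψ i) (wordX v ++ List.replicate (w i - wt v) 0) = 0) → c = 0) :
    Function.Injective (PhiN ψ) := by
  classical
  have hvw : ∀ v, vw 1 v = wt v := by
    intro v
    rw [vw_eq, one_mul]
    rfl
  have hLc : ∀ N (c : Fin n → ℚ), ((lq 1 N) ∘ₗ (Fintype.linearCombination ℚ ψ)) c =
      lq 1 N (cmb ψ c) := by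
    intro N c
    rw [LinearMap.comp_apply, Fintype.linearCombination_apply]
    rfl
  have hlin : ∀ N (c : Fin n → ℚ), lq 1 N (cmb ψ c) = ∑ i, c i • lq 1 N (ψ i) := by
    intro N c
    unfold cmb
    rw [map_sum]
    exact Finset.sum_congr rfl fun i _ => map_smul _ _ _
  -- coefficients of the levels
  have hlq : ∀ (i : Fin n) (l : ℕ) (v : List ℕ), co (lq 1 l (ψ i)) v =
      if wt v = l ∧ l ≤ w i then co (ψ i) (wordX v ++ List.replicate (w i - l) 0) else 0 := by
    intro i l v
    rw [co_lq, hvw, co_theta (hhom i)]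
    have hw : v.sum + v.length = wt v := rfl
    rw [hw]
    by_cases h1 : wt v = l
    · subst h1
      by_cases h2 : wt v ≤ w i
      · rw [if_pos rfl, if_pos h2, if_pos ⟨rfl, h2⟩]
      · rw [if_pos rfl, if_neg h2, if_neg (fun h => h2 h.2)]
    · rw [if_neg h1, if_neg (fun h => h1 h.1)]
  have hlev : ∀ c : Fin n → ℚ, c ≠ 0 → ∃ l < 2 * s, lq 1 l (cmb ψ c) ≠ 0 := by
    intro c hc
    by_contra hcon
    push Not at hcon
    apply hc
    apply hind
    intro v hv
    have h1 := hcon (wt v) hv
    have h2 : co (lq 1 (wt v) (cmb ψ c)) v = 0 := by rw [h1, co_zero]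
    rw [hlin, co_sum] at h2
    rw [← h2]
    refine Finset.sum_congr rfl fun i _ => ?_
    rw [co_smul, hlq, if_pos ⟨rfl, by have := hw i; omega⟩]
  obtain ⟨M, sl, hM, hlow, hlis⟩ := Pool.Agent.H553R3.taskAdMu n (2 * s) (vw 1)
    (fun N => (lq 1 N) ∘ₗ (Fintype.linearCombination ℚ ψ)) (by
      intro l c v hv
      rw [LinearMap.comp_apply, co_lq] at hv
      split_ifs at hv with h
      · exact h
      · exact absurd rfl hv) (by
      intro c hc
      obtain ⟨l, hl, hne⟩ := hlev c hc
      exact ⟨l, hl.le, by rw [hLc]; exact hne⟩)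
  have hlow' : ∀ i, ∀ l < sl i, lq 1 l (cmb ψ (M i)) = 0 := by
    intro i l hl
    rw [← hLc]
    exact hlow i l hl
  have hlis' : LinearIndependent ℚ (fun i => lq 1 (sl i) (cmb ψ (M i))) := by
    have : (fun i => lq 1 (sl i) (cmb ψ (M i))) = (fun i =>
        ((lq 1 (sl i)) ∘ₗ (Fintype.linearCombination ℚ ψ)) (M i)) := by
      funext i
      rw [hLc]
    rw [this]
    exact hlis
  have hlt : ∀ i, sl i < 2 * s := by
    intro i
    obtain ⟨l, hl, hne⟩ := hlev (M i) (hM.ne_zero i)
    by_contra hcon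
    exact hne (hlow' i l (by omega))
  have hge : ∀ i, s ≤ sl i := by
    intro i
    obtain ⟨v, hv⟩ := exists_co_ne (hlis'.ne_zero i)
    rw [hlin, co_sum] at hv
    obtain ⟨j, _, hj⟩ := Finset.exists_ne_zero_of_sum_ne_zero hv
    rw [co_smul, hlq] at hj
    have hj2 := right_ne_zero_of_mul hj
    split_ifs at hj2 with h
    · have := htr j _ _ hj2
      have := h.2
      omega
    · exact absurd rfl hj2
  have hrun : ∀ i j, lq 1 (sl i) (ψ j) = run (w j - sl i) (ψ j) := by
    intro i j
    apply al_ext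
    intro v
    rw [hlq, co_run]
    split_ifs with h
    · rfl
    · by_contra hne
      apply h
      have h2 := hhom j _ (Ne.symm hne)
      rw [word_length] at h2
      have := hlt i
      have := hw j
      have hwv : wt v = v.sum + v.length := rfl
      omega
  apply Pool.Agent.H826R3.DM.taskShearN n ψ M hM
  have hg : ∀ i, (∑ j, M i j • ψ j) = cmb ψ (M i) := fun i => rfl
  refine Pool.Agent.H861R3.DM.LeadN.leadN_ok Pool.Agent.H337R3.Lead1.lead1 n _
    (fun i => lq 1 (sl i) (cmb ψ (M i))) sl 1 ?_ ?_ ?_ ?_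
  · intro i u hu
    rw [hg] at hu
    have h5 := cw_eq 1 u
    have h6 : ∃ j, u.length = w j := by
      unfold cmb at hu
      rw [co_sum] at hu
      obtain ⟨j, _, hj⟩ := Finset.exists_ne_zero_of_sum_ne_zero hu
      rw [co_smul] at hj
      exact ⟨j, hhom j u (right_ne_zero_of_mul hj)⟩
    obtain ⟨j, hj⟩ := h6
    rw [one_mul, hj] at h5
    have := hlt i
    have := hw j
    omega
  · intro i v hv
    rw [hg] at hv
    have hv1 : co (θ (cmb ψ (M i))) v ≠ co (lq 1 (sl i) (cmb ψ (M i))) v := hv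
    rw [co_lq] at hv1
    by_cases h : vw 1 v = sl i
    · rw [if_pos h] at hv1; exact absurd rfl hv1
    · rw [if_neg h] at hv1
      by_contra hcon
      have h1 := hlow' i (vw 1 v) (by omega)
      have h4 := co_lq 1 (vw 1 v) (cmb ψ (M i)) v
      rw [h1, co_zero, if_pos rfl] at h4
      exact hv1 h4.symm
  · intro i v hv
    have hv1 : co (lq 1 (sl i) (cmb ψ (M i))) v ≠ 0 := hv
    rw [co_lq] at hv1
    split_ifs at hv1 with h
    · exact h
    · exact absurd rfl hv1
  · refine free (s := s) _ sl ?_ ?_ ?_ hlis'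
    · intro i
      exact ⟨hge i, hlt i⟩
    · intro i v hv
      have hv1 : co (lq 1 (sl i) (cmb ψ (M i))) v ≠ 0 := hv
      rw [co_lq] at hv1
      split_ifs at hv1 with h
      · rw [← hvw]
        exact h
      · exact absurd rfl hv1
    · intro i
      have e : lq 1 (sl i) (cmb ψ (M i)) = ∑ j, M i j • run (w j - sl i) (ψ j) := by
        rw [hlin]
        exact Finset.sum_congr rfl fun j _ => by rw [hrun]
      show SPrim (lq 1 (sl i) (cmb ψ (M i)))
      rw [e]
      exact SPrim_sum _ _ fun j _ => SPrim_smul _ (run_prim2 hs (hdm j) (hhom j) (htr j) _)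

theorem final2 {n s : ℕ} (hs : 2 ≤ s) {ψ : Fin n → A} {w : Fin n → ℕ} (hdm : ∀ i, IsDM (ψ i))
    (hhom : ∀ i, LenHom (ψ i) (w i)) (hw : ∀ i, 2 * s ≤ w i)
    (htr : ∀ i v k, co (ψ i) (wordX v ++ List.replicate k 0) ≠ 0 → k + s ≤ w i)
    (hind : ∀ c : Fin n → ℚ, (∀ u : List (Fin 2), u.length < 2 * s →
      ∑ i, c i * co (ψ i) (u ++ List.replicate (w i - u.length) 0) = 0) → c = 0) :
    ∃ φ : Al (Fin n) →ₗ[ℚ] A, Function.Injective φ ∧ (∀ i, φ (wd [i]) = ψ i) ∧
      ∀ P ∈ LieN n, ∀ Q ∈ LieN n, φ (P * Q - Q * P) = ihara (φ P) (φ Q) := by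
  refine ⟨PhiN ψ, main2 hs hdm hhom hw htr ?_, (Pool.Agent.H358R3.DM.taskFinalN n ψ).1,
    (Pool.Agent.H358R3.DM.taskFinalN n ψ).2⟩
  intro c hc
  apply hind
  intro u hu
  have h1 := wordX_strip u
  have h2 := word_length (strip u).1 (strip u).2
  rw [h1] at h2
  have hwt : wt (strip u).1 = (strip u).1.sum + (strip u).1.length := rfl
  rw [← hc (strip u).1 (by omega)]
  refine Finset.sum_congr rfl fun i _ => ?_
  have h3 : u ++ List.replicate (w i - u.length) 0 =
      wordX (strip u).1 ++ List.replicate (w i - wt (strip u).1) 0 := by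
    conv_lhs => rw [← h1]
    rw [List.append_assoc, List.replicate_append_replicate]
    congr 2
    have := hw i
    rw [h1]
    omega
  rw [h3]

end Pool.Agent.R241.DT
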