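import Mathlib

/-!
# Counting the copies of the trees with five vertices
-/

set_option autoImplicit false

open Finset

namespace Pool.Agent.R241.FP

/-- The path with five vertices. -/
def pathG : SimpleGraph (Fin 5) := SimpleGraph.fromEdgeSet {s(0, 1), s(1, 2), s(2, 3), s(3, 4)}

/-- The star with five vertices, with centre `0`. -/
def starG : SimpleGraph (Fin 5) := SimpleGraph.fromEdgeSet {s(0, 1), s(0, 2), s(0, 3), s(0, 4)}

/-- The tree with five vertices, a vertex `0` of degree three and a vertex `1` of degree two. -/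
def forkG : SimpleGraph (Fin 5) := SimpleGraph.fromEdgeSet {s(0, 1), s(0, 2), s(0, 3), s(1, 4)}

section copies

variable {V W : Type} {G : SimpleGraph V} {H : SimpleGraph W}

/-- The copy attached to a subgraph and an isomorphism. -/
def mkCopy (G' : G.Subgraph) (e : H ≃g G'.coe) : SimpleGraph.Copy H G :=
  ⟨G'.hom.comp e.toHom, SimpleGraph.Subgraph.hom_injective.comp e.injective⟩

theorem mkCopy_apply (G' : G.Subgraph) (e : H ≃g G'.coe) (x : W) :
    mkCopy G' e x = (e x : V) := rfl

theorem mkCopy_toSubgraph (G' : G.Subgraph) (e : H ≃g G'.coe) :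
    (mkCopy G' e).toSubgraph = G' := by
  simp [SimpleGraph.Copy.toSubgraph, mkCopy, SimpleGraph.Subgraph.map_comp]

theorem card_copies [Finite V] [Finite W] :
    Nat.card (SimpleGraph.Copy H G)
      = Nat.card {G' : G.Subgraph // Nonempty (H ≃g G'.coe)} * Nat.card (H ≃g H) := by
  classical
  rw [← Nat.card_prod]
  symm
  apply Nat.card_congr
  refine Equiv.ofBijective
    (fun p : {G' : G.Subgraph // Nonempty (H ≃g G'.coe)} × (H ≃g H) =>
      mkCopy p.1.1 (p.2.trans (Classical.choice p.1.2))) ⟨?_, ?_⟩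
  · rintro ⟨⟨G1, h1⟩, σ1⟩ ⟨⟨G2, h2⟩, σ2⟩ h
    simp only at h
    have hG : G1 = G2 := by
      rw [← mkCopy_toSubgraph G1 (σ1.trans (Classical.choice h1)), h, mkCopy_toSubgraph]
    subst hG
    congr 1
    apply RelIso.ext
    intro x
    have hx := DFunLike.congr_fun h x
    rw [mkCopy_apply, mkCopy_apply] at hx
    have hx2 := Subtype.ext hx
    rw [RelIso.trans_apply, RelIso.trans_apply] at hx2
    exact (Classical.choice h1).injective hx2
  · intro f
    refine ⟨(⟨f.toSubgraph, ⟨f.isoToSubgraph⟩⟩,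
      f.isoToSubgraph.trans (Classical.choice ⟨f.isoToSubgraph⟩ : H ≃g f.toSubgraph.coe).symm), ?_⟩
    apply SimpleGraph.Copy.ext
    intro x
    rw [mkCopy_apply]
    simp only [RelIso.trans_apply, RelIso.apply_symm_apply]
    rfl

theorem copyCount_mul [Fintype V] [Fintype W] :
    G.copyCount H * Nat.card (H ≃g H) = Nat.card (SimpleGraph.Copy H G) := by
  classical
  rw [card_copies (G := G) (H := H), SimpleGraph.copyCount]
  congr 1
  rw [Nat.card_eq_fintype_card, Fintype.card_subtype]

end copies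

/-- The number of the automorphisms of a graph given by a Boolean function. -/
theorem card_aut {H : SimpleGraph (Fin 5)} {b : Fin 5 → Fin 5 → Bool} {c : ℕ}
    (hb : ∀ i j, H.Adj i j ↔ b i j = true)
    (hc : (univ.filter fun σ : Equiv.Perm (Fin 5) => ∀ i j, b (σ i) (σ j) = b i j).card = c) :
    Nat.card (H ≃g H) = c := by
  rw [← hc, ← Fintype.card_subtype, ← Nat.card_eq_fintype_card]
  refine Nat.card_congr ⟨fun e => ⟨e.toEquiv, fun i j => ?_⟩, fun σ => ⟨σ.1, ?_⟩, fun e => ?_,
    fun σ => ?_⟩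
  · have h1 := e.map_rel_iff (a := i) (b := j)
    rw [hb, hb] at h1
    exact Bool.eq_iff_iff.2 h1
  · intro i j
    rw [hb, hb]
    exact Bool.eq_iff_iff.1 (σ.2 i j)
  · rfl
  · rfl

theorem aut_path : Nat.card (pathG ≃g pathG) = 2 := by
  refine card_aut (b := fun i j => decide (i.val + 1 = j.val ∨ j.val + 1 = i.val)) ?_ ?_
  · intro i j
    simp only [pathG, SimpleGraph.fromEdgeSet_adj]
    fin_cases i <;> fin_cases j <;> simp
  · decide +kernel

theorem aut_star : Nat.card (starG ≃g starG) = 24 := by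
  refine card_aut (b := fun i j => decide ((i = 0 ∧ j ≠ 0) ∨ (j = 0 ∧ i ≠ 0))) ?_ ?_
  · intro i j
    simp only [starG, SimpleGraph.fromEdgeSet_adj]
    fin_cases i <;> fin_cases j <;> simp
  · decide +kernel

theorem aut_fork : Nat.card (forkG ≃g forkG) = 2 := by
  refine card_aut (b := fun i j => decide ((i = 0 ∧ (j = 1 ∨ j = 2 ∨ j = 3)) ∨
    (j = 0 ∧ (i = 1 ∨ i = 2 ∨ i = 3)) ∨ (i = 1 ∧ j = 4) ∨ (i = 4 ∧ j = 1))) ?_ ?_
  · intro i j
    simp only [forkG, SimpleGraph.fromEdgeSet_adj]
    fin_cases i <;> fin_cases j <;> simp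
  · decide +kernel

end Pool.Agent.R241.FP
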