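import Pool.Agent.R241.FP1

/-!
# The numbers of the copies in an acyclic graph
-/

set_option autoImplicit false
set_option linter.unusedSectionVars false

open Finset

namespace Pool.Agent.R241.FP

theorem ia (p q : Prop) {d : Decidable (p ∧ q)} [Decidable p] [Decidable q] :
    (@ite ℤ (p ∧ q) d 1 0) = (if p then 1 else 0) * (if q then 1 else 0) := by
  by_cases hp : p <;> by_cases hq : q <;> simp [hp, hq]

theorem card_subtype_sum {α : Type} [Fintype α] (p : α → Prop) [DecidablePred p] :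
    (Nat.card {t // p t} : ℤ) = ∑ t, if p t then (1 : ℤ) else 0 := by
  rw [Nat.card_eq_fintype_card, Fintype.card_subtype, Finset.card_filter]
  push_cast
  rfl

section

variable {V : Type} [Fintype V] [DecidableEq V] {G : SimpleGraph V} [DecidableRel G.Adj]

variable (G) in
/-- The indicator of the adjacency. -/
def ee (a b : V) : ℤ := if G.Adj a b then 1 else 0

/-- The indicator of being different. -/
def nn (a b : V) : ℤ := if a ≠ b then 1 else 0

variable (G) in
/-- The degree. -/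
def dd (v : V) : ℤ := ∑ w, ee G v w

theorem ee_comm (a b : V) : ee G a b = ee G b a := by
  unfold ee
  simp only [G.adj_comm a b]

theorem ee_sq (a b : V) : ee G a b * ee G a b = ee G a b := by
  unfold ee
  split_ifs <;> simp

theorem nn_eq (a b : V) : nn a b = 1 - if a = b then 1 else 0 := by
  unfold nn
  split_ifs <;> simp_all

theorem sum_en (w v : V) : ∑ x, ee G w x * nn x v = dd G w - ee G w v := by
  unfold dd
  simp only [nn_eq, mul_sub, mul_one, mul_ite, mul_zero, Finset.sum_sub_distrib]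
  simp

theorem tri (h : G.IsAcyclic) {a b c : V} (h1 : G.Adj a b) (h2 : G.Adj b c) : ¬ G.Adj a c := by
  intro h3
  have hab := h1.ne
  have hbc := h2.ne
  have hac := h3.ne
  have h4 := h.subsingleton_path a c
  have e := h4.elim (⟨SimpleGraph.Walk.cons h3 SimpleGraph.Walk.nil, by simp [hac]⟩ : G.Path a c)
    ⟨SimpleGraph.Walk.cons h1 (SimpleGraph.Walk.cons h2 SimpleGraph.Walk.nil),
      by simp [hab, hbc, hac]⟩
  have e2 := congrArg (fun p : G.Path a c => (p : G.Walk a c).length) e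
  simp at e2

theorem sq (h : G.IsAcyclic) {a b w w' : V} (hab : a ≠ b) (h1 : G.Adj a w) (h2 : G.Adj w b)
    (h3 : G.Adj a w') (h4 : G.Adj w' b) : w = w' := by
  have h5 := h.subsingleton_path a b
  have e := h5.elim (⟨SimpleGraph.Walk.cons h1 (SimpleGraph.Walk.cons h2 SimpleGraph.Walk.nil),
      by simp [hab, h1.ne, h2.ne]⟩ : G.Path a b)
    ⟨SimpleGraph.Walk.cons h3 (SimpleGraph.Walk.cons h4 SimpleGraph.Walk.nil),
      by simp [hab, h3.ne, h4.ne]⟩
  have e2 := congrArg (fun p : G.Path a b => (p : G.Walk a b).support) e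
  simpa using e2

theorem inj5 {a b c d e : V} (h1 : a ≠ b) (h2 : a ≠ c) (h3 : a ≠ d) (h4 : a ≠ e) (h5 : b ≠ c)
    (h6 : b ≠ d) (h7 : b ≠ e) (h8 : c ≠ d) (h9 : c ≠ e) (h10 : d ≠ e) :
    Function.Injective ![a, b, c, d, e] := by
  intro i j hij
  fin_cases i <;> fin_cases j <;>
    simp [h1, h2, h3, h4, h5, h6, h7, h8, h9, h10, h1.symm, h2.symm, h3.symm, h4.symm, h5.symm,
      h6.symm, h7.symm, h8.symm, h9.symm, h10.symm] at hij ⊢

/-- The condition for a copy of the path: `x ~ w ~ v ~ w' ~ x'`. -/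
def condP (G : SimpleGraph V) (t : V × V × V × V × V) : Prop :=
  G.Adj t.1 t.2.1 ∧ G.Adj t.1 t.2.2.1 ∧ t.2.1 ≠ t.2.2.1 ∧
    (G.Adj t.2.1 t.2.2.2.1 ∧ t.2.2.2.1 ≠ t.1) ∧ G.Adj t.2.2.1 t.2.2.2.2 ∧ t.2.2.2.2 ≠ t.1

theorem card_condP (h : G.IsAcyclic) :
    Nat.card (SimpleGraph.Copy pathG G) = Nat.card {t // condP G t} := by
  refine Nat.card_congr ⟨fun f => ⟨(f 2, f 1, f 3, f 0, f 4), ?_⟩, fun t =>
    ⟨⟨![t.1.2.2.2.1, t.1.2.1, t.1.1, t.1.2.2.1, t.1.2.2.2.2], ?_⟩, ?_⟩, fun f => ?_, fun t => ?_⟩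
  · have hinj : Function.Injective f := f.injective
    refine ⟨f.toHom.map_rel (by simp [pathG]), f.toHom.map_rel (by simp [pathG]),
      fun he => ?_, ⟨f.toHom.map_rel (by simp [pathG]), fun he => ?_⟩,
      f.toHom.map_rel (by simp [pathG]), fun he => ?_⟩
    · exact absurd (hinj he) (by decide)
    · exact absurd (hinj he) (by decide)
    · exact absurd (hinj he) (by decide)
  · intro a b hab
    obtain ⟨⟨v, w, w', x, x'⟩, h1, h2, h3, ⟨h4, h5⟩, h6, h7⟩ := t
    simp only at h1 h2 h3 h4 h5 h6 h7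
    simp only [pathG, SimpleGraph.fromEdgeSet_adj] at hab
    fin_cases a <;> fin_cases b <;>
      simp [h1, h2, h4, h6, h1.symm, h2.symm, h4.symm, h6.symm] at hab ⊢
  · obtain ⟨⟨v, w, w', x, x'⟩, h1, h2, h3, ⟨h4, h5⟩, h6, h7⟩ := t
    simp only at h1 h2 h3 h4 h5 h6 h7
    have i1 : x ≠ w' := by
      rintro rfl
      exact tri h h1 h4 h2
    have i2 : x ≠ x' := by
      rintro rfl
      exact h7 (sq h h3 h4 h6.symm h1.symm h2)
    have i3 : w ≠ x' := by
      rintro rfl
      exact tri h h2 h6 h1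
    exact inj5 h4.ne.symm h5 i1 i2 h1.ne.symm h3 i3 h2.ne h7.symm h6.ne
  · apply SimpleGraph.Copy.ext
    intro i
    fin_cases i <;> rfl
  · rfl

theorem sum_pair (a b : V → ℤ) (c : ℤ) :
    ∑ x, ∑ y, c * (a x * b y) = c * ((∑ x, a x) * ∑ y, b y) := by
  rw [Finset.sum_mul_sum, Finset.mul_sum]
  exact Finset.sum_congr rfl fun x _ => by rw [Finset.mul_sum]

theorem sum_nn (F : V → ℤ) : ∑ w, ∑ w', F w * F w' * nn w w' = (∑ w, F w) ^ 2 - ∑ w, F w ^ 2 := by
  have h1 : ∀ w, ∑ w', F w * F w' * nn w w' = F w * (∑ w', F w') - F w ^ 2 := by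
    intro w
    simp only [nn_eq, mul_sub, mul_one, mul_ite, mul_zero, Finset.sum_sub_distrib]
    rw [Finset.mul_sum]
    simp [pow_two]
  simp only [h1]
  rw [Finset.sum_sub_distrib, ← Finset.sum_mul, pow_two]

theorem count_path (h : G.IsAcyclic) : (Nat.card (SimpleGraph.Copy pathG G) : ℤ) =
    ∑ v, ((∑ w, ee G v w * (dd G w - 1)) ^ 2 - ∑ w, ee G v w * (dd G w - 1) ^ 2) := by
  classical
  have hc : ∀ t : V × V × V × V × V, (if condP G t then (1 : ℤ) else 0) =
      (if G.Adj t.1 t.2.1 then 1 else 0) * ((if G.Adj t.1 t.2.2.1 then 1 else 0) *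
      ((if t.2.1 ≠ t.2.2.1 then 1 else 0) * (((if G.Adj t.2.1 t.2.2.2.1 then 1 else 0) *
      (if t.2.2.2.1 ≠ t.1 then 1 else 0)) * ((if G.Adj t.2.2.1 t.2.2.2.2 then 1 else 0) *
      (if t.2.2.2.2 ≠ t.1 then 1 else 0))))) := by
    intro t
    rw [if_congr (show condP G t ↔ G.Adj t.1 t.2.1 ∧ G.Adj t.1 t.2.2.1 ∧ t.2.1 ≠ t.2.2.1 ∧
      (G.Adj t.2.1 t.2.2.2.1 ∧ t.2.2.2.1 ≠ t.1) ∧ G.Adj t.2.2.1 t.2.2.2.2 ∧ t.2.2.2.2 ≠ t.1 from
      Iff.rfl) rfl rfl]
    rw [ia, ia, ia, ia, ia, ia]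
  rw [card_condP h, card_subtype_sum]
  simp only [hc, Fintype.sum_prod_type]
  refine Finset.sum_congr rfl fun v _ => ?_
  have h1 : ∀ w w' : V, (∑ x, ∑ x', (if G.Adj v w then (1 : ℤ) else 0) *
      ((if G.Adj v w' then 1 else 0) * ((if w ≠ w' then 1 else 0) *
      ((if G.Adj w x then 1 else 0) * (if x ≠ v then 1 else 0) *
      ((if G.Adj w' x' then 1 else 0) * (if x' ≠ v then 1 else 0)))))) =
      (ee G v w * (dd G w - 1)) * (ee G v w' * (dd G w' - 1)) * nn w w' := by
    intro w w'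
    have h2 : (∑ x, ∑ x', (if G.Adj v w then (1 : ℤ) else 0) *
      ((if G.Adj v w' then 1 else 0) * ((if w ≠ w' then 1 else 0) *
      ((if G.Adj w x then 1 else 0) * (if x ≠ v then 1 else 0) *
      ((if G.Adj w' x' then 1 else 0) * (if x' ≠ v then 1 else 0)))))) =
      (ee G v w * ee G v w' * nn w w') * ((∑ x, ee G w x * nn x v) * ∑ x', ee G w' x' * nn x' v) := by
      rw [← sum_pair]
      refine Finset.sum_congr rfl fun x _ => Finset.sum_congr rfl fun x' _ => ?_
      unfold ee nn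
      ring
    rw [h2, sum_en, sum_en]
    have e1 := ee_sq (G := G) v w
    have e2 := ee_sq (G := G) v w'
    rw [ee_comm w v, ee_comm w' v]
    have e3 : ee G v w * (dd G w - ee G v w) = ee G v w * (dd G w - 1) := by
      rw [mul_sub, mul_sub, e1, mul_one]
    have e4 : ee G v w' * (dd G w' - ee G v w') = ee G v w' * (dd G w' - 1) := by
      rw [mul_sub, mul_sub, e2, mul_one]
    rw [← e3, ← e4]
    ring
  refine (Finset.sum_congr rfl fun w _ => Finset.sum_congr rfl fun w' _ => h1 w w').trans ?_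
  rw [sum_nn]
  congr 1
  refine Finset.sum_congr rfl fun w _ => ?_
  rw [mul_pow, pow_two (ee G v w), ee_sq]

/-- The condition for a copy of the fork, with `v` of degree three and `w` of degree two. -/
def condF (G : SimpleGraph V) (t : V × V × V × V × V) : Prop :=
  G.Adj t.1 t.2.1 ∧ (G.Adj t.2.1 t.2.2.1 ∧ t.2.2.1 ≠ t.1) ∧ G.Adj t.1 t.2.2.2.1 ∧
    t.2.2.2.1 ≠ t.2.1 ∧ G.Adj t.1 t.2.2.2.2 ∧ t.2.2.2.2 ≠ t.2.1 ∧ t.2.2.2.1 ≠ t.2.2.2.2

theorem card_condF (h : G.IsAcyclic) :
    Nat.card (SimpleGraph.Copy forkG G) = Nat.card {t // condF G t} := by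
  refine Nat.card_congr ⟨fun f => ⟨(f 0, f 1, f 4, f 2, f 3), ?_⟩, fun t =>
    ⟨⟨![t.1.1, t.1.2.1, t.1.2.2.2.1, t.1.2.2.2.2, t.1.2.2.1], ?_⟩, ?_⟩, fun f => ?_, fun t => ?_⟩
  · have hinj : Function.Injective f := f.injective
    refine ⟨f.toHom.map_rel (by simp [forkG]), ⟨f.toHom.map_rel (by simp [forkG]),
      fun he => ?_⟩, f.toHom.map_rel (by simp [forkG]), fun he => ?_,
      f.toHom.map_rel (by simp [forkG]), fun he => ?_, fun he => ?_⟩
    · exact absurd (hinj he) (by decide)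
    · exact absurd (hinj he) (by decide)
    · exact absurd (hinj he) (by decide)
    · exact absurd (hinj he) (by decide)
  · intro a b hab
    obtain ⟨⟨v, w, z, x, y⟩, h1, ⟨h2, h3⟩, h4, h5, h6, h7, h8⟩ := t
    simp only at h1 h2 h3 h4 h5 h6 h7 h8
    simp only [forkG, SimpleGraph.fromEdgeSet_adj] at hab
    fin_cases a <;> fin_cases b <;>
      simp [h1, h2, h4, h6, h1.symm, h2.symm, h4.symm, h6.symm] at hab ⊢
  · obtain ⟨⟨v, w, z, x, y⟩, h1, ⟨h2, h3⟩, h4, h5, h6, h7, h8⟩ := t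
    simp only at h1 h2 h3 h4 h5 h6 h7 h8
    have i1 : x ≠ z := by
      rintro rfl
      exact tri h h1 h2 h4
    have i2 : y ≠ z := by
      rintro rfl
      exact tri h h1 h2 h6
    exact inj5 h1.ne h4.ne h6.ne h3.symm h5.symm h7.symm h2.ne h8 i1 i2
  · apply SimpleGraph.Copy.ext
    intro i
    fin_cases i <;> rfl
  · rfl

theorem count_fork (h : G.IsAcyclic) : (Nat.card (SimpleGraph.Copy forkG G) : ℤ) =
    ∑ v, (dd G v - 1) * (dd G v - 2) * ∑ w, ee G v w * (dd G w - 1) := by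
  classical
  have hc : ∀ t : V × V × V × V × V, (if condF G t then (1 : ℤ) else 0) =
      (if G.Adj t.1 t.2.1 then 1 else 0) * (((if G.Adj t.2.1 t.2.2.1 then 1 else 0) *
      (if t.2.2.1 ≠ t.1 then 1 else 0)) * ((if G.Adj t.1 t.2.2.2.1 then 1 else 0) *
      ((if t.2.2.2.1 ≠ t.2.1 then 1 else 0) * ((if G.Adj t.1 t.2.2.2.2 then 1 else 0) *
      ((if t.2.2.2.2 ≠ t.2.1 then 1 else 0) * (if t.2.2.2.1 ≠ t.2.2.2.2 then 1 else 0)))))) := by
    intro t
    rw [if_congr (show condF G t ↔ G.Adj t.1 t.2.1 ∧ (G.Adj t.2.1 t.2.2.1 ∧ t.2.2.1 ≠ t.1) ∧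
      G.Adj t.1 t.2.2.2.1 ∧ t.2.2.2.1 ≠ t.2.1 ∧ G.Adj t.1 t.2.2.2.2 ∧ t.2.2.2.2 ≠ t.2.1 ∧
      t.2.2.2.1 ≠ t.2.2.2.2 from Iff.rfl) rfl rfl]
    rw [ia, ia, ia, ia, ia, ia, ia]
  rw [card_condF h, card_subtype_sum]
  simp only [hc, Fintype.sum_prod_type]
  refine Finset.sum_congr rfl fun v _ => ?_
  rw [Finset.mul_sum]
  refine Finset.sum_congr rfl fun w _ => ?_
  have h0 : ∀ z x : V, (∑ y, (if G.Adj v w then (1 : ℤ) else 0) *
      ((if G.Adj w z then 1 else 0) * (if z ≠ v then 1 else 0) * ((if G.Adj v x then 1 else 0) *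
      ((if x ≠ w then 1 else 0) * ((if G.Adj v y then 1 else 0) * ((if y ≠ w then 1 else 0) *
      (if x ≠ y then 1 else 0))))))) =
      ee G v w * ((ee G w z * nn z v) * (ee G v x * nn x w * (dd G v - ee G v w - 1))) := by
    intro z x
    have e1 : ∑ y, ee G v y * (nn y w * nn x y) * nn x w = nn x w * (dd G v - ee G v w - ee G v x) := by
      by_cases hxw : x = w
      · simp [nn, hxw]
      · have e2 : ∀ y, ee G v y * (nn y w * nn x y) * nn x w = ee G v y -
            (if y = w then ee G v y else 0) - (if y = x then ee G v y else 0) := by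
          intro y
          have e3 : nn x w = 1 := by simp [nn, hxw]
          rw [e3]
          by_cases hyw : y = w
          · have : ¬ w = x := fun h => hxw h.symm
            simp [nn, hyw, this]
          · by_cases hyx : y = x
            · simp [nn, hyx, hxw]
            · have : ¬ x = y := fun h => hyx h.symm
              simp [nn, hyw, hyx, this]
        simp only [e2, Finset.sum_sub_distrib]
        have e3 : nn x w = 1 := by simp [nn, hxw]
        rw [e3, one_mul]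
        simp [dd]
    have e4 : (∑ y, (if G.Adj v w then (1 : ℤ) else 0) *
      ((if G.Adj w z then 1 else 0) * (if z ≠ v then 1 else 0) * ((if G.Adj v x then 1 else 0) *
      ((if x ≠ w then 1 else 0) * ((if G.Adj v y then 1 else 0) * ((if y ≠ w then 1 else 0) *
      (if x ≠ y then 1 else 0))))))) = ∑ y, (ee G v w * (ee G w z * nn z v) * ee G v x) *
        (ee G v y * (nn y w * nn x y) * nn x w) := by
      refine Finset.sum_congr rfl fun y _ => ?_
      unfold ee nn
      ring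
    rw [e4, ← Finset.mul_sum, e1]
    have e5 := ee_sq (G := G) v x
    have e6 : ee G v x * (dd G v - ee G v w - ee G v x) = ee G v x * (dd G v - ee G v w - 1) := by
      rw [mul_sub, mul_sub _ _ (1 : ℤ), e5, mul_one]
    calc ee G v w * (ee G w z * nn z v) * ee G v x * (nn x w * (dd G v - ee G v w - ee G v x)) =
          ee G v w * (ee G w z * nn z v) * nn x w *
            (ee G v x * (dd G v - ee G v w - ee G v x)) := by ring
      _ = _ := by rw [e6]; ring
  refine (Finset.sum_congr rfl fun z _ => Finset.sum_congr rfl fun x _ => h0 z x).trans ?_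
  rw [sum_pair, sum_en, ← Finset.sum_mul, sum_en, ee_comm w v]
  unfold ee
  split_ifs
  · ring
  · ring

theorem count_star : Nat.card (SimpleGraph.Copy starG G) =
    ∑ v, (Fintype.card {w // G.Adj v w}).descFactorial 4 := by
  classical
  have h1 : Nat.card (SimpleGraph.Copy starG G) = Nat.card (Σ v, (Fin 4 ↪ {w // G.Adj v w})) := by
    refine Nat.card_congr ⟨fun f => ⟨f 0, ⟨fun i => ⟨f i.succ, ?_⟩, ?_⟩⟩, fun t =>
      ⟨⟨![t.1, (t.2 0 : V), (t.2 1 : V), (t.2 2 : V), (t.2 3 : V)], ?_⟩, ?_⟩, fun f => ?_,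
      fun t => ?_⟩
    · refine f.toHom.map_rel ?_
      fin_cases i <;> simp [starG]
    · intro i j hij
      have h2 := f.injective (Subtype.ext_iff.1 hij)
      exact Fin.succ_injective _ h2
    · intro a b hab
      simp only [starG, SimpleGraph.fromEdgeSet_adj] at hab
      obtain ⟨v, g⟩ := t
      have h3 : ∀ i, G.Adj v (g i) := fun i => (g i).2
      have h4 : ∀ i, G.Adj (g i : V) v := fun i => (g i).2.symm
      fin_cases a <;> fin_cases b <;> simp [h3, h4] at hab ⊢
    · obtain ⟨v, g⟩ := t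
      have h3 : ∀ i, v ≠ (g i : V) := fun i => (g i).2.ne
      have h4 : ∀ i j, i ≠ j → (g i : V) ≠ (g j : V) := fun i j hij he =>
        hij (g.injective (Subtype.ext he))
      exact inj5 (h3 0) (h3 1) (h3 2) (h3 3) (h4 _ _ (by decide)) (h4 _ _ (by decide))
        (h4 _ _ (by decide)) (h4 _ _ (by decide)) (h4 _ _ (by decide)) (h4 _ _ (by decide))
    · apply SimpleGraph.Copy.ext
      intro i
      fin_cases i <;> rfl
    · obtain ⟨v, g⟩ := t
      have : (⟨fun i => ⟨![v, (g 0 : V), (g 1 : V), (g 2 : V), (g 3 : V)] i.succ, by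
          fin_cases i
          · exact (g 0).2
          · exact (g 1).2
          · exact (g 2).2
          · exact (g 3).2⟩, by
          intro i j hij
          fin_cases i <;> fin_cases j <;> first | rfl | (exact absurd (g.injective (Subtype.ext (Subtype.ext_iff.1 hij))) (by decide))⟩ : Fin 4 ↪ {w // G.Adj v w}) = g := by
        ext i
        fin_cases i <;> rfl
      simp only [Sigma.mk.injEq]
      exact ⟨rfl, heq_of_eq this⟩
  rw [h1, Nat.card_eq_fintype_card, Fintype.card_sigma]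
  exact Finset.sum_congr rfl fun v _ => by rw [Fintype.card_embedding_eq, Fintype.card_fin]

end

end Pool.Agent.R241.FP
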