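import Pool.Agent.R241.FP2

/-!
# The caterpillars
-/

set_option autoImplicit false
set_option linter.unusedSectionVars false

open Finset

namespace Pool.Agent.R241.FP

/-- The degrees of the vertices of the spine. -/
def Dg (i : ℕ) : ℕ := if i % 4 < 2 then 11 else 2

/-- The numbers of the leaves. -/
def Lf (N i : ℕ) : ℕ := Dg i - (if i + 1 < N then 1 else 0) - (if 0 < i then 1 else 0)

/-- The vertices: `⟨i, none⟩` is the vertex `i` of the spine, `⟨i, some k⟩` a leaf attached to it. -/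
abbrev VT (N : ℕ) : Type := Σ i : Fin N, Option (Fin (Lf N i))

/-- The adjacency. -/
def adjT (N : ℕ) (a b : VT N) : Prop :=
  match a.2, b.2 with
  | none, none => a.1.val + 1 = b.1.val ∨ b.1.val + 1 = a.1.val
  | none, some _ => a.1.val = b.1.val
  | some _, none => a.1.val = b.1.val
  | some _, some _ => False

instance (N : ℕ) (a b : VT N) : Decidable (adjT N a b) := by
  unfold adjT
  split <;> infer_instance

/-- The caterpillar. -/
def TT (N : ℕ) : SimpleGraph (VT N) where
  Adj := adjT N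
  symm := ⟨by
    rintro ⟨i, _ | k⟩ ⟨j, _ | l⟩ h
    · have h' : i.val + 1 = j.val ∨ j.val + 1 = i.val := h
      exact h'.symm
    · exact Eq.symm h
    · exact Eq.symm h
    · exact h⟩
  loopless := ⟨by
    rintro ⟨i, _ | k⟩ h
    · have h' : i.val + 1 = i.val ∨ i.val + 1 = i.val := h
      omega
    · exact h⟩

instance (N : ℕ) : DecidableRel (TT N).Adj := fun a b =>
  inferInstanceAs (Decidable (adjT N a b))

theorem Lf_eq (N i : ℕ) :
    (Lf N i : ℤ) = Dg i - (if i + 1 < N then 1 else 0) - (if 0 < i then 1 else 0) := by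
  unfold Lf Dg
  split_ifs <;> simp

theorem sum_fin_val {N : ℕ} (f : ℕ → ℤ) : ∑ i : Fin N, f i.val = ∑ i ∈ range N, f i :=
  (Finset.sum_range f).symm

theorem sum_spine {N : ℕ} (i : Fin N) {F : VT N → ℤ} {γ : ℕ → ℤ} {c : ℤ}
    (h1 : ∀ j : Fin N, F ⟨j, none⟩ = γ j) (h2 : ∀ (j : Fin N) k, F ⟨j, some k⟩ = c) :
    ∑ w, ee (TT N) ⟨i, none⟩ w * F w =
      (if i.val + 1 < N then γ (i + 1) else 0) + (if 0 < i.val then γ (i - 1) else 0) +
        Lf N i * c := by
  rw [Fintype.sum_sigma]
  have e1 : ∀ j : Fin N, ∑ o : Option (Fin (Lf N j)), ee (TT N) ⟨i, none⟩ ⟨j, o⟩ * F ⟨j, o⟩ =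
      ((if j.val = i.val + 1 then γ j else 0) + (if j.val + 1 = i.val then γ j else 0)) +
        (if j.val = i.val then (Lf N j : ℤ) * c else 0) := by
    intro j
    rw [Fintype.sum_option, h1]
    congr 1
    · have : ee (TT N) ⟨i, none⟩ ⟨j, none⟩ =
          (if j.val = i.val + 1 then 1 else 0) + (if j.val + 1 = i.val then (1 : ℤ) else 0) := by
        unfold ee
        have hadj : (TT N).Adj ⟨i, none⟩ ⟨j, none⟩ ↔ i.val + 1 = j.val ∨ j.val + 1 = i.val := Iff.rfl
        rw [if_congr hadj rfl rfl]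
        split_ifs <;> omega
      rw [this, add_mul]
      split_ifs <;> simp
    · have : ∀ k, ee (TT N) ⟨i, none⟩ ⟨j, some k⟩ * F ⟨j, some k⟩ =
          if j.val = i.val then c else 0 := by
        intro k
        rw [h2]
        unfold ee
        have hadj : (TT N).Adj ⟨i, none⟩ ⟨j, some k⟩ ↔ i.val = j.val := Iff.rfl
        rw [if_congr hadj rfl rfl]
        split_ifs <;> omega
      simp only [this, Finset.sum_const, Finset.card_univ, Fintype.card_fin, nsmul_eq_mul]
      split_ifs <;> simp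
  simp only [e1]
  have e2 := sum_fin_val (N := N) fun j =>
      ((if j = i.val + 1 then γ j else 0) + (if j + 1 = i.val then γ j else 0)) +
        (if j = i.val then (Lf N j : ℤ) * c else 0)
  rw [e2, Finset.sum_add_distrib, Finset.sum_add_distrib, Finset.sum_ite_eq', Finset.sum_ite_eq']
  have e3 : ∑ j ∈ range N, (if j + 1 = i.val then γ j else 0) =
      if 0 < i.val then γ (i - 1) else 0 := by
    rcases Nat.eq_zero_or_pos i.val with h | h
    · rw [h, if_neg (by omega)]
      exact Finset.sum_eq_zero fun j _ => if_neg (by omega)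
    · rw [if_pos h]
      have : ∀ j ∈ range N, (if j + 1 = i.val then γ j else 0) =
          if j = i.val - 1 then γ j else 0 := fun j _ => by
        refine if_congr ?_ rfl rfl
        omega
      rw [Finset.sum_congr rfl this, Finset.sum_ite_eq', if_pos]
      rw [Finset.mem_range]
      omega
  rw [e3]
  have e4 : i.val ∈ range N := Finset.mem_range.2 i.2
  rw [if_pos e4]
  simp only [Finset.mem_range]

theorem sum_leaf {N : ℕ} (i : Fin N) (k : Fin (Lf N i)) {F : VT N → ℤ} {γ : ℕ → ℤ}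
    (h1 : ∀ j : Fin N, F ⟨j, none⟩ = γ j) :
    ∑ w, ee (TT N) ⟨i, some k⟩ w * F w = γ i := by
  rw [Fintype.sum_sigma]
  have e1 : ∀ j : Fin N, ∑ o : Option (Fin (Lf N j)), ee (TT N) ⟨i, some k⟩ ⟨j, o⟩ * F ⟨j, o⟩ =
      (if j.val = i.val then γ j else 0) := by
    intro j
    rw [Fintype.sum_option, h1]
    have e2 : ∀ l, ee (TT N) ⟨i, some k⟩ ⟨j, some l⟩ * F ⟨j, some l⟩ = 0 := by
      intro l
      have : ¬ (TT N).Adj ⟨i, some k⟩ ⟨j, some l⟩ := fun h => h
      unfold ee
      rw [if_neg this, zero_mul]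
    simp only [e2, Finset.sum_const_zero, add_zero]
    unfold ee
    have hadj : (TT N).Adj ⟨i, some k⟩ ⟨j, none⟩ ↔ i.val = j.val := Iff.rfl
    rw [if_congr hadj rfl rfl]
    split_ifs <;> omega
  simp only [e1]
  rw [sum_fin_val (N := N) fun j => if j = i.val then γ j else 0, Finset.sum_ite_eq',
    if_pos (Finset.mem_range.2 i.2)]

theorem dd_spine {N : ℕ} (i : Fin N) : dd (TT N) ⟨i, none⟩ = Dg i := by
  have := sum_spine i (F := fun _ => 1) (γ := fun _ => 1) (c := 1) (fun _ => rfl) fun _ _ => rfl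
  simp only [mul_one] at this
  unfold dd
  rw [this, Lf_eq]
  ring

theorem dd_leaf {N : ℕ} (i : Fin N) (k : Fin (Lf N i)) : dd (TT N) ⟨i, some k⟩ = 1 := by
  have := sum_leaf i k (F := fun _ => 1) (γ := fun _ => 1) fun _ => rfl
  simp only [mul_one] at this
  exact this

theorem sum_VT {N : ℕ} (F : VT N → ℤ) : ∑ v, F v = ∑ i : Fin N, (F ⟨i, none⟩ + ∑ k, F ⟨i, some k⟩) := by
  rw [Fintype.sum_sigma]
  exact Finset.sum_congr rfl fun i _ => Fintype.sum_option _

theorem degree_eq {N : ℕ} (v : VT N) : ((TT N).degree v : ℤ) = dd (TT N) v := by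
  unfold dd ee
  rw [← SimpleGraph.card_neighborFinset_eq_degree, Finset.sum_boole]
  congr 2
  ext w
  simp

theorem card_adj {N : ℕ} (v : VT N) :
    Fintype.card {w // (TT N).Adj v w} = (TT N).degree v := by
  rw [← SimpleGraph.card_neighborFinset_eq_degree, Fintype.card_subtype]
  congr 1
  ext w
  simp

theorem connected_TT {N : ℕ} (hN : 0 < N) : (TT N).Connected := by
  rw [SimpleGraph.connected_iff_exists_forall_reachable]
  refine ⟨⟨⟨0, hN⟩, none⟩, ?_⟩
  have h1 : ∀ i (hi : i < N), (TT N).Reachable ⟨⟨0, hN⟩, none⟩ ⟨⟨i, hi⟩, none⟩ := by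
    intro i
    induction i with
    | zero => exact fun _ => SimpleGraph.Reachable.refl _
    | succ i ih =>
      intro hi
      refine (ih (by omega)).trans (SimpleGraph.Adj.reachable ?_)
      exact Or.inl rfl
  rintro ⟨⟨i, hi⟩, _ | k⟩
  · exact h1 i hi
  · exact (h1 i hi).trans (SimpleGraph.Adj.reachable (show (TT N).Adj _ _ from rfl))

theorem sum_range_bdry (N : ℕ) (hN : 0 < N) :
    ∑ i ∈ range N, ((if i + 1 < N then (1 : ℤ) else 0) + (if 0 < i then 1 else 0)) = 2 * (N - 1) := by
  obtain ⟨n, rfl⟩ : ∃ n, N = n + 1 := ⟨N - 1, by omega⟩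
  rw [Finset.sum_add_distrib]
  have e1 : ∑ i ∈ range (n + 1), (if i + 1 < n + 1 then (1 : ℤ) else 0) = n := by
    rw [Finset.sum_range_succ, if_neg (by omega), add_zero]
    rw [Finset.sum_congr rfl fun i hi => if_pos (by have := Finset.mem_range.1 hi; omega)]
    simp
  have e2 : ∑ i ∈ range (n + 1), (if 0 < i then (1 : ℤ) else 0) = n := by
    rw [Finset.sum_range_succ', if_neg (by omega), add_zero]
    rw [Finset.sum_congr rfl fun i hi => if_pos (by omega)]
    simp
  rw [e1, e2]
  push_cast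
  ring

theorem isTree_TT {N : ℕ} (hN : 0 < N) : (TT N).IsTree := by
  rw [SimpleGraph.isTree_iff_connected_and_card]
  refine ⟨connected_TT hN, ?_⟩
  have h1 := (TT N).sum_degrees_eq_twice_card_edges
  have h2 : Nat.card (TT N).edgeSet = (TT N).edgeFinset.card := by
    rw [Nat.card_eq_fintype_card, SimpleGraph.edgeFinset_card]
  have h3 : (∑ v, (TT N).degree v : ℕ) = (2 * (TT N).edgeFinset.card : ℕ) := h1
  have h4 : (∑ v, dd (TT N) v) = 2 * ((TT N).edgeFinset.card : ℤ) := by
    have : ((∑ v, (TT N).degree v : ℕ) : ℤ) = ((2 * (TT N).edgeFinset.card : ℕ) : ℤ) := by rw [h3]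
    push_cast at this
    rw [← this]
    exact Finset.sum_congr rfl fun v _ => (degree_eq v).symm
  rw [sum_VT] at h4
  simp only [dd_spine, dd_leaf, Finset.sum_const, Finset.card_univ, Fintype.card_fin,
    nsmul_eq_mul, mul_one] at h4
  have h5 : (Fintype.card (VT N) : ℤ) = ∑ i : Fin N, (1 + (Lf N i : ℤ)) := by
    have := sum_VT (N := N) fun _ => 1
    simpa using this
  have h6 : ∀ i : Fin N, (Dg i : ℤ) + Lf N i = 2 * (1 + (Lf N i : ℤ)) - 2 +
      ((if i.val + 1 < N then (1 : ℤ) else 0) + (if 0 < i.val then 1 else 0)) := by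
    intro i
    have := Lf_eq N i
    linarith
  simp only [h6] at h4
  rw [Finset.sum_add_distrib, Finset.sum_sub_distrib, ← Finset.mul_sum, ← h5] at h4
  have h7 := sum_fin_val (N := N) fun i =>
    (if i + 1 < N then (1 : ℤ) else 0) + (if 0 < i then 1 else 0)
  rw [h7, sum_range_bdry N hN] at h4
  simp only [Finset.sum_const, Finset.card_univ, Fintype.card_fin, nsmul_eq_mul] at h4
  rw [h2, Nat.card_eq_fintype_card]
  have h8 : ((TT N).edgeFinset.card : ℤ) + 1 = Fintype.card (VT N) := by linarith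
  exact_mod_cast h8

theorem card_VT_ge (N : ℕ) : N ≤ Fintype.card (VT N) := by
  rw [Fintype.card_sigma]
  calc N = ∑ _i : Fin N, 1 := by simp
    _ ≤ ∑ i : Fin N, Fintype.card (Option (Fin (Lf N i))) :=
      Finset.sum_le_sum fun i _ => by rw [Fintype.card_option]; omega

/-- The products of the numbers at distance two. -/
theorem prod_two {i : ℕ} (hi : 0 < i) : ((Dg (i + 1) : ℤ) - 1) * (Dg (i - 1) - 1) = 10 := by
  obtain ⟨j, rfl⟩ : ∃ j, i = j + 1 := ⟨i - 1, by omega⟩
  rw [Nat.add_sub_cancel]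
  unfold Dg
  split_ifs <;> omega

theorem path_TT {N : ℕ} (hN : 2 ≤ N) :
    (Nat.card (SimpleGraph.Copy pathG (TT N)) : ℤ) = 20 * (N - 2) := by
  rw [count_path (isTree_TT (by omega)).isAcyclic, sum_VT]
  have h1 : ∀ i : Fin N, (((∑ w, ee (TT N) ⟨i, none⟩ w * (dd (TT N) w - 1)) ^ 2 -
      ∑ w, ee (TT N) ⟨i, none⟩ w * (dd (TT N) w - 1) ^ 2) +
      ∑ k, ((∑ w, ee (TT N) ⟨i, some k⟩ w * (dd (TT N) w - 1)) ^ 2 -
      ∑ w, ee (TT N) ⟨i, some k⟩ w * (dd (TT N) w - 1) ^ 2)) =
      if 0 < i.val ∧ i.val + 1 < N then 20 else 0 := by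
    intro i
    have e1 := sum_spine i (F := fun w => dd (TT N) w - 1) (γ := fun j => (Dg j : ℤ) - 1) (c := 0)
      (fun j => by simp only [dd_spine]) fun j k => by simp only [dd_leaf]; norm_num
    have e2 := sum_spine i (F := fun w => (dd (TT N) w - 1) ^ 2) (γ := fun j => ((Dg j : ℤ) - 1) ^ 2)
      (c := 0) (fun j => by simp only [dd_spine]) fun j k => by simp only [dd_leaf]; norm_num
    have e3 := fun k => sum_leaf i k (F := fun w => dd (TT N) w - 1) (γ := fun j => (Dg j : ℤ) - 1)
      (fun j => by simp only [dd_spine])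
    have e4 := fun k => sum_leaf i k (F := fun w => (dd (TT N) w - 1) ^ 2)
      (γ := fun j => ((Dg j : ℤ) - 1) ^ 2) (fun j => by simp only [dd_spine])
    simp only [e1, e2, e3, e4, sub_self, Finset.sum_const_zero, add_zero, mul_zero]
    rcases Nat.eq_zero_or_pos i.val with h0 | h0
    · rw [if_neg (show ¬ (0 < i.val) by omega), if_neg (show ¬ (0 < i.val) by omega),
        if_neg (show ¬ (0 < i.val ∧ i.val + 1 < N) by omega)]
      split_ifs <;> ring
    · by_cases h3 : i.val + 1 < N
      · rw [if_pos h3, if_pos h3, if_pos h0, if_pos h0, if_pos ⟨h0, h3⟩]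
        have := prod_two h0
        linear_combination 2 * this
      · rw [if_neg h3, if_neg h3, if_neg (show ¬ (0 < i.val ∧ i.val + 1 < N) by omega)]
        split_ifs <;> ring
  simp only [h1]
  rw [sum_fin_val (N := N) fun i => if 0 < i ∧ i + 1 < N then 20 else 0]
  obtain ⟨n, rfl⟩ : ∃ n, N = n + 2 := ⟨N - 2, by omega⟩
  rw [Finset.sum_range_succ, Finset.sum_range_succ', if_neg (by omega), if_neg (by omega)]
  rw [Finset.sum_congr rfl fun i hi => if_pos (by have := Finset.mem_range.1 hi; omega)]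
  simp only [Finset.sum_const, Finset.card_range, nsmul_eq_mul]
  push_cast
  ring

theorem fork_TT {n : ℕ} (hn : 0 < n) :
    (Nat.card (SimpleGraph.Copy forkG (TT (4 * n))) : ℤ) = 1980 * n - 90 := by
  rw [count_fork (isTree_TT (by omega)).isAcyclic, sum_VT]
  have h1 : ∀ i : Fin (4 * n), (((dd (TT (4 * n)) ⟨i, none⟩ - 1) * (dd (TT (4 * n)) ⟨i, none⟩ - 2) *
      ∑ w, ee (TT (4 * n)) ⟨i, none⟩ w * (dd (TT (4 * n)) w - 1)) +
      ∑ k, (dd (TT (4 * n)) ⟨i, some k⟩ - 1) * (dd (TT (4 * n)) ⟨i, some k⟩ - 2) *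
      ∑ w, ee (TT (4 * n)) ⟨i, some k⟩ w * (dd (TT (4 * n)) w - 1)) =
      if i.val % 4 = 0 then (if 0 < i.val then 990 else 900) else if i.val % 4 = 1 then 990 else 0 := by
    intro i
    have hi := i.2
    have e1 := sum_spine i (F := fun w => dd (TT (4 * n)) w - 1) (γ := fun j => (Dg j : ℤ) - 1)
      (c := 0) (fun j => by simp only [dd_spine]) fun j k => by simp only [dd_leaf]; norm_num
    simp only [dd_leaf, sub_self, zero_mul, Finset.sum_const_zero, add_zero, mul_zero, dd_spine, e1]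
    obtain ⟨q, r, hr, hq⟩ : ∃ q r, r < 4 ∧ i.val = 4 * q + r :=
      ⟨i.val / 4, i.val % 4, by omega, by omega⟩
    have hm : ∀ s, (4 * q + s) % 4 = s % 4 := fun s => by omega
    rw [hq]
    unfold Dg
    interval_cases r
    · rcases Nat.eq_zero_or_pos q with h0 | h0
      · subst h0
        have : 1 < 4 * n := by omega
        simp [this]
      · have a1 : (4 * q - 1) % 4 = 3 := by omega
        have a2 : (4 * q + 1) % 4 = 1 := by omega
        have a3 : 4 * q + 1 < 4 * n := by omega
        simp [a1, a2, a3, h0]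
    · have a2 : (4 * q + 1 + 1) % 4 = 2 := by omega
      have a3 : 4 * q + 1 + 1 < 4 * n := by omega
      have a4 : (4 * q + 1) % 4 = 1 := by omega
      simp [a2, a3, a4]
    · have a4 : (4 * q + 2) % 4 = 2 := by omega
      simp [a4]
    · have a4 : (4 * q + 3) % 4 = 3 := by omega
      simp [a4]
  simp only [h1]
  rw [sum_fin_val (N := 4 * n) fun i => if i % 4 = 0 then (if 0 < i then 990 else 900) else
    if i % 4 = 1 then 990 else 0]
  clear h1
  induction n, hn using Nat.le_induction with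
  | base => decide
  | succ n hn ih =>
    rw [show 4 * (n + 1) = 4 * n + 1 + 1 + 1 + 1 by ring]
    simp only [Finset.sum_range_succ, ih]
    have a0 : 4 * n % 4 = 0 := by omega
    have a1 : (4 * n + 1) % 4 = 1 := by omega
    have a2 : (4 * n + 1 + 1) % 4 = 2 := by omega
    have a3 : (4 * n + 1 + 1 + 1) % 4 = 3 := by omega
    have a4 : 0 < 4 * n := by omega
    rw [a0, a1, a2, a3, if_pos rfl, if_pos a4, if_neg (by norm_num), if_pos rfl,
      if_neg (by norm_num), if_neg (by norm_num), if_neg (by norm_num), if_neg (by norm_num)]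
    push_cast
    ring

theorem star_TT (n : ℕ) : Nat.card (SimpleGraph.Copy starG (TT (4 * n))) = 15840 * n := by
  rw [count_star]
  simp only [card_adj]
  rw [Fintype.sum_sigma]
  have hs : ∀ i : Fin (4 * n), (TT (4 * n)).degree ⟨i, none⟩ = Dg i := by
    intro i
    have := (degree_eq (N := 4 * n) ⟨i, none⟩).trans (dd_spine i)
    exact_mod_cast this
  have hl : ∀ (i : Fin (4 * n)) k, (TT (4 * n)).degree ⟨i, some k⟩ = 1 := by
    intro i k
    have := (degree_eq (N := 4 * n) ⟨i, some k⟩).trans (dd_leaf i k)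
    exact_mod_cast this
  have h1 : ∀ i : Fin (4 * n), ∑ o : Option (Fin (Lf (4 * n) i)),
      ((TT (4 * n)).degree ⟨i, o⟩).descFactorial 4 = if i.val % 4 < 2 then 7920 else 0 := by
    intro i
    rw [Fintype.sum_option]
    simp only [hs, hl]
    have : Nat.descFactorial 1 4 = 0 := by decide
    rw [this]
    simp only [Finset.sum_const_zero, add_zero]
    unfold Dg
    split_ifs <;> decide
  simp only [h1]
  rw [← Finset.sum_range fun i => if i % 4 < 2 then 7920 else 0]
  clear h1 hs hl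
  induction n with
  | zero => rfl
  | succ n ih =>
    rw [show 4 * (n + 1) = 4 * n + 1 + 1 + 1 + 1 by ring]
    simp only [Finset.sum_range_succ, ih]
    have a0 : 4 * n % 4 = 0 := by omega
    have a1 : (4 * n + 1) % 4 = 1 := by omega
    have a2 : (4 * n + 1 + 1) % 4 = 2 := by omega
    have a3 : (4 * n + 1 + 1 + 1) % 4 = 3 := by omega
    rw [a0, a1, a2, a3, if_pos (by norm_num), if_pos (by norm_num), if_neg (by norm_num),
      if_neg (by norm_num)]
    ring

end Pool.Agent.R241.FP
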