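import Mathlib

/-!
# Hyperbolic polynomial skew products: definitions
-/

set_option autoImplicit false

open Polynomial

namespace Pool.Agent.R241.SK

/-- The chordal distance on the Riemann sphere. -/
noncomputable def chordal (z w : ℂ) : ℝ :=
  ‖z - w‖ / (Real.sqrt (1 + ‖z‖ ^ 2) * Real.sqrt (1 + ‖w‖ ^ 2))

/-- The iterates `P (f^(n-1) y) ∘ ⋯ ∘ P (f y) ∘ P y` along the fibres of the skew product
`(y, z) ↦ (f y, P y z)`. -/
noncomputable def fib {Y : Type} (f : Y → Y) (P : Y → ℂ[X]) : ℕ → Y → ℂ → ℂ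
  | 0, _, z => z
  | n + 1, y, z => fib f P n (f y) ((P y).eval z)

/-- The skew product `(y, z) ↦ (f y, P y z)` is hyperbolic: the orbits of the critical points are
uniformly exponentially stable, in the chordal metric, from each time `m` on. -/
def Hyperbolic {Y : Type} (f : Y → Y) (P : Y → ℂ[X]) : Prop :=
  ∃ δ C θ : ℝ, 0 < δ ∧ 0 < θ ∧ θ < 1 ∧
    ∀ (y : Y) (c : ℂ), (derivative (P y)).eval c = 0 → ∀ (m : ℕ) (z : ℂ),
      ‖z - fib f P m y c‖ < δ → ∀ n : ℕ,
        chordal (fib f P n (f^[m] y) z) (fib f P n (f^[m] y) (fib f P m y c)) ≤ C * θ ^ n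

end Pool.Agent.R241.SK
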