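import Pool.Agent.R241.NR4
import Pool.Agent.R241.SKDef

/-!
# Hyperbolic polynomial skew products: contraction in the trapping region
-/

set_option autoImplicit false

open Filter Topology Set Metric Polynomial
open Pool.Agent.R241.NR

namespace Pool.Agent.R241.SK

theorem S_differentiable {g : ℂ → ℂ} (hg : Differentiable ℂ g) (b : ℕ → ℂ) (n : ℕ) :
    Differentiable ℂ (S g b n) := by
  induction n with
  | zero => exact differentiable_id
  | succ n ih => exact (hg.comp ih).add_const _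

/-- Robustly invariant sets: sequences of maps are uniformly contracting on them. -/
theorem contractS {g : ℂ → ℂ} (hg : Differentiable ℂ g) {L : Set ℂ} (hL : IsCompact L) {δ : ℝ}
    (hδ : 0 < δ) {A₀ : Set ℂ} (h : ∀ z ∈ L, ∀ a ∈ A₀, closedBall (g z + a) δ ⊆ L) :
    ∃ C θ : ℝ, 0 ≤ C ∧ 0 < θ ∧ θ < 1 ∧ ∀ b : ℕ → ℂ, (∀ i, b i ∈ A₀) → ∀ x ∈ L, ∀ n : ℕ,
      ‖deriv (S g b n) x‖ ≤ C * θ ^ n := by
  obtain ⟨R₀, hR0, hR⟩ : ∃ R₀ : ℝ, 0 < R₀ ∧ ∀ z ∈ L, ‖z‖ ≤ R₀ := by
    obtain ⟨B, hB⟩ := hL.isBounded.exists_norm_le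
    exact ⟨max B 1, by positivity, fun z hz => (hB z hz).trans (le_max_left _ _)⟩
  have hcd : Continuous (deriv g) := by
    have : ContDiff ℂ 1 g := hg.contDiff
    exact this.continuous_deriv le_rfl
  obtain ⟨M₀, hM1, hM⟩ : ∃ M₀ : ℝ, 1 ≤ M₀ ∧ ∀ z ∈ L, ‖deriv g z‖ ≤ M₀ := by
    obtain ⟨B, hB⟩ := (hL.image hcd).isBounded.exists_norm_le
    exact ⟨max B 1, le_max_right _ _, fun z hz => (hB _ (mem_image_of_mem _ hz)).trans
      (le_max_left _ _)⟩
  set κ : ℝ := δ / (2 * R₀) with hκ
  have hκ0 : 0 < κ := by positivity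
  set θ : ℝ := M₀ / (M₀ + κ) with hθ
  have hθ0 : 0 < θ := by positivity
  have hθ1 : θ < 1 := by rw [hθ, div_lt_one (by positivity)]; linarith
  have key : ∀ b : ℕ → ℂ, (∀ i, b i ∈ A₀) → ∀ y : ℂ, closedBall y δ ⊆ L → ∀ n : ℕ,
      ∃ G : ℂ → ℂ, Differentiable ℂ G ∧
      (∀ z ∈ closedBall y δ, G z ∈ L) ∧ G y = S g b n y ∧
      ‖deriv (S g b n) y‖ ≤ θ ^ n * ‖deriv G y‖ := by
    intro b hb y hy n
    have hyL : y ∈ L := hy (mem_closedBall_self hδ.le)
    induction n with
    | zero => exact ⟨id, differentiable_id, hy, rfl, by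
        have : S g b 0 = id := rfl
        rw [this]; simp⟩
    | succ n ih =>
      obtain ⟨G, hG, hGL, hGy, hGd⟩ := ih
      set x := S g b n y with hx
      have hxL : x ∈ L := by
        rw [← hGy]; exact hGL y (mem_closedBall_self hδ.le)
      obtain ⟨k, hk1, hk2⟩ : ∃ k : ℂ, ‖k‖ = κ ∧ ‖deriv g x + k‖ = ‖deriv g x‖ + κ := by
        by_cases h0 : deriv g x = 0
        · refine ⟨(κ : ℂ), ?_, ?_⟩
          · rw [Complex.norm_real, Real.norm_eq_abs, abs_of_pos hκ0]
          · rw [h0, zero_add, norm_zero, zero_add, Complex.norm_real, Real.norm_eq_abs,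
              abs_of_pos hκ0]
        · have hn : 0 < ‖deriv g x‖ := norm_pos_iff.2 h0
          refine ⟨((κ / ‖deriv g x‖ : ℝ) : ℂ) * deriv g x, ?_, ?_⟩
          · rw [norm_mul, Complex.norm_real, Real.norm_eq_abs, abs_of_pos (by positivity)]
            field_simp
          · have : deriv g x + ((κ / ‖deriv g x‖ : ℝ) : ℂ) * deriv g x =
                ((1 + κ / ‖deriv g x‖ : ℝ) : ℂ) * deriv g x := by push_cast; ring
            rw [this, norm_mul, Complex.norm_real, Real.norm_eq_abs, abs_of_pos (by positivity)]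
            field_simp
      refine ⟨fun z => g (G z) + b n + k * (G z - x), ?_, ?_, ?_, ?_⟩
      · exact ((hg.comp hG).add_const _).add
          ((differentiable_const k).mul (hG.sub (differentiable_const x)))
      · intro z hz
        apply h (G z) (hGL z hz) (b n) (hb n)
        rw [mem_closedBall, dist_eq_norm, add_sub_cancel_left, norm_mul, hk1]
        have h1 : ‖G z - x‖ ≤ 2 * R₀ := by
          refine (norm_sub_le _ _).trans ?_
          have := hR _ (hGL z hz); have := hR _ hxL; linarith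
        calc κ * ‖G z - x‖ ≤ κ * (2 * R₀) := by gcongr
          _ = δ := by rw [hκ]; field_simp
      · simp only [hGy, sub_self, mul_zero, add_zero]
        rfl
      · have hd1 : HasDerivAt (fun z => g (G z) + b n + k * (G z - x))
            (deriv g x * deriv G y + k * deriv G y) y := by
          have h1 : HasDerivAt g (deriv g x) (G y) := by
            rw [hGy]; exact (hg x).hasDerivAt
          have h2 : HasDerivAt G (deriv G y) y := (hG y).hasDerivAt
          exact ((h1.comp y h2).add_const _).add ((h2.sub_const x).const_mul k)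
        rw [hd1.deriv, ← add_mul, norm_mul, hk2]
        have hd2 : deriv (S g b (n + 1)) y = deriv g x * deriv (S g b n) y := by
          have h3 : HasDerivAt (S g b (n + 1)) (deriv g x * deriv (S g b n) y) y :=
            (((hg x).hasDerivAt.comp y ((S_differentiable hg b n) y).hasDerivAt)).add_const _
          exact h3.deriv
        rw [hd2, norm_mul, pow_succ]
        have hm : ‖deriv g x‖ ≤ θ * (‖deriv g x‖ + κ) := by
          rw [hθ, div_mul_eq_mul_div, le_div_iff₀ (by positivity)]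
          have := hM x hxL
          nlinarith
        calc ‖deriv g x‖ * ‖deriv (S g b n) y‖
            ≤ (θ * (‖deriv g x‖ + κ)) * (θ ^ n * ‖deriv G y‖) := by gcongr
          _ = _ := by ring
  have key2 : ∀ b : ℕ → ℂ, (∀ i, b i ∈ A₀) → ∀ y : ℂ, closedBall y δ ⊆ L → ∀ n : ℕ,
      ‖deriv (S g b n) y‖ ≤ θ ^ n * (R₀ / δ) := by
    intro b hb y hy n
    obtain ⟨G, hG, hGL, -, hGd⟩ := key b hb y hy n
    refine hGd.trans ?_
    have : ‖deriv G y‖ ≤ R₀ / δ :=
      Complex.norm_deriv_le_of_forall_mem_sphere_norm_le hδ hG.diffContOnCl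
        (fun z hz => hR _ (hGL z (sphere_subset_closedBall hz)))
    gcongr
  refine ⟨1 + R₀ / δ * M₀ / θ, θ, by positivity, hθ0, hθ1, fun b hb x hx n => ?_⟩
  rcases n with _ | n
  · have : S g b 0 = id := rfl
    rw [this]
    simp only [deriv_id, norm_one, pow_zero, mul_one]
    have : 0 ≤ R₀ / δ * M₀ / θ := by positivity
    linarith
  · have hd : deriv (S g b (n + 1)) x =
        deriv (S g (fun i => b (i + 1)) n) (g x + b 0) * deriv g x := by
      have h1 : S g b (n + 1) = fun z => S g (fun i => b (i + 1)) n (g z + b 0) := by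
        funext z; exact S_head g b n z
      rw [h1]
      exact ((S_differentiable hg _ n (g x + b 0)).hasDerivAt.comp x
        ((hg x).hasDerivAt.add_const (b 0))).deriv
    rw [hd, norm_mul]
    have h1 := key2 (fun i => b (i + 1)) (fun i => hb _) (g x + b 0) (h x hx _ (hb 0)) n
    have h2 := hM x hx
    calc ‖deriv (S g (fun i => b (i + 1)) n) (g x + b 0)‖ * ‖deriv g x‖
        ≤ (θ ^ n * (R₀ / δ)) * M₀ := by gcongr
      _ = (R₀ / δ * M₀ / θ) * θ ^ (n + 1) := by rw [pow_succ]; field_simp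
      _ ≤ (1 + R₀ / δ * M₀ / θ) * θ ^ (n + 1) := by
        gcongr; linarith

/-- Contraction on balls in the trapping region. -/
theorem contract_ball {g : ℂ → ℂ} (hg : Differentiable ℂ g) {L : Set ℂ} {C θ : ℝ} {b : ℕ → ℂ}
    (h : ∀ x ∈ L, ∀ n : ℕ, ‖deriv (S g b n) x‖ ≤ C * θ ^ n) {y w : ℂ} {r : ℝ}
    (hr : closedBall y r ⊆ L) (hw : w ∈ closedBall y r) (n : ℕ) :
    ‖S g b n w - S g b n y‖ ≤ C * θ ^ n * ‖w - y‖ :=
  (convex_closedBall y r).norm_image_sub_le_of_norm_deriv_le
    (f := S g b n) (C := C * θ ^ n)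
    (fun u _ => (S_differentiable hg b n) u) (fun u hu => h u (hr hu) n)
    (mem_closedBall_self (dist_nonneg.trans (mem_closedBall.1 hw))) hw

end Pool.Agent.R241.SK
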