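import Pool.Agent.R241.NR1
import Pool.Agent.R241.SK1

/-!
# Non-autonomous perturbations: block estimates
-/

set_option autoImplicit false

open Filter Topology Set Metric
open Pool.Agent.R241.NR

namespace Pool.Agent.R241.NA

open Pool.Agent.R241.SK (S_differentiable)

theorem prod_bound {x u : ℕ → ℝ} {M : ℝ} {N : ℕ} (_hx : ∀ i, 0 ≤ x i)
    (h0 : u 0 = 0) (hs : ∀ n, u (n + 1) = x n * u n + 1) (hM : ∀ n ≤ N, u n ≤ M) (hM0 : 0 < M)
    (n : ℕ) (hn : n + 1 ≤ N) :
    ∏ i ∈ Finset.range n, x (i + 1) ≤ u (n + 1) * (1 - 1 / M) ^ n := by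
  have hM1 : 1 ≤ M := by
    have h1 := hM 1 (by omega)
    rw [hs, h0] at h1
    linarith
  have hθ : 0 ≤ 1 - 1 / M := by
    rw [sub_nonneg, div_le_one hM0]; exact hM1
  induction n with
  | zero => rw [hs, h0]; simp
  | succ n ih =>
    rw [Finset.prod_range_succ, pow_succ]
    have h1 := ih (by omega)
    have h2 := hM (n + 1 + 1) hn
    have h3 : u (n + 1 + 1) - 1 ≤ u (n + 1 + 1) * (1 - 1 / M) := by
      have : u (n + 1 + 1) * (1 / M) ≤ 1 := by
        rw [mul_one_div, div_le_one hM0]; exact h2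
      linarith
    have h4 := hs (n + 1)
    calc (∏ i ∈ Finset.range n, x (i + 1)) * x (n + 1)
        ≤ (u (n + 1) * (1 - 1 / M) ^ n) * x (n + 1) := by
          gcongr
          exact _hx _
      _ = (u (n + 1 + 1) - 1) * (1 - 1 / M) ^ n := by rw [h4]; ring
      _ ≤ (u (n + 1 + 1) * (1 - 1 / M)) * (1 - 1 / M) ^ n := by gcongr
      _ = _ := by ring

theorem hasDerivAt_S {g : ℂ → ℂ} (hg : Differentiable ℂ g) (v : ℕ → ℂ) (n : ℕ) (y : ℂ) :
    HasDerivAt (S g v n) (∏ i ∈ Finset.range n, deriv g (S g v i y)) y := by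
  induction n with
  | zero =>
    have : S g v 0 = id := rfl
    rw [this]; simpa using hasDerivAt_id y
  | succ n ih =>
    rw [Finset.prod_range_succ, mul_comm]
    exact (((hg _).hasDerivAt.comp y ih)).add_const _

/-- The phase of a complex number. -/
noncomputable def phase (x : ℂ) : ℂ := if x = 0 then 1 else x / (‖x‖ : ℂ)

theorem norm_phase (x : ℂ) : ‖phase x‖ = 1 := by
  unfold phase
  split_ifs with h
  · simp
  · rw [norm_div, Complex.norm_real, norm_norm, div_self (norm_ne_zero_iff.2 h)]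

theorem norm_add_phase (x : ℂ) : ‖x + phase x‖ = ‖x‖ + 1 := by
  unfold phase
  split_ifs with h
  · rw [h]; simp
  · have hx : 0 < ‖x‖ := norm_pos_iff.2 h
    have h1 : x + x / (‖x‖ : ℂ) = x * ((1 + 1 / ‖x‖ : ℝ) : ℂ) := by push_cast; ring
    rw [h1, norm_mul, Complex.norm_real, Real.norm_eq_abs, abs_of_pos (by positivity)]
    field_simp

/-- Derivatives along orbits which stay bounded under all small kicks. -/
theorem deriv_bound {g : ℂ → ℂ} (hg : Differentiable ℂ g) {v : ℕ → ℂ} {y : ℂ} {e B L : ℝ}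
    (he : 0 < e) (hB0 : 0 < B) {N : ℕ}
    (hB : ∀ a : ℕ → ℂ, (∀ i, ‖a i‖ ≤ e) → ∀ n ≤ N, ‖S g (fun i => v i + a i) n y‖ ≤ B)
    (hL : ‖deriv g y‖ ≤ L) (n : ℕ) (hn : n + 1 ≤ N) :
    ‖deriv (S g v (n + 1)) y‖ ≤ L * ((B / e) * (1 - 1 / (B / e)) ^ n) := by
  set x : ℕ → ℝ := fun i => ‖deriv g (S g v i y)‖ with hx
  -- the kicks
  let U : ℕ → ℂ := fun n => Nat.rec (0 : ℂ) (fun k r => deriv g (S g v k y) * r +
    phase (deriv g (S g v k y) * r)) n
  have hU0 : U 0 = 0 := rfl
  have hUs : ∀ k, U (k + 1) = deriv g (S g v k y) * U k + phase (deriv g (S g v k y) * U k) :=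
    fun k => rfl
  set E : ℕ → ℂ := fun k => phase (deriv g (S g v k y) * U k) with hE
  have hder : ∀ k, HasDerivAt (fun ζ : ℂ => S g (fun i => v i + ζ * E i) k y) (U k) 0 := by
    intro k
    induction k with
    | zero => rw [hU0]; exact hasDerivAt_const _ _
    | succ k ih =>
      rw [hUs]
      have h1 : HasDerivAt g (deriv g (S g v k y))
          ((fun ζ : ℂ => S g (fun i => v i + ζ * E i) k y) 0) := by
        simp only [zero_mul, add_zero]
        exact (hg _).hasDerivAt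
      have h2 := h1.comp 0 ih
      have h3 : HasDerivAt (fun ζ : ℂ => v k + ζ * E k) (E k) 0 := by
        have := ((hasDerivAt_id (0 : ℂ)).mul_const (E k)).const_add (v k)
        simpa using this
      exact h2.add h3
  have hdiff : ∀ k, Differentiable ℂ (fun ζ : ℂ => S g (fun i => v i + ζ * E i) k y) := by
    intro k
    induction k with
    | zero => exact differentiable_const _
    | succ k ih =>
      have h3 : Differentiable ℂ (fun ζ : ℂ => v k + ζ * E k) := by fun_prop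
      exact (hg.comp ih).add h3
  have hUn : ∀ k ≤ N, ‖U k‖ ≤ B / e := by
    intro k hk
    rw [← (hder k).deriv]
    refine Complex.norm_deriv_le_of_forall_mem_sphere_norm_le he (hdiff k).diffContOnCl ?_
    intro ζ hζ
    rw [mem_sphere_zero_iff_norm] at hζ
    refine hB (fun i => ζ * E i) (fun i => ?_) k hk
    rw [norm_mul, hζ, hE]
    simp only
    rw [norm_phase, mul_one]
  have hu := prod_bound (x := x) (u := fun k => ‖U k‖) (M := B / e) (N := N)
    (fun i => norm_nonneg _) (by simp only [hU0, norm_zero]) (fun k => by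
      rw [hUs, norm_add_phase, norm_mul]) hUn (by positivity) n hn
  rw [(hasDerivAt_S hg v (n + 1) y).deriv, Finset.prod_range_succ', norm_mul, norm_prod, mul_comm]
  have h1 : 0 ≤ 1 - 1 / (B / e) := by
    have h2 : ‖U (0 + 1)‖ ≤ B / e := hUn (0 + 1) (by omega)
    rw [hUs, norm_add_phase, hU0, mul_zero, norm_zero, zero_add] at h2
    rw [sub_nonneg, div_le_one (by positivity)]; exact h2
  have hL0 : 0 ≤ L := (norm_nonneg _).trans hL
  have h3 : ‖deriv g (S g v 0 y)‖ ≤ L := hL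
  have h4 : ∏ i ∈ Finset.range n, ‖deriv g (S g v (i + 1) y)‖ ≤
      (B / e) * (1 - 1 / (B / e)) ^ n := by
    refine hu.trans ?_
    gcongr
    exact hUn _ hn
  exact mul_le_mul h3 h4 (Finset.prod_nonneg fun i _ => norm_nonneg _) hL0

/-- Contraction over a block. -/
theorem B_contract {g : ℂ → ℂ} (hg : Differentiable ℂ g) {v : ℕ → ℂ} {z : ℂ} {e B L : ℝ}
    (he : 0 < e) (hB0 : 0 < B) {m : ℕ}
    (hB : ∀ a : ℕ → ℂ, (∀ i, ‖a i‖ ≤ e) → ∀ n ≤ m + 2, ‖S g (fun i => v i + a i) n z‖ ≤ B)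
    (hL1 : ∀ y : ℂ, ‖y‖ ≤ B → ‖deriv g y‖ ≤ L)
    {w : ℂ} (hw : ‖g w - g z‖ ≤ e) :
    ‖S g v (m + 2) w - S g v (m + 2) z‖ ≤
      L * ((B / e) * (1 - 1 / (B / e)) ^ m) * ‖g w - g z‖ := by
  rw [S_head g v (m + 1) w, S_head g v (m + 1) z]
  set v' : ℕ → ℂ := fun i => v (i + 1) with hv'
  set z₁ : ℂ := g z + v 0 with hz₁
  have hy : ∀ y ∈ closedBall z₁ e, ∀ a : ℕ → ℂ, (∀ i, ‖a i‖ ≤ e) → ∀ n ≤ m + 1,
      ‖S g (fun i => v' i + a i) n y‖ ≤ B := by
    intro y hy a ha n hn
    rw [mem_closedBall, dist_eq_norm] at hy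
    have h1 := hB (fun i => Nat.casesOn i (y - z₁) a) (fun i => by
      cases i with
      | zero => exact hy
      | succ i => exact ha i) (n + 1) (by omega)
    rw [S_head] at h1
    have h2 : g z + (v 0 + (y - z₁)) = y := by rw [hz₁]; ring
    have h3 : ‖S g (fun i => v (i + 1) + a i) n (g z + (v 0 + (y - z₁)))‖ ≤ B := h1
    rw [h2] at h3
    exact h3
  have hder : ∀ y ∈ closedBall z₁ e, ‖deriv (S g v' (m + 1)) y‖ ≤
      L * ((B / e) * (1 - 1 / (B / e)) ^ m) := by
    intro y hyy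
    refine deriv_bound hg he hB0 (N := m + 1) (hy y hyy) (hL1 y ?_) m le_rfl
    exact hy y hyy (fun _ => 0) (fun _ => by rw [norm_zero]; exact he.le) 0 (by omega)
  have h1 := (convex_closedBall z₁ e).norm_image_sub_le_of_norm_deriv_le
    (f := S g v' (m + 1)) (C := L * ((B / e) * (1 - 1 / (B / e)) ^ m))
    (fun u _ => (S_differentiable hg v' (m + 1)) u) hder
    (mem_closedBall_self he.le) (y := g w + v 0) (by
      rw [mem_closedBall, dist_eq_norm, hz₁]
      have : g w + v 0 - (g z + v 0) = g w - g z := by ring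
      rw [this]; exact hw)
  have h2 : g w + v 0 - z₁ = g w - g z := by rw [hz₁]; ring
  rw [h2] at h1
  exact h1

end Pool.Agent.R241.NA
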