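import Mathlib

/-!
# A greedy choice lemma
-/

set_option autoImplicit false

namespace Pool.Agent.R241.NA

variable {Z Ω : Type}

/-- The trajectory of `z`, starting at time `j`. -/
def pos (F : ℕ → Ω → Z → Z) (ω : ℕ → Ω) (j : ℕ) : ℕ → Z → Z
  | 0, z => z
  | n + 1, z => F (j + n) (ω (j + n)) (pos F ω j n z)

/-- The product of the multipliers along the trajectory of `z`. -/
def wt (F : ℕ → Ω → Z → Z) (G : ℕ → Ω → Z → ℝ) (ω : ℕ → Ω) (j : ℕ) : ℕ → Z → ℝ
  | 0, _ => 1
  | n + 1, z => wt F G ω j n z * G (j + n) (ω (j + n)) (pos F ω j n z)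

/-- The next state. -/
def step (F : ℕ → Ω → Z → Z) (G : ℕ → Ω → Z → ℝ) (E : ℕ → Ω → List Z) (k : ℕ) (ω : Ω)
    (st : List (Z × ℝ)) : List (Z × ℝ) :=
  st.map (fun p => (F k ω p.1, p.2 * G k ω p.1)) ++ (E k ω).map fun z => (z, 1)

/-- The total weight. -/
def total (st : List (Z × ℝ)) : ℝ := (st.map Prod.snd).sum

theorem total_step (F : ℕ → Ω → Z → Z) (G : ℕ → Ω → Z → ℝ) (E : ℕ → Ω → List Z) (k : ℕ) (ω : Ω)
    (st : List (Z × ℝ)) :
    total (step F G E k ω st) = (st.map fun p => p.2 * G k ω p.1).sum + (E k ω).length := by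
  unfold total step
  rw [List.map_append, List.sum_append, List.map_map, List.map_map]
  congr 1
  simp [Function.comp_def]

theorem avg [Fintype Ω] {μ : Ω → ℝ} {G : ℕ → Ω → Z → ℝ}
    {β : ℝ} {k : ℕ} (hG : ∀ z, ∑ ω, μ ω * G k ω z ≤ β) (st : List (Z × ℝ))
    (hst : ∀ p ∈ st, 0 ≤ p.2) :
    ∑ ω, μ ω * (st.map fun p => p.2 * G k ω p.1).sum ≤ β * total st := by
  induction st with
  | nil => simp [total]
  | cons p st ih =>
    have h1 := ih fun q hq => hst q (List.mem_cons_of_mem _ hq)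
    have h2 := hst p List.mem_cons_self
    have h3 : ∑ ω, μ ω * (((p :: st).map fun p => p.2 * G k ω p.1).sum) =
        p.2 * ∑ ω, μ ω * G k ω p.1 + ∑ ω, μ ω * (st.map fun p => p.2 * G k ω p.1).sum := by
      rw [Finset.mul_sum, ← Finset.sum_add_distrib]
      refine Finset.sum_congr rfl fun ω _ => ?_
      rw [List.map_cons, List.sum_cons]; ring
    have h4 : total (p :: st) = p.2 + total st := by
      simp [total]
    rw [h3, h4]
    have h5 := mul_le_mul_of_nonneg_left (hG p.1) h2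
    linarith

/-- The greedy choice: all weights stay bounded. -/
theorem greedy [Fintype Ω] {μ : Ω → ℝ} (hμ0 : ∀ ω, 0 ≤ μ ω) (hμ1 : ∑ ω, μ ω = 1)
    (F : ℕ → Ω → Z → Z) (G : ℕ → Ω → Z → ℝ) (hG0 : ∀ k ω z, 0 ≤ G k ω z) {β : ℝ}
    (hβ0 : 0 ≤ β) (hβ1 : β < 1) (hG : ∀ k z, ∑ ω, μ ω * G k ω z ≤ β) (E : ℕ → Ω → List Z) {E₀ : ℝ}
    (hE : ∀ k ω, ((E k ω).length : ℝ) ≤ E₀) :
    ∃ ω : ℕ → Ω, ∀ j, ∀ z ∈ E j (ω j), ∀ n : ℕ, wt F G ω (j + 1) n z ≤ E₀ / (1 - β) := by
  classical
  have hne : ∃ ω, 0 < μ ω := by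
    by_contra hcon
    push Not at hcon
    have : ∑ ω, μ ω ≤ 0 := Finset.sum_nonpos fun ω _ => hcon ω
    linarith
  have hE0 : 0 ≤ E₀ := by
    obtain ⟨ω, -⟩ := hne
    exact (Nat.cast_nonneg _).trans (hE 0 ω)
  set C : ℝ := E₀ / (1 - β) with hC
  have hC0 : 0 ≤ C := div_nonneg hE0 (by linarith)
  have hCeq : β * C + E₀ = C := by
    have h1 : (1 - β) ≠ 0 := by linarith
    rw [hC, eq_div_iff h1, add_mul, mul_assoc, div_mul_cancel₀ _ h1]; ring
  have hpick : ∀ (k : ℕ) (st : List (Z × ℝ)), ∃ ω : Ω, (∀ p ∈ st, 0 ≤ p.2) →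
      total (step F G E k ω st) ≤ β * total st + E₀ := by
    intro k st
    by_cases hst : ∀ p ∈ st, 0 ≤ p.2
    · by_contra hcon
      push Not at hcon
      have h1 := avg (μ := μ) (k := k) (hG k) st hst
      obtain ⟨ω₀, hω₀⟩ := hne
      have h2 : ∑ ω, μ ω * (β * total st + E₀) < ∑ ω, μ ω * total (step F G E k ω st) := by
        refine Finset.sum_lt_sum (fun ω _ => ?_) ⟨ω₀, Finset.mem_univ _, ?_⟩
        · exact mul_le_mul_of_nonneg_left (hcon ω).2.le (hμ0 ω)
        · exact mul_lt_mul_of_pos_left (hcon ω₀).2 hω₀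
      rw [← Finset.sum_mul, hμ1, one_mul] at h2
      have h3 : ∑ ω, μ ω * total (step F G E k ω st) ≤ β * total st + E₀ := by
        calc ∑ ω, μ ω * total (step F G E k ω st)
            = ∑ ω, μ ω * (st.map fun p => p.2 * G k ω p.1).sum +
              ∑ ω, μ ω * ((E k ω).length : ℝ) := by
              rw [← Finset.sum_add_distrib]
              refine Finset.sum_congr rfl fun ω _ => ?_
              rw [total_step]; ring
          _ ≤ β * total st + ∑ ω, μ ω * E₀ := by
              refine add_le_add h1 (Finset.sum_le_sum fun ω _ => ?_)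
              exact mul_le_mul_of_nonneg_left (hE k ω) (hμ0 ω)
          _ = _ := by rw [← Finset.sum_mul, hμ1, one_mul]
      linarith
    · obtain ⟨ω, -⟩ := hne
      exact ⟨ω, fun h => absurd h hst⟩
  choose pick hpick using hpick
  let s : ℕ → List (Z × ℝ) := fun n => Nat.rec [] (fun k st => step F G E k (pick k st) st) n
  have hs0 : s 0 = [] := rfl
  have hs : ∀ k, s (k + 1) = step F G E k (pick k (s k)) (s k) := fun k => rfl
  have hinv : ∀ k, (∀ p ∈ s k, 0 ≤ p.2) ∧ total (s k) ≤ C := by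
    intro k
    induction k with
    | zero => rw [hs0]; simp [total, hC0]
    | succ k ih =>
      obtain ⟨h1, h2⟩ := ih
      rw [hs]
      constructor
      · intro p hp
        rw [step, List.mem_append, List.mem_map, List.mem_map] at hp
        rcases hp with ⟨q, hq, rfl⟩ | ⟨z, -, rfl⟩
        · exact mul_nonneg (h1 q hq) (hG0 _ _ _)
        · exact zero_le_one
      · refine (hpick k (s k) h1).trans ?_
        have := mul_le_mul_of_nonneg_left h2 hβ0
        linarith
  refine ⟨fun k => pick k (s k), fun j z hz n => ?_⟩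
  have hmem : (pos F (fun k => pick k (s k)) (j + 1) n z,
      wt F G (fun k => pick k (s k)) (j + 1) n z) ∈ s (j + 1 + n) := by
    induction n with
    | zero =>
      rw [Nat.add_zero, hs, step, List.mem_append]
      right
      exact List.mem_map.2 ⟨z, hz, rfl⟩
    | succ n ih =>
      rw [show j + 1 + (n + 1) = (j + 1 + n) + 1 by ring, hs, step, List.mem_append]
      left
      exact List.mem_map.2 ⟨_, ih, rfl⟩
  have h1 := hinv (j + 1 + n)
  refine le_trans ?_ h1.2
  refine List.single_le_sum ?_ _ (List.mem_map.2 ⟨_, hmem, rfl⟩)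
  intro x hx
  obtain ⟨p, hp, rfl⟩ := List.mem_map.1 hx
  exact h1.1 p hp

end Pool.Agent.R241.NA
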