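import Pool.Agent.R241.NA1

/-!
# Non-autonomous perturbations: estimates for `z ↦ z ^ d + u`
-/

set_option autoImplicit false

open Filter Topology Set Metric
open Pool.Agent.R241.NR

namespace Pool.Agent.R241.NA

variable {d : ℕ} {R : ℝ}

theorem pow_ge_sq (hd : 2 ≤ d) {x : ℝ} (hx : 1 ≤ x) : x ^ 2 ≤ x ^ d := pow_le_pow_right₀ hx hd

theorem grow (hd : 2 ≤ d) (hR : 0 ≤ R) {z u : ℂ} (hz : R + 16 ≤ ‖z‖) (hu : ‖u‖ ≤ R) :
    2 * ‖z‖ ≤ ‖z ^ d + u‖ := by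
  have h1 := pow_ge_sq hd (show (1 : ℝ) ≤ ‖z‖ by linarith)
  have h2 : ‖z‖ ^ d - ‖u‖ ≤ ‖z ^ d + u‖ := by
    have := norm_sub_norm_le (z ^ d) (-u)
    rw [norm_neg, sub_neg_eq_add, norm_pow] at this
    exact this
  nlinarith

theorem half (hd : 2 ≤ d) (hR : 0 ≤ R) {z u : ℂ} (hz : R + 16 ≤ ‖z‖) (hu : ‖u‖ ≤ R) :
    ‖z‖ ^ d ≤ 2 * ‖z ^ d + u‖ := by
  have h1 := pow_ge_sq hd (show (1 : ℝ) ≤ ‖z‖ by linarith)
  have h2 : ‖z‖ ^ d - ‖u‖ ≤ ‖z ^ d + u‖ := by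
    have := norm_sub_norm_le (z ^ d) (-u)
    rw [norm_neg, sub_neg_eq_add, norm_pow] at this
    exact this
  nlinarith

theorem sub_pow_le (z w : ℂ) :
    ‖z ^ d - w ^ d‖ ≤ (∑ i ∈ Finset.range d, ‖z‖ ^ i * ‖w‖ ^ (d - 1 - i)) * ‖z - w‖ := by
  rw [← (Commute.all z w).geom_sum₂_mul d, norm_mul]
  gcongr
  refine (norm_sum_le _ _).trans (Finset.sum_le_sum fun i _ => ?_)
  rw [norm_mul, norm_pow, norm_pow]

theorem lip {r : ℝ} {z w : ℂ} (hz : ‖z‖ ≤ r) (hw : ‖w‖ ≤ r) :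
    ‖z ^ d - w ^ d‖ ≤ d * r ^ (d - 1) * ‖z - w‖ := by
  have hr : 0 ≤ r := (norm_nonneg _).trans hz
  refine (sub_pow_le z w).trans ?_
  gcongr
  calc ∑ i ∈ Finset.range d, ‖z‖ ^ i * ‖w‖ ^ (d - 1 - i)
      ≤ ∑ i ∈ Finset.range d, r ^ (d - 1) := by
        refine Finset.sum_le_sum fun i hi => ?_
        have hi' := Finset.mem_range.1 hi
        calc ‖z‖ ^ i * ‖w‖ ^ (d - 1 - i) ≤ r ^ i * r ^ (d - 1 - i) := by gcongr
          _ = r ^ (d - 1) := by rw [← pow_add]; congr 1; omega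
    _ = _ := by rw [Finset.sum_const, Finset.card_range, nsmul_eq_mul]

theorem eight_mul_le (hd : 2 ≤ d) : (8 : ℝ) * d ≤ 16 ^ (d - 1) := by
  obtain ⟨k, rfl⟩ : ∃ k, d = k + 2 := ⟨d - 2, by omega⟩
  clear hd
  rw [show k + 2 - 1 = k + 1 by omega]
  induction k with
  | zero => norm_num
  | succ k ih =>
    rw [pow_succ]
    push_cast at ih ⊢
    nlinarith

theorem inv_contract (hd : 2 ≤ d) (hR : 0 ≤ R) {z w u : ℂ} (hz : R + 16 ≤ ‖z‖)
    (hw : R + 16 ≤ ‖w‖) (hu : ‖u‖ ≤ R) :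
    2 * (‖(z ^ d + u) - (w ^ d + u)‖ * (‖z‖ * ‖w‖)) ≤
      ‖z - w‖ * (‖z ^ d + u‖ * ‖w ^ d + u‖) := by
  have h1 := half hd hR hz hu
  have h2 := half hd hR hw hu
  have hz16 : 16 ≤ ‖z‖ := by linarith
  have hw16 : 16 ≤ ‖w‖ := by linarith
  have h3 : (z ^ d + u) - (w ^ d + u) = z ^ d - w ^ d := by ring
  rw [h3]
  have h4 := sub_pow_le (d := d) z w
  have h5 : 8 * ((∑ i ∈ Finset.range d, ‖z‖ ^ i * ‖w‖ ^ (d - 1 - i)) * (‖z‖ * ‖w‖)) ≤
      ‖z‖ ^ d * ‖w‖ ^ d := by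
    have h6 : (∑ i ∈ Finset.range d, ‖z‖ ^ i * ‖w‖ ^ (d - 1 - i)) * (‖z‖ * ‖w‖) * 16 ^ (d - 1) ≤
        d * (‖z‖ ^ d * ‖w‖ ^ d) := by
      rw [Finset.sum_mul, Finset.sum_mul]
      calc ∑ i ∈ Finset.range d, ‖z‖ ^ i * ‖w‖ ^ (d - 1 - i) * (‖z‖ * ‖w‖) * 16 ^ (d - 1)
          ≤ ∑ i ∈ Finset.range d, ‖z‖ ^ d * ‖w‖ ^ d := by
            refine Finset.sum_le_sum fun i hi => ?_
            have hi' := Finset.mem_range.1 hi
            have e1 : (16 : ℝ) ^ (d - 1) = 16 ^ (d - 1 - i) * 16 ^ i := by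
              rw [← pow_add]; congr 1; omega
            rw [e1]
            calc ‖z‖ ^ i * ‖w‖ ^ (d - 1 - i) * (‖z‖ * ‖w‖) * (16 ^ (d - 1 - i) * 16 ^ i)
                ≤ ‖z‖ ^ i * ‖w‖ ^ (d - 1 - i) * (‖z‖ * ‖w‖) * (‖z‖ ^ (d - 1 - i) * ‖w‖ ^ i) := by
                  gcongr
              _ = (‖z‖ ^ i * ‖z‖ * ‖z‖ ^ (d - 1 - i)) * (‖w‖ ^ (d - 1 - i) * ‖w‖ * ‖w‖ ^ i) := by
                  ring
              _ = ‖z‖ ^ d * ‖w‖ ^ d := by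
                  rw [← pow_succ, ← pow_add, ← pow_succ, ← pow_add]
                  congr 2 <;> omega
        _ = _ := by rw [Finset.sum_const, Finset.card_range, nsmul_eq_mul]
    have h7 := eight_mul_le hd
    have h8 : (0 : ℝ) < 16 ^ (d - 1) := by positivity
    set A := (∑ i ∈ Finset.range d, ‖z‖ ^ i * ‖w‖ ^ (d - 1 - i)) * (‖z‖ * ‖w‖) with hA
    have hA0 : 0 ≤ A := by positivity
    have h9 : (0 : ℝ) < d := by positivity
    have h10 : A * (8 * d) ≤ d * (‖z‖ ^ d * ‖w‖ ^ d) :=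
      (mul_le_mul_of_nonneg_left h7 hA0).trans h6
    have h11 : d * (8 * A) ≤ d * (‖z‖ ^ d * ‖w‖ ^ d) := by linarith
    exact le_of_mul_le_mul_left h11 h9
  have h12 : ‖z‖ ^ d * ‖w‖ ^ d ≤ 4 * (‖z ^ d + u‖ * ‖w ^ d + u‖) := by
    calc ‖z‖ ^ d * ‖w‖ ^ d ≤ (2 * ‖z ^ d + u‖) * (2 * ‖w ^ d + u‖) := by gcongr
      _ = _ := by ring
  calc 2 * (‖z ^ d - w ^ d‖ * (‖z‖ * ‖w‖))
      ≤ 2 * (((∑ i ∈ Finset.range d, ‖z‖ ^ i * ‖w‖ ^ (d - 1 - i)) * ‖z - w‖) * (‖z‖ * ‖w‖)) := by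
        gcongr
    _ = ‖z - w‖ * (2 * ((∑ i ∈ Finset.range d, ‖z‖ ^ i * ‖w‖ ^ (d - 1 - i)) * (‖z‖ * ‖w‖))) := by
        ring
    _ ≤ ‖z - w‖ * (‖z ^ d + u‖ * ‖w ^ d + u‖) := by
        refine mul_le_mul_of_nonneg_left ?_ (norm_nonneg _)
        linarith

/-- The map `z ↦ z ^ d`. -/
def pw (d : ℕ) : ℂ → ℂ := fun z => z ^ d

theorem pw_differentiable (d : ℕ) : Differentiable ℂ (pw d) := by
  unfold pw; fun_prop

theorem grow_orbit (hd : 2 ≤ d) (hR : 0 ≤ R) {u : ℕ → ℂ} (hu : ∀ i, ‖u i‖ ≤ R) {z : ℂ} {j : ℕ}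
    (hz : R + 16 ≤ ‖S (pw d) u j z‖) (k : ℕ) :
    2 ^ k * ‖S (pw d) u j z‖ ≤ ‖S (pw d) u (j + k) z‖ ∧ R + 16 ≤ ‖S (pw d) u (j + k) z‖ := by
  induction k with
  | zero => simpa using hz
  | succ k ih =>
    have h1 := grow hd hR ih.2 (hu (j + k))
    have h2 : S (pw d) u (j + (k + 1)) z = (S (pw d) u (j + k) z) ^ d + u (j + k) := rfl
    rw [h2, pow_succ]
    constructor
    · linarith [ih.1]
    · have := norm_nonneg (S (pw d) u (j + k) z)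
      linarith [ih.2]

theorem alive_back (hd : 2 ≤ d) (hR : 0 ≤ R) {u : ℕ → ℂ} (hu : ∀ i, ‖u i‖ ≤ R) {z : ℂ} {n : ℕ}
    (hz : ‖S (pw d) u n z‖ ≤ R + 17) {j : ℕ} (hj : j ≤ n) : ‖S (pw d) u j z‖ ≤ R + 17 := by
  by_contra hcon
  rw [not_le] at hcon
  obtain ⟨k, rfl⟩ := Nat.exists_eq_add_of_le hj
  have h1 := (grow_orbit hd hR hu (z := z) (j := j) (by linarith) k).1
  have h2 : (1 : ℝ) ≤ 2 ^ k := one_le_pow₀ (by norm_num)
  have h3 := norm_nonneg (S (pw d) u j z)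
  nlinarith

theorem inv_orbit (hd : 2 ≤ d) (hR : 0 ≤ R) {u : ℕ → ℂ} (hu : ∀ i, ‖u i‖ ≤ R) {z w : ℂ}
    (hz : R + 16 ≤ ‖z‖) (hw : R + 16 ≤ ‖w‖) (n : ℕ) :
    ‖S (pw d) u n z - S (pw d) u n w‖ / (‖S (pw d) u n z‖ * ‖S (pw d) u n w‖) ≤
      (1 / 2) ^ n * (‖z - w‖ / (‖z‖ * ‖w‖)) := by
  induction n with
  | zero => simp [S]
  | succ n ih =>
    have h1 := (grow_orbit hd hR hu (z := z) (j := 0) hz n).2
    have h2 := (grow_orbit hd hR hu (z := w) (j := 0) hw n).2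
    rw [Nat.zero_add] at h1 h2
    have h3 := inv_contract hd hR h1 h2 (hu n)
    have h4 : S (pw d) u (n + 1) z = (S (pw d) u n z) ^ d + u n := rfl
    have h5 : S (pw d) u (n + 1) w = (S (pw d) u n w) ^ d + u n := rfl
    rw [← h4, ← h5] at h3
    have h6 := (grow_orbit hd hR hu (z := z) (j := 0) hz (n + 1)).2
    have h7 := (grow_orbit hd hR hu (z := w) (j := 0) hw (n + 1)).2
    rw [Nat.zero_add] at h6 h7
    have p1 : 0 < ‖S (pw d) u n z‖ := by linarith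
    have p2 : 0 < ‖S (pw d) u n w‖ := by linarith
    have p3 : 0 < ‖S (pw d) u (n + 1) z‖ := by linarith
    have p4 : 0 < ‖S (pw d) u (n + 1) w‖ := by linarith
    have h8 : ‖S (pw d) u (n + 1) z - S (pw d) u (n + 1) w‖ /
        (‖S (pw d) u (n + 1) z‖ * ‖S (pw d) u (n + 1) w‖) ≤
        (1 / 2) * (‖S (pw d) u n z - S (pw d) u n w‖ /
          (‖S (pw d) u n z‖ * ‖S (pw d) u n w‖)) := by
      rw [div_le_iff₀ (by positivity)]
      have : 1 / 2 * (‖S (pw d) u n z - S (pw d) u n w‖ / (‖S (pw d) u n z‖ * ‖S (pw d) u n w‖)) *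
          (‖S (pw d) u (n + 1) z‖ * ‖S (pw d) u (n + 1) w‖) =
          (‖S (pw d) u n z - S (pw d) u n w‖ *
          (‖S (pw d) u (n + 1) z‖ * ‖S (pw d) u (n + 1) w‖)) /
            (2 * (‖S (pw d) u n z‖ * ‖S (pw d) u n w‖)) := by
        field_simp
      rw [this, le_div_iff₀ (by positivity)]
      linarith
    refine h8.trans ?_
    rw [pow_succ]
    linarith

/-- The Lipschitz constant. -/
noncomputable def LL (d : ℕ) (R : ℝ) : ℝ := d * (R + 19) ^ (d - 1)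

theorem one_le_LL (hd : 2 ≤ d) (hR : 0 ≤ R) : 1 ≤ LL d R := by
  unfold LL
  have h1 : (1 : ℝ) ≤ (R + 19) ^ (d - 1) := one_le_pow₀ (by linarith)
  have h2 : (2 : ℝ) ≤ d := by exact_mod_cast hd
  nlinarith

theorem lip_orbit (hd : 2 ≤ d) (hR : 0 ≤ R) {u : ℕ → ℂ} {z w : ℂ} {n : ℕ}
    (hz : ∀ i < n, ‖S (pw d) u i z‖ ≤ R + 18) (hw : LL d R ^ n * ‖w - z‖ ≤ 1) :
    ‖S (pw d) u n w - S (pw d) u n z‖ ≤ LL d R ^ n * ‖w - z‖ := by
  have hL := one_le_LL hd hR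
  induction n with
  | zero => simp [S]
  | succ n ih =>
    have h1 : LL d R ^ n * ‖w - z‖ ≤ 1 := by
      refine le_trans ?_ hw
      gcongr
      omega
    have h2 := ih (fun i hi => hz i (by omega)) h1
    have h3 := hz n (by omega)
    have h4 : ‖S (pw d) u n w‖ ≤ R + 19 := by
      have h5 : ‖S (pw d) u n w‖ ≤ ‖S (pw d) u n w - S (pw d) u n z‖ + ‖S (pw d) u n z‖ := by
        have := norm_add_le (S (pw d) u n w - S (pw d) u n z) (S (pw d) u n z)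
        rwa [sub_add_cancel] at this
      linarith
    have h6 := lip (d := d) (r := R + 19) h4 (h3.trans (by linarith))
    have h7 : S (pw d) u (n + 1) w - S (pw d) u (n + 1) z =
        (S (pw d) u n w) ^ d - (S (pw d) u n z) ^ d := by
      change ((S (pw d) u n w) ^ d + u n) - ((S (pw d) u n z) ^ d + u n) = _
      ring
    rw [h7, pow_succ]
    calc _ ≤ LL d R * ‖S (pw d) u n w - S (pw d) u n z‖ := h6
      _ ≤ LL d R * (LL d R ^ n * ‖w - z‖) := by gcongr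
      _ = _ := by ring

theorem kick_close (hd : 2 ≤ d) (hR : 0 ≤ R) {u u' : ℕ → ℂ} {z : ℂ} {η : ℝ} {m n : ℕ}
    (hη : η * (m * LL d R ^ m) ≤ 1) (hη0 : 0 ≤ η) (hu : ∀ i < m, ‖u' i - u i‖ ≤ η)
    (hz : ∀ i < n, ‖S (pw d) u i z‖ ≤ R + 18) (hn : n ≤ m) :
    ‖S (pw d) u' n z - S (pw d) u n z‖ ≤ η * (n * LL d R ^ n) := by
  have hL := one_le_LL hd hR
  induction n with
  | zero => simp [S]
  | succ n ih =>
    have h2 := ih (fun i hi => hz i (by omega)) (by omega)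
    have h3 := hz n (by omega)
    have hmono : η * (n * LL d R ^ n) ≤ 1 := by
      refine le_trans ?_ hη
      gcongr <;> omega
    have h4 : ‖S (pw d) u' n z‖ ≤ R + 19 := by
      have h5 : ‖S (pw d) u' n z‖ ≤ ‖S (pw d) u' n z - S (pw d) u n z‖ + ‖S (pw d) u n z‖ := by
        have := norm_add_le (S (pw d) u' n z - S (pw d) u n z) (S (pw d) u n z)
        rwa [sub_add_cancel] at this
      linarith
    have h6 := lip (d := d) (r := R + 19) h4 (h3.trans (by linarith))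
    have h7 : S (pw d) u' (n + 1) z - S (pw d) u (n + 1) z =
        ((S (pw d) u' n z) ^ d - (S (pw d) u n z) ^ d) + (u' n - u n) := by
      change ((S (pw d) u' n z) ^ d + u' n) - ((S (pw d) u n z) ^ d + u n) = _
      ring
    rw [h7]
    have h8 := hu n (by omega)
    have h9 : (1 : ℝ) ≤ LL d R ^ (n + 1) := one_le_pow₀ hL
    calc _ ≤ ‖(S (pw d) u' n z) ^ d - (S (pw d) u n z) ^ d‖ + ‖u' n - u n‖ := norm_add_le _ _
      _ ≤ LL d R * (η * (n * LL d R ^ n)) + η := by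
          refine add_le_add (h6.trans ?_) h8
          exact mul_le_mul_of_nonneg_left h2 (by linarith : (0 : ℝ) ≤ LL d R)
      _ = η * (n * LL d R ^ (n + 1)) + η * 1 := by rw [pow_succ]; ring
      _ ≤ η * (n * LL d R ^ (n + 1)) + η * LL d R ^ (n + 1) := by gcongr
      _ = _ := by push_cast; ring

/-- If some kicks lead far out then nearby kicks lead out. -/
theorem A_escape (hd : 2 ≤ d) (hR : 0 ≤ R) {u u' : ℕ → ℂ} (hu' : ∀ i, ‖u' i‖ ≤ R) {z : ℂ} {η : ℝ}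
    {m : ℕ} (hη : η * (m * LL d R ^ m) ≤ 1) (hη0 : 0 ≤ η) (huu : ∀ i < m, ‖u' i - u i‖ ≤ η)
    (h : ∃ n ≤ m, R + 18 < ‖S (pw d) u n z‖) : R + 17 < ‖S (pw d) u' m z‖ := by
  classical
  have hL := one_le_LL hd hR
  have hex : ∃ n, n ≤ m ∧ R + 18 < ‖S (pw d) u n z‖ := h
  set n := Nat.find hex with hn
  have h1 : n ≤ m ∧ R + 18 < ‖S (pw d) u n z‖ := Nat.find_spec hex
  have h2 : ∀ i < n, ‖S (pw d) u i z‖ ≤ R + 18 := by
    intro i hi
    by_contra hcon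
    exact Nat.find_min hex hi ⟨by omega, not_le.1 hcon⟩
  have h3 := kick_close hd hR hη hη0 huu h2 h1.1
  have hmono : η * (n * LL d R ^ n) ≤ 1 := by
    refine le_trans ?_ hη
    gcongr
    · exact h1.1
    · exact h1.1
  have h4 : R + 17 < ‖S (pw d) u' n z‖ := by
    have h5 : ‖S (pw d) u n z‖ ≤ ‖S (pw d) u' n z - S (pw d) u n z‖ + ‖S (pw d) u' n z‖ := by
      have := norm_sub_le (S (pw d) u' n z) (S (pw d) u' n z - S (pw d) u n z)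
      rw [sub_sub_cancel] at this
      linarith
    linarith [h1.2]
  obtain ⟨k, hk⟩ := Nat.exists_eq_add_of_le h1.1
  have h6 := (grow_orbit hd hR hu' (z := z) (j := n) (by linarith) k).1
  rw [← hk] at h6
  have h7 : (1 : ℝ) ≤ 2 ^ k := one_le_pow₀ (by norm_num)
  nlinarith [norm_nonneg (S (pw d) u' n z)]

end Pool.Agent.R241.NA
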