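import Mathlib

/-!
# Non-autonomous perturbations: choice of the constants
-/

set_option autoImplicit false

open Filter Topology Set Metric

namespace Pool.Agent.R241.NA

theorem choose_length {L M : ℝ} (hL : 1 ≤ L) (hM : 1 < M) :
    ∃ m n₀ : ℕ, 0 < n₀ ∧ (L * (M * (1 - 1 / M) ^ m) * L) ^ n₀ * L ^ (m + 2) < 1 := by
  set θ : ℝ := 1 - 1 / M with hθ
  have hθ0 : 0 < θ := by
    rw [hθ, sub_pos, div_lt_one (by linarith)]; exact hM
  have hθ1 : θ < 1 := by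
    rw [hθ]
    have : 0 < 1 / M := by positivity
    linarith
  set τ : ℝ := (θ + 1) / 2 with hτ
  have hτ0 : 0 < τ := by positivity
  have hτ1 : τ < 1 := by rw [hτ]; linarith
  have hθτ : θ < τ := by rw [hτ]; linarith
  obtain ⟨n, hn⟩ := exists_pow_lt_of_lt_one (show (0 : ℝ) < 1 / L by positivity) hτ1
  set n₀ := n + 1 with hn₀
  have hn1 : τ ^ n₀ * L < 1 := by
    have h1 : τ ^ n₀ ≤ τ ^ n := pow_le_pow_of_le_one hτ0.le hτ1.le (by omega)
    have h2 : τ ^ n₀ < 1 / L := lt_of_le_of_lt h1 hn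
    rwa [lt_div_iff₀ (by linarith)] at h2
  have h3 : Tendsto (fun m : ℕ => (L * M * L / τ ^ 2) * (θ / τ) ^ m) atTop
      (𝓝 ((L * M * L / τ ^ 2) * 0)) :=
    (tendsto_pow_atTop_nhds_zero_of_lt_one (by positivity)
      ((div_lt_one hτ0).2 hθτ)).const_mul _
  rw [mul_zero] at h3
  obtain ⟨m, hm⟩ := (h3.eventually (gt_mem_nhds one_pos)).exists
  refine ⟨m, n₀, by omega, ?_⟩
  have h4 : L * (M * θ ^ m) * L < τ ^ (m + 2) := by
    have h5 : L * M * L / τ ^ 2 * (θ / τ) ^ m = (L * (M * θ ^ m) * L) / τ ^ (m + 2) := by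
      have hτ' : τ ≠ 0 := hτ0.ne'
      clear_value τ θ
      rw [div_pow, pow_add]; field_simp
    rw [h5, div_lt_one (by positivity)] at hm
    exact hm
  have h6 : (0 : ℝ) < L := by linarith
  have h7 : (0 : ℝ) < M := by linarith
  calc (L * (M * θ ^ m) * L) ^ n₀ * L ^ (m + 2) ≤ (τ ^ (m + 2)) ^ n₀ * L ^ (m + 2) := by gcongr
    _ = (τ ^ n₀ * L) ^ (m + 2) := by rw [← pow_mul, mul_comm (m + 2) n₀, pow_mul, mul_pow]
    _ < 1 := pow_lt_one₀ (by positivity) hn1 (by omega)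

theorem choose_exponent {κ Λ q p₀ : ℝ} (hκ : 0 < κ) (hΛ : 0 < Λ) (hp1 : 0 < p₀)
    (h : (1 - q) * Real.log κ + q * Real.log Λ < 0) :
    ∃ s : ℝ, 0 < s ∧ (1 - q) * κ ^ s + q * Λ ^ s < 1 ∧ (1 - p₀) * Λ ^ s < 1 := by
  have h1 : HasDerivAt (fun s : ℝ => (1 - q) * κ ^ s + q * Λ ^ s)
      ((1 - q) * Real.log κ + q * Real.log Λ) 0 := by
    have a1 : HasDerivAt (fun s : ℝ => κ ^ s) (Real.log κ) 0 := by
      have := (Real.hasStrictDerivAt_const_rpow hκ 0).hasDerivAt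
      simpa using this
    have a2 : HasDerivAt (fun s : ℝ => Λ ^ s) (Real.log Λ) 0 := by
      have := (Real.hasStrictDerivAt_const_rpow hΛ 0).hasDerivAt
      simpa using this
    exact (a1.const_mul (1 - q)).add (a2.const_mul q)
  have h2 := (hasDerivAt_iff_tendsto_slope.1 h1).eventually (gt_mem_nhds h)
  have h3 : ∀ᶠ s : ℝ in 𝓝[>] 0, slope (fun s : ℝ => (1 - q) * κ ^ s + q * Λ ^ s) 0 s < 0 := by
    refine h2.filter_mono ?_
    exact nhdsWithin_mono _ fun x hx => ne_of_gt hx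
  have h4 : Continuous fun s : ℝ => (1 - p₀) * Λ ^ s :=
    continuous_const.mul (Real.continuous_const_rpow hΛ.ne')
  have h5 : ∀ᶠ s : ℝ in 𝓝 0, (1 - p₀) * Λ ^ s < 1 := by
    refine h4.continuousAt.eventually (gt_mem_nhds ?_)
    simp only [Real.rpow_zero, mul_one]
    linarith
  obtain ⟨s, ⟨hs2, hs3⟩, hs1⟩ := ((h3.and (h5.filter_mono nhdsWithin_le_nhds)).and
    self_mem_nhdsWithin).exists
  have hs0 : 0 < s := hs1
  refine ⟨s, hs0, ?_, hs3⟩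
  rw [slope_def_field] at hs2
  simp only [Real.rpow_zero, mul_one, sub_zero] at hs2
  rw [div_lt_iff₀ hs0] at hs2
  linarith

theorem exists_menu {e η : ℝ} (he : 0 ≤ e) (hη : 0 < η) :
    ∃ s : Finset ℂ, s.Nonempty ∧ (∀ a ∈ s, ‖a‖ ≤ e) ∧
      ∀ a : ℂ, ‖a‖ ≤ e → ∃ a' ∈ s, ‖a' - a‖ ≤ η := by
  obtain ⟨t, ht1, ht2, ht3⟩ := (isCompact_closedBall (0 : ℂ) e).finite_cover_balls hη
  have h1 : ∀ a : ℂ, ‖a‖ ≤ e → ∃ a' ∈ ht2.toFinset, ‖a' - a‖ ≤ η := by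
    intro a ha
    obtain ⟨a', ha', h2⟩ := mem_iUnion₂.1 (ht3 (mem_closedBall_zero_iff.2 ha))
    refine ⟨a', ht2.mem_toFinset.2 ha', ?_⟩
    rw [mem_ball, dist_comm, dist_eq_norm] at h2
    exact h2.le
  refine ⟨ht2.toFinset, ?_, ?_, h1⟩
  · obtain ⟨a', ha', -⟩ := h1 0 (by rw [norm_zero]; exact he)
    exact ⟨a', ha'⟩
  · intro a ha
    exact mem_closedBall_zero_iff.1 (ht1 (ht2.mem_toFinset.1 ha))

end Pool.Agent.R241.NA
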