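import Pool.Agent.R241.SK3

/-!
# Hyperbolic polynomial skew products: the main theorem
-/

set_option autoImplicit false

open Filter Topology Set Metric Polynomial
open Pool.Agent.R241.NR

namespace Pool.Agent.R241.SK

theorem sqrt_ge_one (z : ℂ) : 1 ≤ Real.sqrt (1 + ‖z‖ ^ 2) := by
  rw [Real.one_le_sqrt]; nlinarith [sq_nonneg ‖z‖]

theorem sqrt_ge_norm (z : ℂ) : ‖z‖ ≤ Real.sqrt (1 + ‖z‖ ^ 2) :=
  Real.le_sqrt_of_sq_le (by linarith)

theorem chordal_le_dist (z w : ℂ) : chordal z w ≤ ‖z - w‖ := by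
  unfold chordal
  refine div_le_self (norm_nonneg _) ?_
  have h1 := sqrt_ge_one z
  have h2 := sqrt_ge_one w
  nlinarith

theorem chordal_le_one (z w : ℂ) : chordal z w ≤ 1 := by
  unfold chordal
  have h1 := sqrt_ge_one z
  have h2 := sqrt_ge_one w
  rw [div_le_one (by positivity), ← Real.sqrt_mul (by positivity)]
  refine Real.le_sqrt_of_sq_le ?_
  have h3 : ‖z - w‖ ≤ ‖z‖ + ‖w‖ := norm_sub_le _ _
  have h4 : ‖z - w‖ ^ 2 ≤ (‖z‖ + ‖w‖) ^ 2 := by gcongr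
  nlinarith [sq_nonneg (‖z‖ * ‖w‖ - 1)]

theorem chordal_le_far {z w : ℂ} {r : ℝ} (hr : 0 < r) (hz : r ≤ ‖z‖) (hw : r ≤ ‖w‖) :
    chordal z w ≤ 2 / r := by
  unfold chordal
  have h1 := sqrt_ge_norm z
  have h2 := sqrt_ge_norm w
  have hz0 : 0 < ‖z‖ := hr.trans_le hz
  have hw0 : 0 < ‖w‖ := hr.trans_le hw
  have h3 : ‖z - w‖ ≤ ‖z‖ + ‖w‖ := norm_sub_le _ _
  have h4 : ‖z‖ * ‖w‖ ≤ Real.sqrt (1 + ‖z‖ ^ 2) * Real.sqrt (1 + ‖w‖ ^ 2) := by gcongr
  rw [div_le_div_iff₀ (by positivity) hr]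
  have h5 : ‖z‖ * r ≤ ‖z‖ * ‖w‖ := by gcongr
  have h6 : ‖w‖ * r ≤ ‖w‖ * ‖z‖ := by gcongr
  nlinarith

variable {g : ℂ → ℂ} {ε ρ : ℝ}

theorem bound_one (hg : Continuous g) (m : ℕ) (R : ℝ) :
    ∃ R₁ : ℝ, ∀ b : ℕ → ℂ, (∀ i, ‖b i‖ ≤ ε) → ∀ z : ℂ, ‖z‖ ≤ R → ‖S g b m z‖ ≤ R₁ := by
  have hK : IsCompact ((closedBall (0 : Fin m → ℂ) (max ε 0)) ×ˢ closedBall (0 : ℂ) R) :=
    (isCompact_closedBall _ _).prod (isCompact_closedBall _ _)
  obtain ⟨R₁, hR₁⟩ := (hK.image (orb_continuous hg m)).isBounded.exists_norm_le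
  refine ⟨R₁, fun b hb z hz => ?_⟩
  rw [← orb_eq_S g m (fun i => b i) b (fun _ => rfl)]
  refine hR₁ _ ⟨(fun i => b i, z), ⟨?_, ?_⟩, rfl⟩
  · rw [mem_closedBall_zero_iff, pi_norm_le_iff_of_nonneg (le_max_right _ _)]
    exact fun i => (hb i).trans (le_max_left _ _)
  · rw [mem_closedBall_zero_iff]; exact hz

theorem close_one (hg : Continuous g) (m : ℕ) (R : ℝ) {η : ℝ} (hη : 0 < η) :
    ∃ δ : ℝ, 0 < δ ∧ ∀ b : ℕ → ℂ, (∀ i, ‖b i‖ ≤ ε) → ∀ z : ℂ, ‖z‖ ≤ R → ∀ w : ℂ, ‖w - z‖ < δ →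
      ‖S g b m w - S g b m z‖ < η := by
  have hK : IsCompact ((closedBall (0 : Fin m → ℂ) (max ε 0)) ×ˢ closedBall (0 : ℂ) (R + 1)) :=
    (isCompact_closedBall _ _).prod (isCompact_closedBall _ _)
  have hu := hK.uniformContinuousOn_of_continuous (orb_continuous hg m).continuousOn
  rw [Metric.uniformContinuousOn_iff] at hu
  obtain ⟨δ, hδ, h1⟩ := hu η hη
  refine ⟨min δ 1, by positivity, fun b hb z hz w hw => ?_⟩
  rw [← orb_eq_S g m (fun i => b i) b (fun _ => rfl),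
    ← orb_eq_S g m (fun i => b i) b (fun _ => rfl), ← dist_eq_norm]
  have hb' : (fun i : Fin m => b i) ∈ closedBall (0 : Fin m → ℂ) (max ε 0) := by
    rw [mem_closedBall_zero_iff, pi_norm_le_iff_of_nonneg (le_max_right _ _)]
    exact fun i => (hb i).trans (le_max_left _ _)
  refine h1 (fun i => b i, w) ⟨hb', ?_⟩ (fun i => b i, z) ⟨hb', ?_⟩ ?_
  · rw [mem_closedBall_zero_iff]
    have h2 : ‖w‖ ≤ ‖w - z‖ + ‖z‖ := by
      have := norm_add_le (w - z) z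
      rwa [sub_add_cancel] at this
    have h3 := hw.trans_le (min_le_right _ _)
    linarith
  · rw [mem_closedBall_zero_iff]; linarith
  · rw [Prod.dist_eq, dist_self, dist_eq_norm]
    exact max_lt hδ (hw.trans_le (min_le_left _ _))

theorem bound_all (hg : Continuous g) (M : ℕ) (R : ℝ) :
    ∃ R₁ : ℝ, ∀ m ≤ M, ∀ b : ℕ → ℂ, (∀ i, ‖b i‖ ≤ ε) → ∀ z : ℂ, ‖z‖ ≤ R → ‖S g b m z‖ ≤ R₁ := by
  induction M with
  | zero =>
    obtain ⟨R₁, h⟩ := bound_one (ε := ε) hg 0 R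
    exact ⟨R₁, fun m hm => by rw [Nat.le_zero.1 hm]; exact h⟩
  | succ M ih =>
    obtain ⟨R₁, h⟩ := ih
    obtain ⟨R₂, h'⟩ := bound_one (ε := ε) hg (M + 1) R
    refine ⟨max R₁ R₂, fun m hm b hb z hz => ?_⟩
    rcases Nat.le_succ_iff.1 hm with hm | rfl
    · exact (h m hm b hb z hz).trans (le_max_left _ _)
    · exact (h' b hb z hz).trans (le_max_right _ _)

theorem close_all (hg : Continuous g) (M : ℕ) (R : ℝ) {η : ℝ} (hη : 0 < η) :
    ∃ δ : ℝ, 0 < δ ∧ ∀ m ≤ M, ∀ b : ℕ → ℂ, (∀ i, ‖b i‖ ≤ ε) → ∀ z : ℂ, ‖z‖ ≤ R → ∀ w : ℂ,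
      ‖w - z‖ < δ → ‖S g b m w - S g b m z‖ < η := by
  induction M with
  | zero =>
    obtain ⟨δ, hδ, h⟩ := close_one (ε := ε) hg 0 R hη
    exact ⟨δ, hδ, fun m hm => by rw [Nat.le_zero.1 hm]; exact h⟩
  | succ M ih =>
    obtain ⟨δ, hδ, h⟩ := ih
    obtain ⟨δ', hδ', h'⟩ := close_one (ε := ε) hg (M + 1) R hη
    refine ⟨min δ δ', lt_min hδ hδ', fun m hm b hb z hz w hw => ?_⟩
    rcases Nat.le_succ_iff.1 hm with hm | rfl
    · exact h m hm b hb z hz w (hw.trans_le (min_le_left _ _))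
    · exact h' b hb z hz w (hw.trans_le (min_le_right _ _))

/-- Stability of the absorbed points. -/
theorem stable_absorbed (hg : Differentiable ℂ g) (hε : 0 < ε) (hρ0 : 0 < ρ)
    (hρ : ∀ z : ℂ, ρ < ‖z‖ → ∀ a : ℂ, ‖a‖ ≤ ε → 2 * ‖z‖ ≤ ‖g z + a‖) {ε' : ℝ} (hε' : ε' < ε) :
    ∃ δ C θ : ℝ, 0 < δ ∧ 0 ≤ C ∧ 0 < θ ∧ θ < 1 ∧ ∀ b : ℕ → ℂ, (∀ i, ‖b i‖ ≤ ε') →
      ∀ z : ℂ, z ∈ A g ε ρ → ∀ w : ℂ, ‖w - (g z + b 0)‖ < δ → ∀ n : ℕ,
        chordal (S g (fun i => b (i + 1)) n w) (S g (fun i => b (i + 1)) n (g z + b 0)) ≤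
          C * θ ^ n := by
  have hgc := hg.continuous
  have hK := isCompact_KK hgc (ε := ε) (ρ := ρ) hε
  have hmarg : ∀ z ∈ KK g ε ρ, ∀ a ∈ closedBall (0 : ℂ) ε', closedBall (g z + a) (ε - ε') ⊆
      KK g ε ρ := by
    intro z hz a ha
    refine Subset.trans ?_ (KK_closedBall hgc hε hz)
    intro u hu
    rw [mem_closedBall, dist_eq_norm] at hu ⊢
    rw [mem_closedBall_zero_iff] at ha
    have h1 : u - g z = (u - (g z + a)) + a := by ring
    rw [h1]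
    exact (norm_add_le _ _).trans (by linarith)
  obtain ⟨C, θ, hC, hθ0, hθ1, hder⟩ := contractS hg hK (sub_pos.2 hε') hmarg
  refine ⟨min (ε - ε') ρ, C * (ε - ε') + 2 / ρ, max θ (1 / 2), ?_, ?_, ?_, ?_, ?_⟩
  · exact lt_min (sub_pos.2 hε') hρ0
  · have := sub_pos.2 hε'; positivity
  · exact lt_max_of_lt_left hθ0
  · exact max_lt hθ1 (by norm_num)
  intro b hb z hz w hw n
  have hδ := sub_pos.2 hε'
  rcases hz with hz | hz
  · have h0 : b 0 ∈ closedBall (0 : ℂ) ε' := by rw [mem_closedBall_zero_iff]; exact hb 0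
    have hball := hmarg z hz (b 0) h0
    have hw' : w ∈ closedBall (g z + b 0) (ε - ε') := by
      rw [mem_closedBall, dist_eq_norm]; exact hw.le.trans (min_le_left _ _)
    have h1 := contract_ball hg (b := fun i => b (i + 1))
      (fun x hx n => hder _ (fun i => by rw [mem_closedBall_zero_iff]; exact hb _) x hx n)
      hball hw' n
    refine (chordal_le_dist _ _).trans (h1.trans ?_)
    have h2 : ‖w - (g z + b 0)‖ ≤ ε - ε' := hw.le.trans (min_le_left _ _)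
    calc C * θ ^ n * ‖w - (g z + b 0)‖ ≤ C * (max θ (1 / 2)) ^ n * (ε - ε') := by
          gcongr
          exact le_max_left _ _
      _ = (C * (ε - ε')) * (max θ (1 / 2)) ^ n := by ring
      _ ≤ _ := by
          gcongr
          have : 0 ≤ 2 / ρ := by positivity
          linarith
  · have hz' : ρ < ‖z‖ := hz
    have h1 := hρ z hz' (b 0) ((hb 0).trans hε'.le)
    have hz2 : ρ < ‖g z + b 0‖ := by linarith
    have hw2 : ρ < ‖w‖ := by
      have h2 : ‖g z + b 0‖ ≤ ‖w - (g z + b 0)‖ + ‖w‖ := by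
        have := norm_sub_le w (w - (g z + b 0))
        rw [sub_sub_cancel] at this
        linarith
      have h3 := hw.trans_le (min_le_right _ _)
      linarith
    have hgrow : ∀ u : ℂ, ρ < ‖u‖ → ∀ j, 2 ^ j * ρ < ‖S g (fun i => b (i + 1)) j u‖ := by
      intro u hu j
      induction j with
      | zero => simpa [S] using hu
      | succ j ih =>
        have h4 : ρ < ‖S g (fun i => b (i + 1)) j u‖ := by
          refine lt_of_le_of_lt ?_ ih
          have : (1 : ℝ) ≤ 2 ^ j := one_le_pow₀ (by norm_num)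
          nlinarith
        have h5 := hρ _ h4 (b (j + 1)) ((hb _).trans hε'.le)
        have h6 : S g (fun i => b (i + 1)) (j + 1) u =
            g (S g (fun i => b (i + 1)) j u) + b (j + 1) := rfl
        rw [h6, pow_succ]
        linarith
    have h7 := hgrow _ hz2 n
    have h8 := hgrow _ hw2 n
    refine (chordal_le_far (r := 2 ^ n * ρ) (by positivity) h8.le h7.le).trans ?_
    calc 2 / (2 ^ n * ρ) = (2 / ρ) * (1 / 2) ^ n := by
          rw [one_div, inv_pow]; field_simp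
      _ ≤ (2 / ρ) * (max θ (1 / 2)) ^ n := by
          gcongr
          exact le_max_right _ _
      _ ≤ _ := by
          gcongr
          have : 0 ≤ C * (ε - ε') := by positivity
          linarith

theorem fib_eq {Y : Type} (f : Y → Y) (T : ℂ[X]) (a : Y → ℂ) (n : ℕ) (y : Y) (z : ℂ) :
    fib f (fun y => T + C (a y)) n y z =
      S (fun w => T.eval w) (fun i => a (f^[i] y)) n z := by
  induction n generalizing y z with
  | zero => rfl
  | succ n ih =>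
    rw [fib, S_head, ih]
    have h1 : (T + C (a y)).eval z = T.eval z + a (f^[0] y) := by
      rw [eval_add, eval_C]; rfl
    rw [h1]
    rfl

/-- Main theorem. -/
theorem main {T : ℂ[X]} (hT : 2 ≤ T.natDegree) {Y : Type} [TopologicalSpace Y] [CompactSpace Y]
    [T2Space Y] [TotallyDisconnectedSpace Y] (f : Y ≃ₜ Y)
    (hf : ∀ (y : Y) (n : ℕ), 0 < n → f^[n] y ≠ y) {ε : ℝ} (hε : 0 < ε) :
    ∃ a : Y → ℂ, Continuous a ∧ (range a).Finite ∧ (∀ y, ‖a y‖ < ε) ∧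
      Hyperbolic f fun y => T + C (a y) := by
  obtain ⟨ρ, hρ0, hρ⟩ := exists_radius T hT ε hε
  obtain ⟨N, hN, α, hα, habs⟩ := exists_kicks hT hε hρ0 hρ
  obtain ⟨τ, hτc, hτlt, hτ⟩ := labels f hf hN
  set g : ℂ → ℂ := fun w => T.eval w with hg
  have hgd : Differentiable ℂ g := T.differentiable
  have hgc : Continuous g := T.continuous
  set a : Y → ℂ := fun y => α (τ y) with ha
  have haε : ∀ y, ‖a y‖ < ε := fun y => hα _
  have hrange : range a ⊆ α '' (Iio (2 * N)) := by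
    rintro _ ⟨y, rfl⟩
    exact ⟨τ y, by have := hτlt y; rw [mem_Iio]; omega, rfl⟩
  have hfin : (range a).Finite := ((finite_Iio _).image _).subset hrange
  obtain ⟨ε', hε'0, hε'1, hε'2⟩ : ∃ ε' : ℝ, 0 ≤ ε' ∧ ε' < ε ∧ ∀ y, ‖a y‖ ≤ ε' := by
    have h1 : ∀ M : ℕ, ∃ ε' : ℝ, 0 ≤ ε' ∧ ε' < ε ∧ ∀ j < M, ‖α j‖ ≤ ε' := by
      intro M
      induction M with
      | zero => exact ⟨0, le_rfl, hε, by simp⟩
      | succ M ih =>
        obtain ⟨e, he0, he1, he2⟩ := ih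
        refine ⟨max e ‖α M‖, he0.trans (le_max_left _ _), max_lt he1 (hα M), fun j hj => ?_⟩
        rcases Nat.lt_succ_iff_lt_or_eq.1 hj with hj | rfl
        · exact (he2 j hj).trans (le_max_left _ _)
        · exact le_max_right _ _
    obtain ⟨e, he0, he1, he2⟩ := h1 (2 * N)
    exact ⟨e, he0, he1, fun y => he2 _ (by have := hτlt y; omega)⟩
  -- absorption
  have habsorb : ∀ (y : Y) (c : ℂ), (derivative T).eval c = 0 →
      S g (fun i => a (f^[i] y)) N c ∈ A g ε ρ := by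
    intro y c hc
    obtain ⟨l, hl1, hl2, hl3, hl4⟩ := hτ y
    have h1 := habs c hc l (τ y) hl2 hl3 hl1
    rw [S_congr (b := fun i => α (if τ y + i < l then τ y + i else τ y + i - l))]
    · exact h1
    · intro i hi
      simp only [ha]
      rw [hl4 i hi]
  have hstep : ∀ z ∈ A g ε ρ, ∀ u : ℂ, ‖u‖ < ε → g z + u ∈ A g ε ρ := by
    intro z hz u hu
    rcases hz with hz | hz
    · left
      apply KK_ball hz
      rw [mem_ball, dist_eq_norm, add_sub_cancel_left]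
      exact hu
    · right
      have hz' : ρ < ‖z‖ := hz
      have := hρ z hz' u hu.le
      rw [Set.mem_ofPred_eq]
      show ρ < ‖T.eval z + u‖
      linarith
  have hA : ∀ (y : Y) (c : ℂ), (derivative T).eval c = 0 → ∀ j,
      S g (fun i => a (f^[i] y)) (N + j) c ∈ A g ε ρ := by
    intro y c hc j
    induction j with
    | zero => exact habsorb y c hc
    | succ j ih => exact hstep _ ih _ (haε _)
  obtain ⟨δ₂, C₂, θ₂, hδ₂, hC₂, hθ0, hθ1, hst⟩ := stable_absorbed hgd hε hρ0 hρ hε'1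
  -- critical points are bounded
  have hT' : T.derivative ≠ 0 := by
    intro h
    have := derivative_eq_zero.1 h
    omega
  obtain ⟨R₀, hR₀⟩ : ∃ R₀ : ℝ, ∀ c : ℂ, (derivative T).eval c = 0 → ‖c‖ ≤ R₀ := by
    obtain ⟨R₀, h⟩ := (T.derivative.roots.toFinset.finite_toSet.isBounded).exists_norm_le
    refine ⟨R₀, fun c hc => h c ?_⟩
    rw [Finset.mem_coe, Multiset.mem_toFinset, mem_roots hT']
    exact hc
  obtain ⟨R₁, hR₁⟩ := bound_all (ε := ε) hgc (N + 1) R₀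
  obtain ⟨δ₃, hδ₃, hcl⟩ := close_all (ε := ε) hgc (N + 1) R₁ hδ₂
  have hsh : ∀ (y : Y) (m n : ℕ) (z : ℂ), fib f (fun y => T + C (a y)) n (f^[m] y) z =
      S g (fun i => a (f^[m + i] y)) n z := by
    intro y m n z
    rw [fib_eq]
    congr 1
    funext i
    rw [← Function.iterate_add_apply, Nat.add_comm]
  -- late times
  have hlate : ∀ (y : Y) (c : ℂ), (derivative T).eval c = 0 → ∀ m, N + 1 ≤ m → ∀ w : ℂ,
      ‖w - S g (fun i => a (f^[i] y)) m c‖ < δ₂ → ∀ n,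
        chordal (S g (fun i => a (f^[m + i] y)) n w)
          (S g (fun i => a (f^[m + i] y)) n (S g (fun i => a (f^[i] y)) m c)) ≤ C₂ * θ₂ ^ n := by
    intro y c hc m hm w hw n
    obtain ⟨j, rfl⟩ : ∃ j, m = N + j + 1 := ⟨m - (N + 1), by omega⟩
    have h1 := hst (fun i => a (f^[N + j + i] y)) (fun i => hε'2 _) _ (hA y c hc j) w hw n
    have h2 : (fun i => a (f^[N + j + 1 + i] y)) = fun i => a (f^[N + j + (i + 1)] y) := by
      funext i
      rw [show N + j + 1 + i = N + j + (i + 1) by omega]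
    rw [h2]
    exact h1
  refine ⟨a, continuous_of_discreteTopology.comp hτc, hfin, haε, min δ₂ δ₃,
    (C₂ + 1) * (θ₂⁻¹) ^ (N + 1), θ₂, lt_min hδ₂ hδ₃, hθ0, hθ1, ?_⟩
  intro y c hc m w hw n
  have hc' : (derivative T).eval c = 0 := by simpa using hc
  have hinv : 1 ≤ θ₂⁻¹ := (one_le_inv₀ hθ0).2 hθ1.le
  rw [fib_eq] at hw
  rw [hsh, hsh, fib_eq]
  by_cases hm : N + 1 ≤ m
  · refine (hlate y c hc' m hm w (hw.trans_le (min_le_left _ _)) n).trans ?_
    have h1 : (1 : ℝ) ≤ (θ₂⁻¹) ^ (N + 1) := one_le_pow₀ hinv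
    have h2 : C₂ ≤ (C₂ + 1) * (θ₂⁻¹) ^ (N + 1) := by nlinarith
    gcongr
  · rw [not_le] at hm
    set k := N + 1 - m with hk
    by_cases hn : n < k
    · refine (chordal_le_one _ _).trans ?_
      have h1 : (θ₂⁻¹) ^ (N + 1) = (θ₂⁻¹) ^ n * (θ₂⁻¹) ^ (N + 1 - n) := by
        rw [← pow_add]; congr 1; omega
      rw [h1]
      have h2 : (θ₂⁻¹) ^ n * θ₂ ^ n = 1 := by
        rw [← mul_pow, inv_mul_cancel₀ hθ0.ne', one_pow]
      calc (1 : ℝ) ≤ (C₂ + 1) * (θ₂⁻¹) ^ (N + 1 - n) := by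
            have h3 : (1 : ℝ) ≤ (θ₂⁻¹) ^ (N + 1 - n) := one_le_pow₀ hinv
            nlinarith
        _ = (C₂ + 1) * (θ₂⁻¹) ^ (N + 1 - n) * ((θ₂⁻¹) ^ n * θ₂ ^ n) := by rw [h2, mul_one]
        _ = _ := by ring
    · rw [not_lt] at hn
      obtain ⟨j, rfl⟩ : ∃ j, n = k + j := ⟨n - k, by omega⟩
      have hz : ‖S g (fun i => a (f^[i] y)) m c‖ ≤ R₁ :=
        hR₁ m (by omega) _ (fun i => (haε _).le) c (hR₀ c hc')
      have h1 := hcl k (by omega) (fun i => a (f^[m + i] y)) (fun i => (haε _).le) _ hz w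
        (hw.trans_le (min_le_right _ _))
      have h2 : S g (fun i => a (f^[m + i] y)) k (S g (fun i => a (f^[i] y)) m c) =
          S g (fun i => a (f^[i] y)) (N + 1) c := by
        have h9 := S_add g (fun i => a (f^[i] y)) m k c
        rw [show m + k = N + 1 by omega] at h9
        exact h9.symm
      rw [h2] at h1
      have h3 := hlate y c hc' (N + 1) le_rfl _ h1 j
      rw [S_add, S_add, h2]
      have h4 : (fun i => a (f^[m + (k + i)] y)) = fun i => a (f^[N + 1 + i] y) := by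
        funext i
        rw [show m + (k + i) = N + 1 + i by omega]
      rw [h4]
      refine h3.trans ?_
      have h5 : (θ₂⁻¹) ^ (N + 1) = (θ₂⁻¹) ^ k * (θ₂⁻¹) ^ m := by
        rw [← pow_add]; congr 1; omega
      have h6 : (θ₂⁻¹) ^ k * θ₂ ^ k = 1 := by
        rw [← mul_pow, inv_mul_cancel₀ hθ0.ne', one_pow]
      calc C₂ * θ₂ ^ j ≤ (C₂ + 1) * (θ₂⁻¹) ^ m * θ₂ ^ j := by
            have h7 : (1 : ℝ) ≤ (θ₂⁻¹) ^ m := one_le_pow₀ hinv
            have h8 : C₂ ≤ (C₂ + 1) * (θ₂⁻¹) ^ m := by nlinarith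
            gcongr
        _ = (C₂ + 1) * (θ₂⁻¹) ^ m * θ₂ ^ j * ((θ₂⁻¹) ^ k * θ₂ ^ k) := by rw [h6, mul_one]
        _ = _ := by rw [h5, pow_add]; ring

end Pool.Agent.R241.SK
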