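import Pool.Agent.R241.NA2
import Pool.Agent.R241.NA3
import Pool.Agent.R241.NA4
import Pool.Agent.R241.SK4

/-!
# Non-autonomous perturbations: the words of kicks and the multipliers
-/

set_option autoImplicit false

open Filter Topology Set Metric
open Pool.Agent.R241.NR

namespace Pool.Agent.R241.NA

/-- The points which stay bounded for `b` steps under all small kicks. -/
def BT (d b : ℕ) (R e : ℝ) (v : ℕ → ℂ) (z : ℂ) : Prop :=
  ∀ a : ℕ → ℂ, (∀ i, ‖a i‖ ≤ e) → ∀ n ≤ b, ‖S (pw d) (fun i => v i + a i) n z‖ ≤ R + 18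

/-- The kicks of a word. -/
def kick {b : ℕ} {A : Finset ℂ} : Option (Fin b → A) → ℕ → ℂ
  | none, _ => 0
  | some f, i => if h : i < b then (f ⟨i, h⟩ : ℂ) else 0

theorem kick_some {b : ℕ} {A : Finset ℂ} (f : Fin b → A) {i : ℕ} (h : i < b) :
    kick (some f) i = (f ⟨i, h⟩ : ℂ) := by
  simp only [kick]; exact dif_pos h

theorem norm_kick {b : ℕ} {A : Finset ℂ} {e : ℝ} (he : 0 ≤ e) (hA : ∀ a ∈ A, ‖a‖ ≤ e)
    (ω : Option (Fin b → A)) (i : ℕ) : ‖kick ω i‖ ≤ e := by
  cases ω with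
  | none => simpa [kick] using he
  | some f =>
    by_cases h : i < b
    · rw [kick_some f h]; exact hA _ (f ⟨i, h⟩).2
    · have : kick (some f) i = 0 := by simp only [kick]; exact dif_neg h
      rw [this, norm_zero]; exact he

/-- The map of the block `k`. -/
noncomputable def FF (d b : ℕ) {A : Finset ℂ} (c : ℕ → ℂ) (k : ℕ) (ω : Option (Fin b → A)) (z : ℂ) :
    ℂ :=
  S (pw d) (fun i => c (k * b + i) + kick ω i) b z

open Classical in
/-- The Lipschitz constant of the block. -/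
noncomputable def lipc (d b : ℕ) {A : Finset ℂ} (R e κ Λ : ℝ) (c : ℕ → ℂ) (k : ℕ)
    (ω : Option (Fin b → A)) (z : ℂ) : ℝ :=
  if BT d b R e (fun i => c (k * b + i)) z ∧ ω = none then κ else Λ

open Classical in
/-- The multiplier of the block. -/
noncomputable def GG (d b : ℕ) {A : Finset ℂ} (R e κ Λ γ s : ℝ) (c : ℕ → ℂ) (k : ℕ)
    (ω : Option (Fin b → A)) (z : ℂ) : ℝ :=
  if ‖z‖ ≤ R + 17 ∧ ‖FF d b c k ω z‖ ≤ R + 17 then γ * (lipc d b R e κ Λ c k ω z) ^ s else 0

/-- The weights. -/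
noncomputable def mu (b : ℕ) (A : Finset ℂ) (q : ℝ) : Option (Fin b → A) → ℝ
  | none => 1 - q
  | some _ => q / (Fintype.card (Fin b → A) : ℝ)

theorem mu_none (b : ℕ) (A : Finset ℂ) (q : ℝ) : mu b A q none = 1 - q := rfl

theorem mu_some (b : ℕ) (A : Finset ℂ) (q : ℝ) (f : Fin b → A) :
    mu b A q (some f) = q / (Fintype.card (Fin b → A) : ℝ) := rfl

variable {d b : ℕ} {A : Finset ℂ} {R e κ Λ γ s q : ℝ}

theorem lipc_pos (hκ : 0 < κ) (hΛ : 0 < Λ) (c : ℕ → ℂ) (k : ℕ) (ω : Option (Fin b → A)) (z : ℂ) :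
    0 < lipc d b R e κ Λ c k ω z := by
  unfold lipc; split_ifs <;> assumption

theorem GG_nonneg (hκ : 0 < κ) (hΛ : 0 < Λ) (hγ : 0 < γ) (c : ℕ → ℂ) (k : ℕ)
    (ω : Option (Fin b → A)) (z : ℂ) : 0 ≤ GG d b R e κ Λ γ s c k ω z := by
  have h := lipc_pos (d := d) (R := R) (e := e) hκ hΛ c k ω z
  unfold GG; split_ifs
  · positivity
  · exact le_rfl

theorem GG_le (hκ : 0 < κ) (hΛ : 0 < Λ) (hγ : 0 < γ) (c : ℕ → ℂ) (k : ℕ)
    (ω : Option (Fin b → A)) (z : ℂ) :
    GG d b R e κ Λ γ s c k ω z ≤ γ * (lipc d b R e κ Λ c k ω z) ^ s := by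
  have h := lipc_pos (d := d) (R := R) (e := e) hκ hΛ c k ω z
  unfold GG; split_ifs
  · exact le_rfl
  · positivity

theorem mu_nonneg (hq0 : 0 ≤ q) (hq1 : q ≤ 1) (ω : Option (Fin b → A)) : 0 ≤ mu b A q ω := by
  cases ω with
  | none => rw [mu_none]; linarith
  | some f => rw [mu_some]; positivity

theorem mu_sum (hA : A.Nonempty) : ∑ ω, mu b A q ω = 1 := by
  have hne : Nonempty A := hA.to_subtype
  have hc : (0 : ℝ) < Fintype.card (Fin b → A) := by exact_mod_cast Fintype.card_pos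
  rw [Fintype.sum_option]
  simp only [mu_none, mu_some, Finset.sum_const, Finset.card_univ, nsmul_eq_mul]
  field_simp
  ring

theorem sum_GG (hd : 2 ≤ d) (hR : 0 ≤ R) (he : 0 ≤ e) (hAne : A.Nonempty)
    (hA : ∀ a ∈ A, ‖a‖ ≤ e) {η : ℝ} (hη0 : 0 ≤ η)
    (hη : η * (b * LL d R ^ b) ≤ 1) (hAη : ∀ a : ℂ, ‖a‖ ≤ e → ∃ a' ∈ A, ‖a' - a‖ ≤ η)
    (hκ : 0 < κ) (hΛ : 0 < Λ) (hγ : 0 < γ) (hq0 : 0 ≤ q) (hq1 : q ≤ 1) {β₀ : ℝ}
    (h1 : (1 - q) * κ ^ s + q * Λ ^ s ≤ β₀)
    (h2 : (1 - q / (Fintype.card (Fin b → A) : ℝ)) * Λ ^ s ≤ β₀)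
    {c : ℕ → ℂ} (hc : ∀ k, ‖c k‖ + e ≤ R) (k : ℕ) (z : ℂ) :
    ∑ ω, mu b A q ω * GG d b R e κ Λ γ s c k ω z ≤ γ * β₀ := by
  classical
  have hne : Nonempty A := hAne.to_subtype
  set Nw : ℝ := (Fintype.card (Fin b → A) : ℝ) with hNw
  have hNw0 : (0 : ℝ) < Nw := by rw [hNw]; exact_mod_cast Fintype.card_pos
  rw [Fintype.sum_option]
  simp only [mu_none, mu_some]
  rw [← hNw]
  by_cases hB : BT d b R e (fun i => c (k * b + i)) z
  · have g1 : GG d b R e κ Λ γ s c k (none : Option (Fin b → A)) z ≤ γ * κ ^ s := by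
      refine (GG_le hκ hΛ hγ c k none z).trans ?_
      unfold lipc
      rw [if_pos ⟨hB, rfl⟩]
    have g2 : ∀ f : Fin b → A, GG d b R e κ Λ γ s c k (some f) z ≤ γ * Λ ^ s := by
      intro f
      refine (GG_le hκ hΛ hγ c k (some f) z).trans ?_
      unfold lipc
      rw [if_neg (by simp)]
    calc (1 - q) * GG d b R e κ Λ γ s c k (none : Option (Fin b → A)) z +
          ∑ f : Fin b → A, q / Nw * GG d b R e κ Λ γ s c k (some f) z
        ≤ (1 - q) * (γ * κ ^ s) + ∑ _f : Fin b → A, q / Nw * (γ * Λ ^ s) := by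
          refine add_le_add ?_ (Finset.sum_le_sum fun f _ => ?_)
          · exact mul_le_mul_of_nonneg_left g1 (by linarith)
          · exact mul_le_mul_of_nonneg_left (g2 f) (by positivity)
      _ = γ * ((1 - q) * κ ^ s + q * Λ ^ s) := by
          rw [Finset.sum_const, Finset.card_univ, nsmul_eq_mul, ← hNw]
          field_simp
      _ ≤ γ * β₀ := by gcongr
  · -- there is a word which leads out
    unfold BT at hB
    push Not at hB
    obtain ⟨a, ha, n, hn, h3⟩ := hB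
    have hch : ∀ i : Fin b, ∃ a' : A, ‖(a' : ℂ) - a i‖ ≤ η := by
      intro i
      obtain ⟨a', ha', h4⟩ := hAη (a i) (ha i)
      exact ⟨⟨a', ha'⟩, h4⟩
    choose f₀ hf₀ using hch
    have hz0 : GG d b R e κ Λ γ s c k (some f₀) z = 0 := by
      have h5 := A_escape hd hR (u := fun i => c (k * b + i) + a i)
        (u' := fun i => c (k * b + i) + kick (some f₀) i) (z := z) (η := η) (m := b)
        (fun i => (norm_add_le _ _).trans (by
          have := norm_kick he hA (some f₀) i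
          have := hc (k * b + i)
          linarith)) hη hη0 (fun i hi => by
          rw [kick_some f₀ hi]
          have h7 := hf₀ ⟨i, hi⟩
          have h8 : c (k * b + i) + (f₀ ⟨i, hi⟩ : ℂ) - (c (k * b + i) + a i) =
            (f₀ ⟨i, hi⟩ : ℂ) - a i := by ring
          rw [h8]
          exact h7) ⟨n, hn, h3⟩
      unfold GG
      rw [if_neg]
      rintro ⟨-, h6⟩
      exact absurd h6 (not_le.2 h5)
    have hBn : ¬ BT d b R e (fun i => c (k * b + i)) z := by
      intro hB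
      exact absurd (hB a ha n hn) (not_le.2 h3)
    have g1 : ∀ ω : Option (Fin b → A), GG d b R e κ Λ γ s c k ω z ≤ γ * Λ ^ s := by
      intro ω
      refine (GG_le hκ hΛ hγ c k ω z).trans ?_
      unfold lipc
      rw [if_neg (fun h => hBn h.1)]
    have hx : 0 ≤ γ * Λ ^ s := by positivity
    calc (1 - q) * GG d b R e κ Λ γ s c k (none : Option (Fin b → A)) z +
          ∑ f : Fin b → A, q / Nw * GG d b R e κ Λ γ s c k (some f) z
        ≤ (1 - q) * (γ * Λ ^ s) +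
          ∑ f : Fin b → A, (q / Nw * (γ * Λ ^ s) - if f = f₀ then q / Nw * (γ * Λ ^ s) else 0) := by
          refine add_le_add ?_ (Finset.sum_le_sum fun f _ => ?_)
          · exact mul_le_mul_of_nonneg_left (g1 none) (by linarith)
          · by_cases hf : f = f₀
            · rw [if_pos hf, hf, hz0, mul_zero, sub_self]
            · rw [if_neg hf, sub_zero]
              exact mul_le_mul_of_nonneg_left (g1 (some f)) (by positivity)
      _ = γ * ((1 - q / Nw) * Λ ^ s) := by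
          rw [Finset.sum_sub_distrib, Finset.sum_const, Finset.card_univ, nsmul_eq_mul, ← hNw,
            Finset.sum_ite_eq' Finset.univ f₀, if_pos (Finset.mem_univ _)]
          field_simp
          ring
      _ ≤ γ * β₀ := by gcongr

/-- The perturbed sequence. -/
noncomputable def cc (b : ℕ) {A : Finset ℂ} (c : ℕ → ℂ) (ω : ℕ → Option (Fin b → A)) (n : ℕ) : ℂ :=
  c n + kick (ω (n / b)) (n % b)

theorem cc_block (hb : 0 < b) (c : ℕ → ℂ) (ω : ℕ → Option (Fin b → A)) {k i : ℕ} (hi : i < b) :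
    cc b c ω (k * b + i) = c (k * b + i) + kick (ω k) i := by
  unfold cc
  have h1 : (k * b + i) / b = k := by
    rw [mul_comm, Nat.mul_add_div hb, Nat.div_eq_of_lt hi, Nat.add_zero]
  have h2 : (k * b + i) % b = i := by
    rw [mul_comm, Nat.mul_add_mod, Nat.mod_eq_of_lt hi]
  rw [h1, h2]

theorem pos_eq (hb : 0 < b) (c : ℕ → ℂ) (ω : ℕ → Option (Fin b → A)) (K j : ℕ) (y : ℂ) :
    pos (FF d b c) ω K j y = S (pw d) (fun i => cc b c ω (K * b + i)) (j * b) y := by
  induction j with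
  | zero => simp [pos, S]
  | succ j ih =>
    rw [pos, ih, Nat.succ_mul, S_add]
    unfold FF
    refine S_congr (fun i hi => ?_) _
    have h1 : K * b + (j * b + i) = (K + j) * b + i := by ring
    rw [h1, cc_block hb c ω hi]

theorem wt_eq (hκ : 0 < κ) (hΛ : 0 < Λ) (c : ℕ → ℂ)
    (ω : ℕ → Option (Fin b → A)) (K j : ℕ) (y : ℂ)
    (h : ∀ l ≤ j, ‖pos (FF d b c) ω K l y‖ ≤ R + 17) :
    0 < wt (FF d b c) (lipc d b R e κ Λ c) ω K j y ∧
    wt (FF d b c) (GG d b R e κ Λ γ s c) ω K j y =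
      γ ^ j * (wt (FF d b c) (lipc d b R e κ Λ c) ω K j y) ^ s := by
  induction j with
  | zero => simp [wt]
  | succ j ih =>
    obtain ⟨h1, h2⟩ := ih fun l hl => h l (by omega)
    have h3 := lipc_pos (d := d) (R := R) (e := e) hκ hΛ c (K + j) (ω (K + j))
      (pos (FF d b c) ω K j y)
    refine ⟨mul_pos h1 h3, ?_⟩
    rw [wt, wt, h2, Real.mul_rpow h1.le h3.le]
    have h4 : GG d b R e κ Λ γ s c (K + j) (ω (K + j)) (pos (FF d b c) ω K j y) =
        γ * (lipc d b R e κ Λ c (K + j) (ω (K + j)) (pos (FF d b c) ω K j y)) ^ s := by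
      unfold GG
      rw [if_pos ⟨h j (by omega), h (j + 1) le_rfl⟩]
    rw [h4]
    ring

end Pool.Agent.R241.NA
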