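import Pool.Agent.R241.NA5

/-!
# Non-autonomous perturbations: the main theorem
-/

set_option autoImplicit false

open Filter Topology Set Metric
open Pool.Agent.R241.NR

namespace Pool.Agent.R241.NA

open Pool.Agent.R241.SK (chordal chordal_le_dist sqrt_ge_norm)

variable {d m : ℕ} {A : Finset ℂ} {R e κ Λ γ s q : ℝ}

theorem deriv_pw_le (hd : 2 ≤ d) (hR : 0 ≤ R) {y : ℂ} (hy : ‖y‖ ≤ R + 18) :
    ‖deriv (pw d) y‖ ≤ LL d R := by
  have h1 : deriv (pw d) y = d * y ^ (d - 1) := by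
    unfold pw; simp
  rw [h1, norm_mul, norm_pow, Complex.norm_natCast]
  unfold LL
  gcongr
  linarith

/-- One block. -/
theorem block_lip (hd : 2 ≤ d) (hR : 0 ≤ R) (he : 0 < e)
    (hκ : κ = LL d R * (((R + 18) / e) * (1 - 1 / ((R + 18) / e)) ^ m) * LL d R)
    (hΛ : Λ = LL d R ^ (m + 2)) {c : ℕ → ℂ}
    (k : ℕ) (ω : Option (Fin (m + 2) → A)) {z w : ℂ}
    (hu : ∀ i, ‖c (k * (m + 2) + i) + kick ω i‖ ≤ R)
    (hz' : ‖FF d (m + 2) c k ω z‖ ≤ R + 17) (hw1 : LL d R * ‖w - z‖ ≤ e)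
    (hw2 : Λ * ‖w - z‖ ≤ 1) :
    ‖FF d (m + 2) c k ω w - FF d (m + 2) c k ω z‖ ≤
      lipc d (m + 2) R e κ Λ c k ω z * ‖w - z‖ := by
  have hL := one_le_LL hd hR
  unfold lipc
  split_ifs with h
  · obtain ⟨hB, hω⟩ := h
    have hz : ‖z‖ ≤ R + 18 := by
      have := hB (fun _ => 0) (fun _ => by rw [norm_zero]; exact he.le) 0 (by omega)
      simpa [S] using this
    have hz2 : ‖w - z‖ ≤ 1 := by
      refine le_trans ?_ hw2
      have h1 : (1 : ℝ) ≤ Λ := by rw [hΛ]; exact one_le_pow₀ hL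
      nlinarith [norm_nonneg (w - z)]
    have hw : ‖w‖ ≤ R + 19 := by
      have h5 : ‖w‖ ≤ ‖w - z‖ + ‖z‖ := by
        have := norm_add_le (w - z) z
        rwa [sub_add_cancel] at this
      linarith
    have h6 : ‖pw d w - pw d z‖ ≤ LL d R * ‖w - z‖ :=
      lip (d := d) (r := R + 19) hw (hz.trans (by linarith))
    have h7 := B_contract (pw_differentiable d) (v := fun i => c (k * (m + 2) + i)) (z := z)
      (e := e) (B := R + 18) (L := LL d R) he (by linarith) (m := m) hB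
      (fun y hy => deriv_pw_le hd hR hy) (w := w) (h6.trans hw1)
    have h8 : FF d (m + 2) c k ω = S (pw d) (fun i => c (k * (m + 2) + i)) (m + 2) := by
      funext y
      unfold FF
      refine S_congr (fun i _ => ?_) _
      rw [hω]; simp [kick]
    rw [h8]
    refine h7.trans ?_
    have h9 : 0 ≤ 1 - 1 / ((R + 18) / e) := by
      by_contra hcon
      -- the bound `1 ≤ (R + 18) / e` holds since `e ≤ R + 18`
      push Not at hcon
      have h10 := hB (fun i => if i = 0 then (e : ℂ) else 0) (fun i => by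
        split_ifs
        · rw [Complex.norm_real, Real.norm_eq_abs, abs_of_pos he]
        · rw [norm_zero]; exact he.le) 1 (by omega)
      have h11 := hB (fun i => if i = 0 then -(e : ℂ) else 0) (fun i => by
        split_ifs
        · rw [norm_neg, Complex.norm_real, Real.norm_eq_abs, abs_of_pos he]
        · rw [norm_zero]; exact he.le) 1 (by omega)
      have h12 : S (pw d) (fun i => c (k * (m + 2) + i) + (if i = 0 then (e : ℂ) else 0)) 1 z -
          S (pw d) (fun i => c (k * (m + 2) + i) + (if i = 0 then -(e : ℂ) else 0)) 1 z =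
          ((2 * e : ℝ) : ℂ) := by
        simp only [S, if_true]
        push_cast; ring
      have h13 : ‖((2 * e : ℝ) : ℂ)‖ ≤ (R + 18) + (R + 18) := by
        rw [← h12]
        exact (norm_sub_le _ _).trans (add_le_add h10 h11)
      rw [Complex.norm_real, Real.norm_eq_abs, abs_of_pos (by linarith)] at h13
      have h14 : 1 / ((R + 18) / e) ≤ 1 := by
        rw [one_div_div, div_le_one (by linarith)]; linarith
      linarith
    rw [hκ]
    calc LL d R * ((R + 18) / e * (1 - 1 / ((R + 18) / e)) ^ m) * ‖pw d w - pw d z‖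
        ≤ LL d R * ((R + 18) / e * (1 - 1 / ((R + 18) / e)) ^ m) * (LL d R * ‖w - z‖) := by
          gcongr
      _ = _ := by ring
  · have hz1 : ∀ i < m + 2, ‖S (pw d) (fun i => c (k * (m + 2) + i) + kick ω i) i z‖ ≤ R + 18 := by
      intro i hi
      have := alive_back hd hR hu (z := z) (n := m + 2) hz' (j := i) (by omega)
      linarith
    have h1 := lip_orbit hd hR (u := fun i => c (k * (m + 2) + i) + kick ω i) (w := w) hz1
      (by rw [← hΛ]; exact hw2)
    rw [hΛ]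
    exact h1

/-- Tracking over many blocks. -/
theorem track (hd : 2 ≤ d) (hR : 0 ≤ R) (he : 0 < e)
    (hκ : κ = LL d R * (((R + 18) / e) * (1 - 1 / ((R + 18) / e)) ^ m) * LL d R)
    (hκ0 : 0 < κ)
    (hΛ : Λ = LL d R ^ (m + 2)) {c : ℕ → ℂ} {ω : ℕ → Option (Fin (m + 2) → A)}
    (hu : ∀ k i, ‖c (k * (m + 2) + i) + kick (ω k) i‖ ≤ R) {K : ℕ} {z : ℂ} {C₂ θb : ℝ}
    (hθ0 : 0 < θb) (hθ1 : θb < 1)
    (hlip : ∀ j, (∀ l ≤ j, ‖pos (FF d (m + 2) c) ω K l z‖ ≤ R + 17) →
      wt (FF d (m + 2) c) (lipc d (m + 2) R e κ Λ c) ω K j z ≤ C₂ * θb ^ j) (hC₂ : 0 ≤ C₂)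
    {w : ℂ} (hw1 : LL d R * (C₂ * ‖w - z‖) ≤ e) (hw2 : Λ * (C₂ * ‖w - z‖) ≤ 1) (j : ℕ)
    (hal : ∀ l ≤ j, ‖pos (FF d (m + 2) c) ω K l z‖ ≤ R + 17) :
    ‖pos (FF d (m + 2) c) ω K j w - pos (FF d (m + 2) c) ω K j z‖ ≤
      wt (FF d (m + 2) c) (lipc d (m + 2) R e κ Λ c) ω K j z * ‖w - z‖ := by
  have hL := one_le_LL hd hR
  have hΛ1 : (1 : ℝ) ≤ Λ := by rw [hΛ]; exact one_le_pow₀ hL
  induction j with
  | zero => simp [pos, wt]
  | succ j ih =>
    have h1 := ih fun l hl => hal l (by omega)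
    have h2 := hlip j fun l hl => hal l (by omega)
    have h3 : ‖pos (FF d (m + 2) c) ω K j w - pos (FF d (m + 2) c) ω K j z‖ ≤ C₂ * ‖w - z‖ := by
      refine h1.trans ?_
      gcongr
      refine h2.trans ?_
      have : θb ^ j ≤ 1 := pow_le_one₀ hθ0.le hθ1.le
      nlinarith
    have h4 := block_lip hd hR he hκ hΛ (c := c) (K + j) (ω (K + j))
      (z := pos (FF d (m + 2) c) ω K j z) (w := pos (FF d (m + 2) c) ω K j w)
      (hu (K + j)) (hal (j + 1) le_rfl)
      (le_trans (mul_le_mul_of_nonneg_left h3 (by linarith)) hw1)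
      (le_trans (mul_le_mul_of_nonneg_left h3 (by linarith)) hw2)
    have h5 := lipc_pos (d := d) (R := R) (e := e) hκ0 (by linarith : 0 < Λ) c (K + j) (ω (K + j))
      (pos (FF d (m + 2) c) ω K j z)
    rw [pos, pos, wt]
    refine h4.trans ?_
    calc _ ≤ lipc d (m + 2) R e κ Λ c (K + j) (ω (K + j)) (pos (FF d (m + 2) c) ω K j z) *
          (wt (FF d (m + 2) c) (lipc d (m + 2) R e κ Λ c) ω K j z * ‖w - z‖) := by gcongr
      _ = _ := by ring

theorem chordal_le_div {z w : ℂ} (hz : 0 < ‖z‖) (hw : 0 < ‖w‖) :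
    chordal z w ≤ ‖z - w‖ / (‖z‖ * ‖w‖) := by
  unfold chordal
  have h1 := sqrt_ge_norm z
  have h2 := sqrt_ge_norm w
  gcongr

end Pool.Agent.R241.NA
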