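import Pool.Agent.R241.NA6

/-!
# Non-autonomous hyperbolicity: two-point estimates
-/

set_option autoImplicit false

open Filter Topology Set Metric
open Pool.Agent.R241.NR

namespace Pool.Agent.R241.NA

open Pool.Agent.R241.SK (S_differentiable chordal chordal_le_dist)

/-- Contraction over a block, for two points near a robust point. -/
theorem B_contract2 {g : ℂ → ℂ} (hg : Differentiable ℂ g) {v : ℕ → ℂ} {z : ℂ} {e B L : ℝ}
    (he : 0 < e) (hB0 : 0 < B) {m : ℕ}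
    (hB : ∀ a : ℕ → ℂ, (∀ i, ‖a i‖ ≤ e) → ∀ n ≤ m + 2, ‖S g (fun i => v i + a i) n z‖ ≤ B)
    (hL1 : ∀ y : ℂ, ‖y‖ ≤ B → ‖deriv g y‖ ≤ L)
    {w o : ℂ} (hw : ‖g w - g z‖ ≤ e) (ho : ‖g o - g z‖ ≤ e) :
    ‖S g v (m + 2) w - S g v (m + 2) o‖ ≤
      L * ((B / e) * (1 - 1 / (B / e)) ^ m) * ‖g w - g o‖ := by
  rw [S_head g v (m + 1) w, S_head g v (m + 1) o]
  set v' : ℕ → ℂ := fun i => v (i + 1) with hv'
  set z₁ : ℂ := g z + v 0 with hz₁
  have hy : ∀ y ∈ closedBall z₁ e, ∀ a : ℕ → ℂ, (∀ i, ‖a i‖ ≤ e) → ∀ n ≤ m + 1,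
      ‖S g (fun i => v' i + a i) n y‖ ≤ B := by
    intro y hy a ha n hn
    rw [mem_closedBall, dist_eq_norm] at hy
    have h1 := hB (fun i => Nat.casesOn i (y - z₁) a) (fun i => by
      cases i with
      | zero => exact hy
      | succ i => exact ha i) (n + 1) (by omega)
    rw [S_head] at h1
    have h2 : g z + (v 0 + (y - z₁)) = y := by rw [hz₁]; ring
    have h3 : ‖S g (fun i => v (i + 1) + a i) n (g z + (v 0 + (y - z₁)))‖ ≤ B := h1
    rw [h2] at h3
    exact h3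
  have hder : ∀ y ∈ closedBall z₁ e, ‖deriv (S g v' (m + 1)) y‖ ≤
      L * ((B / e) * (1 - 1 / (B / e)) ^ m) := by
    intro y hyy
    refine deriv_bound hg he hB0 (N := m + 1) (hy y hyy) (hL1 y ?_) m le_rfl
    exact hy y hyy (fun _ => 0) (fun _ => by rw [norm_zero]; exact he.le) 0 (by omega)
  have hmem : ∀ x : ℂ, ‖g x - g z‖ ≤ e → g x + v 0 ∈ closedBall z₁ e := by
    intro x hx
    rw [mem_closedBall, dist_eq_norm, hz₁]
    have : g x + v 0 - (g z + v 0) = g x - g z := by ring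
    rw [this]; exact hx
  have h1 := (convex_closedBall z₁ e).norm_image_sub_le_of_norm_deriv_le
    (f := S g v' (m + 1)) (C := L * ((B / e) * (1 - 1 / (B / e)) ^ m))
    (fun u _ => (S_differentiable hg v' (m + 1)) u) hder (hmem o ho) (hmem w hw)
  have h2 : g w + v 0 - (g o + v 0) = g w - g o := by ring
  rw [h2] at h1
  exact h1

variable {d m : ℕ} {A : Finset ℂ} {R e κ Λ γ s q ρ : ℝ}

theorem lip_orbit2 (hd : 2 ≤ d) (hR : 0 ≤ R) {u : ℕ → ℂ} {z w o : ℂ} {n : ℕ}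
    (hz : ∀ i < n, ‖S (pw d) u i z‖ ≤ R + 18) (hw : LL d R ^ n * ‖w - z‖ ≤ 1)
    (ho : LL d R ^ n * ‖o - z‖ ≤ 1) :
    ‖S (pw d) u n w - S (pw d) u n o‖ ≤ LL d R ^ n * ‖w - o‖ := by
  have hL := one_le_LL hd hR
  induction n with
  | zero => simp [S]
  | succ n ih =>
    have hmono : ∀ x : ℂ, LL d R ^ (n + 1) * ‖x - z‖ ≤ 1 → LL d R ^ n * ‖x - z‖ ≤ 1 := by
      intro x hx
      refine le_trans ?_ hx
      gcongr
      omega
    have h2 := ih (fun i hi => hz i (by omega)) (hmono w hw) (hmono o ho)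
    have h3 := hz n (by omega)
    have h4 : ∀ x : ℂ, LL d R ^ (n + 1) * ‖x - z‖ ≤ 1 → ‖S (pw d) u n x‖ ≤ R + 19 := by
      intro x hx
      have h0 := lip_orbit hd hR (u := u) (z := z) (w := x) (n := n)
        (fun i hi => hz i (by omega)) (hmono x hx)
      have h5 : ‖S (pw d) u n x‖ ≤ ‖S (pw d) u n x - S (pw d) u n z‖ + ‖S (pw d) u n z‖ := by
        have := norm_add_le (S (pw d) u n x - S (pw d) u n z) (S (pw d) u n z)
        rwa [sub_add_cancel] at this
      linarith [hmono x hx]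
    have h6 := lip (d := d) (r := R + 19) (h4 w hw) (h4 o ho)
    have h7 : S (pw d) u (n + 1) w - S (pw d) u (n + 1) o =
        (S (pw d) u n w) ^ d - (S (pw d) u n o) ^ d := by
      change ((S (pw d) u n w) ^ d + u n) - ((S (pw d) u n o) ^ d + u n) = _
      ring
    rw [h7, pow_succ]
    calc _ ≤ LL d R * ‖S (pw d) u n w - S (pw d) u n o‖ := h6
      _ ≤ LL d R * (LL d R ^ n * ‖w - o‖) := by gcongr
      _ = _ := by ring

/-- The constants of a block. -/
structure Cst (d m : ℕ) (R e κ Λ ρ : ℝ) : Prop where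
  hd : 2 ≤ d
  hR : 0 ≤ R
  he : 0 < e
  hκ : κ = LL d R * (((R + 18) / e) * (1 - 1 / ((R + 18) / e)) ^ m) * LL d R
  hκ0 : 0 < κ
  hΛ : Λ = LL d R ^ (m + 2)
  hρ0 : 0 < ρ
  hρ1 : LL d R * ρ ≤ e
  hρ2 : Λ * ρ ≤ 1 / 2

theorem Cst.hΛ1 (h : Cst d m R e κ Λ ρ) : 1 ≤ Λ := by
  rw [h.hΛ]; exact one_le_pow₀ (one_le_LL h.hd h.hR)

theorem Cst.hρ3 (h : Cst d m R e κ Λ ρ) : ρ ≤ 1 / 2 := by
  have h1 := h.hΛ1
  have h2 := h.hρ2
  have h3 := h.hρ0
  nlinarith

/-- One block, two points. -/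
theorem block_lip2 (hC : Cst d m R e κ Λ ρ) {c : ℕ → ℂ}
    (k : ℕ) (ω : Option (Fin (m + 2) → A)) {z w o : ℂ}
    (hu : ∀ i, ‖c (k * (m + 2) + i) + kick ω i‖ ≤ R)
    (hz' : ‖FF d (m + 2) c k ω z‖ ≤ R + 17) (hw : ‖w - z‖ ≤ ρ) (ho : ‖o - z‖ ≤ ρ) :
    ‖FF d (m + 2) c k ω w - FF d (m + 2) c k ω o‖ ≤
      lipc d (m + 2) R e κ Λ c k ω z * ‖w - o‖ := by
  obtain ⟨hd, hR, he, hκ, hκ0, hΛ, hρ0, hρ1, hρ2⟩ := hC
  have hL := one_le_LL hd hR
  have hΛ1 : (1 : ℝ) ≤ Λ := by rw [hΛ]; exact one_le_pow₀ hL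
  have hρ3 : ρ ≤ 1 := by nlinarith
  unfold lipc
  split_ifs with h
  · obtain ⟨hB, hω⟩ := h
    have hz : ‖z‖ ≤ R + 18 := by
      have := hB (fun _ => 0) (fun _ => by rw [norm_zero]; exact he.le) 0 (by omega)
      simpa [S] using this
    have hx : ∀ x : ℂ, ‖x - z‖ ≤ ρ → ‖x‖ ≤ R + 19 := by
      intro x hx
      have h5 : ‖x‖ ≤ ‖x - z‖ + ‖z‖ := by
        have := norm_add_le (x - z) z
        rwa [sub_add_cancel] at this
      linarith
    have h6 : ∀ x : ℂ, ‖x - z‖ ≤ ρ → ‖pw d x - pw d z‖ ≤ e := by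
      intro x hx'
      refine (lip (d := d) (r := R + 19) (hx x hx') (hz.trans (by linarith))).trans ?_
      refine le_trans ?_ hρ1
      exact mul_le_mul_of_nonneg_left hx' (by linarith : (0 : ℝ) ≤ LL d R)
    have h6' : ‖pw d w - pw d o‖ ≤ LL d R * ‖w - o‖ :=
      lip (d := d) (r := R + 19) (hx w hw) (hx o ho)
    have h7 := B_contract2 (pw_differentiable d) (v := fun i => c (k * (m + 2) + i)) (z := z)
      (e := e) (B := R + 18) (L := LL d R) he (by linarith) (m := m) hB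
      (fun y hy => deriv_pw_le hd hR hy) (w := w) (o := o) (h6 w hw) (h6 o ho)
    have h8 : FF d (m + 2) c k ω = S (pw d) (fun i => c (k * (m + 2) + i)) (m + 2) := by
      funext y
      unfold FF
      refine S_congr (fun i _ => ?_) _
      rw [hω]; simp [kick]
    rw [h8]
    refine h7.trans ?_
    have h9 : 0 ≤ 1 - 1 / ((R + 18) / e) := by
      by_contra hcon
      push Not at hcon
      have h10 := hB (fun i => if i = 0 then (e : ℂ) else 0) (fun i => by
        split_ifs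
        · rw [Complex.norm_real, Real.norm_eq_abs, abs_of_pos he]
        · rw [norm_zero]; exact he.le) 1 (by omega)
      have h11 := hB (fun i => if i = 0 then -(e : ℂ) else 0) (fun i => by
        split_ifs
        · rw [norm_neg, Complex.norm_real, Real.norm_eq_abs, abs_of_pos he]
        · rw [norm_zero]; exact he.le) 1 (by omega)
      have h12 : S (pw d) (fun i => c (k * (m + 2) + i) + (if i = 0 then (e : ℂ) else 0)) 1 z -
          S (pw d) (fun i => c (k * (m + 2) + i) + (if i = 0 then -(e : ℂ) else 0)) 1 z =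
          ((2 * e : ℝ) : ℂ) := by
        simp only [S, if_true]
        push_cast; ring
      have h13 : ‖((2 * e : ℝ) : ℂ)‖ ≤ (R + 18) + (R + 18) := by
        rw [← h12]
        exact (norm_sub_le _ _).trans (add_le_add h10 h11)
      rw [Complex.norm_real, Real.norm_eq_abs, abs_of_pos (by linarith)] at h13
      have h14 : 1 / ((R + 18) / e) ≤ 1 := by
        rw [one_div_div, div_le_one (by linarith)]; linarith
      linarith
    rw [hκ]
    calc LL d R * ((R + 18) / e * (1 - 1 / ((R + 18) / e)) ^ m) * ‖pw d w - pw d o‖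
        ≤ LL d R * ((R + 18) / e * (1 - 1 / ((R + 18) / e)) ^ m) * (LL d R * ‖w - o‖) := by
          gcongr
      _ = _ := by ring
  · have hz1 : ∀ i < m + 2, ‖S (pw d) (fun i => c (k * (m + 2) + i) + kick ω i) i z‖ ≤ R + 18 := by
      intro i hi
      have := alive_back hd hR hu (z := z) (n := m + 2) hz' (j := i) (by omega)
      linarith
    have hx : ∀ x : ℂ, ‖x - z‖ ≤ ρ → LL d R ^ (m + 2) * ‖x - z‖ ≤ 1 := by
      intro x hx
      rw [← hΛ]
      have : Λ * ‖x - z‖ ≤ Λ * ρ := by gcongr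
      linarith
    have h1 := lip_orbit2 hd hR (u := fun i => c (k * (m + 2) + i) + kick ω i) (w := w) (o := o) hz1
      (hx w hw) (hx o ho)
    rw [hΛ]
    exact h1

theorem pos_add {Z Ω : Type} (F : ℕ → Ω → Z → Z) (ω : ℕ → Ω) (j a n : ℕ) (z : Z) :
    pos F ω j (a + n) z = pos F ω (j + a) n (pos F ω j a z) := by
  induction n with
  | zero => rfl
  | succ n ih => rw [← Nat.add_assoc, pos, pos, ih, Nat.add_assoc]

theorem wt_add {Z Ω : Type} (F : ℕ → Ω → Z → Z) (G : ℕ → Ω → Z → ℝ) (ω : ℕ → Ω) (j a n : ℕ)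
    (z : Z) : wt F G ω j (a + n) z = wt F G ω j a z * wt F G ω (j + a) n (pos F ω j a z) := by
  induction n with
  | zero => simp [wt]
  | succ n ih => rw [← Nat.add_assoc, wt, wt, ih, pos_add, Nat.add_assoc, mul_assoc]

theorem pos_congr {Z Ω : Type} {F : ℕ → Ω → Z → Z} {ω ω' : ℕ → Ω} {j n : ℕ}
    (h : ∀ k, j ≤ k → k < j + n → ω k = ω' k) (z : Z) : pos F ω j n z = pos F ω' j n z := by
  induction n with
  | zero => rfl
  | succ n ih =>
    rw [pos, pos, ih (fun k h1 h2 => h k h1 (by omega)), h (j + n) (by omega) (by omega)]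

theorem wt_congr {Z Ω : Type} {F : ℕ → Ω → Z → Z} {G : ℕ → Ω → Z → ℝ} {ω ω' : ℕ → Ω} {j n : ℕ}
    (h : ∀ k, j ≤ k → k < j + n → ω k = ω' k) (z : Z) : wt F G ω j n z = wt F G ω' j n z := by
  induction n with
  | zero => rfl
  | succ n ih =>
    rw [wt, wt, ih (fun k h1 h2 => h k h1 (by omega)), h (j + n) (by omega) (by omega),
      pos_congr (fun k h1 h2 => h k h1 (by omega))]

theorem wt_pos (hκ : 0 < κ) (hΛ : 0 < Λ) {b : ℕ} (c : ℕ → ℂ)
    (ω : ℕ → Option (Fin b → A)) (K j : ℕ) (y : ℂ) :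
    0 < wt (FF d b c) (lipc d b R e κ Λ c) ω K j y := by
  induction j with
  | zero => simp [wt]
  | succ j ih =>
    rw [wt]
    exact mul_pos ih (lipc_pos (d := d) (R := R) (e := e) hκ hΛ c (K + j) (ω (K + j)) _)

/-- Tracking over many blocks, two points. -/
theorem track2 (hC : Cst d m R e κ Λ ρ) {c : ℕ → ℂ} {ω : ℕ → Option (Fin (m + 2) → A)}
    (hu : ∀ k i, ‖c (k * (m + 2) + i) + kick (ω k) i‖ ≤ R) {K : ℕ} {z w o : ℂ} (j : ℕ)
    (hal : ∀ l ≤ j, ‖pos (FF d (m + 2) c) ω K l z‖ ≤ R + 17)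
    (hw : ∀ l ≤ j, wt (FF d (m + 2) c) (lipc d (m + 2) R e κ Λ c) ω K l z * ‖w - z‖ ≤ ρ)
    (ho : ∀ l ≤ j, wt (FF d (m + 2) c) (lipc d (m + 2) R e κ Λ c) ω K l z * ‖o - z‖ ≤ ρ) :
    ‖pos (FF d (m + 2) c) ω K j w - pos (FF d (m + 2) c) ω K j o‖ ≤
      wt (FF d (m + 2) c) (lipc d (m + 2) R e κ Λ c) ω K j z * ‖w - o‖ := by
  have hΛ1 := hC.hΛ1
  have one : ∀ x : ℂ,
      (∀ l ≤ j, wt (FF d (m + 2) c) (lipc d (m + 2) R e κ Λ c) ω K l z * ‖x - z‖ ≤ ρ) → ∀ l ≤ j,
      ‖pos (FF d (m + 2) c) ω K l x - pos (FF d (m + 2) c) ω K l z‖ ≤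
      wt (FF d (m + 2) c) (lipc d (m + 2) R e κ Λ c) ω K l z * ‖x - z‖ := by
    intro x hx l
    induction l with
    | zero => intro _; simp [pos, wt]
    | succ l ih =>
      intro hl
      have h1 := ih (by omega)
      have h4 := block_lip2 hC (c := c) (K + l) (ω (K + l))
        (z := pos (FF d (m + 2) c) ω K l z) (w := pos (FF d (m + 2) c) ω K l x)
        (o := pos (FF d (m + 2) c) ω K l z)
        (hu (K + l)) (hal (l + 1) hl) (h1.trans (hx l (by omega)))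
        (by rw [sub_self, norm_zero]; exact hC.hρ0.le)
      have h5 := lipc_pos (d := d) (R := R) (e := e) hC.hκ0 (by linarith : 0 < Λ) c (K + l)
        (ω (K + l)) (pos (FF d (m + 2) c) ω K l z)
      rw [pos, pos, wt]
      refine h4.trans ?_
      calc _ ≤ lipc d (m + 2) R e κ Λ c (K + l) (ω (K + l)) (pos (FF d (m + 2) c) ω K l z) *
            (wt (FF d (m + 2) c) (lipc d (m + 2) R e κ Λ c) ω K l z * ‖x - z‖) := by gcongr
        _ = _ := by ring
  have two : ∀ l ≤ j, ‖pos (FF d (m + 2) c) ω K l w - pos (FF d (m + 2) c) ω K l o‖ ≤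
      wt (FF d (m + 2) c) (lipc d (m + 2) R e κ Λ c) ω K l z * ‖w - o‖ := by
    intro l
    induction l with
    | zero => intro _; simp [pos, wt]
    | succ l ih =>
      intro hl
      have h1 := ih (by omega)
      have h4 := block_lip2 hC (c := c) (K + l) (ω (K + l))
        (z := pos (FF d (m + 2) c) ω K l z) (w := pos (FF d (m + 2) c) ω K l w)
        (o := pos (FF d (m + 2) c) ω K l o)
        (hu (K + l)) (hal (l + 1) hl) ((one w hw l (by omega)).trans (hw l (by omega)))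
        ((one o ho l (by omega)).trans (ho l (by omega)))
      have h5 := lipc_pos (d := d) (R := R) (e := e) hC.hκ0 (by linarith : 0 < Λ) c (K + l)
        (ω (K + l)) (pos (FF d (m + 2) c) ω K l z)
      rw [pos, pos, wt]
      refine h4.trans ?_
      calc _ ≤ lipc d (m + 2) R e κ Λ c (K + l) (ω (K + l)) (pos (FF d (m + 2) c) ω K l z) *
            (wt (FF d (m + 2) c) (lipc d (m + 2) R e κ Λ c) ω K l z * ‖w - o‖) := by gcongr
        _ = _ := by ring
  exact two j le_rfl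

end Pool.Agent.R241.NA
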