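import Pool.Agent.R241.NB1

/-!
# The greedy choice with restarts
-/

set_option autoImplicit false

namespace Pool.Agent.R241.NA

variable {Z Ω : Type}

/-- The items: the trajectories from `Z₀` at time `K` and all later entries. -/
def items (F : ℕ → Ω → Z → Z) (E : ℕ → Ω → List Z) (K : ℕ) (Z₀ : List Z) (ω : ℕ → Ω) : ℕ → List Z
  | 0 => Z₀
  | t + 1 => (items F E K Z₀ ω t).map (F (K + t) (ω (K + t))) ++ E (K + t) (ω (K + t))

theorem items_length {F : ℕ → Ω → Z → Z} {E : ℕ → Ω → List Z} {K : ℕ} {Z₀ : List Z} {ω : ℕ → Ω}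
    {N b : ℕ} (hZ : Z₀.length ≤ N) (hE : ∀ k ω, (E k ω).length ≤ b) (t : ℕ) :
    (items F E K Z₀ ω t).length ≤ N + b * t := by
  induction t with
  | zero => simpa [items] using hZ
  | succ t ih =>
    rw [items, List.length_append, List.length_map]
    have := hE (K + t) (ω (K + t))
    rw [Nat.mul_succ]
    omega

theorem items_old {F : ℕ → Ω → Z → Z} {E : ℕ → Ω → List Z} {K : ℕ} {Z₀ : List Z} {ω : ℕ → Ω}
    {z : Z} (hz : z ∈ Z₀) (t : ℕ) : pos F ω K t z ∈ items F E K Z₀ ω t := by
  induction t with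
  | zero => exact hz
  | succ t ih =>
    rw [items, pos, List.mem_append]
    left
    exact List.mem_map.2 ⟨_, ih, rfl⟩

theorem items_new {F : ℕ → Ω → Z → Z} {E : ℕ → Ω → List Z} {K : ℕ} {Z₀ : List Z} {ω : ℕ → Ω}
    {t : ℕ} {z : Z} (hz : z ∈ E (K + t) (ω (K + t))) (i : ℕ) :
    pos F ω (K + (t + 1)) i z ∈ items F E K Z₀ ω (t + 1 + i) := by
  induction i with
  | zero =>
    rw [Nat.add_zero, items, List.mem_append]
    right
    exact hz
  | succ i ih =>
    rw [← Nat.add_assoc (t + 1) i 1, items, pos, List.mem_append]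
    left
    refine List.mem_map.2 ⟨_, ih, ?_⟩
    rw [Nat.add_assoc K (t + 1) i]

theorem total_map_one (l : List Z) : total (l.map fun z => (z, (1 : ℝ))) = l.length := by
  unfold total
  rw [List.map_map]
  simp [Function.comp_def]

theorem total_append (l₁ l₂ : List (Z × ℝ)) : total (l₁ ++ l₂) = total l₁ + total l₂ := by
  unfold total
  rw [List.map_append, List.sum_append]

/-- The greedy choice, with restarts during a window. -/
theorem greedy2 [Fintype Ω] {μ : Ω → ℝ} (hμ0 : ∀ ω, 0 ≤ μ ω) (hμ1 : ∑ ω, μ ω = 1)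
    (F : ℕ → Ω → Z → Z) (G : ℕ → Ω → Z → ℝ) (hG0 : ∀ k ω z, 0 ≤ G k ω z) {β : ℝ}
    (hβ0 : 0 ≤ β) (hβ1 : β < 1) (hG : ∀ k z, ∑ ω, μ ω * G k ω z ≤ β) (E : ℕ → Ω → List Z)
    (K T : ℕ) (Z₀ : List Z) {N b : ℕ} (hZ : Z₀.length ≤ N) (hE : ∀ k ω, (E k ω).length ≤ b) :
    ∃ ω : ℕ → Ω, ∀ t ≤ T, ∀ z ∈ items F E K Z₀ ω t, ∀ n : ℕ,
      wt F G ω (K + t) n z ≤ ((N : ℝ) + b * T) / (1 - β) := by
  classical
  have hne : ∃ ω, 0 < μ ω := by
    by_contra hcon
    push Not at hcon
    have : ∑ ω, μ ω ≤ 0 := Finset.sum_nonpos fun ω _ => hcon ω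
    linarith
  set E₀ : ℝ := (N : ℝ) + b * T with hE₀
  have hE0 : 0 ≤ E₀ := by positivity
  set C : ℝ := E₀ / (1 - β) with hC
  have hC0 : 0 ≤ C := div_nonneg hE0 (by linarith)
  have hCeq : β * C + E₀ = C := by
    have h1 : (1 - β) ≠ 0 := by linarith
    rw [hC, eq_div_iff h1, add_mul, mul_assoc, div_mul_cancel₀ _ h1]; ring
  have hEC : E₀ ≤ C := by nlinarith
  have hpick : ∀ (k : ℕ) (st : List (Z × ℝ)), ∃ ω : Ω, (∀ p ∈ st, 0 ≤ p.2) →
      total (st.map (fun p => (F k ω p.1, p.2 * G k ω p.1))) ≤ β * total st := by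
    intro k st
    by_cases hst : ∀ p ∈ st, 0 ≤ p.2
    · by_contra hcon
      push Not at hcon
      have h1 := avg (μ := μ) (k := k) (hG k) st hst
      obtain ⟨ω₀, hω₀⟩ := hne
      have htot : ∀ ω, total (st.map (fun p => (F k ω p.1, p.2 * G k ω p.1))) =
          (st.map fun p => p.2 * G k ω p.1).sum := by
        intro ω
        unfold total
        rw [List.map_map]
        rfl
      have h2 : ∑ ω, μ ω * (β * total st) <
          ∑ ω, μ ω * total (st.map (fun p => (F k ω p.1, p.2 * G k ω p.1))) := by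
        refine Finset.sum_lt_sum (fun ω _ => ?_) ⟨ω₀, Finset.mem_univ _, ?_⟩
        · exact mul_le_mul_of_nonneg_left (hcon ω).2.le (hμ0 ω)
        · exact mul_lt_mul_of_pos_left (hcon ω₀).2 hω₀
      rw [← Finset.sum_mul, hμ1, one_mul] at h2
      simp only [htot] at h2
      linarith
    · obtain ⟨ω, -⟩ := hne
      exact ⟨ω, fun h => absurd h hst⟩
  choose pick hpick using hpick
  -- the state at time `K + t`: the items and the weights
  let s : ℕ → List Z × List (Z × ℝ) := fun n => Nat.rec (Z₀, Z₀.map fun z => (z, (1 : ℝ)))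
    (fun t st =>
      let ω := pick (K + t) st.2
      let it := st.1.map (F (K + t) ω) ++ E (K + t) ω
      (it, st.2.map (fun p => (F (K + t) ω p.1, p.2 * G (K + t) ω p.1)) ++
        if t < T then it.map fun z => (z, (1 : ℝ)) else [])) n
  have hs0 : s 0 = (Z₀, Z₀.map fun z => (z, (1 : ℝ))) := rfl
  set ω : ℕ → Ω := fun k => pick k (s (k - K)).2 with hω
  have hωt : ∀ t, ω (K + t) = pick (K + t) (s t).2 := by
    intro t
    rw [hω]
    simp only
    rw [Nat.add_sub_cancel_left]
  have hs1 : ∀ t, (s (t + 1)).1 = (s t).1.map (F (K + t) (ω (K + t))) ++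
      E (K + t) (ω (K + t)) := by
    intro t; rw [hωt]
  have hs2 : ∀ t, (s (t + 1)).2 =
      (s t).2.map (fun p => (F (K + t) (ω (K + t)) p.1, p.2 * G (K + t) (ω (K + t)) p.1)) ++
        if t < T then ((s (t + 1)).1).map fun z => (z, (1 : ℝ)) else [] := by
    intro t; rw [hs1, hωt]
  clear_value ω s
  have hit : ∀ t, (s t).1 = items F E K Z₀ ω t := by
    intro t
    induction t with
    | zero => rw [hs0]; rfl
    | succ t ih => rw [hs1, ih]; rfl
  have hinv : ∀ t, (∀ p ∈ (s t).2, 0 ≤ p.2) ∧ total (s t).2 ≤ C := by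
    intro t
    induction t with
    | zero =>
      rw [hs0]
      constructor
      · intro p hp
        obtain ⟨z, -, rfl⟩ := List.mem_map.1 hp
        exact zero_le_one
      · simp only
        rw [total_map_one]
        refine le_trans ?_ hEC
        have h1 : (Z₀.length : ℝ) ≤ N := by exact_mod_cast hZ
        have h2 : (0 : ℝ) ≤ b * T := by positivity
        linarith
    | succ t ih =>
      obtain ⟨h1, h2⟩ := ih
      have h3 := hpick (K + t) (s t).2 h1
      rw [← hωt] at h3
      have h4 := mul_le_mul_of_nonneg_left h2 hβ0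
      rw [hs2]
      constructor
      · intro p hp
        rw [List.mem_append] at hp
        rcases hp with hp | hp
        · obtain ⟨q, hq, rfl⟩ := List.mem_map.1 hp
          exact mul_nonneg (h1 q hq) (hG0 _ _ _)
        · split_ifs at hp
          · obtain ⟨z, -, rfl⟩ := List.mem_map.1 hp
            exact zero_le_one
          · exact absurd hp List.not_mem_nil
      · rw [total_append]
        have h5 : total (if t < T then ((s (t + 1)).1).map fun z => (z, (1 : ℝ)) else []) ≤ E₀ := by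
          split_ifs with h6
          · rw [total_map_one, hit]
            have h7 := items_length (F := F) (K := K) (ω := ω) hZ hE (t + 1)
            have h8 : N + b * (t + 1) ≤ N + b * T := by
              have : b * (t + 1) ≤ b * T := Nat.mul_le_mul_left _ h6
              omega
            have h9 : ((items F E K Z₀ ω (t + 1)).length : ℝ) ≤ ((N + b * T : ℕ) : ℝ) := by
              exact_mod_cast h7.trans h8
            push_cast at h9
            exact h9
          · simpa [total] using hE0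
        linarith
  refine ⟨ω, fun t ht z hz n => ?_⟩
  have hmem : (pos F ω (K + t) n z, wt F G ω (K + t) n z) ∈ (s (t + n)).2 := by
    induction n with
    | zero =>
      rw [Nat.add_zero]
      cases t with
      | zero =>
        rw [hs0]
        exact List.mem_map.2 ⟨z, hz, rfl⟩
      | succ t =>
        rw [hs2, List.mem_append]
        right
        rw [if_pos (by omega), hit]
        exact List.mem_map.2 ⟨z, hz, rfl⟩
    | succ n ih =>
      rw [← Nat.add_assoc t n 1, hs2, List.mem_append]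
      left
      refine List.mem_map.2 ⟨_, ih, ?_⟩
      rw [pos, wt, Nat.add_assoc K t n]
  have h1 := hinv (t + n)
  refine le_trans ?_ h1.2
  refine List.single_le_sum ?_ _ (List.mem_map.2 ⟨_, hmem, rfl⟩)
  intro x hx
  obtain ⟨p, hp, rfl⟩ := List.mem_map.1 hx
  exact h1.1 p hp

/-- Choosing one representative for each label. -/
theorem representatives {Λ' : Type} (s : Finset Λ') (P : ℂ → Λ' → Prop) (f : ℂ → ℂ) {r : ℝ}
    (hP : ∀ l ∈ s, ∀ z z', P z l → P z' l → ‖f z - f z'‖ ≤ r) :
    ∃ L : List ℂ, L.length ≤ s.card ∧ ∀ z, (∃ l ∈ s, P z l) → ∃ z' ∈ L, ‖f z - z'‖ ≤ r := by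
  classical
  refine ⟨s.toList.map fun l => if h : ∃ z, P z l then f h.choose else 0, ?_, ?_⟩
  · rw [List.length_map, Finset.length_toList]
  · rintro z ⟨l, hl, hz⟩
    have h : ∃ z, P z l := ⟨z, hz⟩
    refine ⟨f h.choose, ?_, hP l hl z _ hz h.choose_spec⟩
    refine List.mem_map.2 ⟨l, Finset.mem_toList.2 hl, ?_⟩
    rw [dif_pos h]

end Pool.Agent.R241.NA
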