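import Pool.Agent.R241.NB2

/-!
# One window
-/

set_option autoImplicit false

open Filter Topology Set Metric
open Pool.Agent.R241.NR

namespace Pool.Agent.R241.NA

variable {d m : ℕ} {A : Finset ℂ} {R e κ Λ γ s q ρ : ℝ}

/-- What is achieved in the window of length `T` starting at the block time `K`. -/
structure Win (d m : ℕ) (R e κ Λ ρ : ℝ) (c : ℕ → ℂ)
    (E : ℕ → Option (Fin (m + 2) → A) → List ℂ) (T : ℕ) (C₂ r' : ℝ) (K : ℕ) (Z Z' : List ℂ)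
    (ω : ℕ → Option (Fin (m + 2) → A)) : Prop where
  old : ∀ z ∈ Z, ∀ t j, t + j ≤ T →
    (∀ l ≤ j, ‖pos (FF d (m + 2) c) ω (K + t) l (pos (FF d (m + 2) c) ω K t z)‖ ≤ R + 17) →
    wt (FF d (m + 2) c) (lipc d (m + 2) R e κ Λ c) ω (K + t) j
      (pos (FF d (m + 2) c) ω K t z) ≤ C₂
  new : ∀ t < T, ∀ y ∈ E (K + t) (ω (K + t)), ∀ i j, t + 1 + i + j ≤ T →
    (∀ l ≤ j, ‖pos (FF d (m + 2) c) ω (K + (t + 1) + i) l
      (pos (FF d (m + 2) c) ω (K + (t + 1)) i y)‖ ≤ R + 17) →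
    wt (FF d (m + 2) c) (lipc d (m + 2) R e κ Λ c) ω (K + (t + 1) + i) j
      (pos (FF d (m + 2) c) ω (K + (t + 1)) i y) ≤ C₂
  merge : ∀ z ∈ Z, (∀ l ≤ T, ‖pos (FF d (m + 2) c) ω K l z‖ ≤ R + 17) →
    wt (FF d (m + 2) c) (lipc d (m + 2) R e κ Λ c) ω K T z ≤ r' ∧
    ∃ z' ∈ Z', ‖pos (FF d (m + 2) c) ω K T z - z'‖ ≤ r' * ρ
  birth : ∀ t < T, ∀ y ∈ E (K + t) (ω (K + t)),
    pos (FF d (m + 2) c) ω (K + (t + 1)) (T - (t + 1)) y ∈ Z'

theorem wt_le_of (hκ : 0 < κ) (hΛ : 0 < Λ) (hs : 0 < s) (hγ : 0 < γ) (c : ℕ → ℂ)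
    (ω : ℕ → Option (Fin (m + 2) → A)) (K j : ℕ) (y : ℂ) {C₁ : ℝ}
    (h : ∀ l ≤ j, ‖pos (FF d (m + 2) c) ω K l y‖ ≤ R + 17)
    (h1 : wt (FF d (m + 2) c) (GG d (m + 2) R e κ Λ γ s c) ω K j y ≤ C₁) :
    wt (FF d (m + 2) c) (lipc d (m + 2) R e κ Λ c) ω K j y ≤ (C₁ / γ ^ j) ^ (1 / s) := by
  obtain ⟨h2, h3⟩ := wt_eq (e := e) (γ := γ) (s := s) hκ hΛ c ω K j y h
  rw [h3] at h1
  set W := wt (FF d (m + 2) c) (lipc d (m + 2) R e κ Λ c) ω K j y with hW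
  have h4 : W ^ s ≤ C₁ / γ ^ j := by
    rw [le_div_iff₀ (by positivity)]
    linarith
  calc W = (W ^ s) ^ (1 / s) := by
        rw [← Real.rpow_mul h2.le, mul_one_div, div_self hs.ne', Real.rpow_one]
    _ ≤ _ := Real.rpow_le_rpow (by positivity) h4 (by positivity)

theorem window (hC : Cst d m R e κ Λ ρ) {c : ℕ → ℂ} (hγ : 1 ≤ γ) (hs : 0 < s)
    (hq0 : 0 ≤ q) (hq1 : q ≤ 1) (hA : A.Nonempty)
    (hu : ∀ (k : ℕ) (ω : Option (Fin (m + 2) → A)) (i : ℕ), ‖c (k * (m + 2) + i) + kick ω i‖ ≤ R)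
    {β : ℝ} (hβ0 : 0 ≤ β) (hβ1 : β < 1)
    (hG : ∀ k z, ∑ ω, mu (m + 2) A q ω * GG d (m + 2) R e κ Λ γ s c k ω z ≤ β)
    (E : ℕ → Option (Fin (m + 2) → A) → List ℂ) (hE : ∀ k ω, (E k ω).length ≤ m + 2)
    (D : Finset ℂ) (hD : ∀ a : ℂ, ‖a‖ ≤ R + 17 → ∃ a' ∈ D, ‖a' - a‖ ≤ ρ / 2)
    (T N : ℕ) (hN : N = T * D.card + (m + 2) * T) {C₁ C₂ r' : ℝ}
    (hC₁ : C₁ = ((N : ℝ) + ((m + 2 : ℕ) : ℝ) * T) / (1 - β))
    (hC₂ : C₂ = C₁ ^ (1 / s)) (hr' : r' = (C₁ / γ ^ T) ^ (1 / s)) (hr1 : r' < 1)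
    (K : ℕ) (Z : List ℂ) (hZ : Z.length ≤ N) :
    ∃ ω : ℕ → Option (Fin (m + 2) → A), ∃ Z' : List ℂ, Z'.length ≤ N ∧
      Win d m R e κ Λ ρ c E T C₂ r' K Z Z' ω := by
  have hκ0 := hC.hκ0
  have hΛ0 : 0 < Λ := by linarith [hC.hΛ1]
  have hγ0 : 0 < γ := by linarith
  obtain ⟨ω, hω⟩ := greedy2 (μ := mu (m + 2) A q) (mu_nonneg hq0 hq1) (mu_sum hA)
    (FF d (m + 2) c) (GG d (m + 2) R e κ Λ γ s c)
    (fun k ω z => GG_nonneg hκ0 hΛ0 hγ0 c k ω z) hβ0 hβ1 hG E K T Z hZ hE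
  rw [← hC₁] at hω
  have hC₁0 : 0 ≤ C₁ := by
    rw [hC₁]
    exact div_nonneg (by positivity) (by linarith)
  have hbd : ∀ j, (C₁ / γ ^ j) ^ (1 / s) ≤ C₂ := by
    intro j
    rw [hC₂]
    refine Real.rpow_le_rpow (by positivity) ?_ (by positivity)
    exact div_le_self hC₁0 (one_le_pow₀ hγ)
  -- the bounds for the items
  have hitem : ∀ t ≤ T, ∀ y ∈ items (FF d (m + 2) c) E K Z ω t, ∀ j,
      (∀ l ≤ j, ‖pos (FF d (m + 2) c) ω (K + t) l y‖ ≤ R + 17) →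
      wt (FF d (m + 2) c) (lipc d (m + 2) R e κ Λ c) ω (K + t) j y ≤ (C₁ / γ ^ j) ^ (1 / s) := by
    intro t ht y hy j hal
    exact wt_le_of hκ0 hΛ0 hs hγ0 c ω (K + t) j y hal (hω t ht y hy j)
  -- the labels
  set F := FF d (m + 2) c with hF
  set l' := lipc d (m + 2) R e κ Λ c with hl'
  let P : ℂ → ℕ × ℂ → Prop := fun z ka => (∀ l ≤ T, ‖pos F ω K l z‖ ≤ R + 17) ∧
    (∀ j ≤ T - ka.1, wt F l' ω (K + ka.1) j (pos F ω K ka.1 z) ≤ 1) ∧
    wt F l' ω (K + ka.1) (T - ka.1) (pos F ω K ka.1 z) ≤ r' ∧ ‖pos F ω K ka.1 z - ka.2‖ ≤ ρ / 2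
  have hP : ∀ l ∈ (Finset.range T) ×ˢ D, ∀ z z', P z l → P z' l →
      ‖pos F ω K T z - pos F ω K T z'‖ ≤ r' * ρ := by
    rintro ⟨k₀, a⟩ hl z z' ⟨h1, h2, h3, h4⟩ ⟨h1', h2', h3', h4'⟩
    simp only at h2 h3 h4 h2' h3' h4'
    rw [Finset.mem_product, Finset.mem_range] at hl
    have hk₀ : k₀ < T := hl.1
    have e1 : ∀ x, pos F ω K T x = pos F ω (K + k₀) (T - k₀) (pos F ω K k₀ x) := by
      intro x
      rw [← pos_add]
      congr 1
      omega
    rw [e1, e1]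
    have h5 : ‖pos F ω K k₀ z - pos F ω K k₀ z'‖ ≤ ρ := by
      have h6 := norm_sub_le (pos F ω K k₀ z - a) (pos F ω K k₀ z' - a)
      rw [sub_sub_sub_cancel_right] at h6
      linarith
    have h7 := track2 hC (c := c) (ω := ω) (fun k i => hu k (ω k) i) (K := K + k₀)
      (z := pos F ω K k₀ z') (w := pos F ω K k₀ z) (o := pos F ω K k₀ z') (T - k₀)
      (fun l hl => by
        rw [← hF, ← pos_add]
        exact h1' (k₀ + l) (by omega))
      (fun l hl => by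
        have h8 := h2' l hl
        have h9 := wt_pos (d := d) (R := R) (e := e) hκ0 hΛ0 c ω (K + k₀) l (pos F ω K k₀ z')
        calc _ ≤ 1 * ρ := by gcongr
          _ = ρ := one_mul _)
      (fun l hl => by
        rw [sub_self, norm_zero, mul_zero]
        exact hC.hρ0.le)
    refine h7.trans ?_
    gcongr
    exact (wt_pos (d := d) (R := R) (e := e) hκ0 hΛ0 c ω _ _ _).le.trans h3'
  obtain ⟨L, hL1, hL2⟩ := representatives ((Finset.range T) ×ˢ D) P (fun z => pos F ω K T z) hP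
  rw [Finset.card_product, Finset.card_range] at hL1
  refine ⟨ω, L ++ items F E K [] ω T, ?_, ?_, ?_, ?_, ?_⟩
  · rw [List.length_append, hN]
    have h1 := items_length (F := F) (K := K) (ω := ω) (Z₀ := []) (N := 0) (b := m + 2)
      (le_of_eq List.length_nil) hE T
    omega
  · intro z hz t j htj hal
    exact (hitem t (by omega) _ (items_old hz t) j hal).trans (hbd j)
  · intro t ht y hy i j htj hal
    have h1 := items_new (F := F) (E := E) (K := K) (Z₀ := Z) (ω := ω) (t := t) hy i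
    have h2 : K + (t + 1 + i) = K + (t + 1) + i := by omega
    have h3 := hitem (t + 1 + i) (by omega) _ h1 j (by rw [h2]; exact hal)
    rw [h2] at h3
    exact h3.trans (hbd j)
  · intro z hz hal
    have h0 : wt F l' ω K T z ≤ r' := by
      rw [hr']
      exact hitem 0 (by omega) z hz T hal
    refine ⟨h0, ?_⟩
    -- find the label
    obtain ⟨k₀, hk₀, hmax⟩ := Finset.exists_max_image (Finset.range (T + 1))
      (fun j => wt F l' ω K j z) ⟨0, Finset.mem_range.2 (by omega)⟩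
    rw [Finset.mem_range] at hk₀
    have hmax' : ∀ j ≤ T, wt F l' ω K j z ≤ wt F l' ω K k₀ z := fun j hj =>
      hmax j (Finset.mem_range.2 (by omega))
    have hone : 1 ≤ wt F l' ω K k₀ z := hmax' 0 (by omega)
    have hk₀' : k₀ < T := by
      rcases Nat.lt_or_ge k₀ T with h | h
      · exact h
      · exfalso
        have : k₀ = T := by omega
        rw [this] at hone
        linarith
    have hpos : 0 < wt F l' ω K k₀ z := by linarith
    obtain ⟨a, ha, ha2⟩ := hD (pos F ω K k₀ z) (hal k₀ (by omega))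
    obtain ⟨z', hz', h5⟩ := hL2 z ⟨(k₀, a), by
        rw [Finset.mem_product, Finset.mem_range]; exact ⟨hk₀', ha⟩, hal, fun j hj => by
        have h6 := wt_add F l' ω K k₀ j z
        have h7 := hmax' (k₀ + j) (by simp only at hj; omega)
        rw [h6] at h7
        by_contra hcon
        push Not at hcon
        nlinarith, by
        have h6 := wt_add F l' ω K k₀ (T - k₀) z
        rw [show k₀ + (T - k₀) = T by omega] at h6
        rw [h6] at h0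
        have h8 := wt_pos (d := d) (R := R) (e := e) hκ0 hΛ0 c ω (K + k₀) (T - k₀)
          (pos F ω K k₀ z)
        rw [← hF, ← hl'] at h8
        simp only
        nlinarith, by rw [norm_sub_rev]; exact ha2⟩
    exact ⟨z', List.mem_append_left _ hz', h5⟩
  · intro t ht y hy
    have h1 := items_new (F := F) (E := E) (K := K) (Z₀ := []) (ω := ω) (t := t) hy (T - (t + 1))
    rw [show t + 1 + (T - (t + 1)) = T by omega] at h1
    exact List.mem_append_right _ h1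

end Pool.Agent.R241.NA
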