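import Pool.Agent.R241.NB3

/-!
# Gluing the windows, and the behaviour in one phase
-/

set_option autoImplicit false

open Filter Topology Set Metric
open Pool.Agent.R241.NR

namespace Pool.Agent.R241.NA

open Pool.Agent.R241.SK (S_differentiable chordal chordal_le_dist)

variable {d m : ℕ} {A : Finset ℂ} {R e κ Λ γ s q ρ : ℝ}

theorem Win.congr {c : ℕ → ℂ} {E : ℕ → Option (Fin (m + 2) → A) → List ℂ} {T : ℕ} {C₂ r' : ℝ}
    {K : ℕ} {Z Z' : List ℂ} {ω ω' : ℕ → Option (Fin (m + 2) → A)}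
    (h : Win d m R e κ Λ ρ c E T C₂ r' K Z Z' ω) (hω : ∀ k, K ≤ k → k < K + T → ω k = ω' k) :
    Win d m R e κ Λ ρ c E T C₂ r' K Z Z' ω' := by
  obtain ⟨h1, h2, h3, h4⟩ := h
  have hp : ∀ a n, K ≤ a → a + n ≤ K + T → ∀ z, pos (FF d (m + 2) c) ω' a n z =
      pos (FF d (m + 2) c) ω a n z := fun a n ha hn z =>
    (pos_congr (fun k hk1 hk2 => hω k (by omega) (by omega)) z).symm
  have hw : ∀ a n, K ≤ a → a + n ≤ K + T → ∀ z,
      wt (FF d (m + 2) c) (lipc d (m + 2) R e κ Λ c) ω' a n z =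
      wt (FF d (m + 2) c) (lipc d (m + 2) R e κ Λ c) ω a n z := fun a n ha hn z =>
    (wt_congr (fun k hk1 hk2 => hω k (by omega) (by omega)) z).symm
  refine ⟨?_, ?_, ?_, ?_⟩
  · intro z hz t j htj hal
    rw [hp K t le_rfl (by omega)] at hal ⊢
    rw [hw (K + t) j (by omega) (by omega)]
    refine h1 z hz t j htj fun l hl => ?_
    rw [← hp (K + t) l (by omega) (by omega)]
    exact hal l hl
  · intro t ht y hy i j htj hal
    rw [← hω (K + t) (by omega) (by omega)] at hy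
    rw [hp (K + (t + 1)) i (by omega) (by omega)] at hal ⊢
    rw [hw (K + (t + 1) + i) j (by omega) (by omega)]
    refine h2 t ht y hy i j htj fun l hl => ?_
    rw [← hp (K + (t + 1) + i) l (by omega) (by omega)]
    exact hal l hl
  · intro z hz hal
    rw [hw K T le_rfl le_rfl, hp K T le_rfl le_rfl]
    refine h3 z hz fun l hl => ?_
    rw [← hp K l le_rfl (by omega)]
    exact hal l hl
  · intro t ht y hy
    rw [← hω (K + t) (by omega) (by omega)] at hy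
    rw [hp (K + (t + 1)) (T - (t + 1)) (by omega) (by omega)]
    exact h4 t ht y hy

theorem glue {c : ℕ → ℂ} {E : ℕ → Option (Fin (m + 2) → A) → List ℂ} {T : ℕ} (hT : 0 < T)
    {C₂ r' : ℝ} {N : ℕ}
    (h : ∀ (K : ℕ) (Z : List ℂ), Z.length ≤ N → ∃ ω : ℕ → Option (Fin (m + 2) → A),
      ∃ Z' : List ℂ, Z'.length ≤ N ∧ Win d m R e κ Λ ρ c E T C₂ r' K Z Z' ω) :
    ∃ (ω : ℕ → Option (Fin (m + 2) → A)) (Zs : ℕ → List ℂ),
      ∀ i, Win d m R e κ Λ ρ c E T C₂ r' (i * T) (Zs i) (Zs (i + 1)) ω := by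
  choose om nx hnx hwin using h
  let st : ℕ → {Z : List ℂ // Z.length ≤ N} := fun n => Nat.rec ⟨[], by simp⟩
    (fun i Z => ⟨nx (i * T) Z.1 Z.2, hnx (i * T) Z.1 Z.2⟩) n
  have hst : ∀ i, (st (i + 1)).1 = nx (i * T) (st i).1 (st i).2 := fun i => rfl
  refine ⟨fun k => om (k / T * T) (st (k / T)).1 (st (k / T)).2 k, fun i => (st i).1,
    fun i => ?_⟩
  simp only
  rw [hst]
  refine (hwin (i * T) (st i).1 (st i).2).congr fun k hk1 hk2 => ?_
  have h1 : k / T = i := by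
    rw [Nat.div_eq_iff hT]
    constructor
    · exact hk1
    · have : i * T + T = i * T + (T - 1) + 1 := by omega
      omega
  simp only [h1]

/-- The sequence after time `t`. -/
def after (u : ℕ → ℂ) (t : ℕ) : ℕ → ℂ := fun i => u (t + i)

theorem after_zero (u : ℕ → ℂ) : after u 0 = u := by
  funext i; unfold after; rw [Nat.zero_add]

theorem after_after (u : ℕ → ℂ) (s t : ℕ) : after (after u s) t = after u (s + t) := by
  funext i; unfold after; rw [Nat.add_assoc]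

theorem S_after (g : ℂ → ℂ) (u : ℕ → ℂ) (k n : ℕ) (z : ℂ) :
    S g u (k + n) z = S g (after u k) n (S g u k z) := S_add g u k n z

/-- Points which have escaped approach each other in the chordal metric. -/
theorem escaped (hd : 2 ≤ d) (hR : 0 ≤ R) {u : ℕ → ℂ} (hu : ∀ i, ‖u i‖ ≤ R) {w o : ℂ}
    (hw : R + 16 ≤ ‖w‖) (ho : R + 16 ≤ ‖o‖) (n : ℕ) :
    chordal (S (pw d) u n w) (S (pw d) u n o) ≤ (1 / 2) ^ n * ‖w - o‖ := by
  have h1 := (grow_orbit hd hR hu (z := w) (j := 0) hw n).2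
  have h2 := (grow_orbit hd hR hu (z := o) (j := 0) ho n).2
  rw [Nat.zero_add] at h1 h2
  refine (chordal_le_div (by linarith) (by linarith)).trans ?_
  refine (inv_orbit hd hR hu hw ho n).trans ?_
  gcongr
  refine div_le_self (norm_nonneg _) ?_
  nlinarith

/-- The behaviour in one phase: either the reference orbit stays bounded, or the orbits escape. -/
theorem one_phase (hC : Cst d m R e κ Λ ρ) {c : ℕ → ℂ} {ω : ℕ → Option (Fin (m + 2) → A)}
    (hu : ∀ (k : ℕ) (ω : Option (Fin (m + 2) → A)) (i : ℕ), ‖c (k * (m + 2) + i) + kick ω i‖ ≤ R)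
    {C₂ : ℝ} {K J : ℕ} {y w o : ℂ}
    (hJ : ∀ j ≤ J, (∀ l ≤ j, ‖pos (FF d (m + 2) c) ω K l y‖ ≤ R + 17) →
      wt (FF d (m + 2) c) (lipc d (m + 2) R e κ Λ c) ω K j y ≤ C₂)
    (hw : C₂ * ‖w - y‖ ≤ ρ) (ho : C₂ * ‖o - y‖ ≤ ρ) (hC₂ : 1 ≤ C₂) :
    ((∀ l ≤ J, ‖pos (FF d (m + 2) c) ω K l y‖ ≤ R + 17) ∧ ∀ n ≤ J * (m + 2),
      ‖S (pw d) (after (cc (m + 2) c ω) (K * (m + 2))) n w -
        S (pw d) (after (cc (m + 2) c ω) (K * (m + 2))) n o‖ ≤ Λ * C₂ * ‖w - o‖) ∨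
    (∃ n₁ ≤ J * (m + 2),
      R + 33 / 2 ≤ ‖S (pw d) (after (cc (m + 2) c ω) (K * (m + 2))) n₁ w‖ ∧
      R + 33 / 2 ≤ ‖S (pw d) (after (cc (m + 2) c ω) (K * (m + 2))) n₁ o‖ ∧ ∀ n ≤ n₁,
      ‖S (pw d) (after (cc (m + 2) c ω) (K * (m + 2))) n w -
        S (pw d) (after (cc (m + 2) c ω) (K * (m + 2))) n o‖ ≤ Λ * C₂ * ‖w - o‖) := by
  classical
  have hd := hC.hd
  have hR := hC.hR
  have hL := one_le_LL hd hR
  have hΛ1 := hC.hΛ1
  have hκ0 := hC.hκ0
  have hρ0 := hC.hρ0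
  have hC₂0 : 0 < C₂ := by linarith
  set u := after (cc (m + 2) c ω) (K * (m + 2)) with hudef
  have hpos : ∀ (j : ℕ) (x : ℂ), pos (FF d (m + 2) c) ω K j x = S (pw d) u (j * (m + 2)) x :=
    fun j x => pos_eq (by omega) c ω K j x
  have huR : ∀ k i, ‖c (k * (m + 2) + i) + kick (ω k) i‖ ≤ R := fun k i => hu k (ω k) i
  -- the general step estimate
  have key : ∀ n ≤ J * (m + 2), (∀ i < n, ‖S (pw d) u i y‖ ≤ R + 17) → ∀ x₁ x₂ : ℂ,
      C₂ * ‖x₁ - y‖ ≤ ρ → C₂ * ‖x₂ - y‖ ≤ ρ →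
      ‖S (pw d) u n x₁ - S (pw d) u n x₂‖ ≤ Λ * C₂ * ‖x₁ - x₂‖ := by
    intro n hn hal x₁ x₂ hx₁ hx₂
    rcases Nat.eq_zero_or_pos n with h0 | h0
    · rw [h0]
      change ‖x₁ - x₂‖ ≤ Λ * C₂ * ‖x₁ - x₂‖
      have h1 : 1 ≤ Λ * C₂ := by nlinarith
      nlinarith [norm_nonneg (x₁ - x₂)]
    · set j := (n - 1) / (m + 2) with hj
      have hj1 : j * (m + 2) ≤ n - 1 := Nat.div_mul_le_self _ _
      have hj2 : n - 1 < j * (m + 2) + (m + 2) := by
        have h1 := Nat.div_add_mod (n - 1) (m + 2)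
        have h2 := Nat.mod_lt (n - 1) (show m + 2 > 0 by omega)
        rw [← hj, Nat.mul_comm] at h1
        omega
      obtain ⟨i, hi⟩ := Nat.exists_eq_add_of_le (show j * (m + 2) ≤ n by omega)
      have hi1 : i ≤ m + 2 := by omega
      have hjJ : j ≤ J := by
        by_contra hcon
        push Not at hcon
        have : (J + 1) * (m + 2) ≤ j * (m + 2) := Nat.mul_le_mul_right _ hcon
        rw [Nat.succ_mul] at this
        omega
      have halb : ∀ l ≤ j, ‖pos (FF d (m + 2) c) ω K l y‖ ≤ R + 17 := by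
        intro l hl
        rw [hpos]
        refine hal _ ?_
        have : l * (m + 2) ≤ j * (m + 2) := Nat.mul_le_mul_right _ hl
        omega
      have hreg : ∀ x : ℂ, C₂ * ‖x - y‖ ≤ ρ → ∀ l ≤ j,
          wt (FF d (m + 2) c) (lipc d (m + 2) R e κ Λ c) ω K l y * ‖x - y‖ ≤ ρ := by
        intro x hx l hl
        refine le_trans ?_ hx
        gcongr
        exact hJ l (hl.trans hjJ) fun l' hl' => halb l' (hl'.trans hl)
      have hWj := hJ j hjJ halb
      have h0' : ∀ l ≤ j, wt (FF d (m + 2) c) (lipc d (m + 2) R e κ Λ c) ω K l y * ‖y - y‖ ≤ ρ := by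
        intro l _
        rw [sub_self, norm_zero, mul_zero]; exact hρ0.le
      have t1 := track2 hC huR (K := K) (z := y) (w := x₁) (o := y) j halb (hreg x₁ hx₁) h0'
      have t2 := track2 hC huR (K := K) (z := y) (w := x₂) (o := y) j halb (hreg x₂ hx₂) h0'
      have t3 := track2 hC huR (K := K) (z := y) (w := x₁) (o := x₂) j halb (hreg x₁ hx₁)
        (hreg x₂ hx₂)
      have r1 : ‖pos (FF d (m + 2) c) ω K j x₁ - pos (FF d (m + 2) c) ω K j y‖ ≤ ρ :=
        t1.trans (hreg x₁ hx₁ j le_rfl)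
      have r2 : ‖pos (FF d (m + 2) c) ω K j x₂ - pos (FF d (m + 2) c) ω K j y‖ ≤ ρ :=
        t2.trans (hreg x₂ hx₂ j le_rfl)
      have hpw : LL d R ^ i ≤ Λ := by
        rw [hC.hΛ]
        exact pow_le_pow_right₀ hL hi1
      have hreg2 : ∀ x : ℂ, ‖x‖ ≤ ρ → LL d R ^ i * ‖x‖ ≤ 1 := by
        intro x hx
        calc LL d R ^ i * ‖x‖ ≤ Λ * ρ := by gcongr
          _ ≤ 1 := by linarith [hC.hρ2]
      rw [hi, S_after, S_after, ← hpos, ← hpos]
      have h5 := lip_orbit2 hd hR (u := after u (j * (m + 2))) (z := pos (FF d (m + 2) c) ω K j y)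
        (w := pos (FF d (m + 2) c) ω K j x₁) (o := pos (FF d (m + 2) c) ω K j x₂) (n := i)
        (fun i' hi' => by
          rw [hpos, ← S_after]
          have := hal (j * (m + 2) + i') (by omega)
          linarith) (hreg2 _ r1) (hreg2 _ r2)
      refine h5.trans ?_
      calc LL d R ^ i * ‖pos (FF d (m + 2) c) ω K j x₁ - pos (FF d (m + 2) c) ω K j x₂‖
          ≤ Λ * (wt (FF d (m + 2) c) (lipc d (m + 2) R e κ Λ c) ω K j y * ‖x₁ - x₂‖) := by gcongr
        _ ≤ Λ * (C₂ * ‖x₁ - x₂‖) := by gcongr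
        _ = _ := by ring
  by_cases hesc : ∃ n, n ≤ J * (m + 2) ∧ R + 17 < ‖S (pw d) u n y‖
  · right
    set n₁ := Nat.find hesc with hn₁
    have hf : n₁ ≤ J * (m + 2) ∧ R + 17 < ‖S (pw d) u n₁ y‖ := Nat.find_spec hesc
    have hmin : ∀ i < n₁, ‖S (pw d) u i y‖ ≤ R + 17 := by
      intro i hi
      by_contra hcon
      exact Nat.find_min hesc hi ⟨by omega, not_le.1 hcon⟩
    have hz0 : C₂ * ‖y - y‖ ≤ ρ := by rw [sub_self, norm_zero, mul_zero]; exact hρ0.le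
    have hesc' : ∀ x : ℂ, C₂ * ‖x - y‖ ≤ ρ → R + 33 / 2 ≤ ‖S (pw d) u n₁ x‖ := by
      intro x hx
      have h1 := key n₁ hf.1 hmin x y hx hz0
      have h2 : Λ * C₂ * ‖x - y‖ ≤ Λ * ρ := by
        rw [mul_assoc]; gcongr
      have h3 := hC.hρ2
      have h4 : ‖S (pw d) u n₁ y‖ ≤ ‖S (pw d) u n₁ x - S (pw d) u n₁ y‖ + ‖S (pw d) u n₁ x‖ := by
        have := norm_sub_le (S (pw d) u n₁ x) (S (pw d) u n₁ x - S (pw d) u n₁ y)
        rw [sub_sub_cancel] at this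
        linarith
      linarith [hf.2]
    exact ⟨n₁, hf.1, hesc' w hw, hesc' o ho, fun n hn =>
      key n (hn.trans hf.1) (fun i hi => hmin i (by omega)) w o hw ho⟩
  · left
    push Not at hesc
    refine ⟨fun l hl => ?_, fun n hn => key n hn (fun i hi => hesc i (by omega)) w o hw ho⟩
    rw [hpos]
    exact hesc _ (Nat.mul_le_mul_right _ hl)

end Pool.Agent.R241.NA
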