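import Pool.Agent.R241.NB4

/-!
# All critical orbits are represented at the beginnings of the windows
-/

set_option autoImplicit false

open Filter Topology Set Metric
open Pool.Agent.R241.NR

namespace Pool.Agent.R241.NA

open Pool.Agent.R241.SK (S_differentiable chordal chordal_le_dist)

variable {d m : ℕ} {A : Finset ℂ} {R e κ Λ γ s q ρ : ℝ}

/-- The critical orbit which starts at time `n`, at age `a`. -/
noncomputable def cr (d : ℕ) (u : ℕ → ℂ) (n a : ℕ) : ℂ := S (pw d) (after u n) a 0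

theorem cr_add (d : ℕ) (u : ℕ → ℂ) (n a k : ℕ) :
    cr d u n (a + k) = S (pw d) (after u (n + a)) k (cr d u n a) := by
  unfold cr
  rw [S_after, after_after]

/-- The critical orbits which start in block `k`, at the end of the block. -/
noncomputable def EE (d m : ℕ) {A : Finset ℂ} (c : ℕ → ℂ) (k : ℕ)
    (ω : Option (Fin (m + 2) → A)) : List ℂ :=
  (List.range (m + 2)).map fun r =>
    S (pw d) (fun i => c (k * (m + 2) + (r + i)) + kick ω (r + i)) (m + 2 - r) 0

theorem EE_length (d m : ℕ) {A : Finset ℂ} (c : ℕ → ℂ) (k : ℕ)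
    (ω : Option (Fin (m + 2) → A)) : (EE d m c k ω).length ≤ m + 2 := by
  unfold EE
  rw [List.length_map, List.length_range]

theorem birth_mem (c : ℕ → ℂ) (ω : ℕ → Option (Fin (m + 2) → A)) {k r : ℕ} (hr : r < m + 2) :
    cr d (cc (m + 2) c ω) (k * (m + 2) + r) (m + 2 - r) ∈ EE d m c k (ω k) := by
  unfold EE cr
  refine List.mem_map.2 ⟨r, List.mem_range.2 hr, ?_⟩
  refine S_congr (fun i hi => ?_) _
  unfold after
  rw [Nat.add_assoc, cc_block (by omega) c ω (by omega : r + i < m + 2)]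

/-- Everything which is known about the perturbed sequence. -/
structure Glob (d m : ℕ) {A : Finset ℂ} (R e κ Λ ρ : ℝ) (c : ℕ → ℂ)
    (ω : ℕ → Option (Fin (m + 2) → A)) (Zs : ℕ → List ℂ) (T : ℕ) (C₂ r' : ℝ) : Prop where
  hC : Cst d m R e κ Λ ρ
  hu : ∀ (k : ℕ) (ω : Option (Fin (m + 2) → A)) (i : ℕ), ‖c (k * (m + 2) + i) + kick ω i‖ ≤ R
  hT : 0 < T
  hC₂ : 1 ≤ C₂
  hr0 : 0 ≤ r'
  hr : 4 * C₂ ^ 2 * r' ≤ 1
  win : ∀ i, Win d m R e κ Λ ρ c (EE d m c) T C₂ r' (i * T) (Zs i) (Zs (i + 1)) ω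

section

variable {c : ℕ → ℂ} {ω : ℕ → Option (Fin (m + 2) → A)} {Zs : ℕ → List ℂ} {T : ℕ} {C₂ r' : ℝ}

theorem Glob.uR (h : Glob d m R e κ Λ ρ c ω Zs T C₂ r') (i : ℕ) : ‖cc (m + 2) c ω i‖ ≤ R := by
  have h1 := h.hu (i / (m + 2)) (ω (i / (m + 2))) (i % (m + 2))
  unfold cc
  rw [Nat.mul_comm, Nat.div_add_mod] at h1
  exact h1

theorem Glob.r1 (h : Glob d m R e κ Λ ρ c ω Zs T C₂ r') : 4 * C₂ * r' ≤ 1 := by
  have h1 := h.hC₂
  have h2 := h.hr0
  have h3 := h.hr
  have h4 : 4 * C₂ * r' ≤ 4 * C₂ ^ 2 * r' := by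
    have : C₂ ≤ C₂ ^ 2 := by nlinarith
    gcongr
  linarith

theorem Glob.r2 (h : Glob d m R e κ Λ ρ c ω Zs T C₂ r') : 4 * r' ≤ 1 := by
  have h1 := h.hC₂
  have h2 := h.hr0
  have h3 := h.r1
  nlinarith

theorem stays (hd : 2 ≤ d) (hR : 0 ≤ R) {u : ℕ → ℂ} (hu : ∀ i, ‖u i‖ ≤ R) {x : ℂ}
    (hx : R + 33 / 2 ≤ ‖x‖) (n : ℕ) : R + 33 / 2 ≤ ‖S (pw d) u n x‖ := by
  have h1 := (grow_orbit hd hR hu (z := x) (j := 0) (by change R + 16 ≤ ‖x‖; linarith) n).1
  rw [Nat.zero_add] at h1
  have h2 : (1 : ℝ) ≤ 2 ^ n := one_le_pow₀ (by norm_num)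
  have h3 : S (pw d) u 0 x = x := rfl
  rw [h3] at h1
  nlinarith [norm_nonneg x]

theorem pos_eq' (c : ℕ → ℂ) (ω : ℕ → Option (Fin (m + 2) → A)) (K j : ℕ) (y : ℂ) :
    pos (FF d (m + 2) c) ω K j y = S (pw d) (after (cc (m + 2) c ω) (K * (m + 2)))
      (j * (m + 2)) y := pos_eq (by omega) c ω K j y

/-- One full window, seen from a representative. -/
theorem window_end (h : Glob d m R e κ Λ ρ c ω Zs T C₂ r') {i : ℕ} {z : ℂ} (hz : z ∈ Zs i)
    (hal : ∀ l ≤ T, ‖pos (FF d (m + 2) c) ω (i * T) l z‖ ≤ R + 17) {w o : ℂ}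
    (hw : C₂ * ‖w - z‖ ≤ ρ) (ho : C₂ * ‖o - z‖ ≤ ρ) :
    ‖S (pw d) (after (cc (m + 2) c ω) (i * T * (m + 2))) (T * (m + 2)) w -
      S (pw d) (after (cc (m + 2) c ω) (i * T * (m + 2))) (T * (m + 2)) o‖ ≤ r' * ‖w - o‖ ∧
    ∃ z' ∈ Zs (i + 1), ‖S (pw d) (after (cc (m + 2) c ω) (i * T * (m + 2))) (T * (m + 2)) o - z'‖ ≤
      r' * ‖o - z‖ + r' * ρ := by
  obtain ⟨h1, z', hz', h2⟩ := (h.win i).merge z hz hal
  have hreg : ∀ x : ℂ, C₂ * ‖x - z‖ ≤ ρ → ∀ l ≤ T,
      wt (FF d (m + 2) c) (lipc d (m + 2) R e κ Λ c) ω (i * T) l z * ‖x - z‖ ≤ ρ := by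
    intro x hx l hl
    refine le_trans ?_ hx
    gcongr
    exact (h.win i).old z hz 0 l (by omega) fun l' hl' => hal l' (by omega)
  have hz0 : C₂ * ‖z - z‖ ≤ ρ := by rw [sub_self, norm_zero, mul_zero]; exact h.hC.hρ0.le
  have huR : ∀ k i, ‖c (k * (m + 2) + i) + kick (ω k) i‖ ≤ R := fun k i => h.hu k (ω k) i
  have t1 := track2 h.hC huR (K := i * T) (z := z) (w := w) (o := o) T hal (hreg w hw)
    (hreg o ho)
  have t2 := track2 h.hC huR (K := i * T) (z := z) (w := o) (o := z) T hal (hreg o ho)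
    (hreg z hz0)
  rw [← pos_eq', ← pos_eq']
  refine ⟨t1.trans (by gcongr), z', hz', ?_⟩
  have h3 : ‖pos (FF d (m + 2) c) ω (i * T) T o - z'‖ ≤
      ‖pos (FF d (m + 2) c) ω (i * T) T o - pos (FF d (m + 2) c) ω (i * T) T z‖ +
      ‖pos (FF d (m + 2) c) ω (i * T) T z - z'‖ := by
    have := norm_add_le (pos (FF d (m + 2) c) ω (i * T) T o - pos (FF d (m + 2) c) ω (i * T) T z)
      (pos (FF d (m + 2) c) ω (i * T) T z - z')
    rwa [sub_add_sub_cancel] at this
  have h4 : wt (FF d (m + 2) c) (lipc d (m + 2) R e κ Λ c) ω (i * T) T z * ‖o - z‖ ≤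
      r' * ‖o - z‖ := by gcongr
  linarith

/-- The critical orbits at the beginnings of the windows. -/
theorem crit_window (h : Glob d m R e κ Λ ρ c ω Zs T C₂ r') (i : ℕ) :
    ∀ n, n < i * T * (m + 2) →
    R + 33 / 2 ≤ ‖cr d (cc (m + 2) c ω) n (i * T * (m + 2) - n)‖ ∨
      ∃ z ∈ Zs i, ‖z‖ ≤ R + 17 ∧
        ‖cr d (cc (m + 2) c ω) n (i * T * (m + 2) - n) - z‖ ≤ 2 * r' * ρ := by
  have hd := h.hC.hd
  have hR := h.hC.hR
  have hρ0 := h.hC.hρ0
  have hρ3 := h.hC.hρ3
  have hr0 := h.hr0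
  have hr2 := h.r2
  have hr1 := h.r1
  have huR : ∀ t i, ‖after (cc (m + 2) c ω) t i‖ ≤ R := fun t i => h.uR (t + i)
  have hrho : 2 * r' * ρ ≤ 1 / 2 := by nlinarith
  induction i with
  | zero => intro n hn; rw [Nat.zero_mul, Nat.zero_mul] at hn; omega
  | succ i ih =>
    intro n hn
    have hsucc : (i + 1) * T * (m + 2) = i * T * (m + 2) + T * (m + 2) := by ring
    rcases Nat.lt_or_ge n (i * T * (m + 2)) with hlt | hge
    · have e1 : cr d (cc (m + 2) c ω) n ((i + 1) * T * (m + 2) - n) =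
          S (pw d) (after (cc (m + 2) c ω) (i * T * (m + 2))) (T * (m + 2))
            (cr d (cc (m + 2) c ω) n (i * T * (m + 2) - n)) := by
        rw [show (i + 1) * T * (m + 2) - n = (i * T * (m + 2) - n) + T * (m + 2) by omega, cr_add,
          show n + (i * T * (m + 2) - n) = i * T * (m + 2) by omega]
      rw [e1]
      set o := cr d (cc (m + 2) c ω) n (i * T * (m + 2) - n) with ho
      rcases ih n hlt with h1 | ⟨z, hz, hz17, hoz⟩
      · left
        exact stays hd hR (huR _) h1 _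
      · have hCo : C₂ * ‖o - z‖ ≤ ρ := by
          have : C₂ * ‖o - z‖ ≤ C₂ * (2 * r' * ρ) := by
            have := h.hC₂
            gcongr
          nlinarith
        rcases one_phase h.hC h.hu (K := i * T) (J := T) (y := z) (w := o) (o := o)
          (fun j hj hal => (h.win i).old z hz 0 j (by omega) hal) hCo hCo h.hC₂ with
          ⟨hal, -⟩ | ⟨n₁, hn₁, h1, -, -⟩
        · obtain ⟨-, z', hz', h3⟩ := window_end h hz hal hCo hCo
          have h4 : ‖S (pw d) (after (cc (m + 2) c ω) (i * T * (m + 2))) (T * (m + 2)) o - z'‖ ≤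
              2 * r' * ρ := by
            have h6 : r' * ‖o - z‖ ≤ r' * (2 * r' * ρ) := by gcongr
            have h7 : r' * (2 * r' * ρ) ≤ r' * ρ := by
              have : 2 * r' * ρ ≤ ρ := by nlinarith
              gcongr
            linarith
          by_cases h5 : ‖z'‖ ≤ R + 17
          · exact Or.inr ⟨z', hz', h5, h4⟩
          · left
            push Not at h5
            have h6 : ‖z'‖ ≤ ‖S (pw d) (after (cc (m + 2) c ω) (i * T * (m + 2)))
                (T * (m + 2)) o - z'‖ +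
                ‖S (pw d) (after (cc (m + 2) c ω) (i * T * (m + 2))) (T * (m + 2)) o‖ := by
              have := norm_sub_le (S (pw d) (after (cc (m + 2) c ω) (i * T * (m + 2)))
                (T * (m + 2)) o) (S (pw d) (after (cc (m + 2) c ω) (i * T * (m + 2)))
                (T * (m + 2)) o - z')
              rw [sub_sub_cancel] at this
              linarith
            linarith
        · left
          obtain ⟨k, hk⟩ := Nat.exists_eq_add_of_le hn₁
          rw [hk, S_after]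
          exact stays hd hR (fun i => by rw [after_after]; exact huR _ i) h1 k
    · -- the orbit starts in the window
      set k := n / (m + 2) with hk
      set r := n % (m + 2) with hr
      have hnk : n = k * (m + 2) + r := by
        have := Nat.div_add_mod n (m + 2)
        rw [← hk, ← hr, Nat.mul_comm] at this
        exact this.symm
      have hrlt : r < m + 2 := Nat.mod_lt _ (by omega)
      have hk1 : i * T ≤ k := by
        rw [hk, Nat.le_div_iff_mul_le (by omega)]; exact hge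
      have hk2 : k < (i + 1) * T := by
        rw [hk, Nat.div_lt_iff_lt_mul (by omega)]; exact hn
      have hsT : (i + 1) * T = i * T + T := Nat.succ_mul _ _
      obtain ⟨t, ht⟩ := Nat.exists_eq_add_of_le hk1
      have htT : t < T := by omega
      have h1 := birth_mem (d := d) c ω (k := k) (r := r) hrlt
      rw [← hnk] at h1
      have h2 := (h.win i).birth t htT (cr d (cc (m + 2) c ω) n (m + 2 - r))
        (by rw [← ht]; exact h1)
      rw [pos_eq'] at h2
      have e2 : (k + 1) * (m + 2) = n + (m + 2 - r) := by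
        rw [hnk, Nat.succ_mul]; omega
      have e3 : (i * T + (t + 1)) * (m + 2) = n + (m + 2 - r) := by
        rw [← e2]; congr 1; omega
      have e4 : (i + 1) * T * (m + 2) = (k + 1) * (m + 2) + (T - (t + 1)) * (m + 2) := by
        rw [← Nat.add_mul]; congr 1; omega
      have e5 : (i + 1) * T * (m + 2) - n = (m + 2 - r) + (T - (t + 1)) * (m + 2) := by
        rw [e4, e2]; omega
      rw [e3, ← cr_add, ← e5] at h2
      by_cases h5 : ‖cr d (cc (m + 2) c ω) n ((i + 1) * T * (m + 2) - n)‖ ≤ R + 17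
      · refine Or.inr ⟨_, h2, h5, ?_⟩
        rw [sub_self, norm_zero]
        positivity
      · left
        push Not at h5
        linarith

/-- The critical orbits at all block times. -/
theorem crit_block (h : Glob d m R e κ Λ ρ c ω Zs T C₂ r') {i t n : ℕ} (ht : t < T)
    (hn : n < (i * T + t) * (m + 2)) :
    R + 33 / 2 ≤ ‖cr d (cc (m + 2) c ω) n ((i * T + t) * (m + 2) - n)‖ ∨
      ∃ y, ‖cr d (cc (m + 2) c ω) n ((i * T + t) * (m + 2) - n) - y‖ ≤ C₂ * (2 * r' * ρ) ∧
        ∀ j, t + j ≤ T → (∀ l ≤ j, ‖pos (FF d (m + 2) c) ω (i * T + t) l y‖ ≤ R + 17) →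
          wt (FF d (m + 2) c) (lipc d (m + 2) R e κ Λ c) ω (i * T + t) j y ≤ C₂ := by
  have hd := h.hC.hd
  have hR := h.hC.hR
  have hρ0 := h.hC.hρ0
  have hρ3 := h.hC.hρ3
  have hr0 := h.hr0
  have hr2 := h.r2
  have hr1 := h.r1
  have hC₂ := h.hC₂
  have huR : ∀ t i, ‖after (cc (m + 2) c ω) t i‖ ≤ R := fun t i => h.uR (t + i)
  rcases Nat.lt_or_ge n (i * T * (m + 2)) with hlt | hge
  · have e0 : (i * T + t) * (m + 2) = i * T * (m + 2) + t * (m + 2) := Nat.add_mul _ _ _
    have e1 : cr d (cc (m + 2) c ω) n ((i * T + t) * (m + 2) - n) =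
        S (pw d) (after (cc (m + 2) c ω) (i * T * (m + 2))) (t * (m + 2))
          (cr d (cc (m + 2) c ω) n (i * T * (m + 2) - n)) := by
      rw [show (i * T + t) * (m + 2) - n = (i * T * (m + 2) - n) + t * (m + 2) by omega, cr_add,
        show n + (i * T * (m + 2) - n) = i * T * (m + 2) by omega]
    rw [e1]
    set o := cr d (cc (m + 2) c ω) n (i * T * (m + 2) - n) with ho
    rcases crit_window h i n hlt with h1 | ⟨z, hz, hz17, hoz⟩
    · left
      exact stays hd hR (huR _) h1 _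
    · have hCo : C₂ * ‖o - z‖ ≤ ρ := by
        have : C₂ * ‖o - z‖ ≤ C₂ * (2 * r' * ρ) := by gcongr
        nlinarith
      rcases one_phase h.hC h.hu (K := i * T) (J := t) (y := z) (w := o) (o := o)
        (fun j hj hal => (h.win i).old z hz 0 j (by omega) hal) hCo hCo h.hC₂ with
        ⟨hal, -⟩ | ⟨n₁, hn₁, h1, -, -⟩
      · right
        refine ⟨pos (FF d (m + 2) c) ω (i * T) t z, ?_, fun j hj hal' =>
          (h.win i).old z hz t j hj hal'⟩
        have hreg : ∀ x : ℂ, C₂ * ‖x - z‖ ≤ ρ → ∀ l ≤ t,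
            wt (FF d (m + 2) c) (lipc d (m + 2) R e κ Λ c) ω (i * T) l z * ‖x - z‖ ≤ ρ := by
          intro x hx l hl
          refine le_trans ?_ hx
          gcongr
          exact (h.win i).old z hz 0 l (by omega) fun l' hl' => hal l' (by omega)
        have hz0 : C₂ * ‖z - z‖ ≤ ρ := by rw [sub_self, norm_zero, mul_zero]; exact hρ0.le
        have t1 := track2 h.hC (fun k i => h.hu k (ω k) i) (K := i * T) (z := z) (w := o)
          (o := z) t hal (hreg o hCo) (hreg z hz0)
        rw [← pos_eq']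
        refine t1.trans ?_
        have h2 := (h.win i).old z hz 0 t (by omega) fun l' hl' => hal l' (by omega)
        calc _ ≤ C₂ * ‖o - z‖ := by gcongr; exact h2
          _ ≤ _ := by gcongr
      · left
        obtain ⟨k, hk⟩ := Nat.exists_eq_add_of_le hn₁
        rw [hk, S_after]
        exact stays hd hR (fun i => by rw [after_after]; exact huR _ i) h1 k
  · right
    set k := n / (m + 2) with hk
    set r := n % (m + 2) with hr
    have hnk : n = k * (m + 2) + r := by
      have := Nat.div_add_mod n (m + 2)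
      rw [← hk, ← hr, Nat.mul_comm] at this
      exact this.symm
    have hrlt : r < m + 2 := Nat.mod_lt _ (by omega)
    have hk1 : i * T ≤ k := by
      rw [hk, Nat.le_div_iff_mul_le (by omega)]; exact hge
    have hk2 : k < i * T + t := by
      rw [hk, Nat.div_lt_iff_lt_mul (by omega)]; exact hn
    obtain ⟨s, hs⟩ := Nat.exists_eq_add_of_le hk1
    obtain ⟨v, hv⟩ := Nat.exists_eq_add_of_le (show s + 1 ≤ t by omega)
    have h1 := birth_mem (d := d) c ω (k := k) (r := r) hrlt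
    rw [← hnk] at h1
    have e2 : (k + 1) * (m + 2) = n + (m + 2 - r) := by
      rw [hnk, Nat.succ_mul]; omega
    have e3 : (i * T + (s + 1)) * (m + 2) = n + (m + 2 - r) := by
      rw [← e2]; congr 1; omega
    have e4 : (i * T + t) * (m + 2) = (k + 1) * (m + 2) + v * (m + 2) := by
      rw [← Nat.add_mul]; congr 1; omega
    have e5 : (i * T + t) * (m + 2) - n = (m + 2 - r) + v * (m + 2) := by
      rw [e4, e2]; omega
    have e6 : pos (FF d (m + 2) c) ω (i * T + (s + 1)) v
        (cr d (cc (m + 2) c ω) n (m + 2 - r)) =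
        cr d (cc (m + 2) c ω) n ((i * T + t) * (m + 2) - n) := by
      rw [pos_eq', e3, ← cr_add, ← e5]
    have e7 : i * T + (s + 1) + v = i * T + t := by omega
    refine ⟨cr d (cc (m + 2) c ω) n ((i * T + t) * (m + 2) - n), ?_, fun j hj hal => ?_⟩
    · rw [sub_self, norm_zero]
      positivity
    · have h2 := (h.win i).new s (by omega) (cr d (cc (m + 2) c ω) n (m + 2 - r))
        (by rw [← hs]; exact h1) v j (by omega) (by rw [e6, e7]; exact hal)
      rw [e6, e7] at h2
      exact h2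

end

end Pool.Agent.R241.NA
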