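import Pool.Agent.R241.NB5

/-!
# Uniform exponential stability of all postcritical orbits
-/

set_option autoImplicit false

open Filter Topology Set Metric
open Pool.Agent.R241.NR

namespace Pool.Agent.R241.NA

open Pool.Agent.R241.SK (S_differentiable chordal chordal_le_dist)

variable {d m : ℕ} {A : Finset ℂ} {R e κ Λ γ s q ρ : ℝ}

/-- The orbits of `w` and `o` from time `t` on approach each other exponentially. -/
def Fin' (d : ℕ) (u : ℕ → ℂ) (θ : ℝ) (t : ℕ) (w o : ℂ) (C : ℝ) : Prop :=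
  ∀ N : ℕ, chordal (S (pw d) (after u t) N w) (S (pw d) (after u t) N o) ≤ C * θ ^ N * ‖w - o‖

theorem Fin'.mono {u : ℕ → ℂ} {θ : ℝ} {t : ℕ} {w o : ℂ} {C C' : ℝ} (hθ : 0 ≤ θ)
    (h : Fin' d u θ t w o C) (hC : C ≤ C') : Fin' d u θ t w o C' := by
  intro N
  refine (h N).trans ?_
  gcongr

theorem Fin'.escaped (hd : 2 ≤ d) (hR : 0 ≤ R) {u : ℕ → ℂ} (hu : ∀ i, ‖u i‖ ≤ R) {θ : ℝ}
    (hθ : 1 / 2 ≤ θ) {t : ℕ} {w o : ℂ} (hw : R + 16 ≤ ‖w‖) (ho : R + 16 ≤ ‖o‖) :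
    Fin' d u θ t w o 1 := by
  intro N
  refine (NA.escaped hd hR (fun i => hu (t + i)) hw ho N).trans ?_
  rw [one_mul]
  gcongr

/-- Putting a bounded number of steps in front. -/
theorem Fin'.comp {u : ℕ → ℂ} {θ : ℝ} (hθ : 1 / 2 ≤ θ) (hθ1 : θ ≤ 1) {Q : ℕ} (hQ : 1 ≤ 2 * θ ^ Q)
    {t k : ℕ} (hk : k ≤ Q) {w o : ℂ} {a b : ℝ} (hb : 1 ≤ b)
    (ha : ∀ n ≤ k, ‖S (pw d) (after u t) n w - S (pw d) (after u t) n o‖ ≤ a * ‖w - o‖)
    (h : Fin' d u θ (t + k) (S (pw d) (after u t) k w) (S (pw d) (after u t) k o) b) :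
    Fin' d u θ t w o (2 * a * b) := by
  intro N
  have hθ0 : 0 < θ := by linarith
  have h0 : 0 ≤ a * ‖w - o‖ := (norm_nonneg _).trans (ha 0 (by omega))
  rcases Nat.lt_or_ge k N with hlt | hge
  · obtain ⟨n, hn⟩ := Nat.exists_eq_add_of_le hlt.le
    have h1 := h n
    rw [← after_after, ← S_after, ← S_after, ← hn] at h1
    refine h1.trans ?_
    have h2 := ha k le_rfl
    have h3 : 1 ≤ 2 * θ ^ k := by
      have : θ ^ Q ≤ θ ^ k := pow_le_pow_of_le_one hθ0.le hθ1 hk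
      linarith
    calc b * θ ^ n * ‖S (pw d) (after u t) k w - S (pw d) (after u t) k o‖
        ≤ b * θ ^ n * (a * ‖w - o‖) := by gcongr
      _ = (b * θ ^ n * (a * ‖w - o‖)) * 1 := by ring
      _ ≤ (b * θ ^ n * (a * ‖w - o‖)) * (2 * θ ^ k) := by gcongr
      _ = _ := by rw [hn, pow_add]; ring
  · refine (chordal_le_dist _ _).trans ((ha N hge).trans ?_)
    have h3 : 1 ≤ 2 * θ ^ N := by
      have : θ ^ Q ≤ θ ^ N := pow_le_pow_of_le_one hθ0.le hθ1 (hge.trans hk)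
      linarith
    calc a * ‖w - o‖ = (a * ‖w - o‖) * 1 * 1 := by ring
      _ ≤ (a * ‖w - o‖) * (2 * θ ^ N) * b := by gcongr
      _ = _ := by ring

section

variable {c : ℕ → ℂ} {ω : ℕ → Option (Fin (m + 2) → A)} {Zs : ℕ → List ℂ} {T : ℕ} {C₂ r' : ℝ}
  {θ : ℝ}

/-- From the beginning of a window on. -/
theorem from_window (h : Glob d m R e κ Λ ρ c ω Zs T C₂ r') (hθ : 1 / 2 ≤ θ) (hθ1 : θ ≤ 1)
    (hQ : θ ^ (T * (m + 2)) = 1 / 2) (N : ℕ) : ∀ (i : ℕ) (z w o : ℂ), z ∈ Zs i →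
    ‖o - z‖ ≤ 2 * r' * ρ → ‖w - o‖ ≤ ρ / (2 * C₂) →
    chordal (S (pw d) (after (cc (m + 2) c ω) (i * T * (m + 2))) N w)
      (S (pw d) (after (cc (m + 2) c ω) (i * T * (m + 2))) N o) ≤
      2 * (Λ * C₂) * θ ^ N * ‖w - o‖ := by
  have hd := h.hC.hd
  have hR := h.hC.hR
  have hρ0 := h.hC.hρ0
  have hρ3 := h.hC.hρ3
  have hr0 := h.hr0
  have hr2 := h.r2
  have hr1 := h.r1
  have hC₂ := h.hC₂
  have hΛ1 := h.hC.hΛ1
  have hC₂0 : 0 < C₂ := by linarith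
  have hΛ0 : 0 < Λ := by linarith
  have hθ0 : 0 < θ := by linarith
  have huR : ∀ i, ‖cc (m + 2) c ω i‖ ≤ R := h.uR
  have hΛC : 1 ≤ Λ * C₂ := by nlinarith
  have hthe : ∀ n ≤ T * (m + 2), 1 ≤ 2 * θ ^ n := by
    intro n hn
    have : θ ^ (T * (m + 2)) ≤ θ ^ n := pow_le_pow_of_le_one hθ0.le hθ1 hn
    linarith
  induction N using Nat.strong_induction_on with
  | _ N ih =>
    intro i z w o hz hoz hwo
    have hCo : C₂ * ‖o - z‖ ≤ ρ / 2 := by
      have : C₂ * ‖o - z‖ ≤ C₂ * (2 * r' * ρ) := by gcongr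
      nlinarith
    have hCw' : C₂ * ‖w - o‖ ≤ ρ / 2 := by
      have h1 : C₂ * ‖w - o‖ ≤ C₂ * (ρ / (2 * C₂)) := by gcongr
      have h2 : C₂ * (ρ / (2 * C₂)) = ρ / 2 := by field_simp
      linarith
    have hCw : C₂ * ‖w - z‖ ≤ ρ := by
      have h1 : ‖w - z‖ ≤ ‖w - o‖ + ‖o - z‖ := by
        have := norm_add_le (w - o) (o - z)
        rwa [sub_add_sub_cancel] at this
      have h2 : C₂ * ‖w - z‖ ≤ C₂ * (‖w - o‖ + ‖o - z‖) := by gcongr
      linarith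
    have hwo1 : ‖w - o‖ ≤ 1 / 2 := by
      have : ‖w - o‖ ≤ C₂ * ‖w - o‖ := by nlinarith [norm_nonneg (w - o)]
      linarith
    set U := after (cc (m + 2) c ω) (i * T * (m + 2)) with hU
    rcases one_phase h.hC h.hu (K := i * T) (J := T) (y := z) (w := w) (o := o)
      (fun j hj hal => (h.win i).old z hz 0 j (by omega) hal) hCw (by linarith) h.hC₂ with
      ⟨hal, hb⟩ | ⟨n₁, hn₁, hesc1, hesc2, hb⟩
    · rcases Nat.lt_or_ge (T * (m + 2)) N with hlt | hge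
      · obtain ⟨N', hN'⟩ := Nat.exists_eq_add_of_le hlt.le
        have hTpos : 0 < T * (m + 2) := Nat.mul_pos h.hT (by omega)
        obtain ⟨h1, z', hz', h2⟩ := window_end h hz hal hCw (show C₂ * ‖o - z‖ ≤ ρ by linarith)
        have e1 : after (cc (m + 2) c ω) (i * T * (m + 2) + T * (m + 2)) =
            after (cc (m + 2) c ω) ((i + 1) * T * (m + 2)) := by
          congr 1; ring
        rw [hN', S_after, S_after, hU, after_after, e1, ← hU]
        rw [← hU] at h1 h2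
        set w₁ := S (pw d) U (T * (m + 2)) w with hw₁
        set o₁ := S (pw d) U (T * (m + 2)) o with ho₁
        have h3 : ‖w₁ - o₁‖ ≤ 1 / 2 * ‖w - o‖ := by
          refine h1.trans ?_
          gcongr
          linarith
        have h4 : ‖o₁ - z'‖ ≤ 2 * r' * ρ := by
          have h6 : r' * ‖o - z‖ ≤ r' * (2 * r' * ρ) := by gcongr
          have h7 : r' * (2 * r' * ρ) ≤ r' * ρ := by
            have : 2 * r' * ρ ≤ ρ := by nlinarith
            gcongr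
          linarith
        have h5 : ‖w₁ - o₁‖ ≤ ρ / (2 * C₂) := by
          have := norm_nonneg (w - o)
          linarith
        have h6 := ih N' (by omega) (i + 1) z' w₁ o₁ hz' h4 h5
        refine h6.trans ?_
        rw [pow_add, hQ]
        calc 2 * (Λ * C₂) * θ ^ N' * ‖w₁ - o₁‖ ≤ 2 * (Λ * C₂) * θ ^ N' * (1 / 2 * ‖w - o‖) := by
              gcongr
          _ = _ := by ring
      · refine (chordal_le_dist _ _).trans ((hb N hge).trans ?_)
        have h3 := hthe N hge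
        calc Λ * C₂ * ‖w - o‖ = Λ * C₂ * 1 * ‖w - o‖ := by ring
          _ ≤ Λ * C₂ * (2 * θ ^ N) * ‖w - o‖ := by gcongr
          _ = _ := by ring
    · rw [← hU] at hb hesc1 hesc2
      have h1 : Fin' d (cc (m + 2) c ω) θ (i * T * (m + 2) + n₁) (S (pw d) U n₁ w)
          (S (pw d) U n₁ o) 1 :=
        Fin'.escaped hd hR huR hθ (by linarith) (by linarith)
      have h2 := Fin'.comp (d := d) hθ hθ1 (hthe _ le_rfl) hn₁ le_rfl hb h1
      have h3 := h2 N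
      rw [← hU] at h3
      refine h3.trans (le_of_eq ?_)
      ring

/-- From a block time on. -/
theorem from_block (h : Glob d m R e κ Λ ρ c ω Zs T C₂ r') (hθ : 1 / 2 ≤ θ) (hθ1 : θ ≤ 1)
    (hQ : θ ^ (T * (m + 2)) = 1 / 2) {k n : ℕ} (hn : n < k * (m + 2)) {w : ℂ}
    (hw : ‖w - cr d (cc (m + 2) c ω) n (k * (m + 2) - n)‖ ≤ ρ / (2 * C₂ ^ 2 * Λ)) :
    Fin' d (cc (m + 2) c ω) θ (k * (m + 2)) w (cr d (cc (m + 2) c ω) n (k * (m + 2) - n))
      (4 * (Λ * C₂) ^ 2) := by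
  have hd := h.hC.hd
  have hR := h.hC.hR
  have hρ0 := h.hC.hρ0
  have hρ3 := h.hC.hρ3
  have hr0 := h.hr0
  have hr := h.hr
  have hC₂ := h.hC₂
  have hΛ1 := h.hC.hΛ1
  have hC₂0 : 0 < C₂ := by linarith
  have hΛ0 : 0 < Λ := by linarith
  have hθ0 : 0 < θ := by linarith
  have hT := h.hT
  have huR : ∀ i, ‖cc (m + 2) c ω i‖ ≤ R := h.uR
  have hΛC : 1 ≤ Λ * C₂ := by nlinarith
  have hthe : 1 ≤ 2 * θ ^ (T * (m + 2)) := by rw [hQ]; norm_num
  set i := k / T with hi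
  set t := k % T with ht
  have hk : k = i * T + t := by
    have := Nat.div_add_mod k T
    rw [← hi, ← ht, Nat.mul_comm] at this
    exact this.symm
  have htT : t < T := Nat.mod_lt _ hT
  set o := cr d (cc (m + 2) c ω) n (k * (m + 2) - n) with ho
  have hX0 : 0 ≤ ‖w - o‖ := norm_nonneg _
  -- sizes
  have hsz1 : Λ * C₂ * ‖w - o‖ ≤ ρ / (2 * C₂) := by
    calc Λ * C₂ * ‖w - o‖ ≤ Λ * C₂ * (ρ / (2 * C₂ ^ 2 * Λ)) := by gcongr
      _ = ρ / (2 * C₂) := by field_simp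
  have hsz2 : ρ / (2 * C₂) ≤ ρ / 2 := by
    apply div_le_div_of_nonneg_left hρ0.le (by norm_num)
    linarith
  have hsz3 : C₂ * ‖w - o‖ ≤ ρ / 2 := by
    have : C₂ * ‖w - o‖ ≤ Λ * C₂ * ‖w - o‖ := by
      have h1 : 0 ≤ C₂ * ‖w - o‖ := by positivity
      nlinarith
    linarith
  have hsz4 : ‖w - o‖ ≤ ρ / 2 := by
    have : ‖w - o‖ ≤ C₂ * ‖w - o‖ := by nlinarith
    linarith
  have hfar : ∀ x y : ℂ, R + 33 / 2 ≤ ‖y‖ → ‖x - y‖ ≤ 1 / 2 → R + 16 ≤ ‖x‖ := by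
    intro x y h1 h2
    have h3 : ‖y‖ ≤ ‖x - y‖ + ‖x‖ := by
      have := norm_sub_le x (x - y)
      rw [sub_sub_cancel] at this
      linarith
    linarith
  have hbig : (1 : ℝ) ≤ 4 * (Λ * C₂) ^ 2 := by nlinarith
  rcases crit_block h htT (n := n) (i := i) (by rw [← hk]; exact hn) with h1 | ⟨y, h1, h2⟩
  · rw [← hk, ← ho] at h1
    exact (Fin'.escaped hd hR huR hθ (hfar w o h1 (by linarith)) (by linarith)).mono hθ0.le hbig
  · rw [← hk, ← ho] at h1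
    rw [← hk] at h2
    have hCo : C₂ * ‖o - y‖ ≤ ρ / 2 := by
      have h3 : C₂ * ‖o - y‖ ≤ C₂ * (C₂ * (2 * r' * ρ)) := by gcongr
      have h4 : C₂ * (C₂ * (2 * r' * ρ)) = (4 * C₂ ^ 2 * r') * (ρ / 2) := by ring
      have h5 : (4 * C₂ ^ 2 * r') * (ρ / 2) ≤ 1 * (ρ / 2) := by gcongr
      linarith
    have hCw : C₂ * ‖w - y‖ ≤ ρ := by
      have h3 : ‖w - y‖ ≤ ‖w - o‖ + ‖o - y‖ := by
        have := norm_add_le (w - o) (o - y)
        rwa [sub_add_sub_cancel] at this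
      have h4 : C₂ * ‖w - y‖ ≤ C₂ * (‖w - o‖ + ‖o - y‖) := by gcongr
      linarith
    have hQle : (T - t) * (m + 2) ≤ T * (m + 2) := Nat.mul_le_mul_right _ (Nat.sub_le _ _)
    rcases one_phase h.hC h.hu (K := k) (J := T - t) (y := y) (w := w) (o := o)
      (fun j hj hal => h2 j (by omega) hal) hCw (by linarith) h.hC₂ with
      ⟨hal, hb⟩ | ⟨n₁, hn₁, hesc1, hesc2, hb⟩
    · -- the end of the window
      have e1 : k * (m + 2) + (T - t) * (m + 2) = (i + 1) * T * (m + 2) := by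
        rw [← Nat.add_mul, hk]
        congr 1
        rw [Nat.succ_mul]
        omega
      have e2 : S (pw d) (after (cc (m + 2) c ω) (k * (m + 2))) ((T - t) * (m + 2)) o =
          cr d (cc (m + 2) c ω) n ((i + 1) * T * (m + 2) - n) := by
        rw [← e1, show k * (m + 2) + (T - t) * (m + 2) - n =
          (k * (m + 2) - n) + (T - t) * (m + 2) by omega, cr_add,
          show n + (k * (m + 2) - n) = k * (m + 2) by omega]
      have h3 := (hb ((T - t) * (m + 2)) le_rfl).trans hsz1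
      have hfin : Fin' d (cc (m + 2) c ω) θ (k * (m + 2) + (T - t) * (m + 2))
          (S (pw d) (after (cc (m + 2) c ω) (k * (m + 2))) ((T - t) * (m + 2)) w)
          (S (pw d) (after (cc (m + 2) c ω) (k * (m + 2))) ((T - t) * (m + 2)) o)
          (2 * (Λ * C₂)) := by
        rcases crit_window h (i + 1) n (by rw [← e1]; omega) with h4 | ⟨z, hz, -, h4⟩
        · rw [← e2] at h4
          exact (Fin'.escaped hd hR huR hθ (hfar _ _ h4 (by linarith)) (by linarith)).mono hθ0.le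
            (by linarith)
        · rw [← e2] at h4
          intro N
          rw [e1]
          exact from_window h hθ hθ1 hQ N (i + 1) z _ _ hz h4 h3
      have h5 := Fin'.comp (d := d) hθ hθ1 hthe hQle (by linarith) hb hfin
      exact h5.mono hθ0.le (le_of_eq (by ring))
    · have h1 : Fin' d (cc (m + 2) c ω) θ (k * (m + 2) + n₁)
          (S (pw d) (after (cc (m + 2) c ω) (k * (m + 2))) n₁ w)
          (S (pw d) (after (cc (m + 2) c ω) (k * (m + 2))) n₁ o) 1 :=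
        Fin'.escaped hd hR huR hθ (by linarith) (by linarith)
      have h2 := Fin'.comp (d := d) hθ hθ1 hthe (hn₁.trans hQle) le_rfl hb h1
      refine h2.mono hθ0.le ?_
      nlinarith

/-- From any time on. -/
theorem from_any (h : Glob d m R e κ Λ ρ c ω Zs T C₂ r') (hθ : 1 / 2 ≤ θ) (hθ1 : θ ≤ 1)
    (hQ : θ ^ (T * (m + 2)) = 1 / 2) {n a : ℕ} {w : ℂ}
    (hw : ‖w - cr d (cc (m + 2) c ω) n a‖ ≤ ρ / (2 * C₂ ^ 2 * Λ ^ 2)) :
    Fin' d (cc (m + 2) c ω) θ (n + a) w (cr d (cc (m + 2) c ω) n a)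
      (8 * Λ ^ 3 * C₂ ^ 2) := by
  classical
  have hd := h.hC.hd
  have hR := h.hC.hR
  have hρ0 := h.hC.hρ0
  have hρ3 := h.hC.hρ3
  have hC₂ := h.hC₂
  have hΛ1 := h.hC.hΛ1
  have hL := one_le_LL hd hR
  have hC₂0 : 0 < C₂ := by linarith
  have hΛ0 : 0 < Λ := by linarith
  have hθ0 : 0 < θ := by linarith
  have hT := h.hT
  have huR : ∀ i, ‖cc (m + 2) c ω i‖ ≤ R := h.uR
  have hthe : 1 ≤ 2 * θ ^ (T * (m + 2)) := by rw [hQ]; norm_num
  set o := cr d (cc (m + 2) c ω) n a with ho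
  have hX0 : 0 ≤ ‖w - o‖ := norm_nonneg _
  have hsz1 : Λ * ‖w - o‖ ≤ ρ / (2 * C₂ ^ 2 * Λ) := by
    calc Λ * ‖w - o‖ ≤ Λ * (ρ / (2 * C₂ ^ 2 * Λ ^ 2)) := by gcongr
      _ = _ := by field_simp
  have hsz2 : ρ / (2 * C₂ ^ 2 * Λ) ≤ ρ / 2 := by
    apply div_le_div_of_nonneg_left hρ0.le (by norm_num)
    have h1 : 1 ≤ C₂ ^ 2 := one_le_pow₀ hC₂
    nlinarith
  have hsz3 : Λ * ‖w - o‖ ≤ 1 := by linarith
  set k := (n + a) / (m + 2) + 1 with hk
  have hk1 : n + a < k * (m + 2) := by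
    have h1 := Nat.div_add_mod (n + a) (m + 2)
    have h2 := Nat.mod_lt (n + a) (show m + 2 > 0 by omega)
    rw [hk, Nat.succ_mul, Nat.mul_comm]
    omega
  have hk2 : k * (m + 2) ≤ n + a + (m + 2) := by
    have h1 := Nat.div_add_mod (n + a) (m + 2)
    rw [hk, Nat.succ_mul, Nat.mul_comm]
    omega
  obtain ⟨v, hv⟩ := Nat.exists_eq_add_of_le hk1.le
  have hvm : v ≤ m + 2 := by omega
  have hvQ : v ≤ T * (m + 2) := hvm.trans (Nat.le_mul_of_pos_left _ hT)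
  set U := after (cc (m + 2) c ω) (n + a) with hU
  have hUR : ∀ i, ‖U i‖ ≤ R := fun i => huR (n + a + i)
  -- the step estimate
  have key : ∀ j ≤ v, (∀ i < j, ‖S (pw d) U i o‖ ≤ R + 17) →
      ‖S (pw d) U j w - S (pw d) U j o‖ ≤ Λ * ‖w - o‖ := by
    intro j hj hal
    have h1 : LL d R ^ j ≤ Λ := by
      rw [h.hC.hΛ]; exact pow_le_pow_right₀ hL (by omega)
    have h2 : LL d R ^ j * ‖w - o‖ ≤ 1 := by
      have : LL d R ^ j * ‖w - o‖ ≤ Λ * ‖w - o‖ := by gcongr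
      linarith
    refine (lip_orbit hd hR (u := U) (z := o) (w := w) (n := j)
      (fun i hi => by linarith [hal i hi]) h2).trans ?_
    gcongr
  have hΛC : (1 : ℝ) ≤ 4 * (Λ * C₂) ^ 2 := by
    have : 1 ≤ Λ * C₂ := by nlinarith
    nlinarith
  have heq : 2 * Λ * (4 * (Λ * C₂) ^ 2) = 8 * Λ ^ 3 * C₂ ^ 2 := by ring
  by_cases hesc : ∃ j, j ≤ v ∧ R + 17 < ‖S (pw d) U j o‖
  · set n₁ := Nat.find hesc with hn₁
    have hf : n₁ ≤ v ∧ R + 17 < ‖S (pw d) U n₁ o‖ := Nat.find_spec hesc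
    have hmin : ∀ i < n₁, ‖S (pw d) U i o‖ ≤ R + 17 := by
      intro i hi
      by_contra hcon
      exact Nat.find_min hesc hi ⟨by omega, not_le.1 hcon⟩
    have hb : ∀ j ≤ n₁, ‖S (pw d) U j w - S (pw d) U j o‖ ≤ Λ * ‖w - o‖ := fun j hj =>
      key j (hj.trans hf.1) fun i hi => hmin i (by omega)
    have h1 : R + 16 ≤ ‖S (pw d) U n₁ w‖ := by
      have h2 := hb n₁ le_rfl
      have h3 : ‖S (pw d) U n₁ o‖ ≤ ‖S (pw d) U n₁ w - S (pw d) U n₁ o‖ + ‖S (pw d) U n₁ w‖ := by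
        have := norm_sub_le (S (pw d) U n₁ w) (S (pw d) U n₁ w - S (pw d) U n₁ o)
        rw [sub_sub_cancel] at this
        linarith
      linarith [hf.2]
    have h2 : Fin' d (cc (m + 2) c ω) θ (n + a + n₁) (S (pw d) U n₁ w) (S (pw d) U n₁ o) 1 :=
      Fin'.escaped hd hR huR hθ h1 (by linarith [hf.2])
    have h3 := Fin'.comp (d := d) hθ hθ1 hthe (hf.1.trans hvQ) le_rfl hb h2
    refine h3.mono hθ0.le ?_
    rw [← heq]
    gcongr
  · push Not at hesc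
    have hb : ∀ j ≤ v, ‖S (pw d) U j w - S (pw d) U j o‖ ≤ Λ * ‖w - o‖ := fun j hj =>
      key j hj fun i hi => hesc i (by omega)
    have e1 : S (pw d) U v o = cr d (cc (m + 2) c ω) n (k * (m + 2) - n) := by
      rw [show k * (m + 2) - n = a + v by omega, cr_add]
    have h2 : Fin' d (cc (m + 2) c ω) θ (n + a + v) (S (pw d) U v w) (S (pw d) U v o)
        (4 * (Λ * C₂) ^ 2) := by
      rw [← hv, e1]
      refine from_block h hθ hθ1 hQ (by omega) ?_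
      rw [← e1]
      exact (hb v le_rfl).trans hsz1
    have h3 := Fin'.comp (d := d) hθ hθ1 hthe hvQ hΛC hb h2
    rw [heq] at h3
    exact h3

end

end Pool.Agent.R241.NA
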