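import Pool.Agent.R241.NB6

/-!
# The main theorem on non-autonomous perturbations
-/

set_option autoImplicit false

open Filter Topology Set Metric
open Pool.Agent.R241.NR

namespace Pool.Agent.R241.NA

open Pool.Agent.R241.SK (S_differentiable chordal chordal_le_dist)

theorem exists_theta {Q : ℕ} (hQ : 0 < Q) : ∃ θ : ℝ, 1 / 2 ≤ θ ∧ θ < 1 ∧ θ ^ Q = 1 / 2 := by
  have h1 : (((1 : ℝ) / 2) ^ ((Q : ℝ)⁻¹)) ^ Q = 1 / 2 :=
    Real.rpow_inv_natCast_pow (by norm_num) hQ.ne'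
  set θ : ℝ := ((1 : ℝ) / 2) ^ ((Q : ℝ)⁻¹) with hθ
  have h0 : 0 < θ := by positivity
  have h2 : θ < 1 := by
    by_contra hcon
    push Not at hcon
    have : 1 ≤ θ ^ Q := one_le_pow₀ hcon
    linarith
  refine ⟨θ, ?_, h2, h1⟩
  have h3 : θ ^ Q ≤ θ ^ 1 := pow_le_pow_of_le_one h0.le h2.le hQ
  rw [pow_one] at h3
  linarith

theorem choose_T {aa γ s : ℝ} (hγ : 1 < γ) :
    ∃ T : ℕ, 0 < T ∧ (T * aa) ^ 3 / γ ^ T ≤ (1 / 4 : ℝ) ^ s := by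
  have h1 : Tendsto (fun n : ℕ => (n : ℝ) ^ 3 / γ ^ n) atTop (𝓝 0) :=
    tendsto_pow_const_div_const_pow_of_one_lt 3 hγ
  have h2 : Tendsto (fun n : ℕ => aa ^ 3 * ((n : ℝ) ^ 3 / γ ^ n)) atTop (𝓝 0) := by
    simpa using h1.const_mul (aa ^ 3)
  have h3 : (0 : ℝ) < (1 / 4 : ℝ) ^ s := by positivity
  obtain ⟨T, hT1, hT2⟩ := ((h2.eventually (gt_mem_nhds h3)).and (eventually_gt_atTop 0)).exists
  refine ⟨T, hT2, ?_⟩
  rw [mul_pow]
  calc (T : ℝ) ^ 3 * aa ^ 3 / γ ^ T = aa ^ 3 * ((T : ℝ) ^ 3 / γ ^ T) := by ring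
    _ ≤ _ := hT1.le

theorem rad_consts {C₁ γ s : ℝ} (hC₁1 : 1 ≤ C₁) (hγ : 1 < γ) (hs0 : 0 < s) (T : ℕ)
    (h : C₁ ^ 3 / γ ^ T ≤ (1 / 4 : ℝ) ^ s) :
    1 ≤ C₁ ^ (1 / s) ∧ 0 ≤ (C₁ / γ ^ T) ^ (1 / s) ∧
      4 * (C₁ ^ (1 / s)) ^ 2 * (C₁ / γ ^ T) ^ (1 / s) ≤ 1 ∧ (C₁ / γ ^ T) ^ (1 / s) < 1 := by
  have hC₁0 : 0 < C₁ := by linarith
  have hγ0 : 0 < γ := by linarith
  have hC₂1 : 1 ≤ C₁ ^ (1 / s) := Real.one_le_rpow hC₁1 (by positivity)
  have hr'0 : 0 ≤ (C₁ / γ ^ T) ^ (1 / s) := by positivity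
  have h1 : (C₁ ^ (1 / s)) ^ 2 * (C₁ / γ ^ T) ^ (1 / s) = (C₁ ^ 3 / γ ^ T) ^ (1 / s) := by
    rw [← Real.rpow_natCast, ← Real.rpow_mul hC₁0.le, mul_comm (1 / s) ((2 : ℕ) : ℝ),
      Real.rpow_mul hC₁0.le, Real.rpow_natCast, ← Real.mul_rpow (by positivity) (by positivity)]
    congr 1
    ring
  have h2 : (C₁ ^ 3 / γ ^ T) ^ (1 / s) ≤ ((1 / 4 : ℝ) ^ s) ^ (1 / s) :=
    Real.rpow_le_rpow (by positivity) h (by positivity)
  rw [← Real.rpow_mul (by norm_num), mul_one_div, div_self hs0.ne', Real.rpow_one, ← h1] at h2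
  generalize C₁ ^ (1 / s) = x at hC₂1 h2 ⊢
  generalize (C₁ / γ ^ T) ^ (1 / s) = y at hr'0 h2 ⊢
  refine ⟨hC₂1, hr'0, by linarith, ?_⟩
  have h3 : 1 ≤ x ^ 2 := one_le_pow₀ hC₂1
  have h4 : y ≤ x ^ 2 * y := le_mul_of_one_le_left hr'0 h3
  linarith

theorem main {d : ℕ} (hd : 2 ≤ d) {R₀ ε : ℝ} (hR₀ : 0 ≤ R₀) (hε : 0 < ε) :
    ∃ (V : Finset ℂ) (δ C θ : ℝ), (∀ v ∈ V, ‖v‖ < ε) ∧ 0 < δ ∧ 0 < θ ∧ θ < 1 ∧
      ∀ c : ℕ → ℂ, (∀ k, ‖c k‖ ≤ R₀) → ∃ a : ℕ → ℂ, (∀ k, a k ∈ V) ∧ ∀ (n m : ℕ) (w : ℂ),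
        ‖w - cr d (fun k => c k + a k) n m‖ < δ →
        Fin' d (fun k => c k + a k) θ (n + m) w (cr d (fun k => c k + a k) n m) C := by
  classical
  set e : ℝ := min (ε / 2) 1 with he
  have he0 : 0 < e := by rw [he]; positivity
  have he1 : e ≤ 1 := min_le_right _ _
  have heε : e < ε := lt_of_le_of_lt (min_le_left _ _) (by linarith)
  set R : ℝ := R₀ + 1 with hR
  have hR0 : 0 ≤ R := by linarith
  set L : ℝ := LL d R with hLdef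
  have hL : 1 ≤ L := one_le_LL hd hR0
  have hL0 : 0 < L := by linarith
  set M : ℝ := (R + 18) / e with hM
  have hM1 : 1 < M := by
    rw [hM, lt_div_iff₀ he0]; linarith
  obtain ⟨m, n₀, hn₀, hlen⟩ := choose_length hL hM1
  set κ : ℝ := L * (M * (1 - 1 / M) ^ m) * L with hκ
  set Λ : ℝ := L ^ (m + 2) with hΛ
  have hMpos : 0 < 1 - 1 / M := by
    rw [sub_pos, div_lt_one (by linarith)]; exact hM1
  have hM0 : 0 < M := by linarith
  have hκ0 : 0 < κ := by rw [hκ]; positivity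
  have hΛ1 : 1 ≤ Λ := by rw [hΛ]; exact one_le_pow₀ hL
  have hΛ0 : 0 < Λ := by linarith
  have hκ' : κ = LL d R * (((R + 18) / e) * (1 - 1 / ((R + 18) / e)) ^ m) * LL d R := rfl
  have hΛ' : Λ = LL d R ^ (m + 2) := rfl
  clear_value κ Λ
  -- the probability of a kick
  set q : ℝ := 1 / ((n₀ : ℝ) + 1) with hq
  have hn₀' : (0 : ℝ) < n₀ := by exact_mod_cast hn₀
  have hq0 : 0 < q := by rw [hq]; positivity
  have hq1 : q < 1 := by rw [hq, div_lt_one (by positivity)]; linarith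
  have hlog : (1 - q) * Real.log κ + q * Real.log Λ < 0 := by
    have h1 : Real.log (κ ^ n₀ * Λ) < 0 := Real.log_neg (by positivity) hlen
    rw [Real.log_mul (by positivity) hΛ0.ne', Real.log_pow] at h1
    have h2 : (1 - q) * Real.log κ + q * Real.log Λ = q * (n₀ * Real.log κ + Real.log Λ) := by
      have h3 : 1 - q = q * n₀ := by
        rw [hq]; field_simp; ring
      rw [h3]; ring
    rw [h2]
    exact mul_neg_of_pos_of_neg hq0 h1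
  -- the region of validity
  set ρ : ℝ := min (e / L) (1 / (2 * Λ)) with hρ
  have hρ0 : 0 < ρ := by rw [hρ]; positivity
  have hρ1 : LL d R * ρ ≤ e := by
    have : ρ ≤ e / L := min_le_left _ _
    calc LL d R * ρ ≤ L * (e / L) := by gcongr
      _ = e := by field_simp
  have hρ2 : Λ * ρ ≤ 1 / 2 := by
    have : ρ ≤ 1 / (2 * Λ) := min_le_right _ _
    calc Λ * ρ ≤ Λ * (1 / (2 * Λ)) := by gcongr
      _ = 1 / 2 := by field_simp
  have hCst : Cst d m R e κ Λ ρ := ⟨hd, hR0, he0, hκ', hκ0, hΛ', hρ0, hρ1, hρ2⟩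
  clear_value ρ
  -- the menu
  set η : ℝ := 1 / (((m + 2 : ℕ) : ℝ) * LL d R ^ (m + 2)) with hη
  have hb0 : (0 : ℝ) < ((m + 2 : ℕ) : ℝ) := by exact_mod_cast (by omega : 0 < m + 2)
  have hη0 : 0 < η := by
    rw [hη]
    have : (0 : ℝ) < LL d R := hL0
    positivity
  have hη1 : η * (((m + 2 : ℕ) : ℝ) * LL d R ^ (m + 2)) ≤ 1 := by
    rw [hη, one_div, inv_mul_cancel₀]
    have : (0 : ℝ) < LL d R := hL0
    positivity
  obtain ⟨A, hAne, hAe, hAη⟩ := exists_menu he0.le hη0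
  have hneA : Nonempty A := hAne.to_subtype
  set Nw : ℝ := (Fintype.card (Fin (m + 2) → A) : ℝ) with hNw
  have hNw0 : 0 < Nw := by rw [hNw]; exact_mod_cast Fintype.card_pos
  obtain ⟨s, hs0, hs1, hs2⟩ := choose_exponent (p₀ := q / Nw) hκ0 hΛ0 (by positivity) hlog
  set β₀ : ℝ := max ((1 - q) * κ ^ s + q * Λ ^ s) ((1 - q / Nw) * Λ ^ s) with hβ₀
  have hβ₀1 : β₀ < 1 := max_lt hs1 hs2
  have hβ₀0 : 0 < β₀ := by
    refine lt_of_lt_of_le ?_ (le_max_left _ _)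
    have h1 : 0 < 1 - q := by linarith
    positivity
  set γ : ℝ := (1 + β₀) / (2 * β₀) with hγ
  have hγ1 : 1 < γ := by
    rw [hγ, lt_div_iff₀ (by positivity)]; linarith
  set β : ℝ := γ * β₀ with hβ
  have hβeq : β = (1 + β₀) / 2 := by
    rw [hβ, hγ]; field_simp
  have hβ0 : 0 ≤ β := by rw [hβeq]; linarith
  have hβ1 : β < 1 := by rw [hβeq]; linarith
  -- the discs
  obtain ⟨D, -, -, hD⟩ := exists_menu (e := R + 17) (η := ρ / 2) (by linarith) (by linarith)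
  set aa : ℝ := ((D.card : ℝ) + 2 * ((m + 2 : ℕ) : ℝ)) / (1 - β) with haa
  obtain ⟨T, hT, hTs⟩ := choose_T (aa := aa) (γ := γ) (s := s) hγ1
  set N : ℕ := T * D.card + (m + 2) * T with hN
  set C₁ : ℝ := ((N : ℝ) + ((m + 2 : ℕ) : ℝ) * T) / (1 - β) with hC₁
  have hC₁eq : C₁ = T * aa := by
    rw [hC₁, haa, hN]
    push_cast
    ring
  have h1β : 0 < 1 - β := by linarith
  have hC₁1 : 1 ≤ C₁ := by
    rw [hC₁, le_div_iff₀ h1β]
    have h1 : (1 : ℝ) ≤ ((m + 2 : ℕ) : ℝ) * T := by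
      have : 1 ≤ (m + 2) * T := Nat.mul_pos (by omega) hT
      exact_mod_cast this
    have h2 : (0 : ℝ) ≤ N := Nat.cast_nonneg _
    linarith
  have hC₁0 : 0 < C₁ := by linarith
  set C₂ : ℝ := C₁ ^ (1 / s) with hC₂
  set r' : ℝ := (C₁ / γ ^ T) ^ (1 / s) with hr'
  have hγ0 : 0 < γ := by linarith
  rw [← hC₁eq] at hTs
  obtain ⟨hC₂1, hr'0, hcond, hr'1⟩ := rad_consts hC₁1 hγ1 hs0 T hTs
  rw [← hC₂] at hC₂1 hcond
  rw [← hr'] at hr'0 hcond hr'1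
  obtain ⟨θ, hθ1, hθ2, hθ3⟩ := exists_theta (Q := T * (m + 2)) (Nat.mul_pos hT (by omega))
  refine ⟨insert 0 A, ρ / (2 * C₂ ^ 2 * Λ ^ 2), 8 * Λ ^ 3 * C₂ ^ 2, θ, ?_, by positivity,
    by linarith, hθ2, ?_⟩
  · intro v hv
    rw [Finset.mem_insert] at hv
    rcases hv with rfl | hv
    · rw [norm_zero]; exact hε
    · exact lt_of_le_of_lt (hAe v hv) heε
  intro c hc
  have hu : ∀ (k : ℕ) (ω : Option (Fin (m + 2) → A)) (i : ℕ),
      ‖c (k * (m + 2) + i) + kick ω i‖ ≤ R := by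
    intro k ω i
    refine (norm_add_le _ _).trans ?_
    have h1 := hc (k * (m + 2) + i)
    have h2 := norm_kick he0.le hAe ω i
    linarith
  have hG : ∀ k z, ∑ ω, mu (m + 2) A q ω * GG d (m + 2) R e κ Λ γ s c k ω z ≤ β := by
    intro k z
    exact sum_GG hd hR0 he0.le hAne hAe hη0.le hη1 hAη hκ0 hΛ0 hγ0 hq0.le hq1.le
      (le_max_left _ _) (le_max_right _ _) (fun k => by linarith [hc k]) k z
  obtain ⟨ω, Zs, hwin⟩ := glue (T := T) hT (N := N) fun K Z hZ =>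
    window hCst hγ1.le hs0 hq0.le hq1.le hAne hu hβ0 hβ1 hG (EE d m c) (EE_length d m c) D hD
      T N hN hC₁ hC₂ hr' hr'1 K Z hZ
  have hglob : Glob d m R e κ Λ ρ c ω Zs T C₂ r' :=
    ⟨hCst, hu, hT, hC₂1, hr'0, hcond, hwin⟩
  refine ⟨fun k => kick (ω (k / (m + 2))) (k % (m + 2)), fun k => ?_, fun n a w hw => ?_⟩
  · simp only
    rw [Finset.mem_insert]
    cases ω (k / (m + 2)) with
    | none => exact Or.inl rfl
    | some f =>
      right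
      rw [kick_some f (Nat.mod_lt k (by omega : m + 2 > 0))]
      exact (f _).2
  · exact from_any hglob hθ1 hθ2.le hθ3 hw.le

end Pool.Agent.R241.NA
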