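import Pool.Agent.R241.NR3

/-!
# Periodic perturbations of a polynomial: the union bound
-/

set_option autoImplicit false

open Filter Topology Set Metric Polynomial MeasureTheory
open scoped ENNReal

namespace Pool.Agent.R241.NR

variable {g : ℂ → ℂ} {ε ρ : ℝ}

/-- Rotation of the indices. -/
def rot {N : ℕ} (hN : 0 < N) (k : ℕ) : Fin N ≃ Fin N where
  toFun i := ⟨(k + i) % N, Nat.mod_lt _ hN⟩
  invFun i := ⟨((N - k % N) + i) % N, Nat.mod_lt _ hN⟩
  left_inv i := by
    apply Fin.ext
    simp only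
    have h1 : k % N < N := Nat.mod_lt _ hN
    rw [Nat.add_mod_mod, ← Nat.add_assoc]
    have h2 : N - k % N + k = N * (k / N + 1) := by
      have := Nat.div_add_mod k N
      rw [Nat.mul_succ]
      omega
    rw [h2, Nat.mul_add_mod, Nat.mod_eq_of_lt i.2]
  right_inv i := by
    apply Fin.ext
    simp only
    have h1 : k % N < N := Nat.mod_lt _ hN
    rw [Nat.add_mod_mod, ← Nat.add_assoc]
    have h2 : k + (N - k % N) = N * (k / N + 1) := by
      have := Nat.div_add_mod k N
      rw [Nat.mul_succ]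
      omega
    rw [h2, Nat.mul_add_mod, Nat.mod_eq_of_lt i.2]

theorem measure_rot (hg : Continuous g) (hε : 0 < ε) {N : ℕ} (hN : 0 < N) (k : ℕ) (z : ℂ) :
    Measure.pi (fun _ : Fin N => unif ε)
      {a | S g (fun i => per hN a (k + i)) N z ∉ A g ε ρ} = phi g ε ρ N z := by
  have := isProb hε
  have hmp := measurePreserving_arrowCongr' (fun _ : Fin N => unif ε) (fun _ : Fin N => unif ε)
    (rot hN k).symm (MeasurableEquiv.refl ℂ) (fun _ => MeasurePreserving.id _)
  have hm : MeasurableSet {a : Fin N → ℂ | orb g N a z ∉ A g ε ρ} := by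
    have h1 : Continuous fun a : Fin N → ℂ => orb g N a z :=
      (orb_continuous hg N).comp (continuous_id.prodMk continuous_const)
    exact (h1.measurable (measurable_A hg)).compl
  unfold phi
  rw [← hmp.measure_preimage hm.nullMeasurableSet]
  congr 1
  ext a
  simp only [Set.mem_ofPred_eq, mem_preimage]
  rw [orb_eq_S g N _ (fun i => per hN a (k + i))]
  intro i
  rfl

/-- Outside of an event of small probability all critical orbits are absorbed. -/
theorem union_bound {T : ℂ[X]} (hε : 0 < ε) (hρ0 : 0 < ρ)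
    (hρ : ∀ z : ℂ, ρ < ‖z‖ → ∀ a : ℂ, ‖a‖ ≤ ε → 2 * ‖z‖ ≤ ‖T.eval z + a‖) (hT : T.derivative ≠ 0)
    {c : ℝ≥0∞} {N : ℕ} (hN : 0 < N) (h : ∀ z, phi (fun w => T.eval w) ε ρ N z ≤ c) :
    Measure.pi (fun _ : Fin N => unif ε) {a | ¬ ∀ c : ℂ, (derivative (comp T N a)).eval c = 0 →
      Escapes (fun w => (comp T N a).eval w) c ∨ Attracted (fun w => (comp T N a).eval w) c} ≤
      (T.derivative.natDegree * N : ℕ) * c := by
  have := isProb hε
  set g : ℂ → ℂ := fun w => T.eval w with hg
  have hgc : Continuous g := T.continuous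
  set Bad : Set (Fin N → ℂ) := ⋃ ω ∈ T.derivative.roots.toFinset, ⋃ k ∈ Finset.range N,
    {a | S g (fun i => per hN a (k + i)) N ω ∉ A g ε ρ} with hBad
  set Null : Set (Fin N → ℂ) := ⋃ i : Fin N, (Function.eval i) ⁻¹' (ball (0 : ℂ) ε)ᶜ with hNull
  have hnull : Measure.pi (fun _ : Fin N => unif ε) Null = 0 := by
    rw [hNull, measure_iUnion_null_iff]
    intro i
    exact Measure.pi_eval_preimage_null (fun _ : Fin N => unif ε) (unif_compl hε)
  have hsub : {a | ¬ ∀ c : ℂ, (derivative (comp T N a)).eval c = 0 →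
      Escapes (fun w => (comp T N a).eval w) c ∨ Attracted (fun w => (comp T N a).eval w) c} ⊆
      Null ∪ Bad := by
    intro a ha
    by_contra hcon
    rw [mem_union, not_or] at hcon
    obtain ⟨h1, h2⟩ := hcon
    apply ha
    intro c hc
    have h3 : ∀ i, ‖a i‖ < ε := by
      intro i
      by_contra h4
      apply h1
      refine mem_iUnion.2 ⟨i, ?_⟩
      intro h5
      rw [mem_ball_zero_iff] at h5
      exact h4 h5
    refine hyperbolic_of_absorbed hε hρ0 hρ hN a h3 ?_ c hc
    intro ω hω k hk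
    by_contra h4
    apply h2
    refine mem_iUnion₂.2 ⟨ω, ?_, mem_iUnion₂.2 ⟨k, Finset.mem_range.2 hk, h4⟩⟩
    rw [Multiset.mem_toFinset, mem_roots hT]
    exact hω
  calc Measure.pi (fun _ : Fin N => unif ε) _ ≤ Measure.pi (fun _ : Fin N => unif ε) (Null ∪ Bad) :=
        measure_mono hsub
    _ ≤ Measure.pi (fun _ : Fin N => unif ε) Null + Measure.pi (fun _ : Fin N => unif ε) Bad :=
        measure_union_le _ _
    _ = Measure.pi (fun _ : Fin N => unif ε) Bad := by rw [hnull, zero_add]
    _ ≤ ∑ ω ∈ T.derivative.roots.toFinset, ∑ k ∈ Finset.range N, c := by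
        refine (measure_biUnion_finset_le _ _).trans (Finset.sum_le_sum fun ω _ => ?_)
        refine (measure_biUnion_finset_le _ _).trans (Finset.sum_le_sum fun k _ => ?_)
        rw [measure_rot hgc hε hN k ω]
        exact h ω
    _ = (T.derivative.roots.toFinset.card * N : ℕ) * c := by
        simp only [Finset.sum_const, Finset.card_range, nsmul_eq_mul]
        push_cast
        ring
    _ ≤ (T.derivative.natDegree * N : ℕ) * c := by
        gcongr
        exact (Multiset.toFinset_card_le _).trans (card_roots' _)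

/-- Main theorem. -/
theorem main (T : ℂ[X]) (hT : 2 ≤ T.natDegree) (ε : ℝ) (hε : 0 < ε) :
    ∃ K θ : ℝ, 0 < K ∧ 0 < θ ∧ θ < 1 ∧ ∀ N : ℕ,
      Measure.pi (fun _ : Fin N => unif ε) {a | ¬ ∀ c : ℂ, (derivative (comp T N a)).eval c = 0 →
        Escapes (fun w => (comp T N a).eval w) c ∨
          Attracted (fun w => (comp T N a).eval w) c} ≤ ENNReal.ofReal (K * θ ^ N) := by
  have := isProb hε
  have hgc : Continuous (fun w : ℂ => T.eval w) := T.continuous
  obtain ⟨ρ, hρ0, hρ⟩ := exists_radius T hT ε hε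
  obtain ⟨m, c, hc, hm⟩ := uniform_bound (g := fun w => T.eval w) hgc hε hρ hρ0
  have hT' : T.derivative ≠ 0 := by
    intro h
    have := derivative_eq_zero.1 h
    omega
  -- we may take `m` positive
  set m' := m + 1 with hm'
  have hm2 : ∀ z, phi (fun w => T.eval w) ε ρ m' z ≤ c := fun z =>
    (phi_antitone hgc hε hρ hρ0 z (by omega)).trans (hm z)
  obtain ⟨q, hq0, hq1, hcq⟩ : ∃ q : ℝ, 0 < q ∧ q < 1 ∧ c ≤ ENNReal.ofReal q := by
    refine ⟨max c.toReal (1 / 2), by positivity, ?_, ?_⟩
    · refine max_lt ?_ (by norm_num)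
      rw [← ENNReal.toReal_one]
      exact (ENNReal.toReal_lt_toReal (ne_top_of_lt hc) ENNReal.one_ne_top).2 hc
    · rw [← ENNReal.ofReal_toReal (ne_top_of_lt hc)]
      exact ENNReal.ofReal_le_ofReal (by rw [ENNReal.toReal_ofReal ENNReal.toReal_nonneg]; exact le_max_left _ _)
  -- `t ^ m' = q`
  set t : ℝ := q ^ (1 / (m' : ℝ)) with ht
  have hm'0 : (0 : ℝ) < m' := by positivity
  have ht0 : 0 < t := Real.rpow_pos_of_pos hq0 _
  have ht1 : t < 1 := Real.rpow_lt_one hq0.le hq1 (by positivity)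
  have htm : t ^ m' = q := by
    rw [ht, ← Real.rpow_natCast, ← Real.rpow_mul hq0.le]
    rw [one_div_mul_cancel hm'0.ne', Real.rpow_one]
  set θ : ℝ := (t + 1) / 2 with hθ
  have hθ0 : 0 < θ := by positivity
  have hθ1 : θ < 1 := by rw [hθ]; linarith
  have htθ : t < θ := by rw [hθ]; linarith
  obtain ⟨B, hB⟩ : ∃ B : ℝ, ∀ N : ℕ, N * (t / θ) ^ N ≤ B := by
    have h1 := tendsto_self_mul_const_pow_of_lt_one (r := t / θ) (by positivity)
      ((div_lt_one hθ0).2 htθ)
    obtain ⟨B, hB⟩ := h1.bddAbove_range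
    exact ⟨B, fun N => hB ⟨N, rfl⟩⟩
  have hB0 : 0 ≤ B := by simpa using hB 0
  set D : ℝ := (T.derivative.natDegree : ℝ) with hD
  refine ⟨1 + D * (B * (1 / q)), θ, by positivity, hθ0, hθ1, fun N => ?_⟩
  rcases Nat.eq_zero_or_pos N with rfl | hN
  · refine prob_le_one.trans ?_
    rw [pow_zero, mul_one, ← ENNReal.ofReal_one]
    apply ENNReal.ofReal_le_ofReal
    have : 0 ≤ D * (B * (1 / q)) := by positivity
    linarith
  · have h1 : ∀ z, phi (fun w => T.eval w) ε ρ N z ≤ ENNReal.ofReal (q ^ (N / m')) := by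
      intro z
      have h2 : m' * (N / m') ≤ N := Nat.mul_div_le N m'
      refine (phi_antitone hgc hε hρ hρ0 z h2).trans ?_
      refine (phi_mul_le hgc hε hρ hρ0 hc hm2 _ z).trans ?_
      rw [ENNReal.ofReal_pow hq0.le]
      gcongr
    refine (union_bound hε hρ0 hρ hT' hN h1).trans ?_
    rw [← ENNReal.ofReal_natCast, ← ENNReal.ofReal_mul (by positivity)]
    apply ENNReal.ofReal_le_ofReal
    have h3 : q ^ (N / m') ≤ (1 / q) * t ^ N := by
      have h4 : N < m' * (N / m') + m' := by
        have := Nat.div_add_mod N m'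
        have := Nat.mod_lt N (show 0 < m' by omega)
        omega
      have h5 : q * q ^ (N / m') = t ^ (m' * (N / m') + m') := by
        rw [pow_add, pow_mul, htm]; ring
      have h6 : t ^ (m' * (N / m') + m') ≤ t ^ N :=
        pow_le_pow_of_le_one ht0.le ht1.le h4.le
      rw [div_mul_eq_mul_div, one_mul, le_div_iff₀ hq0, mul_comm]
      linarith
    push_cast
    calc (D * N) * q ^ (N / m') ≤ (D * N) * ((1 / q) * t ^ N) := by gcongr
      _ = D * (N * (t / θ) ^ N * (1 / q)) * θ ^ N := by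
        rw [div_pow]; field_simp
      _ ≤ D * (B * (1 / q)) * θ ^ N := by
        gcongr
        exact hB N
      _ ≤ (1 + D * (B * (1 / q))) * θ ^ N := by
        gcongr
        linarith

end Pool.Agent.R241.NR
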