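import Pool.Agent.R241.NS3
import Pool.Agent.R241.NR4

/-!
# Quantitative absorption
-/

set_option autoImplicit false

open Filter Topology Set Metric Polynomial MeasureTheory
open scoped ENNReal

namespace Pool.Agent.R241.NR

variable {g : ℂ → ℂ} {ε ρ δ δ' s η L : ℝ}

theorem KK_anti (g : ℂ → ℂ) (ρ : ℝ) (h : δ ≤ δ') : KK g δ' ρ ⊆ KK g δ ρ :=
  fun _ hz a ha n => hz a (fun i => (ha i).trans_le h) n

/-- Separation, with a general gain `s` of the size of the kicks. -/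
theorem separated' (hs : 0 < s) (hδ : 0 < δ) {z : ℂ} {a : ℕ → ℂ} (ha : ∀ i, ‖a i‖ < δ) {n m : ℕ}
    (hn : ρ < ‖S g a n z‖) (hm : ∀ y ∈ Reach g (δ + s) z m, ‖y‖ ≤ ρ) :
    ∃ w : ℕ → ℂ, (∀ k < m, ‖w k‖ ≤ ρ) ∧ ∀ k < m, ∀ l < m, k ≠ l → 2 * s / 2 ≤ ‖w k - w l‖ := by
  have e0 : 2 * s / 2 = s := by ring
  rw [e0]
  have h1 : ∀ k ≤ m, ∃ w : ℂ, w ∉ Reach g (δ + s) z k ∧ ball w s ⊆ Reach g (δ + s) z (k + 1) := by
    intro k hk
    by_contra hcon
    push Not at hcon
    have h2 : ∀ j, S g a j z ∈ Reach g (δ + s) z k := by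
      intro j
      induction j with
      | zero => exact ⟨0, by omega, fun _ => 0, by intro i; simp; positivity, rfl⟩
      | succ j ih =>
        by_contra h3
        refine hcon _ h3 fun u hu => Reach_succ ih ?_
        rw [mem_ball, dist_eq_norm] at hu
        have h4 : u - g (S g a j z) = (u - S g a (j + 1) z) + a j := by rw [S]; ring
        rw [h4]
        refine (norm_add_le _ _).trans_lt ?_
        linarith [ha j]
    exact absurd (hm _ (Reach_mono z hk (h2 n))) (not_le.2 hn)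
  choose! w hw1 hw2 using h1
  have hsep : ∀ k l, k < l → l < m → s ≤ ‖w k - w l‖ := by
    intro k l hkl hl
    by_contra h3
    push Not at h3
    refine hw1 l hl.le (Reach_mono z (Nat.succ_le_of_lt hkl) (hw2 k (by omega) ?_))
    rw [mem_ball, dist_comm, dist_eq_norm]
    exact h3
  refine ⟨w, fun k hk => ?_, fun k hk l hl hkl => ?_⟩
  · exact hm _ (Reach_mono z (Nat.succ_le_of_lt hk)
      (hw2 k hk.le (mem_ball_self hs)))
  · rcases lt_or_gt_of_ne hkl with h | h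
    · exact hsep k l h hl
    · rw [norm_sub_rev]; exact hsep l k h hk

theorem few_kicks' (hρ0 : 0 ≤ ρ) (hs : 0 < s) (hδ : 0 < δ) {z : ℂ} (hz : z ∉ KK g δ ρ) {m : ℕ}
    (hm : (2 * ρ / s + 1) ^ 2 < m) :
    ∃ j ≤ m, ∃ b : ℕ → ℂ, (∀ i, ‖b i‖ < δ + s) ∧ (∀ i < j, ‖S g b i z‖ ≤ ρ) ∧
      ρ < ‖S g b j z‖ := by
  have h0 : ∃ j ≤ m, ∃ b : ℕ → ℂ, (∀ i, ‖b i‖ < δ + s) ∧ ρ < ‖S g b j z‖ := by
    by_contra hcon
    push Not at hcon
    have h1 : ∃ a : ℕ → ℂ, (∀ i, ‖a i‖ < δ) ∧ ∃ n, ρ < ‖S g a n z‖ := by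
      by_contra h2
      push Not at h2
      exact hz h2
    obtain ⟨a, ha, n, hn⟩ := h1
    obtain ⟨w, hw1, hw2⟩ := separated' (m := m) hs hδ ha hn (by
      rintro y ⟨j, hj, b, hb, rfl⟩
      exact hcon j hj b hb)
    have h3 := packing hρ0 (by positivity : 0 < 2 * s) hw1 hw2
    have h4 : 4 * ρ / (2 * s) = 2 * ρ / s := by field_simp; ring
    rw [h4] at h3
    exact absurd h3 (not_le.2 hm)
  obtain ⟨j, hj, b, hb, hbj⟩ := h0
  classical
  have hex : ∃ j, ρ < ‖S g b j z‖ := ⟨j, hbj⟩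
  refine ⟨Nat.find hex, (Nat.find_min' hex hbj).trans hj, b, hb, fun i hi => ?_, Nat.find_spec hex⟩
  exact not_lt.1 (Nat.find_min hex hi)

/-- The uniform measure of a small disc. -/
theorem unif_ball (hδ' : 0 < δ') (hη : 0 < η) {c : ℂ} (h : ‖c‖ + η ≤ δ') :
    unif δ' (ball c η) = ENNReal.ofReal (η ^ 2 / δ' ^ 2) := by
  unfold unif
  rw [ProbabilityTheory.cond_apply measurableSet_ball]
  have h1 : ball (0 : ℂ) δ' ∩ ball c η = ball c η := by
    apply inter_eq_right.2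
    exact ball_subset_ball' (by rw [dist_zero_right]; linarith)
  rw [h1, Complex.volume_ball, Complex.volume_ball, ← ENNReal.ofReal_pow hδ'.le,
    ← ENNReal.ofReal_pow hη.le]
  have hpi0 : ((NNReal.pi : NNReal) : ENNReal) ≠ 0 := by
    rw [ENNReal.coe_ne_zero]; exact NNReal.pi_ne_zero
  rw [ENNReal.ofReal_div_of_pos (by positivity), mul_comm, ← div_eq_mul_inv,
    ENNReal.mul_div_mul_right _ _ hpi0 ENNReal.coe_ne_top]

/-- Following a path. -/
theorem follow (hg : Continuous g) (hδ' : 0 < δ') (hρ2 : 2 ≤ ρ) (hη : 0 < η) (hη1 : η ≤ 1)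
    (hR : ∀ z : ℂ, ρ - 1 < ‖z‖ → ∀ a : ℂ, ‖a‖ ≤ δ' → 2 * ‖z‖ ≤ ‖g z + a‖)
    (hL : ∀ z w : ℂ, ‖z‖ ≤ ρ → ‖w - z‖ ≤ 1 → ‖g w - g z‖ ≤ L * ‖w - z‖) (hL0 : 0 ≤ L)
    (hs : δ + s + (L + 1) * η ≤ δ') (n : ℕ) (z : ℂ) (b : ℕ → ℂ) (hb : ∀ i, ‖b i‖ < δ + s)
    (h1 : ∀ i < n, ‖S g b i z‖ ≤ ρ) (h2 : ρ < ‖S g b n z‖) (w : ℂ) (hw : ‖w - z‖ < η) :
    phi g δ' ρ (n + 1) w ≤ ENNReal.ofReal (1 - (η ^ 2 / δ' ^ 2) ^ n) := by
  have := isProb hδ'
  have hηδ : η ≤ δ' := by
    have h3 := hb 0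
    have h4 : 0 ≤ ‖b 0‖ := norm_nonneg _
    nlinarith
  have hq1 : η ^ 2 / δ' ^ 2 ≤ 1 := by
    rw [div_le_one (by positivity)]
    gcongr
  induction n generalizing z b w with
  | zero =>
    have h3 : ρ - 1 < ‖w‖ := by
      have h4 : ‖z‖ ≤ ‖w‖ + ‖w - z‖ := by
        have := norm_sub_le w (w - z)
        rwa [sub_sub_cancel] at this
      simp only [S] at h2
      linarith
    rw [phi_succ hg hδ']
    have h4 : ∀ᵐ a ∂(unif δ'), a ∈ ball (0 : ℂ) δ' := by
      rw [ae_iff]; exact unif_compl hδ'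
    have h5 : ∀ᵐ a ∂(unif δ'), phi g δ' ρ 0 (g w + a) = 0 := by
      filter_upwards [h4] with a ha
      apply phi_zero_of_mem
      right
      rw [mem_ball_zero_iff] at ha
      have := hR w h3 a ha.le
      rw [Set.mem_ofPred_eq]
      linarith
    rw [lintegral_congr_ae h5, lintegral_zero]
    exact zero_le
  | succ n ih =>
    set q : ℝ := η ^ 2 / δ' ^ 2 with hq
    have hq0 : 0 ≤ q := by positivity
    have hz : ‖z‖ ≤ ρ := h1 0 (by omega)
    set E : Set ℂ := ball (g z + b 0 - g w) η with hE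
    have hEm : MeasurableSet E := measurableSet_ball
    have h3 : ‖g z + b 0 - g w‖ + η ≤ δ' := by
      have h4 := hL z w hz (hw.le.trans hη1)
      have h5 : g z + b 0 - g w = b 0 - (g w - g z) := by ring
      rw [h5]
      have h6 := norm_sub_le (b 0) (g w - g z)
      have h7 := hb 0
      have h8 : L * ‖w - z‖ ≤ L * η := by gcongr
      linarith
    have hμE : unif δ' E = ENNReal.ofReal q := unif_ball hδ' hη h3
    have hμE' : unif δ' Eᶜ = ENNReal.ofReal (1 - q) := by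
      rw [prob_compl_eq_one_sub hEm, hμE, ← ENNReal.ofReal_one, ENNReal.ofReal_sub _ hq0]
    have hind : ∀ a ∈ E, phi g δ' ρ (n + 1) (g w + a) ≤ ENNReal.ofReal (1 - q ^ n) := by
      intro a ha
      refine ih (g z + b 0) (fun i => b (i + 1)) (fun i => hb _) (fun i hi => ?_) ?_ _ ?_
      · rw [← S_head]; exact h1 (i + 1) (by omega)
      · rw [← S_head]; exact h2
      · rw [hE, mem_ball, dist_eq_norm] at ha
        have : g w + a - (g z + b 0) = a - (g z + b 0 - g w) := by ring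
        rw [this]; exact ha
    rw [phi_succ hg hδ', ← lintegral_add_compl _ hEm]
    calc ∫⁻ a in E, phi g δ' ρ (n + 1) (g w + a) ∂(unif δ') +
          ∫⁻ a in Eᶜ, phi g δ' ρ (n + 1) (g w + a) ∂(unif δ')
        ≤ ∫⁻ _ in E, ENNReal.ofReal (1 - q ^ n) ∂(unif δ') + ∫⁻ _ in Eᶜ, 1 ∂(unif δ') := by
          refine add_le_add ?_ ?_
          · exact setLIntegral_mono measurable_const hind
          · exact setLIntegral_mono measurable_const fun b _ => phi_le_one hδ' _ _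
      _ = ENNReal.ofReal (1 - q ^ n) * ENNReal.ofReal q + ENNReal.ofReal (1 - q) := by
          rw [setLIntegral_const, setLIntegral_const, one_mul, hμE, hμE']
      _ = ENNReal.ofReal ((1 - q ^ n) * q + (1 - q)) := by
          have e1 : 0 ≤ 1 - q ^ n := by
            have := pow_le_one₀ (n := n) hq0 hq1
            linarith
          rw [← ENNReal.ofReal_mul e1, ← ENNReal.ofReal_add (mul_nonneg e1 hq0) (by linarith)]
      _ = ENNReal.ofReal (1 - q ^ (n + 1)) := by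
          congr 1
          ring

/-- A step from a point of the larger set. -/
theorem step_in (hg : Continuous g) (hδ : 0 < δ) (hδδ : δ ≤ δ') (h2 : δ' ≤ 2 * δ)
    (hvol : volume (KK g δ ρ \ KK g δ' ρ) ≤ ENNReal.ofReal (Real.pi * δ' ^ 2 / 8)) {z : ℂ}
    (hz : z ∈ KK g δ ρ) : phi g δ' ρ 1 z ≤ ENNReal.ofReal (7 / 8) := by
  have hδ' : 0 < δ' := hδ.trans_le hδδ
  have := isProb hδ'
  set Bd : Set ℂ := {b | g z + b ∉ A g δ' ρ} with hBd
  have hcont : Continuous fun b : ℂ => g z + b := continuous_const.add continuous_id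
  have hBdm : MeasurableSet Bd := (hcont.measurable (measurable_A hg)).compl
  have h3 : phi g δ' ρ 1 z = unif δ' Bd := by
    rw [show (1 : ℕ) = 0 + 1 from rfl, phi_succ hg hδ']
    have h4 : (fun b => phi g δ' ρ 0 (g z + b)) = Bd.indicator 1 := by
      funext b
      by_cases hb : g z + b ∈ A g δ' ρ
      · rw [phi_zero_of_mem hb, indicator_of_notMem]
        simpa [hBd] using hb
      · rw [phi_zero_of_not_mem hb, indicator_of_mem, Pi.one_apply]
        exact hb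
    rw [h4, lintegral_indicator_one hBdm]
  rw [h3]
  unfold unif
  rw [ProbabilityTheory.cond_apply measurableSet_ball]
  have hsub : ball (0 : ℂ) δ' ∩ Bd ⊆
      (ball (0 : ℂ) δ' \ ball (0 : ℂ) δ) ∪ (fun b => g z + b) ⁻¹' (KK g δ ρ \ KK g δ' ρ) := by
    rintro b ⟨hb1, hb2⟩
    by_cases hb3 : b ∈ ball (0 : ℂ) δ
    · right
      refine ⟨KK_ball hz ?_, fun h => hb2 (Or.inl h)⟩
      rw [mem_ball, dist_eq_norm, add_sub_cancel_left]
      simpa using hb3
    · left
      exact ⟨hb1, hb3⟩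
  have hpre : volume ((fun b => g z + b) ⁻¹' (KK g δ ρ \ KK g δ' ρ)) =
      volume (KK g δ ρ \ KK g δ' ρ) := measure_preimage_add volume (g z) _
  have hdiff : volume (ball (0 : ℂ) δ' \ ball (0 : ℂ) δ) =
      ENNReal.ofReal (Real.pi * (δ' ^ 2 - δ ^ 2)) := by
    rw [measure_sdiff (ball_subset_ball hδδ) measurableSet_ball.nullMeasurableSet
      measure_ball_lt_top.ne, Complex.volume_ball, Complex.volume_ball,
      ← ENNReal.ofReal_pow hδ'.le, ← ENNReal.ofReal_pow hδ.le]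
    have : ((NNReal.pi : NNReal) : ENNReal) = ENNReal.ofReal Real.pi := by
      rw [← NNReal.coe_real_pi, ENNReal.ofReal_coe_nnreal]
    rw [this, ← ENNReal.ofReal_mul (by positivity), ← ENNReal.ofReal_mul (by positivity),
      ← ENNReal.ofReal_sub _ (by positivity)]
    congr 1
    ring
  have hball : volume (ball (0 : ℂ) δ') = ENNReal.ofReal (Real.pi * δ' ^ 2) := by
    rw [Complex.volume_ball, ← ENNReal.ofReal_pow hδ'.le]
    have : ((NNReal.pi : NNReal) : ENNReal) = ENNReal.ofReal Real.pi := by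
      rw [← NNReal.coe_real_pi, ENNReal.ofReal_coe_nnreal]
    rw [this, ← ENNReal.ofReal_mul (by positivity)]
    congr 1
    ring
  have hb : volume (ball (0 : ℂ) δ' ∩ Bd) ≤ ENNReal.ofReal (7 / 8 * (Real.pi * δ' ^ 2)) := by
    refine (measure_mono hsub).trans ((measure_union_le _ _).trans ?_)
    rw [hpre, hdiff]
    refine (add_le_add_right hvol _).trans ?_
    rw [← ENNReal.ofReal_add]
    · apply ENNReal.ofReal_le_ofReal
      have h5 : δ' ^ 2 ≤ 4 * δ ^ 2 := by nlinarith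
      have := Real.pi_pos
      nlinarith
    · have h5 : 0 ≤ δ' ^ 2 - δ ^ 2 := by nlinarith
      have := Real.pi_pos
      positivity
    · have := Real.pi_pos
      positivity
  rw [hball]
  calc (ENNReal.ofReal (Real.pi * δ' ^ 2))⁻¹ * volume (ball (0 : ℂ) δ' ∩ Bd)
      ≤ (ENNReal.ofReal (Real.pi * δ' ^ 2))⁻¹ * ENNReal.ofReal (7 / 8 * (Real.pi * δ' ^ 2)) := by
        gcongr
    _ = ENNReal.ofReal (7 / 8) := by
        have h5 : 0 < Real.pi * δ' ^ 2 := by have := Real.pi_pos; positivity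
        rw [← ENNReal.ofReal_inv_of_pos h5, ← ENNReal.ofReal_mul (by positivity)]
        congr 1
        field_simp

end Pool.Agent.R241.NR
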