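import Pool.Agent.R241.NQ1

/-!
# Quantitative absorption: choice of the size of the kicks, and the final bounds
-/

set_option autoImplicit false

open Filter Topology Set Metric Polynomial MeasureTheory
open scoped ENNReal

namespace Pool.Agent.R241.NR

variable {g : ℂ → ℂ} {ε ρ L : ℝ}

/-- Pigeonhole for the areas. -/
theorem level (hg : Continuous g) (hε : 0 < ε) (hρ : 0 < ρ) {J : ℕ} (hJ : 0 < J)
    (hJ' : 32 * ρ ^ 2 ≤ J * ε ^ 2) {σ : ℝ} (hσ : 0 < σ) : ∃ j < J,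
      volume (KK g (ε / 2 + j * σ) ρ \ KK g (ε / 2 + (j + 1) * σ) ρ) ≤
        ENNReal.ofReal (Real.pi * ε ^ 2 / 32) := by
  by_contra hcon
  push Not at hcon
  set D : ℕ → Set ℂ := fun j => KK g (ε / 2 + j * σ) ρ \ KK g (ε / 2 + (j + 1) * σ) ρ with hD
  have hdisj : (↑(Finset.range J) : Set ℕ).PairwiseDisjoint D := by
    have hlt : ∀ i j : ℕ, i < j → Disjoint (D i) (D j) := by
      intro i j hij
      rw [Set.disjoint_left]
      rintro x ⟨_, hx1⟩ ⟨hx2, _⟩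
      refine hx1 (KK_anti g ρ ?_ hx2)
      have : (i : ℝ) + 1 ≤ j := by exact_mod_cast hij
      nlinarith
    intro i _ j _ hij
    rcases lt_or_gt_of_ne hij with h | h
    · exact hlt i j h
    · exact (hlt j i h).symm
  have hm : ∀ j ∈ Finset.range J, MeasurableSet (D j) := fun j _ =>
    (isClosed_KK hg _ _).measurableSet.diff (isClosed_KK hg _ _).measurableSet
  have h1 : ∑ j ∈ Finset.range J, volume (D j) ≤ ENNReal.ofReal (Real.pi * ρ ^ 2) := by
    rw [← measure_biUnion_finset hdisj hm]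
    have h2 : (⋃ j ∈ Finset.range J, D j) ⊆ closedBall (0 : ℂ) ρ := by
      refine iUnion₂_subset fun j _ x hx => mem_closedBall_zero_iff.2 ?_
      exact KK_norm (by positivity) hx.1
    refine (measure_mono h2).trans ?_
    rw [Complex.volume_closedBall, ← ENNReal.ofReal_pow hρ.le]
    have : ((NNReal.pi : NNReal) : ENNReal) = ENNReal.ofReal Real.pi := by
      rw [← NNReal.coe_real_pi, ENNReal.ofReal_coe_nnreal]
    rw [this, ← ENNReal.ofReal_mul (by positivity)]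
    exact ENNReal.ofReal_le_ofReal (by linarith)
  have h2 : ∑ j ∈ Finset.range J, ENNReal.ofReal (Real.pi * ε ^ 2 / 32) <
      ∑ j ∈ Finset.range J, volume (D j) := by
    refine ENNReal.sum_lt_sum_of_nonempty ⟨0, Finset.mem_range.2 hJ⟩ fun j hj => ?_
    exact hcon j (Finset.mem_range.1 hj)
  rw [Finset.sum_const, Finset.card_range, nsmul_eq_mul] at h2
  have h3 := h2.trans_le h1
  rw [← ENNReal.ofReal_natCast, ← ENNReal.ofReal_mul (by positivity)] at h3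
  rw [ENNReal.ofReal_lt_ofReal_iff_of_nonneg (by have := Real.pi_pos; positivity)] at h3
  have := Real.pi_pos
  nlinarith

/-- The uniform bound for the probability of not being absorbed. -/
theorem uniform_q (hg : Continuous g) (hε : 0 < ε) (hε1 : ε ≤ 1) (hρ2 : 2 ≤ ρ)
    (hR : ∀ z : ℂ, ρ - 1 < ‖z‖ → ∀ a : ℂ, ‖a‖ ≤ 1 → 2 * ‖z‖ ≤ ‖g z + a‖)
    (hL : ∀ z w : ℂ, ‖z‖ ≤ ρ → ‖w - z‖ ≤ 1 → ‖g w - g z‖ ≤ L * ‖w - z‖) (hL0 : 0 ≤ L)
    {J : ℕ} (hJ : 0 < J) (hJ' : 32 * ρ ^ 2 ≤ J * ε ^ 2) {m : ℕ}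
    (hm : (8 * ρ * J / ε + 1) ^ 2 < m) : ∃ δ : ℝ, ε / 2 ≤ δ ∧ δ ≤ ε ∧
      ∀ z, phi g δ ρ (m + 1) z ≤ ENNReal.ofReal (1 - (1 / (16 * J ^ 2 * (L + 1) ^ 2)) ^ m) := by
  have hJr : (1 : ℝ) ≤ J := by exact_mod_cast hJ
  set σ : ℝ := ε / (2 * J) with hσ
  have hσ0 : 0 < σ := by positivity
  have hσε : σ ≤ ε / 2 := by
    rw [hσ]
    gcongr
    linarith
  obtain ⟨j, hj, hvol⟩ := level hg hε (by linarith : 0 < ρ) hJ hJ' hσ0
  set δ : ℝ := ε / 2 + j * σ with hδ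
  set δ' : ℝ := ε / 2 + (j + 1) * σ with hδ'
  have hδδ : δ' = δ + σ := by rw [hδ, hδ']; ring
  have hδε : ε / 2 ≤ δ := by rw [hδ]; have : 0 ≤ j * σ := by positivity
                             linarith
  have hδ0 : 0 < δ := by linarith
  have hδ'ε : δ' ≤ ε := by
    have h1 : (j : ℝ) + 1 ≤ J := by exact_mod_cast hj
    have h2 : (J : ℝ) * σ = ε / 2 := by rw [hσ]; field_simp
    rw [hδ']
    nlinarith
  have hδ'0 : 0 < δ' := by linarith
  have hδ'1 : δ' ≤ 1 := hδ'ε.trans hε1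
  set η : ℝ := σ / (2 * (L + 1)) with hη
  have hη0 : 0 < η := by positivity
  have hηL : (L + 1) * η = σ / 2 := by rw [hη]; field_simp
  have hη1 : η ≤ σ / 2 := by nlinarith
  set q : ℝ := η ^ 2 / ε ^ 2 with hq
  have hqe : q = 1 / (16 * J ^ 2 * (L + 1) ^ 2) := by
    rw [hq, hη, hσ]; field_simp; ring
  have hq0 : 0 < q := by positivity
  have hq8 : q ≤ 1 / 8 := by
    rw [hqe]
    gcongr
    have h1 : (1 : ℝ) ≤ (J : ℝ) ^ 2 := one_le_pow₀ hJr
    have h2 : (1 : ℝ) ≤ (L + 1) ^ 2 := one_le_pow₀ (by linarith)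
    nlinarith
  have hm1 : 1 ≤ m := by
    by_contra h
    have : m = 0 := by omega
    rw [this, Nat.cast_zero] at hm
    exact absurd hm (not_lt.2 (by positivity))
  have hRδ : ∀ z : ℂ, ρ - 1 < ‖z‖ → ∀ a : ℂ, ‖a‖ ≤ δ' → 2 * ‖z‖ ≤ ‖g z + a‖ :=
    fun z hz a ha => hR z hz a (ha.trans hδ'1)
  have hRδ' : ∀ z : ℂ, ρ < ‖z‖ → ∀ a : ℂ, ‖a‖ ≤ δ' → 2 * ‖z‖ ≤ ‖g z + a‖ :=
    fun z hz a ha => hRδ z (by linarith) a ha
  refine ⟨δ', by linarith, hδ'ε, fun z => ?_⟩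
  rw [← hqe]
  by_cases hzK : z ∈ KK g δ ρ
  · refine (phi_antitone hg hδ'0 hRδ' (by linarith) z (by omega : 1 ≤ m + 1)).trans ?_
    refine (step_in hg hδ0 (by linarith) (by linarith) (hvol.trans ?_) hzK).trans ?_
    · apply ENNReal.ofReal_le_ofReal
      have h1 : ε ^ 2 ≤ 4 * δ' ^ 2 := by nlinarith
      have := Real.pi_pos
      nlinarith
    · apply ENNReal.ofReal_le_ofReal
      have h1 : q ^ m ≤ q ^ 1 := pow_le_pow_of_le_one hq0.le (by linarith) hm1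
      rw [pow_one] at h1
      linarith
  · obtain ⟨n, hn, b, hb1, hb2, hb3⟩ := few_kicks' (s := σ / 2) (m := m) (by linarith)
      (by positivity) hδ0 hzK (by
        have h1 : 2 * ρ / (σ / 2) = 8 * ρ * J / ε := by rw [hσ]; field_simp; ring
        rw [h1]; exact hm)
    have h1 := follow (η := η) (L := L) hg hδ'0 hρ2 hη0 (by linarith) hRδ hL hL0
      (by rw [hηL]; linarith) n z b hb1 hb2 hb3 z (by simpa using hη0)
    refine (phi_antitone hg hδ'0 hRδ' (by linarith) z (by omega : n + 1 ≤ m + 1)).trans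
      (h1.trans ?_)
    apply ENNReal.ofReal_le_ofReal
    have h2 : q ≤ η ^ 2 / δ' ^ 2 := by
      rw [hq]
      gcongr
    have h3 : q ^ m ≤ q ^ n := pow_le_pow_of_le_one hq0.le (by linarith) hn
    have h4 : q ^ n ≤ (η ^ 2 / δ' ^ 2) ^ n := by gcongr
    linarith

/-- A Lipschitz bound. -/
theorem lipschitz {d : ℕ} {M r : ℝ} (hM : 0 < M) (hr : 1 ≤ r) {T : ℂ[X]} (hT : T.natDegree = d)
    (hd : 1 ≤ d) (h1 : ∀ i : ℕ, ‖T.coeff i‖ ≤ M) {z w : ℂ} (hz : ‖z‖ ≤ r) (hw : ‖w‖ ≤ r) :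
    ‖T.eval w - T.eval z‖ ≤ (d ^ 2 * M * r ^ d) * ‖w - z‖ := by
  have hder : ∀ x ∈ closedBall (0 : ℂ) r, ‖deriv (fun y => T.eval y) x‖ ≤ d ^ 2 * M * r ^ d := by
    intro x hx
    rw [mem_closedBall_zero_iff] at hx
    rw [Polynomial.deriv]
    have hlt : T.derivative.natDegree < d := by
      have := natDegree_derivative_lt (p := T) (by omega)
      omega
    rw [eval_eq_sum_range' hlt]
    refine (norm_sum_le _ _).trans ?_
    have : ∀ i ∈ Finset.range d, ‖T.derivative.coeff i * x ^ i‖ ≤ d * M * r ^ d := by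
      intro i hi
      have hi' := Finset.mem_range.1 hi
      rw [norm_mul, norm_pow, coeff_derivative, norm_mul]
      have h2 : ‖(i : ℂ) + 1‖ ≤ d := by
        have : (i : ℂ) + 1 = ((i + 1 : ℕ) : ℂ) := by push_cast; ring
        rw [this, Complex.norm_natCast]
        exact_mod_cast hi'
      have h3 : ‖x‖ ^ i ≤ r ^ d :=
        (pow_le_pow_left₀ (norm_nonneg _) hx i).trans (pow_le_pow_right₀ hr hi'.le)
      calc ‖T.coeff (i + 1)‖ * ‖(i : ℂ) + 1‖ * ‖x‖ ^ i ≤ M * d * r ^ d := by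
            gcongr
            exact h1 _
        _ = d * M * r ^ d := by ring
    refine (Finset.sum_le_sum this).trans ?_
    rw [Finset.sum_const, Finset.card_range, nsmul_eq_mul]
    exact le_of_eq (by ring)
  exact (convex_closedBall (0 : ℂ) r).norm_image_sub_le_of_norm_deriv_le
    (f := fun y => T.eval y) (fun x _ => T.differentiable x) hder
    (mem_closedBall_zero_iff.2 hz) (mem_closedBall_zero_iff.2 hw)

end Pool.Agent.R241.NR
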