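import Pool.Agent.R241.NQ2

/-!
# Quantitative absorption: the final bounds
-/

set_option autoImplicit false

open Filter Topology Set Metric Polynomial MeasureTheory
open scoped ENNReal

namespace Pool.Agent.R241.NR

theorem final_estimate {B d p : ℝ} {m N : ℕ} (hB : 20 ≤ B) (_hd0 : 0 ≤ d) (hd : d ≤ B) (hm0 : 0 < m)
    (hm : (m : ℝ) ≤ B) (hp : 1 / B ≤ p) (hp1 : p ≤ 1) (hN : B ^ 4 ≤ N) :
    d * N * (1 - p) ^ (N / m) ≤ Real.exp (-(N / B ^ 3)) := by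
  have hB0 : 0 < B := by linarith
  set k := N / m with hk
  have h1 : (1 - p) ^ k ≤ Real.exp (-(p * k)) := by
    have : -(p * k) = k * (-p) := by ring
    rw [this, Real.exp_nat_mul]
    have h2 : 1 - p ≤ Real.exp (-p) := by have := Real.add_one_le_exp (-p); linarith
    have h3 : 0 ≤ 1 - p := by linarith
    gcongr
  have h2 : (N : ℝ) / B ≤ k + 1 := by
    have h3 : N < m * (k + 1) := by
      have := Nat.div_add_mod N m
      have := Nat.mod_lt N hm0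
      rw [hk, Nat.mul_succ]
      omega
    have h4 : (N : ℝ) ≤ m * (k + 1) := by exact_mod_cast h3.le
    rw [div_le_iff₀ hB0]
    have h5 : (0 : ℝ) ≤ (k : ℝ) + 1 := by positivity
    nlinarith
  have h3 : N / B ^ 2 - 1 ≤ p * k := by
    have h4 : 1 / B * k ≤ p * k := by gcongr
    have h5 : (N : ℝ) / B ^ 2 ≤ 1 / B * (k + 1) := by
      have : (N : ℝ) / B ^ 2 = 1 / B * (N / B) := by field_simp
      rw [this]
      gcongr
    have h6 : 1 / B ≤ 1 := by rw [div_le_one hB0]; linarith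
    nlinarith
  set x : ℝ := N / B ^ 2 with hx
  have hNx : (N : ℝ) = x * B ^ 2 := by rw [hx]; field_simp
  have hxB : B ^ 2 ≤ x := by
    rw [hx, le_div_iff₀ (by positivity)]
    calc B ^ 2 * B ^ 2 = B ^ 4 := by ring
      _ ≤ (N : ℝ) := hN
  have hx400 : 400 ≤ x := by nlinarith
  have hdx : d ≤ x := by nlinarith
  have h4 : (1 - p) ^ k ≤ Real.exp (1 - x) := by
    refine h1.trans (Real.exp_le_exp.2 ?_)
    linarith
  have h5 : d * N ≤ x ^ 3 := by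
    rw [hNx]
    have h6 : x * B ^ 2 ≤ x * x := by gcongr
    calc d * (x * B ^ 2) ≤ x * (x * x) := by gcongr
      _ = x ^ 3 := by ring
  have h6 : x ^ 3 * Real.exp (1 - x) ≤ Real.exp (-(x / 20)) := by
    have h7 : (19 / 20 * x) ^ 4 / (Nat.factorial 4 : ℝ) ≤ Real.exp (19 / 20 * x) :=
      Real.pow_div_factorial_le_exp _ (by positivity) 4
    have h8 : (Nat.factorial 4 : ℝ) = 24 := by norm_num [Nat.factorial]
    rw [h8] at h7
    have h9 : x ^ 3 * Real.exp 1 ≤ Real.exp (19 / 20 * x) := by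
      refine le_trans ?_ h7
      have h10 : Real.exp 1 ≤ 3 := by have := Real.exp_one_lt_d9; linarith
      have h11 : (0 : ℝ) ≤ x ^ 3 := by positivity
      have h12 : (19 / 20 * x) ^ 4 / 24 = (19 / 20) ^ 4 / 24 * x * x ^ 3 := by ring
      rw [h12]
      have h13 : 3 ≤ (19 / 20 : ℝ) ^ 4 / 24 * x := by nlinarith
      calc x ^ 3 * Real.exp 1 ≤ x ^ 3 * 3 := by gcongr
        _ = 3 * x ^ 3 := by ring
        _ ≤ _ := by gcongr
    have h10 : Real.exp (1 - x) = Real.exp 1 * Real.exp (-x) := by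
      rw [← Real.exp_add]; congr 1
    have h11 : Real.exp (-(x / 20)) = Real.exp (19 / 20 * x) * Real.exp (-x) := by
      rw [← Real.exp_add]; congr 1; ring
    rw [h10, h11, ← mul_assoc]
    gcongr
  have h7 : Real.exp (-(x / 20)) ≤ Real.exp (-(N / B ^ 3)) := by
    apply Real.exp_le_exp.2
    have h8 : (N : ℝ) / B ^ 3 = x / B := by rw [hx]; field_simp
    rw [h8]
    have h9 : x / B ≤ x / 20 := by gcongr
    linarith
  calc d * N * (1 - p) ^ k ≤ x ^ 3 * Real.exp (1 - x) := by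
        have : 0 ≤ (1 - p) ^ k := pow_nonneg (by linarith) k
        gcongr
    _ ≤ _ := h6.trans h7

/-- The main quantitative theorem. -/
theorem main_q (d : ℕ) (hd : 2 ≤ d) (M : ℝ) (hM : 0 < M) : ∃ C : ℝ, 0 < C ∧
    ∀ T : ℂ[X], T.natDegree = d → (∀ i : ℕ, ‖T.coeff i‖ ≤ M) → 1 / M ≤ ‖T.leadingCoeff‖ →
      ∀ ε : ℝ, 0 < ε → ε ≤ 1 → ∃ δ : ℝ, ε / 2 ≤ δ ∧ δ ≤ ε ∧
        ∀ N : ℕ, Real.exp (C / ε ^ 7) ≤ N →
          Measure.pi (fun _ : Fin N => unif δ) {a | ¬ Hyperbolic (comp T N a)} ≤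
            ENNReal.ofReal (Real.exp (-(N * Real.exp (-(C / ε ^ 7))))) := by
  obtain ⟨ρ, hρ⟩ : ∃ ρ : ℝ, ρ = M * (3 + d * M) + 1 := ⟨_, rfl⟩
  obtain ⟨L, hL⟩ : ∃ L : ℝ, L = d ^ 2 * M * (ρ + 1) ^ d := ⟨_, rfl⟩
  have hd' : (2 : ℝ) ≤ d := by exact_mod_cast hd
  have hρ0 : 1 ≤ ρ := by rw [hρ]; have : 0 ≤ M * (3 + d * M) := by positivity
                         linarith
  have hL0 : 0 ≤ L := by rw [hL]; positivity
  obtain ⟨C₁, hC₁⟩ : ∃ C₁ : ℝ, C₁ = 17424 * ρ ^ 4 * (L + 1) ^ 2 := ⟨_, rfl⟩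
  obtain ⟨C₂, hC₂⟩ : ∃ C₂ : ℝ, C₂ = 70227 * ρ ^ 6 := ⟨_, rfl⟩
  have hC₁0 : 0 < C₁ := by rw [hC₁]; positivity
  have hC₂0 : 0 < C₂ := by rw [hC₂]; positivity
  obtain ⟨C₃, hC₃⟩ : ∃ C₃ : ℝ, C₃ = C₂ * (C₁ + 4) + 5 * d + 20 := ⟨_, rfl⟩
  have hC₃0 : 0 < C₃ := by rw [hC₃]; positivity
  refine ⟨4 * C₃, by positivity, fun T hT h1 h2 ε hε hε1 => ?_⟩
  obtain ⟨hM1, hR⟩ := explicit_radius hd hM hT h1 h2
  have hρ2 : 2 ≤ ρ := by
    have e0 : 0 ≤ d * M := by positivity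
    have : 1 ≤ M * (3 + d * M) := by nlinarith
    linarith
  have hgc : Continuous (fun w : ℂ => T.eval w) := T.continuous
  -- powers of `ε`
  have hεi : 1 ≤ 1 / ε := by rw [le_div_iff₀ hε]; linarith
  have hε2 : 1 ≤ 1 / ε ^ 2 := by rw [le_div_iff₀ (by positivity)]; nlinarith
  have hε3 : 1 ≤ 1 / ε ^ 3 := by
    rw [le_div_iff₀ (by positivity), one_mul]; exact pow_le_one₀ hε.le hε1
  have hε6 : 1 ≤ 1 / ε ^ 6 := by
    rw [le_div_iff₀ (by positivity), one_mul]; exact pow_le_one₀ hε.le hε1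
  have hε7 : 1 ≤ 1 / ε ^ 7 := by
    rw [le_div_iff₀ (by positivity), one_mul]; exact pow_le_one₀ hε.le hε1
  have hε67 : 1 / ε ^ 6 ≤ 1 / ε ^ 7 := by
    have : 1 / ε ^ 7 = 1 / ε ^ 6 * (1 / ε) := by field_simp
    rw [this]
    exact le_mul_of_one_le_right (by positivity) hεi
  -- the number of levels
  obtain ⟨J, hJ⟩ : ∃ J : ℕ, J = ⌈32 * ρ ^ 2 / ε ^ 2⌉₊ := ⟨_, rfl⟩
  have hJ0 : 0 < J := by rw [hJ]; exact Nat.ceil_pos.2 (by positivity)
  have hJr : (1 : ℝ) ≤ J := by exact_mod_cast hJ0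
  have hJ1 : 32 * ρ ^ 2 ≤ J * ε ^ 2 := by
    have := Nat.le_ceil (32 * ρ ^ 2 / ε ^ 2)
    rwa [div_le_iff₀ (by positivity), ← hJ] at this
  have hJ2 : (J : ℝ) ≤ 33 * ρ ^ 2 / ε ^ 2 := by
    have h3 := (Nat.ceil_lt_add_one (show 0 ≤ 32 * ρ ^ 2 / ε ^ 2 by positivity)).le
    rw [← hJ] at h3
    have h4 : 1 ≤ ρ ^ 2 * (1 / ε ^ 2) := by nlinarith
    have h5 : 33 * ρ ^ 2 / ε ^ 2 = 32 * ρ ^ 2 / ε ^ 2 + ρ ^ 2 * (1 / ε ^ 2) := by ring
    rw [h5]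
    exact h3.trans (by linarith)
  obtain ⟨m, hm⟩ : ∃ m : ℕ, m = ⌊(8 * ρ * J / ε + 1) ^ 2⌋₊ + 1 := ⟨_, rfl⟩
  have hm1 : (8 * ρ * J / ε + 1) ^ 2 < m := by
    rw [hm]; push_cast; exact Nat.lt_floor_add_one _
  have hm2 : (m : ℝ) + 1 ≤ C₂ * (1 / ε ^ 6) := by
    have h3 : (⌊(8 * ρ * J / ε + 1) ^ 2⌋₊ : ℝ) ≤ (8 * ρ * J / ε + 1) ^ 2 :=
      Nat.floor_le (by positivity)
    have h4 : 8 * ρ * J / ε ≤ 264 * (ρ ^ 3 * (1 / ε ^ 3)) := by
      calc 8 * ρ * J / ε ≤ 8 * ρ * (33 * ρ ^ 2 / ε ^ 2) / ε := by gcongr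
        _ = 264 * (ρ ^ 3 * (1 / ε ^ 3)) := by field_simp; ring
    have h5 : 1 ≤ ρ ^ 3 * (1 / ε ^ 3) := by
      have : 1 ≤ ρ ^ 3 := one_le_pow₀ hρ0
      nlinarith
    have h6 : (8 * ρ * J / ε + 1) ^ 2 ≤ (265 * (ρ ^ 3 * (1 / ε ^ 3))) ^ 2 := by
      gcongr
      linarith
    have h7 : (265 * (ρ ^ 3 * (1 / ε ^ 3))) ^ 2 = 70225 * (ρ ^ 6 * (1 / ε ^ 6)) := by
      field_simp; norm_num
    have h8 : 1 ≤ ρ ^ 6 * (1 / ε ^ 6) := by
      have : 1 ≤ ρ ^ 6 := one_le_pow₀ hρ0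
      nlinarith
    have h9 : (m : ℝ) = ⌊(8 * ρ * J / ε + 1) ^ 2⌋₊ + 1 := by rw [hm]; push_cast; ring
    have h10 : C₂ * (1 / ε ^ 6) = 70227 * (ρ ^ 6 * (1 / ε ^ 6)) := by rw [hC₂]; ring
    rw [h9, h10]
    linarith
  obtain ⟨δ, hδ1, hδ2, hphi⟩ := uniform_q (g := fun w => T.eval w) (L := L) hgc hε hε1 hρ2
    (by
      have e : ρ - 1 = M * (3 + d * M) := by rw [hρ]; ring
      rw [e]; exact hR)
    (fun z w hz hw => by
      have hw' : ‖w‖ ≤ ρ + 1 := by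
        have := norm_add_le (w - z) z
        rw [sub_add_cancel] at this
        linarith
      rw [hL]
      exact lipschitz (r := ρ + 1) hM (by linarith) hT (by omega) h1 (by linarith) hw')
    hL0 hJ0 hJ1 hm1
  have hδ0 : 0 < δ := by linarith
  refine ⟨δ, hδ1, hδ2, fun N hN => ?_⟩
  obtain ⟨Q, hQ⟩ : ∃ Q : ℝ, Q = 16 * J ^ 2 * (L + 1) ^ 2 := ⟨_, rfl⟩
  rw [← hQ] at hphi
  have hQ1 : 1 ≤ Q := by
    have h1 : (1 : ℝ) ≤ (J : ℝ) ^ 2 := one_le_pow₀ hJr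
    have h2 : (1 : ℝ) ≤ (L + 1) ^ 2 := one_le_pow₀ (by linarith)
    have h3 : 1 ≤ (J : ℝ) ^ 2 * (L + 1) ^ 2 := one_le_mul_of_one_le_of_one_le h1 h2
    have h4 : Q = 16 * ((J : ℝ) ^ 2 * (L + 1) ^ 2) := by rw [hQ]; ring
    rw [h4]
    linarith
  have hQ2 : Q ≤ C₁ * (1 / ε) ^ 4 := by
    calc Q ≤ 16 * (33 * ρ ^ 2 / ε ^ 2) ^ 2 * (L + 1) ^ 2 := by rw [hQ]; gcongr
      _ = C₁ * (1 / ε) ^ 4 := by rw [hC₁]; field_simp; norm_num
  have hQ3 : Q ≤ Real.exp ((C₁ + 4) / ε) := by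
    have h3 : C₁ ≤ Real.exp (C₁ / ε) := by
      have h4 : C₁ ≤ C₁ / ε := by rw [le_div_iff₀ hε]; nlinarith
      linarith [Real.add_one_le_exp (C₁ / ε)]
    have h4 : (1 / ε) ^ 4 ≤ Real.exp (4 / ε) := by
      have h5 : 1 / ε ≤ Real.exp (1 / ε) := by linarith [Real.add_one_le_exp (1 / ε)]
      have h6 : Real.exp (4 / ε) = Real.exp (1 / ε) ^ 4 := by
        rw [← Real.exp_nat_mul]; congr 1; push_cast; ring
      rw [h6]
      gcongr
    calc Q ≤ C₁ * (1 / ε) ^ 4 := hQ2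
      _ ≤ Real.exp (C₁ / ε) * Real.exp (4 / ε) := by gcongr
      _ = _ := by rw [← Real.exp_add]; congr 1; ring
  obtain ⟨B, hB⟩ : ∃ B : ℝ, B = Real.exp (C₃ / ε ^ 7) := ⟨_, rfl⟩
  have hB0 : 0 < B := by rw [hB]; exact Real.exp_pos _
  have hBC : C₃ ≤ C₃ / ε ^ 7 := by
    rw [le_div_iff₀ (by positivity)]
    exact mul_le_of_le_one_right hC₃0.le (pow_le_one₀ hε.le hε1)
  have hBC' : C₃ + 1 ≤ B := by rw [hB]; linarith [Real.add_one_le_exp (C₃ / ε ^ 7)]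
  have hC₁₂ : 0 ≤ C₂ * (C₁ + 4) := by positivity
  have hB20 : 20 ≤ B := by
    have : 20 ≤ C₃ := by rw [hC₃]; linarith
    linarith
  have hdB : (d : ℝ) ≤ B := by
    have : (d : ℝ) ≤ C₃ := by rw [hC₃]; linarith
    linarith
  have hmB : ((m + 1 : ℕ) : ℝ) ≤ B := by
    push_cast
    have h3 : C₂ * (1 / ε ^ 6) ≤ C₃ / ε ^ 7 := by
      have h4 : C₂ ≤ C₃ := by
        have : C₂ ≤ C₂ * (C₁ + 4) := by nlinarith
        rw [hC₃]; linarith
      calc C₂ * (1 / ε ^ 6) ≤ C₃ * (1 / ε ^ 7) := by gcongr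
        _ = _ := by ring
    rw [hB]
    linarith [Real.add_one_le_exp (C₃ / ε ^ 7)]
  have hpB : 1 / B ≤ (1 / Q) ^ m := by
    have h3 : Q ^ m ≤ B := by
      calc Q ^ m ≤ Real.exp ((C₁ + 4) / ε) ^ m := by gcongr
        _ = Real.exp (m * ((C₁ + 4) / ε)) := by rw [Real.exp_nat_mul]
        _ ≤ B := by
          rw [hB]
          apply Real.exp_le_exp.2
          have h4 : (m : ℝ) ≤ C₂ * (1 / ε ^ 6) := by linarith
          calc (m : ℝ) * ((C₁ + 4) / ε) ≤ (C₂ * (1 / ε ^ 6)) * ((C₁ + 4) / ε) := by gcongr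
            _ = C₂ * (C₁ + 4) / ε ^ 7 := by field_simp
            _ ≤ C₃ / ε ^ 7 := by
              gcongr
              rw [hC₃]; linarith
    rw [one_div_pow]
    gcongr
  have hQp1 : (1 / Q) ^ m ≤ 1 := pow_le_one₀ (by positivity) (by
    rw [div_le_one (by linarith)]; exact hQ1)
  have hB4 : B ^ 4 ≤ N := by
    refine le_trans (le_of_eq ?_) hN
    rw [hB, ← Real.exp_nat_mul]; congr 1; push_cast; ring
  have hN0 : 0 < N := by
    have : (0 : ℝ) < N := lt_of_lt_of_le (by positivity) hB4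
    exact_mod_cast this
  have hfin := final_estimate (p := (1 / Q) ^ m) (m := m + 1) hB20 (by positivity) hdB
    (by omega) hmB hpB hQp1 hB4
  have hT' : T.derivative ≠ 0 := by
    intro h
    have := derivative_eq_zero.1 h
    omega
  have hR' : ∀ z : ℂ, ρ < ‖z‖ → ∀ a : ℂ, ‖a‖ ≤ δ → 2 * ‖z‖ ≤ ‖T.eval z + a‖ :=
    fun z hz a ha => hR z (by linarith) a (by linarith)
  have hp0 : 0 < (1 / Q) ^ m := lt_of_lt_of_le (by positivity) hpB
  have hc1 : ENNReal.ofReal (1 - (1 / Q) ^ m) < 1 := by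
    rw [← ENNReal.ofReal_one]
    exact (ENNReal.ofReal_lt_ofReal_iff one_pos).2 (by linarith)
  have h1' : ∀ z, phi (fun w => T.eval w) δ ρ N z ≤
      ENNReal.ofReal ((1 - (1 / Q) ^ m) ^ (N / (m + 1))) := by
    intro z
    refine (phi_antitone hgc hδ0 hR' (by linarith) z (Nat.mul_div_le N (m + 1))).trans ?_
    refine (phi_mul_le hgc hδ0 hR' (by linarith) hc1 hphi _ z).trans ?_
    rw [ENNReal.ofReal_pow (by linarith)]
  refine (union_bound hδ0 (by linarith) hR' hT' hN0 h1').trans ?_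
  rw [← ENNReal.ofReal_natCast, ← ENNReal.ofReal_mul (by positivity)]
  apply ENNReal.ofReal_le_ofReal
  have hdeg : (T.derivative.natDegree : ℝ) ≤ d := by
    have := natDegree_derivative_lt (p := T) (by omega)
    have h3 : T.derivative.natDegree ≤ d := by omega
    exact_mod_cast h3
  push_cast
  calc (T.derivative.natDegree : ℝ) * N * (1 - (1 / Q) ^ m) ^ (N / (m + 1))
      ≤ d * N * (1 - (1 / Q) ^ m) ^ (N / (m + 1)) := by
        have : 0 ≤ (1 - (1 / Q) ^ m) ^ (N / (m + 1)) := pow_nonneg (by linarith) _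
        gcongr
    _ ≤ Real.exp (-(N / B ^ 3)) := hfin
    _ ≤ _ := by
        apply Real.exp_le_exp.2
        have h3 : Real.exp (-(4 * C₃ / ε ^ 7)) = 1 / B ^ 4 := by
          rw [Real.exp_neg, ← one_div, hB, ← Real.exp_nat_mul]
          congr 2; push_cast; ring
        rw [h3]
        have h4 : (N : ℝ) * (1 / B ^ 4) ≤ N / B ^ 3 := by
          rw [mul_one_div]
          gcongr
          · linarith
          · norm_num
        linarith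

end Pool.Agent.R241.NR
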