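import Mathlib

/-!
# Periodic perturbations of a polynomial: definitions
-/

set_option autoImplicit false

open Filter Topology Metric Polynomial MeasureTheory

namespace Pool.Agent.R241.NR

/-- The orbit of `z` under `F` escapes to infinity. -/
def Escapes (F : ℂ → ℂ) (z : ℂ) : Prop := Tendsto (fun k : ℕ => ‖F^[k] z‖) atTop atTop

/-- The orbit of `z` under `F` is attracted by a sink (attracting periodic point) of `F`. -/
def Attracted (F : ℂ → ℂ) (z : ℂ) : Prop :=
  ∃ n : ℕ, 0 < n ∧ ∃ x : ℂ, F^[n] x = x ∧ ‖deriv F^[n] x‖ < 1 ∧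
    Tendsto (fun k : ℕ => F^[n * k] z) atTop (𝓝 x)

/-- The polynomial `P` is hyperbolic: every critical point escapes or is attracted by a sink. -/
def Hyperbolic (P : ℂ[X]) : Prop :=
  ∀ c : ℂ, (derivative P).eval c = 0 →
    Escapes (fun w => P.eval w) c ∨ Attracted (fun w => P.eval w) c

/-- The composition `(T + a (N - 1)) ∘ ⋯ ∘ (T + a 1) ∘ (T + a 0)`. -/
noncomputable def comp (T : ℂ[X]) : (N : ℕ) → (Fin N → ℂ) → ℂ[X]
  | 0, _ => X
  | N + 1, a => (comp T N (Fin.tail a)).comp (T + C (a 0))

/-- The uniform probability distribution on the disc of radius `ε` (normalized Lebesgue measure). -/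
noncomputable def unif (ε : ℝ) : Measure ℂ := ProbabilityTheory.cond volume (ball (0 : ℂ) ε)

end Pool.Agent.R241.NR
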