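import Mathlib
import Pool.Agent.R241.Bif1
import Pool.Agent.R241.NRDef

/-!
# Periodic perturbations of a polynomial: the deterministic part
-/

set_option autoImplicit false

open Filter Topology Set Metric Polynomial

namespace Pool.Agent.R241.NR

/-- In a robustly invariant compact set all orbits are attracted by attracting cycles. -/
theorem attracted {F : ℂ → ℂ} (hF : Differentiable ℂ F) {K : Set ℂ} (hK : IsCompact K) {δ : ℝ}
    (hδ : 0 < δ) (h : ∀ z ∈ K, closedBall (F z) δ ⊆ K) {x : ℂ} (hx : x ∈ K) :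
    ∃ n : ℕ, 0 < n ∧ ∃ p : ℂ, F^[n] p = p ∧ ‖deriv F^[n] p‖ < 1 ∧
      Tendsto (fun k : ℕ => F^[n * k] x) atTop (𝓝 p) := by
  obtain ⟨C, θ, hC, hθ0, hθ1, hder⟩ := Bif.contract hF hK hδ h
  have hit : ∀ n, Differentiable ℂ F^[n] := fun n => by
    induction n with
    | zero => exact differentiable_id
    | succ n ih => rw [Function.iterate_succ']; exact hF.comp ih
  have hmaps : ∀ z ∈ K, F z ∈ K := fun z hz => h z hz (mem_closedBall_self hδ.le)
  have hmapsn : ∀ n, ∀ z ∈ K, F^[n] z ∈ K := fun n => by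
    induction n with
    | zero => intro z hz; exact hz
    | succ n ih => intro z hz; rw [Function.iterate_succ_apply']; exact hmaps _ (ih z hz)
  -- two close points of the orbit
  obtain ⟨i, k, hi, hk, hik⟩ : ∃ i k : ℕ, 1 ≤ i ∧ 0 < k ∧ dist (F^[i] x) (F^[i + k] x) < δ := by
    obtain ⟨y, -, φ, hφ, hlim⟩ := hK.tendsto_subseq fun n => hmapsn n x hx
    have hcau := hlim.cauchySeq
    obtain ⟨N, hN⟩ := Metric.cauchySeq_iff.1 hcau δ hδ
    have h1 := hN (max N 1) (le_max_left _ _) (max N 1 + 1) (by omega)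
    have h2 : φ (max N 1) < φ (max N 1 + 1) := hφ (by omega)
    have h3 : 1 ≤ φ (max N 1) := (le_max_right N 1).trans (hφ.id_le _)
    refine ⟨φ (max N 1), φ (max N 1 + 1) - φ (max N 1), h3, by omega, ?_⟩
    rw [show φ (max N 1) + (φ (max N 1 + 1) - φ (max N 1)) = φ (max N 1 + 1) by omega]
    exact h1
  set y := F^[i] x with hy
  have hyK : closedBall y δ ⊆ K := by
    obtain ⟨j, rfl⟩ : ∃ j, i = j + 1 := ⟨i - 1, by omega⟩
    rw [hy, Function.iterate_succ_apply']
    exact h _ (hmapsn j x hx)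
  have hyK' : y ∈ K := hyK (mem_closedBall_self hδ.le)
  have hky : F^[k] y ∈ closedBall y δ := by
    rw [mem_closedBall, dist_comm, hy, ← Function.iterate_add_apply, Nat.add_comm k i]
    exact hik.le
  have hstep : ∀ n : ℕ, dist (F^[k * n] y) (F^[k * (n + 1)] y) ≤ (C * δ) * (θ ^ k) ^ n := by
    intro n
    rw [Nat.mul_succ, Function.iterate_add_apply, dist_comm, dist_eq_norm]
    have h1 := (convex_closedBall y δ).norm_image_sub_le_of_norm_deriv_le
      (f := F^[k * n]) (C := C * θ ^ (k * n))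
      (fun u _ => (hit (k * n)) u) (fun u hu => hder u (hyK hu) (k * n))
      (mem_closedBall_self hδ.le) hky
    refine h1.trans ?_
    have h2 : ‖F^[k] y - y‖ ≤ δ := by rw [← dist_eq_norm]; exact hky
    calc C * θ ^ (k * n) * ‖F^[k] y - y‖ ≤ C * θ ^ (k * n) * δ := by gcongr
      _ = _ := by rw [pow_mul]; ring
  have hθk : θ ^ k < 1 := pow_lt_one₀ hθ0.le hθ1 (by omega)
  obtain ⟨q, hq⟩ := cauchySeq_tendsto_of_complete (cauchySeq_of_le_geometric _ _ hθk hstep)
  have hqK : q ∈ K := hK.isClosed.mem_of_tendsto hq (Eventually.of_forall fun n => hmapsn _ _ hyK')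
  have hqfix : F^[k] q = q := by
    have h1 : Tendsto (fun n : ℕ => F^[k * (n + 1)] y) atTop (𝓝 q) :=
      hq.comp (tendsto_add_atTop_nat 1)
    have h2 : Tendsto (fun n : ℕ => F^[k] (F^[k * n] y)) atTop (𝓝 (F^[k] q)) :=
      ((hit k).continuous.tendsto q).comp hq
    have h3 : (fun n : ℕ => F^[k] (F^[k * n] y)) = fun n : ℕ => F^[k * (n + 1)] y := by
      funext n
      rw [← Function.iterate_add_apply, Nat.mul_succ, Nat.add_comm]
    rw [h3] at h2
    exact tendsto_nhds_unique h2 h1
  have hmul : ∀ p ∈ K, F^[k] p = p → ‖deriv F^[k] p‖ < 1 := by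
    intro p hp hfix
    by_contra hcon
    push Not at hcon
    have hd : HasDerivAt F^[k] (deriv F^[k] p) p := (hit k p).hasDerivAt
    have h1 : ∀ n : ℕ, 1 ≤ C * (θ ^ k) ^ n := by
      intro n
      have h2 := hder p hp (k * n)
      rw [Function.iterate_mul, (HasDerivAt.iterate p hd hfix n).deriv, norm_pow, pow_mul] at h2
      exact (one_le_pow₀ hcon).trans h2
    have h3 : Tendsto (fun n : ℕ => C * (θ ^ k) ^ n) atTop (𝓝 (C * 0)) :=
      (tendsto_pow_atTop_nhds_zero_of_lt_one (by positivity) hθk).const_mul C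
    rw [mul_zero] at h3
    obtain ⟨n, hn⟩ := (h3.eventually (gt_mem_nhds one_pos)).exists
    exact absurd (h1 n) (not_le.2 hn)
  -- shift back to `x`
  set r := k * i - i with hr
  have hri : r + i = k * i := by
    have : i ≤ k * i := Nat.le_mul_of_pos_left i hk
    omega
  refine ⟨k, hk, F^[r] q, ?_, ?_, ?_⟩
  · rw [← Function.iterate_add_apply, Nat.add_comm, Function.iterate_add_apply, hqfix]
  · refine hmul _ (hmapsn r q hqK) ?_
    rw [← Function.iterate_add_apply, Nat.add_comm, Function.iterate_add_apply, hqfix]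
  · have h1 : Tendsto (fun n : ℕ => F^[r] (F^[k * n] y)) atTop (𝓝 (F^[r] q)) :=
      ((hit r).continuous.tendsto q).comp hq
    have h2 : (fun n : ℕ => F^[r] (F^[k * n] y)) = fun n : ℕ => (fun m => F^[k * m] x) (n + i) := by
      funext n
      simp only [hy]
      rw [← Function.iterate_add_apply, ← Function.iterate_add_apply]
      congr 1
      rw [Nat.mul_add, ← hri]
      ring
    rw [h2] at h1
    exact (tendsto_add_atTop_iff_nat (f := fun m => F^[k * m] x) i).1 h1

/-- Orbits with additive noise. -/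
def S (g : ℂ → ℂ) (a : ℕ → ℂ) : ℕ → ℂ → ℂ
  | 0, z => z
  | n + 1, z => g (S g a n z) + a n

theorem S_head (g : ℂ → ℂ) (a : ℕ → ℂ) (n : ℕ) (z : ℂ) :
    S g a (n + 1) z = S g (fun i => a (i + 1)) n (g z + a 0) := by
  induction n with
  | zero => rfl
  | succ n ih => rw [S, ih]; rfl

theorem S_add (g : ℂ → ℂ) (a : ℕ → ℂ) (k n : ℕ) (z : ℂ) :
    S g a (k + n) z = S g (fun i => a (k + i)) n (S g a k z) := by
  induction n with
  | zero => rfl
  | succ n ih => rw [Nat.add_succ, S, ih]; rfl

theorem S_congr {g : ℂ → ℂ} {a b : ℕ → ℂ} {n : ℕ} (h : ∀ i < n, a i = b i) (z : ℂ) :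
    S g a n z = S g b n z := by
  induction n with
  | zero => rfl
  | succ n ih => rw [S, S, ih fun i hi => h i (by omega), h n (by omega)]

/-- Orbits with finitely many noise terms. -/
def orb (g : ℂ → ℂ) : (n : ℕ) → (Fin n → ℂ) → ℂ → ℂ
  | 0, _, z => z
  | n + 1, a, z => orb g n (Fin.tail a) (g z + a 0)

/-- The periodic extension. -/
def per {N : ℕ} (hN : 0 < N) (a : Fin N → ℂ) (i : ℕ) : ℂ := a ⟨i % N, Nat.mod_lt i hN⟩

theorem orb_eq_S (g : ℂ → ℂ) (N : ℕ) (a : Fin N → ℂ) (b : ℕ → ℂ)
    (h : ∀ i : Fin N, b i = a i) (z : ℂ) : orb g N a z = S g b N z := by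
  induction N generalizing b z with
  | zero => rfl
  | succ N ih =>
    have h2 : b 0 = a 0 := h 0
    rw [orb, S_head, h2]
    exact ih (Fin.tail a) _ (fun i => by
      have := h i.succ
      simp only [Fin.val_succ] at this
      rw [this]; rfl) _

theorem eval_comp' (T : ℂ[X]) (N : ℕ) (a : Fin N → ℂ) (z : ℂ) :
    (comp T N a).eval z = orb (fun w => T.eval w) N a z := by
  induction N generalizing z with
  | zero => simp [comp, orb]
  | succ N ih => rw [comp, orb, Polynomial.eval_comp, ih]; simp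

theorem crit_comp (T : ℂ[X]) (N : ℕ) (a : Fin N → ℂ) (b : ℕ → ℂ) (h : ∀ i : Fin N, b i = a i)
    (z : ℂ) (hz : (derivative (comp T N a)).eval z = 0) :
    ∃ k < N, (derivative T).eval (S (fun w => T.eval w) b k z) = 0 := by
  induction N generalizing b z with
  | zero => simp [comp] at hz
  | succ N ih =>
    rw [comp, derivative_comp, eval_mul, mul_eq_zero] at hz
    rcases hz with hz | hz
    · refine ⟨0, by omega, ?_⟩
      simpa [S] using hz
    · rw [Polynomial.eval_comp] at hz
      have h0 : (T + C (a 0)).eval z = T.eval z + b 0 := by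
        have h2 : b 0 = a 0 := h 0
        rw [eval_add, eval_C, h2]
      rw [h0] at hz
      obtain ⟨k, hk, h1⟩ := ih (Fin.tail a) (fun i => b (i + 1)) (fun i => by
        have := h i.succ
        simp only [Fin.val_succ] at this
        rw [this]; rfl) _ hz
      exact ⟨k + 1, by omega, by rw [S_head]; exact h1⟩

theorem escapes_of_iterate {F : ℂ → ℂ} {z : ℂ} {m : ℕ} (h : Escapes F (F^[m] z)) : Escapes F z := by
  unfold Escapes at h ⊢
  have : (fun k : ℕ => ‖F^[k] (F^[m] z)‖) = fun k : ℕ => (fun j => ‖F^[j] z‖) (k + m) := by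
    funext k; simp only; rw [← Function.iterate_add_apply]
  rw [this] at h
  exact (tendsto_add_atTop_iff_nat (f := fun j => ‖F^[j] z‖) m).1 h

theorem attracted_of_iterate {F : ℂ → ℂ} (hF : Continuous F) {z : ℂ} {m : ℕ} {K : Set ℂ} 
    (hFd : Differentiable ℂ F) (hK : IsCompact K) {δ : ℝ}
    (hδ : 0 < δ) (h : ∀ z ∈ K, closedBall (F z) δ ⊆ K) (hz : F^[m] z ∈ K) : Attracted F z := by
  -- choose the period of the orbit of the `m`-th iterate, and shift back
  obtain ⟨n, hn, p, hp1, hp2, hp3⟩ := attracted hFd hK hδ h hz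
  have hmaps : ∀ z ∈ K, F z ∈ K := fun z hz => h z hz (mem_closedBall_self hδ.le)
  have hmapsn : ∀ n, ∀ z ∈ K, F^[n] z ∈ K := fun n => by
    induction n with
    | zero => intro z hz; exact hz
    | succ n ih => intro z hz; rw [Function.iterate_succ_apply']; exact hmaps _ (ih z hz)
  have hit : ∀ n, Continuous F^[n] := fun n => hF.iterate n
  obtain ⟨C, θ, hC, hθ0, hθ1, hder⟩ := Bif.contract hFd hK hδ h
  have hitd : ∀ n, Differentiable ℂ F^[n] := fun n => by
    induction n with
    | zero => exact differentiable_id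
    | succ n ih => rw [Function.iterate_succ']; exact hFd.comp ih
  have hpK : p ∈ K := hK.isClosed.mem_of_tendsto hp3 (Eventually.of_forall fun k => hmapsn _ _ hz)
  set r := n * m - m with hr
  have hrm : r + m = n * m := by
    have : m ≤ n * m := Nat.le_mul_of_pos_left m hn
    omega
  have hfix : F^[n] (F^[r] p) = F^[r] p := by
    rw [← Function.iterate_add_apply, Nat.add_comm, Function.iterate_add_apply, hp1]
  refine ⟨n, hn, F^[r] p, hfix, ?_, ?_⟩
  · by_contra hcon
    push Not at hcon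
    have hd : HasDerivAt F^[n] (deriv F^[n] (F^[r] p)) (F^[r] p) := (hitd n _).hasDerivAt
    have hθk : θ ^ n < 1 := pow_lt_one₀ hθ0.le hθ1 (by omega)
    have h1 : ∀ j : ℕ, 1 ≤ C * (θ ^ n) ^ j := by
      intro j
      have h2 := hder _ (hmapsn r p hpK) (n * j)
      rw [Function.iterate_mul, (HasDerivAt.iterate _ hd hfix j).deriv, norm_pow, pow_mul] at h2
      exact (one_le_pow₀ hcon).trans h2
    have h3 : Tendsto (fun j : ℕ => C * (θ ^ n) ^ j) atTop (𝓝 (C * 0)) :=
      (tendsto_pow_atTop_nhds_zero_of_lt_one (by positivity) hθk).const_mul C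
    rw [mul_zero] at h3
    obtain ⟨j, hj⟩ := (h3.eventually (gt_mem_nhds one_pos)).exists
    exact absurd (h1 j) (not_le.2 hj)
  · have h1 : Tendsto (fun j : ℕ => F^[r] (F^[n * j] (F^[m] z))) atTop (𝓝 (F^[r] p)) :=
      ((hit r).tendsto p).comp hp3
    have h2 : (fun j : ℕ => F^[r] (F^[n * j] (F^[m] z))) =
        fun j : ℕ => (fun l => F^[n * l] z) (j + m) := by
      funext j
      simp only
      rw [← Function.iterate_add_apply, ← Function.iterate_add_apply]
      congr 1
      rw [Nat.mul_add, ← hrm]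
      ring
    rw [h2] at h1
    exact (tendsto_add_atTop_iff_nat (f := fun l => F^[n * l] z) m).1 h1

end Pool.Agent.R241.NR
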