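import Pool.Agent.R241.NR1

/-!
# Periodic perturbations of a polynomial: absorbing sets
-/

set_option autoImplicit false

open Filter Topology Set Metric Polynomial

namespace Pool.Agent.R241.NR

/-- Large points escape. -/
theorem exists_radius (T : ℂ[X]) (hT : 2 ≤ T.natDegree) (ε : ℝ) (hε : 0 < ε) :
    ∃ ρ : ℝ, 0 < ρ ∧ ∀ z : ℂ, ρ < ‖z‖ → ∀ a : ℂ, ‖a‖ ≤ ε → 2 * ‖z‖ ≤ ‖T.eval z + a‖ := by
  have hQ : 0 < T.divX.degree := by
    rw [← natDegree_pos_iff_degree_pos, natDegree_divX_eq_natDegree_tsub_one]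
    omega
  have h1 := (T.divX.tendsto_norm_atTop hQ (l := Bornology.cobounded ℂ) (z := id)
    tendsto_norm_cobounded_atTop).eventually_ge_atTop 3
  have h2 : ∀ᶠ z : ℂ in Bornology.cobounded ℂ, ‖T.coeff 0‖ + ε ≤ ‖z‖ :=
    tendsto_norm_cobounded_atTop.eventually_ge_atTop _
  have h3 := h1.and h2
  rw [← comap_norm_atTop, Filter.eventually_comap] at h3
  obtain ⟨ρ, hρ⟩ := eventually_atTop.1 h3
  refine ⟨max ρ 1, by positivity, fun z hz a ha => ?_⟩
  obtain ⟨h4, h5⟩ := hρ ‖z‖ ((le_max_left _ _).trans hz.le) z rfl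
  simp only [id_eq] at h4
  have h6 : T.eval z = z * T.divX.eval z + T.coeff 0 := by
    have h := congrArg (eval z) T.divX_mul_X_add.symm
    rw [eval_add, eval_mul, eval_X, eval_C] at h
    rw [h, mul_comm]
  have h7 : ‖z * T.divX.eval z‖ - ‖T.coeff 0 + a‖ ≤ ‖T.eval z + a‖ := by
    have := norm_sub_norm_le (z * T.divX.eval z) (-(T.coeff 0 + a))
    rw [norm_neg, sub_neg_eq_add] at this
    rw [h6, add_assoc]
    exact this
  have h8 : ‖T.coeff 0 + a‖ ≤ ‖T.coeff 0‖ + ε := (norm_add_le _ _).trans (by linarith)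
  rw [norm_mul] at h7
  nlinarith [norm_nonneg z]

/-- The set of the points whose noisy orbits all stay in the disc. -/
def KK (g : ℂ → ℂ) (ε ρ : ℝ) : Set ℂ :=
  {z | ∀ (a : ℕ → ℂ), (∀ i, ‖a i‖ < ε) → ∀ n, ‖S g a n z‖ ≤ ρ}

theorem S_continuous {g : ℂ → ℂ} (hg : Continuous g) (a : ℕ → ℂ) (n : ℕ) :
    Continuous (S g a n) := by
  induction n with
  | zero => exact continuous_id
  | succ n ih => exact (hg.comp ih).add continuous_const

theorem isClosed_KK {g : ℂ → ℂ} (hg : Continuous g) (ε ρ : ℝ) : IsClosed (KK g ε ρ) := by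
  have : KK g ε ρ = ⋂ (a : ℕ → ℂ) (_ : ∀ i, ‖a i‖ < ε) (n : ℕ), {z | ‖S g a n z‖ ≤ ρ} := by
    ext z; simp [KK]
  rw [this]
  exact isClosed_iInter fun a => isClosed_iInter fun _ => isClosed_iInter fun n =>
    isClosed_le (S_continuous hg a n).norm continuous_const

theorem KK_norm {g : ℂ → ℂ} {ε ρ : ℝ} (hε : 0 < ε) {z : ℂ} (hz : z ∈ KK g ε ρ) : ‖z‖ ≤ ρ :=
  hz (fun _ => 0) (by simpa using hε) 0

theorem isCompact_KK {g : ℂ → ℂ} (hg : Continuous g) {ε ρ : ℝ} (hε : 0 < ε) :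
    IsCompact (KK g ε ρ) :=
  (isCompact_closedBall (0 : ℂ) ρ).of_isClosed_subset (isClosed_KK hg ε ρ)
    fun _ hz => mem_closedBall_zero_iff.2 (KK_norm hε hz)

theorem KK_ball {g : ℂ → ℂ} {ε ρ : ℝ} {z : ℂ} (hz : z ∈ KK g ε ρ) : ball (g z) ε ⊆ KK g ε ρ := by
  intro u hu a ha n
  rw [mem_ball, dist_eq_norm] at hu
  have h1 := hz (fun i => Nat.casesOn i (u - g z) a) (fun i => by
    cases i with
    | zero => exact hu
    | succ i => exact ha i) (n + 1)
  rw [S_head] at h1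
  simpa using h1

theorem KK_closedBall {g : ℂ → ℂ} (hg : Continuous g) {ε ρ : ℝ} (hε : 0 < ε) {z : ℂ}
    (hz : z ∈ KK g ε ρ) : closedBall (g z) ε ⊆ KK g ε ρ := by
  rw [← closure_ball (g z) hε.ne']
  exact closure_minimal (KK_ball hz) (isClosed_KK hg ε ρ)

/-- The absorbing set. -/
def A (g : ℂ → ℂ) (ε ρ : ℝ) : Set ℂ := KK g ε ρ ∪ {z | ρ < ‖z‖}

/-- Main deterministic statement. -/
theorem hyperbolic_of_absorbed {T : ℂ[X]} {ε ρ : ℝ} (hε : 0 < ε) (hρ0 : 0 < ρ)
    (hρ : ∀ z : ℂ, ρ < ‖z‖ → ∀ a : ℂ, ‖a‖ ≤ ε → 2 * ‖z‖ ≤ ‖T.eval z + a‖) {N : ℕ} (hN : 0 < N)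
    (a : Fin N → ℂ) (ha : ∀ i, ‖a i‖ < ε)
    (h : ∀ ω : ℂ, (derivative T).eval ω = 0 → ∀ k < N,
      S (fun w => T.eval w) (fun i => per hN a (k + i)) N ω ∈ A (fun w => T.eval w) ε ρ)
    (c : ℂ) (hc : (derivative (comp T N a)).eval c = 0) :
    Escapes (fun w => (comp T N a).eval w) c ∨ Attracted (fun w => (comp T N a).eval w) c := by
  set g : ℂ → ℂ := fun w => T.eval w with hg
  have hgc : Continuous g := T.continuous
  set b : ℕ → ℂ := per hN a with hb
  have hba : ∀ i : Fin N, b i = a i := fun i => by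
    simp only [hb, per, Nat.mod_eq_of_lt i.2]
  have hbε : ∀ i, ‖b i‖ < ε := fun i => ha _
  have hbper : ∀ i, b (i + N) = b i := fun i => by simp only [hb, per, Nat.add_mod_right]
  set F : ℂ → ℂ := fun w => (comp T N a).eval w with hF
  have hFS : ∀ z, F z = S g b N z := fun z => by
    rw [hF]; simp only; rw [eval_comp', orb_eq_S g N a b hba]
  have hbper' : ∀ n i, b (n * N + i) = b i := fun n i => by
    simp only [hb, per, Nat.mul_add_mod_self_right]
  have hFn : ∀ n z, F^[n] z = S g b (n * N) z := fun n z => by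
    induction n with
    | zero => simp [S]
    | succ n ih =>
      rw [Function.iterate_succ_apply', ih, hFS, Nat.succ_mul, S_add]
      exact S_congr (fun i _ => (hbper' n i).symm) _
  obtain ⟨k, hk, hcrit⟩ := crit_comp T N a b hba c hc
  have habs := h _ hcrit k hk
  rw [← S_add] at habs
  -- the two absorbing sets
  have hKstep : ∀ (m : ℕ) (z : ℂ), S g b m z ∈ KK g ε ρ → ∀ j, S g b (m + j) z ∈ KK g ε ρ := by
    intro m z hz j
    induction j with
    | zero => exact hz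
    | succ j ih =>
      apply KK_ball ih
      rw [mem_ball, dist_eq_norm]
      have : S g b (m + (j + 1)) z = g (S g b (m + j) z) + b (m + j) := rfl
      rw [this, add_sub_cancel_left]
      exact hbε _
  have hEstep : ∀ (m : ℕ) (z : ℂ), ρ < ‖S g b m z‖ → ∀ j, 2 ^ j * ρ < ‖S g b (m + j) z‖ := by
    intro m z hz j
    induction j with
    | zero => simpa using hz
    | succ j ih =>
      have h1 : ρ < ‖S g b (m + j) z‖ := by
        refine lt_of_le_of_lt ?_ ih
        have : (1 : ℝ) ≤ 2 ^ j := one_le_pow₀ (by norm_num)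
        nlinarith
      have h2 := hρ _ h1 (b (m + j)) (hbε _).le
      have h3 : S g b (m + (j + 1)) z = T.eval (S g b (m + j) z) + b (m + j) := rfl
      rw [h3, pow_succ]
      linarith
  rcases habs with habs | habs
  · right
    -- margin
    obtain ⟨δ, hδ, hδ2⟩ : ∃ δ : ℝ, 0 < δ ∧ ∀ i, ‖a i‖ + δ ≤ ε := by
      have hne : Nonempty (Fin N) := ⟨⟨0, hN⟩⟩
      obtain ⟨i₀, hi₀⟩ := Finite.exists_max fun i => ‖a i‖
      exact ⟨ε - ‖a i₀‖, by linarith [ha i₀], fun i => by linarith [hi₀ i]⟩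
    have hrob : ∀ z ∈ KK g ε ρ, closedBall (F z) δ ⊆ KK g ε ρ := by
      intro z hz u hu
      obtain ⟨M, rfl⟩ : ∃ M, N = M + 1 := ⟨N - 1, by omega⟩
      have h1 : S g b M z ∈ KK g ε ρ := by
        have := hKstep 0 z hz M
        rwa [Nat.zero_add] at this
      apply KK_closedBall hgc hε h1
      have h2 : F z = g (S g b M z) + b M := by rw [hFS]; rfl
      rw [mem_closedBall, dist_eq_norm] at hu ⊢
      have h3 : u - g (S g b M z) = (u - F z) + b M := by rw [h2]; ring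
      rw [h3]
      refine (norm_add_le _ _).trans ?_
      have h4 : ‖b M‖ + δ ≤ ε := hδ2 _
      linarith
    have hFd : Differentiable ℂ F := (comp T N a).differentiable
    refine attracted_of_iterate hFd.continuous hFd (isCompact_KK hgc hε) hδ hrob (m := 2) ?_
    rw [hFn]
    have h1 : 2 * N = (k + N) + (N - k) := by omega
    rw [h1]
    exact hKstep _ _ habs _
  · left
    refine escapes_of_iterate (m := 2) ?_
    have h1 : ∀ n : ℕ, 2 ^ n * ρ ≤ ‖F^[n] (F^[2] c)‖ := by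
      intro n
      rw [← Function.iterate_add_apply, hFn]
      have h2 : (n + 2) * N = (k + N) + ((N - k) + n * N) := by
        have : N - k + k = N := by omega
        nlinarith
      rw [h2]
      refine le_trans ?_ (hEstep (k + N) c habs ((N - k) + n * N)).le
      have h3 : n ≤ (N - k) + n * N := by nlinarith
      have h4 : (2 : ℝ) ^ n ≤ 2 ^ ((N - k) + n * N) := pow_le_pow_right₀ (by norm_num) h3
      nlinarith
    refine tendsto_atTop_mono h1 ?_
    exact (tendsto_pow_atTop_atTop_of_one_lt (by norm_num : (1 : ℝ) < 2)).atTop_mul_const hρ0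

end Pool.Agent.R241.NR
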