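import Pool.Agent.R241.NR2

/-!
# Periodic perturbations of a polynomial: the probability of not being absorbed
-/

set_option autoImplicit false

open Filter Topology Set Metric Polynomial MeasureTheory
open scoped ENNReal

namespace Pool.Agent.R241.NR

theorem isProb {ε : ℝ} (hε : 0 < ε) : IsProbabilityMeasure (unif ε) :=
  ProbabilityTheory.cond_isProbabilityMeasure_of_finite
    (measure_ball_pos volume (0 : ℂ) hε).ne' measure_ball_lt_top.ne

theorem unif_compl {ε : ℝ} (_hε : 0 < ε) : unif ε (ball (0 : ℂ) ε)ᶜ = 0 := by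
  unfold unif
  rw [ProbabilityTheory.cond_apply measurableSet_ball, inter_compl_self, measure_empty, mul_zero]

theorem unif_pos {ε : ℝ} {B : Set ℂ} (hB : IsOpen B) (hne : (ball (0 : ℂ) ε ∩ B).Nonempty) :
    0 < unif ε B := by
  unfold unif
  rw [ProbabilityTheory.cond_apply measurableSet_ball]
  refine ENNReal.mul_pos ?_ ?_
  · exact ENNReal.inv_ne_zero.2 measure_ball_lt_top.ne
  · exact ((isOpen_ball.inter hB).measure_pos volume hne).ne'

variable {g : ℂ → ℂ} {ε ρ : ℝ}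

theorem orb_continuous (hg : Continuous g) (n : ℕ) :
    Continuous fun p : (Fin n → ℂ) × ℂ => orb g n p.1 p.2 := by
  induction n with
  | zero => exact continuous_snd
  | succ n ih =>
    have h1 : Continuous fun p : (Fin (n + 1) → ℂ) × ℂ => (Fin.tail p.1, g p.2 + p.1 0) := by
      refine Continuous.prodMk ?_ ?_
      · refine continuous_pi fun i => ?_
        exact (continuous_apply i.succ).comp continuous_fst
      · exact (hg.comp continuous_snd).add ((continuous_apply 0).comp continuous_fst)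
    exact ih.comp h1

theorem measurable_A (hg : Continuous g) : MeasurableSet (A g ε ρ) := by
  refine (isClosed_KK hg ε ρ).measurableSet.union ?_
  exact (isOpen_lt continuous_const continuous_norm).measurableSet

/-- The probability of not being absorbed after `n` steps. -/
noncomputable def phi (g : ℂ → ℂ) (ε ρ : ℝ) (n : ℕ) (z : ℂ) : ℝ≥0∞ :=
  Measure.pi (fun _ : Fin n => unif ε) {a | orb g n a z ∉ A g ε ρ}

theorem phi_zero_of_mem {z : ℂ} (hz : z ∈ A g ε ρ) : phi g ε ρ 0 z = 0 := by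
  unfold phi
  have : {a : Fin 0 → ℂ | orb g 0 a z ∉ A g ε ρ} = ∅ := by
    ext a; simp [orb, hz]
  rw [this, measure_empty]

theorem phi_zero_of_not_mem {z : ℂ} (hz : z ∉ A g ε ρ) : phi g ε ρ 0 z = 1 := by
  unfold phi
  have : {a : Fin 0 → ℂ | orb g 0 a z ∉ A g ε ρ} = univ := by
    ext a; simp [orb, hz]
  rw [this]
  simp

theorem phi_le_one (hε : 0 < ε) (n : ℕ) (z : ℂ) : phi g ε ρ n z ≤ 1 := by
  have := isProb hε
  exact prob_le_one

theorem phi_succ (hg : Continuous g) (hε : 0 < ε) (n : ℕ) (z : ℂ) :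
    phi g ε ρ (n + 1) z = ∫⁻ b, phi g ε ρ n (g z + b) ∂(unif ε) := by
  have := isProb hε
  have hmp := measurePreserving_piFinSuccAbove (fun _ : Fin (n + 1) => unif ε) 0
  set B : Set (ℂ × (Fin n → ℂ)) := {q | orb g n q.2 (g z + q.1) ∉ A g ε ρ} with hB
  have hBm : MeasurableSet B := by
    have h1 : Continuous fun q : ℂ × (Fin n → ℂ) => orb g n q.2 (g z + q.1) :=
      (orb_continuous hg n).comp (continuous_snd.prodMk (continuous_const.add continuous_fst))
    exact (h1.measurable (measurable_A hg)).compl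
  have h2 : {a : Fin (n + 1) → ℂ | orb g (n + 1) a z ∉ A g ε ρ} =
      (MeasurableEquiv.piFinSuccAbove (fun _ : Fin (n + 1) => ℂ) 0) ⁻¹' B := by
    ext a
    simp only [hB, Set.mem_ofPred_eq, mem_preimage]
    rfl
  unfold phi
  rw [h2, hmp.measure_preimage hBm.nullMeasurableSet, Measure.prod_apply hBm]
  rfl

theorem phi_succ_of_mem (hg : Continuous g) (hε : 0 < ε)
    (hρ : ∀ z : ℂ, ρ < ‖z‖ → ∀ a : ℂ, ‖a‖ ≤ ε → 2 * ‖z‖ ≤ ‖g z + a‖) (hρ0 : 0 < ρ) (n : ℕ) {z : ℂ}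
    (hz : z ∈ A g ε ρ) : phi g ε ρ n z = 0 := by
  induction n generalizing z with
  | zero => exact phi_zero_of_mem hz
  | succ n ih =>
    rw [phi_succ hg hε]
    have h1 : ∀ᵐ b ∂(unif ε), b ∈ ball (0 : ℂ) ε := by
      rw [ae_iff]; exact unif_compl hε
    have h2 : ∀ᵐ b ∂(unif ε), phi g ε ρ n (g z + b) = 0 := by
      filter_upwards [h1] with b hb
      apply ih
      rw [mem_ball_zero_iff] at hb
      rcases hz with hz | hz
      · left
        apply KK_ball hz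
        rw [mem_ball, dist_eq_norm, add_sub_cancel_left]
        exact hb
      · right
        have := hρ z hz b hb.le
        rw [Set.mem_ofPred_eq] at hz ⊢
        linarith
    rw [lintegral_congr_ae h2, lintegral_zero]

/-- Contraction. -/
theorem phi_add (hg : Continuous g) (hε : 0 < ε) {m : ℕ} {c : ℝ≥0∞} (hc : c ≠ ⊤)
    (h : ∀ z, phi g ε ρ m z ≤ c)
    (hA : ∀ z ∈ A g ε ρ, phi g ε ρ m z = 0) (n : ℕ) (z : ℂ) :
    phi g ε ρ (m + n) z ≤ c * phi g ε ρ n z := by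
  induction n generalizing z with
  | zero =>
    by_cases hz : z ∈ A g ε ρ
    · rw [Nat.add_zero, hA z hz]; exact zero_le
    · rw [Nat.add_zero, phi_zero_of_not_mem hz, mul_one]; exact h z
  | succ n ih =>
    rw [← Nat.add_assoc, phi_succ hg hε, phi_succ hg hε, ← lintegral_const_mul' _ _ hc]
    exact lintegral_mono fun b => ih _

theorem phi_antitone (hg : Continuous g) (hε : 0 < ε)
    (hρ : ∀ z : ℂ, ρ < ‖z‖ → ∀ a : ℂ, ‖a‖ ≤ ε → 2 * ‖z‖ ≤ ‖g z + a‖) (hρ0 : 0 < ρ) (z : ℂ)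
    {n n' : ℕ} (hn : n ≤ n') : phi g ε ρ n' z ≤ phi g ε ρ n z := by
  induction hn with
  | refl => exact le_rfl
  | @step k _ ih =>
    refine le_trans ?_ ih
    have h1 := phi_add (m := 1) (c := 1) hg hε ENNReal.one_ne_top (fun z => phi_le_one hε 1 z)
      (fun z hz => phi_succ_of_mem hg hε hρ hρ0 1 hz) k z
    rw [one_mul, Nat.add_comm] at h1
    exact h1

/-- One step of the transport of bounds. -/
theorem step_back (hg : Continuous g) (hε : 0 < ε) {n : ℕ} {c : ℝ≥0∞} (hc : c < 1) {W : Set ℂ}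
    (hW : IsOpen W) (h : ∀ w ∈ W, phi g ε ρ n w ≤ c) {z b₀ : ℂ} (hb₀ : ‖b₀‖ < ε)
    (hz : g z + b₀ ∈ W) : ∃ c' : ℝ≥0∞, c' < 1 ∧ ∀ᶠ z' in 𝓝 z, phi g ε ρ (n + 1) z' ≤ c' := by
  have := isProb hε
  have hcont : Continuous fun p : ℂ × ℂ => g p.1 + p.2 := (hg.comp continuous_fst).add continuous_snd
  have h1 : ∀ᶠ p : ℂ × ℂ in 𝓝 (z, b₀), g p.1 + p.2 ∈ W :=
    hcont.continuousAt.eventually (hW.mem_nhds hz)
  obtain ⟨δ, hδ, h2⟩ := Metric.eventually_nhds_iff.1 h1
  set B : Set ℂ := ball b₀ δ with hB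
  have hBm : MeasurableSet B := measurableSet_ball
  have hpos : 0 < unif ε B :=
    unif_pos isOpen_ball ⟨b₀, by rw [mem_ball_zero_iff]; exact hb₀, mem_ball_self hδ⟩
  have hfin : unif ε B ≠ ⊤ := measure_ne_top _ _
  refine ⟨c * unif ε B + unif ε Bᶜ, ?_, ?_⟩
  · have h3 : unif ε B + unif ε Bᶜ = 1 := prob_add_prob_compl hBm
    have h4 : c * unif ε B < unif ε B := by
      conv_rhs => rw [← one_mul (unif ε B)]
      exact ENNReal.mul_lt_mul_left hpos.ne' hfin hc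
    calc c * unif ε B + unif ε Bᶜ < unif ε B + unif ε Bᶜ :=
          ENNReal.add_lt_add_right (measure_ne_top _ _) h4
      _ = 1 := h3
  · filter_upwards [ball_mem_nhds z hδ] with z' hz'
    rw [phi_succ hg hε, ← lintegral_add_compl _ hBm]
    gcongr
    · calc ∫⁻ b in B, phi g ε ρ n (g z' + b) ∂(unif ε) ≤ ∫⁻ _ in B, c ∂(unif ε) := by
            refine setLIntegral_mono measurable_const fun b hb => ?_
            exact h _ (@h2 (z', b) (max_lt hz' hb))
        _ = c * unif ε B := by rw [setLIntegral_const]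
    · calc ∫⁻ b in Bᶜ, phi g ε ρ n (g z' + b) ∂(unif ε) ≤ ∫⁻ _ in Bᶜ, 1 ∂(unif ε) :=
            setLIntegral_mono measurable_const fun b _ => phi_le_one hε n _
        _ = unif ε Bᶜ := by rw [setLIntegral_const, one_mul]

/-- Near every point the probability of not being absorbed is less than one after some time. -/
theorem local_bound (hg : Continuous g) (hε : 0 < ε)
    (hρ : ∀ z : ℂ, ρ < ‖z‖ → ∀ a : ℂ, ‖a‖ ≤ ε → 2 * ‖z‖ ≤ ‖g z + a‖) (hρ0 : 0 < ρ) (z : ℂ) :
    ∃ n : ℕ, ∃ c : ℝ≥0∞, c < 1 ∧ ∀ᶠ z' in 𝓝 z, phi g ε ρ n z' ≤ c := by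
  by_cases hz : z ∈ KK g ε ρ
  · refine ⟨1, ?_⟩
    refine step_back (n := 0) (c := 0) hg hε zero_lt_one (W := ball (g z) ε) isOpen_ball ?_
      (b₀ := (0 : ℂ)) (by simpa using hε) (by rw [add_zero]; exact mem_ball_self hε)
    intro w hw
    exact (phi_zero_of_mem (Or.inl (KK_ball hz hw))).le
  · have hz' : ∃ (a : ℕ → ℂ), (∀ i, ‖a i‖ < ε) ∧ ∃ n, ρ < ‖S g a n z‖ := by
      by_contra hcon
      push Not at hcon
      exact hz hcon
    obtain ⟨a, ha, n, hn⟩ := hz'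
    refine ⟨n, ?_⟩
    clear hz
    induction n generalizing z a with
    | zero =>
      refine ⟨0, zero_lt_one, ?_⟩
      filter_upwards [(isOpen_lt continuous_const continuous_norm).mem_nhds hn] with w hw
      exact (phi_zero_of_mem (Or.inr hw)).le
    | succ n ih =>
      rw [S_head] at hn
      obtain ⟨c, hc, h1⟩ := ih (g z + a 0) (fun i => a (i + 1)) (fun i => ha _) hn
      obtain ⟨W, hW1, hW2, hW3⟩ := _root_.eventually_nhds_iff.1 h1
      exact step_back hg hε hc hW2 hW1 (ha 0) hW3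

/-- Uniform bound. -/
theorem uniform_bound (hg : Continuous g) (hε : 0 < ε)
    (hρ : ∀ z : ℂ, ρ < ‖z‖ → ∀ a : ℂ, ‖a‖ ≤ ε → 2 * ‖z‖ ≤ ‖g z + a‖) (hρ0 : 0 < ρ) :
    ∃ m : ℕ, ∃ c : ℝ≥0∞, c < 1 ∧ ∀ z, phi g ε ρ m z ≤ c := by
  have h1 : ∃ m : ℕ, ∃ c : ℝ≥0∞, c < 1 ∧ ∀ z ∈ closedBall (0 : ℂ) ρ, phi g ε ρ m z ≤ c := by
    refine (isCompact_closedBall (0 : ℂ) ρ).induction_on
      (p := fun s => ∃ m : ℕ, ∃ c : ℝ≥0∞, c < 1 ∧ ∀ z ∈ s, phi g ε ρ m z ≤ c) ?_ ?_ ?_ ?_
    · exact ⟨0, 0, zero_lt_one, by simp⟩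
    · rintro s t hst ⟨m, c, hc, h⟩
      exact ⟨m, c, hc, fun z hz => h z (hst hz)⟩
    · rintro s t ⟨m, c, hc, h⟩ ⟨m', c', hc', h'⟩
      refine ⟨max m m', max c c', max_lt hc hc', ?_⟩
      rintro z (hz | hz)
      · exact (phi_antitone hg hε hρ hρ0 z (le_max_left _ _)).trans
          ((h z hz).trans (le_max_left _ _))
      · exact (phi_antitone hg hε hρ hρ0 z (le_max_right _ _)).trans
          ((h' z hz).trans (le_max_right _ _))
    · intro z _
      obtain ⟨n, c, hc, h⟩ := local_bound hg hε hρ hρ0 z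
      exact ⟨{z' | phi g ε ρ n z' ≤ c}, mem_nhdsWithin_of_mem_nhds h, n, c, hc, fun w hw => hw⟩
  obtain ⟨m, c, hc, h⟩ := h1
  refine ⟨m, c, hc, fun z => ?_⟩
  by_cases hz : z ∈ closedBall (0 : ℂ) ρ
  · exact h z hz
  · rw [mem_closedBall_zero_iff, not_le] at hz
    rw [phi_succ_of_mem hg hε hρ hρ0 m (Or.inr hz)]
    exact zero_le

theorem phi_mul_le (hg : Continuous g) (hε : 0 < ε)
    (hρ : ∀ z : ℂ, ρ < ‖z‖ → ∀ a : ℂ, ‖a‖ ≤ ε → 2 * ‖z‖ ≤ ‖g z + a‖) (hρ0 : 0 < ρ) {m : ℕ}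
    {c : ℝ≥0∞} (hc : c < 1) (h : ∀ z, phi g ε ρ m z ≤ c) (j : ℕ) (z : ℂ) :
    phi g ε ρ (m * j) z ≤ c ^ j := by
  induction j with
  | zero => simpa using phi_le_one hε 0 z
  | succ j ih =>
    have e : m * (j + 1) = m + m * j := by ring
    rw [e, pow_succ, mul_comm (c ^ j) c]
    refine (phi_add hg hε (ne_top_of_lt hc) h
      (fun z hz => phi_succ_of_mem hg hε hρ hρ0 m hz) _ z).trans ?_
    gcongr

end Pool.Agent.R241.NR
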