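import Pool.Agent.R241.NR4

/-!
# Hyperbolicity and stability under small kicks
-/

set_option autoImplicit false

open Filter Topology Set Metric Polynomial

namespace Pool.Agent.R241.NR

variable {g : ℂ → ℂ} {ε ρ : ℝ}

theorem S_zero (g : ℂ → ℂ) (n : ℕ) (z : ℂ) : S g (fun _ => 0) n z = g^[n] z := by
  induction n with
  | zero => rfl
  | succ n ih => rw [S, ih, add_zero, Function.iterate_succ_apply']

/-- Uniform closeness of noisy orbits to true orbits, on compact sets. -/
theorem close (hg : Continuous g) {B : Set ℂ} (hB : IsCompact B) (n : ℕ) {η : ℝ} (hη : 0 < η) :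
    ∃ ε : ℝ, 0 < ε ∧ ∀ a : ℕ → ℂ, (∀ i, ‖a i‖ < ε) → ∀ z ∈ B, dist (S g a n z) (g^[n] z) < η := by
  have h1 : ∀ᶠ a in 𝓝 (0 : Fin n → ℂ), ∀ z ∈ B, dist (orb g n a z) (orb g n 0 z) < η := by
    refine hB.eventually_forall_of_forall_eventually fun z _ => ?_
    have hc : Continuous fun p : (Fin n → ℂ) × ℂ => dist (orb g n p.1 p.2) (orb g n 0 p.2) :=
      (orb_continuous hg n).dist ((orb_continuous hg n).comp (continuous_const.prodMk
        continuous_snd))
    refine hc.continuousAt.eventually (gt_mem_nhds ?_)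
    simp only [dist_self]
    exact hη
  obtain ⟨ε, hε, h2⟩ := Metric.eventually_nhds_iff.1 h1
  refine ⟨ε, hε, fun a ha z hz => ?_⟩
  have h3 : dist (fun i : Fin n => a i) (0 : Fin n → ℂ) < ε := by
    rw [dist_pi_lt_iff hε]
    intro i
    rw [Pi.zero_apply, dist_zero_right]
    exact ha i
  have h4 := h2 h3 z hz
  rw [orb_eq_S g n _ a (fun i => rfl), orb_eq_S g n 0 (fun _ => 0) (fun i => rfl), S_zero] at h4
  exact h4

/-- The noisy orbit of `z` escapes to infinity. -/
def NoisyEscapes (g : ℂ → ℂ) (a : ℕ → ℂ) (z : ℂ) : Prop :=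
  Tendsto (fun n : ℕ => ‖S g a n z‖) atTop atTop

theorem noisyEscapes_of_lt (_hε : 0 < ε) (hρ0 : 0 < ρ)
    (hρ : ∀ z : ℂ, ρ < ‖z‖ → ∀ a : ℂ, ‖a‖ ≤ ε → 2 * ‖z‖ ≤ ‖g z + a‖) {a : ℕ → ℂ}
    (ha : ∀ i, ‖a i‖ < ε) {z : ℂ} {m : ℕ} (hm : ρ < ‖S g a m z‖) : NoisyEscapes g a z := by
  have h1 : ∀ j, 2 ^ j * ρ ≤ ‖S g a (m + j) z‖ ∧ ρ < ‖S g a (m + j) z‖ := by
    intro j
    induction j with
    | zero => exact ⟨by simpa using hm.le, hm⟩
    | succ j ih =>
      have h2 := hρ _ ih.2 (a (m + j)) (ha _).le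
      have h3 : S g a (m + (j + 1)) z = g (S g a (m + j) z) + a (m + j) := rfl
      rw [h3, pow_succ]
      have := ih.1
      have := ih.2
      constructor
      · linarith
      · linarith
  have h2 : Tendsto (fun j : ℕ => ‖S g a (j + m) z‖) atTop atTop := by
    refine tendsto_atTop_mono (fun j => ?_)
      ((tendsto_pow_atTop_atTop_of_one_lt (by norm_num : (1 : ℝ) < 2)).atTop_mul_const hρ0)
    rw [Nat.add_comm j m]
    exact (h1 j).1
  exact (tendsto_add_atTop_iff_nat (f := fun j => ‖S g a j z‖) m).1 h2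

/-- Escaping points escape under all small noises. -/
theorem esc_stable (T : ℂ[X]) (hT : 2 ≤ T.natDegree) {c : ℂ}
    (hc : Escapes (fun w => T.eval w) c) :
    ∃ ε : ℝ, 0 < ε ∧ ∀ a : ℕ → ℂ, (∀ i, ‖a i‖ < ε) → NoisyEscapes (fun w => T.eval w) a c := by
  obtain ⟨ρ, hρ0, hρ⟩ := exists_radius T hT 1 one_pos
  obtain ⟨m, hm⟩ := (hc.eventually_gt_atTop (ρ + 1)).exists
  obtain ⟨ε, hε, h⟩ := close (g := fun w => T.eval w) T.continuous (isCompact_singleton (x := c)) m
    one_pos
  refine ⟨min ε 1, by positivity, fun a ha => ?_⟩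
  have h1 : ∀ i, ‖a i‖ < 1 := fun i => (ha i).trans_le (min_le_right _ _)
  have h2 := h a (fun i => (ha i).trans_le (min_le_left _ _)) c rfl
  refine noisyEscapes_of_lt one_pos hρ0 hρ h1 (m := m) ?_
  rw [dist_comm, dist_eq_norm] at h2
  have h3 := norm_sub_norm_le ((fun w => T.eval w)^[m] c) (S (fun w => T.eval w) a m c)
  linarith

/-- Attracted points do not escape under small noises. -/
theorem att_stable (T : ℂ[X]) {c : ℂ} (hc : Attracted (fun w => T.eval w) c) :
    ∃ ε : ℝ, 0 < ε ∧ ∀ a : ℕ → ℂ, (∀ i, ‖a i‖ < ε) → ¬ NoisyEscapes (fun w => T.eval w) a c := by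
  set g : ℂ → ℂ := fun w => T.eval w with hg
  have hgc : Continuous g := T.continuous
  have hgd : Differentiable ℂ g := T.differentiable
  have hit : ∀ n, Differentiable ℂ g^[n] := fun n => by
    induction n with
    | zero => exact differentiable_id
    | succ n ih => rw [Function.iterate_succ']; exact hgd.comp ih
  obtain ⟨n, hn, x, hx1, hx2, hx3⟩ := hc
  -- a contracted disc
  obtain ⟨l, hl1, hl2⟩ := exists_between hx2
  have hl0 : 0 < l := (norm_nonneg _).trans_lt hl1
  obtain ⟨r, hr, hrc⟩ : ∃ r : ℝ, 0 < r ∧ ∀ z ∈ closedBall x r, dist (g^[n] z) x ≤ l * dist z x := by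
    have h1 : HasDerivAt g^[n] (deriv g^[n] x) x := (hit n x).hasDerivAt
    have h2 : ∀ᶠ z in 𝓝 x, ‖g^[n] z - g^[n] x‖ ≤ l * ‖z - x‖ := by
      have h3 := h1.isLittleO.def (sub_pos.2 hl1)
      filter_upwards [h3] with z hz
      have h4 : g^[n] z - g^[n] x = (g^[n] z - g^[n] x - (z - x) • deriv g^[n] x) +
          (z - x) • deriv g^[n] x := by ring
      rw [h4]
      refine (norm_add_le _ _).trans ?_
      rw [norm_smul]
      nlinarith
    obtain ⟨r, hr, h3⟩ := Metric.eventually_nhds_iff.1 h2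
    refine ⟨r / 2, by positivity, fun z hz => ?_⟩
    have h4 := h3 (lt_of_le_of_lt hz (by linarith))
    rw [hx1] at h4
    rw [dist_eq_norm, dist_eq_norm]
    exact h4
  obtain ⟨k₀, hk₀⟩ := (hx3.eventually (ball_mem_nhds x hr)).exists
  obtain ⟨ε₁, hε₁, h1⟩ := close hgc (isCompact_closedBall x r) n
    (η := (1 - l) * r) (by nlinarith)
  obtain ⟨ε₂, hε₂, h2⟩ := close hgc (isCompact_singleton (x := c)) (n * k₀)
    (η := r - dist (g^[n * k₀] c) x) (by linarith)
  refine ⟨min ε₁ ε₂, by positivity, fun a ha hesc => ?_⟩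
  have key : ∀ j, S g a (n * k₀ + n * j) c ∈ closedBall x r := by
    intro j
    induction j with
    | zero =>
      have h3 := h2 a (fun i => (ha i).trans_le (min_le_right _ _)) c rfl
      rw [Nat.mul_zero, Nat.add_zero, mem_closedBall]
      calc dist (S g a (n * k₀) c) x ≤ dist (S g a (n * k₀) c) (g^[n * k₀] c) +
            dist (g^[n * k₀] c) x := dist_triangle _ _ _
        _ ≤ r := by linarith
    | succ j ih =>
      rw [Nat.mul_succ, ← Nat.add_assoc, S_add]
      set y := S g a (n * k₀ + n * j) c with hy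
      have h3 := h1 (fun i => a (n * k₀ + n * j + i)) (fun i => (ha _).trans_le (min_le_left _ _))
        y ih
      have h4 := hrc y ih
      rw [mem_closedBall] at ih ⊢
      calc dist (S g (fun i => a (n * k₀ + n * j + i)) n y) x
          ≤ dist (S g (fun i => a (n * k₀ + n * j + i)) n y) (g^[n] y) + dist (g^[n] y) x :=
            dist_triangle _ _ _
        _ ≤ (1 - l) * r + l * r := by
            have : l * dist y x ≤ l * r := by gcongr
            linarith
        _ = r := by ring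
  have h3 : Tendsto (fun j : ℕ => n * k₀ + n * j) atTop atTop := by
    refine tendsto_atTop_mono (fun j => ?_) tendsto_id
    show j ≤ n * k₀ + n * j
    nlinarith
  have h4 := hesc.comp h3
  obtain ⟨B, hB⟩ := (isCompact_closedBall x r).isBounded.exists_norm_le
  obtain ⟨j, hj⟩ := (h4.eventually_gt_atTop B).exists
  exact absurd (hB _ (key j)) (not_le.2 hj)

/-- Hyperbolic polynomials are stable under small noise. -/
theorem stable_of_hyperbolic (T : ℂ[X]) (hT : 2 ≤ T.natDegree) (hyp : Hyperbolic T) :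
    ∃ ε : ℝ, 0 < ε ∧ ∀ c : ℂ, (derivative T).eval c = 0 → ∀ a : ℕ → ℂ, (∀ i, ‖a i‖ < ε) →
      (NoisyEscapes (fun w => T.eval w) a c ↔ Escapes (fun w => T.eval w) c) := by
  have hT' : T.derivative ≠ 0 := by
    intro h
    have := derivative_eq_zero.1 h
    omega
  have h1 : ∀ c : ℂ, (derivative T).eval c = 0 → ∃ ε : ℝ, 0 < ε ∧ ∀ a : ℕ → ℂ,
      (∀ i, ‖a i‖ < ε) → (NoisyEscapes (fun w => T.eval w) a c ↔ Escapes (fun w => T.eval w) c) := by
    intro c hc
    rcases hyp c hc with h | h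
    · obtain ⟨ε, hε, h2⟩ := esc_stable T hT h
      exact ⟨ε, hε, fun a ha => ⟨fun _ => h, fun _ => h2 a ha⟩⟩
    · obtain ⟨ε, hε, h2⟩ := att_stable T h
      refine ⟨ε, hε, fun a ha => ⟨fun h3 => absurd h3 (h2 a ha), fun h3 => ?_⟩⟩
      have h4 := h2 (fun _ => 0) (by simpa using hε)
      refine absurd ?_ h4
      unfold NoisyEscapes
      simp only [S_zero]
      exact h3
  choose! e he0 he using h1
  obtain ⟨ε, hε, h2⟩ : ∃ ε : ℝ, 0 < ε ∧ ∀ c ∈ T.derivative.roots.toFinset, ε ≤ e c := by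
    by_cases hne : T.derivative.roots.toFinset.Nonempty
    · refine ⟨T.derivative.roots.toFinset.inf' hne e, ?_, fun c hc => Finset.inf'_le _ hc⟩
      rw [Finset.lt_inf'_iff]
      intro c hc
      rw [Multiset.mem_toFinset, mem_roots hT'] at hc
      exact he0 c hc
    · rw [Finset.not_nonempty_iff_eq_empty] at hne
      exact ⟨1, one_pos, by simp [hne]⟩
  refine ⟨ε, hε, fun c hc a ha => he c hc a fun i => (ha i).trans_le (h2 c ?_)⟩
  rw [Multiset.mem_toFinset, mem_roots hT']
  exact hc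

/-- Non-hyperbolic polynomials: a critical point which does not escape can be made to escape by
finitely many kicks of arbitrarily small size. -/
theorem kicks_of_not_hyperbolic (T : ℂ[X]) (hT : 2 ≤ T.natDegree) (hyp : ¬ Hyperbolic T) {ε : ℝ}
    (hε : 0 < ε) : ∃ c : ℂ, (derivative T).eval c = 0 ∧ ¬ Escapes (fun w => T.eval w) c ∧
      ∃ a : ℕ → ℂ, (∀ i, ‖a i‖ < ε) ∧ (∃ m, ∀ i, m ≤ i → a i = 0) ∧
        NoisyEscapes (fun w => T.eval w) a c := by
  unfold Hyperbolic at hyp
  push Not at hyp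
  obtain ⟨c, hc, h1, h2⟩ := hyp
  obtain ⟨ρ, hρ0, hρ⟩ := exists_radius T hT ε hε
  refine ⟨c, hc, h1, ?_⟩
  by_contra hcon
  push Not at hcon
  apply h2
  have hcK : c ∈ KK (fun w => T.eval w) ε ρ := by
    intro a ha n
    by_contra h3
    push Not at h3
    set b : ℕ → ℂ := fun i => if i < n then a i else 0 with hb
    have hb1 : ∀ i, ‖b i‖ < ε := by
      intro i
      simp only [hb]
      split_ifs
      · exact ha i
      · simpa using hε
    have hb2 : S (fun w => T.eval w) b n c = S (fun w => T.eval w) a n c :=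
      S_congr (fun i hi => by simp [hb, hi]) c
    refine hcon b hb1 ⟨n, fun i hi => by simp [hb, not_lt.2 hi]⟩ ?_
    refine noisyEscapes_of_lt hε hρ0 hρ hb1 (m := n) ?_
    rw [hb2]; exact h3
  exact attracted_of_iterate T.continuous T.differentiable
    (isCompact_KK T.continuous hε) hε (fun z hz => KK_closedBall T.continuous hε hz) (m := 0) hcK

end Pool.Agent.R241.NR
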