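import Pool.Agent.R241.NS1

/-!
# Openness of the basins in families of polynomials
-/

set_option autoImplicit false

open Filter Topology Set Metric Polynomial

namespace Pool.Agent.R241.NR

theorem differentiable_iterate {F : ℂ → ℂ} (hF : Differentiable ℂ F) (n : ℕ) :
    Differentiable ℂ F^[n] := by
  induction n with
  | zero => exact differentiable_id
  | succ n ih => rw [Function.iterate_succ']; exact hF.comp ih

theorem deriv_iterate {F : ℂ → ℂ} (hF : Differentiable ℂ F) (n : ℕ) (z : ℂ) :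
    deriv F^[n] z = ∏ i ∈ Finset.range n, deriv F (F^[i] z) := by
  induction n with
  | zero => simp
  | succ n ih =>
    rw [Finset.prod_range_succ, ← ih, Function.iterate_succ']
    have h1 := ((hF (F^[n] z)).hasDerivAt.comp z (differentiable_iterate hF n z).hasDerivAt).deriv
    rw [h1, mul_comm]

theorem deriv_cycle {F : ℂ → ℂ} (hF : Differentiable ℂ F) {n : ℕ} {x : ℂ} (hx : F^[n] x = x)
    (r : ℕ) : deriv F^[n] (F^[r] x) = deriv F^[n] x := by
  induction r with
  | zero => rfl
  | succ r ih =>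
    rw [← ih]
    set y := F^[r] x with hy
    have hyn : F^[n] y = y := by
      rw [hy, ← Function.iterate_add_apply, Nat.add_comm, Function.iterate_add_apply, hx]
    rw [Function.iterate_succ_apply', ← hy, deriv_iterate hF, deriv_iterate hF]
    have h1 : ∀ i, F^[i] (F y) = F^[i + 1] y := fun i => by rw [Function.iterate_succ_apply]
    simp only [h1]
    rcases n with _ | n
    · simp
    · rw [Finset.prod_range_succ, hyn, Finset.prod_range_succ' (fun i => deriv F (F^[i] y))]
      rfl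

/-- Good points: they escape or are attracted. -/
def Good (F : ℂ → ℂ) (z : ℂ) : Prop := Escapes F z ∨ Attracted F z

theorem attracted_shift {F : ℂ → ℂ} (hF : Differentiable ℂ F) {z : ℂ} {m : ℕ}
    (h : Attracted F (F^[m] z)) : Attracted F z := by
  obtain ⟨n, hn, p, hp1, hp2, hp3⟩ := h
  set r := n * m - m with hr
  have hrm : r + m = n * m := by
    have : m ≤ n * m := Nat.le_mul_of_pos_left m hn
    omega
  refine ⟨n, hn, F^[r] p, ?_, ?_, ?_⟩
  · rw [← Function.iterate_add_apply, Nat.add_comm, Function.iterate_add_apply, hp1]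
  · rw [deriv_cycle hF hp1]; exact hp2
  · have h1 : Tendsto (fun j : ℕ => F^[r] (F^[n * j] (F^[m] z))) atTop (𝓝 (F^[r] p)) :=
      ((hF.continuous.iterate r).tendsto p).comp hp3
    have h2 : (fun j : ℕ => F^[r] (F^[n * j] (F^[m] z))) =
        fun j : ℕ => (fun l => F^[n * l] z) (j + m) := by
      funext j
      simp only
      rw [← Function.iterate_add_apply, ← Function.iterate_add_apply]
      congr 1
      rw [Nat.mul_add, ← hrm]
      ring
    rw [h2] at h1
    exact (tendsto_add_atTop_iff_nat (f := fun l => F^[n * l] z) m).1 h1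

theorem attracted_of_iterate_map {F : ℂ → ℂ} {n : ℕ} (hn : 0 < n) {z : ℂ}
    (h : Attracted F^[n] z) : Attracted F z := by
  obtain ⟨k, hk, p, h1, h2, h3⟩ := h
  rw [← Function.iterate_mul] at h1 h2
  refine ⟨n * k, Nat.mul_pos hn hk, p, h1, h2, ?_⟩
  simp only [← Function.iterate_mul] at h3
  have : (fun j : ℕ => F^[n * k * j] z) = fun j : ℕ => F^[n * (k * j)] z := by
    funext j; rw [Nat.mul_assoc]
  rw [this]
  exact h3

theorem good_shift {F : ℂ → ℂ} (hF : Differentiable ℂ F) {z : ℂ} {m : ℕ}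
    (h : Good F (F^[m] z)) : Good F z := by
  rcases h with h | h
  · exact Or.inl (escapes_of_iterate h)
  · exact Or.inr (attracted_shift hF h)

theorem escapes_of_radius {g : ℂ → ℂ} {ρ : ℝ} (hρ0 : 0 < ρ) (hρ : ∀ z : ℂ, ρ < ‖z‖ →
    2 * ‖z‖ ≤ ‖g z‖) {z : ℂ} (hz : ρ < ‖z‖) : Escapes g z := by
  have h1 : ∀ n, 2 ^ n * ρ ≤ ‖g^[n] z‖ ∧ ρ < ‖g^[n] z‖ := by
    intro n
    induction n with
    | zero => exact ⟨by simpa using hz.le, hz⟩
    | succ n ih =>
      rw [Function.iterate_succ_apply', pow_succ]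
      have h2 := hρ _ ih.2
      constructor
      · linarith [ih.1]
      · linarith [ih.2]
  exact tendsto_atTop_mono (fun n => (h1 n).1)
    ((tendsto_pow_atTop_atTop_of_one_lt (by norm_num : (1 : ℝ) < 2)).atTop_mul_const hρ0)

variable {Y : Type*} [TopologicalSpace Y]

theorem iterate_jointly {P : Y → ℂ[X]} (hc : Continuous fun q : Y × ℂ => (P q.1).eval q.2) (n : ℕ) :
    Continuous fun q : Y × ℂ => (fun w => (P q.1).eval w)^[n] q.2 := by
  induction n with
  | zero => exact continuous_snd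
  | succ n ih =>
    simp only [Function.iterate_succ_apply']
    exact hc.comp (continuous_fst.prodMk ih)

/-- Goodness is an open condition on the polynomial and the point. -/
theorem good_open {P : Y → ℂ[X]} (hc : Continuous fun q : Y × ℂ => (P q.1).eval q.2) {x₀ : Y}
    {ρ : ℝ} (hρ0 : 0 < ρ) (hρ : ∀ᶠ x in 𝓝 x₀, ∀ z : ℂ, ρ < ‖z‖ → 2 * ‖z‖ ≤ ‖(P x).eval z‖) {z₀ : ℂ}
    (h : Good (fun w => (P x₀).eval w) z₀) :
    ∀ᶠ q : Y × ℂ in 𝓝 (x₀, z₀), Good (fun w => (P q.1).eval w) q.2 := by
  rcases h with h | h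
  · obtain ⟨m, hm⟩ := (h.eventually_gt_atTop ρ).exists
    have h1 : ∀ᶠ q : Y × ℂ in 𝓝 (x₀, z₀), ρ < ‖(fun w => (P q.1).eval w)^[m] q.2‖ :=
      (iterate_jointly hc m).norm.continuousAt.eventually (lt_mem_nhds hm)
    have h2 : ∀ᶠ q : Y × ℂ in 𝓝 (x₀, z₀), ∀ z : ℂ, ρ < ‖z‖ → 2 * ‖z‖ ≤ ‖(P q.1).eval z‖ :=
      (continuous_fst.tendsto (x₀, z₀)).eventually hρ
    filter_upwards [h1, h2] with q hq1 hq2
    exact Or.inl (escapes_of_iterate (m := m) (escapes_of_radius hρ0 hq2 hq1))
  · obtain ⟨n, hn, x, hx1, hx2, hx3⟩ := h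
    set g : ℂ → ℂ := fun w => (P x₀).eval w with hg
    have hgd : Differentiable ℂ g := (P x₀).differentiable
    obtain ⟨l, hl1, hl2⟩ := exists_between hx2
    have hl0 : 0 < l := (norm_nonneg _).trans_lt hl1
    obtain ⟨r, hr, hrc⟩ : ∃ r : ℝ, 0 < r ∧
        ∀ z ∈ closedBall x r, dist (g^[n] z) x ≤ l * dist z x := by
      have h1 : HasDerivAt g^[n] (deriv g^[n] x) x := (differentiable_iterate hgd n x).hasDerivAt
      have h2 : ∀ᶠ z in 𝓝 x, ‖g^[n] z - g^[n] x‖ ≤ l * ‖z - x‖ := by
        have h3 := h1.isLittleO.def (sub_pos.2 hl1)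
        filter_upwards [h3] with z hz
        have h4 : g^[n] z - g^[n] x = (g^[n] z - g^[n] x - (z - x) • deriv g^[n] x) +
            (z - x) • deriv g^[n] x := by ring
        rw [h4]
        refine (norm_add_le _ _).trans ?_
        rw [norm_smul]
        nlinarith
      obtain ⟨r, hr, h3⟩ := Metric.eventually_nhds_iff.1 h2
      refine ⟨r / 2, by positivity, fun z hz => ?_⟩
      have h4 := h3 (lt_of_le_of_lt hz (by linarith))
      rw [hx1] at h4
      rw [dist_eq_norm, dist_eq_norm]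
      exact h4
    obtain ⟨k₀, hk₀⟩ := (hx3.eventually (ball_mem_nhds x hr)).exists
    set δ : ℝ := (1 - l) * r / 2 with hδ
    have hδ0 : 0 < δ := by rw [hδ]; nlinarith
    -- nearby maps contract the disc
    have h1 : ∀ᶠ y in 𝓝 x₀, ∀ z ∈ closedBall x r,
        dist ((fun w => (P y).eval w)^[n] z) (g^[n] z) < δ := by
      refine (isCompact_closedBall x r).eventually_forall_of_forall_eventually fun z _ => ?_
      have hcc : Continuous fun q : Y × ℂ => dist ((fun w => (P q.1).eval w)^[n] q.2) (g^[n] q.2) :=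
        (iterate_jointly hc n).dist ((hgd.continuous.iterate n).comp continuous_snd)
      refine hcc.continuousAt.eventually (gt_mem_nhds ?_)
      simp only [hg, dist_self]
      exact hδ0
    have h2 : ∀ᶠ q : Y × ℂ in 𝓝 (x₀, z₀),
        (fun w => (P q.1).eval w)^[n * k₀] q.2 ∈ ball x r :=
      (iterate_jointly hc (n * k₀)).continuousAt.eventually (isOpen_ball.mem_nhds hk₀)
    have h1' : ∀ᶠ q : Y × ℂ in 𝓝 (x₀, z₀), ∀ z ∈ closedBall x r,
        dist ((fun w => (P q.1).eval w)^[n] z) (g^[n] z) < δ :=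
      (continuous_fst.tendsto (x₀, z₀)).eventually h1
    filter_upwards [h1', h2] with q hq1 hq2
    have hFd : Differentiable ℂ (fun w => (P q.1).eval w) := (P q.1).differentiable
    refine Or.inr (attracted_shift hFd (m := n * k₀) (attracted_of_iterate_map hn ?_))
    refine attracted (differentiable_iterate hFd n) (isCompact_closedBall x r) hδ0 ?_
      (ball_subset_closedBall hq2)
    intro z hz u hu
    have h3 := hq1 z hz
    have h4 := hrc z hz
    rw [mem_closedBall] at hz hu ⊢
    calc dist u x ≤ dist u ((fun w => (P q.1).eval w)^[n] z) +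
          dist ((fun w => (P q.1).eval w)^[n] z) (g^[n] z) + dist (g^[n] z) x := by
            have e1 := dist_triangle u ((fun w => (P q.1).eval w)^[n] z) x
            have e2 := dist_triangle ((fun w => (P q.1).eval w)^[n] z) (g^[n] z) x
            linarith
      _ ≤ δ + δ + l * r := by
        have : l * dist z x ≤ l * r := by gcongr
        linarith
      _ = r := by rw [hδ]; ring

/-- Hyperbolicity is open in families. -/
theorem hyperbolic_open {P : Y → ℂ[X]} (hc : Continuous fun q : Y × ℂ => (P q.1).eval q.2)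
    (hd : Continuous fun q : Y × ℂ => (derivative (P q.1)).eval q.2) {x₀ : Y}
    {ρ : ℝ} (hρ0 : 0 < ρ) (hρ : ∀ᶠ x in 𝓝 x₀, ∀ z : ℂ, ρ < ‖z‖ → 2 * ‖z‖ ≤ ‖(P x).eval z‖)
    (h : Hyperbolic (P x₀)) : ∀ᶠ x in 𝓝 x₀, Hyperbolic (P x) := by
  have h1 : ∀ᶠ x in 𝓝 x₀, ∀ z ∈ closedBall (0 : ℂ) ρ, (derivative (P x)).eval z = 0 →
      Good (fun w => (P x).eval w) z := by
    refine (isCompact_closedBall (0 : ℂ) ρ).eventually_forall_of_forall_eventually fun z _ => ?_
    by_cases hz : (derivative (P x₀)).eval z = 0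
    · filter_upwards [good_open hc hρ0 hρ (h z hz)] with q hq _
      exact hq
    · have h2 : ∀ᶠ q : Y × ℂ in 𝓝 (x₀, z), (derivative (P q.1)).eval q.2 ≠ 0 :=
        hd.continuousAt.eventually_ne hz
      filter_upwards [h2] with q hq hq2
      exact absurd hq2 hq
  filter_upwards [h1, hρ] with x hx hx2 c hcr
  by_cases hcb : c ∈ closedBall (0 : ℂ) ρ
  · exact hx c hcb hcr
  · rw [mem_closedBall_zero_iff, not_le] at hcb
    exact Or.inl (escapes_of_radius hρ0 hx2 hcb)

end Pool.Agent.R241.NR
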