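import Pool.Agent.R241.NS1

/-!
# Few kicks suffice
-/

set_option autoImplicit false

open Filter Topology Set Metric Polynomial MeasureTheory

namespace Pool.Agent.R241.NR

variable {g : ℂ → ℂ} {ε ρ : ℝ}

/-- An explicit escape radius. -/
theorem explicit_radius {d : ℕ} (hd : 2 ≤ d) {M : ℝ} (hM : 0 < M) {T : ℂ[X]} (hT : T.natDegree = d)
    (h1 : ∀ i : ℕ, ‖T.coeff i‖ ≤ M) (h2 : 1 / M ≤ ‖T.leadingCoeff‖) :
    1 ≤ M ∧ ∀ z : ℂ, M * (3 + d * M) < ‖z‖ → ∀ a : ℂ, ‖a‖ ≤ 1 → 2 * ‖z‖ ≤ ‖T.eval z + a‖ := by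
  have hM1 : 1 ≤ M := by
    have h3 : 1 / M ≤ M := h2.trans (h1 _)
    rw [div_le_iff₀ hM] at h3
    nlinarith
  refine ⟨hM1, fun z hz a ha => ?_⟩
  have hd' : (2 : ℝ) ≤ d := by exact_mod_cast hd
  have hz1 : 1 ≤ ‖z‖ := by
    have e0 : 0 ≤ d * M := by positivity
    have : 1 ≤ M * (3 + d * M) := by nlinarith
    linarith
  have h3 : T.eval z = T.coeff d * z ^ d + ∑ i ∈ Finset.range d, T.coeff i * z ^ i := by
    rw [eval_eq_sum_range, hT, Finset.sum_range_succ, add_comm]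
  have h4 : ‖∑ i ∈ Finset.range d, T.coeff i * z ^ i‖ ≤ d * M * ‖z‖ ^ (d - 1) := by
    refine (norm_sum_le _ _).trans ?_
    have : ∀ i ∈ Finset.range d, ‖T.coeff i * z ^ i‖ ≤ M * ‖z‖ ^ (d - 1) := by
      intro i hi
      rw [norm_mul, norm_pow]
      have hi' : i ≤ d - 1 := by have := Finset.mem_range.1 hi; omega
      gcongr
      exact h1 i
    refine (Finset.sum_le_sum this).trans ?_
    rw [Finset.sum_const, Finset.card_range, nsmul_eq_mul, mul_assoc]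
  have h5 : ‖z‖ ^ d / M ≤ ‖T.coeff d * z ^ d‖ := by
    rw [norm_mul, norm_pow]
    have : 1 / M ≤ ‖T.coeff d‖ := by rw [← hT]; exact h2
    calc ‖z‖ ^ d / M = 1 / M * ‖z‖ ^ d := by ring
      _ ≤ _ := by gcongr
  have h6 : ‖T.coeff d * z ^ d‖ - ‖∑ i ∈ Finset.range d, T.coeff i * z ^ i‖ - ‖a‖ ≤
      ‖T.eval z + a‖ := by
    rw [h3]
    have e1 := norm_sub_le (T.coeff d * z ^ d + ∑ i ∈ Finset.range d, T.coeff i * z ^ i + a) a
    have e2 := norm_sub_le (T.coeff d * z ^ d + ∑ i ∈ Finset.range d, T.coeff i * z ^ i)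
      (∑ i ∈ Finset.range d, T.coeff i * z ^ i)
    rw [add_sub_cancel_right] at e1 e2
    linarith
  obtain ⟨e, rfl⟩ : ∃ e, d = e + 2 := ⟨d - 2, by omega⟩
  have h7 : ‖z‖ ^ (e + 2) / M - ((e + 2 : ℕ) : ℝ) * M * ‖z‖ ^ (e + 2 - 1) =
      ‖z‖ ^ e * (‖z‖ * (‖z‖ / M - ((e + 2 : ℕ) : ℝ) * M)) := by
    have : e + 2 - 1 = e + 1 := by omega
    rw [this]
    field_simp
    ring
  have h8 : 3 ≤ ‖z‖ / M - ((e + 2 : ℕ) : ℝ) * M := by
    have h9 : 3 + ((e + 2 : ℕ) : ℝ) * M ≤ ‖z‖ / M := by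
      rw [le_div_iff₀ hM]
      linarith
    linarith
  have h9 : ‖z‖ * 3 ≤ ‖z‖ ^ e * (‖z‖ * (‖z‖ / M - ((e + 2 : ℕ) : ℝ) * M)) := by
    have h10 : 1 ≤ ‖z‖ ^ e := one_le_pow₀ hz1
    have h11 : ‖z‖ * 3 ≤ ‖z‖ * (‖z‖ / M - ((e + 2 : ℕ) : ℝ) * M) := by gcongr
    have h12 : 0 ≤ ‖z‖ * (‖z‖ / M - ((e + 2 : ℕ) : ℝ) * M) := by linarith
    nlinarith
  linarith

/-- Points which can be reached in at most `k` steps. -/
def Reach (g : ℂ → ℂ) (ε : ℝ) (z : ℂ) (k : ℕ) : Set ℂ :=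
  {y | ∃ j ≤ k, ∃ b : ℕ → ℂ, (∀ i, ‖b i‖ < ε) ∧ y = S g b j z}

theorem Reach_mono (z : ℂ) {k l : ℕ} (h : k ≤ l) : Reach g ε z k ⊆ Reach g ε z l := by
  rintro y ⟨j, hj, b, hb, rfl⟩
  exact ⟨j, hj.trans h, b, hb, rfl⟩

theorem Reach_succ {z y : ℂ} {k : ℕ} (hy : y ∈ Reach g ε z k) {u : ℂ} (hu : ‖u - g y‖ < ε) :
    u ∈ Reach g ε z (k + 1) := by
  obtain ⟨j, hj, b, hb, rfl⟩ := hy
  refine ⟨j + 1, by omega, fun i => if i = j then u - g (S g b j z) else b i, fun i => ?_, ?_⟩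
  · simp only
    split_ifs
    · exact hu
    · exact hb i
  · rw [S, S_congr (b := b) (n := j)]
    · simp
    · intro i hi
      simp [hi.ne]

theorem separated (hε : 0 < ε) {z : ℂ} {a : ℕ → ℂ} (ha : ∀ i, ‖a i‖ < ε / 2) {n m : ℕ}
    (hn : ρ < ‖S g a n z‖) (hm : ∀ y ∈ Reach g ε z m, ‖y‖ ≤ ρ) :
    ∃ w : ℕ → ℂ, (∀ k < m, ‖w k‖ ≤ ρ) ∧ ∀ k < m, ∀ l < m, k ≠ l → ε / 2 ≤ ‖w k - w l‖ := by
  have h1 : ∀ k ≤ m, ∃ w : ℂ, w ∉ Reach g ε z k ∧ ball w (ε / 2) ⊆ Reach g ε z (k + 1) := by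
    intro k hk
    by_contra hcon
    push Not at hcon
    have h2 : ∀ j, S g a j z ∈ Reach g ε z k := by
      intro j
      induction j with
      | zero => exact ⟨0, by omega, fun _ => 0, by simpa using hε, rfl⟩
      | succ j ih =>
        by_contra h3
        refine hcon _ h3 fun u hu => Reach_succ ih ?_
        rw [mem_ball, dist_eq_norm] at hu
        have h4 : u - g (S g a j z) = (u - S g a (j + 1) z) + a j := by rw [S]; ring
        rw [h4]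
        refine (norm_add_le _ _).trans_lt ?_
        linarith [ha j]
    exact absurd (hm _ (Reach_mono z hk (h2 n))) (not_le.2 hn)
  choose! w hw1 hw2 using h1
  have hsep : ∀ k l, k < l → l < m → ε / 2 ≤ ‖w k - w l‖ := by
    intro k l hkl hl
    by_contra h3
    push Not at h3
    refine hw1 l hl.le (Reach_mono z (Nat.succ_le_of_lt hkl) (hw2 k (by omega) ?_))
    rw [mem_ball, dist_comm, dist_eq_norm]
    exact h3
  refine ⟨w, fun k hk => ?_, fun k hk l hl hkl => ?_⟩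
  · exact hm _ (Reach_mono z (Nat.succ_le_of_lt hk)
      (hw2 k hk.le (mem_ball_self (by positivity))))
  · rcases lt_or_gt_of_ne hkl with h | h
    · exact hsep k l h hl
    · rw [norm_sub_rev]; exact hsep l k h hk

/-- A packing bound. -/
theorem packing (hρ : 0 ≤ ρ) (hε : 0 < ε) {m : ℕ} {w : ℕ → ℂ} (h1 : ∀ k < m, ‖w k‖ ≤ ρ)
    (h2 : ∀ k < m, ∀ l < m, k ≠ l → ε / 2 ≤ ‖w k - w l‖) : (m : ℝ) ≤ (4 * ρ / ε + 1) ^ 2 := by
  have hd : (↑(Finset.range m) : Set ℕ).PairwiseDisjoint fun k => ball (w k) (ε / 4) := by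
    intro k hk l hl hkl
    refine ball_disjoint_ball ?_
    have := h2 k (Finset.mem_range.1 hk) l (Finset.mem_range.1 hl) hkl
    rw [dist_eq_norm]
    linarith
  have h3 : volume (⋃ k ∈ Finset.range m, ball (w k) (ε / 4)) =
      ∑ k ∈ Finset.range m, volume (ball (w k) (ε / 4)) :=
    measure_biUnion_finset hd fun k _ => measurableSet_ball
  have h4 : (⋃ k ∈ Finset.range m, ball (w k) (ε / 4)) ⊆ ball (0 : ℂ) (ρ + ε / 4) := by
    refine iUnion₂_subset fun k hk => ball_subset_ball' ?_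
    rw [dist_zero_right]
    linarith [h1 k (Finset.mem_range.1 hk)]
  have h5 := (h3 ▸ measure_mono h4 : ∑ k ∈ Finset.range m, volume (ball (w k) (ε / 4)) ≤
    volume (ball (0 : ℂ) (ρ + ε / 4)))
  simp only [Complex.volume_ball, Finset.sum_const, Finset.card_range, nsmul_eq_mul] at h5
  rw [← ENNReal.ofReal_pow (by positivity), ← ENNReal.ofReal_pow (by positivity),
    ← mul_assoc] at h5
  have hpi0 : ((NNReal.pi : NNReal) : ENNReal) ≠ 0 := by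
    rw [ENNReal.coe_ne_zero]; exact NNReal.pi_ne_zero
  have h6 := (ENNReal.mul_le_mul_iff_left hpi0 ENNReal.coe_ne_top).1 h5
  rw [← ENNReal.ofReal_natCast, ← ENNReal.ofReal_mul (by positivity),
    ENNReal.ofReal_le_ofReal_iff (by positivity)] at h6
  have h7 : (4 * ρ / ε + 1) ^ 2 = (ρ + ε / 4) ^ 2 / (ε / 4) ^ 2 := by
    field_simp
  rw [h7, le_div_iff₀ (by positivity)]
  exact h6

/-- If kicks smaller than `ε / 2` can send `z` to infinity then few kicks smaller than `ε` can. -/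
theorem few_kicks (hρ0 : 0 ≤ ρ) (hε : 0 < ε) {z : ℂ} (hz : z ∉ KK g (ε / 2) ρ) {m : ℕ}
    (hm : (4 * ρ / ε + 1) ^ 2 < m) :
    ∃ j ≤ m, ∃ b : ℕ → ℂ, (∀ i, ‖b i‖ < ε) ∧ ρ < ‖S g b j z‖ := by
  by_contra hcon
  push Not at hcon
  have h1 : ∃ a : ℕ → ℂ, (∀ i, ‖a i‖ < ε / 2) ∧ ∃ n, ρ < ‖S g a n z‖ := by
    by_contra h2
    push Not at h2
    exact hz h2
  obtain ⟨a, ha, n, hn⟩ := h1
  obtain ⟨w, hw1, hw2⟩ := separated (m := m) hε ha hn (by
    rintro y ⟨j, hj, b, hb, rfl⟩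
    exact hcon j hj b hb)
  exact absurd (packing hρ0 hε hw1 hw2) (not_le.2 hm)

/-- The quantitative dichotomy. -/
theorem dichotomy {d : ℕ} (hd : 2 ≤ d) {M : ℝ} (hM : 0 < M) {T : ℂ[X]} (hT : T.natDegree = d)
    (h1 : ∀ i : ℕ, ‖T.coeff i‖ ≤ M) (h2 : 1 / M ≤ ‖T.leadingCoeff‖) {ε : ℝ} (hε : 0 < ε)
    (hε1 : ε ≤ 1) (z : ℂ) :
    Attracted (fun w => T.eval w) z ∨ ∃ a : ℕ → ℂ, (∀ i, ‖a i‖ < ε) ∧
      (∀ i : ℕ, 111 * d ^ 2 * M ^ 4 / ε ^ 2 ≤ i → a i = 0) ∧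
      NoisyEscapes (fun w => T.eval w) a z := by
  obtain ⟨hM1, hρ⟩ := explicit_radius hd hM hT h1 h2
  have hd' : (2 : ℝ) ≤ d := by exact_mod_cast hd
  set ρ : ℝ := M * (3 + d * M) with hρd
  have hρ0 : 0 < ρ := by positivity
  have hρε : ∀ z : ℂ, ρ < ‖z‖ → ∀ a : ℂ, ‖a‖ ≤ ε → 2 * ‖z‖ ≤ ‖T.eval z + a‖ :=
    fun z hz a ha => hρ z hz a (ha.trans hε1)
  by_cases hz : z ∈ KK (fun w => T.eval w) (ε / 2) ρ
  · left
    exact attracted_of_iterate T.continuous T.differentiable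
      (isCompact_KK T.continuous (half_pos hε)) (half_pos hε)
      (fun z hz => KK_closedBall T.continuous (half_pos hε) hz) (m := 0) hz
  · right
    obtain ⟨m, hm1, hm2⟩ : ∃ m : ℕ, (4 * ρ / ε + 1) ^ 2 < m ∧
        (m : ℝ) ≤ 111 * d ^ 2 * M ^ 4 / ε ^ 2 := by
      refine ⟨⌊(4 * ρ / ε + 1) ^ 2⌋₊ + 1, ?_, ?_⟩
      · push_cast
        exact Nat.lt_floor_add_one _
      · push_cast
        have e1 : (⌊(4 * ρ / ε + 1) ^ 2⌋₊ : ℝ) ≤ (4 * ρ / ε + 1) ^ 2 :=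
          Nat.floor_le (by positivity)
        have e2 : 4 * ρ / ε + 1 ≤ 10.5 * d * M ^ 2 / ε := by
          rw [div_add_one hε.ne']
          gcongr
          have : M ≤ M ^ 2 := by nlinarith
          have h5 : 1 ≤ M ^ 2 := by nlinarith
          have h6 : 12 * M ≤ 6 * (d * M ^ 2) := by nlinarith
          have h7 : 1 ≤ (d * M ^ 2) / 2 := by nlinarith
          have h8 : 4 * ρ = 12 * M + 4 * (d * M ^ 2) := by rw [hρd]; ring
          rw [h8]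
          linarith
        have e3 : (4 * ρ / ε + 1) ^ 2 ≤ (10.5 * d * M ^ 2 / ε) ^ 2 := by gcongr
        have e4 : (10.5 * d * M ^ 2 / ε) ^ 2 = 110.25 * (d ^ 2 * M ^ 4 / ε ^ 2) := by
          rw [div_pow]; ring
        have e5 : 4 ≤ (d : ℝ) ^ 2 * M ^ 4 / ε ^ 2 := by
          rw [le_div_iff₀ (by positivity)]
          have : ε ^ 2 ≤ 1 := by nlinarith
          have : (4 : ℝ) ≤ d ^ 2 := by nlinarith
          have : 1 ≤ M ^ 4 := one_le_pow₀ hM1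
          nlinarith
        have e6 : 111 * (d : ℝ) ^ 2 * M ^ 4 / ε ^ 2 = 111 * (d ^ 2 * M ^ 4 / ε ^ 2) := by ring
        rw [e6]
        linarith
    obtain ⟨j, hj, b, hb, hbj⟩ := few_kicks hρ0.le hε hz hm1
    have hb' : ∀ i, ‖(fun i => if i < j then b i else 0) i‖ < ε := by
      intro i
      simp only
      split_ifs
      · exact hb i
      · simpa using hε
    refine ⟨fun i => if i < j then b i else 0, hb', fun i hi => ?_, ?_⟩
    · have h3 : j ≤ i := by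
        have : (j : ℝ) ≤ i := le_trans (by exact_mod_cast hj) (hm2.trans hi)
        exact_mod_cast this
      simp [not_lt.2 h3]
    · refine noisyEscapes_of_lt hε hρ0 hρε hb' (m := j) ?_
      rw [S_congr (b := b) (n := j)]
      · exact hbj
      · intro i hi
        simp [hi]

end Pool.Agent.R241.NR
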