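import Pool.Agent.TH705.SM.CltD

set_option autoImplicit false

/-!
# Windows: smooth upper approximation of the indicator function of an arc
-/

namespace Pool.Agent.R241.PV

open Real MeasureTheory Function
open Pool.Agent.TH705.SM

/-- distance to the nearest integer -/
noncomputable def nn (x : ℝ) : ℝ := ‖(x : UnitAddCircle)‖

theorem nn_eq (x : ℝ) : nn x = |x - round x| := UnitAddCircle.norm_eq

theorem nn_nonneg (x : ℝ) : 0 ≤ nn x := norm_nonneg _

theorem nn_per (x : ℝ) : nn (x + 1) = nn x := by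
  unfold nn
  rw [AddCircle.coe_add, AddCircle.coe_period, add_zero]

theorem nn_le (x : ℝ) : nn x ≤ 1 / 2 := by
  rw [nn_eq]
  exact abs_sub_round x

theorem nn_cont : Continuous nn := by
  unfold nn
  exact continuous_norm.comp (AddCircle.continuous_mk' 1)

theorem nn_cos (x : ℝ) : cos (2 * π * nn x) = cos (2 * π * x) := by
  rw [nn_eq]
  have h1 : cos (2 * π * |x - round x|) = cos (2 * π * (x - round x)) := by
    rcases abs_cases (x - round x) with h | h
    · rw [h.1]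
    · rw [h.1, mul_neg, cos_neg]
  rw [h1, show 2 * π * (x - round x) = 2 * π * x - (round x : ℤ) * (2 * π) by ring,
    cos_sub_int_mul_two_pi]

theorem nn_small {x : ℝ} (h : |x| < 1 / 2) : nn x = |x| := by
  rw [nn_eq]
  have : round x = 0 := by
    rw [round_eq, Int.floor_eq_zero_iff]
    rw [abs_lt] at h
    constructor <;> norm_num <;> linarith [h.1, h.2]
  rw [this]
  simp

/-- integrals over a period of functions of the distance to `c` -/
theorem int_nn (G : ℝ → ℝ) (c : ℝ) :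
    ∫ x in (0:ℝ)..1, G (nn (x - c)) = ∫ y in (-(1 / 2) : ℝ)..(1 / 2), G |y| := by
  have hper : Periodic (fun x => G (nn x)) 1 := fun x => by
    show G (nn (x + 1)) = G (nn x)
    rw [nn_per]
  have h1 : ∫ x in (0:ℝ)..1, G (nn (x - c)) = ∫ x in (0 - c)..(1 - c), G (nn x) :=
    intervalIntegral.integral_comp_sub_right (fun x => G (nn x)) c
  have h2 := hper.intervalIntegral_add_eq (0 - c) (-(1 / 2))
  rw [h1, show (1:ℝ) - c = 0 - c + 1 by ring, h2, show -(1 / 2 : ℝ) + 1 = 1 / 2 by norm_num]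
  apply intervalIntegral.integral_congr_ae
  have h3 : ∀ᵐ x : ℝ, x ≠ 1 / 2 := by
    rw [ae_iff]
    simp
  filter_upwards [h3] with x hx hx2
  rw [Set.uIoc_of_le (by norm_num)] at hx2
  show G (nn x) = G |x|
  rw [nn_small (abs_lt.2 ⟨hx2.1, lt_of_le_of_ne hx2.2 hx⟩)]

/-- the indicator function of the arc -/
noncomputable def ind (c ρ x : ℝ) : ℝ := if nn (x - c) ≤ ρ then 1 else 0

theorem ind_mem (c ρ x : ℝ) : 0 ≤ ind c ρ x ∧ ind c ρ x ≤ 1 := by
  unfold ind
  split_ifs <;> norm_num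

theorem ind_meas (c ρ : ℝ) : Measurable (ind c ρ) := by
  unfold ind
  refine Measurable.ite ?_ measurable_const measurable_const
  exact measurableSet_le (nn_cont.measurable.comp (measurable_id.sub_const c)) measurable_const

theorem ind_int (c : ℝ) {ρ : ℝ} (h0 : 0 ≤ ρ) (h1 : ρ ≤ 1 / 2) :
    ∫ x in (0:ℝ)..1, ind c ρ x = 2 * ρ := by
  have h := int_nn (fun u => if u ≤ ρ then (1:ℝ) else 0) c
  have h2 : ∫ y in (-(1 / 2) : ℝ)..(1 / 2), (fun u => if u ≤ ρ then (1:ℝ) else 0) |y| =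
      ∫ y in (-(1 / 2) : ℝ)..(1 / 2), (Set.Icc (-ρ) ρ).indicator (fun _ => (1:ℝ)) y := by
    apply intervalIntegral.integral_congr
    intro y _
    show (if |y| ≤ ρ then (1:ℝ) else 0) = _
    by_cases hy : |y| ≤ ρ
    · rw [if_pos hy, Set.indicator_of_mem (show y ∈ Set.Icc (-ρ) ρ from abs_le.1 hy)]
    · rw [if_neg hy, Set.indicator_of_notMem (show y ∉ Set.Icc (-ρ) ρ from fun h => hy (abs_le.2 h))]
  have h3 : ∫ x in (0:ℝ)..1, ind c ρ x = ∫ x in (0:ℝ)..1,
      (fun u => if u ≤ ρ then (1:ℝ) else 0) (nn (x - c)) := rfl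
  rw [h3, h, h2, intervalIntegral.integral_of_le (by norm_num),
    setIntegral_indicator measurableSet_Icc, setIntegral_const, smul_eq_mul, mul_one]
  have h4 : volume.real (Set.Ioc (-(1 / 2) : ℝ) (1 / 2) ∩ Set.Icc (-ρ) ρ) =
      volume.real (Set.Icc (-ρ) ρ) := by
    apply measureReal_congr
    have h5 : ∀ᵐ x : ℝ, x ≠ -(1 / 2) := by
      rw [ae_iff]
      simp
    filter_upwards [h5] with x hx
    apply propext
    show (x ∈ Set.Ioc (-(1 / 2) : ℝ) (1 / 2) ∧ x ∈ Set.Icc (-ρ) ρ) ↔ x ∈ Set.Icc (-ρ) ρ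
    constructor
    · exact fun h => h.2
    · intro h
      refine ⟨⟨lt_of_le_of_ne (by linarith [h.1]) (Ne.symm hx), by linarith [h.2]⟩, h⟩
  rw [h4, Real.volume_real_Icc_of_le (by linarith)]
  ring

/-- the tent -/
noncomputable def tent (ρ δ u : ℝ) : ℝ := max 0 (min 1 (2 - |u - (ρ + δ / 2)| / (δ / 2)))

theorem tent_mem (ρ δ u : ℝ) : 0 ≤ tent ρ δ u ∧ tent ρ δ u ≤ 1 := by
  unfold tent
  exact ⟨le_max_left _ _, max_le zero_le_one (min_le_left _ _)⟩

theorem tent_one {ρ δ u : ℝ} (hδ : 0 < δ) (h1 : ρ ≤ u) (h2 : u ≤ ρ + δ) : tent ρ δ u = 1 := by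
  unfold tent
  have h3 : |u - (ρ + δ / 2)| / (δ / 2) ≤ 1 := by
    rw [div_le_one (by positivity), abs_le]
    constructor <;> linarith
  rw [min_eq_left (by linarith), max_eq_right zero_le_one]

theorem tent_cont (ρ δ : ℝ) : Continuous (tent ρ δ) := by
  unfold tent
  fun_prop

theorem tent_le {ρ δ : ℝ} (hδ : 0 < δ) (u : ℝ) :
    tent ρ δ u ≤ (Set.Icc (ρ - δ / 2) (ρ + 3 * δ / 2)).indicator (fun _ => (1:ℝ)) u := by
  by_cases h : u ∈ Set.Icc (ρ - δ / 2) (ρ + 3 * δ / 2)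
  · rw [Set.indicator_of_mem h]
    exact (tent_mem _ _ _).2
  · rw [Set.indicator_of_notMem h]
    unfold tent
    apply max_le le_rfl
    apply (min_le_right _ _).trans
    rw [sub_nonpos, le_div_iff₀ (by positivity)]
    rw [Set.mem_Icc, not_and_or, not_le, not_le] at h
    rcases h with h | h
    · rw [abs_sub_comm]
      exact le_trans (by linarith) (le_abs_self _)
    · exact le_trans (by linarith) (le_abs_self _)

/-- the tent on the circle -/
noncomputable def tc (c ρ δ x : ℝ) : ℝ := tent ρ δ (nn (x - c))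

theorem tc_mem (c ρ δ x : ℝ) : 0 ≤ tc c ρ δ x ∧ tc c ρ δ x ≤ 1 := tent_mem _ _ _

theorem tc_cont (c ρ δ : ℝ) : Continuous (tc c ρ δ) :=
  (tent_cont ρ δ).comp (nn_cont.comp (continuous_id.sub continuous_const))

theorem tc_per (c ρ δ : ℝ) : Periodic (tc c ρ δ) 1 := by
  intro x
  unfold tc
  rw [show x + 1 - c = x - c + 1 by ring, nn_per]

theorem tc_int (c ρ : ℝ) {δ : ℝ} (hδ : 0 < δ) : ∫ x in (0:ℝ)..1, tc c ρ δ x ≤ 4 * δ := by
  have h := int_nn (tent ρ δ) c
  have h3 : ∫ x in (0:ℝ)..1, tc c ρ δ x = ∫ x in (0:ℝ)..1, tent ρ δ (nn (x - c)) := rfl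
  rw [h3, h]
  have hic : IntervalIntegrable (fun y => tent ρ δ |y|) volume (-(1 / 2)) 0 :=
    ((tent_cont ρ δ).comp continuous_abs).intervalIntegrable _ _
  have hic' : IntervalIntegrable (fun y => tent ρ δ |y|) volume 0 (1 / 2) :=
    ((tent_cont ρ δ).comp continuous_abs).intervalIntegrable _ _
  rw [← intervalIntegral.integral_add_adjacent_intervals hic hic']
  have e1 : ∫ y in (-(1 / 2) : ℝ)..0, tent ρ δ |y| = ∫ y in (0:ℝ)..(1 / 2), tent ρ δ |y| := by
    have := intervalIntegral.integral_comp_neg (a := (0:ℝ)) (b := 1 / 2) (fun y => tent ρ δ |y|)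
    rw [neg_zero] at this
    rw [← this]
    simp only [abs_neg]
  have e2 : ∫ y in (0:ℝ)..(1 / 2), tent ρ δ |y| ≤ 2 * δ := by
    rw [intervalIntegral.integral_of_le (by norm_num)]
    calc ∫ y in Set.Ioc (0:ℝ) (1 / 2), tent ρ δ |y|
        ≤ ∫ y in Set.Ioc (0:ℝ) (1 / 2),
            (Set.Icc (ρ - δ / 2) (ρ + 3 * δ / 2)).indicator (fun _ => (1:ℝ)) y := by
          apply setIntegral_mono_on
          · exact (((tent_cont ρ δ).comp continuous_abs).integrableOn_Icc (a := 0) (b := 1 / 2)).mono_set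
              Set.Ioc_subset_Icc_self
          · apply Integrable.indicator _ measurableSet_Icc
            exact integrable_const _
          · exact measurableSet_Ioc
          · intro y hy
            rw [abs_of_pos hy.1]
            exact tent_le hδ y
      _ = volume.real (Set.Ioc (0:ℝ) (1 / 2) ∩ Set.Icc (ρ - δ / 2) (ρ + 3 * δ / 2)) := by
          rw [setIntegral_indicator measurableSet_Icc, setIntegral_const, smul_eq_mul, mul_one]
      _ ≤ volume.real (Set.Icc (ρ - δ / 2) (ρ + 3 * δ / 2)) :=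
          measureReal_mono Set.inter_subset_right (by rw [Real.volume_Icc]; exact ENNReal.ofReal_ne_top)
      _ = 2 * δ := by
          rw [Real.volume_real_Icc_of_le (by linarith)]
          ring
  rw [e1]
  linarith

/-- the argument of the smooth step -/
noncomputable def arg (c ρ δ x : ℝ) : ℝ :=
  (cos (2 * π * (x - c)) - cos (2 * π * (ρ + δ))) / (cos (2 * π * ρ) - cos (2 * π * (ρ + δ)))

/-- the smooth upper approximation of the indicator function of the arc -/
noncomputable def up (c ρ δ x : ℝ) : ℝ := smoothTransition (arg c ρ δ x)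

/-- its derivative -/
noncomputable def up' (c ρ δ x : ℝ) : ℝ :=
  deriv smoothTransition (arg c ρ δ x) *
    (-(sin (2 * π * (x - c)) * (2 * π)) / (cos (2 * π * ρ) - cos (2 * π * (ρ + δ))))

theorem up_hasDeriv (c ρ δ x : ℝ) : HasDerivAt (up c ρ δ) (up' c ρ δ x) x := by
  have h1 : HasDerivAt (fun x : ℝ => 2 * π * (x - c)) (2 * π) x := by
    simpa using ((hasDerivAt_id x).sub_const c).const_mul (2 * π)
  have h2 : HasDerivAt (arg c ρ δ)
      (-(sin (2 * π * (x - c)) * (2 * π)) / (cos (2 * π * ρ) - cos (2 * π * (ρ + δ)))) x := by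
    unfold arg
    have := ((h1.cos).sub_const (cos (2 * π * (ρ + δ)))).div_const
      (cos (2 * π * ρ) - cos (2 * π * (ρ + δ)))
    rw [neg_mul] at this
    exact this
  have h3 : HasDerivAt smoothTransition (deriv smoothTransition (arg c ρ δ x)) (arg c ρ δ x) :=
    ((smoothTransition.contDiff (n := 1)).differentiable one_ne_zero _).hasDerivAt
  exact h3.comp x h2

theorem up_cont (c ρ δ : ℝ) : Continuous (up c ρ δ) :=
  continuous_iff_continuousAt.2 fun x => (up_hasDeriv c ρ δ x).continuousAt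

theorem arg_cont (c ρ δ : ℝ) : Continuous (arg c ρ δ) := by
  unfold arg
  fun_prop

theorem up'_cont (c ρ δ : ℝ) : Continuous (up' c ρ δ) := by
  unfold up'
  refine (sT_deriv_cont.comp (arg_cont c ρ δ)).mul ?_
  fun_prop

theorem up_per (c ρ δ : ℝ) : Periodic (up c ρ δ) 1 := by
  intro x
  unfold up arg
  rw [show 2 * π * (x + 1 - c) = 2 * π * (x - c) + 2 * π by ring, cos_add_two_pi]

theorem up_mem (c ρ δ x : ℝ) : 0 ≤ up c ρ δ x ∧ up c ρ δ x ≤ 1 :=
  ⟨smoothTransition.nonneg _, smoothTransition.le_one _⟩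

theorem den_ge {ρ δ : ℝ} (h0 : 0 ≤ ρ) (hδ : 0 < δ) (h1 : ρ + δ ≤ 1 / 4) :
    8 * (2 * ρ + δ) * δ ≤ cos (2 * π * ρ) - cos (2 * π * (ρ + δ)) := by
  have hpi := pi_pos
  rw [cos_sub_cos]
  have e1 : (2 * π * ρ + 2 * π * (ρ + δ)) / 2 = π * (2 * ρ + δ) := by ring
  have e2 : (2 * π * ρ - 2 * π * (ρ + δ)) / 2 = -(π * δ) := by ring
  rw [e1, e2, sin_neg]
  have h3 : 2 / π * (π * (2 * ρ + δ)) ≤ sin (π * (2 * ρ + δ)) :=
    mul_le_sin (by positivity) (by nlinarith)
  have h4 : 2 / π * (π * δ) ≤ sin (π * δ) := mul_le_sin (by positivity) (by nlinarith)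
  have e3 : 2 / π * (π * (2 * ρ + δ)) = 2 * (2 * ρ + δ) := by field_simp
  have e4 : 2 / π * (π * δ) = 2 * δ := by field_simp
  rw [e3] at h3
  rw [e4] at h4
  have h5 : 0 ≤ 2 * (2 * ρ + δ) := by positivity
  have h6 : 2 * (2 * ρ + δ) * (2 * δ) ≤ sin (π * (2 * ρ + δ)) * sin (π * δ) :=
    mul_le_mul h3 h4 (by positivity) (h5.trans h3)
  nlinarith

theorem up_one {c ρ δ x : ℝ} (h0 : 0 ≤ ρ) (hδ : 0 < δ) (h1 : ρ + δ ≤ 1 / 4) (hx : nn (x - c) ≤ ρ) :
    up c ρ δ x = 1 := by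
  have hpi := pi_pos
  have hd := den_ge h0 hδ h1
  have hd0 : 0 < cos (2 * π * ρ) - cos (2 * π * (ρ + δ)) := lt_of_lt_of_le (by positivity) hd
  apply smoothTransition.one_of_one_le
  unfold arg
  rw [one_le_div hd0, ← nn_cos (x - c)]
  have := cos_le_cos_of_nonneg_of_le_pi (x := 2 * π * nn (x - c)) (y := 2 * π * ρ)
    (by have := nn_nonneg (x - c); positivity) (by nlinarith) (by gcongr)
  linarith

theorem up_zero {c ρ δ x : ℝ} (h0 : 0 ≤ ρ) (hδ : 0 < δ) (h1 : ρ + δ ≤ 1 / 4)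
    (hx : ρ + δ ≤ nn (x - c)) : up c ρ δ x = 0 := by
  have hpi := pi_pos
  have hd := den_ge h0 hδ h1
  have hd0 : 0 < cos (2 * π * ρ) - cos (2 * π * (ρ + δ)) := lt_of_lt_of_le (by positivity) hd
  apply smoothTransition.zero_of_nonpos
  unfold arg
  rw [← nn_cos (x - c)]
  apply div_nonpos_of_nonpos_of_nonneg _ hd0.le
  have := cos_le_cos_of_nonneg_of_le_pi (x := 2 * π * (ρ + δ)) (y := 2 * π * nn (x - c))
    (by positivity) (by have := nn_le (x - c); nlinarith) (by gcongr)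
  linarith

theorem up'_le {c ρ δ : ℝ} (h0 : 0 ≤ ρ) (hδ : 0 < δ) (h1 : ρ + δ ≤ 1 / 4) (x : ℝ) :
    |up' c ρ δ x| ≤ KK * π ^ 2 / (2 * δ) := by
  have hpi := pi_pos
  have hK := KK_one
  have hd := den_ge h0 hδ h1
  have hd0 : 0 < cos (2 * π * ρ) - cos (2 * π * (ρ + δ)) := lt_of_lt_of_le (by positivity) hd
  by_cases hw : arg c ρ δ x < 0 ∨ 1 < arg c ρ δ x
  · unfold up'
    rw [sT_deriv_zero hw]
    simp only [zero_mul, abs_zero]
    positivity
  push Not at hw
  have hs : |sin (2 * π * (x - c))| ≤ 2 * π * (2 * ρ + δ) := by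
    have h2 : cos (2 * π * (ρ + δ)) ≤ cos (2 * π * (x - c)) := by
      have := hw.1
      unfold arg at this
      rw [le_div_iff₀ hd0] at this
      linarith
    have h3 : 0 ≤ cos (2 * π * (ρ + δ)) := by
      apply cos_nonneg_of_neg_pi_div_two_le_of_le
      · have : 0 ≤ 2 * π * (ρ + δ) := by positivity
        linarith
      · nlinarith
    have h4 : sin (2 * π * (x - c)) ^ 2 ≤ sin (2 * π * (ρ + δ)) ^ 2 := by
      have e1 := sin_sq_add_cos_sq (2 * π * (x - c))
      have e2 := sin_sq_add_cos_sq (2 * π * (ρ + δ))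
      nlinarith
    have h5 : |sin (2 * π * (x - c))| ≤ |sin (2 * π * (ρ + δ))| := sq_le_sq.1 h4
    have h6 : |sin (2 * π * (ρ + δ))| ≤ |2 * π * (ρ + δ)| := abs_sin_le_abs
    rw [abs_of_nonneg (by positivity : 0 ≤ 2 * π * (ρ + δ))] at h6
    have h7 : 2 * π * (ρ + δ) ≤ 2 * π * (2 * ρ + δ) := by
      gcongr
      linarith
    linarith
  unfold up'
  rw [abs_mul, abs_div, abs_neg, abs_mul, abs_of_pos hd0, abs_of_pos (by positivity : 0 < 2 * π)]
  have h8 : |sin (2 * π * (x - c))| * (2 * π) / (cos (2 * π * ρ) - cos (2 * π * (ρ + δ))) ≤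
      π ^ 2 / (2 * δ) := by
    rw [div_le_div_iff₀ hd0 (by positivity)]
    calc |sin (2 * π * (x - c))| * (2 * π) * (2 * δ)
        ≤ 2 * π * (2 * ρ + δ) * (2 * π) * (2 * δ) := by gcongr
      _ = π ^ 2 * (8 * (2 * ρ + δ) * δ) := by ring
      _ ≤ π ^ 2 * (cos (2 * π * ρ) - cos (2 * π * (ρ + δ))) := by gcongr
  calc |deriv smoothTransition (arg c ρ δ x)| *
        (|sin (2 * π * (x - c))| * (2 * π) / (cos (2 * π * ρ) - cos (2 * π * (ρ + δ))))
      ≤ KK * (π ^ 2 / (2 * δ)) := by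
        apply mul_le_mul (KK_spec _) h8 (by positivity) (by linarith)
    _ = KK * π ^ 2 / (2 * δ) := by ring

theorem up'_per (c ρ δ : ℝ) : Periodic (up' c ρ δ) 1 := by
  intro x
  unfold up' arg
  rw [show 2 * π * (x + 1 - c) = 2 * π * (x - c) + 2 * π by ring, cos_add_two_pi, sin_add_two_pi]

/-- the derivative lives on the boundary layer -/
theorem up'_tc {c ρ δ : ℝ} (h0 : 0 ≤ ρ) (hδ : 0 < δ) (h1 : ρ + δ ≤ 1 / 4) (x : ℝ) :
    |up' c ρ δ x| ≤ KK * π ^ 2 / (2 * δ) * tc c ρ δ x := by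
  have hpi := pi_pos
  have hK := KK_one
  have hd := den_ge h0 hδ h1
  have hd0 : 0 < cos (2 * π * ρ) - cos (2 * π * (ρ + δ)) := lt_of_lt_of_le (by positivity) hd
  have ht := tc_mem c ρ δ x
  by_cases hx1 : nn (x - c) < ρ
  · have hw : 1 < arg c ρ δ x := by
      unfold arg
      rw [one_lt_div hd0, ← nn_cos (x - c)]
      have := cos_lt_cos_of_nonneg_of_le_pi (x := 2 * π * nn (x - c)) (y := 2 * π * ρ)
        (by have := nn_nonneg (x - c); positivity) (by nlinarith) (by gcongr)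
      linarith
    unfold up'
    rw [sT_deriv_zero (Or.inr hw), zero_mul, abs_zero]
    have := ht.1
    positivity
  by_cases hx2 : ρ + δ < nn (x - c)
  · have hw : arg c ρ δ x < 0 := by
      unfold arg
      rw [← nn_cos (x - c)]
      apply div_neg_of_neg_of_pos _ hd0
      have := cos_lt_cos_of_nonneg_of_le_pi (x := 2 * π * (ρ + δ)) (y := 2 * π * nn (x - c))
        (by positivity) (by have := nn_le (x - c); nlinarith) (by gcongr)
      linarith
    unfold up'
    rw [sT_deriv_zero (Or.inl hw), zero_mul, abs_zero]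
    have := ht.1
    positivity
  push Not at hx1 hx2
  have : tc c ρ δ x = 1 := tent_one hδ hx1 hx2
  rw [this, mul_one]
  exact up'_le h0 hδ h1 x

theorem up'_int {c ρ δ : ℝ} (h0 : 0 ≤ ρ) (hδ : 0 < δ) (h1 : ρ + δ ≤ 1 / 4) :
    ∫ x in (0:ℝ)..1, |up' c ρ δ x| ≤ 2 * (KK * π ^ 2) := by
  have hK := KK_one
  have hq : 0 ≤ KK * π ^ 2 / (2 * δ) := by positivity
  calc ∫ x in (0:ℝ)..1, |up' c ρ δ x|
      ≤ ∫ x in (0:ℝ)..1, KK * π ^ 2 / (2 * δ) * tc c ρ δ x := by
        apply intervalIntegral.integral_mono_on zero_le_one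
          ((up'_cont c ρ δ).abs.intervalIntegrable _ _)
          ((continuous_const.mul (tc_cont c ρ δ)).intervalIntegrable _ _)
        intro x _
        exact up'_tc h0 hδ h1 x
    _ = KK * π ^ 2 / (2 * δ) * ∫ x in (0:ℝ)..1, tc c ρ δ x :=
        intervalIntegral.integral_const_mul _ _
    _ ≤ KK * π ^ 2 / (2 * δ) * (4 * δ) := mul_le_mul_of_nonneg_left (tc_int c ρ hδ) hq
    _ = _ := by
        field_simp
        ring

/-- the smooth function differs from the indicator function by at most the tent -/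
theorem up_ind {c ρ δ : ℝ} (h0 : 0 ≤ ρ) (hδ : 0 < δ) (h1 : ρ + δ ≤ 1 / 4) (x : ℝ) :
    |up c ρ δ x - ind c ρ x| ≤ tc c ρ δ x := by
  have ht := tc_mem c ρ δ x
  by_cases hx : nn (x - c) ≤ ρ
  · rw [up_one h0 hδ h1 hx]
    unfold ind
    rw [if_pos hx, sub_self, abs_zero]
    exact ht.1
  · have e : ind c ρ x = 0 := by
      unfold ind
      rw [if_neg hx]
    rw [e, sub_zero]
    by_cases hx2 : ρ + δ ≤ nn (x - c)
    · rw [up_zero h0 hδ h1 hx2, abs_zero]
      exact ht.1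
    · push Not at hx hx2
      have : tc c ρ δ x = 1 := tent_one hδ hx.le hx2.le
      rw [this, abs_of_nonneg (up_mem c ρ δ x).1]
      exact (up_mem c ρ δ x).2

end Pool.Agent.R241.PV
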