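import Pool.Agent.R241.PV1

set_option autoImplicit false

/-!
# Characteristic functions of Birkhoff sums of functions with jumps
-/

namespace Pool.Agent.R241.PV

open Real MeasureTheory Function
open Pool.Agent.TH705.SM

theorem E_lip (x y : ℝ) : ‖E x - E y‖ ≤ |x - y| := by
  have h := (Convex.norm_image_sub_le_of_norm_hasDerivWithin_le (f := E)
    (f' := fun x => Complex.exp ((x : ℂ) * Complex.I) * (1 * Complex.I))
    (C := 1) (s := Set.univ) (x := y) (y := x)
    (fun x _ => ((((Complex.ofRealCLM.hasDerivAt (x := x)).mul_const Complex.I).cexp)).hasDerivWithinAt)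
    (fun x _ => by rw [norm_mul, Complex.norm_exp_ofReal_mul_I]; simp) convex_univ trivial trivial)
  simpa using h

theorem E_ii {g : ℝ → ℝ} (hg : Measurable g) : IntervalIntegrable (fun t => E (g t)) volume 0 1 := by
  rw [intervalIntegrable_iff]
  refine Measure.integrableOn_of_bounded (M := 1) (by simp) ?_ ?_
  · exact (E_cont.measurable.comp hg).aestronglyMeasurable
  · exact Filter.Eventually.of_forall fun t => (E_norm _).le

/-- weighted sums of a function along the orbit -/
noncomputable def UF (a s : ℝ) (w : ℝ → ℝ) : ℕ → ℝ → ℝ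
  | 0, _ => 0
  | m + 1, t => UF a s w m t / 2 + w (X a s (m + 1) t)

/-- the same with cutoffs -/
noncomputable def VF (a l s : ℝ) (w : ℝ → ℝ) : ℕ → ℝ → ℝ
  | 0, _ => 0
  | m + 1, t => VF a l s w m t / 2 + chi a l s m t * w (X a s (m + 1) t)

theorem UF_nonneg (a s : ℝ) {w : ℝ → ℝ} (hw : ∀ x, 0 ≤ w x) (m : ℕ) (t : ℝ) : 0 ≤ UF a s w m t := by
  induction m with
  | zero => exact le_rfl
  | succ m ih =>
    show 0 ≤ UF a s w m t / 2 + w (X a s (m + 1) t)
    have := hw (X a s (m + 1) t)
    positivity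

theorem VF_nonneg (a l s : ℝ) {w : ℝ → ℝ} (hw : ∀ x, 0 ≤ w x) (m : ℕ) (t : ℝ) :
    0 ≤ VF a l s w m t := by
  induction m with
  | zero => exact le_rfl
  | succ m ih =>
    show 0 ≤ VF a l s w m t / 2 + chi a l s m t * w (X a s (m + 1) t)
    have := hw (X a s (m + 1) t)
    have := (chi_mem a l s m t).1
    positivity

theorem VF_cont (a l s : ℝ) {w : ℝ → ℝ} (hw : Continuous w) (m : ℕ) :
    Continuous (VF a l s w m) := by
  induction m with
  | zero => exact continuous_const
  | succ m ih =>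
    exact (ih.div_const 2).add ((chi_cont a l s m).mul (hw.comp (Xt_cont a s (m + 1))))

theorem chi_UF (a l s : ℝ) {w : ℝ → ℝ} (hw : ∀ x, 0 ≤ w x) (m : ℕ) (t : ℝ) :
    chi a l s m t * UF a s w m t ≤ VF a l s w m t := by
  induction m with
  | zero => simp [UF, VF]
  | succ m ih =>
    show chi a l s (m + 1) t * (UF a s w m t / 2 + w (X a s (m + 1) t)) ≤
      VF a l s w m t / 2 + chi a l s m t * w (X a s (m + 1) t)
    have h1 := chi_succ_le a l s m t
    have h2 := UF_nonneg a s hw m t
    have h3 := hw (X a s (m + 1) t)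
    have h4 := mul_le_mul_of_nonneg_right h1 h2
    have h5 := mul_le_mul_of_nonneg_right h1 h3
    nlinarith

theorem Ph'_le_UF {a l s : ℝ} (hl : 16 ≤ l) {φ' w : ℝ → ℝ} (hw : ∀ x, |φ' x| ≤ w x) {m : ℕ}
    {t : ℝ} (hg : Good a l s m t) : |Ph' a s φ' m t| ≤ UF a s w m t * |D a s m t| := by
  have hw0 : ∀ x, 0 ≤ w x := fun x => (abs_nonneg _).trans (hw x)
  induction m with
  | zero => simp [Ph', UF]
  | succ m ih =>
    have h1 := ih (hg.mono (Nat.le_succ m))
    have h2 := (growth hl hg m (Nat.le_succ m)).1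
    have h3 := UF_nonneg a s hw0 m t
    show |Ph' a s φ' m t + φ' (X a s (m + 1) t) * D a s (m + 1) t| ≤
      (UF a s w m t / 2 + w (X a s (m + 1) t)) * |D a s (m + 1) t|
    refine (abs_add_le _ _).trans ?_
    rw [abs_mul, add_mul]
    apply add_le_add
    · refine h1.trans ?_
      have h4 : |D a s m t| ≤ |D a s (m + 1) t| / 2 := by
        have := abs_nonneg (D a s m t)
        nlinarith
      calc UF a s w m t * |D a s m t| ≤ UF a s w m t * (|D a s (m + 1) t| / 2) :=
            mul_le_mul_of_nonneg_left h4 h3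
        _ = _ := by ring
    · exact mul_le_mul_of_nonneg_right (hw _) (abs_nonneg _)

theorem VF_int {a l : ℝ} (hl : l0 ≤ l) (hla : l ≤ |a|) (s : ℝ) {w : ℝ → ℝ} (hwc : Continuous w)
    (hwp : Periodic w 1) (hw0 : ∀ x, 0 ≤ w x) {V : ℝ} (hV : ∫ x in (0:ℝ)..1, w x ≤ V) (m : ℕ) :
    ∫ t in (0:ℝ)..1, VF a l s w m t ≤ 4 * V := by
  have hV0 : 0 ≤ V :=
    (intervalIntegral.integral_nonneg zero_le_one fun x _ => hw0 x).trans hV
  induction m with
  | zero =>
    show ∫ t in (0:ℝ)..1, (0:ℝ) ≤ 4 * V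
    simp only [intervalIntegral.integral_zero]
    positivity
  | succ k h1 =>
    have h2 := dens hl hla s k hwc hwp hw0
    have h4 : ∫ t in (0:ℝ)..1, VF a l s w (k + 1) t = (∫ t in (0:ℝ)..1, VF a l s w k t) / 2 +
        ∫ t in (0:ℝ)..1, chi a l s k t * w (X a s (k + 1) t) := by
      rw [← intervalIntegral.integral_div, ← intervalIntegral.integral_add]
      · rfl
      · exact ((VF_cont a l s hwc k).div_const 2).intervalIntegrable _ _
      · exact ((chi_cont a l s k).mul (hwc.comp (Xt_cont a s (k + 1)))).intervalIntegrable _ _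
    rw [h4]
    linarith

/-- primitives -/
theorem prim' {g : ℝ → ℝ} (hg : Continuous g) (hp : Periodic g 1)
    (h0 : ∫ x in (0:ℝ)..1, g x = 0) {A : ℝ} (hA : ∫ x in (0:ℝ)..1, |g x| ≤ A) :
    ∃ G : ℝ → ℝ, (∀ u, HasDerivAt G (g u) u) ∧ Periodic G 1 ∧ ∀ u, |G u| ≤ A := by
  have hper : Periodic (fun u => ∫ x in (0:ℝ)..u, g x) 1 := by
    intro u
    simp only
    have h1 : ∫ x in (0:ℝ)..(u + 1), g x = (∫ x in (0:ℝ)..u, g x) + ∫ x in u..(u + 1), g x :=
      (intervalIntegral.integral_add_adjacent_intervals (hg.intervalIntegrable _ _)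
        (hg.intervalIntegrable _ _)).symm
    have h2 := hp.intervalIntegral_add_eq u 0
    rw [zero_add, h0] at h2
    rw [h1, h2, add_zero]
  refine ⟨fun u => ∫ x in (0:ℝ)..u, g x, ?_, hper, ?_⟩
  · intro u
    exact intervalIntegral.integral_hasDerivAt_right (hg.intervalIntegrable _ _)
      (hg.stronglyMeasurableAtFilter _ _) hg.continuousAt
  · intro u
    obtain ⟨y, hy, hy2⟩ := hper.exists_mem_Ico₀ one_pos u
    show |∫ x in (0:ℝ)..u, g x| ≤ A
    have hy2 : ∫ x in (0:ℝ)..u, g x = ∫ x in (0:ℝ)..y, g x := hy2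
    rw [hy2]
    have h3 := intervalIntegral.abs_integral_le_integral_abs (f := g) (μ := volume) hy.1
    have h4 := intervalIntegral.integral_add_adjacent_intervals
      (hg.abs.intervalIntegrable (μ := volume) 0 y) (hg.abs.intervalIntegrable y 1)
    have h5 : 0 ≤ ∫ x in y..1, |g x| :=
      intervalIntegral.integral_nonneg hy.2.le fun x _ => abs_nonneg _
    have h6 : ∫ x in (0:ℝ)..y, |g x| ≤ ∫ x in (0:ℝ)..1, |g x| := by linarith
    exact (h3.trans h6).trans hA

/-- one step, with integral norms -/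
theorem step_real' {a l : ℝ} (hl' : l0 ≤ l) (hla : l ≤ |a|) (s : ℝ) (m : ℕ) {φ φ' : ℝ → ℝ}
    (d : ∀ x, HasDerivAt φ (φ' x) x) (c : Continuous φ') (p : Periodic φ 1) (p' : Periodic φ' 1)
    {V : ℝ} (hV : ∫ x in (0:ℝ)..1, |φ' x| ≤ V) {g : ℝ → ℝ} (hg : Continuous g)
    (pg : Periodic g 1) (g0 : ∫ x in (0:ℝ)..1, g x = 0) {A : ℝ}
    (hA : ∫ x in (0:ℝ)..1, |g x| ≤ A) (θ : ℝ) :
    |∫ t in (0:ℝ)..1, chi a l s m t * cos (Ph a s φ m t + θ) * g (X a s (m + 1) t)| ≤
      A * ((l0 + 8 * V) / l) := by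
  have hl : 16 ≤ l := l0_ge.trans hl'
  have hl0 : 0 < l := by linarith
  have hK := KK_one
  have hA0 : 0 ≤ A :=
    (intervalIntegral.integral_nonneg zero_le_one fun x _ => abs_nonneg _).trans hA
  obtain ⟨G, hG, hGp, hG1⟩ := prim' hg pg g0 hA
  set P : ℝ → ℝ := fun t => cos (Ph a s φ m t + θ) with hP
  set P' : ℝ → ℝ := fun t => -sin (Ph a s φ m t + θ) * Ph' a s φ' m t with hP'
  have hφc : Continuous φ := continuous_iff_continuousAt.2 fun t => (d t).continuousAt
  have hPhc := Ph_cont a s hφc m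
  have hPhc' := Ph'_cont a s c m
  have hPd : ∀ t, HasDerivAt P (P' t) t := by
    intro t
    exact ((Ph_hasDeriv a s d m t).add_const θ).cos
  have hPc : Continuous P := by rw [hP]; fun_prop
  have hP'c : Continuous P' := by rw [hP']; fun_prop
  have hP1 : ∀ t, |P t| ≤ 1 := fun t => abs_cos_le_one _
  have hPp : ∀ t, P (t + 1) = P t := by
    intro t
    rw [hP]
    simp only
    rw [Ph_period a s p]
  set w : ℝ → ℝ := fun x => |φ' x| with hw
  have hwc : Continuous w := c.abs
  have hwp : Periodic w 1 := fun x => by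
    show |φ' (x + 1)| = |φ' x|
    rw [p' x]
  have hw0 : ∀ x, 0 ≤ w x := fun x => abs_nonneg _
  have hVFc := VF_cont a l s hwc m
  have hP'b : ∀ t, chi a l s m t * |P' t| / |D a s (m + 1) t| ≤ 2 / l * VF a l s w m t := by
    intro t
    have hVF0 := VF_nonneg a l s hw0 m t
    by_cases hg' : Good a l s m t
    · have hD0 : 0 < |D a s (m + 1) t| := abs_pos.2 (D_ne hl hg')
      have h1 := (growth hl hg' m le_rfl).1
      have h2 := Ph'_le_UF hl (φ' := φ') (w := w) (fun x => le_rfl) hg'
      have h4 := chi_mem a l s m t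
      have h5 : |P' t| ≤ UF a s w m t * |D a s m t| := by
        rw [hP']
        simp only
        rw [abs_mul, abs_neg]
        calc |sin (Ph a s φ m t + θ)| * |Ph' a s φ' m t| ≤ 1 * (UF a s w m t * |D a s m t|) :=
              mul_le_mul (abs_sin_le_one _) h2 (abs_nonneg _) zero_le_one
          _ = _ := one_mul _
      have h6 : |D a s m t| ≤ 2 / l * |D a s (m + 1) t| := by
        rw [div_mul_eq_mul_div, le_div_iff₀ hl0]
        linarith
      have h7 := UF_nonneg a s hw0 m t
      rw [div_le_iff₀ hD0]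
      calc chi a l s m t * |P' t| ≤ chi a l s m t * (UF a s w m t * (2 / l * |D a s (m + 1) t|)) := by
            apply mul_le_mul_of_nonneg_left _ h4.1
            exact h5.trans (mul_le_mul_of_nonneg_left h6 h7)
        _ = chi a l s m t * UF a s w m t * (2 / l * |D a s (m + 1) t|) := by ring
        _ ≤ VF a l s w m t * (2 / l * |D a s (m + 1) t|) := by
            apply mul_le_mul_of_nonneg_right (chi_UF a l s hw0 m t) (by positivity)
        _ = _ := by ring
    · rw [(chi_bad hl0 hg').1, zero_mul, zero_div]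
      positivity
  have hVc := VV_cont a hl0 s m
  have hibp := ibp2 (a := a) (s := s) hl m hPd hP'c hPp
    (bd := fun t => 104 * KK * π ^ 2 * VV a l s m t + 2 / l * VF a l s w m t) (by fun_prop)
    (fun t => (W'_le2 hl m (hP1 t)).trans (add_le_add le_rfl (hP'b t))) hG hg (fun u n => by
      have := hGp.nat_mul n u
      rwa [mul_one] at this) hG1
  rw [intervalIntegral.integral_add (f := fun t => 104 * KK * π ^ 2 * VV a l s m t)
    (g := fun t => 2 / l * VF a l s w m t) ((continuous_const.mul hVc).intervalIntegrable _ _)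
    ((continuous_const.mul hVFc).intervalIntegrable _ _),
    intervalIntegral.integral_const_mul, intervalIntegral.integral_const_mul] at hibp
  have hVV := mul_le_mul_of_nonneg_left (VV_int hl' hla s m)
    (by positivity : 0 ≤ 104 * KK * π ^ 2)
  have hVF := mul_le_mul_of_nonneg_left (VF_int hl' hla s hwc hwp hw0 hV m)
    (by positivity : 0 ≤ 2 / l)
  refine hibp.trans ?_
  apply mul_le_mul_of_nonneg_left _ hA0
  unfold l0
  rw [add_div]
  have e1 : 104 * KK * π ^ 2 * (1 / l) = 104 * KK * π ^ 2 / l := by ring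
  have e2 : 2 / l * (4 * V) = 8 * V / l := by ring
  rw [e1] at hVV
  rw [e2] at hVF
  linarith

/-- deviation from the mean -/
theorem dev_le {h : ℝ → ℝ} (hc : Continuous h) (c0 : ℝ) {S : ℝ}
    (hS : ∫ x in (0:ℝ)..1, |h x - c0| ≤ S) :
    ∫ x in (0:ℝ)..1, |h x - ∫ y in (0:ℝ)..1, h y| ≤ 2 * S := by
  set M := ∫ y in (0:ℝ)..1, h y with hM
  have h1 : |M - c0| ≤ S := by
    have e : M - c0 = ∫ x in (0:ℝ)..1, (h x - c0) := by
      rw [intervalIntegral.integral_sub (hc.intervalIntegrable _ _) (by simp),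
        intervalIntegral.integral_const]
      simp [hM]
    rw [e]
    exact (intervalIntegral.abs_integral_le_integral_abs zero_le_one).trans hS
  calc ∫ x in (0:ℝ)..1, |h x - M| ≤ ∫ x in (0:ℝ)..1, (|h x - c0| + S) := by
        apply intervalIntegral.integral_mono_on zero_le_one
          (Continuous.intervalIntegrable (by fun_prop) _ _)
          (Continuous.intervalIntegrable (by fun_prop) _ _)
        intro x _
        have : |h x - M| ≤ |h x - c0| + |M - c0| := by
          rw [abs_sub_comm M c0]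
          calc |h x - M| = |(h x - c0) + (c0 - M)| := by ring_nf
            _ ≤ _ := abs_add_le _ _
        linarith
    _ = (∫ x in (0:ℝ)..1, |h x - c0|) + S := by
        rw [intervalIntegral.integral_add (Continuous.intervalIntegrable (by fun_prop) _ _)
          (by simp), intervalIntegral.integral_const]
        simp
    _ ≤ _ := by linarith

/-- one step, complex form -/
theorem step_c' {a l : ℝ} (hl' : l0 ≤ l) (hla : l ≤ |a|) (s : ℝ) (m : ℕ) {φ φ' : ℝ → ℝ}
    (d : ∀ x, HasDerivAt φ (φ' x) x) (c : Continuous φ') (p : Periodic φ 1) (p' : Periodic φ' 1)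
    {V : ℝ} (hV : ∫ x in (0:ℝ)..1, |φ' x| ≤ V) {S : ℝ} (hS : ∫ x in (0:ℝ)..1, |φ x| ≤ S) :
    ‖∫ t in (0:ℝ)..1, (chi a l s m t : ℂ) * E (Ph a s φ m t) * (E (φ (X a s (m + 1) t)) - Lam φ)‖ ≤
      4 * (2 * S * ((l0 + 8 * V) / l)) := by
  have hφc : Continuous φ := continuous_iff_continuousAt.2 fun t => (d t).continuousAt
  have hPc := Ph_cont a s hφc m
  have hcc := chi_cont a l s m
  have hXc := Xt_cont a s (m + 1)
  set c1 : ℝ := ∫ x in (0:ℝ)..1, cos (φ x) with hc1
  set c2 : ℝ := ∫ x in (0:ℝ)..1, sin (φ x) with hc2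
  set g1 : ℝ → ℝ := fun x => cos (φ x) - c1 with hg1
  set g2 : ℝ → ℝ := fun x => sin (φ x) - c2 with hg2
  have g1c : Continuous g1 := by rw [hg1]; fun_prop
  have g2c : Continuous g2 := by rw [hg2]; fun_prop
  have g1p : Periodic g1 1 := fun x => by
    show cos (φ (x + 1)) - c1 = cos (φ x) - c1
    rw [p x]
  have g2p : Periodic g2 1 := fun x => by
    show sin (φ (x + 1)) - c2 = sin (φ x) - c2
    rw [p x]
  have g1z : ∫ x in (0:ℝ)..1, g1 x = 0 := by
    rw [hg1, intervalIntegral.integral_sub (Continuous.intervalIntegrable (by fun_prop) _ _)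
      (by simp), intervalIntegral.integral_const, ← hc1]
    simp
  have g2z : ∫ x in (0:ℝ)..1, g2 x = 0 := by
    rw [hg2, intervalIntegral.integral_sub (Continuous.intervalIntegrable (by fun_prop) _ _)
      (by simp), intervalIntegral.integral_const, ← hc2]
    simp
  have g1A : ∫ x in (0:ℝ)..1, |g1 x| ≤ 2 * S := by
    apply dev_le (h := fun x => cos (φ x)) (by fun_prop) 1
    refine le_trans ?_ hS
    apply intervalIntegral.integral_mono_on zero_le_one
      (Continuous.intervalIntegrable (by fun_prop) _ _)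
      (Continuous.intervalIntegrable (by fun_prop) _ _)
    intro x _
    have := cos_lip (φ x) 0
    rwa [cos_zero, sub_zero] at this
  have g2A : ∫ x in (0:ℝ)..1, |g2 x| ≤ 2 * S := by
    apply dev_le (h := fun x => sin (φ x)) (by fun_prop) 0
    refine le_trans ?_ hS
    apply intervalIntegral.integral_mono_on zero_le_one
      (Continuous.intervalIntegrable (by fun_prop) _ _)
      (Continuous.intervalIntegrable (by fun_prop) _ _)
    intro x _
    have := sin_lip (φ x) 0
    simpa using this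
  have b11 := step_real' hl' hla s m d c p p' hV g1c g1p g1z g1A 0
  have b12 := step_real' hl' hla s m d c p p' hV g2c g2p g2z g2A 0
  have b21 := step_real' hl' hla s m d c p p' hV g1c g1p g1z g1A (-(π / 2))
  have b22 := step_real' hl' hla s m d c p p' hV g2c g2p g2z g2A (-(π / 2))
  simp only [add_zero] at b11 b12
  have hsin : ∀ t, cos (Ph a s φ m t + -(π / 2)) = sin (Ph a s φ m t) := by
    intro t
    rw [← sub_eq_add_neg, cos_sub_pi_div_two]
  simp only [hsin] at b21 b22
  set R : ℝ := 2 * S * ((l0 + 8 * V) / l) with hR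
  have hint : ∀ t, (chi a l s m t : ℂ) * E (Ph a s φ m t) * (E (φ (X a s (m + 1) t)) - Lam φ) =
      ((chi a l s m t * cos (Ph a s φ m t) * g1 (X a s (m + 1) t) -
        chi a l s m t * sin (Ph a s φ m t) * g2 (X a s (m + 1) t) : ℝ) : ℂ) +
      ((chi a l s m t * cos (Ph a s φ m t) * g2 (X a s (m + 1) t) +
        chi a l s m t * sin (Ph a s φ m t) * g1 (X a s (m + 1) t) : ℝ) : ℂ) * Complex.I := by
    intro t
    rw [Lam_eq hφc, E_eq, E_eq, ← hc1, ← hc2]
    simp only [hg1, hg2]
    push_cast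
    ring_nf
    rw [Complex.I_sq]
    ring
  simp_rw [hint]
  have i11 : IntervalIntegrable (fun t => chi a l s m t * cos (Ph a s φ m t) *
      g1 (X a s (m + 1) t)) volume 0 1 := Continuous.intervalIntegrable (by fun_prop) _ _
  have i12 : IntervalIntegrable (fun t => chi a l s m t * cos (Ph a s φ m t) *
      g2 (X a s (m + 1) t)) volume 0 1 := Continuous.intervalIntegrable (by fun_prop) _ _
  have i21 : IntervalIntegrable (fun t => chi a l s m t * sin (Ph a s φ m t) *
      g1 (X a s (m + 1) t)) volume 0 1 := Continuous.intervalIntegrable (by fun_prop) _ _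
  have i22 : IntervalIntegrable (fun t => chi a l s m t * sin (Ph a s φ m t) *
      g2 (X a s (m + 1) t)) volume 0 1 := Continuous.intervalIntegrable (by fun_prop) _ _
  rw [intervalIntegral.integral_add
    (Continuous.intervalIntegrable (by fun_prop) _ _)
    (Continuous.intervalIntegrable (by fun_prop) _ _), intervalIntegral.integral_mul_const,
    intervalIntegral.integral_ofReal, intervalIntegral.integral_ofReal,
    intervalIntegral.integral_sub i11 i22, intervalIntegral.integral_add i12 i21]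
  refine (norm_add_le _ _).trans ?_
  rw [norm_mul, Complex.norm_I, mul_one, Complex.norm_real, Complex.norm_real, norm_eq_abs,
    norm_eq_abs]
  have q1 := abs_sub (∫ t in (0:ℝ)..1, chi a l s m t * cos (Ph a s φ m t) * g1 (X a s (m + 1) t))
    (∫ t in (0:ℝ)..1, chi a l s m t * sin (Ph a s φ m t) * g2 (X a s (m + 1) t))
  have q2 := abs_add_le (∫ t in (0:ℝ)..1, chi a l s m t * cos (Ph a s φ m t) * g2 (X a s (m + 1) t))
    (∫ t in (0:ℝ)..1, chi a l s m t * sin (Ph a s φ m t) * g1 (X a s (m + 1) t))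
  linarith

theorem rec_step' {a l : ℝ} (hl' : l0 ≤ l) (hla : l ≤ |a|) (s : ℝ) (m : ℕ) {φ φ' : ℝ → ℝ}
    (d : ∀ x, HasDerivAt φ (φ' x) x) (c : Continuous φ') (p : Periodic φ 1) (p' : Periodic φ' 1)
    {V : ℝ} (hV : ∫ x in (0:ℝ)..1, |φ' x| ≤ V) {S : ℝ} (hS : ∫ x in (0:ℝ)..1, |φ x| ≤ S) :
    ‖Zc a l s φ (m + 1) - Lam φ * Zc a l s φ m‖ ≤
      4 * (2 * S * ((l0 + 8 * V) / l)) + 2 * (l / |a|) := by
  have hφc : Continuous φ := continuous_iff_continuousAt.2 fun t => (d t).continuousAt
  have hPc := Ph_cont a s hφc m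
  have hcc := chi_cont a l s m
  have hXc := Xt_cont a s (m + 1)
  have hrc := rk_cont a l s (m + 1)
  have hEc := E_cont
  have e1 : Zc a l s φ (m + 1) - Lam φ * Zc a l s φ m =
      (∫ t in (0:ℝ)..1, (chi a l s m t : ℂ) * E (Ph a s φ m t) *
        (E (φ (X a s (m + 1) t)) - Lam φ)) -
      ∫ t in (0:ℝ)..1, ((chi a l s m t * (1 - rk a l s (m + 1) t) : ℝ) : ℂ) *
        (E (Ph a s φ m t) * E (φ (X a s (m + 1) t))) := by
    unfold Zc
    rw [← intervalIntegral.integral_const_mul, ← intervalIntegral.integral_sub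
      (Continuous.intervalIntegrable (by
        have h1 : Continuous (chi a l s (m + 1)) := chi_cont a l s (m + 1)
        have h2 := Ph_cont a s hφc (m + 1)
        fun_prop) _ _) (Continuous.intervalIntegrable (by fun_prop) _ _),
      ← intervalIntegral.integral_sub (Continuous.intervalIntegrable (by fun_prop) _ _)
        (Continuous.intervalIntegrable (by fun_prop) _ _)]
    apply intervalIntegral.integral_congr
    intro t _
    simp only
    have h1 : chi a l s (m + 1) t = chi a l s m t * rk a l s (m + 1) t := rfl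
    have h2 : Ph a s φ (m + 1) t = Ph a s φ m t + φ (X a s (m + 1) t) := rfl
    rw [h1, h2, E_add]
    push_cast
    ring
  rw [e1]
  refine (norm_sub_le _ _).trans (add_le_add (step_c' hl' hla s m d c p p' hV hS) ?_)
  refine le_trans ?_ (loss hl' hla s m)
  have h3 := intervalIntegral.norm_integral_le_abs_of_norm_le (a := 0) (b := 1) (μ := volume)
    (f := fun t => ((chi a l s m t * (1 - rk a l s (m + 1) t) : ℝ) : ℂ) *
        (E (Ph a s φ m t) * E (φ (X a s (m + 1) t))))
    (g := fun t => chi a l s m t * (1 - rk a l s (m + 1) t))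
    (Filter.Eventually.of_forall fun t => by
      have hr0 : 0 ≤ 1 - rk a l s (m + 1) t := sub_nonneg.2 (rho_le_one _)
      rw [norm_mul, norm_mul, E_norm, E_norm, mul_one, mul_one, Complex.norm_real, norm_eq_abs,
        abs_of_nonneg (mul_nonneg (chi_mem a l s m t).1 hr0)])
    (Continuous.intervalIntegrable (by fun_prop) _ _)
  refine h3.trans (le_of_eq (abs_of_nonneg ?_))
  exact intervalIntegral.integral_nonneg zero_le_one fun t _ =>
    mul_nonneg (chi_mem a l s m t).1 (sub_nonneg.2 (rho_le_one _))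

theorem Zc_pow' {a l : ℝ} (hl' : l0 ≤ l) (hla : l ≤ |a|) (s : ℝ) {φ φ' : ℝ → ℝ}
    (d : ∀ x, HasDerivAt φ (φ' x) x) (c : Continuous φ') (p : Periodic φ 1) (p' : Periodic φ' 1)
    {V : ℝ} (hV : ∫ x in (0:ℝ)..1, |φ' x| ≤ V) {S : ℝ} (hS : ∫ x in (0:ℝ)..1, |φ x| ≤ S) (n : ℕ) :
    ‖Zc a l s φ n - Lam φ ^ n‖ ≤ n * (4 * (2 * S * ((l0 + 8 * V) / l)) + 2 * (l / |a|)) := by
  induction n with
  | zero =>
    have : Zc a l s φ 0 = 1 := by
      unfold Zc
      simp [chi, Ph, E]
    rw [this]
    simp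
  | succ n ih =>
    have h1 := rec_step' hl' hla s n d c p p' hV hS
    have e1 : Zc a l s φ (n + 1) - Lam φ ^ (n + 1) =
        (Zc a l s φ (n + 1) - Lam φ * Zc a l s φ n) + Lam φ * (Zc a l s φ n - Lam φ ^ n) := by
      ring
    rw [e1]
    refine (norm_add_le _ _).trans ?_
    rw [norm_mul]
    have h2 : ‖Lam φ‖ * ‖Zc a l s φ n - Lam φ ^ n‖ ≤ 1 * ‖Zc a l s φ n - Lam φ ^ n‖ :=
      mul_le_mul_of_nonneg_right (Lam_norm φ) (norm_nonneg _)
    push_cast
    linarith

theorem chi_anti (a l s : ℝ) {j m : ℕ} (h : j ≤ m) (t : ℝ) : chi a l s m t ≤ chi a l s j t := by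
  induction h with
  | refl => exact le_rfl
  | step _ ih => exact (chi_succ_le a l s _ t).trans ih

/-- the product formula for functions which have a smooth approximation -/
theorem charfun {a l : ℝ} (h1 : l0 ≤ l) (h2 : l ≤ |a|) (s : ℝ)
    {f φ φ' g : ℝ → ℝ} (hfm : Measurable f) (d : ∀ x, HasDerivAt φ (φ' x) x) (c : Continuous φ')
    (p : Periodic φ 1) (p' : Periodic φ' 1) {V : ℝ} (hV : ∫ x in (0:ℝ)..1, |φ' x| ≤ V)
    {S : ℝ} (hS : ∫ x in (0:ℝ)..1, |φ x| ≤ S)
    (cg : Continuous g) (pg : Periodic g 1) (g0 : ∀ x, 0 ≤ g x)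
    {I : ℝ} (hI : ∫ x in (0:ℝ)..1, g x ≤ I)
    (hfg : ∀ x, |φ x - f x| ≤ g x) (n : ℕ) :
    ‖(∫ t in (0:ℝ)..1, E (∑ k ∈ Finset.range n, f (X a s (k + 1) t))) -
      (∫ x in (0:ℝ)..1, E (f x)) ^ n‖ ≤
      n * (8 * S * ((l0 + 8 * V) / l) + 4 * (l / |a|) + 3 * I) := by
  have hφc : Continuous φ := continuous_iff_continuousAt.2 fun t => (d t).continuousAt
  have hPc := Ph_cont a s hφc n
  have hcc := chi_cont a l s n
  have hEc := E_cont
  have hfm' : Measurable fun t => ∑ k ∈ Finset.range n, f (X a s (k + 1) t) :=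
    Finset.measurable_sum _ fun k _ => hfm.comp (Xt_cont a s (k + 1)).measurable
  have hP := Zc_pow' h1 h2 s d c p p' hV hS n
  have hPs : ∀ t, Ph a s φ n t = ∑ k ∈ Finset.range n, φ (X a s (k + 1) t) := by
    intro t
    have := Ph_sum a s φ 1 n t
    simpa using this
  have hgs : Continuous fun t => ∑ k ∈ Finset.range n, chi a l s k t * g (X a s (k + 1) t) :=
    continuous_finsetSum _ fun k _ => (chi_cont a l s k).mul (cg.comp (Xt_cont a s (k + 1)))
  -- first comparison
  have c1 : ‖(∫ t in (0:ℝ)..1, E (∑ k ∈ Finset.range n, f (X a s (k + 1) t))) -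
      Zc a l s φ n‖ ≤ n * (2 * (l / |a|)) + n * (2 * I) := by
    unfold Zc
    rw [← intervalIntegral.integral_sub (E_ii hfm')
      (Continuous.intervalIntegrable (by fun_prop) _ _)]
    have b1 : ‖∫ t in (0:ℝ)..1, (E (∑ k ∈ Finset.range n, f (X a s (k + 1) t)) -
        (chi a l s n t : ℂ) * E (Ph a s φ n t))‖ ≤
        ∫ t in (0:ℝ)..1, ((1 - chi a l s n t) +
          ∑ k ∈ Finset.range n, chi a l s k t * g (X a s (k + 1) t)) := by
      apply intervalIntegral.norm_integral_le_of_norm_le zero_le_one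
      · apply Filter.Eventually.of_forall
        intro t _
        have hc := chi_mem a l s n t
        have e : E (∑ k ∈ Finset.range n, f (X a s (k + 1) t)) -
            (chi a l s n t : ℂ) * E (Ph a s φ n t) =
            ((1 - chi a l s n t : ℝ) : ℂ) * E (∑ k ∈ Finset.range n, f (X a s (k + 1) t)) +
            ((chi a l s n t : ℝ) : ℂ) * (E (∑ k ∈ Finset.range n, f (X a s (k + 1) t)) -
              E (Ph a s φ n t)) := by
          push_cast
          ring
        rw [e]
        refine (norm_add_le _ _).trans ?_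
        rw [norm_mul, norm_mul, E_norm, mul_one, Complex.norm_real, Complex.norm_real,
          norm_eq_abs, norm_eq_abs, abs_of_nonneg (sub_nonneg.2 hc.2), abs_of_nonneg hc.1]
        apply add_le_add le_rfl
        calc chi a l s n t * ‖E (∑ k ∈ Finset.range n, f (X a s (k + 1) t)) - E (Ph a s φ n t)‖
            ≤ chi a l s n t * ∑ k ∈ Finset.range n, g (X a s (k + 1) t) := by
              apply mul_le_mul_of_nonneg_left _ hc.1
              refine (E_lip _ _).trans ?_
              rw [hPs, ← Finset.sum_sub_distrib]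
              refine (Finset.abs_sum_le_sum_abs _ _).trans ?_
              apply Finset.sum_le_sum
              intro k _
              rw [abs_sub_comm]
              exact hfg _
          _ = ∑ k ∈ Finset.range n, chi a l s n t * g (X a s (k + 1) t) := Finset.mul_sum _ _ _
          _ ≤ _ := Finset.sum_le_sum fun k hk =>
              mul_le_mul_of_nonneg_right (chi_anti a l s (Finset.mem_range.1 hk).le t) (g0 _)
      · exact Continuous.intervalIntegrable (by fun_prop) _ _
    refine b1.trans ?_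
    rw [intervalIntegral.integral_add (f := fun t => 1 - chi a l s n t)
      (Continuous.intervalIntegrable (by fun_prop) _ _) (hgs.intervalIntegrable _ _),
      intervalIntegral.integral_finsetSum
        (f := fun k t => chi a l s k t * g (X a s (k + 1) t))
      (fun k _ => ((chi_cont a l s k).mul (cg.comp (Xt_cont a s (k + 1)))).intervalIntegrable _ _)]
    apply add_le_add (chi_loss h1 h2 s n)
    calc ∑ k ∈ Finset.range n, ∫ t in (0:ℝ)..1, chi a l s k t * g (X a s (k + 1) t)
        ≤ ∑ k ∈ Finset.range n, 2 * I := by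
          apply Finset.sum_le_sum
          intro k _
          refine (dens h1 h2 s k cg pg g0).trans ?_
          linarith
      _ = _ := by
          rw [Finset.sum_const, Finset.card_range, nsmul_eq_mul]
  -- last comparison
  have c2 : ‖Lam φ ^ n - (∫ x in (0:ℝ)..1, E (f x)) ^ n‖ ≤ n * I := by
    have b0 : ‖∫ x in (0:ℝ)..1, E (f x)‖ ≤ 1 := by
      have := intervalIntegral.norm_integral_le_of_norm_le_const (a := 0) (b := 1)
        (f := fun x => E (f x)) (C := 1) (fun x _ => (E_norm _).le)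
      simpa using this
    refine (pow_diff (Lam_norm φ) b0 n).trans ?_
    apply mul_le_mul_of_nonneg_left _ (Nat.cast_nonneg n)
    unfold Lam
    rw [← intervalIntegral.integral_sub (E_ii hφc.measurable) (E_ii hfm)]
    refine le_trans ?_ hI
    apply intervalIntegral.norm_integral_le_of_norm_le zero_le_one
    · apply Filter.Eventually.of_forall
      intro x _
      exact (E_lip _ _).trans (hfg x)
    · exact cg.intervalIntegrable _ _
  have e : (∫ t in (0:ℝ)..1, E (∑ k ∈ Finset.range n, f (X a s (k + 1) t))) -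
      (∫ x in (0:ℝ)..1, E (f x)) ^ n =
      ((∫ t in (0:ℝ)..1, E (∑ k ∈ Finset.range n, f (X a s (k + 1) t))) - Zc a l s φ n) +
      (Zc a l s φ n - Lam φ ^ n) +
      (Lam φ ^ n - (∫ x in (0:ℝ)..1, E (f x)) ^ n) := by ring
  rw [e]
  refine (norm_add₃_le).trans ?_
  linarith

end Pool.Agent.R241.PV
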