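import Pool.Agent.R241.PV2

set_option autoImplicit false

/-!
# The characteristic function of the number of visits
-/

namespace Pool.Agent.R241.PV

open Real MeasureTheory Function
open Pool.Agent.TH705.SM

/-- the sum of the indicator functions -/
noncomputable def sind {r : ℕ} (c ρ : Fin r → ℝ) (x : ℝ) : ℝ := ∑ i, ind (c i) (ρ i) x

theorem sind_meas {r : ℕ} (c ρ : Fin r → ℝ) : Measurable (sind c ρ) :=
  Finset.measurable_sum _ fun i _ => ind_meas (c i) (ρ i)

theorem ind_ii (c ρ : ℝ) : IntervalIntegrable (ind c ρ) volume 0 1 := by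
  rw [intervalIntegrable_iff]
  refine Measure.integrableOn_of_bounded (M := 1) (by simp) ?_ ?_
  · exact (ind_meas c ρ).aestronglyMeasurable
  · refine Filter.Eventually.of_forall fun t => ?_
    rw [norm_eq_abs, abs_le]
    have := ind_mem c ρ t
    constructor <;> linarith

theorem sind_int {r : ℕ} {c ρ : Fin r → ℝ} (h0 : ∀ i, 0 ≤ ρ i) (h1 : ∀ i, ρ i ≤ 1 / 8) :
    ∫ x in (0:ℝ)..1, sind c ρ x = 2 * ∑ i, ρ i := by
  unfold sind
  rw [intervalIntegral.integral_finsetSum (f := fun i x => ind (c i) (ρ i) x)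
    (fun i _ => ind_ii _ _), Finset.mul_sum]
  exact Finset.sum_congr rfl fun i _ => ind_int (c i) (h0 i) (by linarith [h1 i])

theorem up_int {c ρ δ : ℝ} (h0 : 0 ≤ ρ) (hδ : 0 < δ) (h1 : ρ + δ ≤ 1 / 4) :
    ∫ x in (0:ℝ)..1, up c ρ δ x ≤ 2 * ρ + 4 * δ := by
  calc ∫ x in (0:ℝ)..1, up c ρ δ x ≤ ∫ x in (0:ℝ)..1, (ind c ρ x + tc c ρ δ x) := by
        apply intervalIntegral.integral_mono_on zero_le_one
          ((up_cont c ρ δ).intervalIntegrable _ _)
          ((ind_ii c ρ).add ((tc_cont c ρ δ).intervalIntegrable _ _))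
        intro x _
        have := (abs_le.1 (up_ind (c := c) h0 hδ h1 x)).2
        linarith
    _ = (∫ x in (0:ℝ)..1, ind c ρ x) + ∫ x in (0:ℝ)..1, tc c ρ δ x :=
        intervalIntegral.integral_add (ind_ii c ρ) ((tc_cont c ρ δ).intervalIntegrable _ _)
    _ ≤ _ := add_le_add (ind_int c h0 (by linarith)).le (tc_int c ρ hδ)

/-- the case of large parameters -/
theorem large {r : ℕ} {c ρ : Fin r → ℝ} (h0 : ∀ i, 0 ≤ ρ i) (h1 : ∀ i, ρ i ≤ 1 / 8)
    {q : ℝ} (hq : q = 2 * ∑ i, ρ i) (hq1 : q ≤ 1)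
    {a : ℝ} (hl : l0 ≤ |a|) (n : ℕ) (s : ℝ) {θ : ℝ} (hθ : |θ| ≤ 7) :
    ‖(∫ t in (0:ℝ)..1, E (θ * ∑ k ∈ Finset.range n, sind c ρ (X a s (k + 1) t))) -
      (∫ x in (0:ℝ)..1, E (θ * sind c ρ x)) ^ n‖ ≤
      ((56 + 224 * r) * (l0 + 112 * r * (KK * π ^ 2)) + 4 + 4 * l0 + 84 * r) *
        (n * (√(q / |a|) + 1 / |a|)) := by
  have h16 := l0_ge
  have hK := KK_one
  have hb16 : 16 ≤ |a| := h16.trans hl
  have hb0 : 0 < |a| := by linarith
  have hδ : 0 < 1 / |a| := by positivity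
  have hδ1 : 1 / |a| ≤ 1 / 8 := by
    apply one_div_le_one_div_of_le <;> linarith
  have hr0 : (0:ℝ) ≤ r := Nat.cast_nonneg r
  have hK2 : 0 ≤ KK * π ^ 2 := by positivity
  have hρδ : ∀ i, ρ i + 1 / |a| ≤ 1 / 4 := fun i => by linarith [h1 i]
  have hq0 : 0 ≤ q := by
    rw [hq]
    have := Finset.sum_nonneg fun i (_ : i ∈ Finset.univ) => h0 i
    positivity
  set x := √(q / |a|) with hx
  have hx0 : 0 ≤ x := Real.sqrt_nonneg _
  have hx2 : x ^ 2 = q / |a| := Real.sq_sqrt (by positivity)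
  have hx2' : x ^ 2 * |a| = q := by
    rw [hx2]
    field_simp
  have hx1 : x ≤ 1 := by
    have : x ^ 2 ≤ 1 := by
      rw [hx2, div_le_one hb0]
      linarith
    nlinarith
  set l := max l0 (x * |a|) with hl'
  have hl1 : l0 ≤ l := le_max_left _ _
  have hl2 : x * |a| ≤ l := le_max_right _ _
  have hl3 : l ≤ |a| := max_le hl (by nlinarith)
  have hl4 : l ≤ l0 + x * |a| := max_le (by nlinarith) (by linarith)
  have hlpos : 0 < l := by linarith
  have key := charfun (a := a) hl1 hl3 s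
    (f := fun x => θ * sind c ρ x) (φ := fun x => θ * ∑ i, up (c i) (ρ i) (1 / |a|) x)
    (φ' := fun x => θ * ∑ i, up' (c i) (ρ i) (1 / |a|) x)
    (g := fun x => |θ| * ∑ i, tc (c i) (ρ i) (1 / |a|) x)
    ((sind_meas c ρ).const_mul θ)
    (fun x => (HasDerivAt.fun_sum fun i _ => up_hasDeriv (c i) (ρ i) (1 / |a|) x).const_mul θ)
    (continuous_const.mul (continuous_finsetSum _ fun i _ => up'_cont (c i) (ρ i) (1 / |a|)))
    (fun x => by
      show θ * ∑ i, up (c i) (ρ i) (1 / |a|) (x + 1) = θ * ∑ i, up (c i) (ρ i) (1 / |a|) x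
      congr 1
      exact Finset.sum_congr rfl fun i _ => up_per _ _ _ x)
    (fun x => by
      show θ * ∑ i, up' (c i) (ρ i) (1 / |a|) (x + 1) = θ * ∑ i, up' (c i) (ρ i) (1 / |a|) x
      congr 1
      exact Finset.sum_congr rfl fun i _ => up'_per _ _ _ x)
    (V := 7 * (r * (2 * (KK * π ^ 2))))
    (by
      calc ∫ x in (0:ℝ)..1, |θ * ∑ i, up' (c i) (ρ i) (1 / |a|) x|
          ≤ ∫ x in (0:ℝ)..1, 7 * ∑ i, |up' (c i) (ρ i) (1 / |a|) x| := by
            apply intervalIntegral.integral_mono_on zero_le_one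
            · exact (continuous_const.mul (continuous_finsetSum _ fun i _ =>
                up'_cont (c i) (ρ i) (1 / |a|))).abs.intervalIntegrable _ _
            · exact (continuous_const.mul (continuous_finsetSum _ fun i _ =>
                (up'_cont (c i) (ρ i) (1 / |a|)).abs)).intervalIntegrable _ _
            · intro x _
              rw [abs_mul]
              exact mul_le_mul hθ (Finset.abs_sum_le_sum_abs _ _) (abs_nonneg _) (by norm_num)
        _ = 7 * ∑ i, ∫ x in (0:ℝ)..1, |up' (c i) (ρ i) (1 / |a|) x| := by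
            rw [intervalIntegral.integral_const_mul,
              intervalIntegral.integral_finsetSum (f := fun i x => |up' (c i) (ρ i) (1 / |a|) x|)
                (fun i _ => (up'_cont _ _ _).abs.intervalIntegrable _ _)]
        _ ≤ 7 * ∑ i : Fin r, 2 * (KK * π ^ 2) := by
            apply mul_le_mul_of_nonneg_left _ (by norm_num)
            exact Finset.sum_le_sum fun i _ => up'_int (h0 i) hδ (hρδ i)
        _ = _ := by rw [Finset.sum_const, Finset.card_univ, Fintype.card_fin, nsmul_eq_mul])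
    (S := 7 * (q + r * (4 * (1 / |a|))))
    (by
      calc ∫ x in (0:ℝ)..1, |θ * ∑ i, up (c i) (ρ i) (1 / |a|) x|
          ≤ ∫ x in (0:ℝ)..1, 7 * ∑ i, up (c i) (ρ i) (1 / |a|) x := by
            apply intervalIntegral.integral_mono_on zero_le_one
            · exact (continuous_const.mul (continuous_finsetSum _ fun i _ =>
                up_cont (c i) (ρ i) (1 / |a|))).abs.intervalIntegrable _ _
            · exact (continuous_const.mul (continuous_finsetSum _ fun i _ =>
                up_cont (c i) (ρ i) (1 / |a|))).intervalIntegrable _ _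
            · intro x _
              have h3 : 0 ≤ ∑ i, up (c i) (ρ i) (1 / |a|) x :=
                Finset.sum_nonneg fun i _ => (up_mem _ _ _ x).1
              rw [abs_mul, abs_of_nonneg h3]
              exact mul_le_mul_of_nonneg_right hθ h3
        _ = 7 * ∑ i, ∫ x in (0:ℝ)..1, up (c i) (ρ i) (1 / |a|) x := by
            rw [intervalIntegral.integral_const_mul,
              intervalIntegral.integral_finsetSum (f := fun i x => up (c i) (ρ i) (1 / |a|) x)
                (fun i _ => (up_cont _ _ _).intervalIntegrable _ _)]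
        _ ≤ 7 * ∑ i : Fin r, (2 * ρ i + 4 * (1 / |a|)) := by
            apply mul_le_mul_of_nonneg_left _ (by norm_num)
            exact Finset.sum_le_sum fun i _ => up_int (h0 i) hδ (hρδ i)
        _ = _ := by
            rw [Finset.sum_add_distrib, Finset.sum_const, Finset.card_univ, Fintype.card_fin,
              nsmul_eq_mul, ← Finset.mul_sum, ← hq])
    (continuous_const.mul (continuous_finsetSum _ fun i _ => tc_cont (c i) (ρ i) (1 / |a|)))
    (fun x => by
      show |θ| * ∑ i, tc (c i) (ρ i) (1 / |a|) (x + 1) = |θ| * ∑ i, tc (c i) (ρ i) (1 / |a|) x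
      congr 1
      exact Finset.sum_congr rfl fun i _ => tc_per _ _ _ x)
    (fun x => mul_nonneg (abs_nonneg _) (Finset.sum_nonneg fun i _ => (tc_mem _ _ _ x).1))
    (I := 7 * (r * (4 * (1 / |a|))))
    (by
      rw [intervalIntegral.integral_const_mul,
        intervalIntegral.integral_finsetSum (f := fun i x => tc (c i) (ρ i) (1 / |a|) x)
          (fun i _ => (tc_cont _ _ _).intervalIntegrable _ _)]
      apply mul_le_mul hθ _ (Finset.sum_nonneg fun i _ =>
        intervalIntegral.integral_nonneg zero_le_one fun x _ => (tc_mem _ _ _ x).1) (by norm_num)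
      calc ∑ i : Fin r, ∫ x in (0:ℝ)..1, tc (c i) (ρ i) (1 / |a|) x ≤ ∑ i : Fin r, 4 * (1 / |a|) :=
            Finset.sum_le_sum fun i _ => tc_int _ _ hδ
        _ = _ := by rw [Finset.sum_const, Finset.card_univ, Fintype.card_fin, nsmul_eq_mul])
    (fun x => by
      unfold sind
      rw [← mul_sub, abs_mul, ← Finset.sum_sub_distrib]
      apply mul_le_mul_of_nonneg_left _ (abs_nonneg _)
      refine (Finset.abs_sum_le_sum_abs _ _).trans ?_
      exact Finset.sum_le_sum fun i _ => up_ind (h0 i) hδ (hρδ i) x) n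
  have e : ∀ t, θ * ∑ k ∈ Finset.range n, sind c ρ (X a s (k + 1) t) =
      ∑ k ∈ Finset.range n, θ * sind c ρ (X a s (k + 1) t) := fun t => Finset.mul_sum _ _ _
  simp only [e]
  refine key.trans ?_
  have hn0 : (0:ℝ) ≤ n := Nat.cast_nonneg n
  rw [mul_left_comm _ (n:ℝ) (x + 1 / |a|)]
  apply mul_le_mul_of_nonneg_left _ hn0
  set K1 := l0 + 112 * r * (KK * π ^ 2) with hK1
  have e1 : l0 + 8 * (7 * (r * (2 * (KK * π ^ 2)))) = K1 := by
    rw [hK1]
    ring
  have hK10 : 0 ≤ K1 := by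
    have : 0 ≤ 112 * r * (KK * π ^ 2) := by positivity
    linarith
  rw [e1]
  set y := 1 / |a| with hy
  have hy0 : 0 < y := hδ
  have t1 : q / l ≤ x := by
    rw [div_le_iff₀ hlpos]
    calc q = x * (x * |a|) := by rw [← hx2']; ring
      _ ≤ x * l := mul_le_mul_of_nonneg_left hl2 hx0
  have t2 : y / l ≤ y := div_le_self hy0.le (by linarith)
  have t3 : l / |a| ≤ l0 * y + x := by
    rw [div_le_iff₀ hb0]
    have : y * |a| = 1 := by
      rw [hy]
      field_simp
    calc l ≤ l0 + x * |a| := hl4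
      _ = (l0 * y + x) * |a| := by rw [add_mul, mul_assoc, this, mul_one]
  have u1 : 8 * (7 * (q + r * (4 * y))) * (K1 / l) =
      56 * K1 * (q / l) + 224 * r * K1 * (y / l) := by
    field_simp
    ring
  rw [u1]
  have v1 : 56 * K1 * (q / l) ≤ 56 * K1 * x := by gcongr
  have v2 : 224 * r * K1 * (y / l) ≤ 224 * r * K1 * y := by gcongr
  have v3 : 0 ≤ 56 * K1 * y := by positivity
  have v4 : 0 ≤ 224 * r * K1 * x := by positivity
  have v5 : 0 ≤ 84 * r * x := by positivity
  have v6 : 0 ≤ l0 * x := by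
    apply mul_nonneg _ hx0
    linarith
  nlinarith

theorem E_mul_nat (x : ℝ) (k : ℕ) : E (x * k) = E x ^ k := by
  induction k with
  | zero => simp [E]
  | succ k ih =>
    push_cast
    rw [mul_add, mul_one, E_add, ih, pow_succ]

theorem norm_pow_int_le (f : ℝ → ℝ) (n : ℕ) : ‖(∫ x in (0:ℝ)..1, E (f x)) ^ n‖ ≤ 1 := by
  rw [norm_pow]
  apply pow_le_one₀ (norm_nonneg _)
  have := intervalIntegral.norm_integral_le_of_norm_le_const (a := 0) (b := 1)
    (f := fun x => E (f x)) (C := 1) (fun x _ => (E_norm _).le)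
  simpa using this

/-- all parameters -/
theorem all (r : ℕ) : ∃ C : ℝ, 0 < C ∧ ∀ c ρ : Fin r → ℝ, (∀ i, 0 ≤ ρ i) → (∀ i, ρ i ≤ 1 / 8) →
    2 * ∑ i, ρ i ≤ 1 → ∀ a : ℝ, a ≠ 0 → ∀ (n : ℕ) (s θ : ℝ), |θ| ≤ 7 →
    ‖(∫ t in (0:ℝ)..1, E (θ * ∑ k ∈ Finset.range n, sind c ρ (X a s (k + 1) t))) -
      (∫ x in (0:ℝ)..1, E (θ * sind c ρ x)) ^ n‖ ≤
        C * (n * (√(2 * (∑ i, ρ i) / |a|) + 1 / |a|)) := by
  have h16 := l0_ge
  have hK := KK_one
  have hr0 : (0:ℝ) ≤ r := Nat.cast_nonneg r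
  have hl0 : 0 < l0 := by linarith
  set C1 := (56 + 224 * r) * (l0 + 112 * r * (KK * π ^ 2)) + 4 + 4 * l0 + 84 * r with hC1
  have hC1p : 4 ≤ C1 := by
    have : 0 ≤ (56 + 224 * r) * (l0 + 112 * r * (KK * π ^ 2)) + 4 * l0 + 84 * r := by positivity
    linarith
  refine ⟨C1 + 2 * l0, by linarith, ?_⟩
  intro c ρ h0 h1 hq a ha n s θ hθ
  have ha0 : 0 < |a| := abs_pos.2 ha
  have hn0 : (0:ℝ) ≤ n := Nat.cast_nonneg n
  have hT : 0 ≤ (n:ℝ) * (√(2 * (∑ i, ρ i) / |a|) + 1 / |a|) := by positivity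
  by_cases hgood : l0 ≤ |a|
  · refine (large h0 h1 rfl hq hgood n s hθ).trans ?_
    apply mul_le_mul_of_nonneg_right _ hT
    linarith
  push Not at hgood
  rcases Nat.eq_zero_or_pos n with hn | hn
  · subst hn
    simp [E]
  have hn1 : (1:ℝ) ≤ n := by exact_mod_cast hn
  have htriv : ‖(∫ t in (0:ℝ)..1, E (θ * ∑ k ∈ Finset.range n, sind c ρ (X a s (k + 1) t))) -
      (∫ x in (0:ℝ)..1, E (θ * sind c ρ x)) ^ n‖ ≤ 2 := by
    refine (norm_sub_le _ _).trans ?_
    have b1 := norm_pow_int_le (fun x => θ * sind c ρ x) n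
    have b2 := norm_pow_int_le (fun t => θ * ∑ k ∈ Finset.range n, sind c ρ (X a s (k + 1) t)) 1
    rw [pow_one] at b2
    linarith
  refine htriv.trans ?_
  have h3 : 1 / l0 ≤ (n:ℝ) * (√(2 * (∑ i, ρ i) / |a|) + 1 / |a|) := by
    have h4 : 1 / l0 ≤ 1 / |a| := one_div_le_one_div_of_le ha0 hgood.le
    have h5 : 0 ≤ √(2 * (∑ i, ρ i) / |a|) := Real.sqrt_nonneg _
    have h6 : 0 < 1 / |a| := by positivity
    nlinarith
  calc (2:ℝ) = 2 * l0 * (1 / l0) := by field_simp
    _ ≤ 2 * l0 * (n * (√(2 * (∑ i, ρ i) / |a|) + 1 / |a|)) := by gcongr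
    _ ≤ _ := by
      apply mul_le_mul_of_nonneg_right _ hT
      linarith

end Pool.Agent.R241.PV
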