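import Pool.Agent.R241.PV3

set_option autoImplicit false

/-!
# The law of the number of visits
-/

namespace Pool.Agent.R241.PV

open Real MeasureTheory Function
open Pool.Agent.TH705.SM

theorem E_int (k : ℤ) : E (2 * π * k) = 1 := by
  unfold E
  rw [Complex.exp_eq_one_iff]
  exact ⟨k, by push_cast; ring⟩

theorem E_ne {k : ℤ} {M : ℕ} (hM : 0 < M) (hk : k ≠ 0) (hkM : |k| < M) :
    E (2 * π * (k / M)) ≠ 1 := by
  intro h
  unfold E at h
  rw [Complex.exp_eq_one_iff] at h
  obtain ⟨j, hj⟩ := h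
  have h1 : (2 * π * ((k:ℝ) / M) : ℝ) = j * (2 * π) := by
    have h2 : (((2 * π * ((k:ℝ) / M) : ℝ) : ℂ)) * Complex.I = ((j * (2 * π) : ℝ) : ℂ) * Complex.I := by
      rw [hj]
      push_cast
      ring
    have h3 := mul_right_cancel₀ Complex.I_ne_zero h2
    exact_mod_cast h3
  have hM' : (M:ℝ) ≠ 0 := by positivity
  have h2 : (k:ℝ) = j * M := by
    have hpi := pi_ne_zero
    field_simp at h1
    linarith
  have h3 : k = j * M := by exact_mod_cast h2
  have hj0 : j ≠ 0 := by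
    rintro rfl
    apply hk
    rw [h3, zero_mul]
  rw [h3, abs_mul] at hkM
  have h4 : 1 ≤ |j| := Int.one_le_abs hj0
  have h5 : |(M:ℤ)| = M := abs_of_nonneg (by positivity)
  rw [h5] at hkM
  have h6 : (0:ℤ) < M := by exact_mod_cast hM
  nlinarith

/-- sums over the roots of unity -/
theorem sum_roots {k : ℤ} {M : ℕ} (hM : 0 < M) (hk : k ≠ 0) (hkM : |k| < M) :
    ∑ u ∈ Finset.range M, E (2 * π * (k / M) * u) = 0 := by
  have h1 : ∀ u ∈ Finset.range M, E (2 * π * (k / M) * u) = E (2 * π * (k / M)) ^ u :=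
    fun u _ => E_mul_nat _ _
  rw [Finset.sum_congr rfl h1]
  have h2 := mul_neg_geom_sum (E (2 * π * (k / M))) M
  have h3 : E (2 * π * (k / M)) ^ M = 1 := by
    rw [← E_mul_nat]
    have hM' : (M:ℝ) ≠ 0 := by positivity
    rw [show 2 * π * ((k:ℝ) / M) * M = 2 * π * k by field_simp]
    exact E_int k
  rw [h3, sub_self] at h2
  exact (mul_eq_zero.1 h2).resolve_left (sub_ne_zero.2 (E_ne hM hk hkM).symm)

/-- the coefficients of a trigonometric polynomial are bounded by its supremum -/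
theorem coef {n : ℕ} (d : ℕ → ℂ) {ε : ℝ}
    (H : ∀ θ : ℝ, |θ| ≤ 7 → ‖∑ j ∈ Finset.range (n + 1), d j * E θ ^ j‖ ≤ ε) {m : ℕ}
    (hm : m ≤ n) : ‖d m‖ ≤ ε := by
  set M := n + 1 with hM
  have hM0 : 0 < M := Nat.succ_pos n
  have hMr : (0:ℝ) < M := by exact_mod_cast hM0
  set θ : ℕ → ℝ := fun u => 2 * π * (u / M) with hθ
  have hθ7 : ∀ u ∈ Finset.range M, |θ u| ≤ 7 := by
    intro u hu
    have hu' : (u:ℝ) ≤ M := by exact_mod_cast (Finset.mem_range.1 hu).le
    have h1 : (u:ℝ) / M ≤ 1 := by rwa [div_le_one hMr]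
    have h2 : 0 ≤ (u:ℝ) / M := by positivity
    rw [hθ]
    simp only
    rw [abs_of_nonneg (by positivity)]
    have := pi_lt_d2
    nlinarith [pi_pos]
  have e1 : ∑ u ∈ Finset.range M, E (-(m * θ u)) * ∑ j ∈ Finset.range M, d j * E (θ u) ^ j =
      M * d m := by
    simp_rw [Finset.mul_sum]
    rw [Finset.sum_comm]
    have h1 : ∀ j ∈ Finset.range M, ∑ u ∈ Finset.range M, E (-(m * θ u)) * (d j * E (θ u) ^ j) =
        if j = m then M * d m else 0 := by
      intro j hj
      have h2 : ∀ u ∈ Finset.range M, E (-(m * θ u)) * (d j * E (θ u) ^ j) =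
          d j * E (2 * π * ((((j:ℤ) - m : ℤ) : ℝ) / M) * u) := by
        intro u _
        rw [← E_mul_nat, mul_left_comm, ← E_add]
        congr 2
        rw [hθ]
        push_cast
        ring
      rw [Finset.sum_congr rfl h2, ← Finset.mul_sum]
      by_cases hjm : j = m
      · rw [if_pos hjm, hjm]
        have : ∀ u ∈ Finset.range M, E (2 * π * ((((m:ℤ) - m : ℤ) : ℝ) / M) * u) = 1 := by
          intro u _
          simp [E]
        rw [Finset.sum_congr rfl this]
        simp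
        ring
      · rw [if_neg hjm, sum_roots hM0, mul_zero]
        · intro h
          apply hjm
          have : (j:ℤ) = m := by linarith
          exact_mod_cast this
        · have hj' := Finset.mem_range.1 hj
          rw [abs_lt]
          constructor <;> omega
    rw [Finset.sum_congr rfl h1, Finset.sum_ite_eq' (Finset.range M) m]
    rw [if_pos (Finset.mem_range.2 (by omega))]
  have e2 : ‖(M:ℂ) * d m‖ ≤ M * ε := by
    rw [← e1]
    refine (norm_sum_le _ _).trans ?_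
    calc ∑ u ∈ Finset.range M, ‖E (-(m * θ u)) * ∑ j ∈ Finset.range M, d j * E (θ u) ^ j‖
        ≤ ∑ u ∈ Finset.range M, ε := by
          apply Finset.sum_le_sum
          intro u hu
          rw [norm_mul, E_norm, one_mul]
          exact H (θ u) (hθ7 u hu)
      _ = _ := by rw [Finset.sum_const, Finset.card_range, nsmul_eq_mul]
  rw [norm_mul, Complex.norm_natCast] at e2
  exact le_of_mul_le_mul_left e2 hMr

/-- the characteristic function of a bounded integer valued function -/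
theorem int_cnt {N : ℝ → ℕ} (hN : Measurable N) {n : ℕ} (hn : ∀ t, N t ≤ n) (θ : ℝ) :
    ∫ t in (0:ℝ)..1, E (θ * N t) = ∑ j ∈ Finset.range (n + 1),
      ((volume.real {t : ℝ | t ∈ Set.Ioc (0:ℝ) 1 ∧ N t = j} : ℝ) : ℂ) * E θ ^ j := by
  have hms : ∀ j, MeasurableSet {t : ℝ | N t = j} := fun j => hN (measurableSet_singleton j)
  have e1 : ∀ t, E (θ * N t) = ∑ j ∈ Finset.range (n + 1),
      ({t : ℝ | N t = j}.indicator (fun _ => E θ ^ j)) t := by
    intro t
    rw [E_mul_nat, Finset.sum_eq_single (N t)]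
    · rw [Set.indicator_of_mem (show t ∈ {s : ℝ | N s = N t} from rfl)]
    · intro j _ hj
      rw [Set.indicator_of_notMem]
      intro h
      exact hj h.symm
    · intro h
      exact absurd (Finset.mem_range.2 (Nat.lt_succ_of_le (hn t))) h
  simp_rw [e1]
  rw [intervalIntegral.integral_finsetSum]
  · apply Finset.sum_congr rfl
    intro j _
    rw [intervalIntegral.integral_of_le zero_le_one, setIntegral_indicator (hms j),
      setIntegral_const, Complex.real_smul]
    rfl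
  · intro j _
    rw [intervalIntegrable_iff, Set.uIoc_of_le zero_le_one]
    exact (integrable_const _).indicator (hms j)

theorem nn_sub_le (x y : ℝ) : nn (x - y) ≤ nn x + nn y := by
  unfold nn
  rw [AddCircle.coe_sub]
  exact norm_sub_le _ _

/-- the arcs are disjoint -/
def Disj {r : ℕ} (c ρ : Fin r → ℝ) : Prop := ∀ i j, i ≠ j → ρ i + ρ j < nn (c i - c j)

theorem sind_eq {r : ℕ} {c ρ : Fin r → ℝ} (hd : Disj c ρ) (x : ℝ) [Decidable (∃ i, nn (x - c i) ≤ ρ i)] :
    sind c ρ x = if ∃ i, nn (x - c i) ≤ ρ i then 1 else 0 := by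
  unfold sind
  split_ifs with h
  · obtain ⟨i, hi⟩ := h
    rw [Finset.sum_eq_single i]
    · unfold ind
      rw [if_pos hi]
    · intro j _ hj
      unfold ind
      rw [if_neg]
      intro hj2
      have h1 := hd i j hj.symm
      have h2 := nn_sub_le (x - c j) (x - c i)
      rw [show x - c j - (x - c i) = c i - c j by ring] at h2
      linarith
    · intro h
      exact absurd (Finset.mem_univ i) h
  · push Not at h
    apply Finset.sum_eq_zero
    intro i _
    unfold ind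
    rw [if_neg (not_le.2 (h i))]

open scoped Classical in
/-- the number of visits -/
noncomputable def cnt {r : ℕ} (a s : ℝ) (c ρ : Fin r → ℝ) (n : ℕ) (t : ℝ) : ℕ :=
  ((Finset.range n).filter fun k => ∃ i, nn (X a s (k + 1) t - c i) ≤ ρ i).card

theorem cnt_le {r : ℕ} (a s : ℝ) (c ρ : Fin r → ℝ) (n : ℕ) (t : ℝ) : cnt a s c ρ n t ≤ n := by
  unfold cnt
  exact (Finset.card_filter_le _ _).trans (by simp)

theorem cnt_eq {r : ℕ} {c ρ : Fin r → ℝ} (hd : Disj c ρ) (a s : ℝ) (n : ℕ) (t : ℝ) :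
    ((cnt a s c ρ n t : ℕ) : ℝ) = ∑ k ∈ Finset.range n, sind c ρ (X a s (k + 1) t) := by
  classical
  unfold cnt
  rw [Finset.card_filter]
  push_cast
  exact Finset.sum_congr rfl fun k _ => (sind_eq hd _).symm

theorem cnt_meas {r : ℕ} (a s : ℝ) (c ρ : Fin r → ℝ) (n : ℕ) : Measurable (cnt a s c ρ n) := by
  classical
  unfold cnt
  simp_rw [Finset.card_filter]
  apply Finset.measurable_sum
  intro k _
  refine Measurable.ite ?_ measurable_const measurable_const
  have : {t : ℝ | ∃ i, nn (X a s (k + 1) t - c i) ≤ ρ i} =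
      ⋃ i, {t : ℝ | nn (X a s (k + 1) t - c i) ≤ ρ i} := by
    ext t
    simp
  rw [this]
  apply MeasurableSet.iUnion
  intro i
  exact measurableSet_le (nn_cont.measurable.comp ((Xt_cont a s (k + 1)).measurable.sub_const _))
    measurable_const

theorem sind_le {r : ℕ} {c ρ : Fin r → ℝ} (hd : Disj c ρ) (x : ℝ) :
    sind c ρ x = 0 ∨ sind c ρ x = 1 := by
  classical
  rw [sind_eq hd]
  split_ifs
  · exact Or.inr rfl
  · exact Or.inl rfl

theorem sind_ii {r : ℕ} (c ρ : Fin r → ℝ) : IntervalIntegrable (sind c ρ) volume 0 1 := by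
  rw [intervalIntegrable_iff]
  exact integrable_finsetSum _ fun i _ => intervalIntegrable_iff.1 (ind_ii (c i) (ρ i))

theorem total_le {r : ℕ} {c ρ : Fin r → ℝ} (hd : Disj c ρ) (h0 : ∀ i, 0 ≤ ρ i)
    (h1 : ∀ i, ρ i ≤ 1 / 8) : 2 * ∑ i, ρ i ≤ 1 := by
  rw [← sind_int (c := c) h0 h1]
  calc ∫ x in (0:ℝ)..1, sind c ρ x ≤ ∫ x in (0:ℝ)..1, (1:ℝ) := by
        apply intervalIntegral.integral_mono_on zero_le_one (sind_ii c ρ) (by simp)
        intro x _
        rcases sind_le hd x with h | h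
        · rw [h]
          norm_num
        · rw [h]
    _ = 1 := by simp

theorem E_sind {r : ℕ} {c ρ : Fin r → ℝ} (hd : Disj c ρ) (h0 : ∀ i, 0 ≤ ρ i)
    (h1 : ∀ i, ρ i ≤ 1 / 8) (θ : ℝ) :
    ∫ x in (0:ℝ)..1, E (θ * sind c ρ x) = 1 + (E θ - 1) * ((2 * ∑ i, ρ i : ℝ) : ℂ) := by
  have e1 : ∀ x, E (θ * sind c ρ x) = 1 + (E θ - 1) * ((sind c ρ x : ℝ) : ℂ) := by
    intro x
    rcases sind_le hd x with h | h
    · rw [h]
      simp [E]
    · rw [h]
      simp
  simp_rw [e1]
  have hi0 : IntervalIntegrable (fun x => ((sind c ρ x : ℝ) : ℂ)) volume 0 1 := by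
    rw [intervalIntegrable_iff]
    exact (intervalIntegrable_iff.1 (sind_ii c ρ)).ofReal
  have hi : IntervalIntegrable (fun x => (E θ - 1) * ((sind c ρ x : ℝ) : ℂ)) volume 0 1 :=
    hi0.const_mul _
  rw [intervalIntegral.integral_add (by simp) hi, intervalIntegral.integral_const_mul,
    intervalIntegral.integral_ofReal, sind_int h0 h1]
  simp

/-- **the law of the number of visits is close to the binomial law** -/
theorem binom (r : ℕ) : ∃ C : ℝ, 0 < C ∧ ∀ c ρ : Fin r → ℝ, Disj c ρ → (∀ i, 0 ≤ ρ i) →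
    (∀ i, ρ i ≤ 1 / 8) → ∀ a : ℝ, a ≠ 0 → ∀ (n : ℕ) (s : ℝ) (m : ℕ),
    |volume.real {t : ℝ | t ∈ Set.Ioc (0:ℝ) 1 ∧ cnt a s c ρ n t = m} -
      (n.choose m) * (2 * ∑ i, ρ i) ^ m * (1 - 2 * ∑ i, ρ i) ^ (n - m)| ≤
        C * (n * (√(2 * (∑ i, ρ i) / |a|) + 1 / |a|)) := by
  obtain ⟨C, hC, H⟩ := all r
  refine ⟨C, hC, ?_⟩
  intro c ρ hd h0 h1 a ha n s m
  have hq1 := total_le hd h0 h1
  have hH := H c ρ h0 h1 hq1 a ha n s
  have ha0 : 0 < |a| := abs_pos.2 ha
  set q := 2 * ∑ i, ρ i with hq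
  have hR : 0 ≤ C * (n * (√(q / |a|) + 1 / |a|)) := by positivity
  rcases lt_or_ge n m with hmn | hmn
  · have e1 : {t : ℝ | t ∈ Set.Ioc (0:ℝ) 1 ∧ cnt a s c ρ n t = m} = ∅ := by
      ext t
      simp only [Set.mem_ofPred_eq, Set.mem_empty_iff_false, iff_false, not_and]
      intro _ h
      have := cnt_le a s c ρ n t
      omega
    rw [e1, Nat.choose_eq_zero_of_lt hmn]
    simpa using hR
  set d : ℕ → ℂ := fun j =>
    ((volume.real {t : ℝ | t ∈ Set.Ioc (0:ℝ) 1 ∧ cnt a s c ρ n t = j} -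
      (n.choose j) * q ^ j * (1 - q) ^ (n - j) : ℝ) : ℂ) with hdd
  have h2 : ‖d m‖ ≤ C * (n * (√(q / |a|) + 1 / |a|)) := by
    apply coef d (n := n) _ hmn
    intro θ hθ
    have h3 := hH θ hθ
    have e2 : ∑ j ∈ Finset.range (n + 1), d j * E θ ^ j =
        (∫ t in (0:ℝ)..1, E (θ * ∑ k ∈ Finset.range n, sind c ρ (X a s (k + 1) t))) -
      (∫ x in (0:ℝ)..1, E (θ * sind c ρ x)) ^ n := by
      have e3 : ∀ t, E (θ * ∑ k ∈ Finset.range n, sind c ρ (X a s (k + 1) t)) =
          E (θ * cnt a s c ρ n t) := fun t => by rw [cnt_eq hd]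
      simp_rw [e3]
      rw [int_cnt (cnt_meas a s c ρ n) (cnt_le a s c ρ n) θ, E_sind hd h0 h1]
      have e4 : (1 + (E θ - 1) * ((2 * ∑ i, ρ i : ℝ) : ℂ)) ^ n =
          ∑ j ∈ Finset.range (n + 1), (((n.choose j) * q ^ j * (1 - q) ^ (n - j) : ℝ) : ℂ) *
            E θ ^ j := by
        rw [← hq, show 1 + (E θ - 1) * ((q : ℝ) : ℂ) = (q : ℂ) * E θ + (1 - (q : ℂ)) by ring,
          add_pow]
        apply Finset.sum_congr rfl
        intro j _
        push_cast
        rw [mul_pow]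
        ring
      rw [e4, ← Finset.sum_sub_distrib]
      apply Finset.sum_congr rfl
      intro j _
      rw [hdd]
      push_cast
      ring
    rw [e2]
    exact h3
  rw [hdd] at h2
  simp only at h2
  rwa [Complex.norm_real, norm_eq_abs] at h2

end Pool.Agent.R241.PV
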