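import Mathlib

set_option autoImplicit false

/-!
# The Poisson limit of binomial probabilities, along any filter
-/

namespace Pool.Agent.R241.PV

open Real Filter Topology Asymptotics

theorem poisson_lim {ι : Type*} {F : Filter ι} {n : ι → ℕ} {q : ι → ℝ} {L : ℝ}
    (hn : Tendsto n F atTop) (hq0 : ∀ᶠ j in F, 0 ≤ q j)
    (hq : Tendsto (fun j => (n j : ℝ) * q j) F (𝓝 L)) (m : ℕ) :
    Tendsto (fun j => ((n j).choose m : ℝ) * q j ^ m * (1 - q j) ^ (n j - m)) F
      (𝓝 (exp (-L) * L ^ m / m.factorial)) := by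
  have hnr : Tendsto (fun j => (n j : ℝ)) F atTop := tendsto_natCast_atTop_atTop.comp hn
  have hn1 : ∀ᶠ j in F, 1 ≤ n j := hn.eventually (eventually_ge_atTop 1)
  have hnm : ∀ᶠ j in F, m ≤ n j := hn.eventually (eventually_ge_atTop m)
  have hqz : Tendsto q F (𝓝 0) := by
    have h1 : Tendsto (fun j => (n j : ℝ) * q j * (n j : ℝ)⁻¹) F (𝓝 (L * 0)) :=
      hq.mul (tendsto_inv_atTop_zero.comp hnr)
    rw [mul_zero] at h1
    refine h1.congr' ?_
    filter_upwards [hn1] with j hj
    have : (n j : ℝ) ≠ 0 := by positivity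
    field_simp
  have hq2 : ∀ᶠ j in F, q j < 1 / 2 := hqz.eventually (Iio_mem_nhds (by norm_num))
  have hA : Tendsto (fun j => ((n j).choose m : ℝ) * q j ^ m) F (𝓝 (L ^ m / m.factorial)) := by
    have h1 : (fun j => ((n j).choose m : ℝ)) ~[F] fun j => ((n j : ℝ) ^ m / m.factorial) :=
      (isEquivalent_choose m).comp_tendsto hn
    have h2 : (fun j => ((n j).choose m : ℝ) * q j ^ m) ~[F]
        fun j => ((n j : ℝ) ^ m / m.factorial) * q j ^ m := h1.mul Asymptotics.IsEquivalent.refl
    refine h2.tendsto_nhds_iff.2 ?_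
    have h3 : Tendsto (fun j => ((n j : ℝ) * q j) ^ m / m.factorial) F
        (𝓝 (L ^ m / m.factorial)) := (hq.pow m).div_const _
    refine h3.congr ?_
    intro j
    rw [mul_pow]
    ring
  have hB : Tendsto (fun j => (1 - q j) ^ (n j)) F (𝓝 (exp (-L))) := by
    have hup : Tendsto (fun j => exp (-((n j : ℝ) * q j))) F (𝓝 (exp (-L))) :=
      (continuous_exp.tendsto _).comp hq.neg
    have hlo : Tendsto (fun j => exp (-((n j : ℝ) * q j / (1 - q j)))) F (𝓝 (exp (-L))) := by
      have h1 : Tendsto (fun j => (n j : ℝ) * q j / (1 - q j)) F (𝓝 (L / (1 - 0))) :=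
        hq.div (hqz.const_sub 1) (by norm_num)
      rw [sub_zero, div_one] at h1
      exact (continuous_exp.tendsto _).comp h1.neg
    refine tendsto_of_tendsto_of_tendsto_of_le_of_le' hlo hup ?_ ?_
    · filter_upwards [hq0, hq2] with j h0 h1
      have h2 : 0 < 1 - q j := by linarith
      have h3 : exp (-(q j / (1 - q j))) ≤ 1 - q j := by
        have h4 := add_one_le_exp (q j / (1 - q j))
        have h5 : q j / (1 - q j) + 1 = (1 - q j)⁻¹ := by
          field_simp
          ring
        rw [h5] at h4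
        rw [exp_neg]
        exact inv_le_of_inv_le₀ h2 h4
      have e : exp (-((n j : ℝ) * q j / (1 - q j))) = exp (-(q j / (1 - q j))) ^ (n j) := by
        rw [← exp_nat_mul]
        congr 1
        ring
      rw [e]
      exact pow_le_pow_left₀ (exp_pos _).le h3 _
    · filter_upwards [hq0, hq2] with j h0 h1
      have h3 : 1 - q j ≤ exp (-q j) := by
        have := add_one_le_exp (-q j)
        linarith
      have e : exp (-((n j : ℝ) * q j)) = exp (-q j) ^ (n j) := by
        rw [← exp_nat_mul]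
        congr 1
        ring
      rw [e]
      exact pow_le_pow_left₀ (by linarith) h3 _
  have hC : Tendsto (fun j => ((1 - q j) ^ m)⁻¹) F (𝓝 1) := by
    have h1 : Tendsto (fun j => ((1 - q j) ^ m)⁻¹) F (𝓝 (((1 - 0) ^ m)⁻¹)) :=
      ((hqz.const_sub 1).pow m).inv₀ (by norm_num)
    simpa using h1
  have hD := (hA.mul (hB.mul hC))
  have e : L ^ m / m.factorial * (exp (-L) * 1) = exp (-L) * L ^ m / m.factorial := by ring
  rw [e] at hD
  refine hD.congr' ?_
  filter_upwards [hnm, hq2] with j h1 h2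
  have h3 : (1 - q j) ≠ 0 := by
    intro h
    linarith
  rw [pow_sub₀ _ h3 h1]

end Pool.Agent.R241.PV
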