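import Pool.Agent.R241.PV2

set_option autoImplicit false

/-!
# One step, for general weights
-/

namespace Pool.Agent.R241.PW

open Real MeasureTheory Function
open Pool.Agent.TH705.SM Pool.Agent.R241.PV

/-- one step, general real weight -/
theorem step_gen {a l : ℝ} (hl' : l0 ≤ l) (hla : l ≤ |a|) (s : ℝ) (m : ℕ) {P P' : ℝ → ℝ}
    (hPd : ∀ t, HasDerivAt P (P' t) t) (hP'c : Continuous P') (hP1 : ∀ t, |P t| ≤ 1)
    (hPp : ∀ t, P (t + 1) = P t) {w : ℝ → ℝ} (hwc : Continuous w) (hwp : Periodic w 1)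
    (hw0 : ∀ x, 0 ≤ w x) {V : ℝ} (hV : ∫ x in (0:ℝ)..1, w x ≤ V) {κ : ℝ} (hκ : 0 ≤ κ)
    (hb : ∀ t, Good a l s m t → |P' t| ≤ κ * (UF a s w m t * |D a s m t|))
    {g : ℝ → ℝ} (hg : Continuous g) (pg : Periodic g 1) (g0 : ∫ x in (0:ℝ)..1, g x = 0) {A : ℝ}
    (hA : ∫ x in (0:ℝ)..1, |g x| ≤ A) :
    |∫ t in (0:ℝ)..1, chi a l s m t * P t * g (X a s (m + 1) t)| ≤
      A * ((l0 + 8 * κ * V) / l) := by
  have hl : 16 ≤ l := l0_ge.trans hl'
  have hl0 : 0 < l := by linarith
  have hK := KK_one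
  have hA0 : 0 ≤ A :=
    (intervalIntegral.integral_nonneg zero_le_one fun x _ => abs_nonneg _).trans hA
  obtain ⟨G, hG, hGp, hG1⟩ := prim' hg pg g0 hA
  have hVFc := VF_cont a l s hwc m
  have hP'b : ∀ t, chi a l s m t * |P' t| / |D a s (m + 1) t| ≤ 2 / l * κ * VF a l s w m t := by
    intro t
    have hVF0 := VF_nonneg a l s hw0 m t
    by_cases hg' : Good a l s m t
    · have hD0 : 0 < |D a s (m + 1) t| := abs_pos.2 (D_ne hl hg')
      have h1 := (growth hl hg' m le_rfl).1
      have h4 := chi_mem a l s m t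
      have h5 := hb t hg'
      have h6 : |D a s m t| ≤ 2 / l * |D a s (m + 1) t| := by
        rw [div_mul_eq_mul_div, le_div_iff₀ hl0]
        linarith
      have h7 := UF_nonneg a s hw0 m t
      rw [div_le_iff₀ hD0]
      calc chi a l s m t * |P' t|
          ≤ chi a l s m t * (κ * (UF a s w m t * (2 / l * |D a s (m + 1) t|))) := by
            apply mul_le_mul_of_nonneg_left _ h4.1
            refine h5.trans ?_
            gcongr
        _ = chi a l s m t * UF a s w m t * (κ * (2 / l * |D a s (m + 1) t|)) := by ring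
        _ ≤ VF a l s w m t * (κ * (2 / l * |D a s (m + 1) t|)) := by
            apply mul_le_mul_of_nonneg_right (chi_UF a l s hw0 m t) (by positivity)
        _ = _ := by ring
    · rw [(chi_bad hl0 hg').1, zero_mul, zero_div]
      positivity
  have hVc := VV_cont a hl0 s m
  have hibp := ibp2 (a := a) (s := s) hl m hPd hP'c hPp
    (bd := fun t => 104 * KK * π ^ 2 * VV a l s m t + 2 / l * κ * VF a l s w m t) (by fun_prop)
    (fun t => (W'_le2 hl m (hP1 t)).trans (add_le_add le_rfl (hP'b t))) hG hg (fun u n => by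
      have := hGp.nat_mul n u
      rwa [mul_one] at this) hG1
  rw [intervalIntegral.integral_add (f := fun t => 104 * KK * π ^ 2 * VV a l s m t)
    (g := fun t => 2 / l * κ * VF a l s w m t) ((continuous_const.mul hVc).intervalIntegrable _ _)
    ((continuous_const.mul hVFc).intervalIntegrable _ _),
    intervalIntegral.integral_const_mul, intervalIntegral.integral_const_mul] at hibp
  have hVV := mul_le_mul_of_nonneg_left (VV_int hl' hla s m)
    (by positivity : 0 ≤ 104 * KK * π ^ 2)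
  have hVF := mul_le_mul_of_nonneg_left (VF_int hl' hla s hwc hwp hw0 hV m)
    (by positivity : 0 ≤ 2 / l * κ)
  refine hibp.trans ?_
  apply mul_le_mul_of_nonneg_left _ hA0
  unfold l0
  rw [add_div]
  have e1 : 104 * KK * π ^ 2 * (1 / l) = 104 * KK * π ^ 2 / l := by ring
  have e2 : 2 / l * κ * (4 * V) = 8 * κ * V / l := by ring
  rw [e1] at hVV
  rw [e2] at hVF
  linarith

/-- one step, general complex weight -/
theorem step_gc {a l : ℝ} (hl' : l0 ≤ l) (hla : l ≤ |a|) (s : ℝ) (m : ℕ) {P P' : ℝ → ℂ}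
    (hPd : ∀ t, HasDerivAt P (P' t) t) (hP'c : Continuous P') (hP1 : ∀ t, ‖P t‖ ≤ 1)
    (hPp : ∀ t, P (t + 1) = P t) {w : ℝ → ℝ} (hwc : Continuous w) (hwp : Periodic w 1)
    (hw0 : ∀ x, 0 ≤ w x) {V : ℝ} (hV : ∫ x in (0:ℝ)..1, w x ≤ V) {κ : ℝ} (hκ : 0 ≤ κ)
    (hb : ∀ t, Good a l s m t → ‖P' t‖ ≤ κ * (UF a s w m t * |D a s m t|))
    {g : ℝ → ℝ} (hg : Continuous g) (pg : Periodic g 1) (g0 : ∫ x in (0:ℝ)..1, g x = 0) {A : ℝ}
    (hA : ∫ x in (0:ℝ)..1, |g x| ≤ A) :
    ‖∫ t in (0:ℝ)..1, (chi a l s m t : ℂ) * P t * (g (X a s (m + 1) t) : ℂ)‖ ≤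
      2 * (A * ((l0 + 8 * κ * V) / l)) := by
  have hPc : Continuous P := continuous_iff_continuousAt.2 fun t => (hPd t).continuousAt
  have hcc := chi_cont a l s m
  have hXc := Xt_cont a s (m + 1)
  have hgX : Continuous fun t => g (X a s (m + 1) t) := hg.comp (Xt_cont a s (m + 1))
  have hre := step_gen hl' hla s m (P := fun t => (P t).re) (P' := fun t => (P' t).re)
    (fun t => Complex.reCLM.hasFDerivAt.comp_hasDerivAt t (hPd t))
    (Complex.continuous_re.comp hP'c) (fun t => (Complex.abs_re_le_norm _).trans (hP1 t))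
    (fun t => by rw [hPp t]) hwc hwp hw0 hV hκ
    (fun t ht => (Complex.abs_re_le_norm _).trans (hb t ht)) hg pg g0 hA
  have him := step_gen hl' hla s m (P := fun t => (P t).im) (P' := fun t => (P' t).im)
    (fun t => Complex.imCLM.hasFDerivAt.comp_hasDerivAt t (hPd t))
    (Complex.continuous_im.comp hP'c) (fun t => (Complex.abs_im_le_norm _).trans (hP1 t))
    (fun t => by rw [hPp t]) hwc hwp hw0 hV hκ
    (fun t ht => (Complex.abs_im_le_norm _).trans (hb t ht)) hg pg g0 hA
  have hint : ∀ t, (chi a l s m t : ℂ) * P t * (g (X a s (m + 1) t) : ℂ) =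
      ((chi a l s m t * (P t).re * g (X a s (m + 1) t) : ℝ) : ℂ) +
      ((chi a l s m t * (P t).im * g (X a s (m + 1) t) : ℝ) : ℂ) * Complex.I := by
    intro t
    conv_lhs => rw [← Complex.re_add_im (P t)]
    push_cast
    ring
  simp_rw [hint]
  have hrc : Continuous fun t => (P t).re := Complex.continuous_re.comp hPc
  have hic : Continuous fun t => (P t).im := Complex.continuous_im.comp hPc
  rw [intervalIntegral.integral_add
    (Continuous.intervalIntegrable (by fun_prop) _ _)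
    (Continuous.intervalIntegrable (by fun_prop) _ _), intervalIntegral.integral_mul_const,
    intervalIntegral.integral_ofReal, intervalIntegral.integral_ofReal]
  refine (norm_add_le _ _).trans ?_
  rw [norm_mul, Complex.norm_I, mul_one, Complex.norm_real, Complex.norm_real, norm_eq_abs,
    norm_eq_abs]
  linarith

/-- replacing a function of the next point by its mean -/
theorem avg {a l : ℝ} (hl' : l0 ≤ l) (hla : l ≤ |a|) (s : ℝ) (m : ℕ) {P P' : ℝ → ℂ}
    (hPd : ∀ t, HasDerivAt P (P' t) t) (hP'c : Continuous P') (hP1 : ∀ t, ‖P t‖ ≤ 1)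
    (hPp : ∀ t, P (t + 1) = P t) {w : ℝ → ℝ} (hwc : Continuous w) (hwp : Periodic w 1)
    (hw0 : ∀ x, 0 ≤ w x) {V : ℝ} (hV : ∫ x in (0:ℝ)..1, w x ≤ V) {κ : ℝ} (hκ : 0 ≤ κ)
    (hb : ∀ t, Good a l s m t → ‖P' t‖ ≤ κ * (UF a s w m t * |D a s m t|))
    {g : ℝ → ℝ} (hg : Continuous g) (pg : Periodic g 1) (g0 : ∀ x, 0 ≤ g x) {M : ℝ}
    (hM : ∫ x in (0:ℝ)..1, g x = M) :
    ‖(∫ t in (0:ℝ)..1, (chi a l s m t : ℂ) * P t * (g (X a s (m + 1) t) : ℂ)) -
      M * ∫ t in (0:ℝ)..1, (chi a l s m t : ℂ) * P t‖ ≤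
      4 * (M * ((l0 + 8 * κ * V) / l)) := by
  have hPc : Continuous P := continuous_iff_continuousAt.2 fun t => (hPd t).continuousAt
  have hcc := chi_cont a l s m
  have hXc := Xt_cont a s (m + 1)
  have hgX : Continuous fun t => g (X a s (m + 1) t) := hg.comp (Xt_cont a s (m + 1))
  have hdev := dev_le hg 0 (S := M) (by
    have : ∀ x, |g x - 0| = g x := fun x => by rw [sub_zero, abs_of_nonneg (g0 x)]
    simp_rw [this]
    exact hM.le)
  rw [hM] at hdev
  have h := step_gc hl' hla s m hPd hP'c hP1 hPp hwc hwp hw0 hV hκ hb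
    (g := fun x => g x - M) (hg.sub continuous_const)
    (fun x => by show g (x + 1) - M = g x - M; rw [pg x])
    (by
      rw [intervalIntegral.integral_sub (hg.intervalIntegrable _ _) (by simp), hM]
      simp) hdev
  have e : (∫ t in (0:ℝ)..1, (chi a l s m t : ℂ) * P t * (g (X a s (m + 1) t) : ℂ)) -
      M * ∫ t in (0:ℝ)..1, (chi a l s m t : ℂ) * P t =
      ∫ t in (0:ℝ)..1, (chi a l s m t : ℂ) * P t * ((g (X a s (m + 1) t) - M : ℝ) : ℂ) := by
    rw [← intervalIntegral.integral_const_mul, ← intervalIntegral.integral_sub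
      (Continuous.intervalIntegrable (by fun_prop) _ _)
      (Continuous.intervalIntegrable (by fun_prop) _ _)]
    apply intervalIntegral.integral_congr
    intro t _
    simp only
    push_cast
    ring
  rw [e]
  refine h.trans (le_of_eq ?_)
  ring

/-- the loss at one step -/
theorem loss_c {a l : ℝ} (hl' : l0 ≤ l) (hla : l ≤ |a|) (s : ℝ) (m : ℕ) {F : ℝ → ℂ}
    (hF : Continuous F) (hF1 : ∀ t, ‖F t‖ ≤ 1) :
    ‖(∫ t in (0:ℝ)..1, (chi a l s (m + 1) t : ℂ) * F t) -
      ∫ t in (0:ℝ)..1, (chi a l s m t : ℂ) * F t‖ ≤ 2 * (l / |a|) := by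
  have hcc := chi_cont a l s m
  have hcc' := chi_cont a l s (m + 1)
  have hrc := rk_cont a l s (m + 1)
  rw [← intervalIntegral.integral_sub (Continuous.intervalIntegrable (by fun_prop) _ _)
    (Continuous.intervalIntegrable (by fun_prop) _ _)]
  refine le_trans ?_ (loss hl' hla s m)
  apply intervalIntegral.norm_integral_le_of_norm_le zero_le_one
  · apply Filter.Eventually.of_forall
    intro t _
    have hr0 : 0 ≤ 1 - rk a l s (m + 1) t := sub_nonneg.2 (rho_le_one _)
    have hc0 := (chi_mem a l s m t).1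
    have e : (chi a l s (m + 1) t : ℂ) * F t - (chi a l s m t : ℂ) * F t =
        ((-(chi a l s m t * (1 - rk a l s (m + 1) t)) : ℝ) : ℂ) * F t := by
      have : chi a l s (m + 1) t = chi a l s m t * rk a l s (m + 1) t := rfl
      rw [this]
      push_cast
      ring
    rw [e, norm_mul, Complex.norm_real, norm_eq_abs, abs_neg,
      abs_of_nonneg (mul_nonneg hc0 hr0)]
    exact mul_le_of_le_one_right (mul_nonneg hc0 hr0) (hF1 t)
  · exact Continuous.intervalIntegrable (by fun_prop) _ _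

end Pool.Agent.R241.PW
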