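import Pool.Agent.R241.PW1

set_option autoImplicit false

/-!
# Products of functions of two consecutive points
-/

namespace Pool.Agent.R241.PW

open Real MeasureTheory Function
open Pool.Agent.TH705.SM Pool.Agent.R241.PV

/-- smooth functions with values in `[0, 1]` -/
structure Bump (f f' : ℝ → ℝ) : Prop where
  d : ∀ x, HasDerivAt f (f' x) x
  c : Continuous f'
  p : Periodic f 1
  p' : Periodic f' 1
  m : ∀ x, 0 ≤ f x ∧ f x ≤ 1

theorem Bump.cont {f f' : ℝ → ℝ} (h : Bump f f') : Continuous f :=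
  continuous_iff_continuousAt.2 fun x => (h.d x).continuousAt

/-- the products -/
noncomputable def QQ (a s : ℝ) (z : ℂ) (u v : ℝ → ℝ) : ℕ → ℝ → ℂ
  | 0, _ => 1
  | m + 1, t => QQ a s z u v m t * (1 + z * ((u (X a s (m + 1) t) * v (X a s m t) : ℝ) : ℂ))

/-- their derivatives -/
noncomputable def QQ' (a s : ℝ) (z : ℂ) (u u' v v' : ℝ → ℝ) : ℕ → ℝ → ℂ
  | 0, _ => 0
  | m + 1, t => QQ' a s z u u' v v' m t * (1 + z * ((u (X a s (m + 1) t) * v (X a s m t) : ℝ) : ℂ)) +
      QQ a s z u v m t * (z * ((u' (X a s (m + 1) t) * D a s (m + 1) t * v (X a s m t) +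
        u (X a s (m + 1) t) * (v' (X a s m t) * D a s m t) : ℝ) : ℂ))

/-- the condition on `z` -/
def Zok (z : ℂ) : Prop := ∀ x : ℝ, 0 ≤ x → x ≤ 1 → ‖1 + z * (x : ℂ)‖ ≤ 1

theorem Zok.two {z : ℂ} (h : Zok z) : ‖z‖ ≤ 2 := by
  have h1 := h 1 zero_le_one le_rfl
  have e : z = (1 + z * ((1:ℝ) : ℂ)) - 1 := by
    push_cast
    ring
  rw [e]
  refine (norm_sub_le _ _).trans ?_
  rw [norm_one]
  linarith

theorem per_nat {f : ℝ → ℝ} (p : Periodic f 1) (k : ℕ) (x : ℝ) : f (x + k) = f x := by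
  have := p.nat_mul k x
  rwa [mul_one] at this

theorem per_X {f : ℝ → ℝ} (p : Periodic f 1) (a s : ℝ) (k : ℕ) (t : ℝ) :
    f (X a s k (t + 1)) = f (X a s k t) := by
  rw [X_period, per_nat p]

theorem comp_d {f f' : ℝ → ℝ} (h : Bump f f') (a s : ℝ) (k : ℕ) (t : ℝ) :
    HasDerivAt (fun t => f (X a s k t)) (f' (X a s k t) * D a s k t) t :=
  (h.d _).comp t (X_hasDeriv a s k t)

theorem QQ_hasDeriv (a s : ℝ) (z : ℂ) {u u' v v' : ℝ → ℝ} (hu : Bump u u') (hv : Bump v v')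
    (m : ℕ) (t : ℝ) : HasDerivAt (QQ a s z u v m) (QQ' a s z u u' v v' m t) t := by
  induction m with
  | zero => exact hasDerivAt_const t 1
  | succ m ih =>
    have h1 := (comp_d hu a s (m + 1) t).mul (comp_d hv a s m t)
    have h2 := (h1.ofReal_comp.const_mul z).const_add 1
    exact ih.mul h2

theorem X_cont' (a s : ℝ) (k : ℕ) {f : ℝ → ℝ} (hf : Continuous f) :
    Continuous fun t => f (X a s k t) := hf.comp (Xt_cont a s k)

theorem QQ_cont (a s : ℝ) (z : ℂ) {u v : ℝ → ℝ} (hu : Continuous u) (hv : Continuous v)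
    (m : ℕ) : Continuous (QQ a s z u v m) := by
  induction m with
  | zero => exact continuous_const
  | succ m ih =>
    have h1 := X_cont' a s (m + 1) hu
    have h2 := X_cont' a s m hv
    show Continuous fun t => QQ a s z u v m t *
      (1 + z * ((u (X a s (m + 1) t) * v (X a s m t) : ℝ) : ℂ))
    exact ih.mul (continuous_const.add (continuous_const.mul
      (Complex.continuous_ofReal.comp (h1.mul h2))))

theorem QQ'_cont (a s : ℝ) (z : ℂ) {u u' v v' : ℝ → ℝ} (hu : Bump u u') (hv : Bump v v')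
    (m : ℕ) : Continuous (QQ' a s z u u' v v' m) := by
  induction m with
  | zero => exact continuous_const
  | succ m ih =>
    have h1 := X_cont' a s (m + 1) hu.cont
    have h2 := X_cont' a s m hv.cont
    have h3 := X_cont' a s (m + 1) hu.c
    have h4 := X_cont' a s m hv.c
    have h5 := D_cont a s (m + 1)
    have h6 := D_cont a s m
    have h7 := QQ_cont a s z hu.cont hv.cont m
    show Continuous fun t => QQ' a s z u u' v v' m t *
        (1 + z * ((u (X a s (m + 1) t) * v (X a s m t) : ℝ) : ℂ)) +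
      QQ a s z u v m t * (z * ((u' (X a s (m + 1) t) * D a s (m + 1) t * v (X a s m t) +
        u (X a s (m + 1) t) * (v' (X a s m t) * D a s m t) : ℝ) : ℂ))
    refine (ih.mul (continuous_const.add (continuous_const.mul
      (Complex.continuous_ofReal.comp (h1.mul h2))))).add
      (h7.mul (continuous_const.mul (Complex.continuous_ofReal.comp
        (((h3.mul h5).mul h2).add (h1.mul (h4.mul h6))))))

theorem QQ_per (a s : ℝ) (z : ℂ) {u v : ℝ → ℝ} (hu : Periodic u 1) (hv : Periodic v 1)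
    (m : ℕ) (t : ℝ) : QQ a s z u v m (t + 1) = QQ a s z u v m t := by
  induction m with
  | zero => rfl
  | succ m ih =>
    show QQ a s z u v m (t + 1) * (1 + z * ((u (X a s (m + 1) (t + 1)) *
      v (X a s m (t + 1)) : ℝ) : ℂ)) = QQ a s z u v m t *
      (1 + z * ((u (X a s (m + 1) t) * v (X a s m t) : ℝ) : ℂ))
    rw [ih, per_X hu, per_X hv]

theorem QQ_norm (a s : ℝ) {z : ℂ} (hz : Zok z) {u v : ℝ → ℝ} (hu : ∀ x, 0 ≤ u x ∧ u x ≤ 1)
    (hv : ∀ x, 0 ≤ v x ∧ v x ≤ 1) (m : ℕ) (t : ℝ) : ‖QQ a s z u v m t‖ ≤ 1 := by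
  induction m with
  | zero => simp [QQ]
  | succ m ih =>
    show ‖QQ a s z u v m t * (1 + z * ((u (X a s (m + 1) t) * v (X a s m t) : ℝ) : ℂ))‖ ≤ 1
    rw [norm_mul]
    have h1 := hu (X a s (m + 1) t)
    have h2 := hv (X a s m t)
    exact mul_le_one₀ ih (norm_nonneg _) (hz _ (mul_nonneg h1.1 h2.1)
      (mul_le_one₀ h1.2 h2.1 h2.2))

/-- the weight -/
noncomputable def wt (u' v' : ℝ → ℝ) (x : ℝ) : ℝ := |u' x| + |v' x|

theorem QQ'_bound {a l s : ℝ} (hl : 16 ≤ l) {z : ℂ} (hz : Zok z) {u u' v v' : ℝ → ℝ}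
    (hu : Bump u u') (hv : Bump v v') {m : ℕ} {t : ℝ} (hg : Good a l s m t) :
    ‖QQ' a s z u u' v v' m t‖ + 2 * (|v' (X a s m t)| * |D a s m t|) ≤
      2 * (UF a s (wt u' v') m t * |D a s m t|) := by
  have hz2 := hz.two
  have hw0 : ∀ x, 0 ≤ wt u' v' x := fun x => add_nonneg (abs_nonneg _) (abs_nonneg _)
  induction m with
  | zero => simp [QQ', UF, D]
  | succ m ih =>
    have h1 := ih (hg.mono (Nat.le_succ m))
    have h2 := (growth hl hg m (Nat.le_succ m)).1
    have h3 := UF_nonneg a s hw0 m t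
    have hu1 := hu.m (X a s (m + 1) t)
    have hv1 := hv.m (X a s m t)
    have hQ := QQ_norm a s hz hu.m hv.m m t
    have hfac : ‖1 + z * ((u (X a s (m + 1) t) * v (X a s m t) : ℝ) : ℂ)‖ ≤ 1 :=
      hz _ (mul_nonneg hu1.1 hv1.1) (mul_le_one₀ hu1.2 hv1.1 hv1.2)
    have hd1 := abs_nonneg (D a s (m + 1) t)
    have hd0 := abs_nonneg (D a s m t)
    have k1 : |u' (X a s (m + 1) t) * D a s (m + 1) t * v (X a s m t) +
        u (X a s (m + 1) t) * (v' (X a s m t) * D a s m t)| ≤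
        |u' (X a s (m + 1) t)| * |D a s (m + 1) t| + |v' (X a s m t)| * |D a s m t| := by
      refine (abs_add_le _ _).trans (add_le_add ?_ ?_)
      · rw [abs_mul, abs_mul, abs_of_nonneg hv1.1]
        exact mul_le_of_le_one_right (by positivity) hv1.2
      · rw [abs_mul, abs_mul, abs_of_nonneg hu1.1]
        exact mul_le_of_le_one_left (by positivity) hu1.2
    have k2 : ‖QQ' a s z u u' v v' (m + 1) t‖ ≤ ‖QQ' a s z u u' v v' m t‖ +
        2 * (|u' (X a s (m + 1) t)| * |D a s (m + 1) t| + |v' (X a s m t)| * |D a s m t|) := by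
      show ‖QQ' a s z u u' v v' m t * (1 + z * ((u (X a s (m + 1) t) * v (X a s m t) : ℝ) : ℂ)) +
        QQ a s z u v m t * (z * ((u' (X a s (m + 1) t) * D a s (m + 1) t * v (X a s m t) +
        u (X a s (m + 1) t) * (v' (X a s m t) * D a s m t) : ℝ) : ℂ))‖ ≤ _
      refine (norm_add_le _ _).trans (add_le_add ?_ ?_)
      · rw [norm_mul]
        exact mul_le_of_le_one_right (norm_nonneg _) hfac
      · rw [norm_mul, norm_mul, Complex.norm_real, norm_eq_abs]
        calc ‖QQ a s z u v m t‖ * (‖z‖ * |u' (X a s (m + 1) t) * D a s (m + 1) t * v (X a s m t) +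
              u (X a s (m + 1) t) * (v' (X a s m t) * D a s m t)|)
            ≤ 1 * (2 * (|u' (X a s (m + 1) t)| * |D a s (m + 1) t| +
                |v' (X a s m t)| * |D a s m t|)) := by
              apply mul_le_mul hQ _ (by positivity) zero_le_one
              exact mul_le_mul hz2 k1 (abs_nonneg _) (by norm_num)
          _ = _ := one_mul _
    have k3 : UF a s (wt u' v') m t * |D a s m t| ≤
        UF a s (wt u' v') m t / 2 * |D a s (m + 1) t| := by
      have h4 : |D a s m t| ≤ |D a s (m + 1) t| / 2 := by nlinarith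
      calc UF a s (wt u' v') m t * |D a s m t| ≤ UF a s (wt u' v') m t * (|D a s (m + 1) t| / 2) :=
            mul_le_mul_of_nonneg_left h4 h3
        _ = _ := by ring
    show ‖QQ' a s z u u' v v' (m + 1) t‖ + 2 * (|v' (X a s (m + 1) t)| * |D a s (m + 1) t|) ≤
      2 * ((UF a s (wt u' v') m t / 2 + (|u' (X a s (m + 1) t)| + |v' (X a s (m + 1) t)|)) *
        |D a s (m + 1) t|)
    nlinarith

/-- the hypotheses on the two smooth functions -/
structure Data (u u' v v' : ℝ → ℝ) (U W V : ℝ) : Prop where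
  bu : Bump u u'
  bv : Bump v v'
  intu : ∫ x in (0:ℝ)..1, u x = U
  intv : ∫ x in (0:ℝ)..1, v x = W
  wtV : ∫ x in (0:ℝ)..1, wt u' v' x ≤ V

theorem wt_cont {u u' v v' : ℝ → ℝ} (hu : Bump u u') (hv : Bump v v') :
    Continuous (wt u' v') := hu.c.abs.add hv.c.abs

theorem wt_per {u u' v v' : ℝ → ℝ} (hu : Bump u u') (hv : Bump v v') :
    Periodic (wt u' v') 1 := by
  intro x
  unfold wt
  rw [hu.p' x, hv.p' x]

theorem wt_nonneg (u' v' : ℝ → ℝ) (x : ℝ) : 0 ≤ wt u' v' x :=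
  add_nonneg (abs_nonneg _) (abs_nonneg _)

/-- the product times a function of the last point -/
theorem QQv_hasDeriv (a s : ℝ) (z : ℂ) {u u' v v' : ℝ → ℝ} (hu : Bump u u') (hv : Bump v v')
    (m : ℕ) (t : ℝ) : HasDerivAt (fun t => QQ a s z u v m t * ((v (X a s m t) : ℝ) : ℂ))
      (QQ' a s z u u' v v' m t * ((v (X a s m t) : ℝ) : ℂ) +
        QQ a s z u v m t * ((v' (X a s m t) * D a s m t : ℝ) : ℂ)) t :=
  (QQ_hasDeriv a s z hu hv m t).mul (comp_d hv a s m t).ofReal_comp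

variable {a l : ℝ} {z : ℂ} {u u' v v' : ℝ → ℝ} {U W V : ℝ}

/-- the mean of the next factor, first form -/
theorem avg1 (hl' : l0 ≤ l) (hla : l ≤ |a|) (s : ℝ) (hz : Zok z) (hd : Data u u' v v' U W V)
    (m : ℕ) {g : ℝ → ℝ} (hg : Continuous g) (pg : Periodic g 1) (g0 : ∀ x, 0 ≤ g x) {M : ℝ}
    (hM : ∫ x in (0:ℝ)..1, g x = M) :
    ‖(∫ t in (0:ℝ)..1, (chi a l s m t : ℂ) * QQ a s z u v m t * (g (X a s (m + 1) t) : ℂ)) -
      M * ∫ t in (0:ℝ)..1, (chi a l s m t : ℂ) * QQ a s z u v m t‖ ≤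
      4 * (M * ((l0 + 16 * V) / l)) := by
  have hl : 16 ≤ l := l0_ge.trans hl'
  have h := avg hl' hla s m (QQ_hasDeriv a s z hd.bu hd.bv m) (QQ'_cont a s z hd.bu hd.bv m)
    (QQ_norm a s hz hd.bu.m hd.bv.m m) (QQ_per a s z hd.bu.p hd.bv.p m) (wt_cont hd.bu hd.bv)
    (wt_per hd.bu hd.bv) (wt_nonneg u' v') hd.wtV (κ := 2) (by norm_num)
    (fun t ht => by
      have h1 := QQ'_bound hl hz hd.bu hd.bv ht
      have h2 : 0 ≤ 2 * (|v' (X a s m t)| * |D a s m t|) := by positivity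
      linarith) hg pg g0 hM
  refine h.trans (le_of_eq ?_)
  ring

/-- the mean of the next factor, second form -/
theorem avg2 (hl' : l0 ≤ l) (hla : l ≤ |a|) (s : ℝ) (hz : Zok z) (hd : Data u u' v v' U W V)
    (m : ℕ) {g : ℝ → ℝ} (hg : Continuous g) (pg : Periodic g 1) (g0 : ∀ x, 0 ≤ g x) {M : ℝ}
    (hM : ∫ x in (0:ℝ)..1, g x = M) :
    ‖(∫ t in (0:ℝ)..1, (chi a l s m t : ℂ) * (QQ a s z u v m t * ((v (X a s m t) : ℝ) : ℂ)) *
        (g (X a s (m + 1) t) : ℂ)) -
      M * ∫ t in (0:ℝ)..1, (chi a l s m t : ℂ) * (QQ a s z u v m t * ((v (X a s m t) : ℝ) : ℂ))‖ ≤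
      4 * (M * ((l0 + 16 * V) / l)) := by
  have hl : 16 ≤ l := l0_ge.trans hl'
  have c1 := QQ_cont a s z hd.bu.cont hd.bv.cont m
  have c2 := QQ'_cont a s z hd.bu hd.bv m
  have c3 := X_cont' a s m hd.bv.cont
  have c4 := X_cont' a s m hd.bv.c
  have c5 := D_cont a s m
  have h := avg hl' hla s m (QQv_hasDeriv a s z hd.bu hd.bv m)
    ((c2.mul (Complex.continuous_ofReal.comp c3)).add
      (c1.mul (Complex.continuous_ofReal.comp (c4.mul c5))))
    (fun t => by
      rw [norm_mul, Complex.norm_real, norm_eq_abs, abs_of_nonneg (hd.bv.m _).1]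
      exact mul_le_one₀ (QQ_norm a s hz hd.bu.m hd.bv.m m t) (hd.bv.m _).1 (hd.bv.m _).2)
    (fun t => by rw [QQ_per a s z hd.bu.p hd.bv.p, per_X hd.bv.p]) (wt_cont hd.bu hd.bv)
    (wt_per hd.bu hd.bv) (wt_nonneg u' v') hd.wtV (κ := 2) (by norm_num)
    (fun t ht => by
      have h1 := QQ'_bound hl hz hd.bu hd.bv ht
      have h2 : 0 ≤ |v' (X a s m t)| * |D a s m t| := by positivity
      refine (norm_add_le _ _).trans ?_
      rw [norm_mul, norm_mul, Complex.norm_real, Complex.norm_real, norm_eq_abs, norm_eq_abs,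
        abs_of_nonneg (hd.bv.m _).1, abs_mul]
      have h3 : ‖QQ' a s z u u' v v' m t‖ * v (X a s m t) ≤ ‖QQ' a s z u u' v v' m t‖ :=
        mul_le_of_le_one_right (norm_nonneg _) (hd.bv.m _).2
      have h4 : ‖QQ a s z u v m t‖ * (|v' (X a s m t)| * |D a s m t|) ≤
          |v' (X a s m t)| * |D a s m t| :=
        mul_le_of_le_one_left h2 (QQ_norm a s hz hd.bu.m hd.bv.m m t)
      linarith) hg pg g0 hM
  refine h.trans (le_of_eq ?_)
  ring

end Pool.Agent.R241.PW
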