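import Pool.Agent.R241.PW2

set_option autoImplicit false

/-!
# The recursion for the expectations of the products
-/

namespace Pool.Agent.R241.PW

open Real MeasureTheory Function
open Pool.Agent.TH705.SM Pool.Agent.R241.PV

/-- the expectations -/
noncomputable def AA (a l s : ℝ) (z : ℂ) (u v : ℝ → ℝ) (m : ℕ) : ℂ :=
  ∫ t in (0:ℝ)..1, (chi a l s m t : ℂ) * QQ a s z u v m t

/-- the expectations, with a function of the last point -/
noncomputable def BB (a l s : ℝ) (z : ℂ) (u v : ℝ → ℝ) (m : ℕ) : ℂ :=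
  ∫ t in (0:ℝ)..1, (chi a l s m t : ℂ) * (QQ a s z u v m t * ((v (X a s m t) : ℝ) : ℂ))

variable {a l : ℝ} {z : ℂ} {u u' v v' : ℝ → ℝ} {U W V : ℝ}

theorem Data.U0 (hd : Data u u' v v' U W V) : 0 ≤ U := by
  rw [← hd.intu]
  exact intervalIntegral.integral_nonneg zero_le_one fun x _ => (hd.bu.m x).1

theorem Data.W0 (hd : Data u u' v v' U W V) : 0 ≤ W := by
  rw [← hd.intv]
  exact intervalIntegral.integral_nonneg zero_le_one fun x _ => (hd.bv.m x).1

theorem int_le_one {f : ℝ → ℝ} (hf : Continuous f) (h : ∀ x, f x ≤ 1) :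
    ∫ x in (0:ℝ)..1, f x ≤ 1 := by
  have := intervalIntegral.integral_mono_on (μ := volume) (a := (0:ℝ)) (b := 1) zero_le_one
    (hf.intervalIntegrable _ _) ((continuous_const (y := (1:ℝ))).intervalIntegrable _ _)
    (fun x _ => h x)
  simpa using this

theorem Data.U1 (hd : Data u u' v v' U W V) : U ≤ 1 := by
  rw [← hd.intu]
  exact int_le_one hd.bu.cont fun x => (hd.bu.m x).2

theorem Data.W1 (hd : Data u u' v v' U W V) : W ≤ 1 := by
  rw [← hd.intv]
  exact int_le_one hd.bv.cont fun x => (hd.bv.m x).2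

theorem Data.V0 (hd : Data u u' v v' U W V) : 0 ≤ V :=
  (intervalIntegral.integral_nonneg zero_le_one fun x _ => wt_nonneg u' v' x).trans hd.wtV

theorem norm_int_le_one {F : ℝ → ℂ} (hF : ∀ t, ‖F t‖ ≤ 1) : ‖∫ t in (0:ℝ)..1, F t‖ ≤ 1 := by
  have := intervalIntegral.norm_integral_le_of_norm_le_const (a := 0) (b := 1)
    (f := F) (C := 1) (fun x _ => hF x)
  simpa using this

theorem BB_norm (s : ℝ) (hz : Zok z) (hd : Data u u' v v' U W V) (m : ℕ) :
    ‖BB a l s z u v m‖ ≤ 1 := by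
  apply norm_int_le_one
  intro t
  have hc := chi_mem a l s m t
  rw [norm_mul, norm_mul, Complex.norm_real, Complex.norm_real, norm_eq_abs, norm_eq_abs,
    abs_of_nonneg hc.1, abs_of_nonneg (hd.bv.m _).1]
  exact mul_le_one₀ hc.2 (mul_nonneg (norm_nonneg _) (hd.bv.m _).1)
    (mul_le_one₀ (QQ_norm a s hz hd.bu.m hd.bv.m m t) (hd.bv.m _).1 (hd.bv.m _).2)

theorem A_step (hl' : l0 ≤ l) (hla : l ≤ |a|) (s : ℝ) (hz : Zok z)
    (hd : Data u u' v v' U W V) (m : ℕ) :
    ‖AA a l s z u v (m + 1) - AA a l s z u v m - z * U * BB a l s z u v m‖ ≤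
      8 * (U * ((l0 + 16 * V) / l)) + 2 * (l / |a|) := by
  have hl : 16 ≤ l := l0_ge.trans hl'
  have hcc := chi_cont a l s m
  have c1 := QQ_cont a s z hd.bu.cont hd.bv.cont m
  have c1' := QQ_cont a s z hd.bu.cont hd.bv.cont (m + 1)
  have c3 := X_cont' a s m hd.bv.cont
  have c4 := X_cont' a s (m + 1) hd.bu.cont
  have hvc := hd.bv.cont
  have huc := hd.bu.cont
  have hX1 := Xt_cont a s m
  have hX2 := Xt_cont a s (m + 1)
  have hloss := loss_c hl' hla s m c1' (fun t => QQ_norm a s hz hd.bu.m hd.bv.m (m + 1) t)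
  have havg := avg2 hl' hla s hz hd m hd.bu.cont hd.bu.p (fun x => (hd.bu.m x).1) hd.intu
  have e1 : ∫ t in (0:ℝ)..1, (chi a l s m t : ℂ) * QQ a s z u v (m + 1) t =
      AA a l s z u v m + z * ∫ t in (0:ℝ)..1, (chi a l s m t : ℂ) *
        (QQ a s z u v m t * ((v (X a s m t) : ℝ) : ℂ)) * (u (X a s (m + 1) t) : ℂ) := by
    unfold AA
    rw [← intervalIntegral.integral_const_mul, ← intervalIntegral.integral_add
      (Continuous.intervalIntegrable (by fun_prop) _ _)
      (Continuous.intervalIntegrable (by fun_prop) _ _)]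
    apply intervalIntegral.integral_congr
    intro t _
    show (chi a l s m t : ℂ) * (QQ a s z u v m t *
      (1 + z * ((u (X a s (m + 1) t) * v (X a s m t) : ℝ) : ℂ))) = _
    push_cast
    ring
  rw [e1] at hloss
  set J := ∫ t in (0:ℝ)..1, (chi a l s m t : ℂ) *
        (QQ a s z u v m t * ((v (X a s m t) : ℝ) : ℂ)) * (u (X a s (m + 1) t) : ℂ) with hJ
  have e2 : AA a l s z u v (m + 1) - AA a l s z u v m - z * U * BB a l s z u v m =
      (AA a l s z u v (m + 1) - (AA a l s z u v m + z * J)) +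
        z * (J - U * BB a l s z u v m) := by ring
  rw [e2]
  refine (norm_add_le _ _).trans ?_
  have h3 : ‖z * (J - U * BB a l s z u v m)‖ ≤ 2 * (4 * (U * ((l0 + 16 * V) / l))) := by
    rw [norm_mul]
    exact mul_le_mul hz.two havg (norm_nonneg _) (by norm_num)
  have h4 : ‖AA a l s z u v (m + 1) - (AA a l s z u v m + z * J)‖ ≤ 2 * (l / |a|) := hloss
  linarith

theorem QQ_zero (a s : ℝ) (u v : ℝ → ℝ) (m : ℕ) (t : ℝ) : QQ a s 0 u v m t = 1 := by
  induction m with
  | zero => rfl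
  | succ m ih =>
    show QQ a s 0 u v m t * (1 + 0 * ((u (X a s (m + 1) t) * v (X a s m t) : ℝ) : ℂ)) = 1
    rw [ih]
    simp

theorem Zok_zero : Zok 0 := by
  intro x _ _
  simp

theorem J_le (hl' : l0 ≤ l) (hla : l ≤ |a|) (s : ℝ) (hd : Data u u' v v' U W V) (k : ℕ) :
    ∫ t in (0:ℝ)..1, chi a l s (k + 1) t * (v (X a s (k + 1) t) * u (X a s (k + 2) t)) ≤
      2 * (U * W) + 4 * (U * ((l0 + 16 * V) / l)) := by
  have hcc := chi_cont a l s (k + 1)
  have hcc0 := chi_cont a l s k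
  have c3 := X_cont' a s (k + 1) hd.bv.cont
  have c4 := X_cont' a s (k + 2) hd.bu.cont
  have hvc := hd.bv.cont
  have huc := hd.bu.cont
  have hX1 := Xt_cont a s (k + 1)
  have hX2 := Xt_cont a s (k + 2)
  have h := avg2 hl' hla s Zok_zero hd (k + 1) hd.bu.cont hd.bu.p (fun x => (hd.bu.m x).1) hd.intu
  simp only [QQ_zero, one_mul] at h
  have e1 : ∫ t in (0:ℝ)..1, (chi a l s (k + 1) t : ℂ) * ((v (X a s (k + 1) t) : ℝ) : ℂ) *
        (u (X a s (k + 1 + 1) t) : ℂ) =
      ((∫ t in (0:ℝ)..1, chi a l s (k + 1) t * (v (X a s (k + 1) t) * u (X a s (k + 2) t)) : ℝ) :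
        ℂ) := by
    rw [← intervalIntegral.integral_ofReal]
    apply intervalIntegral.integral_congr
    intro t _
    simp only
    push_cast
    ring
  have e2 : ∫ t in (0:ℝ)..1, (chi a l s (k + 1) t : ℂ) * ((v (X a s (k + 1) t) : ℝ) : ℂ) =
      ((∫ t in (0:ℝ)..1, chi a l s (k + 1) t * v (X a s (k + 1) t) : ℝ) : ℂ) := by
    rw [← intervalIntegral.integral_ofReal]
    apply intervalIntegral.integral_congr
    intro t _
    simp only
    push_cast
    ring
  rw [e1, e2] at h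
  have e3 : ∀ x y : ℝ, ‖(x : ℂ) - U * (y : ℂ)‖ = |x - U * y| := by
    intro x y
    rw [← Complex.ofReal_mul, ← Complex.ofReal_sub, Complex.norm_real, norm_eq_abs]
  rw [e3] at h
  have h1 := (abs_le.1 h).2
  have h2 : ∫ t in (0:ℝ)..1, chi a l s (k + 1) t * v (X a s (k + 1) t) ≤ 2 * W := by
    refine le_trans ?_ ((dens hl' hla s k hd.bv.cont hd.bv.p fun x => (hd.bv.m x).1).trans
      (by rw [hd.intv]))
    apply intervalIntegral.integral_mono_on zero_le_one
      (Continuous.intervalIntegrable (by fun_prop) _ _)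
      (Continuous.intervalIntegrable (by fun_prop) _ _)
    intro t _
    exact mul_le_mul_of_nonneg_right (chi_succ_le a l s k t) (hd.bv.m _).1
  have h3 := mul_le_mul_of_nonneg_left h2 hd.U0
  linarith

theorem B_step (hl' : l0 ≤ l) (hla : l ≤ |a|) (s : ℝ) (hz : Zok z)
    (hd : Data u u' v v' U W V) (k : ℕ) :
    ‖BB a l s z u v (k + 2) - W * AA a l s z u v (k + 1)‖ ≤
      4 * (W * ((l0 + 16 * V) / l)) + 2 * (2 * (U * W) + 4 * (U * ((l0 + 16 * V) / l))) +
        2 * (l / |a|) := by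
  have hl : 16 ≤ l := l0_ge.trans hl'
  set m := k + 1 with hm
  have hcc := chi_cont a l s m
  have c1 := QQ_cont a s z hd.bu.cont hd.bv.cont m
  have c1' := QQ_cont a s z hd.bu.cont hd.bv.cont (m + 1)
  have c3 := X_cont' a s m hd.bv.cont
  have c4 := X_cont' a s (m + 1) hd.bu.cont
  have hvc := hd.bv.cont
  have huc := hd.bu.cont
  have hX1 := Xt_cont a s m
  have hX2 := Xt_cont a s (m + 1)
  have c5 := X_cont' a s (m + 1) hd.bv.cont
  have hloss := loss_c hl' hla s m
    (F := fun t => QQ a s z u v (m + 1) t * ((v (X a s (m + 1) t) : ℝ) : ℂ))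
    (by fun_prop) (fun t => by
      rw [norm_mul, Complex.norm_real, norm_eq_abs, abs_of_nonneg (hd.bv.m _).1]
      exact mul_le_one₀ (QQ_norm a s hz hd.bu.m hd.bv.m (m + 1) t) (hd.bv.m _).1 (hd.bv.m _).2)
  have havg := avg1 hl' hla s hz hd m hd.bv.cont hd.bv.p (fun x => (hd.bv.m x).1) hd.intv
  have e1 : ∫ t in (0:ℝ)..1, (chi a l s m t : ℂ) *
      (QQ a s z u v (m + 1) t * ((v (X a s (m + 1) t) : ℝ) : ℂ)) =
      (∫ t in (0:ℝ)..1, (chi a l s m t : ℂ) * QQ a s z u v m t * (v (X a s (m + 1) t) : ℂ)) +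
      ∫ t in (0:ℝ)..1, z * ((chi a l s m t : ℂ) *
        (QQ a s z u v m t * (((v (X a s m t)) * u (X a s (m + 1) t) * v (X a s (m + 1) t) : ℝ) :
          ℂ))) := by
    rw [← intervalIntegral.integral_add
      (Continuous.intervalIntegrable (by fun_prop) _ _)
      (Continuous.intervalIntegrable (by fun_prop) _ _)]
    apply intervalIntegral.integral_congr
    intro t _
    show (chi a l s m t : ℂ) * (QQ a s z u v m t *
      (1 + z * ((u (X a s (m + 1) t) * v (X a s m t) : ℝ) : ℂ)) *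
        ((v (X a s (m + 1) t) : ℝ) : ℂ)) = _
    push_cast
    ring
  rw [e1] at hloss
  set I1 := ∫ t in (0:ℝ)..1, (chi a l s m t : ℂ) * QQ a s z u v m t * (v (X a s (m + 1) t) : ℂ)
    with hI1
  set I2 := ∫ t in (0:ℝ)..1, z * ((chi a l s m t : ℂ) *
        (QQ a s z u v m t * (((v (X a s m t)) * u (X a s (m + 1) t) * v (X a s (m + 1) t) : ℝ) :
          ℂ))) with hI2
  have h3 : ‖I2‖ ≤ 2 * (2 * (U * W) + 4 * (U * ((l0 + 16 * V) / l))) := by
    have hJ := J_le hl' hla s hd k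
    have h4 : ‖I2‖ ≤ ∫ t in (0:ℝ)..1, 2 * (chi a l s m t * (v (X a s m t) * u (X a s (m + 1) t))) := by
      apply intervalIntegral.norm_integral_le_of_norm_le zero_le_one
      · apply Filter.Eventually.of_forall
        intro t _
        have hc := chi_mem a l s m t
        have hv1 := hd.bv.m (X a s m t)
        have hu1 := hd.bu.m (X a s (m + 1) t)
        have hv2 := hd.bv.m (X a s (m + 1) t)
        have hp : 0 ≤ v (X a s m t) * u (X a s (m + 1) t) := mul_nonneg hv1.1 hu1.1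
        rw [norm_mul, norm_mul, norm_mul, Complex.norm_real, Complex.norm_real, norm_eq_abs,
          norm_eq_abs, abs_of_nonneg hc.1, abs_of_nonneg (mul_nonneg hp hv2.1)]
        apply mul_le_mul hz.two _ (mul_nonneg hc.1 (mul_nonneg (norm_nonneg _)
          (mul_nonneg hp hv2.1))) (by norm_num)
        apply mul_le_mul_of_nonneg_left _ hc.1
        calc ‖QQ a s z u v m t‖ * (v (X a s m t) * u (X a s (m + 1) t) * v (X a s (m + 1) t))
            ≤ 1 * (v (X a s m t) * u (X a s (m + 1) t) * 1) :=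
              mul_le_mul (QQ_norm a s hz hd.bu.m hd.bv.m m t)
                (mul_le_mul_of_nonneg_left hv2.2 hp) (mul_nonneg hp hv2.1) zero_le_one
          _ = _ := by ring
      · exact Continuous.intervalIntegrable (by fun_prop) _ _
    rw [intervalIntegral.integral_const_mul] at h4
    have h5 := mul_le_mul_of_nonneg_left hJ (by norm_num : (0:ℝ) ≤ 2)
    exact h4.trans h5
  have e2 : BB a l s z u v (k + 2) - W * AA a l s z u v (k + 1) =
      (BB a l s z u v (k + 2) - (I1 + I2)) + (I1 - W * AA a l s z u v (k + 1)) + I2 := by ring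
  rw [e2]
  refine (norm_add₃_le).trans ?_
  have h6 : ‖BB a l s z u v (k + 2) - (I1 + I2)‖ ≤ 2 * (l / |a|) := hloss
  have h7 : ‖I1 - W * AA a l s z u v (k + 1)‖ ≤ 4 * (W * ((l0 + 16 * V) / l)) := havg
  linarith

theorem AA_zero (a l s : ℝ) (z : ℂ) (u v : ℝ → ℝ) : AA a l s z u v 0 = 1 := by
  unfold AA
  simp [chi, QQ]

theorem w_norm (hz : Zok z) (hd : Data u u' v v' U W V) :
    ‖1 + z * ((U * W : ℝ) : ℂ)‖ ≤ 1 :=
  hz _ (mul_nonneg hd.U0 hd.W0) (mul_le_one₀ hd.U1 hd.W0 hd.W1)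

/-- the crude bound -/
theorem crude (hl' : l0 ≤ l) (hla : l ≤ |a|) (s : ℝ) (hz : Zok z)
    (hd : Data u u' v v' U W V) (m : ℕ) :
    ‖AA a l s z u v (m + 1) - AA a l s z u v m‖ ≤
      8 * (U * ((l0 + 16 * V) / l)) + 2 * (l / |a|) + 2 * U := by
  have h1 := A_step hl' hla s hz hd m
  have h2 : ‖z * U * BB a l s z u v m‖ ≤ 2 * U := by
    rw [norm_mul, norm_mul, Complex.norm_real, norm_eq_abs, abs_of_nonneg hd.U0]
    calc ‖z‖ * U * ‖BB a l s z u v m‖ ≤ 2 * U * 1 :=
          mul_le_mul (mul_le_mul_of_nonneg_right hz.two hd.U0) (BB_norm s hz hd m) (norm_nonneg _)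
            (mul_nonneg (by norm_num) hd.U0)
      _ = _ := mul_one _
  have e : AA a l s z u v (m + 1) - AA a l s z u v m =
      (AA a l s z u v (m + 1) - AA a l s z u v m - z * U * BB a l s z u v m) +
        z * U * BB a l s z u v m := by ring
  rw [e]
  refine (norm_add_le _ _).trans ?_
  linarith

theorem AA_norm (s : ℝ) (hz : Zok z) (hd : Data u u' v v' U W V) (m : ℕ) :
    ‖AA a l s z u v m‖ ≤ 1 := by
  apply norm_int_le_one
  intro t
  have hc := chi_mem a l s m t
  rw [norm_mul, Complex.norm_real, norm_eq_abs, abs_of_nonneg hc.1]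
  exact mul_le_one₀ hc.2 (norm_nonneg _) (QQ_norm a s hz hd.bu.m hd.bv.m m t)

/-- the recursion -/
theorem fine (hl' : l0 ≤ l) (hla : l ≤ |a|) (s : ℝ) (hz : Zok z)
    (hd : Data u u' v v' U W V) (m : ℕ) :
    ‖AA a l s z u v (m + 1) - (1 + z * ((U * W : ℝ) : ℂ)) * AA a l s z u v m‖ ≤
      (48 * (U * ((l0 + 16 * V) / l)) + 10 * (l / |a|) + 12 * (U * (U * W))) +
        (if m < 2 then 4 * U else 0) := by
  have hU0 := hd.U0
  have hU1 := hd.U1
  have hW0 := hd.W0
  have hW1 := hd.W1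
  have hV0 := hd.V0
  have h16 := l0_ge
  have hl : 0 < l := by linarith
  have ha : 0 < |a| := by linarith
  have hT0 : 0 ≤ (l0 + 16 * V) / l := by positivity
  have hL0 : 0 ≤ l / |a| := by positivity
  have hUW : U * W ≤ U := mul_le_of_le_one_right hU0 hW1
  set T := (l0 + 16 * V) / l with hT
  set Λ := l / |a| with hΛ
  have hUT : 0 ≤ U * T := mul_nonneg hU0 hT0
  have hUUW : 0 ≤ U * (U * W) := by positivity
  split_ifs with hm
  · have h1 := crude hl' hla s hz hd m
    have h2 : ‖z * ((U * W : ℝ) : ℂ) * AA a l s z u v m‖ ≤ 2 * (U * W) := by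
      rw [norm_mul, norm_mul, Complex.norm_real, norm_eq_abs, abs_of_nonneg (by positivity)]
      calc ‖z‖ * (U * W) * ‖AA a l s z u v m‖ ≤ 2 * (U * W) * 1 :=
            mul_le_mul (mul_le_mul_of_nonneg_right hz.two (by positivity)) (AA_norm s hz hd m)
              (norm_nonneg _) (by positivity)
        _ = _ := mul_one _
    have e : AA a l s z u v (m + 1) - (1 + z * ((U * W : ℝ) : ℂ)) * AA a l s z u v m =
        (AA a l s z u v (m + 1) - AA a l s z u v m) -
          z * ((U * W : ℝ) : ℂ) * AA a l s z u v m := by ring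
    rw [e]
    refine (norm_sub_le _ _).trans ?_
    linarith
  · obtain ⟨k, rfl⟩ : ∃ k, m = k + 2 := ⟨m - 2, by omega⟩
    have h1 := A_step hl' hla s hz hd (k + 2)
    have h2 := B_step hl' hla s hz hd k
    have h3 := crude hl' hla s hz hd (k + 1)
    have e : AA a l s z u v (k + 2 + 1) - (1 + z * ((U * W : ℝ) : ℂ)) * AA a l s z u v (k + 2) =
        (AA a l s z u v (k + 2 + 1) - AA a l s z u v (k + 2) - z * U * BB a l s z u v (k + 2)) +
        z * U * (BB a l s z u v (k + 2) - W * AA a l s z u v (k + 1)) +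
        -(z * ((U * W : ℝ) : ℂ) * (AA a l s z u v (k + 1 + 1) - AA a l s z u v (k + 1))) := by
      push_cast
      ring
    rw [e]
    refine (norm_add₃_le).trans ?_
    have k2 : ‖z * U * (BB a l s z u v (k + 2) - W * AA a l s z u v (k + 1))‖ ≤
        2 * U * (4 * (W * T) + 2 * (2 * (U * W) + 4 * (U * T)) + 2 * Λ) := by
      rw [norm_mul, norm_mul, Complex.norm_real, norm_eq_abs, abs_of_nonneg hU0]
      exact mul_le_mul (mul_le_mul_of_nonneg_right hz.two hU0) h2 (norm_nonneg _)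
        (mul_nonneg (by norm_num) hU0)
    have k3 : ‖-(z * ((U * W : ℝ) : ℂ) * (AA a l s z u v (k + 1 + 1) - AA a l s z u v (k + 1)))‖ ≤
        2 * (U * W) * (8 * (U * T) + 2 * Λ + 2 * U) := by
      rw [norm_neg, norm_mul, norm_mul, Complex.norm_real, norm_eq_abs,
        abs_of_nonneg (by positivity : 0 ≤ U * W)]
      exact mul_le_mul (mul_le_mul_of_nonneg_right hz.two (by positivity)) h3 (norm_nonneg _)
        (by positivity)
    have q1 : U * (W * T) ≤ U * T := by
      calc U * (W * T) = U * T * W := by ring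
        _ ≤ _ := mul_le_of_le_one_right hUT hW1
    have q2 : U * (U * T) ≤ U * T := mul_le_of_le_one_left hUT hU1
    have q3 : U * Λ ≤ Λ := mul_le_of_le_one_left hL0 hU1
    have q4 : U * W * (U * T) ≤ U * T :=
      mul_le_of_le_one_left hUT (mul_le_one₀ hU1 hW0 hW1)
    have q5 : U * W * Λ ≤ Λ := mul_le_of_le_one_left hL0 (mul_le_one₀ hU1 hW0 hW1)
    nlinarith

/-- the expectation of the products -/
theorem AA_pow (hl' : l0 ≤ l) (hla : l ≤ |a|) (s : ℝ) (hz : Zok z)
    (hd : Data u u' v v' U W V) (n : ℕ) :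
    ‖AA a l s z u v n - (1 + z * ((U * W : ℝ) : ℂ)) ^ n‖ ≤
      n * (48 * (U * ((l0 + 16 * V) / l)) + 10 * (l / |a|) + 12 * (U * (U * W))) + 8 * U := by
  have hU0 := hd.U0
  have key : ‖AA a l s z u v n - (1 + z * ((U * W : ℝ) : ℂ)) ^ n‖ ≤
      n * (48 * (U * ((l0 + 16 * V) / l)) + 10 * (l / |a|) + 12 * (U * (U * W))) +
        (min n 2 : ℕ) * (4 * U) := by
    induction n with
    | zero =>
      rw [AA_zero]
      simp
    | succ n ih =>
      have h1 := fine hl' hla s hz hd n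
      have e1 : AA a l s z u v (n + 1) - (1 + z * ((U * W : ℝ) : ℂ)) ^ (n + 1) =
          (AA a l s z u v (n + 1) - (1 + z * ((U * W : ℝ) : ℂ)) * AA a l s z u v n) +
          (1 + z * ((U * W : ℝ) : ℂ)) * (AA a l s z u v n - (1 + z * ((U * W : ℝ) : ℂ)) ^ n) := by
        ring
      rw [e1]
      refine (norm_add_le _ _).trans ?_
      rw [norm_mul]
      have h2 : ‖1 + z * ((U * W : ℝ) : ℂ)‖ * ‖AA a l s z u v n - (1 + z * ((U * W : ℝ) : ℂ)) ^ n‖ ≤
          1 * ‖AA a l s z u v n - (1 + z * ((U * W : ℝ) : ℂ)) ^ n‖ :=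
        mul_le_mul_of_nonneg_right (w_norm hz hd) (norm_nonneg _)
      have h3 : ((min n 2 : ℕ) : ℝ) * (4 * U) + (if n < 2 then 4 * U else 0) =
          ((min (n + 1) 2 : ℕ) : ℝ) * (4 * U) := by
        split_ifs with hn
        · rw [min_eq_left (by omega), min_eq_left (by omega)]
          push_cast
          ring
        · rw [min_eq_right (by omega), min_eq_right (by omega)]
          ring
      rw [Nat.cast_succ]
      linarith
  refine key.trans ?_
  have h4 : ((min n 2 : ℕ) : ℝ) ≤ 2 := by exact_mod_cast min_le_right n 2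
  have h5 : ((min n 2 : ℕ) : ℝ) * (4 * U) ≤ 2 * (4 * U) :=
    mul_le_mul_of_nonneg_right h4 (by positivity)
  linarith

end Pool.Agent.R241.PW
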