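import Pool.Agent.R241.PW3
import Pool.Agent.R241.PV4

set_option autoImplicit false

/-!
# The number of visits to a rectangle
-/

namespace Pool.Agent.R241.PW

open Real MeasureTheory Function
open Pool.Agent.TH705.SM Pool.Agent.R241.PV

/-- the majorants of the differences -/
noncomputable def hh (a s : ℝ) (u gu gv : ℝ → ℝ) : ℕ → ℝ → ℝ
  | 0, t => u (X a s 1 t)
  | k + 1, t => gu (X a s (k + 2) t) + gv (X a s (k + 1) t)

theorem hh_cont (a s : ℝ) {u gu gv : ℝ → ℝ} (cu : Continuous u) (cgu : Continuous gu)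
    (cgv : Continuous gv) (k : ℕ) : Continuous (hh a s u gu gv k) := by
  cases k with
  | zero => exact X_cont' a s 1 cu
  | succ k => exact (X_cont' a s (k + 2) cgu).add (X_cont' a s (k + 1) cgv)

variable {a l : ℝ} {z : ℂ} {u u' v v' : ℝ → ℝ} {U W V : ℝ}

theorem QQ_diff (s : ℝ) (hz : Zok z) {u0 v0 gu gv : ℝ → ℝ} (hu : ∀ x, 0 ≤ u x ∧ u x ≤ 1)
    (hv : ∀ x, 0 ≤ v x ∧ v x ≤ 1) (hu0 : ∀ x, 0 ≤ u0 x ∧ u0 x ≤ 1)
    (hv0 : ∀ x, 0 ≤ v0 x ∧ v0 x ≤ 1) (hle : ∀ x, u0 x ≤ u x)
    (hgu : ∀ x, |u x - u0 x| ≤ gu x) (hgv : ∀ x, |v x - v0 x| ≤ gv x) (n : ℕ) (t : ℝ) :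
    ‖QQ a s z u0 v0 n t - QQ a s z u v n t‖ ≤ 2 * ∑ k ∈ Finset.range n, hh a s u gu gv k t := by
  induction n with
  | zero => simp [QQ]
  | succ n ih =>
    rw [Finset.sum_range_succ, mul_add]
    set b0 : ℝ := u0 (X a s (n + 1) t) * v0 (X a s n t) with hb0
    set b1 : ℝ := u (X a s (n + 1) t) * v (X a s n t) with hb1
    have g1 := hu (X a s (n + 1) t)
    have g2 := hv (X a s n t)
    have g3 := hu0 (X a s (n + 1) t)
    have g4 := hv0 (X a s n t)
    have hbb : |b0 - b1| ≤ hh a s u gu gv n t := by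
      cases n with
      | zero =>
        show |b0 - b1| ≤ u (X a s 1 t)
        have q1 : b0 ≤ u (X a s (0 + 1) t) := by
          calc b0 ≤ u0 (X a s (0 + 1) t) := mul_le_of_le_one_right g3.1 g4.2
            _ ≤ _ := hle _
        have q2 : b1 ≤ u (X a s (0 + 1) t) := mul_le_of_le_one_right g1.1 g2.2
        have q3 : 0 ≤ b0 := mul_nonneg g3.1 g4.1
        have q4 : 0 ≤ b1 := mul_nonneg g1.1 g2.1
        rw [abs_le]
        have e : u (X a s (0 + 1) t) = u (X a s 1 t) := rfl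
        constructor <;> linarith
      | succ k =>
        show |b0 - b1| ≤ gu (X a s (k + 2) t) + gv (X a s (k + 1) t)
        have e : b0 - b1 = -((u (X a s (k + 2) t) - u0 (X a s (k + 2) t)) * v0 (X a s (k + 1) t)) -
            u (X a s (k + 2) t) * (v (X a s (k + 1) t) - v0 (X a s (k + 1) t)) := by
          rw [hb0, hb1]
          ring
        rw [e]
        refine (abs_sub _ _).trans (add_le_add ?_ ?_)
        · rw [abs_neg, abs_mul, abs_of_nonneg g4.1]
          exact (mul_le_of_le_one_right (abs_nonneg _) g4.2).trans (hgu _)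
        · rw [abs_mul, abs_of_nonneg g1.1]
          exact (mul_le_of_le_one_left (abs_nonneg _) g1.2).trans (hgv _)
    have e : QQ a s z u0 v0 (n + 1) t - QQ a s z u v (n + 1) t =
        (QQ a s z u0 v0 n t - QQ a s z u v n t) * (1 + z * (b0 : ℂ)) +
          QQ a s z u v n t * (z * ((b0 - b1 : ℝ) : ℂ)) := by
      show QQ a s z u0 v0 n t * (1 + z * (b0 : ℂ)) - QQ a s z u v n t * (1 + z * (b1 : ℂ)) = _
      push_cast
      ring
    rw [e]
    refine (norm_add_le _ _).trans (add_le_add ?_ ?_)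
    · rw [norm_mul]
      refine (mul_le_of_le_one_right (norm_nonneg _) ?_).trans ih
      exact hz _ (mul_nonneg g3.1 g4.1) (mul_le_one₀ g3.2 g4.1 g4.2)
    · rw [norm_mul, norm_mul, Complex.norm_real, norm_eq_abs]
      calc ‖QQ a s z u v n t‖ * (‖z‖ * |b0 - b1|) ≤ 1 * (2 * hh a s u gu gv n t) := by
            apply mul_le_mul (QQ_norm a s hz hu hv n t) _ (by positivity) zero_le_one
            exact mul_le_mul hz.two hbb (abs_nonneg _) (by norm_num)
        _ = _ := one_mul _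

theorem QQ_meas (a s : ℝ) (z : ℂ) {u0 v0 : ℝ → ℝ} (hu : Measurable u0) (hv : Measurable v0)
    (m : ℕ) : Measurable (QQ a s z u0 v0 m) := by
  induction m with
  | zero => exact measurable_const
  | succ m ih =>
    have h1 := hu.comp (Xt_cont a s (m + 1)).measurable
    have h2 := hv.comp (Xt_cont a s m).measurable
    show Measurable fun t => QQ a s z u0 v0 m t *
      (1 + z * ((u0 (X a s (m + 1) t) * v0 (X a s m t) : ℝ) : ℂ))
    exact ih.mul (measurable_const.add (measurable_const.mul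
      (Complex.measurable_ofReal.comp (h1.mul h2))))

/-- comparison of the expectations -/
theorem compare (hl' : l0 ≤ l) (hla : l ≤ |a|) (s : ℝ) (hz : Zok z)
    (hd : Data u u' v v' U W V) {u0 v0 gu gv : ℝ → ℝ} (mu : Measurable u0) (mv : Measurable v0)
    (hu0 : ∀ x, 0 ≤ u0 x ∧ u0 x ≤ 1)
    (hv0 : ∀ x, 0 ≤ v0 x ∧ v0 x ≤ 1) (hle : ∀ x, u0 x ≤ u x)
    (hgu : ∀ x, |u x - u0 x| ≤ gu x) (hgv : ∀ x, |v x - v0 x| ≤ gv x)
    (cgu : Continuous gu) (cgv : Continuous gv) (pgu : Periodic gu 1) (pgv : Periodic gv 1)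
    {I : ℝ} (hIu : ∫ x in (0:ℝ)..1, gu x ≤ I) (hIv : ∫ x in (0:ℝ)..1, gv x ≤ I) (n : ℕ) :
    ‖(∫ t in (0:ℝ)..1, QQ a s z u0 v0 n t) - AA a l s z u v n‖ ≤
      n * (2 * (l / |a|)) + 2 * (2 * U + n * (4 * I)) := by
  have hgu0 : ∀ x, 0 ≤ gu x := fun x => (abs_nonneg _).trans (hgu x)
  have hgv0 : ∀ x, 0 ≤ gv x := fun x => (abs_nonneg _).trans (hgv x)
  have hI0 : 0 ≤ I := (intervalIntegral.integral_nonneg zero_le_one fun x _ => hgu0 x).trans hIu
  have hU0 := hd.U0
  have hcc := chi_cont a l s n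
  have cQ := QQ_cont a s z hd.bu.cont hd.bv.cont n
  have mQ := QQ_meas a s z mu mv n
  have hhc := hh_cont a s hd.bu.cont cgu cgv
  have hhn : ∀ k t, 0 ≤ hh a s u gu gv k t := by
    intro k t
    cases k with
    | zero => exact (hd.bu.m _).1
    | succ k => exact add_nonneg (hgu0 _) (hgv0 _)
  have hii : IntervalIntegrable (fun t => QQ a s z u0 v0 n t) volume 0 1 := by
    rw [intervalIntegrable_iff]
    refine Measure.integrableOn_of_bounded (M := 1) (by simp) mQ.aestronglyMeasurable ?_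
    exact Filter.Eventually.of_forall fun t => QQ_norm a s hz hu0 hv0 n t
  unfold AA
  rw [← intervalIntegral.integral_sub hii (Continuous.intervalIntegrable (by fun_prop) _ _)]
  have hsc : Continuous fun t => ∑ k ∈ Finset.range n, chi a l s k t * hh a s u gu gv k t :=
    continuous_finsetSum _ fun k _ => (chi_cont a l s k).mul (hhc k)
  have b1 : ‖∫ t in (0:ℝ)..1, (QQ a s z u0 v0 n t - (chi a l s n t : ℂ) * QQ a s z u v n t)‖ ≤
      ∫ t in (0:ℝ)..1, ((1 - chi a l s n t) +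
        2 * ∑ k ∈ Finset.range n, chi a l s k t * hh a s u gu gv k t) := by
    apply intervalIntegral.norm_integral_le_of_norm_le zero_le_one
    · apply Filter.Eventually.of_forall
      intro t _
      have hc := chi_mem a l s n t
      have e : QQ a s z u0 v0 n t - (chi a l s n t : ℂ) * QQ a s z u v n t =
          ((1 - chi a l s n t : ℝ) : ℂ) * QQ a s z u0 v0 n t +
          ((chi a l s n t : ℝ) : ℂ) * (QQ a s z u0 v0 n t - QQ a s z u v n t) := by
        push_cast
        ring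
      rw [e]
      refine (norm_add_le _ _).trans ?_
      rw [norm_mul, norm_mul, Complex.norm_real, Complex.norm_real,
        norm_eq_abs, norm_eq_abs, abs_of_nonneg (sub_nonneg.2 hc.2), abs_of_nonneg hc.1]
      apply add_le_add
      · exact mul_le_of_le_one_right (sub_nonneg.2 hc.2) (QQ_norm a s hz hu0 hv0 n t)
      · calc chi a l s n t * ‖QQ a s z u0 v0 n t - QQ a s z u v n t‖
            ≤ chi a l s n t * (2 * ∑ k ∈ Finset.range n, hh a s u gu gv k t) :=
              mul_le_mul_of_nonneg_left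
                (QQ_diff s hz hd.bu.m hd.bv.m hu0 hv0 hle hgu hgv n t) hc.1
          _ = 2 * ∑ k ∈ Finset.range n, chi a l s n t * hh a s u gu gv k t := by
              rw [← Finset.mul_sum]
              ring
          _ ≤ _ := by
              apply mul_le_mul_of_nonneg_left _ (by norm_num)
              exact Finset.sum_le_sum fun k hk =>
                mul_le_mul_of_nonneg_right (chi_anti a l s (Finset.mem_range.1 hk).le t) (hhn k t)
    · exact Continuous.intervalIntegrable (by fun_prop) _ _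
  refine b1.trans ?_
  rw [intervalIntegral.integral_add (f := fun t => 1 - chi a l s n t)
    (g := fun t => 2 * ∑ k ∈ Finset.range n, chi a l s k t * hh a s u gu gv k t)
    (Continuous.intervalIntegrable (by fun_prop) _ _)
    ((continuous_const.mul hsc).intervalIntegrable _ _),
    intervalIntegral.integral_const_mul,
    intervalIntegral.integral_finsetSum
      (f := fun k t => chi a l s k t * hh a s u gu gv k t)
    (fun k _ => ((chi_cont a l s k).mul (hhc k)).intervalIntegrable _ _)]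
  apply add_le_add (chi_loss hl' hla s n)
  apply mul_le_mul_of_nonneg_left _ (by norm_num)
  have hk : ∀ k, ∫ t in (0:ℝ)..1, chi a l s k t * hh a s u gu gv k t ≤
      4 * I + (if k = 0 then 2 * U else 0) := by
    intro k
    cases k with
    | zero =>
      rw [if_pos rfl]
      have h1 := dens hl' hla s 0 hd.bu.cont hd.bu.p fun x => (hd.bu.m x).1
      rw [hd.intu] at h1
      have h2 : ∫ t in (0:ℝ)..1, chi a l s 0 t * hh a s u gu gv 0 t =
          ∫ t in (0:ℝ)..1, chi a l s 0 t * u (X a s (0 + 1) t) := rfl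
      rw [h2]
      linarith
    | succ k =>
      rw [if_neg (Nat.succ_ne_zero k), add_zero]
      have h1 := dens hl' hla s (k + 1) cgu pgu hgu0
      have h2 := dens hl' hla s k cgv pgv hgv0
      have d1 := chi_cont a l s (k + 1)
      have d2 := chi_cont a l s k
      have d3 := X_cont' a s (k + 2) cgu
      have d4 := X_cont' a s (k + 1) cgv
      have x1 := Xt_cont a s (k + 2)
      have x2 := Xt_cont a s (k + 1)
      calc ∫ t in (0:ℝ)..1, chi a l s (k + 1) t * hh a s u gu gv (k + 1) t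
          ≤ ∫ t in (0:ℝ)..1, (chi a l s (k + 1) t * gu (X a s (k + 1 + 1) t) +
              chi a l s k t * gv (X a s (k + 1) t)) := by
            apply intervalIntegral.integral_mono_on zero_le_one
            · exact (d1.mul (hhc (k + 1))).intervalIntegrable _ _
            · exact ((d1.mul d3).add (d2.mul d4)).intervalIntegrable _ _
            · intro t _
              show chi a l s (k + 1) t * (gu (X a s (k + 2) t) + gv (X a s (k + 1) t)) ≤ _
              rw [mul_add]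
              exact add_le_add le_rfl
                (mul_le_mul_of_nonneg_right (chi_succ_le a l s k t) (hgv0 _))
        _ = (∫ t in (0:ℝ)..1, chi a l s (k + 1) t * gu (X a s (k + 1 + 1) t)) +
              ∫ t in (0:ℝ)..1, chi a l s k t * gv (X a s (k + 1) t) :=
            intervalIntegral.integral_add ((d1.mul d3).intervalIntegrable _ _)
              ((d2.mul d4).intervalIntegrable _ _)
        _ ≤ 4 * I := by linarith
  calc ∑ k ∈ Finset.range n, ∫ t in (0:ℝ)..1, chi a l s k t * hh a s u gu gv k t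
      ≤ ∑ k ∈ Finset.range n, (4 * I + (if k = 0 then 2 * U else 0)) :=
        Finset.sum_le_sum fun k _ => hk k
    _ = n * (4 * I) + (if 0 ∈ Finset.range n then 2 * U else 0) := by
        rw [Finset.sum_add_distrib, Finset.sum_const, Finset.card_range, nsmul_eq_mul,
          Finset.sum_ite_eq' (Finset.range n) 0]
    _ ≤ _ := by
        split_ifs
        · linarith
        · linarith

theorem ind_le_up {c ρ δ : ℝ} (h0 : 0 ≤ ρ) (hδ : 0 < δ) (h1 : ρ + δ ≤ 1 / 4) (x : ℝ) :
    ind c ρ x ≤ up c ρ δ x := by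
  unfold ind
  split_ifs with h
  · rw [up_one h0 hδ h1 h]
  · exact (up_mem c ρ δ x).1

theorem bump_up (c ρ δ : ℝ) : Bump (up c ρ δ) (up' c ρ δ) :=
  ⟨up_hasDeriv c ρ δ, up'_cont c ρ δ, up_per c ρ δ, up'_per c ρ δ, up_mem c ρ δ⟩

theorem up_int_abs {c ρ δ : ℝ} (h0 : 0 ≤ ρ) (hδ : 0 < δ) (h1 : ρ + δ ≤ 1 / 4) :
    |(∫ x in (0:ℝ)..1, up c ρ δ x) - 2 * ρ| ≤ 4 * δ := by
  rw [← ind_int c h0 (by linarith), ← intervalIntegral.integral_sub
    ((up_cont c ρ δ).intervalIntegrable _ _) (ind_ii c ρ)]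
  refine (intervalIntegral.abs_integral_le_integral_abs zero_le_one).trans ?_
  refine le_trans ?_ (tc_int c ρ hδ)
  apply intervalIntegral.integral_mono_on zero_le_one
  · exact (((up_cont c ρ δ).intervalIntegrable _ _).sub (ind_ii c ρ)).abs
  · exact (tc_cont c ρ δ).intervalIntegrable _ _
  · intro x _
    exact up_ind h0 hδ h1 x

theorem Zok_E (θ : ℝ) : Zok (E θ - 1) := by
  intro x h0 h1
  have e : 1 + (E θ - 1) * (x : ℂ) = ((1 - x : ℝ) : ℂ) + ((x : ℝ) : ℂ) * E θ := by
    push_cast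
    ring
  rw [e]
  refine (norm_add_le _ _).trans ?_
  rw [norm_mul, E_norm, Complex.norm_real, Complex.norm_real, norm_eq_abs, norm_eq_abs,
    abs_of_nonneg (by linarith), abs_of_nonneg h0]
  linarith

/-- the case of large parameters -/
theorem large2 {c d ρ σ : ℝ} (h0 : 0 ≤ ρ) (h1 : ρ ≤ 1 / 8) (k0 : 0 ≤ σ) (k1 : σ ≤ 1 / 8)
    {a : ℝ} (hl : l0 ≤ |a|) {n : ℕ} (hn : 1 ≤ n) (s θ : ℝ) :
    ‖(∫ t in (0:ℝ)..1, QQ a s (E θ - 1) (ind c ρ) (ind d σ) n t) -
      (1 + (E θ - 1) * ((2 * ρ * (2 * σ) : ℝ) : ℂ)) ^ n‖ ≤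
      (192 * (l0 + 64 * (KK * π ^ 2)) + 12 * l0 + 144) *
        (2 * ρ + n * (√(2 * ρ / |a|) + 1 / |a| + (2 * ρ) ^ 2 * (2 * σ))) := by
  have h16 := l0_ge
  have hK := KK_one
  have hb16 : 16 ≤ |a| := h16.trans hl
  have hb0 : 0 < |a| := by linarith
  have hδ : 0 < 1 / |a| := by positivity
  have hδ1 : 1 / |a| ≤ 1 / 16 := by
    apply one_div_le_one_div_of_le <;> linarith
  have hn1 : (1:ℝ) ≤ n := by exact_mod_cast hn
  have hK2 : 0 ≤ KK * π ^ 2 := by positivity
  have hρδ : ρ + 1 / |a| ≤ 1 / 4 := by linarith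
  have hσδ : σ + 1 / |a| ≤ 1 / 4 := by linarith
  set y := 1 / |a| with hy
  set q := 2 * ρ with hq
  set q2 := 2 * σ with hq2
  have hq0 : 0 ≤ q := by positivity
  have hq20 : 0 ≤ q2 := by positivity
  have hq4 : q ≤ 1 / 4 := by rw [hq]; linarith
  have hq24 : q2 ≤ 1 / 4 := by rw [hq2]; linarith
  set x := √(q / |a|) with hx
  have hx0 : 0 ≤ x := Real.sqrt_nonneg _
  have hx2 : x ^ 2 = q / |a| := Real.sq_sqrt (by positivity)
  have hx2' : x ^ 2 * |a| = q := by
    rw [hx2]
    field_simp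
  have hx1 : x ≤ 1 := by
    have : x ^ 2 ≤ 1 := by
      rw [hx2, div_le_one hb0]
      linarith
    nlinarith
  set l := max l0 (x * |a|) with hl'
  have hl1 : l0 ≤ l := le_max_left _ _
  have hl2 : x * |a| ≤ l := le_max_right _ _
  have hl3 : l ≤ |a| := max_le hl (by nlinarith)
  have hl4 : l ≤ l0 + x * |a| := max_le (by nlinarith) (by linarith)
  have hlpos : 0 < l := by linarith
  set U := ∫ x in (0:ℝ)..1, up c ρ y x with hU
  set W := ∫ x in (0:ℝ)..1, up d σ y x with hW
  have hUq := up_int_abs (c := c) h0 hδ hρδ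
  have hWq := up_int_abs (c := d) k0 hδ hσδ
  rw [← hU, ← hq] at hUq
  rw [← hW, ← hq2] at hWq
  have hd : Data (up c ρ y) (up' c ρ y) (up d σ y) (up' d σ y) U W (4 * (KK * π ^ 2)) := by
    refine ⟨bump_up c ρ y, bump_up d σ y, rfl, rfl, ?_⟩
    have e1 := up'_int (c := c) h0 hδ hρδ
    have e2 := up'_int (c := d) k0 hδ hσδ
    unfold wt
    rw [intervalIntegral.integral_add ((up'_cont c ρ y).abs.intervalIntegrable _ _)
      ((up'_cont d σ y).abs.intervalIntegrable _ _)]
    linarith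
  have hz := Zok_E θ
  have hA := AA_pow hl1 hl3 s hz hd n
  have hC := compare hl1 hl3 s hz hd (ind_meas c ρ) (ind_meas d σ) (ind_mem c ρ) (ind_mem d σ)
    (ind_le_up h0 hδ hρδ) (up_ind h0 hδ hρδ) (up_ind k0 hδ hσδ) (tc_cont c ρ y) (tc_cont d σ y)
    (tc_per c ρ y) (tc_per d σ y) (tc_int c ρ hδ) (tc_int d σ hδ) n
  have hU0 := hd.U0
  have hU1 := hd.U1
  have hW0 := hd.W0
  have hW1 := hd.W1
  have hUle : U ≤ q + 4 * y := by linarith [(abs_le.1 hUq).2]
  have hWle : W ≤ q2 + 4 * y := by linarith [(abs_le.1 hWq).2]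
  have hP : ‖(1 + (E θ - 1) * ((U * W : ℝ) : ℂ)) ^ n -
      (1 + (E θ - 1) * ((q * q2 : ℝ) : ℂ)) ^ n‖ ≤ n * (16 * y) := by
    refine (pow_diff (w_norm hz hd) (hz _ (by positivity) (by nlinarith)) n).trans ?_
    apply mul_le_mul_of_nonneg_left _ (by linarith)
    have e : 1 + (E θ - 1) * ((U * W : ℝ) : ℂ) - (1 + (E θ - 1) * ((q * q2 : ℝ) : ℂ)) =
        (E θ - 1) * ((U * W - q * q2 : ℝ) : ℂ) := by
      push_cast
      ring
    rw [e, norm_mul, Complex.norm_real, norm_eq_abs]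
    have h3 : |U * W - q * q2| ≤ 8 * y := by
      have e2 : U * W - q * q2 = (U - q) * W + q * (W - q2) := by ring
      rw [e2]
      refine (abs_add_le _ _).trans ?_
      rw [abs_mul, abs_mul, abs_of_nonneg hW0, abs_of_nonneg hq0]
      have i1 : |U - q| * W ≤ 4 * y := (mul_le_of_le_one_right (abs_nonneg _) hW1).trans hUq
      have i2 : q * |W - q2| ≤ 4 * y :=
        (mul_le_of_le_one_left (abs_nonneg _) (by linarith)).trans hWq
      linarith
    calc ‖E θ - 1‖ * |U * W - q * q2| ≤ 2 * (8 * y) :=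
          mul_le_mul hz.two h3 (abs_nonneg _) (by norm_num)
      _ = _ := by ring
  set K1 := l0 + 64 * (KK * π ^ 2) with hK1
  have eK : l0 + 16 * (4 * (KK * π ^ 2)) = K1 := by
    rw [hK1]
    ring
  rw [eK] at hA
  have hK10 : 0 ≤ K1 := by linarith
  have t1 : q / l ≤ x := by
    rw [div_le_iff₀ hlpos]
    calc q = x * (x * |a|) := by rw [← hx2']; ring
      _ ≤ x * l := mul_le_mul_of_nonneg_left hl2 hx0
  have t2 : y / l ≤ y := div_le_self hδ.le (by linarith)
  have t3 : l / |a| ≤ l0 * y + x := by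
    rw [div_le_iff₀ hb0]
    have : y * |a| = 1 := by
      rw [hy]
      field_simp
    calc l ≤ l0 + x * |a| := hl4
      _ = (l0 * y + x) * |a| := by rw [add_mul, mul_assoc, this, mul_one]
  have t4 : U * (K1 / l) ≤ K1 * x + 4 * K1 * y := by
    calc U * (K1 / l) ≤ (q + 4 * y) * (K1 / l) := by
          apply mul_le_mul_of_nonneg_right hUle
          positivity
      _ = K1 * (q / l) + 4 * K1 * (y / l) := by
          field_simp
      _ ≤ K1 * x + 4 * K1 * y := by gcongr
  have m1 : q * y ≤ 1 / 4 * y := mul_le_mul_of_nonneg_right hq4 hδ.le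
  have m2 : q2 * y ≤ 1 / 4 * y := mul_le_mul_of_nonneg_right hq24 hδ.le
  have m3 : y * y ≤ 1 / 16 * y := mul_le_mul_of_nonneg_right hδ1 hδ.le
  have m4 : q ^ 2 ≤ 1 / 16 := by nlinarith
  have m5 : q ^ 2 * y ≤ 1 / 16 * y := mul_le_mul_of_nonneg_right m4 hδ.le
  have t5 : U * (U * W) ≤ q ^ 2 * q2 + 2 * y := by
    have i1 : U * (U * W) ≤ (q + 4 * y) * ((q + 4 * y) * (q2 + 4 * y)) := by gcongr
    refine i1.trans ?_
    have i2 : (q + 4 * y) * (q + 4 * y) ≤ q ^ 2 + 3 * y := by linarith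
    have i3 : 0 ≤ q2 + 4 * y := by positivity
    have i4 : (q + 4 * y) * ((q + 4 * y) * (q2 + 4 * y)) ≤ (q ^ 2 + 3 * y) * (q2 + 4 * y) := by
      rw [← mul_assoc]
      exact mul_le_mul_of_nonneg_right i2 i3
    refine i4.trans ?_
    linarith
  set R := q ^ 2 * q2 with hR
  have hR0 : 0 ≤ R := by positivity
  have e : (∫ t in (0:ℝ)..1, QQ a s (E θ - 1) (ind c ρ) (ind d σ) n t) -
      (1 + (E θ - 1) * ((q * q2 : ℝ) : ℂ)) ^ n =
      ((∫ t in (0:ℝ)..1, QQ a s (E θ - 1) (ind c ρ) (ind d σ) n t) -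
        AA a l s (E θ - 1) (up c ρ y) (up d σ y) n) +
      (AA a l s (E θ - 1) (up c ρ y) (up d σ y) n - (1 + (E θ - 1) * ((U * W : ℝ) : ℂ)) ^ n) +
      ((1 + (E θ - 1) * ((U * W : ℝ) : ℂ)) ^ n - (1 + (E θ - 1) * ((q * q2 : ℝ) : ℂ)) ^ n) := by
    ring
  rw [e]
  refine (norm_add₃_le).trans ?_
  have hl0' : 0 ≤ l0 := by linarith
  have inner : 48 * (U * (K1 / l)) + 12 * (l / |a|) + 12 * (U * (U * W)) + 48 * y ≤
      (192 * K1 + 12 * l0 + 96) * (x + y + R) := by
    have j1 : 0 ≤ K1 * x := by positivity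
    have j2 : 0 ≤ K1 * R := by positivity
    have j3 : 0 ≤ l0 * x := by positivity
    have j4 : 0 ≤ l0 * R := by positivity
    linarith
  have inner2 := mul_le_mul_of_nonneg_left inner (by linarith : (0:ℝ) ≤ n)
  have hyn : y ≤ n * y := le_mul_of_one_le_left hδ.le hn1
  have j5 : 0 ≤ (n:ℝ) * x := by positivity
  have j6 : 0 ≤ (n:ℝ) * R := by positivity
  have j7 : 0 ≤ K1 * q := by positivity
  have j8 : 0 ≤ l0 * q := by positivity
  linarith

end Pool.Agent.R241.PW
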