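import Pool.Agent.R241.PW4

set_option autoImplicit false

/-!
# The law of the number of visits to a rectangle
-/

namespace Pool.Agent.R241.PW

open Real MeasureTheory Function
open Pool.Agent.TH705.SM Pool.Agent.R241.PV

open scoped Classical in
/-- number of visits to the rectangle -/
noncomputable def cnt2 (a s c d ρ σ : ℝ) (n : ℕ) (t : ℝ) : ℕ :=
  ((Finset.range n).filter fun k => nn (X a s (k + 1) t - c) ≤ ρ ∧ nn (X a s k t - d) ≤ σ).card

theorem cnt2_le (a s c d ρ σ : ℝ) (n : ℕ) (t : ℝ) : cnt2 a s c d ρ σ n t ≤ n := by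
  unfold cnt2
  exact (Finset.card_filter_le _ _).trans (by simp)

theorem cnt2_meas (a s c d ρ σ : ℝ) (n : ℕ) : Measurable (cnt2 a s c d ρ σ n) := by
  classical
  unfold cnt2
  simp_rw [Finset.card_filter]
  apply Finset.measurable_sum
  intro k _
  refine Measurable.ite ?_ measurable_const measurable_const
  apply MeasurableSet.inter
  · exact measurableSet_le (nn_cont.measurable.comp ((Xt_cont a s (k + 1)).measurable.sub_const _))
      measurable_const
  · exact measurableSet_le (nn_cont.measurable.comp ((Xt_cont a s k).measurable.sub_const _))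
      measurable_const

theorem QQ_cnt (a s c d ρ σ θ : ℝ) (n : ℕ) (t : ℝ) :
    QQ a s (E θ - 1) (ind c ρ) (ind d σ) n t = E θ ^ cnt2 a s c d ρ σ n t := by
  classical
  induction n with
  | zero => simp [QQ, cnt2]
  | succ n ih =>
    have h1 : cnt2 a s c d ρ σ (n + 1) t = cnt2 a s c d ρ σ n t +
        (if nn (X a s (n + 1) t - c) ≤ ρ ∧ nn (X a s n t - d) ≤ σ then 1 else 0) := by
      unfold cnt2
      simp_rw [Finset.card_filter]
      rw [Finset.sum_range_succ]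
    show QQ a s (E θ - 1) (ind c ρ) (ind d σ) n t * (1 + (E θ - 1) *
      ((ind c ρ (X a s (n + 1) t) * ind d σ (X a s n t) : ℝ) : ℂ)) = _
    rw [h1, ih, pow_add]
    congr 1
    unfold ind
    by_cases h2 : nn (X a s (n + 1) t - c) ≤ ρ
    · by_cases h3 : nn (X a s n t - d) ≤ σ
      · rw [if_pos h2, if_pos h3, if_pos ⟨h2, h3⟩]
        simp
      · rw [if_pos h2, if_neg h3, if_neg (fun h => h3 h.2)]
        simp
    · simp [h2]

/-- **the law of the number of visits is close to the binomial law** -/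
theorem binom2 : ∃ C : ℝ, 0 < C ∧ ∀ c d ρ σ : ℝ, 0 ≤ ρ → ρ ≤ 1 / 8 → 0 ≤ σ → σ ≤ 1 / 8 →
    ∀ a : ℝ, a ≠ 0 → ∀ (n : ℕ) (s : ℝ) (m : ℕ),
    |volume.real {t : ℝ | t ∈ Set.Ioc (0:ℝ) 1 ∧ cnt2 a s c d ρ σ n t = m} -
      (n.choose m) * (2 * ρ * (2 * σ)) ^ m * (1 - 2 * ρ * (2 * σ)) ^ (n - m)| ≤
        C * (2 * ρ + n * (√(2 * ρ / |a|) + 1 / |a| + (2 * ρ) ^ 2 * (2 * σ))) := by
  have h16 := l0_ge
  have hK := KK_one
  have hl0 : 0 < l0 := by linarith
  set C1 := 192 * (l0 + 64 * (KK * π ^ 2)) + 12 * l0 + 144 with hC1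
  have hC1p : 4 ≤ C1 := by
    have : 0 ≤ 192 * (l0 + 64 * (KK * π ^ 2)) + 12 * l0 := by positivity
    linarith
  refine ⟨C1 + 2 * l0, by linarith, ?_⟩
  intro c d ρ σ h0 h1 k0 k1 a ha n s m
  have ha0 : 0 < |a| := abs_pos.2 ha
  have hn0 : (0:ℝ) ≤ n := Nat.cast_nonneg n
  set q := 2 * ρ * (2 * σ) with hq
  have hq0 : 0 ≤ q := by positivity
  have hq1 : q ≤ 1 := by
    rw [hq]
    nlinarith
  set T := 2 * ρ + n * (√(2 * ρ / |a|) + 1 / |a| + (2 * ρ) ^ 2 * (2 * σ)) with hT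
  have hT0 : 0 ≤ T := by positivity
  have hR : 0 ≤ (C1 + 2 * l0) * T := by positivity
  rcases lt_or_ge n m with hmn | hmn
  · have e1 : {t : ℝ | t ∈ Set.Ioc (0:ℝ) 1 ∧ cnt2 a s c d ρ σ n t = m} = ∅ := by
      ext t
      simp only [Set.mem_ofPred_eq, Set.mem_empty_iff_false, iff_false, not_and]
      intro _ h
      have := cnt2_le a s c d ρ σ n t
      omega
    rw [e1, Nat.choose_eq_zero_of_lt hmn]
    simpa using hR
  set e : ℕ → ℂ := fun j =>
    ((volume.real {t : ℝ | t ∈ Set.Ioc (0:ℝ) 1 ∧ cnt2 a s c d ρ σ n t = j} -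
      (n.choose j) * q ^ j * (1 - q) ^ (n - j) : ℝ) : ℂ) with hee
  have h2 : ‖e m‖ ≤ (C1 + 2 * l0) * T := by
    apply coef e (n := n) _ hmn
    intro θ _
    have e2 : ∑ j ∈ Finset.range (n + 1), e j * E θ ^ j =
        (∫ t in (0:ℝ)..1, QQ a s (E θ - 1) (ind c ρ) (ind d σ) n t) -
      (1 + (E θ - 1) * ((2 * ρ * (2 * σ) : ℝ) : ℂ)) ^ n := by
      have e3 : ∀ t, QQ a s (E θ - 1) (ind c ρ) (ind d σ) n t =
          E (θ * cnt2 a s c d ρ σ n t) := fun t => by rw [QQ_cnt, E_mul_nat]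
      simp_rw [e3]
      rw [int_cnt (cnt2_meas a s c d ρ σ n) (cnt2_le a s c d ρ σ n) θ]
      have e4 : (1 + (E θ - 1) * ((2 * ρ * (2 * σ) : ℝ) : ℂ)) ^ n =
          ∑ j ∈ Finset.range (n + 1), (((n.choose j) * q ^ j * (1 - q) ^ (n - j) : ℝ) : ℂ) *
            E θ ^ j := by
        rw [← hq, show 1 + (E θ - 1) * ((q : ℝ) : ℂ) = (q : ℂ) * E θ + (1 - (q : ℂ)) by ring,
          add_pow]
        apply Finset.sum_congr rfl
        intro j _
        push_cast
        rw [mul_pow]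
        ring
      rw [e4, ← Finset.sum_sub_distrib]
      apply Finset.sum_congr rfl
      intro j _
      rw [hee]
      push_cast
      ring
    rw [e2]
    rcases Nat.eq_zero_or_pos n with hn | hn
    · subst hn
      simp only [QQ, pow_zero]
      simpa using hR
    by_cases hgood : l0 ≤ |a|
    · refine (large2 h0 h1 k0 k1 hgood hn s θ).trans ?_
      apply mul_le_mul_of_nonneg_right _ hT0
      linarith
    push Not at hgood
    have hn1 : (1:ℝ) ≤ n := by exact_mod_cast hn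
    have htriv : ‖(∫ t in (0:ℝ)..1, QQ a s (E θ - 1) (ind c ρ) (ind d σ) n t) -
        (1 + (E θ - 1) * ((2 * ρ * (2 * σ) : ℝ) : ℂ)) ^ n‖ ≤ 2 := by
      refine (norm_sub_le _ _).trans ?_
      have b1 := norm_int_le_one (F := fun t => QQ a s (E θ - 1) (ind c ρ) (ind d σ) n t)
        (fun t => QQ_norm a s (Zok_E θ) (ind_mem c ρ) (ind_mem d σ) n t)
      have b2 : ‖(1 + (E θ - 1) * ((2 * ρ * (2 * σ) : ℝ) : ℂ)) ^ n‖ ≤ 1 := by
        rw [norm_pow]
        exact pow_le_one₀ (norm_nonneg _) (Zok_E θ _ hq0 hq1)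
      linarith
    refine htriv.trans ?_
    have h3 : 1 / l0 ≤ T := by
      have h4 : 1 / l0 ≤ 1 / |a| := one_div_le_one_div_of_le ha0 hgood.le
      have h5 : 0 ≤ √(2 * ρ / |a|) := Real.sqrt_nonneg _
      have h6 : 0 ≤ (2 * ρ) ^ 2 * (2 * σ) := by positivity
      have h7 : 0 < 1 / |a| := by positivity
      have h8 : 1 / |a| ≤ n * (√(2 * ρ / |a|) + 1 / |a| + (2 * ρ) ^ 2 * (2 * σ)) := by
        nlinarith
      rw [hT]
      linarith
    calc (2:ℝ) = 2 * l0 * (1 / l0) := by field_simp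
      _ ≤ 2 * l0 * T := by gcongr
      _ ≤ _ := by
        apply mul_le_mul_of_nonneg_right _ hT0
        linarith
  rw [hee] at h2
  simp only at h2
  rwa [Complex.norm_real, norm_eq_abs] at h2

end Pool.Agent.R241.PW
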