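import Mathlib

/-!
# The chordal metric in homogeneous coordinates
-/

set_option autoImplicit false

open Filter Topology Set Metric ComplexConjugate

namespace Pool.Agent.R241.RC

/-- Homogeneous coordinates on the Riemann sphere. -/
abbrev V := EuclideanSpace ℂ (Fin 2)

/-- The determinant of two vectors. -/
def cr (p q : V) : ℂ := p 0 * q 1 - p 1 * q 0

/-- The hermitian product. -/
def ip (p q : V) : ℂ := p 0 * conj (q 0) + p 1 * conj (q 1)

/-- The orthogonal vector. -/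
noncomputable def perp (t : V) : V := !₂[-conj (t 1), conj (t 0)]

/-- The chordal distance. -/
noncomputable def D (p q : V) : ℝ := ‖cr p q‖ / (‖p‖ * ‖q‖)

theorem perp_zero (t : V) : perp t 0 = -conj (t 1) := by simp [perp]

theorem perp_one (t : V) : perp t 1 = conj (t 0) := by simp [perp]

theorem norm_sq (p : V) : ‖p‖ ^ 2 = ‖p 0‖ ^ 2 + ‖p 1‖ ^ 2 := by
  rw [EuclideanSpace.norm_sq_eq]; simp [Fin.sum_univ_two]

theorem norm_sq' (p : V) : ((‖p‖ ^ 2 : ℝ) : ℂ) = p 0 * conj (p 0) + p 1 * conj (p 1) := by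
  rw [norm_sq, Complex.mul_conj, Complex.mul_conj, Complex.normSq_eq_norm_sq,
    Complex.normSq_eq_norm_sq]
  push_cast; ring

theorem ip_self (p : V) : ip p p = ((‖p‖ ^ 2 : ℝ) : ℂ) := by rw [norm_sq']; rfl

theorem lagrange (p q : V) : ‖cr p q‖ ^ 2 + ‖ip p q‖ ^ 2 = ‖p‖ ^ 2 * ‖q‖ ^ 2 := by
  have h : ((‖cr p q‖ ^ 2 + ‖ip p q‖ ^ 2 : ℝ) : ℂ) = ((‖p‖ ^ 2 * ‖q‖ ^ 2 : ℝ) : ℂ) := by
    have h1 := norm_sq' p
    have h2 := norm_sq' q
    have h3 : ∀ z : ℂ, ((‖z‖ ^ 2 : ℝ) : ℂ) = z * conj z := by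
      intro z; rw [Complex.mul_conj, Complex.normSq_eq_norm_sq]
    rw [Complex.ofReal_add, Complex.ofReal_mul, h1, h2, h3, h3]
    simp only [cr, ip, map_sub, map_add, map_mul, Complex.conj_conj]
    ring
  exact_mod_cast h

theorem cr_self (p : V) : cr p p = 0 := by unfold cr; ring

theorem cr_swap (p q : V) : cr p q = -cr q p := by unfold cr; ring

theorem cr_smul_left (c : ℂ) (p q : V) : cr (c • p) q = c * cr p q := by
  simp only [cr, PiLp.smul_apply, smul_eq_mul]; ring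

theorem cr_smul_right (c : ℂ) (p q : V) : cr p (c • q) = c * cr p q := by
  simp only [cr, PiLp.smul_apply, smul_eq_mul]; ring

theorem cr_add_left (p q r : V) : cr (p + q) r = cr p r + cr q r := by
  simp only [cr, PiLp.add_apply]; ring

theorem cr_add_right (p q r : V) : cr r (p + q) = cr r p + cr r q := by
  simp only [cr, PiLp.add_apply]; ring

theorem cr_sub_right (p q r : V) : cr r (p - q) = cr r p - cr r q := by
  simp only [cr, PiLp.sub_apply]; ring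

theorem ip_smul_left (c : ℂ) (p q : V) : ip (c • p) q = c * ip p q := by
  simp only [ip, PiLp.smul_apply, smul_eq_mul]; ring

theorem ip_add_left (p q r : V) : ip (p + q) r = ip p r + ip q r := by
  simp only [ip, PiLp.add_apply]; ring

theorem norm_cr_le (p q : V) : ‖cr p q‖ ≤ ‖p‖ * ‖q‖ := by
  have h := lagrange p q
  refine abs_le_of_sq_le_sq' ?_ (by positivity) |>.2
  rw [mul_pow]
  nlinarith [sq_nonneg ‖ip p q‖]

theorem norm_ip_le (p q : V) : ‖ip p q‖ ≤ ‖p‖ * ‖q‖ := by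
  have h := lagrange p q
  refine abs_le_of_sq_le_sq' ?_ (by positivity) |>.2
  rw [mul_pow]
  nlinarith [sq_nonneg ‖cr p q‖]

theorem norm_cr_swap (p q : V) : ‖cr p q‖ = ‖cr q p‖ := by rw [cr_swap, norm_neg]

theorem norm_perp (t : V) : ‖perp t‖ = ‖t‖ := by
  have h : ‖perp t‖ ^ 2 = ‖t‖ ^ 2 := by
    rw [norm_sq, norm_sq, perp_zero, perp_one, norm_neg, RCLike.norm_conj, RCLike.norm_conj]
    ring
  exact (pow_left_inj₀ (norm_nonneg _) (norm_nonneg _) two_ne_zero).1 h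

theorem cr_perp (t : V) : cr t (perp t) = ((‖t‖ ^ 2 : ℝ) : ℂ) := by
  rw [norm_sq', cr, perp_zero, perp_one]; ring

theorem ip_perp (t : V) : ip (perp t) t = 0 := by
  rw [ip, perp_zero, perp_one]; ring

/-- Decomposition with respect to a vector. -/
theorem decomp (t p : V) : ((‖t‖ ^ 2 : ℝ) : ℂ) • p = ip p t • t + cr t p • perp t := by
  rw [norm_sq']
  ext i
  fin_cases i
  · simp only [Fin.zero_eta, PiLp.smul_apply, PiLp.add_apply, smul_eq_mul, perp_zero, ip, cr]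
    ring
  · simp only [Fin.mk_one, PiLp.smul_apply, PiLp.add_apply, smul_eq_mul, perp_one, ip, cr]
    ring

theorem decomp1 {t : V} (ht : ‖t‖ = 1) (p : V) : p = ip p t • t + cr t p • perp t := by
  have h := decomp t p
  rw [ht] at h
  simpa using h

theorem D_nonneg (p q : V) : 0 ≤ D p q := by unfold D; positivity

theorem D_comm (p q : V) : D p q = D q p := by
  unfold D; rw [norm_cr_swap, mul_comm]

theorem D_self (p : V) : D p p = 0 := by unfold D; rw [cr_self]; simp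

theorem D_le_one (p q : V) : D p q ≤ 1 := by
  unfold D
  exact div_le_one_of_le₀ (norm_cr_le p q) (by positivity)

theorem D_mul {p q : V} (hp : p ≠ 0) (hq : q ≠ 0) : ‖cr p q‖ = D p q * (‖p‖ * ‖q‖) := by
  unfold D
  rw [div_mul_cancel₀]
  have := norm_pos_iff.2 hp
  have := norm_pos_iff.2 hq
  positivity

theorem D_smul_left {c : ℂ} (hc : c ≠ 0) (p q : V) : D (c • p) q = D p q := by
  unfold D
  have h : ‖c‖ ≠ 0 := norm_ne_zero_iff.2 hc
  rw [cr_smul_left, norm_mul, norm_smul, mul_assoc, mul_div_mul_left _ _ h]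

theorem D_smul_right {c : ℂ} (hc : c ≠ 0) (p q : V) : D p (c • q) = D p q := by
  rw [D_comm, D_smul_left hc, D_comm]

theorem D_triangle {p q r : V} (hp : p ≠ 0) (hq : q ≠ 0) (hr : r ≠ 0) :
    D p r ≤ D p q + D q r := by
  have hp' := norm_pos_iff.2 hp
  have hq' := norm_pos_iff.2 hq
  have hr' := norm_pos_iff.2 hr
  have h1 : cr p r * ip q q = cr p q * ip r q + cr q r * ip p q := by
    unfold cr ip; ring
  have h2 : ‖cr p r‖ * ‖q‖ ^ 2 ≤ ‖cr p q‖ * (‖r‖ * ‖q‖) + ‖cr q r‖ * (‖p‖ * ‖q‖) := by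
    have h3 : ‖cr p r * ip q q‖ = ‖cr p r‖ * ‖q‖ ^ 2 := by
      rw [norm_mul, ip_self, Complex.norm_real, Real.norm_eq_abs, abs_of_nonneg (by positivity)]
    rw [← h3, h1]
    refine (norm_add_le _ _).trans ?_
    rw [norm_mul, norm_mul]
    gcongr
    · exact norm_ip_le r q
    · exact norm_ip_le p q
  unfold D
  rw [div_add_div _ _ (by positivity) (by positivity), div_le_div_iff₀ (by positivity)
    (by positivity)]
  have h4 : ‖cr p r‖ * ‖q‖ ≤ ‖cr p q‖ * ‖r‖ + ‖cr q r‖ * ‖p‖ := by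
    have h5 : (‖cr p r‖ * ‖q‖) * ‖q‖ ≤ (‖cr p q‖ * ‖r‖ + ‖cr q r‖ * ‖p‖) * ‖q‖ := by
      calc _ = ‖cr p r‖ * ‖q‖ ^ 2 := by ring
        _ ≤ _ := h2
        _ = _ := by ring
    exact le_of_mul_le_mul_right h5 hq'
  calc ‖cr p r‖ * (‖p‖ * ‖q‖ * (‖q‖ * ‖r‖)) = (‖cr p r‖ * ‖q‖) * (‖p‖ * ‖q‖ * ‖r‖) := by ring
    _ ≤ (‖cr p q‖ * ‖r‖ + ‖cr q r‖ * ‖p‖) * (‖p‖ * ‖q‖ * ‖r‖) := by gcongr
    _ = _ := by ring

/-- The sphere. -/
structure X : Type where
  /-- the vector -/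
  val : V
  /-- it is not zero -/
  ne : val ≠ 0

noncomputable instance : PseudoMetricSpace X where
  dist p q := D p.1 q.1
  dist_self p := D_self p.1
  dist_comm p q := D_comm p.1 q.1
  dist_triangle p q r := D_triangle p.2 q.2 r.2

theorem dist_eq (p q : X) : dist p q = D p.val q.val := rfl

theorem D_le_norm_sub {p q : V} (hp : ‖p‖ = 1) (hq : ‖q‖ = 1) : D p q ≤ ‖p - q‖ := by
  unfold D
  rw [hp, hq, one_mul, div_one]
  have h : cr p q = cr p (q - p) := by rw [cr_sub_right, cr_self, sub_zero]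
  rw [h]
  refine (norm_cr_le _ _).trans ?_
  rw [hp, one_mul, norm_sub_rev]

theorem exists_unit {p : V} (hp : p ≠ 0) : ∃ c : ℂ, c ≠ 0 ∧ ‖c • p‖ = 1 := by
  have h := norm_pos_iff.2 hp
  refine ⟨((‖p‖⁻¹ : ℝ) : ℂ), by exact_mod_cast (inv_pos.2 h).ne', ?_⟩
  rw [norm_smul, Complex.norm_real, Real.norm_eq_abs, abs_of_pos (inv_pos.2 h),
    inv_mul_cancel₀ h.ne']

theorem exists_net {r : ℝ} (hr : 0 < r) : ∃ S : Finset X, ∀ x : X, ∃ a ∈ S, dist x a ≤ r := by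
  classical
  obtain ⟨t, ht, hfin, hcov⟩ := (isCompact_sphere (0 : V) 1).finite_cover_balls hr
  have hne : ∀ p ∈ t, p ≠ 0 := by
    intro p hp h0
    have := ht hp
    rw [h0, mem_sphere_zero_iff_norm, norm_zero] at this
    exact zero_ne_one this
  have hfin' : Finite t := hfin
  refine ⟨(Set.finite_range (fun p : t => (⟨p.1, hne p.1 p.2⟩ : X))).toFinset, fun x => ?_⟩
  obtain ⟨c, hc, hu⟩ := exists_unit x.2
  have h1 : c • x.val ∈ sphere (0 : V) 1 := by rw [mem_sphere_zero_iff_norm, hu]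
  obtain ⟨a, ha, h2⟩ := Set.mem_iUnion₂.1 (hcov h1)
  refine ⟨⟨a, hne a ha⟩, ?_, ?_⟩
  · rw [Set.Finite.mem_toFinset]
    exact ⟨⟨a, ha⟩, rfl⟩
  · rw [dist_eq]
    rw [← D_smul_left hc]
    have h3 : ‖a‖ = 1 := by have := ht ha; rwa [mem_sphere_zero_iff_norm] at this
    refine (D_le_norm_sub hu h3).trans ?_
    rw [mem_ball, dist_eq_norm] at h2
    exact h2.le

/-! ### Linear maps near the identity -/

/-- The functional `cr t`. -/
noncomputable def crL (t : V) : V →L[ℂ] ℂ :=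
  t 0 • EuclideanSpace.proj 1 - t 1 • EuclideanSpace.proj 0

theorem crL_apply (t p : V) : crL t p = cr t p := by
  simp [crL, cr]

/-- The functional `ip · t`. -/
noncomputable def ipL (t : V) : V →L[ℂ] ℂ :=
  conj (t 0) • EuclideanSpace.proj 0 + conj (t 1) • EuclideanSpace.proj 1

theorem ipL_apply (t p : V) : ipL t p = ip p t := by
  simp [ipL, ip]; ring

/-- Linear maps near the identity. -/
def Near (η : ℝ) (A : V →L[ℂ] V) : Prop := ∀ p, ‖A p - p‖ ≤ η * ‖p‖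

theorem Near.mono {η η' : ℝ} {A : V →L[ℂ] V} (h : Near η A) (hη : η ≤ η') : Near η' A :=
  fun p => (h p).trans (by gcongr)

theorem near_id {η : ℝ} (hη : 0 ≤ η) : Near η (ContinuousLinearMap.id ℂ V) := fun p => by
  simpa using mul_nonneg hη (norm_nonneg p)

theorem Near.upper {η : ℝ} {A : V →L[ℂ] V} (h : Near η A) (p : V) : ‖A p‖ ≤ (1 + η) * ‖p‖ := by
  have h1 := norm_add_le (A p - p) p
  rw [sub_add_cancel] at h1
  linarith [h p]

theorem Near.lower {η : ℝ} {A : V →L[ℂ] V} (h : Near η A) (p : V) : (1 - η) * ‖p‖ ≤ ‖A p‖ := by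
  have h1 := norm_sub_norm_le p (A p)
  rw [norm_sub_rev] at h1
  linarith [h p]

theorem Near.ne {η : ℝ} {A : V →L[ℂ] V} (h : Near η A) (hη : η < 1) {p : V} (hp : p ≠ 0) :
    A p ≠ 0 := by
  have h1 := h.lower p
  have h2 := norm_pos_iff.2 hp
  intro h3
  rw [h3, norm_zero] at h1
  nlinarith

theorem Near.comp {η η' : ℝ} {A B : V →L[ℂ] V} (hA : Near η A) (hB : Near η' B) (hη : 0 ≤ η)
    (hη1 : η ≤ 1) : Near (η + 2 * η') (A.comp B) := by
  intro p
  have h1 : (A.comp B) p - p = (A (B p - p) - (B p - p)) + ((A p - p) + (B p - p)) := by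
    rw [ContinuousLinearMap.comp_apply, map_sub]; abel
  have h0 : ‖(A.comp B) p - p‖ ≤ ‖A (B p)- B p‖ + ‖B p - p‖ := by
    have h3 : (A.comp B) p - p = (A (B p) - B p) + (B p - p) := by
      rw [ContinuousLinearMap.comp_apply]; abel
    rw [h3]; exact norm_add_le _ _
  have h4 := hA (B p)
  have h5 := hB p
  have h6 := hB.upper p
  have h7 : η * ‖B p‖ ≤ η * ((1 + η') * ‖p‖) := by gcongr
  have h8 : 0 ≤ η' * ‖p‖ := (norm_nonneg _).trans h5
  nlinarith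

/-- Linear maps near the identity are bilipschitz. -/
theorem Near.lip {η : ℝ} {A : V →L[ℂ] V} (h : Near η A) (hη0 : 0 ≤ η) (hη : η ≤ 1 / 6) {p q : V}
    (hp : p ≠ 0) (hq : q ≠ 0) : D (A p) (A q) ≤ 2 * D p q := by
  have hp' := norm_pos_iff.2 hp
  have hq' := norm_pos_iff.2 hq
  have h1 : ((‖p‖ ^ 2 : ℝ) : ℂ) * cr (A p) (A q) = cr p q * cr (A p) (A (perp p)) := by
    rw [← cr_smul_right, ← map_smul, decomp p q, map_add, map_smul, map_smul, cr_add_right,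
      cr_smul_right, cr_self, cr_smul_right]
    ring
  have h2 : ‖p‖ ^ 2 * ‖cr (A p) (A q)‖ ≤ ‖cr p q‖ * ((1 + η) * ‖p‖ * ((1 + η) * ‖p‖)) := by
    have h3 : ‖p‖ ^ 2 * ‖cr (A p) (A q)‖ = ‖((‖p‖ ^ 2 : ℝ) : ℂ) * cr (A p) (A q)‖ := by
      rw [norm_mul, Complex.norm_real, Real.norm_eq_abs, abs_of_nonneg (by positivity)]
    rw [h3, h1, norm_mul]
    gcongr
    refine (norm_cr_le _ _).trans ?_
    have h4 := h.upper p
    have h5 := h.upper (perp p)
    rw [norm_perp] at h5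
    gcongr
  have h3 : ‖cr (A p) (A q)‖ ≤ ‖cr p q‖ * (1 + η) ^ 2 := by
    have h4 : ‖p‖ ^ 2 * ‖cr (A p) (A q)‖ ≤ ‖p‖ ^ 2 * (‖cr p q‖ * (1 + η) ^ 2) := by
      calc _ ≤ _ := h2
        _ = _ := by ring
    exact le_of_mul_le_mul_left h4 (by positivity)
  have h4 := h.lower p
  have h5 := h.lower q
  have h6 : 0 < ‖A p‖ := norm_pos_iff.2 (h.ne (by linarith) hp)
  have h7 : 0 < ‖A q‖ := norm_pos_iff.2 (h.ne (by linarith) hq)
  unfold D
  rw [← mul_div_assoc, div_le_div_iff₀ (by positivity) (by positivity)]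
  have h8 : (1 - η) * ‖p‖ * ((1 - η) * ‖q‖) ≤ ‖A p‖ * ‖A q‖ := by
    gcongr
    have : 0 < 1 - η := by linarith
    positivity
  have h9 : (1 + η) ^ 2 ≤ 2 * (1 - η) ^ 2 := by nlinarith
  calc ‖cr (A p) (A q)‖ * (‖p‖ * ‖q‖) ≤ (‖cr p q‖ * (1 + η) ^ 2) * (‖p‖ * ‖q‖) := by gcongr
    _ ≤ (‖cr p q‖ * (2 * (1 - η) ^ 2)) * (‖p‖ * ‖q‖) := by gcongr
    _ = 2 * ‖cr p q‖ * ((1 - η) * ‖p‖ * ((1 - η) * ‖q‖)) := by ring
    _ ≤ 2 * ‖cr p q‖ * (‖A p‖ * ‖A q‖) := by gcongr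

/-- The kick at `t`. -/
noncomputable def K (t : V) (a : ℂ) : V →L[ℂ] V :=
  ContinuousLinearMap.id ℂ V + (a • crL t).smulRight t

theorem K_apply (t : V) (a : ℂ) (p : V) : K t a p = p + (a * cr t p) • t := by
  simp [K, crL_apply]

theorem K_zero (t : V) (p : V) : K t 0 p = p := by rw [K_apply]; simp

theorem K_self (t : V) (a : ℂ) : K t a t = t := by rw [K_apply, cr_self]; simp

theorem cr_K (t : V) (a : ℂ) (p : V) : cr t (K t a p) = cr t p := by
  rw [K_apply, cr_add_right, cr_smul_right, cr_self]; ring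

theorem ip_K {t : V} (ht : ‖t‖ = 1) (a : ℂ) (p : V) : ip (K t a p) t = ip p t + a * cr t p := by
  rw [K_apply, ip_add_left, ip_smul_left, ip_self, ht]; simp

theorem near_K {t : V} (ht : ‖t‖ = 1) (a : ℂ) : Near ‖a‖ (K t a) := by
  intro p
  rw [K_apply, add_sub_cancel_left, norm_smul, norm_mul, ht, mul_one]
  gcongr
  have := norm_cr_le t p
  rwa [ht, one_mul] at this

theorem K_close {t : V} (ht : ‖t‖ = 1) {a a' : ℂ} (ha : ‖a‖ ≤ 1 / 6) (ha' : ‖a'‖ ≤ 1 / 6) {p : V}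
    (hp : p ≠ 0) : D (K t a p) (K t a' p) ≤ 2 * ‖a - a'‖ := by
  have hp' := norm_pos_iff.2 hp
  have h1 : cr (K t a p) (K t a' p) = (a - a') * (cr t p) ^ 2 := by
    rw [K_apply, K_apply, cr_add_left, cr_add_right, cr_add_right, cr_smul_right, cr_smul_right,
      cr_smul_left, cr_smul_left, cr_self, cr_self, cr_swap p t]
    ring
  have h2 := (near_K ht a).lower p
  have h3 := (near_K ht a').lower p
  have h4 : 5 / 6 * ‖p‖ ≤ ‖K t a p‖ := by nlinarith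
  have h5 : 5 / 6 * ‖p‖ ≤ ‖K t a' p‖ := by nlinarith
  have h6 := norm_cr_le t p
  rw [ht, one_mul] at h6
  unfold D
  rw [div_le_iff₀ (by
    have : 0 < ‖K t a p‖ := by linarith
    have : 0 < ‖K t a' p‖ := by linarith
    positivity), h1, norm_mul, norm_pow]
  have h7 : 5 / 6 * ‖p‖ * (5 / 6 * ‖p‖) ≤ ‖K t a p‖ * ‖K t a' p‖ := by gcongr
  have h8 : ‖cr t p‖ ^ 2 ≤ ‖p‖ ^ 2 := by gcongr
  calc ‖a - a'‖ * ‖cr t p‖ ^ 2 ≤ ‖a - a'‖ * ‖p‖ ^ 2 := by gcongr
    _ ≤ 2 * ‖a - a'‖ * (5 / 6 * ‖p‖ * (5 / 6 * ‖p‖)) := by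
        nlinarith [norm_nonneg (a - a'), mul_nonneg (norm_nonneg (a - a')) (sq_nonneg ‖p‖)]
    _ ≤ _ := by gcongr

/-- Moving a point to a nearby point. -/
theorem exists_corr {u c : V} (hu : u ≠ 0) (hc : ‖c‖ = 1) (h : D u c < 1) :
    ∃ A : V →L[ℂ] V, Near (D u c) A ∧ ∃ a : ℂ, a ≠ 0 ∧ A u = a • c := by
  have hu' := norm_pos_iff.2 hu
  have hc0 : c ≠ 0 := by
    intro h0; rw [h0, norm_zero] at hc; exact zero_ne_one hc
  have hcr : ‖cr c u‖ = D u c * ‖u‖ := by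
    rw [norm_cr_swap, D_mul hu hc0, hc, mul_one]
  refine ⟨ContinuousLinearMap.id ℂ V -
    ((((‖u‖ ^ 2)⁻¹ : ℝ) : ℂ) • ipL u).smulRight (cr c u • perp c), ?_, ip u c, ?_, ?_⟩
  · intro p
    have h1 : (ContinuousLinearMap.id ℂ V -
      ((((‖u‖ ^ 2)⁻¹ : ℝ) : ℂ) • ipL u).smulRight (cr c u • perp c)) p - p =
      -(((((‖u‖ ^ 2)⁻¹ : ℝ) : ℂ) * ip p u) • (cr c u • perp c)) := by
      simp [ipL_apply]
    rw [h1, norm_neg, norm_smul, norm_mul, norm_smul, norm_perp, hc, mul_one, hcr,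
      Complex.norm_real, Real.norm_eq_abs, abs_of_nonneg (by positivity)]
    have h2 := norm_ip_le p u
    calc (‖u‖ ^ 2)⁻¹ * ‖ip p u‖ * (D u c * ‖u‖)
        ≤ (‖u‖ ^ 2)⁻¹ * (‖p‖ * ‖u‖) * (D u c * ‖u‖) := by
          have := D_nonneg u c
          gcongr
      _ = D u c * ‖p‖ := by field_simp
  · intro h0
    have h1 := lagrange u c
    rw [h0, hc, norm_zero, norm_cr_swap, hcr] at h1
    have h2 : D u c ^ 2 * ‖u‖ ^ 2 < 1 * ‖u‖ ^ 2 := by
      have : D u c ^ 2 < 1 := by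
        have h3 := D_nonneg u c
        nlinarith
      gcongr
    nlinarith
  · have h1 := decomp1 hc u
    have h2 : (ContinuousLinearMap.id ℂ V -
      ((((‖u‖ ^ 2)⁻¹ : ℝ) : ℂ) • ipL u).smulRight (cr c u • perp c)) u =
      u - (((((‖u‖ ^ 2)⁻¹ : ℝ) : ℂ) * ip u u) • (cr c u • perp c)) := by
      simp [ipL_apply]
    rw [h2, ip_self, ← Complex.ofReal_mul, inv_mul_cancel₀ (by positivity), Complex.ofReal_one,
      one_smul]
    nth_rewrite 1 [h1]
    abel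

end Pool.Agent.R241.RC
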