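import Mathlib

/-!
# Blocks
-/

set_option autoImplicit false

open Filter Topology Set Metric

namespace Pool.Agent.R241.RC

/-- The orbit of `x` from time `n`. -/
def run {Z : Type} (h : ℕ → Z → Z) (n : ℕ) : ℕ → Z → Z
  | 0, x => x
  | j + 1, x => h (n + j) (run h n j x)

theorem run_add {Z : Type} (h : ℕ → Z → Z) (n i j : ℕ) (x : Z) :
    run h n (i + j) x = run h (n + i) j (run h n i x) := by
  induction j with
  | zero => rfl
  | succ j ih => rw [← Nat.add_assoc, run, run, ih, Nat.add_assoc]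

theorem run_block {Z : Type} (h : ℕ → Z → Z) (b k j : ℕ) (x : Z) :
    run (fun k => run h (k * b) b) k j x = run h (k * b) (j * b) x := by
  induction j with
  | zero => rw [Nat.zero_mul]; rfl
  | succ j ih => rw [run, ih, Nat.succ_mul, run_add, Nat.add_mul]

/-- Exponential stability. -/
def Stab {Z : Type} [PseudoMetricSpace Z] (h : ℕ → Z → Z) (δ C θ : ℝ) (n : ℕ) (x : Z) : Prop :=
  ∀ w, dist w x ≤ δ → ∀ N, dist (run h n N w) (run h n N x) ≤ C * θ ^ N

theorem run_lip {Z : Type} [PseudoMetricSpace Z] {h : ℕ → Z → Z} {L : ℝ} (hL : 0 ≤ L)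
    (hh : ∀ n w o, dist (h n w) (h n o) ≤ L * dist w o) (n j : ℕ) (w o : Z) :
    dist (run h n j w) (run h n j o) ≤ L ^ j * dist w o := by
  induction j with
  | zero => simp [run]
  | succ j ih =>
    rw [run, run]
    refine (hh _ _ _).trans ?_
    calc L * dist (run h n j w) (run h n j o) ≤ L * (L ^ j * dist w o) := by gcongr
      _ = _ := by ring

theorem stab_block {Z : Type} [PseudoMetricSpace Z] {h : ℕ → Z → Z} {L δ C θ θ' : ℝ} (hL : 1 ≤ L)
    (hh : ∀ n w o, dist (h n w) (h n o) ≤ L * dist w o) {b : ℕ} (h0 : 0 < b) (hδ : 0 < δ)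
    (hC : 0 < C) (hθ' : 0 < θ') (hθ'1 : θ' ≤ 1) (hθ : θ' ^ b = θ) {n k : ℕ} {x : Z}
    (hk : n ≤ k * b) (hk2 : k * b ≤ n + b)
    (hs : Stab (fun k => run h (k * b) b) δ C θ k (run h n (k * b - n) x)) :
    Stab h (δ / L ^ b) (L ^ b * (C + δ) / θ ^ 2) θ' n x := by
  intro w hw N
  have hL0 : 0 < L := by linarith
  have hLb : 1 ≤ L ^ b := one_le_pow₀ hL
  have hθ0 : 0 < θ := by rw [← hθ]; positivity
  have hθ1 : θ ≤ 1 := by rw [← hθ]; exact pow_le_one₀ hθ'.le hθ'1
  obtain ⟨c, hc⟩ := Nat.exists_eq_add_of_le hk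
  have hcb : c ≤ b := by omega
  have hcn : k * b - n = c := by omega
  rw [hcn] at hs
  have hw1 : ∀ j ≤ b, dist (run h n j w) (run h n j x) ≤ δ := by
    intro j hj
    refine (run_lip hL0.le hh n j w x).trans ?_
    calc L ^ j * dist w x ≤ L ^ b * (δ / L ^ b) := by
          gcongr
      _ = δ := by field_simp
  rcases Nat.lt_or_ge N c with hN | hN
  · refine (hw1 N (by omega)).trans ?_
    have h1 : θ ≤ θ' ^ N := by
      rw [← hθ]
      exact pow_le_pow_of_le_one hθ'.le hθ'1 (by omega)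
    have h2 : δ / θ ≤ L ^ b * (C + δ) / θ ^ 2 := by
      rw [div_le_div_iff₀ hθ0 (by positivity)]
      have h3 : δ ≤ L ^ b * (C + δ) := by nlinarith
      have h4 : δ * θ ^ 2 ≤ δ * θ := by
        have : θ ^ 2 ≤ θ := by nlinarith
        gcongr
      calc δ * θ ^ 2 ≤ δ * θ := h4
        _ ≤ _ := by gcongr
    calc δ = δ / θ * θ := by field_simp
      _ ≤ L ^ b * (C + δ) / θ ^ 2 * θ' ^ N := by gcongr
  · obtain ⟨M, rfl⟩ := Nat.exists_eq_add_of_le hN
    set j := M / b with hj
    set i := M % b with hi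
    have hM : j * b + i = M := by rw [Nat.mul_comm]; exact Nat.div_add_mod M b
    have hib : i < b := Nat.mod_lt M h0
    have h1 := hs (run h n c w) (hw1 c hcb) j
    rw [run_block, run_block] at h1
    have e1 : ∀ x, run h n (c + M) x = run h (k * b + j * b) i
        (run h (k * b) (j * b) (run h n c x)) := by
      intro x
      rw [run_add, ← hM, run_add, ← hc]
    rw [e1, e1]
    refine (run_lip hL0.le hh _ i _ _).trans ?_
    have h2 : L ^ i ≤ L ^ b := pow_le_pow_right₀ hL hib.le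
    have h3 : θ ^ j * θ ^ 2 ≤ θ' ^ (c + M) := by
      rw [← hθ, ← pow_mul, ← pow_mul, ← pow_add, ← hM]
      refine pow_le_pow_of_le_one hθ'.le hθ'1 ?_
      have : b * j = j * b := Nat.mul_comm _ _
      omega
    calc L ^ i * dist (run h (k * b) (j * b) (run h n c w))
          (run h (k * b) (j * b) (run h n c x)) ≤ L ^ b * (C * θ ^ j) := by gcongr
      _ = L ^ b * C / θ ^ 2 * (θ ^ j * θ ^ 2) := by field_simp
      _ ≤ L ^ b * (C + δ) / θ ^ 2 * θ' ^ (c + M) := by
          gcongr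
          linarith

end Pool.Agent.R241.RC
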