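import Pool.Agent.R241.RC3
import Pool.Agent.R241.RC6

/-!
# Construction of the leader
-/

set_option autoImplicit false

open Filter Topology Set Metric ComplexConjugate

namespace Pool.Agent.R241.RC

/-- A sequence of maps with critical points. -/
structure Elem (F : ℕ → V → V) (c : ℕ → V) (L C₀ : ℝ) : Prop where
  cls : ∀ n, Cls (F n)
  unit : ∀ n, ‖c n‖ = 1
  lip : ∀ n p q, p ≠ 0 → q ≠ 0 → D (F n p) (F n q) ≤ L * D p q
  crit : ∀ n p q, p ≠ 0 → q ≠ 0 →
    D (F n p) (F n q) ≤ C₀ * max (D p (c n)) (D q (c n)) * D p q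

/-- The perturbed maps. -/
noncomputable def pm (A : ℕ → V →L[ℂ] V) (F : ℕ → V → V) (n : ℕ) (p : V) : V := A n (F n p)

theorem orb_eq_run {Z : Type} (f : ℕ → Z → Z) (n j : ℕ) (x : Z) :
    run f n j x = orb (fun i => f (n + i)) j x := by
  induction j with
  | zero => rfl
  | succ j ih => rw [run, ih]; rfl

section

variable {F : ℕ → V → V} {L ε : ℝ} {A : ℕ → V →L[ℂ] V}

theorem pm_cls (hF : ∀ n, Cls (F n)) (hA : ∀ n, Near ε (A n)) (hε : ε < 1) (n : ℕ) :
    Cls (pm A F n) := (hF n).near (hA n) hε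

theorem run_cls {h : ℕ → V → V} (hh : ∀ n, Cls (h n)) (n j : ℕ) : Cls (run h n j) := by
  induction j with
  | zero => exact ⟨differentiable_id, fun p hp => hp, 1, fun c p => by rw [pow_one]; rfl⟩
  | succ j ih => exact (hh (n + j)).comp ih

theorem pm_lip (hF : ∀ n, Cls (F n)) (hA : ∀ n, Near ε (A n)) (hε0 : 0 ≤ ε) (hε : ε ≤ 1 / 6)
    (hlip : ∀ n p q, p ≠ 0 → q ≠ 0 → D (F n p) (F n q) ≤ L * D p q) (n : ℕ) {p q : V}
    (hp : p ≠ 0) (hq : q ≠ 0) : D (pm A F n p) (pm A F n q) ≤ 2 * L * D p q := by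
  refine ((hA n).lip hε0 hε ((hF n).nz p hp) ((hF n).nz q hq)).trans ?_
  have := hlip n p q hp hq
  linarith

theorem run_D_lip {h : ℕ → V → V} (hh : ∀ n, Cls (h n)) {L : ℝ} (hL : 0 ≤ L)
    (hlip : ∀ n p q, p ≠ 0 → q ≠ 0 → D (h n p) (h n q) ≤ L * D p q) (n j : ℕ) {p q : V}
    (hp : p ≠ 0) (hq : q ≠ 0) : D (run h n j p) (run h n j q) ≤ L ^ j * D p q := by
  induction j with
  | zero => simp [run]
  | succ j ih =>
    rw [run, run]
    refine (hlip _ _ _ ((run_cls hh n j).nz p hp) ((run_cls hh n j).nz q hq)).trans ?_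
    calc L * D (run h n j p) (run h n j q) ≤ L * (L ^ j * D p q) := by gcongr
      _ = _ := by ring

end

/-- One block of the construction of the leader. -/
theorem block_lead {L C₀ ε : ℝ} (hL : 1 ≤ L) (hC₀ : 0 ≤ C₀) (hε : 0 < ε) (hε6 : ε ≤ 1 / 6) :
    ∃ (b : ℕ) (ρ₁ : ℝ), 0 < b ∧ 0 < ρ₁ ∧ ∀ (F : ℕ → V → V) (c : ℕ → V), Elem F c L C₀ →
      ∀ (n₀ : ℕ) (x : V), x ≠ 0 → ∃ A : ℕ → V →L[ℂ] V, (∀ j, Near ε (A j)) ∧
        ∀ w o : V, w ≠ 0 → o ≠ 0 → D w x ≤ ρ₁ → D o x ≤ ρ₁ →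
          D (run (pm A F) n₀ b w) (run (pm A F) n₀ b o) ≤ 1 / 4 * D w o := by
  classical
  have hL0 : 0 < L := by linarith
  set e : ℝ := ε / 4 with he
  have he0 : 0 < e := by positivity
  set B : ℝ := max (2 / ε) 1 with hB
  have hB1 : 1 ≤ B := le_max_right _ _
  have hB0 : 0 < B := by linarith
  have hBε : 2 / ε ≤ B := le_max_left _ _
  set M : ℝ := 2 * B / e with hM
  have hM1 : 1 < M := by rw [hM, lt_div_iff₀ he0]; linarith
  have hM0 : 0 < M := by linarith
  have hθ0 : 0 ≤ 1 - 1 / M := by rw [sub_nonneg, div_le_one hM0]; exact hM1.le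
  have hθ1 : 1 - 1 / M < 1 := by
    have : 0 < 1 / M := by positivity
    linarith
  have hlim : Tendsto (fun N : ℕ => L * (M * (16 * B ^ 2 * L)) * (1 - 1 / M) ^ N) atTop
      (𝓝 (L * (M * (16 * B ^ 2 * L)) * 0)) :=
    (tendsto_pow_atTop_nhds_zero_of_lt_one hθ0 hθ1).const_mul _
  rw [mul_zero] at hlim
  obtain ⟨N, hN⟩ := (hlim.eventually (gt_mem_nhds (show (0 : ℝ) < 1 / 4 by norm_num))).exists
  set ρ₁ : ℝ := min (e / (16 * B ^ 2 * L)) (1 / (4 * (C₀ + 1) * (2 * L) ^ (2 * (N + 2)))) with hρ₁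
  have hρ0 : 0 < ρ₁ := by rw [hρ₁]; positivity
  have hρ1 : 8 * B ^ 2 * (L * ρ₁) ≤ e / 2 := by
    have : ρ₁ ≤ e / (16 * B ^ 2 * L) := min_le_left _ _
    calc 8 * B ^ 2 * (L * ρ₁) ≤ 8 * B ^ 2 * (L * (e / (16 * B ^ 2 * L))) := by gcongr
      _ = e / 2 := by field_simp; norm_num
  have hρ2 : C₀ * (2 * L) ^ (2 * (N + 2)) * ρ₁ ≤ 1 / 4 := by
    have : ρ₁ ≤ 1 / (4 * (C₀ + 1) * (2 * L) ^ (2 * (N + 2))) := min_le_right _ _
    calc C₀ * (2 * L) ^ (2 * (N + 2)) * ρ₁
        ≤ (C₀ + 1) * (2 * L) ^ (2 * (N + 2)) *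
          (1 / (4 * (C₀ + 1) * (2 * L) ^ (2 * (N + 2)))) := by gcongr; linarith
      _ = 1 / 4 := by field_simp
  clear_value ρ₁
  refine ⟨N + 2, ρ₁, by omega, hρ0, ?_⟩
  intro F₀ c₀ hEl₀ n₀ x hx
  -- shift
  set F : ℕ → V → V := fun i => F₀ (n₀ + i) with hF
  set c : ℕ → V := fun i => c₀ (n₀ + i) with hc
  have hEl : Elem F c L C₀ := ⟨fun n => hEl₀.cls _, fun n => hEl₀.unit _,
    fun n p q hp hq => hEl₀.lip _ p q hp hq, fun n p q hp hq => hEl₀.crit _ p q hp hq⟩
  suffices h : ∃ A : ℕ → V →L[ℂ] V, (∀ j, Near ε (A j)) ∧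
      ∀ w o : V, w ≠ 0 → o ≠ 0 → D w x ≤ ρ₁ → D o x ≤ ρ₁ →
        D (run (pm A F) 0 (N + 2) w) (run (pm A F) 0 (N + 2) o) ≤ 1 / 4 * D w o by
    obtain ⟨A, hA, h1⟩ := h
    refine ⟨fun j => A (j - n₀), fun j => hA _, fun w o hw ho hwx hox => ?_⟩
    have h2 : ∀ p, run (pm (fun j => A (j - n₀)) F₀) n₀ (N + 2) p =
        run (pm A F) 0 (N + 2) p := by
      intro p
      rw [orb_eq_run, orb_eq_run]
      congr 1
      funext i q
      change A (n₀ + i - n₀) (F₀ (n₀ + i) q) = A (0 + i) (F₀ (n₀ + (0 + i)) q)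
      rw [Nat.add_sub_cancel_left, Nat.zero_add]
    rw [h2, h2]
    exact h1 w o hw ho hwx hox
  clear_value F c
  by_cases hav : Avoid F c e B (N + 1) x
  · -- all kicked orbits avoid the critical points
    refine ⟨fun _ => ContinuousLinearMap.id ℂ V, fun _ => near_id hε.le, ?_⟩
    intro w o hw ho hwx hox
    have h1 : ∀ p, run (pm (fun _ => ContinuousLinearMap.id ℂ V) F) 0 (N + 2) p =
        F (N + 1) (orb F (N + 1) p) := by
      intro p
      rw [orb_eq_run]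
      have h2 : (fun i => pm (fun _ => ContinuousLinearMap.id ℂ V) F (0 + i)) = F := by
        funext i q
        unfold pm
        rw [Nat.zero_add]; rfl
      rw [h2]; rfl
    rw [h1, h1]
    have hcls : ∀ n, Cls (orb F n) := by
      intro n
      induction n with
      | zero => exact ⟨differentiable_id, fun p hp => hp, 1, fun c p => by rw [pow_one]; rfl⟩
      | succ n ih => exact (hEl.cls n).comp ih
    have h2 := contract (f := F) (t := c) hEl.cls hEl.unit he0 (by linarith) hB1 hL0.le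
      (fun p q hp hq => hEl.lip 0 p q hp hq) hx hav hρ1 hw ho hwx hox
    refine (hEl.lip _ _ _ ((hcls _).nz w hw) ((hcls _).nz o ho)).trans ?_
    have h3 := D_nonneg w o
    calc L * D (orb F (N + 1) w) (orb F (N + 1) o)
        ≤ L * (2 * B / e * (1 - 1 / (2 * B / e)) ^ N * (16 * B ^ 2 * L) * D w o) := by gcongr
      _ = (L * (M * (16 * B ^ 2 * L)) * (1 - 1 / M) ^ N) * D w o := by rw [hM]; ring
      _ ≤ 1 / 4 * D w o := by
          have := hN.le
          gcongr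
  · -- some word leads close to a critical point
    unfold Avoid at hav
    push Not at hav
    obtain ⟨a, ha, n, hn, h3⟩ := hav
    set u : V := ko F c a (n + 1) x with hu
    have ha1 : ∀ i, ‖a i‖ < 1 := fun i => (ha i).trans_lt (by linarith)
    have hu0 : u ≠ 0 := ko_ne hEl.cls hEl.unit ha1 hx (n + 1)
    have hun := norm_pos_iff.2 hu0
    have hD : D u (c (n + 1)) ≤ ε / 2 := by
      have h5 := norm_ip_le u (c (n + 1))
      rw [hEl.unit, mul_one] at h5
      unfold D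
      rw [hEl.unit, mul_one, norm_cr_swap, div_le_iff₀ hun]
      have h6 : B * ‖cr (c (n + 1)) u‖ ≤ ‖u‖ := (h3.le).trans h5
      have h7 : 2 / ε * ‖cr (c (n + 1)) u‖ ≤ ‖u‖ := le_trans (by gcongr) h6
      calc ‖cr (c (n + 1)) u‖ = ε / 2 * (2 / ε * ‖cr (c (n + 1)) u‖) := by field_simp
        _ ≤ ε / 2 * ‖u‖ := by gcongr
    obtain ⟨Ac, hAc, s, hs, hAu⟩ := exists_corr hu0 (hEl.unit (n + 1)) (by linarith)
    let A : ℕ → V →L[ℂ] V := fun j => if j < n then K (c (j + 1)) (a j) else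
      if j = n then Ac.comp (K (c (n + 1)) (a n)) else ContinuousLinearMap.id ℂ V
    have hA1 : ∀ j < n, A j = K (c (j + 1)) (a j) := fun j hj => if_pos hj
    have hA2 : A n = Ac.comp (K (c (n + 1)) (a n)) := by
      change (if n < n then _ else _) = _
      rw [if_neg (lt_irrefl n), if_pos rfl]
    have hA3 : ∀ j, n < j → A j = ContinuousLinearMap.id ℂ V := by
      intro j hj
      change (if j < n then _ else _) = _
      rw [if_neg (by omega), if_neg (by omega)]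
    have hAnear : ∀ j, Near ε (A j) := by
      intro j
      rcases Nat.lt_trichotomy j n with h | h | h
      · rw [hA1 j h]
        exact (near_K (hEl.unit _) (a j)).mono ((ha j).trans (by linarith))
      · rw [h, hA2]
        have h5 := hAc.comp (near_K (hEl.unit (n + 1)) (a n)) (D_nonneg _ _) (by linarith)
        refine h5.mono ?_
        have := ha n
        linarith
      · rw [hA3 j h]; exact near_id hε.le
    clear_value A
    refine ⟨A, hAnear, ?_⟩
    have hcls : ∀ j, Cls (pm A F j) := pm_cls hEl.cls hAnear (by linarith)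
    have hlip : ∀ j p q, p ≠ 0 → q ≠ 0 → D (pm A F j p) (pm A F j q) ≤ 2 * L * D p q :=
      fun j p q hp hq => pm_lip hEl.cls hAnear hε.le hε6 hEl.lip j hp hq
    -- the orbit of `x`
    have hx1 : ∀ j ≤ n, run (pm A F) 0 j x = ko F c a j x := by
      intro j
      induction j with
      | zero => intro _; rfl
      | succ j ih =>
        intro hj
        rw [run, ih (by omega), Nat.zero_add, pm, hA1 j (by omega)]
        rfl
    have hx2 : run (pm A F) 0 (n + 1) x = s • c (n + 1) := by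
      rw [run, hx1 n le_rfl, Nat.zero_add, pm, hA2, ← hAu, hu]
      rfl
    intro w o hw ho hwx hox
    have hρnn : 0 ≤ ρ₁ := hρ0.le
    have hnear : ∀ p : V, p ≠ 0 → D p x ≤ ρ₁ →
        D (run (pm A F) 0 (n + 1) p) (c (n + 1)) ≤ (2 * L) ^ (n + 1) * ρ₁ := by
      intro p hp hpx
      have h5 := run_D_lip hcls (by linarith : (0 : ℝ) ≤ 2 * L) hlip 0 (n + 1) hp hx
      rw [hx2, D_smul_right hs] at h5
      refine h5.trans ?_
      gcongr
    have h5 := run_D_lip hcls (by linarith : (0 : ℝ) ≤ 2 * L) hlip 0 (n + 1) hw ho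
    have h6 : D (run (pm A F) 0 (n + 2) w) (run (pm A F) 0 (n + 2) o) ≤
        C₀ * ((2 * L) ^ (n + 1) * ρ₁) * ((2 * L) ^ (n + 1) * D w o) := by
      have h7 : ∀ p, run (pm A F) 0 (n + 2) p = F (n + 1) (run (pm A F) 0 (n + 1) p) := by
        intro p
        rw [run, pm, Nat.zero_add, hA3 (n + 1) (by omega)]
        rfl
      rw [h7, h7]
      refine (hEl.crit _ _ _ ((run_cls hcls _ _).nz w hw) ((run_cls hcls _ _).nz o ho)).trans ?_
      have h8 := max_le (hnear w hw hwx) (hnear o ho hox)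
      have h9 := D_nonneg (run (pm A F) 0 (n + 1) w) (run (pm A F) 0 (n + 1) o)
      gcongr
    have h7 : ∀ p, run (pm A F) 0 (N + 2) p =
        run (pm A F) (0 + (n + 2)) (N - n) (run (pm A F) 0 (n + 2) p) := by
      intro p
      rw [← run_add, show n + 2 + (N - n) = N + 2 by omega]
    rw [h7 w, h7 o]
    have hwn : run (pm A F) 0 (n + 2) w ≠ 0 := (run_cls hcls 0 (n + 2)).nz w hw
    have hon : run (pm A F) 0 (n + 2) o ≠ 0 := (run_cls hcls 0 (n + 2)).nz o ho
    have h10 := run_D_lip hcls (by linarith : (0 : ℝ) ≤ 2 * L) hlip (0 + (n + 2)) (N - n)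
      hwn hon
    refine h10.trans ?_
    have h8 := D_nonneg w o
    have h2L : (1 : ℝ) ≤ 2 * L := by linarith
    calc (2 * L) ^ (N - n) * D (run (pm A F) 0 (n + 2) w) (run (pm A F) 0 (n + 2) o)
        ≤ (2 * L) ^ (N - n) * (C₀ * ((2 * L) ^ (n + 1) * ρ₁) * ((2 * L) ^ (n + 1) * D w o)) := by
          gcongr
      _ = C₀ * (2 * L) ^ ((N - n) + (n + 1) + (n + 1)) * ρ₁ * D w o := by
          rw [pow_add, pow_add]; ring
      _ ≤ C₀ * (2 * L) ^ (2 * (N + 2)) * ρ₁ * D w o := by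
          gcongr
          omega
      _ ≤ 1 / 4 * D w o := by gcongr

end Pool.Agent.R241.RC
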