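import Pool.Agent.R241.RC8
import Pool.Agent.R241.RC9

/-!
# The main theorem for sequences of maps of the sphere
-/

set_option autoImplicit false

open Filter Topology Set Metric ComplexConjugate

namespace Pool.Agent.R241.RC

theorem run_up {h : ℕ → V → V} (hh : ∀ n, Cls (h n)) (n j : ℕ) (x : X) :
    (run (fun j => up (h j)) n j x).val = run h n j x.val := by
  induction j with
  | zero => rfl
  | succ j ih =>
    rw [run, up_val ((hh _).nz _ (run (fun j => up (h j)) n j x).ne), ih]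
    rfl

theorem X_ext {x y : X} (h : x.val = y.val) : x = y := by
  cases x; cases y; simp only at h; subst h; rfl

/-- The leader. -/
theorem exists_leader {L C₀ ε : ℝ} (hL : 1 ≤ L) (hC₀ : 0 ≤ C₀) (hε : 0 < ε) (hε6 : ε ≤ 1 / 6) :
    ∃ (b : ℕ) (ρ₁ : ℝ), 0 < b ∧ 0 < ρ₁ ∧ ∀ (F : ℕ → V → V) (c : ℕ → V), Elem F c L C₀ →
      ∃ (A : ℕ → V →L[ℂ] V) (t : ℕ → V), (∀ j, Near ε (A j)) ∧
        Lead (fun n => run (pm A F) (n * b) b) t ((2 * L) ^ b) ρ₁ := by
  obtain ⟨b, ρ₁, hb, hρ₁, hmain⟩ := block_lead hL hC₀ hε hε6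
  refine ⟨b, ρ₁, hb, hρ₁, ?_⟩
  intro F c hEl
  have h1 : ∀ (n : ℕ) (x : {x : V // ‖x‖ = 1}), ∃ A : ℕ → V →L[ℂ] V, (∀ j, Near ε (A j)) ∧
        ∀ w o : V, w ≠ 0 → o ≠ 0 → D w x.1 ≤ ρ₁ → D o x.1 ≤ ρ₁ →
          D (run (pm A F) (n * b) b w) (run (pm A F) (n * b) b o) ≤ 1 / 4 * D w o :=
    fun n x => hmain F c hEl (n * b) x.1 (unit_ne x.2)
  choose As hAs hcon using h1
  have h2 : ∀ (n : ℕ) (x : {x : V // ‖x‖ = 1}), ∃ y : {x : V // ‖x‖ = 1},
      D (run (pm (As n x) F) (n * b) b x.1) y.1 = 0 := by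
    intro n x
    have h3 : run (pm (As n x) F) (n * b) b x.1 ≠ 0 :=
      (run_cls (pm_cls hEl.cls (hAs n x) (by linarith)) _ _).nz _ (unit_ne x.2)
    obtain ⟨s, hs, hu⟩ := exists_unit h3
    exact ⟨⟨_, hu⟩, by rw [D_smul_right hs, D_self]⟩
  choose nx hnx using h2
  have hunit : ∃ x : V, ‖x‖ = 1 := by
    obtain ⟨s, -, hu⟩ := exists_unit (default : X).ne
    exact ⟨_, hu⟩
  obtain ⟨x₀, hx₀⟩ := hunit
  let t : ℕ → {x : V // ‖x‖ = 1} := fun n => Nat.rec ⟨x₀, hx₀⟩ (fun n x => nx n x) n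
  have ht : ∀ n, t (n + 1) = nx n (t n) := fun n => rfl
  clear_value t
  set A : ℕ → V →L[ℂ] V := fun j => As (j / b) (t (j / b)) j with hA
  have hAn : ∀ j, Near ε (A j) := fun j => hAs _ _ _
  have hrun : ∀ n x, run (pm A F) (n * b) b x = run (pm (As n (t n)) F) (n * b) b x := by
    intro n x
    refine run_congr (fun k h3 h4 => ?_) x
    have h5 : k / b = n := by
      rw [Nat.div_eq_iff hb]
      constructor
      · exact h3
      · have : n * b + b = n * b + (b - 1) + 1 := by omega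
        omega
    funext p
    unfold pm
    rw [hA]
    simp only
    rw [h5]
  refine ⟨A, fun n => (t n).1, hAn, ?_, ?_, ?_, ?_, ?_⟩
  · intro n
    exact run_cls (pm_cls hEl.cls hAn (by linarith)) _ _
  · intro n; exact (t n).2
  · intro n p q hp hq
    exact run_D_lip (pm_cls hEl.cls hAn (by linarith)) (by linarith : (0 : ℝ) ≤ 2 * L)
      (fun j p q hp hq => pm_lip hEl.cls hAn hε.le hε6 hEl.lip j hp hq) _ _ hp hq
  · intro n
    rw [hrun, ht]
    exact hnx n (t n)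
  · intro n p q hp hq h3 h4
    rw [hrun, hrun]
    exact hcon n (t n) p q hp hq h3 h4

/-- The main theorem. -/
theorem main {L C₀ ε : ℝ} (hL : 1 ≤ L) (hC₀ : 0 ≤ C₀) (hε : 0 < ε) (hε6 : ε ≤ 1 / 6) {b₀ : ℕ}
    (hb₀ : 1 ≤ b₀) :
    ∃ δ C θ : ℝ, 0 < δ ∧ 0 < C ∧ 0 < θ ∧ θ < 1 ∧
      ∀ (F : ℕ → V → V) (c : ℕ → V) (Cr : ℕ → List X), Elem F c L C₀ →
        (∀ n, (Cr n).length ≤ b₀) →
        ∃ A : ℕ → V →L[ℂ] V, (∀ n, Near ε (A n)) ∧
          ∀ (n : ℕ) (y : X), y ∈ Cr n → ∀ m : ℕ,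
          Stab (fun j => up (pm A F j)) δ C θ (n + m) (run (fun j => up (pm A F j)) n m y) := by
  obtain ⟨b, ρ₁, hb, hρ₁, hlead⟩ := exists_leader hL hC₀ (ε := ε / 4) (by positivity)
    (by linarith)
  have h2L : (1 : ℝ) ≤ 2 * L := by linarith
  obtain ⟨δ, C, θ, hδ, hC, hθ0, hθ1, hk⟩ := kicks (L := (2 * L) ^ b) (one_le_pow₀ h2L) hρ₁
    (e₀ := ε / 4) (by positivity) (b₀ := b * b₀) (Nat.mul_pos hb hb₀)
  obtain ⟨θ', hθ'0, hθ'1, hθ'⟩ := exists_root hθ0 hθ1 hb
  refine ⟨δ / (2 * L) ^ b, (2 * L) ^ b * (C + δ) / θ ^ 2, θ', by positivity, by positivity,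
    hθ'0, hθ'1, ?_⟩
  intro F c Cr hEl hCr
  obtain ⟨A₀, t, hA₀, hl⟩ := hlead F c hEl
  have hcls₀ : ∀ n, Cls (pm A₀ F n) := pm_cls hEl.cls hA₀ (by linarith)
  -- the births
  set E₁ : ℕ → List X := fun n => (List.range b).flatMap fun i => (Cr (n * b + i)).map fun y =>
    run (fun j => up (pm A₀ F j)) (n * b + i) (b - i) y with hE₁
  have hE₁l : ∀ n, (E₁ n).length ≤ b * b₀ := by
    intro n
    rw [hE₁]
    simp only
    rw [List.length_flatMap]
    refine (List.sum_le_card_nsmul _ b₀ ?_).trans ?_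
    · intro x hx
      obtain ⟨r, -, rfl⟩ := List.mem_map.1 hx
      rw [List.length_map]
      exact hCr _
    · rw [List.length_map, List.length_range, smul_eq_mul]
  obtain ⟨a, ha, ha6, hst⟩ := hk _ t E₁ hl hE₁l
  set g : ℕ → V → V := fun n => run (pm A₀ F) (n * b) b with hg
  let A : ℕ → V →L[ℂ] V := fun j => if (j + 1) % b = 0 then
    (K (t ((j + 1) / b)) (a ((j + 1) / b - 1))).comp (A₀ j) else A₀ j
  have hA1 : ∀ j, (j + 1) % b = 0 →
      A j = (K (t ((j + 1) / b)) (a ((j + 1) / b - 1))).comp (A₀ j) := fun j hj => if_pos hj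
  have hA2 : ∀ j, (j + 1) % b ≠ 0 → A j = A₀ j := fun j hj => if_neg hj
  clear_value A
  have hAn : ∀ j, Near ε (A j) := by
    intro j
    by_cases hj : (j + 1) % b = 0
    · rw [hA1 j hj]
      have h1 := (near_K (hl.unit ((j + 1) / b)) (a ((j + 1) / b - 1))).comp (hA₀ j)
        (norm_nonneg _) (by linarith [ha6 ((j + 1) / b - 1)])
      refine h1.mono ?_
      have := ha ((j + 1) / b - 1)
      linarith
    · rw [hA2 j hj]
      exact (hA₀ j).mono (by linarith)
  have hcls : ∀ n, Cls (pm A F n) := pm_cls hEl.cls hAn (by linarith)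
  -- the super steps
  have hsup : ∀ n i, i < b → ∀ x : X, run (fun j => up (pm A F j)) (n * b + i) (b - i) x =
      up (K (t (n + 1)) (a n)) (run (fun j => up (pm A₀ F j)) (n * b + i) (b - i) x) := by
    intro n i hi x
    refine X_ext ?_
    rw [up_val ((near_K (hl.unit _) _).ne (by linarith [ha6 n]) (run _ _ _ x).ne), run_up hcls,
      run_up hcls₀]
    obtain ⟨r, hr⟩ : ∃ r, b - i = r + 1 := ⟨b - i - 1, by omega⟩
    rw [hr, run, run]
    have h1 : run (pm A F) (n * b + i) r x.val = run (pm A₀ F) (n * b + i) r x.val := by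
      refine run_congr (fun k h3 h4 => ?_) _
      obtain ⟨s, rfl⟩ := Nat.exists_eq_add_of_le h3
      funext p
      unfold pm
      rw [hA2]
      intro h5
      have h6 : n * b + i + s + 1 = n * b + (i + s + 1) := by ring
      rw [h6, Nat.mul_add_mod_self_right, Nat.mod_eq_of_lt (by omega)] at h5
      omega
    rw [h1]
    have h7 : n * b + i + r + 1 = (n + 1) * b := by rw [Nat.succ_mul]; omega
    have h8 : (n * b + i + r + 1) % b = 0 := by rw [h7]; exact Nat.mul_mod_left _ _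
    have h9 : (n * b + i + r + 1) / b = n + 1 := by rw [h7]; exact Nat.mul_div_cancel _ hb
    unfold pm
    rw [hA1 _ h8, h9, Nat.add_sub_cancel]
    rfl
  have hH : (fun k => run (fun j => up (pm A F j)) (k * b) b) = hX g t a := by
    funext n x
    have h1 := hsup n 0 hb x
    rw [Nat.add_zero, Nat.sub_zero] at h1
    rw [h1]
    refine X_ext ?_
    rw [hX_val hl ha6, up_val ((near_K (hl.unit _) _).ne (by linarith [ha6 n]) (run _ _ _ x).ne),
      run_up hcls₀]
    rfl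
  refine ⟨A, hAn, ?_⟩
  intro n y hy m
  set k := n / b with hkdef
  set i := n % b with hidef
  have hni : k * b + i = n := by rw [Nat.mul_comm]; exact Nat.div_add_mod n b
  have hib : i < b := Nat.mod_lt n hb
  set h : ℕ → X → X := fun j => up (pm A F j) with hh
  set z₀ : X := run (fun j => up (pm A₀ F j)) n (b - i) y with hz₀
  have hz₀E : z₀ ∈ E₁ k := by
    rw [hE₁]
    simp only
    rw [List.mem_flatMap]
    refine ⟨i, List.mem_range.2 hib, List.mem_map.2 ⟨y, by rw [hni]; exact hy, ?_⟩⟩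
    rw [hni]
  have hz : run h n (b - i) y = up (K (t (k + 1)) (a k)) z₀ := by
    have h1 := hsup k i hib y
    rw [hni] at h1
    exact h1
  set p := (n + m) / b + 1 with hp
  have hp1 : n + m < p * b := by
    have h1 := Nat.div_add_mod (n + m) b
    have h2 := Nat.mod_lt (n + m) hb
    rw [hp, Nat.succ_mul, Nat.mul_comm]
    omega
  have hp2 : p * b ≤ n + m + b := by
    have h1 := Nat.div_add_mod (n + m) b
    rw [hp, Nat.succ_mul, Nat.mul_comm]
    omega
  have hpk : k + 1 ≤ p := by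
    by_contra hcon'
    push Not at hcon'
    have h1 : p * b ≤ k * b := Nat.mul_le_mul_right _ (by omega)
    omega
  obtain ⟨u, hu⟩ := Nat.exists_eq_add_of_le hpk
  have hk1 : (k + 1) * b = n + (b - i) := by rw [Nat.succ_mul]; omega
  refine stab_block (L := 2 * L) (b := b) (by linarith) (fun n w o => ?_)
    hb hδ hC hθ'0 hθ'1.le hθ' (k := p) hp1.le hp2 ?_
  · rw [dist_eq, dist_eq, up_val ((hcls n).nz _ w.ne), up_val ((hcls n).nz _ o.ne)]
    exact pm_lip hEl.cls hAn hε.le hε6 hEl.lip n w.ne o.ne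
  · have hx : run h (n + m) (p * b - (n + m)) (run h n m y) =
        run (hX g t a) (k + 1) u (up (K (t (k + 1)) (a k)) z₀) := by
      rw [← hH, run_block, ← hz, hk1, ← run_add, ← run_add]
      congr 1
      rw [hu, Nat.add_mul, hk1]
      rw [hu, Nat.add_mul, hk1] at hp1
      omega
    rw [hx, hH, hu]
    exact hst k z₀ hz₀E u

end Pool.Agent.R241.RC
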