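import Pool.Agent.R241.RC2

/-!
# Lifts of rational maps: uniform estimates
-/

set_option autoImplicit false

open Filter Topology Set Metric ComplexConjugate

namespace Pool.Agent.R241.RC

/-- The coefficients of a pair of polynomials of degree at most `d`. -/
abbrev Coef (d : ℕ) := (Fin (d + 1) → ℂ) × (Fin (d + 1) → ℂ)

variable {d : ℕ}

theorem unit_ne' {t : V} (h : ‖t‖ = 1) : t ≠ 0 := by
  intro h0; rw [h0, norm_zero] at h; exact zero_ne_one h

/-- The homogeneous polynomial of degree `d` with given coefficients. -/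
noncomputable def hm (a : Fin (d + 1) → ℂ) (p : V) : ℂ :=
  ∑ k : Fin (d + 1), a k * p 0 ^ (k : ℕ) * p 1 ^ (d - k)

/-- Its derivative. -/
noncomputable def hmd (a : Fin (d + 1) → ℂ) (p e : V) : ℂ :=
  ∑ k : Fin (d + 1), (a k * (((k : ℕ) : ℂ) * p 0 ^ ((k : ℕ) - 1) * e 0) * p 1 ^ (d - k) +
    a k * p 0 ^ (k : ℕ) * (((d - k : ℕ) : ℂ) * p 1 ^ (d - k - 1) * e 1))

/-- The lift of the rational map with given coefficients. -/
noncomputable def lift (w : Coef d) (p : V) : V := !₂[hm w.1 p, hm w.2 p]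

/-- The derivative of the lift. -/
noncomputable def liftd (w : Coef d) (p e : V) : V := !₂[hmd w.1 p e, hmd w.2 p e]

theorem lift_zero (w : Coef d) (p : V) : lift w p 0 = hm w.1 p := by simp [lift]

theorem lift_one (w : Coef d) (p : V) : lift w p 1 = hm w.2 p := by simp [lift]

theorem liftd_zero (w : Coef d) (p e : V) : liftd w p e 0 = hmd w.1 p e := by simp [liftd]

theorem liftd_one (w : Coef d) (p e : V) : liftd w p e 1 = hmd w.2 p e := by simp [liftd]

theorem hm_smul (a : Fin (d + 1) → ℂ) (c : ℂ) (p : V) : hm a (c • p) = c ^ d * hm a p := by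
  unfold hm
  rw [Finset.mul_sum]
  refine Finset.sum_congr rfl fun k _ => ?_
  have h : c ^ d = c ^ (k : ℕ) * c ^ (d - k) := by
    rw [← pow_add]; congr 1; omega
  rw [h, PiLp.smul_apply, PiLp.smul_apply, smul_eq_mul, smul_eq_mul, mul_pow, mul_pow]
  ring

theorem lift_smul (w : Coef d) (c : ℂ) (p : V) : lift w (c • p) = c ^ d • lift w p := by
  ext i
  fin_cases i
  · simp only [Fin.zero_eta, PiLp.smul_apply, smul_eq_mul, lift_zero, hm_smul]
  · simp only [Fin.mk_one, PiLp.smul_apply, smul_eq_mul, lift_one, hm_smul]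

section

variable {E : Type} [NormedAddCommGroup E] [NormedSpace ℂ E]

theorem hm_contDiff {a : E → Fin (d + 1) → ℂ} {p : E → V} (ha : ContDiff ℂ 1 a)
    (hp : ContDiff ℂ 1 p) : ContDiff ℂ 1 (fun u => hm (a u) (p u)) := by
  unfold hm
  have h0 := contDiff_euclidean.1 hp 0
  have h1 := contDiff_euclidean.1 hp 1
  refine ContDiff.sum fun k _ => ?_
  exact ((contDiff_pi.1 ha k).mul (h0.pow _)).mul (h1.pow _)

theorem hmd_contDiff {a : E → Fin (d + 1) → ℂ} {p e : E → V} (ha : ContDiff ℂ 1 a)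
    (hp : ContDiff ℂ 1 p) (he : ContDiff ℂ 1 e) : ContDiff ℂ 1 (fun u => hmd (a u) (p u) (e u)) := by
  unfold hmd
  have h0 := contDiff_euclidean.1 hp 0
  have h1 := contDiff_euclidean.1 hp 1
  have e0 := contDiff_euclidean.1 he 0
  have e1 := contDiff_euclidean.1 he 1
  refine ContDiff.sum fun k _ => ?_
  have hk := contDiff_pi.1 ha k
  exact ((hk.mul ((contDiff_const.mul (h0.pow _)).mul e0)).mul (h1.pow _)).add
    ((hk.mul (h0.pow _)).mul ((contDiff_const.mul (h1.pow _)).mul e1))

theorem exists_lip {F : Type} [NormedAddCommGroup F] [NormedSpace ℂ F] [ProperSpace E]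
    {G : E → F} (hG : ContDiff ℂ 1 G) (ρ : ℝ) :
    ∃ K : ℝ, 0 ≤ K ∧ ∀ u v : E, ‖u‖ ≤ ρ → ‖v‖ ≤ ρ → ‖G u - G v‖ ≤ K * ‖u - v‖ := by
  obtain ⟨K, hK⟩ := (isCompact_closedBall (0 : E) ρ).exists_bound_of_continuousOn
    (hG.continuous_fderiv one_ne_zero).continuousOn
  refine ⟨max K 0, le_max_right _ _, fun u v hu hv => ?_⟩
  refine (convex_closedBall (0 : E) ρ).norm_image_sub_le_of_norm_fderiv_le (𝕜 := ℂ)
    (fun x _ => (hG.differentiable one_ne_zero) x)
    (fun x hx => (hK x hx).trans (le_max_left _ _)) ?_ ?_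
  · rwa [mem_closedBall_zero_iff]
  · rwa [mem_closedBall_zero_iff]

end

theorem hm_deriv (a : Fin (d + 1) → ℂ) (c e : V) (s : ℂ) :
    HasDerivAt (fun s : ℂ => hm a (c + s • e)) (hmd a (c + s • e) e) s := by
  unfold hm hmd
  refine HasDerivAt.fun_sum fun k _ => ?_
  have h0 : ∀ i, HasDerivAt (fun s : ℂ => (c + s • e) i) (e i) s := by
    intro i
    have : (fun s : ℂ => (c + s • e) i) = fun s => c i + s * e i := by
      funext s; simp
    rw [this]
    simpa using ((hasDerivAt_id s).mul_const (e i)).const_add (c i)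
  have h1 := (((h0 0).pow (k : ℕ)).const_mul (a k)).mul ((h0 1).pow (d - k))
  exact h1

theorem lift_contDiff {E : Type} [NormedAddCommGroup E] [NormedSpace ℂ E] {w : E → Coef d}
    {p : E → V} (hw : ContDiff ℂ 1 w) (hp : ContDiff ℂ 1 p) :
    ContDiff ℂ 1 (fun u => lift (w u) (p u)) := by
  rw [contDiff_euclidean]
  intro i
  fin_cases i
  · simp only [Fin.zero_eta, lift_zero]
    exact hm_contDiff hw.fst hp
  · simp only [Fin.mk_one, lift_one]
    exact hm_contDiff hw.snd hp

/-- Uniformly nondegenerate rational maps. -/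
def Good (R r : ℝ) (w : Coef d) : Prop := ‖w‖ ≤ R ∧ ∀ p : V, ‖p‖ = 1 → r ≤ ‖lift w p‖

theorem Good.lower {R r : ℝ} {w : Coef d} (h : Good R r w) (p : V) :
    r * ‖p‖ ^ d ≤ ‖lift w p‖ ∨ p = 0 := by
  by_cases hp : p = 0
  · exact Or.inr hp
  · left
    have hpn := norm_pos_iff.2 hp
    have h1 := h.2 (((‖p‖⁻¹ : ℝ) : ℂ) • p) (by
      rw [norm_smul, Complex.norm_real, Real.norm_eq_abs, abs_of_pos (inv_pos.2 hpn),
        inv_mul_cancel₀ hpn.ne'])
    rw [lift_smul, norm_smul, norm_pow, Complex.norm_real, Real.norm_eq_abs,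
      abs_of_pos (inv_pos.2 hpn), inv_pow, inv_mul_eq_div, le_div_iff₀ (by positivity)] at h1
    exact h1

theorem Good.cls {R r : ℝ} (hr : 0 < r) {w : Coef d} (h : Good R r w) : Cls (lift w) := by
  refine ⟨?_, ?_, d, fun c p => lift_smul w c p⟩
  · exact (lift_contDiff (w := fun _ : V => w) contDiff_const contDiff_id).differentiable
      one_ne_zero
  · intro p hp h0
    rcases h.lower p with h1 | h1
    · rw [h0, norm_zero] at h1
      have hpn := norm_pos_iff.2 hp
      have : 0 < r * ‖p‖ ^ d := by positivity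
      linarith
    · exact hp h1

/-- The uniform Lipschitz constant. -/
theorem exists_L (d : ℕ) {R r : ℝ} (hr : 0 < r) :
    ∃ L : ℝ, 1 ≤ L ∧ ∀ w : Coef d, Good R r w → ∀ p q : V, p ≠ 0 → q ≠ 0 →
      D (lift w p) (lift w q) ≤ L * D p q := by
  have hG : ContDiff ℂ 1 (fun u : Coef d × V => lift u.1 u.2) :=
    lift_contDiff contDiff_fst contDiff_snd
  obtain ⟨K, hK0, hK⟩ := exists_lip hG (max R 1)
  refine ⟨max (K / r) 1, le_max_right _ _, ?_⟩
  intro w hw
  -- unit vectors
  have hunit : ∀ p q : V, ‖p‖ = 1 → ‖q‖ = 1 → D (lift w p) (lift w q) ≤ K / r * D p q := by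
    intro p q hp hq
    have h1 : cr (lift w p) (lift w q) =
        cr (lift w p) (lift w q - lift w (ip q p • p)) := by
      rw [lift_smul, cr_sub_right, cr_smul_right, cr_self]; ring
    have h2 : ‖ip q p • p‖ ≤ 1 := by
      have := norm_ip_le q p
      rw [hp, hq, one_mul] at this
      rw [norm_smul, hp, mul_one]; exact this
    have h3 : q - ip q p • p = cr p q • perp p := by
      have := decomp1 hp q
      nth_rewrite 1 [this]
      abel
    have h4 : ‖lift w q - lift w (ip q p • p)‖ ≤ K * D p q := by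
      have h5 := hK (w, q) (w, ip q p • p) (by
        rw [Prod.norm_mk]; exact max_le_max hw.1 hq.le) (by
        rw [Prod.norm_mk]; exact max_le_max hw.1 h2)
      simp only [Prod.mk_sub_mk, sub_self, Prod.norm_mk, norm_zero] at h5
      rw [h3, norm_smul, norm_perp, hp, mul_one, max_eq_right (norm_nonneg _)] at h5
      refine h5.trans (le_of_eq ?_)
      unfold D
      rw [hp, hq, one_mul, div_one]
    have h5 := hw.2 p hp
    have h6 := hw.2 q hq
    have h7 : 0 < ‖lift w p‖ := by linarith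
    have h8 : 0 < ‖lift w q‖ := by linarith
    have hDn := D_nonneg p q
    have h9 : ‖cr (lift w p) (lift w q)‖ ≤ ‖lift w p‖ * (K * D p q) := by
      rw [h1]
      refine (norm_cr_le _ _).trans ?_
      gcongr
    have h10 : D (lift w p) (lift w q) ≤ (K * D p q) / ‖lift w q‖ := by
      unfold D
      rw [div_le_div_iff₀ (by positivity) h8]
      calc ‖cr (lift w p) (lift w q)‖ * ‖lift w q‖ ≤
          (‖lift w p‖ * (K * D p q)) * ‖lift w q‖ := by gcongr
        _ = _ := by unfold D; ring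
    refine h10.trans ?_
    rw [div_le_iff₀ h8]
    calc K * D p q = K / r * D p q * r := by field_simp
      _ ≤ K / r * D p q * ‖lift w q‖ := by gcongr
  intro p q hp hq
  obtain ⟨c, hc, hu⟩ := exists_unit hp
  obtain ⟨c', hc', hu'⟩ := exists_unit hq
  have h1 := hunit _ _ hu hu'
  rw [lift_smul, lift_smul, D_smul_left (pow_ne_zero _ hc), D_smul_right (pow_ne_zero _ hc'),
    D_smul_left hc, D_smul_right hc'] at h1
  refine h1.trans ?_
  have := D_nonneg p q
  have := le_max_left (K / r) 1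
  gcongr

/-- The uniform estimate near a critical point. -/
theorem exists_C₀ (d : ℕ) {R r : ℝ} (hr : 0 < r) :
    ∃ C₀ : ℝ, 0 ≤ C₀ ∧ ∀ w : Coef d, Good R r w → ∀ c : V, ‖c‖ = 1 →
      cr (lift w c) (liftd w c (perp c)) = 0 → ∀ p q : V, p ≠ 0 → q ≠ 0 →
      D (lift w p) (lift w q) ≤ C₀ * max (D p c) (D q c) * D p q := by
  obtain ⟨L, hL, hlip⟩ := exists_L d (R := R) hr
  have hG : ContDiff ℂ 1 (fun u : (Coef d × V × V) × (ℂ × ℂ) =>
      cr (lift u.1.1 (u.1.2.1 + u.2.1 • u.1.2.2))
        (liftd u.1.1 (u.1.2.1 + u.2.2 • u.1.2.2) u.1.2.2)) := by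
    simp only [cr, lift_zero, lift_one, liftd_zero, liftd_one]
    have f1 : ContDiff ℂ 1 (fun u : (Coef d × V × V) × (ℂ × ℂ) => u.1.1.1) := by fun_prop
    have f2 : ContDiff ℂ 1 (fun u : (Coef d × V × V) × (ℂ × ℂ) => u.1.1.2) := by fun_prop
    have f3 : ContDiff ℂ 1 (fun u : (Coef d × V × V) × (ℂ × ℂ) =>
      u.1.2.1 + u.2.1 • u.1.2.2) := by fun_prop
    have f4 : ContDiff ℂ 1 (fun u : (Coef d × V × V) × (ℂ × ℂ) =>
      u.1.2.1 + u.2.2 • u.1.2.2) := by fun_prop
    have f5 : ContDiff ℂ 1 (fun u : (Coef d × V × V) × (ℂ × ℂ) => u.1.2.2) := by fun_prop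
    exact ((hm_contDiff f1 f3).mul (hmd_contDiff f2 f4 f5)).sub
      ((hm_contDiff f2 f3).mul (hmd_contDiff f1 f4 f5))
  obtain ⟨K, hK0, hK⟩ := exists_lip hG (max R 1)
  refine ⟨4 * K / r ^ 2 + 2 * L, by positivity, ?_⟩
  intro w hw c hc hcrit p q hp hq
  have hD := D_nonneg p q
  have hDp := D_nonneg p c
  have hDq := D_nonneg q c
  by_cases hfar : 1 / 2 < max (D p c) (D q c)
  · refine (hlip w hw p q hp hq).trans ?_
    have h1 : L ≤ (4 * K / r ^ 2 + 2 * L) * max (D p c) (D q c) := by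
      have h2 : 0 ≤ 4 * K / r ^ 2 := by positivity
      nlinarith
    gcongr
  · push Not at hfar
    set e : V := perp c with he
    have hen : ‖e‖ = 1 := by rw [he, norm_perp, hc]
    -- the coordinate centered at `c`
    have hco : ∀ p : V, p ≠ 0 → D p c ≤ 1 / 2 → ∃ (s x : ℂ), s ≠ 0 ∧ s • p = c + x • e ∧
        ‖x‖ ≤ 2 * D p c ∧ ‖x‖ ≤ 1 := by
      intro p hp hpc
      have hpn := norm_pos_iff.2 hp
      have h1 := lagrange p c
      have h2 := D_mul hp (unit_ne' hc)
      rw [hc, mul_one] at h2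
      rw [h2, hc] at h1
      have h3 : ‖ip p c‖ ^ 2 = (1 - D p c ^ 2) * ‖p‖ ^ 2 := by linarith
      have h4 : (1 / 2 * ‖p‖) ^ 2 ≤ ‖ip p c‖ ^ 2 := by
        rw [h3]
        have : D p c ^ 2 ≤ 1 / 4 := by
          have := D_nonneg p c
          nlinarith
        nlinarith [sq_nonneg ‖p‖]
      have h5 : 1 / 2 * ‖p‖ ≤ ‖ip p c‖ := by
        refine abs_le_of_sq_le_sq' h4 (norm_nonneg _) |>.2
      have h6 : ip p c ≠ 0 := by
        intro h0; rw [h0, norm_zero] at h5; linarith
      have h7 : ‖cr c p / ip p c‖ ≤ 2 * D p c := by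
        rw [norm_div, norm_cr_swap, h2, div_le_iff₀ (norm_pos_iff.2 h6)]
        have := D_nonneg p c
        nlinarith
      refine ⟨(ip p c)⁻¹, cr c p / ip p c, inv_ne_zero h6, ?_, h7, by linarith⟩
      have h8 := decomp1 hc p
      nth_rewrite 2 [h8]
      rw [smul_add, smul_smul, smul_smul, inv_mul_cancel₀ h6, one_smul, he]
      congr 2
      rw [div_eq_inv_mul]
    obtain ⟨s, x, hs, hsx, hx1, hx2⟩ := hco p hp ((le_max_left _ _).trans hfar)
    obtain ⟨s', y, hs', hsy, hy1, hy2⟩ := hco q hq ((le_max_right _ _).trans hfar)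
    set m : ℝ := max (D p c) (D q c) with hm
    have hxm : ‖x‖ ≤ 2 * m := hx1.trans (by have := le_max_left (D p c) (D q c); linarith)
    have hym : ‖y‖ ≤ 2 * m := hy1.trans (by have := le_max_right (D p c) (D q c); linarith)
    -- the function
    set H : ℂ → ℂ := fun y => cr (lift w (c + x • e)) (lift w (c + y • e)) with hH
    have hHd : ∀ y, HasDerivAt H (cr (lift w (c + x • e)) (liftd w (c + y • e) e)) y := by
      intro y
      rw [hH]
      simp only [cr, lift_zero, lift_one, liftd_zero, liftd_one]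
      exact ((hm_deriv w.2 c e y).const_mul _).sub ((hm_deriv w.1 c e y).const_mul _)
    have hbound : ∀ z ∈ closedBall (0 : ℂ) (min (2 * m) 1), ‖deriv H z‖ ≤ K * (2 * m) := by
      intro z hz
      rw [mem_closedBall_zero_iff] at hz
      rw [(hHd z).deriv]
      have hz1 : ‖z‖ ≤ 1 := hz.trans (min_le_right _ _)
      have hz2 : ‖z‖ ≤ 2 * m := hz.trans (min_le_left _ _)
      have hin : ∀ x z : ℂ, ‖x‖ ≤ 1 → ‖z‖ ≤ 1 → ‖((w, c, e), (x, z))‖ ≤ max R 1 := by
        intro x z hx hz
        rw [Prod.norm_mk, Prod.norm_mk, Prod.norm_mk, Prod.norm_mk, hc, hen]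
        refine max_le (max_le (hw.1.trans (le_max_left _ _)) ?_) ?_
        · rw [max_self]; exact le_max_right _ _
        · exact (max_le hx hz).trans (le_max_right _ _)
      have h5 := hK ((w, c, e), (x, z)) ((w, c, e), (0, 0)) (hin x z hx2 hz1)
        (hin 0 0 (by simp) (by simp))
      simp only [zero_smul, add_zero, Prod.mk_sub_mk, sub_self, sub_zero, Prod.norm_mk,
        norm_zero] at h5
      rw [he, hcrit, sub_zero, ← he] at h5
      refine h5.trans ?_
      gcongr
      refine max_le ?_ (max_le hxm hz2)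
      have : 0 ≤ m := hDp.trans (le_max_left _ _)
      linarith
    have hxin : x ∈ closedBall (0 : ℂ) (min (2 * m) 1) := by
      rw [mem_closedBall_zero_iff]; exact le_min hxm hx2
    have hyin : y ∈ closedBall (0 : ℂ) (min (2 * m) 1) := by
      rw [mem_closedBall_zero_iff]; exact le_min hym hy2
    have h1 := (convex_closedBall (0 : ℂ) (min (2 * m) 1)).norm_image_sub_le_of_norm_deriv_le
      (fun z _ => (hHd z).differentiableAt) hbound hxin hyin
    have h2 : H x = 0 := cr_self _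
    rw [h2, sub_zero] at h1
    -- norms
    have hnorm : ∀ x : ℂ, ‖x‖ ≤ 1 → 1 ≤ ‖c + x • e‖ ∧ ‖c + x • e‖ ^ 2 ≤ 2 := by
      intro x hx
      have h3 := lagrange (c + x • e) c
      have h4 : ip (c + x • e) c = 1 := by
        rw [ip_add_left, ip_smul_left, he, ip_perp, ip_self, hc]; simp
      have h5 : cr (c + x • e) c = -x := by
        rw [cr_swap, cr_add_right, cr_smul_right, cr_self, he, cr_perp, hc]; simp
      rw [h4, h5, hc, norm_neg, norm_one] at h3
      have h6 : ‖c + x • e‖ ^ 2 = 1 + ‖x‖ ^ 2 := by linarith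
      constructor
      · nlinarith [norm_nonneg (c + x • e), sq_nonneg ‖x‖]
      · rw [h6]; nlinarith [norm_nonneg x]
    obtain ⟨n1, n2⟩ := hnorm x hx2
    obtain ⟨n3, n4⟩ := hnorm y hy2
    have hlow : ∀ v : V, 1 ≤ ‖v‖ → r ≤ ‖lift w v‖ := by
      intro v hv
      rcases hw.lower v with h3 | h3
      · have : 1 ≤ ‖v‖ ^ d := one_le_pow₀ hv
        nlinarith
      · rw [h3, norm_zero] at hv; linarith
    have l1 := hlow _ n1
    have l2 := hlow _ n3
    have hxy : ‖y - x‖ ≤ 2 * D p q := by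
      have h3 : cr (c + x • e) (c + y • e) = y - x := by
        rw [cr_add_left, cr_add_right, cr_add_right, cr_smul_right, cr_smul_right, cr_smul_left,
          cr_smul_left, cr_self, cr_self, cr_swap e c, he, cr_perp, hc]
        simp; ring
      have h4 : D (c + x • e) (c + y • e) = D p q := by
        rw [← hsx, ← hsy, D_smul_left hs, D_smul_right hs']
      have h5 : ‖y - x‖ = D p q * (‖c + x • e‖ * ‖c + y • e‖) := by
        rw [← h4, ← h3]
        exact D_mul (norm_pos_iff.1 (by linarith)) (norm_pos_iff.1 (by linarith))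
      rw [h5]
      have h6 : ‖c + x • e‖ * ‖c + y • e‖ ≤ 2 := by
        nlinarith [sq_nonneg (‖c + x • e‖ - ‖c + y • e‖)]
      nlinarith
    have h4 : D (lift w p) (lift w q) = D (lift w (c + x • e)) (lift w (c + y • e)) := by
      rw [← hsx, ← hsy, lift_smul, lift_smul, D_smul_left (pow_ne_zero _ hs),
        D_smul_right (pow_ne_zero _ hs')]
    rw [h4]
    have hm0 : 0 ≤ m := hDp.trans (le_max_left _ _)
    have h5 : D (lift w (c + x • e)) (lift w (c + y • e)) ≤
        (K * (2 * m) * (2 * D p q)) / r ^ 2 := by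
      unfold D
      rw [div_le_div_iff₀ (by
        have : 0 < ‖lift w (c + x • e)‖ := by linarith
        have : 0 < ‖lift w (c + y • e)‖ := by linarith
        positivity) (by positivity)]
      have h6 : r ^ 2 ≤ ‖lift w (c + x • e)‖ * ‖lift w (c + y • e)‖ := by
        rw [sq]; gcongr
      have h7 : ‖cr (lift w (c + x • e)) (lift w (c + y • e))‖ ≤
          K * (2 * m) * (2 * D p q) := by
        refine h1.trans ?_
        gcongr
      unfold D at h7
      gcongr
    refine h5.trans ?_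
    have h6 : (K * (2 * m) * (2 * D p q)) / r ^ 2 = 4 * K / r ^ 2 * m * D p q := by ring
    rw [h6]
    have h7 : 0 ≤ 2 * L * m * D p q := by positivity
    nlinarith

end Pool.Agent.R241.RC
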