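import Pool.Agent.R241.RC10
import Pool.Agent.R241.RC11

/-!
# Critical points of rational maps
-/

set_option autoImplicit false

open Filter Topology Set Metric ComplexConjugate Polynomial

namespace Pool.Agent.R241.RC

variable {d : ℕ}

/-- The polynomial with given coefficients. -/
noncomputable def poly (a : Fin (d + 1) → ℂ) : ℂ[X] := ∑ k : Fin (d + 1), C (a k) * Polynomial.X ^ (k : ℕ)

/-- `P/Q` is a rational map of degree `d` in lowest terms. -/
def IsRational (w : Coef d) : Prop :=
  IsCoprime (poly w.1) (poly w.2) ∧ max (poly w.1).natDegree (poly w.2).natDegree = d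

/-- The Wronskian `P'Q - PQ'`. -/
noncomputable def wr (w : Coef d) : ℂ[X] :=
  derivative (poly w.1) * poly w.2 - poly w.1 * derivative (poly w.2)

/-- The point `(z, 1)`. -/
noncomputable def vz (z : ℂ) : V := !₂[z, 1]

theorem vz_zero (z : ℂ) : vz z 0 = z := by simp [vz]

theorem vz_one (z : ℂ) : vz z 1 = 1 := by simp [vz]

theorem vz_ne (z : ℂ) : vz z ≠ 0 := by
  intro h
  have h1 := vz_one z
  rw [h] at h1
  simp at h1

theorem eq_smul_vz {p : V} (hp : p 1 ≠ 0) : p = p 1 • vz (p 0 / p 1) := by
  ext i
  fin_cases i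
  · simp only [Fin.zero_eta, PiLp.smul_apply, smul_eq_mul, vz_zero]
    field_simp
  · simp only [Fin.mk_one, PiLp.smul_apply, smul_eq_mul, vz_one, mul_one]

theorem hm_vz (a : Fin (d + 1) → ℂ) (z : ℂ) : hm a (vz z) = (poly a).eval z := by
  unfold hm poly
  rw [eval_finsetSum]
  refine Finset.sum_congr rfl fun k _ => ?_
  rw [vz_zero, vz_one, one_pow, mul_one]
  simp

theorem coeff_last (a : Fin (d + 1) → ℂ) : (poly a).coeff d = a (Fin.last d) := by
  unfold poly
  rw [finsetSum_coeff, Finset.sum_eq_single (Fin.last d)]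
  · simp
  · intro k _ hk
    rw [coeff_C_mul, coeff_X_pow, if_neg, mul_zero]
    intro h
    exact hk (Fin.ext (by simpa using h.symm))
  · intro h; exact absurd (Finset.mem_univ _) h

theorem natDegree_poly_le (a : Fin (d + 1) → ℂ) : (poly a).natDegree ≤ d := by
  unfold poly
  refine natDegree_sum_le_of_forall_le _ _ fun k _ => ?_
  exact (natDegree_C_mul_X_pow_le _ _).trans (by omega)

theorem lift_ne (hd : 1 ≤ d) {w : Coef d} (hw : IsRational w) {p : V} (hp : p ≠ 0) :
    lift w p ≠ 0 := by
  intro h0
  have h1 : hm w.1 p = 0 := by rw [← lift_zero, h0]; simp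
  have h2 : hm w.2 p = 0 := by rw [← lift_one, h0]; simp
  by_cases hp1 : p 1 = 0
  · have hp0 : p 0 ≠ 0 := by
      intro h3
      apply hp
      ext i
      fin_cases i
      · simpa using h3
      · simpa using hp1
    have h3 : ∀ a : Fin (d + 1) → ℂ, hm a p = a (Fin.last d) * p 0 ^ d := by
      intro a
      unfold hm
      rw [Finset.sum_eq_single (Fin.last d)]
      · simp
      · intro k _ hk
        have : (k : ℕ) < d := by
          have h4 := k.2
          rcases Nat.lt_or_ge (k : ℕ) d with h5 | h5
          · exact h5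
          · exact absurd (Fin.ext (by simp; omega)) hk
        rw [hp1, zero_pow (by omega), mul_zero]
      · intro h; exact absurd (Finset.mem_univ _) h
    rw [h3] at h1 h2
    have h4 : p 0 ^ d ≠ 0 := pow_ne_zero _ hp0
    have h5 := (mul_eq_zero.1 h1).resolve_right h4
    have h6 := (mul_eq_zero.1 h2).resolve_right h4
    rw [← coeff_last w.1] at h5
    rw [← coeff_last w.2] at h6
    have h7 := hw.2
    rcases le_total (poly w.1).natDegree (poly w.2).natDegree with h8 | h8
    · rw [max_eq_right h8] at h7
      have h9 : (poly w.2).leadingCoeff = 0 := by rw [leadingCoeff, h7]; exact h6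
      rw [leadingCoeff_eq_zero] at h9
      rw [h9, natDegree_zero] at h7
      omega
    · rw [max_eq_left h8] at h7
      have h9 : (poly w.1).leadingCoeff = 0 := by rw [leadingCoeff, h7]; exact h5
      rw [leadingCoeff_eq_zero] at h9
      rw [h9, natDegree_zero] at h7
      omega
  · rw [eq_smul_vz hp1, hm_smul, hm_vz] at h1 h2
    have h4 : p 1 ^ d ≠ 0 := pow_ne_zero _ hp1
    have h5 := (mul_eq_zero.1 h1).resolve_left h4
    have h6 := (mul_eq_zero.1 h2).resolve_left h4
    obtain ⟨u, v, huv⟩ := hw.1
    have h7 := congrArg (eval (p 0 / p 1)) huv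
    rw [eval_add, eval_mul, eval_mul, h5, h6, eval_one] at h7
    simp at h7

theorem exists_good (hd : 1 ≤ d) {𝒦 : Set (Coef d)} (hK : IsCompact 𝒦)
    (hrat : ∀ w ∈ 𝒦, IsRational w) : ∃ R r : ℝ, 0 < r ∧ ∀ w ∈ 𝒦, Good R r w := by
  rcases 𝒦.eq_empty_or_nonempty with h | h
  · exact ⟨0, 1, one_pos, fun w hw => by rw [h] at hw; exact absurd hw (Set.notMem_empty w)⟩
  · obtain ⟨R, hR⟩ := hK.isBounded.exists_norm_le
    have hc : Continuous (fun u : Coef d × V => ‖lift u.1 u.2‖) :=
      (lift_contDiff contDiff_fst contDiff_snd).continuous.norm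
    have hne : (𝒦 ×ˢ sphere (0 : V) 1).Nonempty := by
      obtain ⟨s, -, hu⟩ := exists_unit (default : X).ne
      obtain ⟨w, hw⟩ := h
      exact ⟨(w, s • (default : X).val), hw, by rw [mem_sphere_zero_iff_norm]; exact hu⟩
    obtain ⟨u, hu, hmin⟩ := (hK.prod (isCompact_sphere (0 : V) 1)).exists_isMinOn hne
      hc.continuousOn
    refine ⟨R, ‖lift u.1 u.2‖, ?_, fun w hw => ⟨hR w hw, fun p hp => ?_⟩⟩
    · refine norm_pos_iff.2 (lift_ne hd (hrat _ hu.1) ?_)
      intro h0
      have := hu.2
      rw [mem_sphere_zero_iff_norm, h0, norm_zero] at this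
      exact zero_ne_one this
    · have h3 := isMinOn_iff.1 hmin (w, p) (Set.mem_prod.2
        ⟨hw, by rw [mem_sphere_zero_iff_norm]; exact hp⟩)
      exact h3

theorem natDegree_le_one {P Q : ℂ[X]} (h : IsCoprime P Q)
    (hc : (derivative P * Q - P * derivative Q).natDegree = 0) : P.natDegree ≤ 1 := by
  have h1 : derivative (derivative P * Q - P * derivative Q) = 0 :=
    derivative_of_natDegree_zero hc
  have h2 : derivative (derivative P) * Q = P * derivative (derivative Q) := by
    rw [derivative_sub, derivative_mul, derivative_mul] at h1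
    linear_combination h1
  have h3 : P ∣ derivative (derivative P) := by
    refine h.dvd_of_dvd_mul_right ?_
    rw [h2]; exact dvd_mul_right _ _
  by_contra hcon
  push Not at hcon
  have h4 : (derivative P).natDegree = P.natDegree - 1 := by
    have := degree_derivative (p := P) (by omega)
    exact natDegree_eq_of_degree_eq_some this
  have h5 : (derivative (derivative P)).natDegree = (derivative P).natDegree - 1 := by
    have := degree_derivative (p := derivative P) (by omega)
    exact natDegree_eq_of_degree_eq_some this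
  have h6 : derivative (derivative P) ≠ 0 := by
    intro h0
    have := degree_derivative (p := derivative P) (by omega)
    rw [h0, degree_zero] at this
    exact absurd this (by simp)
  have h7 := natDegree_le_of_dvd h3 h6
  omega

theorem wr_natDegree (hd : 2 ≤ d) {w : Coef d} (hw : IsRational w) : (wr w).natDegree ≠ 0 := by
  intro h0
  have h1 := natDegree_le_one hw.1 h0
  have h2 : (derivative (poly w.2) * poly w.1 - poly w.2 * derivative (poly w.1)).natDegree =
      0 := by
    have h3 : derivative (poly w.2) * poly w.1 - poly w.2 * derivative (poly w.1) = -wr w := by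
      unfold wr; ring
    rw [h3, natDegree_neg]; exact h0
  have h3 := natDegree_le_one hw.1.symm h2
  have h4 := hw.2
  have := max_le h1 h3
  omega

theorem wr_ne (hd : 2 ≤ d) {w : Coef d} (hw : IsRational w) : wr w ≠ 0 := by
  intro h0
  apply wr_natDegree hd hw
  rw [h0, natDegree_zero]

theorem exists_crit (hd : 2 ≤ d) {w : Coef d} (hw : IsRational w) :
    ∃ z : ℂ, (wr w).eval z = 0 := by
  obtain ⟨z, hz⟩ := IsAlgClosed.exists_root (wr w) (by
    intro h0
    exact wr_natDegree hd hw (natDegree_eq_of_degree_eq_some h0))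
  exact ⟨z, hz⟩

/-- Zeros of the Wronskian are critical. -/
theorem crit_of_wr {w : Coef d} {z : ℂ} (hz : (wr w).eval z = 0) {s : ℂ} (hs : s ≠ 0) :
    cr (lift w (s • vz z)) (liftd w (s • vz z) (perp (s • vz z))) = 0 := by
  set c : V := s • vz z with hc
  set e : V := perp c with he
  have hc1 : c 1 = s := by rw [hc, PiLp.smul_apply, vz_one, smul_eq_mul, mul_one]
  have hc0 : c 0 = s * z := by rw [hc, PiLp.smul_apply, vz_zero, smul_eq_mul]
  have h1 : HasDerivAt (fun y : ℂ => cr (lift w c) (lift w (c + y • e)))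
      (cr (lift w c) (liftd w c e)) 0 := by
    simp only [cr, lift_zero, lift_one, liftd_zero, liftd_one]
    have a2 := hm_deriv w.2 c e 0
    have a1 := hm_deriv w.1 c e 0
    rw [zero_smul, add_zero] at a1 a2
    exact (a2.const_mul _).sub (a1.const_mul _)
  set T : ℂ → ℂ := fun y => (poly w.1).eval z * (poly w.2).eval y -
    (poly w.2).eval z * (poly w.1).eval y with hT
  have hT0 : T z = 0 := by rw [hT]; simp only; ring
  have hTd : HasDerivAt T 0 z := by
    have h2 := (((poly w.2).hasDerivAt z).const_mul ((poly w.1).eval z)).sub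
      (((poly w.1).hasDerivAt z).const_mul ((poly w.2).eval z))
    have h3 : (poly w.1).eval z * (derivative (poly w.2)).eval z -
        (poly w.2).eval z * (derivative (poly w.1)).eval z = 0 := by
      unfold wr at hz
      rw [eval_sub, eval_mul, eval_mul] at hz
      linear_combination -hz
    rw [h3] at h2
    exact h2
  set μ : ℂ → ℂ := fun y => c 1 + y * e 1 with hμ
  set ζ : ℂ → ℂ := fun y => (c 0 + y * e 0) / (c 1 + y * e 1) with hζ
  have hμd : DifferentiableAt ℂ (fun y => c 1 + y * e 1) (0 : ℂ) := by fun_prop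
  have hζd : DifferentiableAt ℂ ζ 0 := by
    refine DifferentiableAt.div (by fun_prop) hμd ?_
    rw [zero_mul, add_zero, hc1]; exact hs
  have hζ0 : ζ 0 = z := by
    rw [hζ]; simp only
    rw [zero_mul, zero_mul, add_zero, add_zero, hc1, hc0]
    field_simp
  have h2 : HasDerivAt (fun y => s ^ d * (μ y ^ d * T (ζ y))) 0 0 := by
    have h3 : HasDerivAt (fun y => T (ζ y)) (0 * deriv ζ 0) 0 := by
      have h4 : HasDerivAt T 0 (ζ 0) := by rw [hζ0]; exact hTd
      exact h4.comp 0 hζd.hasDerivAt
    have h5 : DifferentiableAt ℂ (fun y => μ y ^ d) 0 := hμd.pow d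
    have h6 := (h5.hasDerivAt.mul h3).const_mul (s ^ d)
    have h7 : s ^ d * (deriv (fun y => μ y ^ d) 0 * T (ζ 0) +
        (fun y => μ y ^ d) 0 * (0 * deriv ζ 0)) = 0 := by
      rw [hζ0, hT0]; ring
    rw [h7] at h6
    exact h6
  have h3 : (fun y : ℂ => cr (lift w c) (lift w (c + y • e))) =ᶠ[𝓝 0]
      fun y => s ^ d * (μ y ^ d * T (ζ y)) := by
    have h4 : ∀ᶠ y in 𝓝 (0 : ℂ), c 1 + y * e 1 ≠ 0 := by
      refine hμd.continuousAt.eventually_ne ?_
      rw [zero_mul, add_zero, hc1]; exact hs
    filter_upwards [h4] with y hy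
    have h5 : c + y • e = μ y • vz (ζ y) := by
      have h6 : (c + y • e) 1 = μ y := by simp [hμ]
      have h7 : (c + y • e) 0 = c 0 + y * e 0 := by simp
      have h8 := eq_smul_vz (p := c + y • e) (by rw [h6]; exact hy)
      rw [h6, h7] at h8
      exact h8
    have h6 : lift w c = s ^ d • lift w (vz z) := by rw [hc, lift_smul]
    rw [h5, h6, lift_smul, cr_smul_left, cr_smul_right]
    have h7 : cr (lift w (vz z)) (lift w (vz (ζ y))) = T (ζ y) := by
      rw [cr, lift_zero, lift_one, lift_zero, lift_one, hm_vz, hm_vz, hm_vz, hm_vz]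
    rw [h7]
  exact h1.unique (h2.congr_of_eventuallyEq h3)

/-- Critical points, together with infinity. -/
def Critical (w : Coef d) (p : V) : Prop :=
  p ≠ 0 ∧ (p 1 = 0 ∨ (wr w).eval (p 0 / p 1) = 0)

/-- The list of the critical points. -/
noncomputable def crl (w : Coef d) : List X :=
  default :: (wr w).roots.toList.map fun z => ⟨vz z, vz_ne z⟩

theorem crl_length (w : Coef d) : (crl w).length ≤ 2 * d + 1 := by
  unfold crl
  rw [List.length_cons, List.length_map, Multiset.length_toList]
  have h1 := card_roots' (wr w)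
  have h2 : (wr w).natDegree ≤ 2 * d := by
    unfold wr
    refine (natDegree_sub_le _ _).trans (max_le ?_ ?_)
    · refine natDegree_mul_le.trans ?_
      have h3 := natDegree_derivative_le (poly w.1)
      have h4 := natDegree_poly_le w.1
      have h5 := natDegree_poly_le w.2
      omega
    · refine natDegree_mul_le.trans ?_
      have h3 := natDegree_derivative_le (poly w.2)
      have h4 := natDegree_poly_le w.1
      have h5 := natDegree_poly_le w.2
      omega
  omega

theorem exists_crl (hd : 2 ≤ d) {w : Coef d} (hw : IsRational w) {p : V} (hp : Critical w p) :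
    ∃ y ∈ crl w, ∃ s : ℂ, s ≠ 0 ∧ p = s • y.val := by
  obtain ⟨hp0, hp1⟩ := hp
  by_cases h1 : p 1 = 0
  · refine ⟨default, List.mem_cons_self, p 0, ?_, ?_⟩
    · intro h2
      apply hp0
      ext i
      fin_cases i
      · simpa using h2
      · simpa using h1
    · have h2 : (default : X).val = !₂[1, 0] := rfl
      rw [h2]
      ext i
      fin_cases i
      · simp
      · simpa using h1
  · have h2 := hp1.resolve_left h1
    refine ⟨⟨vz (p 0 / p 1), vz_ne _⟩, ?_, p 1, h1, eq_smul_vz h1⟩
    refine List.mem_cons_of_mem _ (List.mem_map.2 ⟨p 0 / p 1, ?_, rfl⟩)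
    rw [Multiset.mem_toList, mem_roots (wr_ne hd hw)]
    exact h2

end Pool.Agent.R241.RC
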