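import Pool.Agent.R241.RC12

/-!
# Sequences of rational maps: matrices and orbits
-/

set_option autoImplicit false

open Filter Topology Set Metric ComplexConjugate Polynomial

namespace Pool.Agent.R241.RC

variable {d : ℕ}

/-- The rational map `(aP + bQ)/(cP + eQ)`, where `P/Q` is given by `w` and `a, b, c, e` are the
entries of the matrix. -/
def act (M : Matrix (Fin 2) (Fin 2) ℂ) (w : Coef d) : Coef d :=
  (fun k => M 0 0 * w.1 k + M 0 1 * w.2 k, fun k => M 1 0 * w.1 k + M 1 1 * w.2 k)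

/-- The position at time `n + m` of the orbit which starts at `p` at time `n`. -/
noncomputable def orbit (v : ℕ → Coef d) (n : ℕ) : ℕ → V → V
  | 0, p => p
  | m + 1, p => lift (v (n + m)) (orbit v n m p)

/-- Uniform exponential stability of all postcritical orbits at all times. -/
def Hyperbolic (v : ℕ → Coef d) (δ C θ : ℝ) : Prop :=
  ∀ (n : ℕ) (c : V), Critical (v n) c → ∀ (m : ℕ) (w : V), w ≠ 0 →
    D w (orbit v n m c) < δ →
    ∀ N : ℕ, D (orbit v (n + m) N w) (orbit v n (m + N) c) ≤ C * θ ^ N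

theorem poly_comb (x y : ℂ) (a b : Fin (d + 1) → ℂ) :
    poly (fun k => x * a k + y * b k) = C x * poly a + C y * poly b := by
  unfold poly
  rw [Finset.mul_sum, Finset.mul_sum, ← Finset.sum_add_distrib]
  refine Finset.sum_congr rfl fun k _ => ?_
  rw [C_add, C_mul, C_mul]
  ring

theorem hm_comb (x y : ℂ) (a b : Fin (d + 1) → ℂ) (p : V) :
    hm (fun k => x * a k + y * b k) p = x * hm a p + y * hm b p := by
  unfold hm
  rw [Finset.mul_sum, Finset.mul_sum, ← Finset.sum_add_distrib]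
  refine Finset.sum_congr rfl fun k _ => ?_
  ring

theorem wr_act (M : Matrix (Fin 2) (Fin 2) ℂ) (w : Coef d) :
    wr (act M w) = C M.det * wr w := by
  unfold wr act
  simp only
  rw [poly_comb, poly_comb, Matrix.det_fin_two]
  simp only [derivative_add, derivative_mul, derivative_C, zero_mul, zero_add, C_sub, C_mul]
  ring

theorem Critical.of_act {M : Matrix (Fin 2) (Fin 2) ℂ} (hM : M.det ≠ 0) {w : Coef d} {p : V}
    (h : Critical (act M w) p) : Critical w p := by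
  refine ⟨h.1, ?_⟩
  rcases h.2 with h1 | h1
  · exact Or.inl h1
  · right
    rw [wr_act, eval_mul, eval_C] at h1
    exact (mul_eq_zero.1 h1).resolve_left hM

theorem isRational_act {M : Matrix (Fin 2) (Fin 2) ℂ} (hM : M.det ≠ 0) {w : Coef d}
    (hw : IsRational w) : IsRational (act M w) := by
  rw [Matrix.det_fin_two] at hM
  have e1 : poly (act M w).1 = C (M 0 0) * poly w.1 + C (M 0 1) * poly w.2 := poly_comb _ _ _ _
  have e2 : poly (act M w).2 = C (M 1 0) * poly w.1 + C (M 1 1) * poly w.2 := poly_comb _ _ _ _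
  set Dt : ℂ := M 0 0 * M 1 1 - M 0 1 * M 1 0 with hDt
  have hD : C Dt * C (Dt⁻¹) = (1 : ℂ[X]) := by rw [← C_mul, mul_inv_cancel₀ hM, C_1]
  have hDt' : C Dt = C (M 0 0) * C (M 1 1) - C (M 0 1) * C (M 1 0) := by
    rw [hDt, C_sub, C_mul, C_mul]
  have i1 : poly w.1 = C (Dt⁻¹) * (C (M 1 1) * poly (act M w).1 -
      C (M 0 1) * poly (act M w).2) := by
    rw [e1, e2]
    linear_combination (-poly w.1) * hD + C (Dt⁻¹) * poly w.1 * hDt'
  have i2 : poly w.2 = C (Dt⁻¹) * (C (M 0 0) * poly (act M w).2 -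
      C (M 1 0) * poly (act M w).1) := by
    rw [e1, e2]
    linear_combination (-poly w.2) * hD + C (Dt⁻¹) * poly w.2 * hDt'
  refine ⟨?_, ?_⟩
  · obtain ⟨u, v, huv⟩ := hw.1
    rw [i1, i2] at huv
    refine ⟨C (Dt⁻¹) * (u * C (M 1 1) - v * C (M 1 0)),
      C (Dt⁻¹) * (v * C (M 0 0) - u * C (M 0 1)), ?_⟩
    rw [← huv]
    ring
  · refine le_antisymm (max_le (natDegree_poly_le _) (natDegree_poly_le _)) ?_
    set m := max (poly (act M w).1).natDegree (poly (act M w).2).natDegree with hm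
    have a1 : (poly (act M w).1).natDegree ≤ m := le_max_left _ _
    have a2 : (poly (act M w).2).natDegree ≤ m := le_max_right _ _
    have b1 : (poly w.1).natDegree ≤ m := by
      rw [i1]
      refine (natDegree_C_mul_le _ _).trans ((natDegree_sub_le _ _).trans (max_le ?_ ?_))
      · exact (natDegree_C_mul_le _ _).trans a1
      · exact (natDegree_C_mul_le _ _).trans a2
    have b2 : (poly w.2).natDegree ≤ m := by
      rw [i2]
      refine (natDegree_C_mul_le _ _).trans ((natDegree_sub_le _ _).trans (max_le ?_ ?_))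
      · exact (natDegree_C_mul_le _ _).trans a2
      · exact (natDegree_C_mul_le _ _).trans a1
    have := max_le b1 b2
    rw [hw.2] at this
    exact this

/-- The matrix of a linear map. -/
noncomputable def mat (A : V →L[ℂ] V) : Matrix (Fin 2) (Fin 2) ℂ :=
  !![A !₂[1, 0] 0, A !₂[0, 1] 0; A !₂[1, 0] 1, A !₂[0, 1] 1]

theorem map_eq (A : V →L[ℂ] V) (p : V) : A p = p 0 • A !₂[1, 0] + p 1 • A !₂[0, 1] := by
  rw [← map_smul, ← map_smul, ← map_add]
  congr 1
  ext i
  fin_cases i <;> simp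

theorem lift_act (A : V →L[ℂ] V) (w : Coef d) (p : V) :
    lift (act (mat A) w) p = A (lift w p) := by
  rw [map_eq A (lift w p)]
  ext i
  fin_cases i
  · simp only [Fin.zero_eta, lift_zero, lift_one, act, hm_comb, PiLp.add_apply, PiLp.smul_apply,
      smul_eq_mul, mat, Matrix.of_apply, Matrix.cons_val', Matrix.cons_val_zero,
      Matrix.cons_val_one, Matrix.cons_val_fin_one]
    ring
  · simp only [Fin.mk_one, lift_zero, lift_one, act, hm_comb, PiLp.add_apply, PiLp.smul_apply,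
      smul_eq_mul, mat, Matrix.of_apply, Matrix.cons_val', Matrix.cons_val_zero,
      Matrix.cons_val_one, Matrix.cons_val_fin_one]
    ring

theorem norm_coord_le (p : V) (i : Fin 2) : ‖p i‖ ≤ ‖p‖ := by
  have h := norm_sq p
  refine abs_le_of_sq_le_sq' ?_ (norm_nonneg _) |>.2
  rw [h]
  fin_cases i
  · simp only [Fin.zero_eta]; nlinarith [sq_nonneg ‖p 1‖]
  · simp only [Fin.mk_one]; nlinarith [sq_nonneg ‖p 0‖]

theorem mat_near {η : ℝ} {A : V →L[ℂ] V} (hA : Near η A) (i j : Fin 2) :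
    ‖mat A i j - (1 : Matrix (Fin 2) (Fin 2) ℂ) i j‖ ≤ η := by
  have h0 : ‖(!₂[1, 0] : V)‖ = 1 := by
    have h := norm_sq (!₂[1, 0] : V)
    have h1 : ‖(!₂[1, 0] : V)‖ ^ 2 = 1 ^ 2 := by rw [h]; simp
    exact (pow_left_inj₀ (norm_nonneg _) zero_le_one two_ne_zero).1 h1
  have h1 : ‖(!₂[0, 1] : V)‖ = 1 := by
    have h := norm_sq (!₂[0, 1] : V)
    have h1 : ‖(!₂[0, 1] : V)‖ ^ 2 = 1 ^ 2 := by rw [h]; simp
    exact (pow_left_inj₀ (norm_nonneg _) zero_le_one two_ne_zero).1 h1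
  have a0 := hA !₂[1, 0]
  have a1 := hA !₂[0, 1]
  rw [h0, mul_one] at a0
  rw [h1, mul_one] at a1
  have b00 := (norm_coord_le _ 0).trans a0
  have b10 := (norm_coord_le _ 1).trans a0
  have b01 := (norm_coord_le _ 0).trans a1
  have b11 := (norm_coord_le _ 1).trans a1
  rw [PiLp.sub_apply] at b00 b10 b01 b11
  fin_cases i <;> fin_cases j
  · simpa [mat] using b00
  · simpa [mat] using b01
  · simpa [mat] using b10
  · simpa [mat] using b11

theorem mat_det {η : ℝ} (hη : η ≤ 1 / 6) {A : V →L[ℂ] V} (hA : Near η A) :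
    (mat A).det ≠ 0 := by
  have h00 := (mat_near hA 0 0).trans hη
  have h01 := (mat_near hA 0 1).trans hη
  have h10 := (mat_near hA 1 0).trans hη
  have h11 := (mat_near hA 1 1).trans hη
  simp only [Matrix.one_apply_eq, ne_eq, Matrix.one_apply, Fin.zero_eq_one_iff, Nat.succ_ne_self,
    Fin.one_eq_zero_iff, if_false, if_true, sub_zero, OfNat.ofNat_ne_one, not_false_eq_true,
    reduceCtorEq] at h00 h01 h10 h11
  rw [Matrix.det_fin_two]
  intro h0
  have h2 : (mat A 0 0 - 1) + (mat A 1 1 - 1) + (mat A 0 0 - 1) * (mat A 1 1 - 1) -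
      mat A 0 1 * mat A 1 0 = -1 := by linear_combination h0
  have h3 : ‖(mat A 0 0 - 1) + (mat A 1 1 - 1) + (mat A 0 0 - 1) * (mat A 1 1 - 1) -
      mat A 0 1 * mat A 1 0‖ ≤ 1 / 6 + 1 / 6 + 1 / 6 * (1 / 6) + 1 / 6 * (1 / 6) := by
    refine (norm_sub_le _ _).trans (add_le_add ((norm_add_le _ _).trans (add_le_add
      ((norm_add_le _ _).trans (add_le_add h00 h11)) ?_)) ?_)
    · rw [norm_mul]; gcongr
    · rw [norm_mul]; gcongr
  rw [h2, norm_neg, norm_one] at h3
  norm_num at h3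

theorem orbit_eq (A : ℕ → V →L[ℂ] V) (w : ℕ → Coef d) (n m : ℕ) (p : V) :
    orbit (fun k => act (mat (A k)) (w k)) n m p = run (pm A fun k => lift (w k)) n m p := by
  induction m with
  | zero => rfl
  | succ m ih => rw [orbit, run, ih, lift_act]; rfl

theorem final (hd : 2 ≤ d) {𝒦 : Set (Coef d)} (hK : IsCompact 𝒦)
    (hrat : ∀ w ∈ 𝒦, IsRational w) {ε : ℝ} (hε : 0 < ε) :
    ∃ δ C θ : ℝ, 0 < δ ∧ 0 < C ∧ 0 < θ ∧ θ < 1 ∧
      ∀ w : ℕ → Coef d, (∀ k, w k ∈ 𝒦) →
        ∃ M : ℕ → Matrix (Fin 2) (Fin 2) ℂ,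
          (∀ k, (M k).det ≠ 0 ∧
            ∀ i j, ‖M k i j - (1 : Matrix (Fin 2) (Fin 2) ℂ) i j‖ < ε) ∧
          (∀ k, IsRational (act (M k) (w k))) ∧
          Hyperbolic (fun k => act (M k) (w k)) δ C θ := by
  obtain ⟨R, r, hr, hgood⟩ := exists_good (by omega) hK hrat
  obtain ⟨L, hL, hlip⟩ := exists_L d (R := R) hr
  obtain ⟨C₀, hC₀, hcrit⟩ := exists_C₀ d (R := R) hr
  set ε' : ℝ := min (ε / 2) (1 / 6) with hε'
  have hε'0 : 0 < ε' := by rw [hε']; positivity
  have hε'1 : ε' ≤ 1 / 6 := min_le_right _ _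
  have hε'2 : ε' < ε := lt_of_le_of_lt (min_le_left _ _) (by linarith)
  obtain ⟨δ, C, θ, hδ, hC, hθ0, hθ1, hmain⟩ := main hL hC₀ hε'0 hε'1
    (b₀ := 2 * d + 1) (by omega)
  refine ⟨δ, C, θ, hδ, hC, hθ0, hθ1, ?_⟩
  intro w hw
  have hz : ∀ k, ∃ z s : ℂ, (wr (w k)).eval z = 0 ∧ s ≠ 0 ∧ ‖s • vz z‖ = 1 := by
    intro k
    obtain ⟨z, hz⟩ := exists_crit hd (hrat _ (hw k))
    obtain ⟨s, hs, hu⟩ := exists_unit (vz_ne z)
    exact ⟨z, s, hz, hs, hu⟩
  choose z s hz hs hu using hz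
  have hcls : ∀ k, Cls (lift (w k)) := fun k => (hgood _ (hw k)).cls hr
  have hEl : Elem (fun k => lift (w k)) (fun k => s k • vz (z k)) L C₀ :=
    ⟨hcls, hu, fun k p q hp hq => hlip _ (hgood _ (hw k)) p q hp hq,
      fun k p q hp hq => hcrit _ (hgood _ (hw k)) _ (hu k) (crit_of_wr (hz k) (hs k)) p q hp hq⟩
  obtain ⟨A, hA, hst⟩ := hmain _ _ (fun k => crl (w k)) hEl (fun k => crl_length (w k))
  have hdet : ∀ k, (mat (A k)).det ≠ 0 := fun k => mat_det hε'1 (hA k)
  refine ⟨fun k => mat (A k), fun k => ⟨hdet k, fun i j => (mat_near (hA k) i j).trans_lt hε'2⟩,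
    fun k => isRational_act (hdet k) (hrat _ (hw k)), ?_⟩
  intro n c hc m x hx hxd N
  have hpm : ∀ j, Cls (pm A (fun k => lift (w k)) j) := pm_cls hcls hA (by linarith)
  obtain ⟨y, hy, t, ht, hcy⟩ := exists_crl hd (hrat _ (hw n)) (hc.of_act (hdet n))
  have h1 := hst n y hy m ⟨x, hx⟩
  have hscale : ∀ j, ∃ u : ℂ, u ≠ 0 ∧ orbit (fun k => act (mat (A k)) (w k)) n j c =
      u • (run (fun j => up (pm A (fun k => lift (w k)) j)) n j y).val := by
    intro j
    rw [orbit_eq, run_up hpm, hcy]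
    obtain ⟨e, he⟩ := (run_cls hpm n j).hom
    exact ⟨t ^ e, pow_ne_zero _ ht, he t y.val⟩
  obtain ⟨u, hu0, hu1⟩ := hscale m
  obtain ⟨u', hu'0, hu'1⟩ := hscale (m + N)
  rw [hu1, D_smul_right hu0] at hxd
  have h2 := h1 hxd.le N
  rw [dist_eq, run_up hpm, ← run_add] at h2
  rw [hu'1, D_smul_right hu'0, orbit_eq]
  exact h2

end Pool.Agent.R241.RC
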