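import Pool.Agent.R241.RC1
import Pool.Agent.R241.NA1

/-!
# Contraction along orbits which avoid targets under all small kicks
-/

set_option autoImplicit false

open Filter Topology Set Metric ComplexConjugate

namespace Pool.Agent.R241.RC

open Pool.Agent.R241.NA (phase norm_phase norm_add_phase)

/-- Planar non-autonomous orbits with kicks. -/
def Sg (g : ℕ → ℂ → ℂ) (a : ℕ → ℂ) : ℕ → ℂ → ℂ
  | 0, y => y
  | n + 1, y => g n (Sg g a n y) + a n

theorem planar {g : ℕ → ℂ → ℂ} {y₀ : ℂ} {e B : ℝ} (he : 0 < e) (hB : 0 < B) {N : ℕ}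
    (h1 : ∀ y ∈ closedBall y₀ e, ∀ a : ℕ → ℂ, (∀ i, ‖a i‖ ≤ e) → ∀ n ≤ N, ‖Sg g a n y‖ ≤ B)
    (h2 : ∀ y ∈ closedBall y₀ e, ∀ a : ℕ → ℂ, (∀ i, ‖a i‖ ≤ e) → ∀ n < N,
      DifferentiableAt ℂ (g n) (Sg g a n y))
    {w o : ℂ} (hw : w ∈ closedBall y₀ (e / 2)) (ho : o ∈ closedBall y₀ (e / 2)) :
    ‖Sg g (fun _ => 0) N w - Sg g (fun _ => 0) N o‖ ≤
      (2 * B / e) * (1 - 1 / (2 * B / e)) ^ N * ‖w - o‖ := by
  set M : ℝ := 2 * B / e with hM
  have hM0 : 0 < M := by positivity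
  have hz : ∀ i : ℕ, ‖(fun _ => (0 : ℂ)) i‖ ≤ e := fun i => by simpa using he.le
  have hin : ∀ y ∈ closedBall y₀ (e / 2), ∀ ζ : ℂ, ‖ζ‖ ≤ e / 2 → y + ζ ∈ closedBall y₀ e := by
    intro y hy ζ hζ
    rw [mem_closedBall, dist_eq_norm] at hy ⊢
    have h3 : y + ζ - y₀ = (y - y₀) + ζ := by ring
    rw [h3]
    exact (norm_add_le _ _).trans (by linarith)
  have hin0 : ∀ y ∈ closedBall y₀ (e / 2), y ∈ closedBall y₀ e := fun y hy =>
    closedBall_subset_closedBall (by linarith) hy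
  have hdS : ∀ y ∈ closedBall y₀ (e / 2), ∀ k ≤ N,
      HasDerivAt (Sg g (fun _ => 0) k)
        (∏ i ∈ Finset.range k, deriv (g i) (Sg g (fun _ => 0) i y)) y := by
    intro y hy k
    induction k with
    | zero =>
      intro _
      have : Sg g (fun _ => 0) 0 = id := rfl
      rw [this]; simpa using hasDerivAt_id y
    | succ k ih =>
      intro hk
      rw [Finset.prod_range_succ, mul_comm]
      have h3 := (h2 y (hin0 y hy) (fun _ => 0) hz k (by omega)).hasDerivAt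
      exact (h3.comp y (ih (by omega))).add_const _
  have hder : ∀ y ∈ closedBall y₀ (e / 2),
      ‖deriv (Sg g (fun _ => 0) N) y‖ ≤ M * (1 - 1 / M) ^ N := by
    intro y hy
    set x : ℕ → ℂ := fun i => deriv (g i) (Sg g (fun _ => 0) i y) with hx
    let U : ℕ → ℂ := fun n => Nat.rec (1 : ℂ) (fun k r => x k * r + phase (x k * r)) n
    have hU0 : U 0 = 1 := rfl
    have hUs : ∀ k, U (k + 1) = x k * U k + phase (x k * U k) := fun k => rfl
    set E : ℕ → ℂ := fun k => phase (x k * U k) with hE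
    have hEn : ∀ (ζ : ℂ), ‖ζ‖ ≤ e / 2 → ∀ i, ‖ζ * E i‖ ≤ e := by
      intro ζ hζ i
      rw [norm_mul, hE]; simp only
      rw [norm_phase, mul_one]; linarith
    have hH0 : ∀ k, Sg g (fun i => (0 : ℂ) * E i) k (y + 0) = Sg g (fun _ => 0) k y := by
      intro k; simp only [zero_mul, add_zero]
    have hderH : ∀ k ≤ N, HasDerivAt (fun ζ : ℂ => Sg g (fun i => ζ * E i) k (y + ζ)) (U k) 0 := by
      intro k
      induction k with
      | zero =>
        intro _
        rw [hU0]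
        exact (hasDerivAt_id (0 : ℂ)).const_add y
      | succ k ih =>
        intro hk
        rw [hUs]
        have h3 : HasDerivAt (g k) (x k)
            ((fun ζ : ℂ => Sg g (fun i => ζ * E i) k (y + ζ)) 0) := by
          simp only
          rw [hH0]
          exact (h2 y (hin0 y hy) (fun _ => 0) hz k (by omega)).hasDerivAt
        have h4 := h3.comp 0 (ih (by omega))
        have h5 : HasDerivAt (fun ζ : ℂ => ζ * E k) (E k) 0 := by
          simpa using (hasDerivAt_id (0 : ℂ)).mul_const (E k)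
        exact h4.add h5
    have hdiffH : ∀ k ≤ N, ∀ ζ : ℂ, ‖ζ‖ ≤ e / 2 →
        DifferentiableAt ℂ (fun ζ : ℂ => Sg g (fun i => ζ * E i) k (y + ζ)) ζ := by
      intro k
      induction k with
      | zero =>
        intro _ ζ _
        exact (differentiableAt_id).const_add y
      | succ k ih =>
        intro hk ζ hζ
        have h3 := h2 (y + ζ) (hin y hy ζ hζ) (fun i => ζ * E i) (hEn ζ hζ) k (by omega)
        have h4 : DifferentiableAt ℂ (g k)
            ((fun ζ : ℂ => Sg g (fun i => ζ * E i) k (y + ζ)) ζ) := h3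
        have h5 := h4.comp ζ (ih (by omega) ζ hζ)
        have h6 : DifferentiableAt ℂ (fun ζ : ℂ => ζ * E k) ζ := by fun_prop
        exact h5.add h6
    have hUn : ∀ k ≤ N, ‖U k‖ ≤ M := by
      intro k hk
      rw [← (hderH k hk).deriv]
      have h3 : M = B / (e / 2) := by rw [hM]; field_simp
      rw [h3]
      refine Complex.norm_deriv_le_of_forall_mem_sphere_norm_le (by positivity) ?_ ?_
      · refine DifferentiableOn.diffContOnCl ?_
        rw [closure_ball (0 : ℂ) (by positivity)]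
        intro ζ hζ
        rw [mem_closedBall_zero_iff] at hζ
        exact (hdiffH k hk ζ hζ).differentiableWithinAt
      · intro ζ hζ
        rw [mem_sphere_zero_iff_norm] at hζ
        exact h1 (y + ζ) (hin y hy ζ hζ.le) (fun i => ζ * E i) (hEn ζ hζ.le) k hk
    have hM1 : 1 ≤ M := by
      have := hUn 0 (by omega)
      rwa [hU0, norm_one] at this
    have hθ : 0 ≤ 1 - 1 / M := by rw [sub_nonneg, div_le_one hM0]; exact hM1
    have hprod : ∀ k ≤ N, ∏ i ∈ Finset.range k, ‖x i‖ ≤ ‖U k‖ * (1 - 1 / M) ^ k := by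
      intro k
      induction k with
      | zero => intro _; rw [hU0]; simp
      | succ k ih =>
        intro hk
        have h3 := ih (by omega)
        have h4 := hUn (k + 1) hk
        have h5 : ‖U (k + 1)‖ = ‖x k‖ * ‖U k‖ + 1 := by rw [hUs, norm_add_phase, norm_mul]
        have h6 : ‖U (k + 1)‖ - 1 ≤ ‖U (k + 1)‖ * (1 - 1 / M) := by
          have : ‖U (k + 1)‖ * (1 / M) ≤ 1 := by
            rw [mul_one_div, div_le_one hM0]; exact h4
          linarith
        rw [Finset.prod_range_succ, pow_succ]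
        calc (∏ i ∈ Finset.range k, ‖x i‖) * ‖x k‖
            ≤ (‖U k‖ * (1 - 1 / M) ^ k) * ‖x k‖ := by gcongr
          _ = (‖U (k + 1)‖ - 1) * (1 - 1 / M) ^ k := by rw [h5]; ring
          _ ≤ (‖U (k + 1)‖ * (1 - 1 / M)) * (1 - 1 / M) ^ k := by gcongr
          _ = _ := by ring
    rw [(hdS y hy N le_rfl).deriv, norm_prod]
    refine (hprod N le_rfl).trans ?_
    gcongr
    exact hUn N le_rfl
  exact (convex_closedBall y₀ (e / 2)).norm_image_sub_le_of_norm_deriv_le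
    (f := Sg g (fun _ => 0) N) (C := M * (1 - 1 / M) ^ N)
    (fun u hu => (hdS u hu N le_rfl).differentiableAt) hder ho hw

/-! ### Maps of the sphere -/

/-- Lifts of holomorphic maps of the sphere. -/
structure Cls (F : V → V) : Prop where
  diff : Differentiable ℂ F
  nz : ∀ p, p ≠ 0 → F p ≠ 0
  hom : ∃ d : ℕ, ∀ (c : ℂ) (p : V), F (c • p) = c ^ d • F p

theorem Cls.comp {F G : V → V} (hF : Cls F) (hG : Cls G) : Cls (fun p => F (G p)) := by
  obtain ⟨d, hd⟩ := hF.hom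
  obtain ⟨d', hd'⟩ := hG.hom
  refine ⟨hF.diff.comp hG.diff, fun p hp => hF.nz _ (hG.nz p hp), d' * d, fun c p => ?_⟩
  rw [hd', hd, pow_mul]

theorem Cls.near {F : V → V} (hF : Cls F) {A : V →L[ℂ] V} {η : ℝ} (hA : Near η A) (hη : η < 1) :
    Cls (fun p => A (F p)) := by
  obtain ⟨d, hd⟩ := hF.hom
  refine ⟨A.differentiable.comp hF.diff, fun p hp => hA.ne hη (hF.nz p hp), d, fun c p => ?_⟩
  rw [hd, map_smul]

/-- Unkicked orbits. -/
def orb {Z : Type} (f : ℕ → Z → Z) : ℕ → Z → Z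
  | 0, x => x
  | n + 1, x => f n (orb f n x)

/-- The coordinate of a point in the chart at `t`. -/
noncomputable def co (t p : V) : ℂ := ip p t / cr t p

/-- The inverse of the chart at `t`. -/
noncomputable def ch (t : V) (z : ℂ) : V := z • t + perp t

theorem cr_ch {t : V} (ht : ‖t‖ = 1) (z : ℂ) : cr t (ch t z) = 1 := by
  rw [ch, cr_add_right, cr_smul_right, cr_self, cr_perp, ht]; simp

theorem ch_ne {t : V} (ht : ‖t‖ = 1) (z : ℂ) : ch t z ≠ 0 := by
  intro h
  have h1 := cr_ch ht z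
  rw [h] at h1
  simp [cr] at h1

theorem ip_ch {t : V} (ht : ‖t‖ = 1) (z : ℂ) : ip (ch t z) t = z := by
  rw [ch, ip_add_left, ip_smul_left, ip_self, ip_perp, ht]; simp

theorem eq_smul_ch {t : V} (ht : ‖t‖ = 1) {p : V} (hp : cr t p ≠ 0) :
    p = cr t p • ch t (co t p) := by
  rw [ch, smul_add, smul_smul, co, mul_div_cancel₀ _ hp]
  exact decomp1 ht p

theorem co_smul (t : V) {c : ℂ} (hc : c ≠ 0) (p : V) : co t (c • p) = co t p := by
  unfold co
  rw [ip_smul_left, cr_smul_right, mul_div_mul_left _ _ hc]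

theorem norm_ch_sq {t : V} (ht : ‖t‖ = 1) (z : ℂ) : ‖ch t z‖ ^ 2 = 1 + ‖z‖ ^ 2 := by
  have h := lagrange (ch t z) t
  rw [ip_ch ht, norm_cr_swap, cr_ch ht, ht, norm_one] at h
  linarith

theorem cr_ch_ch {t : V} (ht : ‖t‖ = 1) (z w : ℂ) : cr (ch t z) (ch t w) = z - w := by
  rw [ch, ch, cr_add_left, cr_smul_left, cr_add_right, cr_smul_right, cr_self, cr_add_right,
    cr_smul_right, cr_self, cr_swap (perp t) t, cr_perp, ht]
  simp; ring

theorem cr_eq_co {t : V} (ht : ‖t‖ = 1) {p q : V} (hp : cr t p ≠ 0) (hq : cr t q ≠ 0) :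
    cr p q = cr t p * cr t q * (co t p - co t q) := by
  conv_lhs => rw [eq_smul_ch ht hp, eq_smul_ch ht hq]
  rw [cr_smul_left, cr_smul_right, cr_ch_ch ht]; ring

theorem norm_sq_co {t : V} (ht : ‖t‖ = 1) {p : V} (hp : cr t p ≠ 0) :
    ‖p‖ ^ 2 = ‖cr t p‖ ^ 2 * (1 + ‖co t p‖ ^ 2) := by
  conv_lhs => rw [eq_smul_ch ht hp]
  rw [norm_smul, mul_pow, norm_ch_sq ht]

/-- The chordal distance is at most the distance in a chart. -/
theorem D_le_co {t : V} (ht : ‖t‖ = 1) {p q : V} (hp : cr t p ≠ 0) (hq : cr t q ≠ 0) :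
    D p q ≤ ‖co t p - co t q‖ := by
  have h1 : ∀ x : V, cr t x ≠ 0 → ‖cr t x‖ ≤ ‖x‖ := by
    intro x _
    have := norm_cr_le t x
    rwa [ht, one_mul] at this
  have hp' : 0 < ‖cr t p‖ := norm_pos_iff.2 hp
  have hq' : 0 < ‖cr t q‖ := norm_pos_iff.2 hq
  have h2 := h1 p hp
  have h3 := h1 q hq
  unfold D
  rw [cr_eq_co ht hp hq, norm_mul, norm_mul, div_le_iff₀ (by
    have : 0 < ‖p‖ := by linarith
    have : 0 < ‖q‖ := by linarith
    positivity), mul_comm]
  gcongr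

/-- The distance in a chart, in a bounded region. -/
theorem co_le_D {t : V} (ht : ‖t‖ = 1) {p q : V} (hp : cr t p ≠ 0) (hq : cr t q ≠ 0) {b c : ℝ}
    (hb : 0 < b) (hpb : ‖p‖ ≤ b * ‖cr t p‖) (hqc : ‖q‖ ≤ c * ‖cr t q‖) :
    ‖co t p - co t q‖ ≤ b * c * D p q := by
  have hp' : 0 < ‖cr t p‖ := norm_pos_iff.2 hp
  have hq' : 0 < ‖cr t q‖ := norm_pos_iff.2 hq
  have h1 : ∀ x : V, cr t x ≠ 0 → ‖cr t x‖ ≤ ‖x‖ := by
    intro x _
    have := norm_cr_le t x
    rwa [ht, one_mul] at this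
  have h2 := h1 p hp
  have h3 := h1 q hq
  have hpn : 0 < ‖p‖ := by linarith
  have hqn : 0 < ‖q‖ := by linarith
  unfold D
  rw [cr_eq_co ht hp hq, norm_mul, norm_mul, mul_div_assoc', le_div_iff₀ (by positivity)]
  calc ‖co t p - co t q‖ * (‖p‖ * ‖q‖) ≤
      ‖co t p - co t q‖ * ((b * ‖cr t p‖) * (c * ‖cr t q‖)) := by gcongr
    _ = _ := by ring

/-- Kicked orbits. -/
noncomputable def ko (f : ℕ → V → V) (t : ℕ → V) (a : ℕ → ℂ) : ℕ → V → V
  | 0, x => x
  | n + 1, x => K (t (n + 1)) (a n) (f n (ko f t a n x))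

/-- The orbits stay away from the targets under all small kicks. -/
def Avoid (f : ℕ → V → V) (t : ℕ → V) (e B : ℝ) (N : ℕ) (x : V) : Prop :=
  ∀ a : ℕ → ℂ, (∀ i, ‖a i‖ ≤ e) → ∀ n < N,
    ‖ip (ko f t a (n + 1) x) (t (n + 1))‖ ≤ B * ‖cr (t (n + 1)) (ko f t a (n + 1) x)‖

theorem ko_ne {f : ℕ → V → V} (hf : ∀ n, Cls (f n)) {t : ℕ → V} (ht : ∀ n, ‖t n‖ = 1)
    {a : ℕ → ℂ} (ha : ∀ i, ‖a i‖ < 1) {x : V} (hx : x ≠ 0) (n : ℕ) : ko f t a n x ≠ 0 := by
  induction n with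
  | zero => exact hx
  | succ n ih => exact (near_K (ht (n + 1)) (a n)).ne (ha n) ((hf n).nz _ ih)

theorem ko_head (f : ℕ → V → V) (t : ℕ → V) (a : ℕ → ℂ) (n : ℕ) (x : V) :
    ko f t a (n + 1) x = ko (fun i => f (i + 1)) (fun i => t (i + 1)) (fun i => a (i + 1)) n
      (K (t 1) (a 0) (f 0 x)) := by
  induction n with
  | zero => rfl
  | succ n ih => rw [ko, ih]; rfl

theorem orb_head {Z : Type} (f : ℕ → Z → Z) (n : ℕ) (x : Z) :
    orb f (n + 1) x = orb (fun i => f (i + 1)) n (f 0 x) := by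
  induction n with
  | zero => rfl
  | succ n ih => rw [orb, ih]; rfl

end Pool.Agent.R241.RC
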