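import Pool.Agent.R241.RC2

/-!
# The contraction lemma on the sphere
-/

set_option autoImplicit false

open Filter Topology Set Metric ComplexConjugate

namespace Pool.Agent.R241.RC

/-- The map between the charts. -/
noncomputable def gm (f : ℕ → V → V) (t : ℕ → V) (n : ℕ) (z : ℂ) : ℂ :=
  co (t (n + 1)) (f n (ch (t n) z))

theorem link {f : ℕ → V → V} (hf : ∀ n, Cls (f n)) {t : ℕ → V} (ht : ∀ n, ‖t n‖ = 1)
    {a : ℕ → ℂ} {p : V} (hp : cr (t 0) p ≠ 0) {N : ℕ}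
    (h : ∀ n < N, cr (t (n + 1)) (f n (ch (t n) (Sg (gm f t) a n (co (t 0) p)))) ≠ 0) (n : ℕ)
    (hn : n ≤ N) : cr (t n) (ko f t a n p) ≠ 0 ∧
      co (t n) (ko f t a n p) = Sg (gm f t) a n (co (t 0) p) := by
  induction n with
  | zero => exact ⟨hp, rfl⟩
  | succ n ih =>
    obtain ⟨h1, h2⟩ := ih (by omega)
    have h3 := h n (by omega)
    obtain ⟨d, hd⟩ := (hf n).hom
    have h4 : f n (ko f t a n p) =
        cr (t n) (ko f t a n p) ^ d • f n (ch (t n) (Sg (gm f t) a n (co (t 0) p))) := by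
      conv_lhs => rw [eq_smul_ch (ht n) h1, h2]
      rw [hd]
    have h5 : cr (t n) (ko f t a n p) ^ d ≠ 0 := pow_ne_zero _ h1
    have h6 : cr (t (n + 1)) (f n (ko f t a n p)) ≠ 0 := by
      rw [h4, cr_smul_right]; exact mul_ne_zero h5 h3
    refine ⟨?_, ?_⟩
    · rw [ko, cr_K]; exact h6
    · rw [ko, Sg]
      have h7 : co (t (n + 1)) (K (t (n + 1)) (a n) (f n (ko f t a n p))) =
          co (t (n + 1)) (f n (ko f t a n p)) + a n := by
        unfold co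
        rw [cr_K, ip_K (ht _)]
        field_simp
      rw [h7, h4, co_smul _ h5]
      rfl

theorem gm_diff {f : ℕ → V → V} (hf : ∀ n, Cls (f n)) {t : ℕ → V} {n : ℕ} {z : ℂ}
    (h : cr (t (n + 1)) (f n (ch (t n) z)) ≠ 0) : DifferentiableAt ℂ (gm f t n) z := by
  have h1 : gm f t n = fun z => ipL (t (n + 1)) (f n (ch (t n) z)) /
      crL (t (n + 1)) (f n (ch (t n) z)) := by
    funext y
    rw [gm, co, ipL_apply, crL_apply]
  rw [h1]
  have h2 : Differentiable ℂ (fun z : ℂ => f n (ch (t n) z)) := by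
    refine (hf n).diff.comp ?_
    unfold ch
    fun_prop
  refine DifferentiableAt.div ((ipL _).differentiable.comp h2 z)
    ((crL _).differentiable.comp h2 z) ?_
  rw [crL_apply]; exact h

theorem cr_ne_of_avoid {B : ℝ} {t p : V} (ht : ‖t‖ = 1) (hp : p ≠ 0)
    (h : ‖ip p t‖ ≤ B * ‖cr t p‖) : cr t p ≠ 0 := by
  intro h0
  rw [h0, norm_zero, mul_zero] at h
  have h1 := lagrange p t
  rw [norm_cr_swap, h0, norm_zero, le_antisymm h (norm_nonneg _), ht] at h1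
  have := norm_pos_iff.2 hp
  nlinarith

theorem norm_le_of_avoid {B : ℝ} {t p : V} (hB : 1 ≤ B) (ht : ‖t‖ = 1)
    (h : ‖ip p t‖ ≤ B * ‖cr t p‖) : ‖p‖ ≤ 2 * B * ‖cr t p‖ := by
  have h1 := lagrange p t
  rw [norm_cr_swap, ht] at h1
  have h2 : ‖ip p t‖ ^ 2 ≤ (B * ‖cr t p‖) ^ 2 := by gcongr
  refine abs_le_of_sq_le_sq' ?_ (by positivity) |>.2
  have h3 : ‖cr t p‖ ^ 2 ≤ B ^ 2 * ‖cr t p‖ ^ 2 := by
    have : 1 ≤ B ^ 2 := one_le_pow₀ hB
    nlinarith [sq_nonneg ‖cr t p‖]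
  nlinarith

theorem ko_zero (f : ℕ → V → V) (t : ℕ → V) (n : ℕ) (x : V) :
    ko f t (fun _ => 0) n x = orb f n x := by
  induction n with
  | zero => rfl
  | succ n ih => rw [ko, K_zero, ih]; rfl

/-- The contraction lemma. -/
theorem contract {f : ℕ → V → V} (hf : ∀ n, Cls (f n)) {t : ℕ → V} (ht : ∀ n, ‖t n‖ = 1)
    {e B L ρ : ℝ} (he : 0 < e) (he1 : e < 1) (hB : 1 ≤ B) (hL : 0 ≤ L)
    (hLip : ∀ p q, p ≠ 0 → q ≠ 0 → D (f 0 p) (f 0 q) ≤ L * D p q) {N : ℕ} {x : V} (hx : x ≠ 0)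
    (hav : Avoid f t e B (N + 1) x) (hρ : 8 * B ^ 2 * (L * ρ) ≤ e / 2) {w o : V} (hw0 : w ≠ 0)
    (ho0 : o ≠ 0) (hw : D w x ≤ ρ) (ho : D o x ≤ ρ) :
    D (orb f (N + 1) w) (orb f (N + 1) o) ≤
      (2 * B / e) * (1 - 1 / (2 * B / e)) ^ N * (16 * B ^ 2 * L) * D w o := by
  have hB0 : 0 < B := by linarith
  set f' : ℕ → V → V := fun i => f (i + 1) with hf'
  set t' : ℕ → V := fun i => t (i + 1) with ht'
  have hf1 : ∀ n, Cls (f' n) := fun n => hf (n + 1)
  have ht1 : ∀ n, ‖t' n‖ = 1 := fun n => ht (n + 1)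
  set x₁ : V := f 0 x with hx₁
  have hx₁0 : x₁ ≠ 0 := (hf 0).nz x hx
  have hz : ∀ i : ℕ, ‖(fun _ => (0 : ℂ)) i‖ ≤ e := fun i => by simpa using he.le
  -- the point `x₁`
  have hx1 : ‖ip x₁ (t' 0)‖ ≤ B * ‖cr (t' 0) x₁‖ := by
    have h1 := hav (fun _ => 0) hz 0 (by omega)
    rw [ko, K_zero] at h1
    exact h1
  have hx2 : cr (t' 0) x₁ ≠ 0 := cr_ne_of_avoid (ht1 0) hx₁0 hx1
  have hx3 : ‖x₁‖ ≤ 2 * B * ‖cr (t' 0) x₁‖ := norm_le_of_avoid hB (ht1 0) hx1
  set y₀ : ℂ := co (t' 0) x₁ with hy₀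
  -- the words
  have key : ∀ y ∈ closedBall y₀ e, ∀ a : ℕ → ℂ, (∀ i, ‖a i‖ ≤ e) → ∀ n ≤ N,
      (∀ i < n, cr (t' (i + 1)) (f' i (ch (t' i) (Sg (gm f' t') a i y))) ≠ 0) ∧
      ‖Sg (gm f' t') a n y‖ ≤ B := by
    intro y hy a ha
    rw [mem_closedBall, dist_eq_norm] at hy
    set p : V := K (t' 0) (y - y₀) x₁ with hp
    have hp0 : p ≠ 0 := (near_K (ht1 0) (y - y₀)).ne (by linarith) hx₁0
    have hpcr : cr (t' 0) p = cr (t' 0) x₁ := cr_K _ _ _
    have hpco : co (t' 0) p = y := by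
      rw [co, hpcr, ip_K (ht1 0), hy₀, co]
      field_simp
      ring
    have hko : ∀ n, ko f t (fun i => Nat.casesOn i (y - y₀) a) (n + 1) x = ko f' t' a n p := by
      intro n
      rw [ko_head]
      rfl
    have hav' : ∀ n ≤ N, ‖ip (ko f' t' a n p) (t' n)‖ ≤ B * ‖cr (t' n) (ko f' t' a n p)‖ := by
      intro n hn
      have h1 := hav (fun i => Nat.casesOn i (y - y₀) a) (fun i => by
        cases i with
        | zero => exact hy
        | succ i => exact ha i) n (by omega)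
      rw [hko] at h1
      exact h1
    have hkone : ∀ n, ko f' t' a n p ≠ 0 := ko_ne hf1 ht1 (fun i => (ha i).trans_lt he1) hp0
    have hcrne : ∀ n ≤ N, cr (t' n) (ko f' t' a n p) ≠ 0 := fun n hn =>
      cr_ne_of_avoid (ht1 n) (hkone n) (hav' n hn)
    have hnv : ∀ n ≤ N, ∀ i < n,
        cr (t' (i + 1)) (f' i (ch (t' i) (Sg (gm f' t') a i y))) ≠ 0 := by
      intro n
      induction n with
      | zero => intro _ i hi; exact absurd hi (Nat.not_lt_zero _)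
      | succ n ih =>
        intro hn i hi
        have ih' := ih (by omega)
        rcases Nat.lt_or_ge i n with h1 | h1
        · exact ih' i h1
        · have h2 : i = n := by omega
          rw [h2]
          have h3 := link hf1 ht1 (a := a) (p := p) (by rw [hpcr]; exact hx2) (N := n)
            (by rw [hpco]; exact ih') n le_rfl
          rw [hpco] at h3
          have h4 := hcrne (n + 1) hn
          rw [ko, cr_K] at h4
          obtain ⟨d, hd⟩ := (hf1 n).hom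
          rw [eq_smul_ch (ht1 n) h3.1, h3.2, hd, cr_smul_right] at h4
          exact right_ne_zero_of_mul h4
    intro n hn
    refine ⟨hnv n hn, ?_⟩
    have h3 := link hf1 ht1 (a := a) (p := p) (by rw [hpcr]; exact hx2) (N := n)
      (by rw [hpco]; exact hnv n hn) n le_rfl
    rw [hpco] at h3
    rw [← h3.2, co, norm_div, div_le_iff₀ (norm_pos_iff.2 h3.1)]
    exact hav' n hn
  -- the two points
  have hρ0 : 0 ≤ ρ := (D_nonneg w x).trans hw
  have hpt : ∀ w : V, w ≠ 0 → D w x ≤ ρ → cr (t' 0) (f 0 w) ≠ 0 ∧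
      ‖f 0 w‖ ≤ 4 * B * ‖cr (t' 0) (f 0 w)‖ ∧ co (t' 0) (f 0 w) ∈ closedBall y₀ (e / 2) := by
    intro w hw0 hw
    have hw1 : f 0 w ≠ 0 := (hf 0).nz w hw0
    have hwn : 0 < ‖f 0 w‖ := norm_pos_iff.2 hw1
    have htn : t' 0 ≠ 0 := by
      intro h0
      have := ht1 0
      rw [h0, norm_zero] at this
      exact zero_ne_one this
    have h1 : D (f 0 w) x₁ ≤ L * ρ := (hLip w x hw0 hx).trans (by gcongr)
    have h2 : 1 / (2 * B) ≤ D (t' 0) x₁ := by
      unfold D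
      have hxn : 0 < ‖x₁‖ := norm_pos_iff.2 hx₁0
      rw [ht1, one_mul, div_le_div_iff₀ (by positivity) hxn]
      linarith
    have h3 := D_triangle htn hw1 hx₁0
    have h4 : L * ρ ≤ 1 / (4 * B) := by
      rw [le_div_iff₀ (by positivity)]
      have h5 : L * ρ * (4 * B) ≤ L * ρ * (8 * B ^ 2) := by
        have : 4 * B ≤ 8 * B ^ 2 := by nlinarith
        have : 0 ≤ L * ρ := by positivity
        gcongr
      linarith
    have h5 : 1 / (4 * B) ≤ D (t' 0) (f 0 w) := by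
      have h6 : 1 / (2 * B) = 1 / (4 * B) + 1 / (4 * B) := by field_simp; norm_num
      linarith
    have h6 : ‖f 0 w‖ ≤ 4 * B * ‖cr (t' 0) (f 0 w)‖ := by
      unfold D at h5
      rw [ht1, one_mul, div_le_div_iff₀ (by positivity) hwn] at h5
      linarith
    have h7 : cr (t' 0) (f 0 w) ≠ 0 := by
      intro h0
      rw [h0, norm_zero, mul_zero] at h6
      linarith
    refine ⟨h7, h6, ?_⟩
    rw [mem_closedBall, dist_eq_norm, hy₀]
    refine (co_le_D (ht1 0) h7 hx2 (b := 4 * B) (c := 2 * B) (by positivity) h6 hx3).trans ?_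
    calc 4 * B * (2 * B) * D (f 0 w) x₁ ≤ 4 * B * (2 * B) * (L * ρ) := by gcongr
      _ = 8 * B ^ 2 * (L * ρ) := by ring
      _ ≤ _ := hρ
  obtain ⟨hw1, hw2, hw3⟩ := hpt w hw0 hw
  obtain ⟨ho1, ho2, ho3⟩ := hpt o ho0 ho
  have hpl := planar (g := gm f' t') (y₀ := y₀) (N := N) he hB0
    (fun y hy a ha n hn => (key y hy a ha n hn).2)
    (fun y hy a ha n hn => gm_diff hf1 ((key y hy a ha (n + 1) (by omega)).1 n (by omega)))
    hw3 ho3
  have hball : closedBall y₀ (e / 2) ⊆ closedBall y₀ e := closedBall_subset_closedBall (by linarith)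
  have hend : ∀ w : V, cr (t' 0) (f 0 w) ≠ 0 → co (t' 0) (f 0 w) ∈ closedBall y₀ (e / 2) →
      cr (t' N) (orb f (N + 1) w) ≠ 0 ∧ co (t' N) (orb f (N + 1) w) =
        Sg (gm f' t') (fun _ => 0) N (co (t' 0) (f 0 w)) := by
    intro w hw1 hw3
    have h1 := link hf1 ht1 (a := fun _ => 0) (p := f 0 w) hw1 (N := N)
      (key _ (hball hw3) (fun _ => 0) hz N le_rfl).1 N le_rfl
    rw [ko_zero, ← orb_head] at h1
    exact h1
  obtain ⟨hw4, hw5⟩ := hend w hw1 hw3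
  obtain ⟨ho4, ho5⟩ := hend o ho1 ho3
  have hfac : 0 ≤ (2 * B / e) * (1 - 1 / (2 * B / e)) ^ N := by
    have h1 : 1 ≤ 2 * B / e := by rw [le_div_iff₀ he]; linarith
    have h2 : 0 ≤ 1 - 1 / (2 * B / e) := by
      rw [sub_nonneg, div_le_one (by positivity)]; exact h1
    positivity
  calc D (orb f (N + 1) w) (orb f (N + 1) o)
      ≤ ‖co (t' N) (orb f (N + 1) w) - co (t' N) (orb f (N + 1) o)‖ := D_le_co (ht1 N) hw4 ho4
    _ ≤ (2 * B / e) * (1 - 1 / (2 * B / e)) ^ N *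
        ‖co (t' 0) (f 0 w) - co (t' 0) (f 0 o)‖ := by rw [hw5, ho5]; exact hpl
    _ ≤ (2 * B / e) * (1 - 1 / (2 * B / e)) ^ N * (4 * B * (4 * B) * D (f 0 w) (f 0 o)) := by
        gcongr
        exact co_le_D (ht1 0) hw1 ho1 (by positivity) hw2 ho2
    _ ≤ (2 * B / e) * (1 - 1 / (2 * B / e)) ^ N * (4 * B * (4 * B) * (L * D w o)) := by
        gcongr
        exact hLip w o hw0 ho0
    _ = _ := by ring

end Pool.Agent.R241.RC
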