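import Pool.Agent.R241.NB2
import Mathlib

/-!
# The greedy theorem in a metric space
-/

set_option autoImplicit false

open Filter Topology Set Metric

namespace Pool.Agent.R241.RC

open Pool.Agent.R241.NA (pos wt items greedy2 items_length items_old items_new pos_add wt_add
  pos_congr wt_congr)

variable {Z Ω : Type} [PseudoMetricSpace Z]

/-- A system of maps with local Lipschitz constants. -/
structure Sys (F : ℕ → Ω → Z → Z) (l : ℕ → Ω → Z → ℝ) (ρ : ℝ) : Prop where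
  hρ : 0 < ρ
  l0 : ∀ k ω x, 0 < l k ω x
  pair : ∀ k ω x w o, dist w x ≤ ρ → dist o x ≤ ρ →
    dist (F k ω w) (F k ω o) ≤ l k ω x * dist w o

variable {F : ℕ → Ω → Z → Z} {l G : ℕ → Ω → Z → ℝ} {ρ : ℝ} {E : ℕ → Ω → List Z}

theorem wt_pos' (hS : Sys F l ρ) (ω : ℕ → Ω) (K j : ℕ) (y : Z) : 0 < wt F l ω K j y := by
  induction j with
  | zero => simp [wt]
  | succ j ih => rw [wt]; exact mul_pos ih (hS.l0 _ _ _)

theorem track (hS : Sys F l ρ) {ω : ℕ → Ω} {K : ℕ} {z w o : Z} (n : ℕ)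
    (hw : ∀ j ≤ n, wt F l ω K j z * dist w z ≤ ρ) (ho : ∀ j ≤ n, wt F l ω K j z * dist o z ≤ ρ) :
    dist (pos F ω K n w) (pos F ω K n o) ≤ wt F l ω K n z * dist w o := by
  have one : ∀ x : Z, (∀ j ≤ n, wt F l ω K j z * dist x z ≤ ρ) → ∀ j ≤ n,
      dist (pos F ω K j x) (pos F ω K j z) ≤ wt F l ω K j z * dist x z := by
    intro x hx j
    induction j with
    | zero => intro _; simp [pos, wt]
    | succ j ih =>
      intro hj
      have h1 := ih (by omega)
      have h4 := hS.pair (K + j) (ω (K + j)) (pos F ω K j z) (pos F ω K j x) (pos F ω K j z)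
        (h1.trans (hx j (by omega))) (by rw [dist_self]; exact hS.hρ.le)
      have h5 := hS.l0 (K + j) (ω (K + j)) (pos F ω K j z)
      rw [pos, pos, wt]
      refine h4.trans ?_
      calc _ ≤ l (K + j) (ω (K + j)) (pos F ω K j z) * (wt F l ω K j z * dist x z) := by gcongr
        _ = _ := by ring
  have two : ∀ j ≤ n, dist (pos F ω K j w) (pos F ω K j o) ≤ wt F l ω K j z * dist w o := by
    intro j
    induction j with
    | zero => intro _; simp [pos, wt]
    | succ j ih =>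
      intro hj
      have h1 := ih (by omega)
      have h4 := hS.pair (K + j) (ω (K + j)) (pos F ω K j z) (pos F ω K j w) (pos F ω K j o)
        ((one w hw j (by omega)).trans (hw j (by omega)))
        ((one o ho j (by omega)).trans (ho j (by omega)))
      have h5 := hS.l0 (K + j) (ω (K + j)) (pos F ω K j z)
      rw [pos, pos, wt]
      refine h4.trans ?_
      calc _ ≤ l (K + j) (ω (K + j)) (pos F ω K j z) * (wt F l ω K j z * dist w o) := by gcongr
        _ = _ := by ring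
  exact two n le_rfl

/-- Choosing one representative for each label. -/
theorem reps [Inhabited Z] {Λ' : Type} (s : Finset Λ') (P : Z → Λ' → Prop) (f : Z → Z) {r : ℝ}
    (hP : ∀ l ∈ s, ∀ z z', P z l → P z' l → dist (f z) (f z') ≤ r) :
    ∃ L : List Z, L.length ≤ s.card ∧ ∀ z, (∃ l ∈ s, P z l) → ∃ z' ∈ L, dist (f z) z' ≤ r := by
  classical
  refine ⟨s.toList.map fun l => if h : ∃ z, P z l then f h.choose else default, ?_, ?_⟩
  · rw [List.length_map, Finset.length_toList]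
  · rintro z ⟨l, hl, hz⟩
    have h : ∃ z, P z l := ⟨z, hz⟩
    refine ⟨f h.choose, ?_, hP l hl z _ hz h.choose_spec⟩
    refine List.mem_map.2 ⟨l, Finset.mem_toList.2 hl, ?_⟩
    rw [dif_pos h]

/-- What is achieved in the window of length `T` starting at the block time `K`. -/
structure Win (F : ℕ → Ω → Z → Z) (l : ℕ → Ω → Z → ℝ) (ρ : ℝ) (E : ℕ → Ω → List Z) (T : ℕ)
    (C₂ r' : ℝ) (K : ℕ) (Z₀ Z' : List Z) (ω : ℕ → Ω) : Prop where
  itm : ∀ t ≤ T, ∀ z ∈ items F E K Z₀ ω t, ∀ j, t + j ≤ T → wt F l ω (K + t) j z ≤ C₂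
  merge : ∀ z ∈ Z₀, wt F l ω K T z ≤ r' ∧ ∃ z' ∈ Z', dist (pos F ω K T z) z' ≤ r' * ρ
  birth : ∀ t < T, ∀ y ∈ E (K + t) (ω (K + t)),
    pos F ω (K + (t + 1)) (T - (t + 1)) y ∈ Z'

theorem window [Fintype Ω] [Inhabited Z] (hS : Sys F l ρ) {μ : Ω → ℝ} (hμ0 : ∀ ω, 0 ≤ μ ω)
    (hμ1 : ∑ ω, μ ω = 1) {β γ s v : ℝ} (hγ : 1 ≤ γ) (hs : 0 < s) (hv : 0 < v)
    (hβ0 : 0 ≤ β) (hβ1 : β < 1) (hG0 : ∀ k ω z, 0 ≤ G k ω z)
    (hG : ∀ k z, ∑ ω, μ ω * G k ω z ≤ β)
    (hT : ∀ (ω : ℕ → Ω) (K n : ℕ) (x : Z), v * γ ^ n * (wt F l ω K n x) ^ s ≤ wt F G ω K n x)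
    {b₀ : ℕ} (hE : ∀ k ω, (E k ω).length ≤ b₀)
    (D : Finset Z) (hD : ∀ a : Z, ∃ a' ∈ D, dist a a' ≤ ρ / 2)
    (T N : ℕ) (hN : N = T * D.card + b₀ * T) {C₁ C₂ r' : ℝ}
    (hC₁ : C₁ = ((N : ℝ) + (b₀ : ℝ) * T) / (1 - β) / v)
    (hC₂ : C₂ = C₁ ^ (1 / s)) (hr' : r' = (C₁ / γ ^ T) ^ (1 / s)) (hr1 : r' < 1)
    (K : ℕ) (Z₀ : List Z) (hZ : Z₀.length ≤ N) :
    ∃ ω : ℕ → Ω, ∃ Z' : List Z, Z'.length ≤ N ∧ Win F l ρ E T C₂ r' K Z₀ Z' ω := by
  have hγ0 : 0 < γ := by linarith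
  obtain ⟨ω, hω⟩ := greedy2 (μ := μ) hμ0 hμ1 F G hG0 hβ0 hβ1 hG E K T Z₀ hZ hE
  have hC₁0 : 0 ≤ C₁ := by
    rw [hC₁]
    have : 0 < 1 - β := by linarith
    positivity
  -- the bounds for the items
  have hitem : ∀ t ≤ T, ∀ y ∈ items F E K Z₀ ω t, ∀ j,
      wt F l ω (K + t) j y ≤ (C₁ / γ ^ j) ^ (1 / s) := by
    intro t ht y hy j
    have h1 := (hT ω (K + t) j y).trans (hω t ht y hy j)
    have h2 := (wt_pos' hS ω (K + t) j y)
    set W := wt F l ω (K + t) j y with hW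
    have h4 : W ^ s ≤ C₁ / γ ^ j := by
      rw [hC₁, le_div_iff₀ (by positivity), le_div_iff₀ hv]
      linarith
    calc W = (W ^ s) ^ (1 / s) := by
          rw [← Real.rpow_mul h2.le, mul_one_div, div_self hs.ne', Real.rpow_one]
      _ ≤ _ := Real.rpow_le_rpow (by positivity) h4 (by positivity)
  have hbd : ∀ j, (C₁ / γ ^ j) ^ (1 / s) ≤ C₂ := by
    intro j
    rw [hC₂]
    refine Real.rpow_le_rpow (by positivity) ?_ (by positivity)
    exact div_le_self hC₁0 (one_le_pow₀ hγ)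
  -- the labels
  let P : Z → ℕ × Z → Prop := fun z ka =>
    (∀ j ≤ T - ka.1, wt F l ω (K + ka.1) j (pos F ω K ka.1 z) ≤ 1) ∧
    wt F l ω (K + ka.1) (T - ka.1) (pos F ω K ka.1 z) ≤ r' ∧ dist (pos F ω K ka.1 z) ka.2 ≤ ρ / 2
  have hP : ∀ l ∈ (Finset.range T) ×ˢ D, ∀ z z', P z l → P z' l →
      dist (pos F ω K T z) (pos F ω K T z') ≤ r' * ρ := by
    rintro ⟨k₀, a⟩ hl z z' ⟨h2, h3, h4⟩ ⟨h2', h3', h4'⟩
    simp only at h2 h3 h4 h2' h3' h4'
    rw [Finset.mem_product, Finset.mem_range] at hl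
    have hk₀ : k₀ < T := hl.1
    have e1 : ∀ x, pos F ω K T x = pos F ω (K + k₀) (T - k₀) (pos F ω K k₀ x) := by
      intro x
      rw [← pos_add]
      congr 1
      omega
    rw [e1, e1]
    have h5 : dist (pos F ω K k₀ z) (pos F ω K k₀ z') ≤ ρ := by
      have h6 := dist_triangle_right (pos F ω K k₀ z) (pos F ω K k₀ z') a
      linarith
    have h7 := track hS (ω := ω) (K := K + k₀)
      (z := pos F ω K k₀ z') (w := pos F ω K k₀ z) (o := pos F ω K k₀ z') (T - k₀)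
      (fun l hl => by
        have h8 := h2' l hl
        calc _ ≤ 1 * ρ := by gcongr
          _ = ρ := one_mul _)
      (fun l hl => by
        rw [dist_self, mul_zero]
        exact hS.hρ.le)
    refine h7.trans ?_
    gcongr
    exact (wt_pos' hS ω _ _ _).le.trans h3'
  obtain ⟨L, hL1, hL2⟩ := reps ((Finset.range T) ×ˢ D) P (fun z => pos F ω K T z) hP
  rw [Finset.card_product, Finset.card_range] at hL1
  refine ⟨ω, L ++ items F E K [] ω T, ?_, ?_, ?_, ?_⟩
  · rw [List.length_append, hN]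
    have h1 := items_length (F := F) (K := K) (ω := ω) (Z₀ := []) (N := 0) (b := b₀)
      (le_of_eq List.length_nil) hE T
    omega
  · intro t ht z hz j _
    exact (hitem t ht _ hz j).trans (hbd j)
  · intro z hz
    have h0 : wt F l ω K T z ≤ r' := by
      rw [hr']
      exact hitem 0 (by omega) z hz T
    refine ⟨h0, ?_⟩
    -- find the label
    obtain ⟨k₀, hk₀, hmax⟩ := Finset.exists_max_image (Finset.range (T + 1))
      (fun j => wt F l ω K j z) ⟨0, Finset.mem_range.2 (by omega)⟩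
    rw [Finset.mem_range] at hk₀
    have hmax' : ∀ j ≤ T, wt F l ω K j z ≤ wt F l ω K k₀ z := fun j hj =>
      hmax j (Finset.mem_range.2 (by omega))
    have hone : 1 ≤ wt F l ω K k₀ z := hmax' 0 (by omega)
    have hk₀' : k₀ < T := by
      rcases Nat.lt_or_ge k₀ T with h | h
      · exact h
      · exfalso
        have : k₀ = T := by omega
        rw [this] at hone
        linarith
    have hpos : 0 < wt F l ω K k₀ z := by linarith
    obtain ⟨a, ha, ha2⟩ := hD (pos F ω K k₀ z)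
    obtain ⟨z', hz', h5⟩ := hL2 z ⟨(k₀, a), by
        rw [Finset.mem_product, Finset.mem_range]; exact ⟨hk₀', ha⟩, fun j hj => by
        have h6 := wt_add F l ω K k₀ j z
        have h7 := hmax' (k₀ + j) (by simp only at hj; omega)
        rw [h6] at h7
        by_contra hcon
        push Not at hcon
        nlinarith, by
        have h6 := wt_add F l ω K k₀ (T - k₀) z
        rw [show k₀ + (T - k₀) = T by omega] at h6
        rw [h6] at h0
        have h8 := wt_pos' hS ω (K + k₀) (T - k₀) (pos F ω K k₀ z)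
        simp only
        nlinarith, ha2⟩
    exact ⟨z', List.mem_append_left _ hz', h5⟩
  · intro t ht y hy
    have h1 := items_new (F := F) (E := E) (K := K) (Z₀ := []) (ω := ω) (t := t) hy (T - (t + 1))
    rw [show t + 1 + (T - (t + 1)) = T by omega] at h1
    exact List.mem_append_right _ h1

omit [PseudoMetricSpace Z] in
theorem items_congr {K : ℕ} {Z₀ : List Z} {ω ω' : ℕ → Ω} {t : ℕ}
    (h : ∀ k, K ≤ k → k < K + t → ω k = ω' k) : items F E K Z₀ ω t = items F E K Z₀ ω' t := by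
  induction t with
  | zero => rfl
  | succ t ih =>
    rw [items, items, ih (fun k h1 h2 => h k h1 (by omega)), h (K + t) (by omega) (by omega)]

theorem Win.congr {T : ℕ} {C₂ r' : ℝ} {K : ℕ} {Z₀ Z' : List Z} {ω ω' : ℕ → Ω}
    (h : Win F l ρ E T C₂ r' K Z₀ Z' ω) (hω : ∀ k, K ≤ k → k < K + T → ω k = ω' k) :
    Win F l ρ E T C₂ r' K Z₀ Z' ω' := by
  obtain ⟨h1, h3, h4⟩ := h
  have hp : ∀ a n, K ≤ a → a + n ≤ K + T → ∀ z, pos F ω' a n z = pos F ω a n z :=
    fun a n ha hn z => (pos_congr (fun k hk1 hk2 => hω k (by omega) (by omega)) z).symm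
  have hw : ∀ a n, K ≤ a → a + n ≤ K + T → ∀ z, wt F l ω' a n z = wt F l ω a n z :=
    fun a n ha hn z => (wt_congr (fun k hk1 hk2 => hω k (by omega) (by omega)) z).symm
  refine ⟨?_, ?_, ?_⟩
  · intro t ht z hz j htj
    rw [hw (K + t) j (by omega) (by omega)]
    refine h1 t ht z ?_ j htj
    rw [items_congr (fun k hk1 hk2 => hω k hk1 (by omega))]
    exact hz
  · intro z hz
    rw [hw K T le_rfl le_rfl, hp K T le_rfl le_rfl]
    exact h3 z hz
  · intro t ht y hy
    rw [← hω (K + t) (by omega) (by omega)] at hy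
    rw [hp (K + (t + 1)) (T - (t + 1)) (by omega) (by omega)]
    exact h4 t ht y hy

theorem glue {T : ℕ} (hT : 0 < T) {C₂ r' : ℝ} {N : ℕ}
    (h : ∀ (K : ℕ) (Z₀ : List Z), Z₀.length ≤ N → ∃ ω : ℕ → Ω,
      ∃ Z' : List Z, Z'.length ≤ N ∧ Win F l ρ E T C₂ r' K Z₀ Z' ω) :
    ∃ (ω : ℕ → Ω) (Zs : ℕ → List Z),
      ∀ i, Win F l ρ E T C₂ r' (i * T) (Zs i) (Zs (i + 1)) ω := by
  choose om nx hnx hwin using h
  let st : ℕ → {Z₀ : List Z // Z₀.length ≤ N} := fun n => Nat.rec ⟨[], by simp⟩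
    (fun i Z => ⟨nx (i * T) Z.1 Z.2, hnx (i * T) Z.1 Z.2⟩) n
  have hst : ∀ i, (st (i + 1)).1 = nx (i * T) (st i).1 (st i).2 := fun i => rfl
  refine ⟨fun k => om (k / T * T) (st (k / T)).1 (st (k / T)).2 k, fun i => (st i).1,
    fun i => ?_⟩
  simp only
  rw [hst]
  refine (hwin (i * T) (st i).1 (st i).2).congr fun k hk1 hk2 => ?_
  have h1 : k / T = i := by
    rw [Nat.div_eq_iff hT]
    constructor
    · exact hk1
    · have : i * T + T = i * T + (T - 1) + 1 := by omega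
      omega
  simp only [h1]

section

variable {ω : ℕ → Ω} {Zs : ℕ → List Z} {T : ℕ} {C₂ r' θ : ℝ}

theorem step_start (hS : Sys F l ρ) (hC₂ : 1 ≤ C₂) (hr0 : 0 ≤ r') (hr : 4 * C₂ ^ 2 * r' ≤ 1)
    (hwin : ∀ i, Win F l ρ E T C₂ r' (i * T) (Zs i) (Zs (i + 1)) ω) {i : ℕ} {y : Z}
    (hy : ∃ z ∈ Zs i, dist y z ≤ 2 * r' * ρ) :
    (∃ z ∈ Zs (i + 1), dist (pos F ω (i * T) T y) z ≤ 2 * r' * ρ) ∧
    (∀ w, dist w y ≤ ρ / (2 * C₂) →
      dist (pos F ω (i * T) T w) (pos F ω (i * T) T y) ≤ r' * dist w y ∧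
      ∀ j ≤ T, dist (pos F ω (i * T) j w) (pos F ω (i * T) j y) ≤ C₂ * dist w y) ∧
    ∀ t ≤ T, ∃ x ∈ items F E (i * T) (Zs i) ω t,
      dist (pos F ω (i * T) t y) x ≤ C₂ * (2 * r' * ρ) := by
  obtain ⟨z, hz, hyz⟩ := hy
  have hρ := hS.hρ
  have h0 : ∀ j ≤ T, wt F l ω (i * T) j z ≤ C₂ := fun j hj =>
    (hwin i).itm 0 (by omega) z hz j (by omega)
  obtain ⟨h1, z', hz', h2⟩ := (hwin i).merge z hz
  have hr1 : 4 * C₂ * r' ≤ 1 := by
    have : 4 * C₂ * r' ≤ 4 * C₂ ^ 2 * r' := by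
      have : C₂ ≤ C₂ ^ 2 := by nlinarith
      gcongr
    linarith
  have hr2 : 4 * r' ≤ 1 := by nlinarith
  have hregy : ∀ j ≤ T, wt F l ω (i * T) j z * dist y z ≤ ρ / 2 := by
    intro j hj
    calc wt F l ω (i * T) j z * dist y z ≤ C₂ * (2 * r' * ρ) := by
          have := h0 j hj
          gcongr
      _ = (4 * C₂ * r') * (ρ / 2) := by ring
      _ ≤ 1 * (ρ / 2) := by gcongr
      _ = ρ / 2 := one_mul _
  have hregz : ∀ j ≤ T, wt F l ω (i * T) j z * dist z z ≤ ρ := by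
    intro j hj; rw [dist_self, mul_zero]; exact hρ.le
  refine ⟨⟨z', hz', ?_⟩, ?_, ?_⟩
  · have t2 := track hS (ω := ω) (K := i * T) (z := z) (w := y) (o := z) T
      (fun j hj => (hregy j hj).trans (by linarith)) hregz
    have h3 := dist_triangle (pos F ω (i * T) T y) (pos F ω (i * T) T z) z'
    have h4 : wt F l ω (i * T) T z * dist y z ≤ r' * ρ := by
      have : dist y z ≤ ρ := by nlinarith
      have := (wt_pos' hS ω (i * T) T z).le
      gcongr
    linarith
  · intro w hw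
    have hregw : ∀ j ≤ T, wt F l ω (i * T) j z * dist w z ≤ ρ := by
      intro j hj
      have h3 := dist_triangle w y z
      have h4 := h0 j hj
      have h5 := (wt_pos' hS ω (i * T) j z).le
      have h6 : wt F l ω (i * T) j z * dist w y ≤ ρ / 2 := by
        calc wt F l ω (i * T) j z * dist w y ≤ C₂ * (ρ / (2 * C₂)) := by gcongr
          _ = ρ / 2 := by field_simp
      have h7 := hregy j hj
      nlinarith
    have t1 : ∀ j ≤ T, dist (pos F ω (i * T) j w) (pos F ω (i * T) j y) ≤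
        wt F l ω (i * T) j z * dist w y := fun j hj =>
      track hS (ω := ω) (K := i * T) (z := z) (w := w) (o := y) j
        (fun j' hj' => hregw j' (by omega)) (fun j' hj' => (hregy j' (by omega)).trans (by linarith))
    refine ⟨(t1 T le_rfl).trans (by gcongr), fun j hj => (t1 j hj).trans ?_⟩
    have := h0 j hj
    gcongr
  · intro t ht
    refine ⟨pos F ω (i * T) t z, items_old hz t, ?_⟩
    have t2 := track hS (ω := ω) (K := i * T) (z := z) (w := y) (o := z) t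
      (fun j hj => (hregy j (by omega)).trans (by linarith)) (fun j hj => hregz j (by omega))
    refine t2.trans ?_
    have := h0 t ht
    gcongr

/-- All births are represented at the beginnings of the windows. -/
theorem birth_rep (hS : Sys F l ρ) (hT : 0 < T) (hC₂ : 1 ≤ C₂) (hr0 : 0 ≤ r')
    (hr : 4 * C₂ ^ 2 * r' ≤ 1)
    (hwin : ∀ i, Win F l ρ E T C₂ r' (i * T) (Zs i) (Zs (i + 1)) ω) {k : ℕ} {y : Z}
    (hy : y ∈ E k (ω k)) (i : ℕ) (hi : k < i * T) :
    ∃ z ∈ Zs i, dist (pos F ω (k + 1) (i * T - (k + 1)) y) z ≤ 2 * r' * ρ := by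
  have hρ := hS.hρ
  induction i with
  | zero => omega
  | succ i ih =>
    rcases Nat.lt_or_ge k (i * T) with h | h
    · obtain ⟨⟨z, hz, h1⟩, -, -⟩ := step_start hS hC₂ hr0 hr hwin (ih h)
      refine ⟨z, hz, ?_⟩
      have h2 : (i + 1) * T - (k + 1) = (i * T - (k + 1)) + T := by
        rw [Nat.succ_mul]; omega
      rw [h2, pos_add, show k + 1 + (i * T - (k + 1)) = i * T by omega]
      exact h1
    · obtain ⟨t, ht⟩ := Nat.exists_eq_add_of_le h
      have htT : t < T := by rw [Nat.succ_mul] at hi; omega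
      subst ht
      have h1 := (hwin i).birth t htT y hy
      refine ⟨_, h1, ?_⟩
      have h2 : (i + 1) * T - (i * T + t + 1) = T - (t + 1) := by
        rw [Nat.succ_mul]; omega
      rw [h2, Nat.add_assoc, dist_self]
      positivity

theorem from_start (hS : Sys F l ρ) (hC₂ : 1 ≤ C₂) (hr0 : 0 ≤ r')
    (hr : 4 * C₂ ^ 2 * r' ≤ 1) (hθ0 : 0 < θ) (hθ1 : θ ≤ 1) (hQ : θ ^ T = 1 / 2)
    (hwin : ∀ i, Win F l ρ E T C₂ r' (i * T) (Zs i) (Zs (i + 1)) ω) (N : ℕ) :
    ∀ (i : ℕ) (y w : Z), (∃ z ∈ Zs i, dist y z ≤ 2 * r' * ρ) → dist w y ≤ ρ / (2 * C₂) →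
      dist (pos F ω (i * T) N w) (pos F ω (i * T) N y) ≤ 2 * C₂ * θ ^ N * dist w y := by
  have hT : 0 < T := by
    rcases Nat.eq_zero_or_pos T with h | h
    · rw [h, pow_zero] at hQ; norm_num at hQ
    · exact h
  have hr2 : 2 * r' ≤ 1 := by
    have : 4 * 1 * r' ≤ 4 * C₂ ^ 2 * r' := by
      have : 1 ≤ C₂ ^ 2 := one_le_pow₀ hC₂
      gcongr
    linarith
  induction N using Nat.strong_induction_on with
  | _ N ih =>
    intro i y w hy hw
    obtain ⟨h1, h2, -⟩ := step_start hS hC₂ hr0 hr hwin hy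
    obtain ⟨h3, h4⟩ := h2 w hw
    have hd : 0 ≤ dist w y := dist_nonneg
    rcases Nat.lt_or_ge N T with hN | hN
    · refine (h4 N hN.le).trans ?_
      have h5 : 1 / 2 ≤ θ ^ N := by
        rw [← hQ]
        exact pow_le_pow_of_le_one hθ0.le hθ1 hN.le
      have h6 : C₂ ≤ 2 * C₂ * θ ^ N := by nlinarith
      gcongr
    · obtain ⟨M, rfl⟩ := Nat.exists_eq_add_of_le hN
      rw [pos_add, pos_add, show i * T + T = (i + 1) * T by ring]
      have h5 : dist (pos F ω (i * T) T w) (pos F ω (i * T) T y) ≤ ρ / (2 * C₂) := by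
        refine h3.trans ?_
        have : r' * dist w y ≤ 1 * dist w y := by
          have : r' ≤ 1 := by linarith
          gcongr
        linarith
      have h6 := ih M (by omega) (i + 1) _ _ h1 h5
      refine h6.trans ?_
      calc 2 * C₂ * θ ^ M * dist (pos F ω (i * T) T w) (pos F ω (i * T) T y)
          ≤ 2 * C₂ * θ ^ M * (r' * dist w y) := by gcongr
        _ ≤ 2 * C₂ * θ ^ M * (1 / 2 * dist w y) := by
            have : r' ≤ 1 / 2 := by linarith
            gcongr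
        _ = 2 * C₂ * θ ^ (T + M) * dist w y := by rw [pow_add, hQ]; ring

/-- From any time on. -/
theorem from_any (hS : Sys F l ρ) (hC₂ : 1 ≤ C₂) (hr0 : 0 ≤ r')
    (hr : 4 * C₂ ^ 2 * r' ≤ 1) (hθ0 : 0 < θ) (hθ1 : θ ≤ 1) (hQ : θ ^ T = 1 / 2)
    (hwin : ∀ i, Win F l ρ E T C₂ r' (i * T) (Zs i) (Zs (i + 1)) ω) {k : ℕ} {y : Z}
    (hy : y ∈ E k (ω k)) (m : ℕ) {w : Z} (hw : dist w (pos F ω (k + 1) m y) ≤ ρ / (2 * C₂ ^ 2))
    (N : ℕ) :
    dist (pos F ω (k + 1 + m) N w) (pos F ω (k + 1) (m + N) y) ≤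
      4 * C₂ ^ 2 * θ ^ N * dist w (pos F ω (k + 1) m y) := by
  have hT : 0 < T := by
    rcases Nat.eq_zero_or_pos T with h | h
    · rw [h, pow_zero] at hQ; norm_num at hQ
    · exact h
  have hρ := hS.hρ
  have hC0 : 0 < C₂ := by linarith
  rw [pos_add]
  set x := pos F ω (k + 1) m y with hx
  set n := k + 1 + m with hn
  set i := n / T with hi
  set t := n % T with ht
  have hnt : i * T + t = n := by rw [Nat.mul_comm]; exact Nat.div_add_mod n T
  have htT : t < T := Nat.mod_lt n hT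
  -- the two facts about the point `x`
  have h1 : (∃ u ∈ items F E (i * T) (Zs i) ω t, dist x u ≤ C₂ * (2 * r' * ρ)) ∧
      ∃ z ∈ Zs (i + 1), dist (pos F ω n (T - t) x) z ≤ 2 * r' * ρ := by
    have hend : pos F ω n (T - t) x = pos F ω (k + 1) ((i + 1) * T - (k + 1)) y := by
      rw [hx, hn, ← pos_add]
      congr 1
      rw [Nat.succ_mul]
      omega
    have hki : k < (i + 1) * T := by rw [Nat.succ_mul]; omega
    refine ⟨?_, by rw [hend]; exact birth_rep hS hT hC₂ hr0 hr hwin hy (i + 1) hki⟩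
    rcases Nat.lt_or_ge k (i * T) with h | h
    · obtain ⟨-, -, h3⟩ := step_start hS hC₂ hr0 hr hwin
        (birth_rep hS hT hC₂ hr0 hr hwin hy i h)
      obtain ⟨u, hu, h4⟩ := h3 t htT.le
      refine ⟨u, hu, ?_⟩
      have h5 : x = pos F ω (i * T) t (pos F ω (k + 1) (i * T - (k + 1)) y) := by
        have h6 := pos_add F ω (k + 1) (i * T - (k + 1)) t y
        rw [show k + 1 + (i * T - (k + 1)) = i * T by omega,
          show i * T - (k + 1) + t = m by omega] at h6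
        rw [hx, h6]
      rw [h5]; exact h4
    · obtain ⟨t', ht'⟩ := Nat.exists_eq_add_of_le h
      rw [ht'] at hy
      have h3 := items_new (F := F) (E := E) (K := i * T) (Z₀ := Zs i) (ω := ω) (t := t') hy m
      rw [show t' + 1 + m = t by omega] at h3
      refine ⟨_, h3, ?_⟩
      have h5 : x = pos F ω (i * T + (t' + 1)) m y := by
        rw [hx, ht', Nat.add_assoc]
      rw [← h5, dist_self]
      positivity
  obtain ⟨⟨u, hu, hxu⟩, hend⟩ := h1
  have h0 : ∀ j ≤ T - t, wt F l ω n j u ≤ C₂ := by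
    intro j hj
    rw [← hnt]
    exact (hwin i).itm t htT.le u hu j (by omega)
  have hregx : ∀ j ≤ T - t, wt F l ω n j u * dist x u ≤ ρ / 2 := by
    intro j hj
    calc wt F l ω n j u * dist x u ≤ C₂ * (C₂ * (2 * r' * ρ)) := by
          have := h0 j hj
          gcongr
      _ = (4 * C₂ ^ 2 * r') * (ρ / 2) := by ring
      _ ≤ 1 * (ρ / 2) := by gcongr
      _ = ρ / 2 := one_mul _
  have hregw : ∀ j ≤ T - t, wt F l ω n j u * dist w u ≤ ρ := by
    intro j hj
    have h3 := dist_triangle w x u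
    have h4 := h0 j hj
    have h5 := (wt_pos' hS ω n j u).le
    have h6 : wt F l ω n j u * dist w x ≤ ρ / 2 := by
      calc wt F l ω n j u * dist w x ≤ C₂ * (ρ / (2 * C₂ ^ 2)) := by gcongr
        _ = ρ / 2 / C₂ := by field_simp
        _ ≤ ρ / 2 := div_le_self (by positivity) hC₂
    have h7 := hregx j hj
    nlinarith
  have t1 : ∀ j ≤ T - t, dist (pos F ω n j w) (pos F ω n j x) ≤ C₂ * dist w x := by
    intro j hj
    refine (track hS (ω := ω) (K := n) (z := u) (w := w) (o := x) j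
      (fun j' hj' => hregw j' (by omega))
      (fun j' hj' => (hregx j' (by omega)).trans (by linarith))).trans ?_
    have := h0 j hj
    gcongr
  have hhalf : ∀ j ≤ T, 1 / 2 ≤ θ ^ j := by
    intro j hj
    rw [← hQ]
    exact pow_le_pow_of_le_one hθ0.le hθ1 hj
  have hd : 0 ≤ dist w x := dist_nonneg
  rcases Nat.le_total N (T - t) with hN | hN
  · refine (t1 N hN).trans ?_
    have h5 := hhalf N (by omega)
    have h6 : C₂ ≤ 4 * C₂ ^ 2 * θ ^ N := by
      have h7 : C₂ ≤ C₂ ^ 2 := by nlinarith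
      have h8 : 0 < C₂ ^ 2 := by positivity
      nlinarith
    gcongr
  · obtain ⟨M, rfl⟩ := Nat.exists_eq_add_of_le hN
    rw [pos_add, pos_add, show n + (T - t) = (i + 1) * T by rw [Nat.succ_mul]; omega]
    have h5 : dist (pos F ω n (T - t) w) (pos F ω n (T - t) x) ≤ ρ / (2 * C₂) := by
      refine (t1 (T - t) le_rfl).trans ?_
      calc C₂ * dist w x ≤ C₂ * (ρ / (2 * C₂ ^ 2)) := by gcongr
        _ = _ := by field_simp
    have h6 := from_start hS hC₂ hr0 hr hθ0 hθ1 hQ hwin M (i + 1) _ _ hend h5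
    refine h6.trans ?_
    have h7 := hhalf (T - t) (by omega)
    calc 2 * C₂ * θ ^ M * dist (pos F ω n (T - t) w) (pos F ω n (T - t) x)
        ≤ 2 * C₂ * θ ^ M * (C₂ * dist w x) := by
          gcongr
          exact t1 (T - t) le_rfl
      _ = 4 * C₂ ^ 2 * (1 / 2 * θ ^ M) * dist w x := by ring
      _ ≤ 4 * C₂ ^ 2 * (θ ^ (T - t) * θ ^ M) * dist w x := by gcongr
      _ = _ := by rw [← pow_add]

end

end Pool.Agent.R241.RC
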