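import Pool.Agent.R241.NB7
import Pool.Agent.R241.RC4

/-!
# The greedy theorem in a metric space: choice of the constants
-/

set_option autoImplicit false

open Filter Topology Set Metric

namespace Pool.Agent.R241.RC

open Pool.Agent.R241.NA (pos wt exists_theta choose_T rad_consts)

theorem greedy_stable {Z : Type} [PseudoMetricSpace Z] [Inhabited Z] {ρ : ℝ}
    (hnet : ∃ D : Finset Z, ∀ a : Z, ∃ a' ∈ D, dist a a' ≤ ρ / 2) (hρ : 0 < ρ)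
    {β γ s v : ℝ} (hγ : 1 < γ) (hs : 0 < s) (hv : 0 < v) (hv1 : v ≤ 1)
    (hβ0 : 0 ≤ β) (hβ1 : β < 1) {b₀ : ℕ} (hb₀ : 1 ≤ b₀) :
    ∃ δ C θ : ℝ, 0 < δ ∧ 0 < C ∧ 0 < θ ∧ θ < 1 ∧
      ∀ (Ω : Type) (_ : Fintype Ω) (μ : Ω → ℝ) (F : ℕ → Ω → Z → Z) (l G : ℕ → Ω → Z → ℝ)
        (E : ℕ → Ω → List Z), Sys F l ρ → (∀ ω, 0 ≤ μ ω) → (∑ ω, μ ω = 1) →
        (∀ k ω z, 0 ≤ G k ω z) → (∀ k z, ∑ ω, μ ω * G k ω z ≤ β) →
        (∀ (ω : ℕ → Ω) (K n : ℕ) (x : Z), v * γ ^ n * (wt F l ω K n x) ^ s ≤ wt F G ω K n x) →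
        (∀ k ω, (E k ω).length ≤ b₀) →
        ∃ ω : ℕ → Ω, ∀ (k : ℕ) (y : Z), y ∈ E k (ω k) → ∀ (m : ℕ) (w : Z),
          dist w (pos F ω (k + 1) m y) ≤ δ → ∀ N : ℕ,
          dist (pos F ω (k + 1 + m) N w) (pos F ω (k + 1) (m + N) y) ≤
            C * θ ^ N * dist w (pos F ω (k + 1) m y) := by
  obtain ⟨D, hD⟩ := hnet
  have h1β : 0 < 1 - β := by linarith
  set aa : ℝ := ((D.card : ℝ) + 2 * (b₀ : ℝ)) / (1 - β) / v with haa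
  obtain ⟨T, hT, hTs⟩ := choose_T (aa := aa) (γ := γ) (s := s) hγ
  set N : ℕ := T * D.card + b₀ * T with hN
  set C₁ : ℝ := ((N : ℝ) + (b₀ : ℝ) * T) / (1 - β) / v with hC₁
  have hC₁eq : C₁ = T * aa := by
    rw [hC₁, haa, hN]
    push_cast
    ring
  have hC₁1 : 1 ≤ C₁ := by
    rw [hC₁, le_div_iff₀ hv, le_div_iff₀ h1β]
    have h1 : (1 : ℝ) ≤ (b₀ : ℝ) * T := by
      have : 1 ≤ b₀ * T := Nat.mul_pos (by omega) hT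
      exact_mod_cast this
    have h2 : (0 : ℝ) ≤ N := Nat.cast_nonneg _
    nlinarith
  have hC₁0 : 0 < C₁ := by linarith
  have hγ0 : 0 < γ := by linarith
  rw [← hC₁eq] at hTs
  obtain ⟨hC₂1, hr'0, hcond, hr'1⟩ := rad_consts hC₁1 hγ hs T hTs
  obtain ⟨θ, hθ1, hθ2, hθ3⟩ := exists_theta hT
  set C₂ : ℝ := C₁ ^ (1 / s) with hC₂
  set r' : ℝ := (C₁ / γ ^ T) ^ (1 / s) with hr'
  refine ⟨ρ / (2 * C₂ ^ 2), 4 * C₂ ^ 2, θ, by positivity, by positivity, by linarith, hθ2, ?_⟩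
  intro Ω _ μ F l G E hS hμ0 hμ1 hG0 hG hTl hE
  obtain ⟨ω, Zs, hwin⟩ := glue (T := T) hT (N := N) fun K Z₀ hZ =>
    window hS hμ0 hμ1 hγ.le hs hv hβ0 hβ1 hG0 hG hTl hE D hD T N hN hC₁ hC₂ hr' hr'1 K Z₀ hZ
  refine ⟨ω, fun k y hy m w hw M => ?_⟩
  exact from_any hS hC₂1 hr'0 hcond (by linarith) hθ2.le hθ3 hwin hy m hw M

end Pool.Agent.R241.RC
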