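import Pool.Agent.R241.RC3
import Pool.Agent.R241.RC5
import Pool.Agent.R241.RC6

/-!
# Kicks which fix a leader
-/

set_option autoImplicit false

open Filter Topology Set Metric ComplexConjugate

namespace Pool.Agent.R241.RC

open Pool.Agent.R241.NA (pos wt kick kick_some norm_kick mu mu_none mu_some mu_nonneg mu_sum)

open Classical in
/-- The map of the sphere which is induced by a map of the plane. -/
noncomputable def up (f : V → V) (x : X) : X :=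
  if h : f x.val ≠ 0 then ⟨f x.val, h⟩ else x

theorem up_val {f : V → V} {x : X} (h : f x.val ≠ 0) : (up f x).val = f x.val := by
  unfold up; rw [dif_pos h]

/-- A sequence of maps with a leader. -/
structure Lead (g : ℕ → V → V) (t : ℕ → V) (L ρ₁ : ℝ) : Prop where
  cls : ∀ n, Cls (g n)
  unit : ∀ n, ‖t n‖ = 1
  lip : ∀ n p q, p ≠ 0 → q ≠ 0 → D (g n p) (g n q) ≤ L * D p q
  lead : ∀ n, D (g n (t n)) (t (n + 1)) = 0
  con : ∀ n p q, p ≠ 0 → q ≠ 0 → D p (t n) ≤ ρ₁ → D q (t n) ≤ ρ₁ →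
    D (g n p) (g n q) ≤ 1 / 4 * D p q

theorem unit_ne {t : V} (h : ‖t‖ = 1) : t ≠ 0 := by
  intro h0; rw [h0, norm_zero] at h; exact zero_ne_one h

/-- The kicked maps. -/
noncomputable def hk (g : ℕ → V → V) (t : ℕ → V) (a : ℕ → ℂ) (n : ℕ) (p : V) : V :=
  K (t (n + 1)) (a n) (g n p)

/-- The kicked maps on the sphere. -/
noncomputable def hX (g : ℕ → V → V) (t : ℕ → V) (a : ℕ → ℂ) (n : ℕ) : X → X := up (hk g t a n)

section

variable {g : ℕ → V → V} {t : ℕ → V} {L ρ₁ : ℝ} {a : ℕ → ℂ}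

theorem hk_ne (hl : Lead g t L ρ₁) (ha : ∀ n, ‖a n‖ ≤ 1 / 6) (n : ℕ) {p : V} (hp : p ≠ 0) :
    hk g t a n p ≠ 0 :=
  (near_K (hl.unit (n + 1)) (a n)).ne (by linarith [ha n]) ((hl.cls n).nz p hp)

theorem hX_val (hl : Lead g t L ρ₁) (ha : ∀ n, ‖a n‖ ≤ 1 / 6) (n : ℕ) (x : X) :
    (hX g t a n x).val = hk g t a n x.val := up_val (hk_ne hl ha n x.ne)

theorem K_lip {t : V} (ht : ‖t‖ = 1) {c : ℂ} (hc : ‖c‖ ≤ 1 / 6) {p q : V} (hp : p ≠ 0)
    (hq : q ≠ 0) : D (K t c p) (K t c q) ≤ 2 * D p q :=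
  (near_K ht c).lip (norm_nonneg _) hc hp hq

theorem hX_lip (hl : Lead g t L ρ₁) (ha : ∀ n, ‖a n‖ ≤ 1 / 6) (n : ℕ) (x y : X) :
    dist (hX g t a n x) (hX g t a n y) ≤ 2 * L * dist x y := by
  rw [dist_eq, hX_val hl ha, hX_val hl ha, dist_eq]
  refine (K_lip (hl.unit _) (ha n) ((hl.cls n).nz _ x.ne) ((hl.cls n).nz _ y.ne)).trans ?_
  have := hl.lip n _ _ x.ne y.ne
  linarith

theorem hX_con (hl : Lead g t L ρ₁) (ha : ∀ n, ‖a n‖ ≤ 1 / 6) (n : ℕ) (x y : X)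
    (hx : D x.val (t n) ≤ ρ₁) (hy : D y.val (t n) ≤ ρ₁) :
    dist (hX g t a n x) (hX g t a n y) ≤ 1 / 2 * dist x y := by
  rw [dist_eq, hX_val hl ha, hX_val hl ha, dist_eq]
  refine (K_lip (hl.unit _) (ha n) ((hl.cls n).nz _ x.ne) ((hl.cls n).nz _ y.ne)).trans ?_
  have := hl.con n _ _ x.ne y.ne hx hy
  linarith

theorem hX_lead (hl : Lead g t L ρ₁) (hρ₁ : 0 ≤ ρ₁) (ha : ∀ n, ‖a n‖ ≤ 1 / 6) (n : ℕ) (x : X)
    (hx : D x.val (t n) ≤ ρ₁) : D (hX g t a n x).val (t (n + 1)) ≤ 1 / 2 * D x.val (t n) := by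
  have h1 := unit_ne (hl.unit n)
  have h2 := unit_ne (hl.unit (n + 1))
  have h3 := hX_con hl ha n x ⟨t n, h1⟩ hx (by rw [D_self]; exact hρ₁)
  rw [dist_eq, dist_eq, hX_val hl ha n ⟨t n, h1⟩] at h3
  have h4 : D (hk g t a n (t n)) (t (n + 1)) ≤ 0 := by
    have h5 := K_lip (hl.unit (n + 1)) (ha n) ((hl.cls n).nz _ h1) h2
    rw [K_self, hl.lead] at h5
    unfold hk
    linarith
  have h5 := D_triangle (hX g t a n x).ne (hk_ne hl ha n h1) h2
  linarith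

theorem run_trap (hl : Lead g t L ρ₁) (hρ₁ : 0 ≤ ρ₁) (ha : ∀ n, ‖a n‖ ≤ 1 / 6) (n : ℕ) {r : ℝ}
    (hr : r ≤ ρ₁) (x : X) (hx : D x.val (t n) ≤ r) (j : ℕ) :
    D (run (hX g t a) n j x).val (t (n + j)) ≤ r := by
  induction j with
  | zero => exact hx
  | succ j ih =>
    have h1 := hX_lead hl hρ₁ ha (n + j) (run (hX g t a) n j x) (ih.trans hr)
    have h2 := D_nonneg (run (hX g t a) n j x).val (t (n + j))
    rw [run]
    rw [← Nat.add_assoc]
    linarith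

theorem run_con (hl : Lead g t L ρ₁) (hρ₁ : 0 ≤ ρ₁) (ha : ∀ n, ‖a n‖ ≤ 1 / 6) (n : ℕ) (x y : X)
    (hx : D x.val (t n) ≤ ρ₁) (hy : D y.val (t n) ≤ ρ₁) (j : ℕ) :
    dist (run (hX g t a) n j x) (run (hX g t a) n j y) ≤ (1 / 2) ^ j * dist x y := by
  induction j with
  | zero => simp [run]
  | succ j ih =>
    have h1 := hX_con hl ha (n + j) _ _ (run_trap hl hρ₁ ha n le_rfl x hx j)
      (run_trap hl hρ₁ ha n le_rfl y hy j)
    rw [run, run]
    refine h1.trans ?_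
    calc _ ≤ 1 / 2 * ((1 / 2) ^ j * dist x y) := by gcongr
      _ = _ := by ring

theorem run_close (hl : Lead g t L ρ₁) (hL : 1 ≤ L) {a a' : ℕ → ℂ} (ha : ∀ n, ‖a n‖ ≤ 1 / 6)
    (ha' : ∀ n, ‖a' n‖ ≤ 1 / 6) {η : ℝ} (n : ℕ) (x : X) (j : ℕ) (hη0 : 0 ≤ η)
    (hη : ∀ i < j, ‖a (n + i) - a' (n + i)‖ ≤ η) :
    dist (run (hX g t a) n j x) (run (hX g t a') n j x) ≤ 2 * η * (j * (2 * L) ^ j) := by
  induction j with
  | zero => simp [run]
  | succ j ih =>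
    have h1 := ih fun i hi => hη i (by omega)
    have h2 := hX_lip hl ha (n + j) (run (hX g t a) n j x) (run (hX g t a') n j x)
    have h3 : dist (hX g t a (n + j) (run (hX g t a') n j x))
        (hX g t a' (n + j) (run (hX g t a') n j x)) ≤ 2 * η := by
      rw [dist_eq, hX_val hl ha, hX_val hl ha']
      refine (K_close (hl.unit _) (ha _) (ha' _) ((hl.cls _).nz _
        (run (hX g t a') n j x).ne)).trans ?_
      have := hη j (by omega)
      linarith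
    have h4 := dist_triangle (hX g t a (n + j) (run (hX g t a) n j x))
      (hX g t a (n + j) (run (hX g t a') n j x)) (hX g t a' (n + j) (run (hX g t a') n j x))
    rw [run, run]
    have h5 : 2 * L * dist (run (hX g t a) n j x) (run (hX g t a') n j x) ≤
        2 * L * (2 * η * (j * (2 * L) ^ j)) := by gcongr
    have h6 : (1 : ℝ) ≤ (2 * L) ^ (j + 1) := one_le_pow₀ (by linarith)
    have h7 : 2 * η * 1 ≤ 2 * η * (2 * L) ^ (j + 1) := by gcongr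
    have h8 : 2 * η * (((j + 1 : ℕ) : ℝ) * (2 * L) ^ (j + 1)) =
        2 * L * (2 * η * (j * (2 * L) ^ j)) + 2 * η * (2 * L) ^ (j + 1) := by
      push_cast; ring
    rw [h8]
    linarith

/-- Shifted kicks. -/
def sh (n₀ : ℕ) (a : ℕ → ℂ) (n : ℕ) : ℂ := a (n - n₀)

theorem run_ko (hl : Lead g t L ρ₁) (ha : ∀ n, ‖a n‖ ≤ 1 / 6) (n₀ : ℕ) (x : X) (j : ℕ) :
    (run (hX g t (sh n₀ a)) n₀ j x).val =
      ko (fun i => g (n₀ + i)) (fun i => t (n₀ + i)) a j x.val := by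
  induction j with
  | zero => rfl
  | succ j ih =>
    rw [run, hX_val hl (a := sh n₀ a) (fun n => ha _), hk, ih, ko, sh, Nat.add_sub_cancel_left]
    rfl

theorem run_congr {Z : Type} {h h' : ℕ → Z → Z} {n j : ℕ} (hh : ∀ k, n ≤ k → k < n + j → h k = h' k)
    (x : Z) : run h n j x = run h' n j x := by
  induction j with
  | zero => rfl
  | succ j ih =>
    rw [run, run, ih (fun k h1 h2 => hh k h1 (by omega)), hh (n + j) (by omega) (by omega)]

end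

/-! ### Blocks of kicks -/

/-- The trap. -/
def Trap (t : ℕ → V) (ρ₁ : ℝ) (n : ℕ) (x : X) : Prop := D x.val (t n) ≤ ρ₁ / 2

/-- Points which avoid the trap robustly. -/
def BTx (g : ℕ → V → V) (t : ℕ → V) (e B : ℝ) (n₀ b : ℕ) (x : X) : Prop :=
  Avoid (fun i => g (n₀ + i)) (fun i => t (n₀ + i)) e B b x.val

/-- The map of a block. -/
noncomputable def FX (g : ℕ → V → V) (t : ℕ → V) (b : ℕ) {A : Finset ℂ} (k : ℕ)
    (ω : Option (Fin b → A)) (x : X) : X :=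
  run (hX g t (sh (k * b) (kick ω))) (k * b) b x

open Classical in
/-- The Lipschitz constant of a block. -/
noncomputable def lX (g : ℕ → V → V) (t : ℕ → V) (ρ₁ e B κ Λ : ℝ) (b : ℕ) {A : Finset ℂ} (k : ℕ)
    (ω : Option (Fin b → A)) (x : X) : ℝ :=
  if Trap t ρ₁ (k * b) x then 1 / 2 else if BTx g t e B (k * b) b x ∧ ω = none then κ else Λ

open Classical in
/-- The Lyapunov function. -/
noncomputable def vX (t : ℕ → V) (ρ₁ : ℝ) (b k : ℕ) (x : X) : ℝ :=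
  if Trap t ρ₁ (k * b) x then 1 / 2 else 1

/-- The multiplier of a block. -/
noncomputable def GX (g : ℕ → V → V) (t : ℕ → V) (ρ₁ e B κ Λ γ s : ℝ) (b : ℕ) {A : Finset ℂ}
    (k : ℕ) (ω : Option (Fin b → A)) (x : X) : ℝ :=
  γ * (lX g t ρ₁ e B κ Λ b k ω x) ^ s * vX t ρ₁ b (k + 1) (FX g t b k ω x) / vX t ρ₁ b k x

/-- The constants. -/
structure CP (L ρ₁ e B κ Λ ρ : ℝ) (m : ℕ) : Prop where
  hL : 1 ≤ L
  hρ₁ : 0 < ρ₁
  he : 0 < e
  he1 : e ≤ 1 / 6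
  hB : 1 ≤ B
  hBρ : 4 / ρ₁ ≤ B
  hκ0 : 0 < κ
  hκ : (2 * B / e) * (1 - 1 / (2 * B / e)) ^ m * (16 * B ^ 2 * L) ≤ κ
  hΛ : (2 * L) ^ (m + 1) ≤ Λ
  hρ0 : 0 < ρ
  hρ1 : ρ ≤ ρ₁ / 2
  hρ2 : 8 * B ^ 2 * (L * ρ) ≤ e / 2

section

variable {g : ℕ → V → V} {t : ℕ → V} {L ρ₁ e B κ Λ ρ γ s q : ℝ} {m : ℕ} {A : Finset ℂ}

theorem vX_pos (k : ℕ) (x : X) {b : ℕ} : 0 < vX t ρ₁ b k x := by
  unfold vX; split_ifs <;> norm_num

theorem vX_le (k : ℕ) (x : X) {b : ℕ} : vX t ρ₁ b k x ≤ 1 := by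
  unfold vX; split_ifs <;> norm_num

theorem vX_ge (k : ℕ) (x : X) {b : ℕ} : 1 / 2 ≤ vX t ρ₁ b k x := by
  unfold vX; split_ifs <;> norm_num

theorem CP.hΛ1 (h : CP L ρ₁ e B κ Λ ρ m) : 1 ≤ Λ := by
  refine le_trans ?_ h.hΛ
  exact one_le_pow₀ (by linarith [h.hL])

theorem lX_pos (hC : CP L ρ₁ e B κ Λ ρ m) {b : ℕ} (k : ℕ) (ω : Option (Fin b → A)) (x : X) :
    0 < lX g t ρ₁ e B κ Λ b k ω x := by
  have h1 := hC.hκ0
  have h2 := hC.hΛ1
  unfold lX
  split_ifs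
  · norm_num
  · exact h1
  · linarith

theorem kick_le (hC : CP L ρ₁ e B κ Λ ρ m) (hA : ∀ a ∈ A, ‖a‖ ≤ e) {b : ℕ}
    (ω : Option (Fin b → A)) (i : ℕ) : ‖kick ω i‖ ≤ 1 / 6 :=
  (norm_kick hC.he.le hA ω i).trans hC.he1

theorem sysX (hl : Lead g t L ρ₁) (hC : CP L ρ₁ e B κ Λ ρ m) (hA : ∀ a ∈ A, ‖a‖ ≤ e) :
    Sys (FX g t (m + 1) (A := A)) (lX g t ρ₁ e B κ Λ (m + 1)) ρ := by
  refine ⟨hC.hρ0, fun k ω x => lX_pos hC k ω x, fun k ω x w o hw ho => ?_⟩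
  have hL := hC.hL
  have hρ₁ := hC.hρ₁
  have hkl : ∀ n, ‖sh (k * (m + 1)) (kick ω) n‖ ≤ 1 / 6 := fun n => kick_le hC hA ω _
  unfold lX
  split_ifs with h1 h2
  · -- trapped
    unfold Trap at h1
    have htn := unit_ne (hl.unit (k * (m + 1)))
    have h3 : ∀ y : X, dist y x ≤ ρ → D y.val (t (k * (m + 1))) ≤ ρ₁ := by
      intro y hy
      have h4 := D_triangle y.ne x.ne htn
      rw [dist_eq] at hy
      linarith [hC.hρ1]
    have h5 := run_con hl hρ₁.le hkl (k * (m + 1)) w o (h3 w hw) (h3 o ho) (m + 1)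
    unfold FX
    refine h5.trans ?_
    have h6 : ((1 : ℝ) / 2) ^ (m + 1) ≤ 1 / 2 := by
      rw [pow_succ]
      have : ((1 : ℝ) / 2) ^ m ≤ 1 := pow_le_one₀ (by norm_num) (by norm_num)
      linarith
    gcongr
  · -- robustly avoiding the trap
    obtain ⟨hB, hω⟩ := h2
    have hz : (kick ω : ℕ → ℂ) = fun _ => 0 := by rw [hω]; rfl
    have hval : ∀ y : X, (FX g t (m + 1) k ω y).val =
        orb (fun i => g (k * (m + 1) + i)) (m + 1) y.val := by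
      intro y
      unfold FX
      rw [run_ko hl (fun n => kick_le hC hA ω n), hz, ko_zero]
    rw [dist_eq, hval, hval, dist_eq]
    have h5 := contract (f := fun i => g (k * (m + 1) + i)) (t := fun i => t (k * (m + 1) + i))
      (e := e) (B := B) (L := L) (ρ := ρ) (N := m) (x := x.val) (w := w.val) (o := o.val)
      (fun n => hl.cls _) (fun n => hl.unit _) hC.he (by linarith [hC.he1]) hC.hB
      (by linarith) (fun p q hp hq => hl.lip _ p q hp hq) x.ne hB hC.hρ2 w.ne o.ne hw ho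
    refine h5.trans ?_
    have := D_nonneg w.val o.val
    have := hC.hκ
    gcongr
  · -- any point
    unfold FX
    refine (run_lip (by linarith : (0 : ℝ) ≤ 2 * L) (fun n w o => hX_lip hl hkl n w o) _ _ w
      o).trans ?_
    have := hC.hΛ
    gcongr

/-- The menu word which leads into the trap. -/
theorem exists_word (hl : Lead g t L ρ₁) (hC : CP L ρ₁ e B κ Λ ρ m) (hA : ∀ a ∈ A, ‖a‖ ≤ e)
    {η : ℝ} (hη0 : 0 ≤ η) (hη : 2 * η * (((m + 1 : ℕ) : ℝ) * (2 * L) ^ (m + 1)) ≤ ρ₁ / 4)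
    (hAη : ∀ a : ℂ, ‖a‖ ≤ e → ∃ a' ∈ A, ‖a' - a‖ ≤ η) (k : ℕ) (x : X)
    (hx : ¬ BTx g t e B (k * (m + 1)) (m + 1) x) :
    ∃ f₀ : Fin (m + 1) → A, Trap t ρ₁ ((k + 1) * (m + 1)) (FX g t (m + 1) k (some f₀) x) := by
  unfold BTx Avoid at hx
  push Not at hx
  obtain ⟨a, ha, n, hn, h3⟩ := hx
  have hL := hC.hL
  have hρ₁ := hC.hρ₁
  have ha6 : ∀ i, ‖a i‖ ≤ 1 / 6 := fun i => (ha i).trans hC.he1
  have hch : ∀ i : Fin (m + 1), ∃ a' : A, ‖(a' : ℂ) - a i‖ ≤ η := by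
    intro i
    obtain ⟨a', ha', h4⟩ := hAη (a i) (ha i)
    exact ⟨⟨a', ha'⟩, h4⟩
  choose f₀ hf₀ using hch
  refine ⟨f₀, ?_⟩
  have hkl : ∀ n, ‖sh (k * (m + 1)) (kick (some f₀)) n‖ ≤ 1 / 6 := fun n => kick_le hC hA _ _
  set n₀ := k * (m + 1) with hn₀
  -- the exact orbit
  have h4 : D (run (hX g t (sh n₀ a)) n₀ (n + 1) x).val (t (n₀ + (n + 1))) ≤ ρ₁ / 4 := by
    rw [run_ko hl ha6]
    set p := ko (fun i => g (n₀ + i)) (fun i => t (n₀ + i)) a (n + 1) x.val with hp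
    have hp0 : p ≠ 0 := by
      rw [hp, ← run_ko hl ha6]; exact (run (hX g t (sh n₀ a)) n₀ (n + 1) x).ne
    have hpn := norm_pos_iff.2 hp0
    have h5 := norm_ip_le p (t (n₀ + (n + 1)))
    rw [hl.unit, mul_one] at h5
    unfold D
    rw [hl.unit, mul_one, norm_cr_swap, div_le_iff₀ hpn]
    have h6 : B * ‖cr (t (n₀ + (n + 1))) p‖ ≤ ‖p‖ := (h3.le).trans h5
    have h7 : 4 / ρ₁ * ‖cr (t (n₀ + (n + 1))) p‖ ≤ ‖p‖ := by
      refine le_trans ?_ h6
      have := hC.hBρ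
      gcongr
    calc ‖cr (t (n₀ + (n + 1))) p‖ = ρ₁ / 4 * (4 / ρ₁ * ‖cr (t (n₀ + (n + 1))) p‖) := by
          field_simp
      _ ≤ ρ₁ / 4 * ‖p‖ := by gcongr
  have h5 := run_close hl hL (a := sh n₀ a) (a' := sh n₀ (kick (some f₀))) (fun i => ha6 _) hkl
    (η := η) n₀ x (n + 1) hη0 (fun i hi => by
      unfold sh
      rw [Nat.add_sub_cancel_left, kick_some f₀ (by omega), norm_sub_rev]
      exact hf₀ ⟨i, by omega⟩)
  have h6 : 2 * η * (((n + 1 : ℕ) : ℝ) * (2 * L) ^ (n + 1)) ≤ ρ₁ / 4 := by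
    refine le_trans ?_ hη
    have h7 : ((n + 1 : ℕ) : ℝ) ≤ ((m + 1 : ℕ) : ℝ) := by exact_mod_cast (by omega : n + 1 ≤ m + 1)
    have h8 : (2 * L) ^ (n + 1) ≤ (2 * L) ^ (m + 1) := pow_le_pow_right₀ (by linarith) (by omega)
    gcongr
  have h7 : D (run (hX g t (sh n₀ (kick (some f₀)))) n₀ (n + 1) x).val (t (n₀ + (n + 1))) ≤
      ρ₁ / 2 := by
    have h8 := D_triangle (run (hX g t (sh n₀ (kick (some f₀)))) n₀ (n + 1) x).ne
      (run (hX g t (sh n₀ a)) n₀ (n + 1) x).ne (unit_ne (hl.unit (n₀ + (n + 1))))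
    rw [dist_eq, D_comm] at h5
    linarith
  have h8 := run_trap hl hρ₁.le hkl (n₀ + (n + 1)) (r := ρ₁ / 2) (by linarith) _ h7
    (m + 1 - (n + 1))
  rw [← run_add, show n + 1 + (m + 1 - (n + 1)) = m + 1 by omega,
    show n₀ + (n + 1) + (m + 1 - (n + 1)) = n₀ + (m + 1) by omega] at h8
  unfold Trap FX
  rw [Nat.succ_mul, ← hn₀]
  exact h8

theorem trap_FX (hl : Lead g t L ρ₁) (hC : CP L ρ₁ e B κ Λ ρ m) (hA : ∀ a ∈ A, ‖a‖ ≤ e) (k : ℕ)
    (ω : Option (Fin (m + 1) → A)) (x : X) (hx : Trap t ρ₁ (k * (m + 1)) x) :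
    Trap t ρ₁ ((k + 1) * (m + 1)) (FX g t (m + 1) k ω x) := by
  have h8 := run_trap hl hC.hρ₁.le (a := sh (k * (m + 1)) (kick ω))
    (fun n => kick_le hC hA _ _) (k * (m + 1)) (r := ρ₁ / 2) (by linarith [hC.hρ₁]) x hx (m + 1)
  unfold Trap FX
  rw [Nat.succ_mul]
  exact h8

theorem GX_nonneg (hC : CP L ρ₁ e B κ Λ ρ m) (hγ : 0 ≤ γ) (k : ℕ) (ω : Option (Fin (m + 1) → A))
    (x : X) : 0 ≤ GX g t ρ₁ e B κ Λ γ s (m + 1) k ω x := by
  have h1 := lX_pos (g := g) (t := t) hC k ω x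
  have h2 : 0 < vX t ρ₁ (m + 1) (k + 1) (FX g t (m + 1) k ω x) := vX_pos _ _
  have h3 : 0 < vX t ρ₁ (m + 1) k x := vX_pos _ _
  unfold GX
  positivity

theorem sum_GX (hl : Lead g t L ρ₁) (hC : CP L ρ₁ e B κ Λ ρ m) (hAne : A.Nonempty)
    (hA : ∀ a ∈ A, ‖a‖ ≤ e)
    {η : ℝ} (hη0 : 0 ≤ η) (hη : 2 * η * (((m + 1 : ℕ) : ℝ) * (2 * L) ^ (m + 1)) ≤ ρ₁ / 4)
    (hAη : ∀ a : ℂ, ‖a‖ ≤ e → ∃ a' ∈ A, ‖a' - a‖ ≤ η) (hγ : 0 < γ) (hq0 : 0 ≤ q) (hq1 : q ≤ 1)
    {β₀ : ℝ} (h1 : (1 - q) * κ ^ s + q * Λ ^ s ≤ β₀)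
    (h2 : (1 - q / (2 * (Fintype.card (Fin (m + 1) → A) : ℝ))) * Λ ^ s ≤ β₀)
    (h3 : (1 / 2 : ℝ) ^ s ≤ β₀) (k : ℕ) (x : X) :
    ∑ ω, mu (m + 1) A q ω * GX g t ρ₁ e B κ Λ γ s (m + 1) k ω x ≤ γ * β₀ := by
  classical
  have hne : Nonempty A := hAne.to_subtype
  have hΛ1 := hC.hΛ1
  have hκ0 := hC.hκ0
  set Nw : ℝ := (Fintype.card (Fin (m + 1) → A) : ℝ) with hNw
  have hNw0 : (0 : ℝ) < Nw := by rw [hNw]; exact_mod_cast Fintype.card_pos
  have hmu := mu_sum (b := m + 1) (q := q) hAne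
  by_cases hT : Trap t ρ₁ (k * (m + 1)) x
  · -- trapped
    have hG : ∀ ω : Option (Fin (m + 1) → A), GX g t ρ₁ e B κ Λ γ s (m + 1) k ω x =
        γ * (1 / 2 : ℝ) ^ s := by
      intro ω
      have h4 := trap_FX hl hC hA k ω x hT
      unfold GX lX vX
      rw [if_pos hT, if_pos hT, if_pos h4]
      field_simp
    simp only [hG]
    rw [← Finset.sum_mul, hmu, one_mul]
    gcongr
  · have hv : vX t ρ₁ (m + 1) k x = 1 := by unfold vX; rw [if_neg hT]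
    by_cases hB : BTx g t e B (k * (m + 1)) (m + 1) x
    · have g1 : GX g t ρ₁ e B κ Λ γ s (m + 1) k (none : Option (Fin (m + 1) → A)) x ≤
          γ * κ ^ s := by
        unfold GX
        rw [hv, div_one]
        have h4 : lX g t ρ₁ e B κ Λ (m + 1) k (none : Option (Fin (m + 1) → A)) x = κ := by
          unfold lX; rw [if_neg hT, if_pos ⟨hB, rfl⟩]
        rw [h4]
        have h5 := vX_le (t := t) (ρ₁ := ρ₁) (b := m + 1) (k + 1)
          (FX g t (m + 1) k (none : Option (Fin (m + 1) → A)) x)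
        have h6 : 0 ≤ γ * κ ^ s := by positivity
        nlinarith
      have g2 : ∀ f : Fin (m + 1) → A, GX g t ρ₁ e B κ Λ γ s (m + 1) k (some f) x ≤
          γ * Λ ^ s := by
        intro f
        unfold GX
        rw [hv, div_one]
        have h4 : lX g t ρ₁ e B κ Λ (m + 1) k (some f) x = Λ := by
          unfold lX; rw [if_neg hT, if_neg (by simp)]
        rw [h4]
        have h5 := vX_le (t := t) (ρ₁ := ρ₁) (b := m + 1) (k + 1)
          (FX g t (m + 1) k (some f) x)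
        have h6 : 0 ≤ γ * Λ ^ s := by positivity
        nlinarith
      rw [Fintype.sum_option]
      simp only [mu_none, mu_some]
      rw [← hNw]
      calc (1 - q) * GX g t ρ₁ e B κ Λ γ s (m + 1) k none x +
            ∑ f : Fin (m + 1) → A, q / Nw * GX g t ρ₁ e B κ Λ γ s (m + 1) k (some f) x
          ≤ (1 - q) * (γ * κ ^ s) + ∑ _f : Fin (m + 1) → A, q / Nw * (γ * Λ ^ s) := by
            refine add_le_add ?_ (Finset.sum_le_sum fun f _ => ?_)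
            · exact mul_le_mul_of_nonneg_left g1 (by linarith)
            · exact mul_le_mul_of_nonneg_left (g2 f) (by positivity)
        _ = γ * ((1 - q) * κ ^ s + q * Λ ^ s) := by
            rw [Finset.sum_const, Finset.card_univ, nsmul_eq_mul, ← hNw]
            field_simp
        _ ≤ γ * β₀ := by gcongr
    · obtain ⟨f₀, hf₀⟩ := exists_word hl hC hA hη0 hη hAη k x hB
      have g1 : ∀ ω : Option (Fin (m + 1) → A), GX g t ρ₁ e B κ Λ γ s (m + 1) k ω x ≤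
          γ * Λ ^ s := by
        intro ω
        unfold GX
        rw [hv, div_one]
        have h4 : lX g t ρ₁ e B κ Λ (m + 1) k ω x = Λ := by
          unfold lX; rw [if_neg hT, if_neg (fun h => hB h.1)]
        rw [h4]
        have h5 := vX_le (t := t) (ρ₁ := ρ₁) (b := m + 1) (k + 1) (FX g t (m + 1) k ω x)
        have h6 : 0 ≤ γ * Λ ^ s := by positivity
        nlinarith
      have g3 : GX g t ρ₁ e B κ Λ γ s (m + 1) k (some f₀) x ≤ γ * Λ ^ s / 2 := by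
        unfold GX
        rw [hv, div_one]
        have h4 : lX g t ρ₁ e B κ Λ (m + 1) k (some f₀) x = Λ := by
          unfold lX; rw [if_neg hT, if_neg (fun h => hB h.1)]
        have h5 : vX t ρ₁ (m + 1) (k + 1) (FX g t (m + 1) k (some f₀) x) = 1 / 2 := by
          unfold vX; rw [if_pos hf₀]
        rw [h4, h5]
        linarith
      have hx : 0 ≤ γ * Λ ^ s := by positivity
      rw [Fintype.sum_option]
      simp only [mu_none, mu_some]
      rw [← hNw]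
      calc (1 - q) * GX g t ρ₁ e B κ Λ γ s (m + 1) k none x +
            ∑ f : Fin (m + 1) → A, q / Nw * GX g t ρ₁ e B κ Λ γ s (m + 1) k (some f) x
          ≤ (1 - q) * (γ * Λ ^ s) +
            ∑ f : Fin (m + 1) → A, (q / Nw * (γ * Λ ^ s) -
              if f = f₀ then q / Nw * (γ * Λ ^ s / 2) else 0) := by
            refine add_le_add ?_ (Finset.sum_le_sum fun f _ => ?_)
            · exact mul_le_mul_of_nonneg_left (g1 none) (by linarith)
            · by_cases hf : f = f₀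
              · rw [if_pos hf, hf]
                have := mul_le_mul_of_nonneg_left g3 (show 0 ≤ q / Nw by positivity)
                linarith
              · rw [if_neg hf, sub_zero]
                exact mul_le_mul_of_nonneg_left (g1 (some f)) (by positivity)
        _ = γ * ((1 - q / (2 * Nw)) * Λ ^ s) := by
            rw [Finset.sum_sub_distrib, Finset.sum_const, Finset.card_univ, nsmul_eq_mul, ← hNw,
              Finset.sum_ite_eq' Finset.univ f₀, if_pos (Finset.mem_univ _)]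
            field_simp
            ring
        _ ≤ γ * β₀ := by gcongr

theorem wt_GX (hC : CP L ρ₁ e B κ Λ ρ m) (ω : ℕ → Option (Fin (m + 1) → A)) (k n : ℕ) (x : X) :
    wt (FX g t (m + 1)) (GX g t ρ₁ e B κ Λ γ s (m + 1)) ω k n x =
      γ ^ n * (wt (FX g t (m + 1)) (lX g t ρ₁ e B κ Λ (m + 1)) ω k n x) ^ s *
        vX t ρ₁ (m + 1) (k + n) (pos (FX g t (m + 1)) ω k n x) / vX t ρ₁ (m + 1) k x := by
  have hw : ∀ n, 0 < wt (FX g t (m + 1)) (lX g t ρ₁ e B κ Λ (m + 1)) ω k n x := by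
    intro n
    induction n with
    | zero => simp [wt]
    | succ n ih => rw [wt]; exact mul_pos ih (lX_pos hC _ _ _)
  induction n with
  | zero =>
    have h0 : vX t ρ₁ (m + 1) k x ≠ 0 := (vX_pos k x).ne'
    simp [wt, pos, h0]
  | succ n ih =>
    have h1 := hw n
    have h2 := lX_pos (g := g) (t := t) hC (k + n) (ω (k + n)) (pos (FX g t (m + 1)) ω k n x)
    have h3 : vX t ρ₁ (m + 1) (k + n) (pos (FX g t (m + 1)) ω k n x) ≠ 0 := (vX_pos _ _).ne'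
    have h4 : vX t ρ₁ (m + 1) k x ≠ 0 := (vX_pos k x).ne'
    rw [wt, wt, ih, Real.mul_rpow h1.le h2.le, pos, GX, Nat.add_assoc]
    field_simp
    ring

end

end Pool.Agent.R241.RC
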