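import Pool.Agent.R241.RC7

/-!
# Perturbations of a sequence with a leader
-/

set_option autoImplicit false

open Filter Topology Set Metric ComplexConjugate

namespace Pool.Agent.R241.RC

open Pool.Agent.R241.NA (pos wt kick kick_some norm_kick mu mu_none mu_some mu_nonneg mu_sum
  choose_length choose_exponent exists_menu pos_add)

instance : Inhabited X := ⟨⟨!₂[1, 0], by
  intro h
  have := congrArg (fun p : V => p 0) h
  simp at this⟩⟩

theorem exists_root {θ : ℝ} (h0 : 0 < θ) (h1 : θ < 1) {b : ℕ} (hb : 0 < b) :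
    ∃ θ' : ℝ, 0 < θ' ∧ θ' < 1 ∧ θ' ^ b = θ := by
  have h2 : (θ ^ ((b : ℝ)⁻¹)) ^ b = θ := Real.rpow_inv_natCast_pow h0.le hb.ne'
  refine ⟨θ ^ ((b : ℝ)⁻¹), by positivity, ?_, h2⟩
  have : (0 : ℝ) < b := by exact_mod_cast hb
  exact Real.rpow_lt_one h0.le h1 (by positivity)

theorem dist_le_one (x y : X) : dist x y ≤ 1 := D_le_one _ _

theorem hX_congr {g : ℕ → V → V} {t : ℕ → V} {a a' : ℕ → ℂ} {n : ℕ} (h : a n = a' n) :
    hX g t a n = hX g t a' n := by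
  funext x
  have h1 : hk g t a n = hk g t a' n := by funext p; unfold hk; rw [h]
  unfold hX; rw [h1]

theorem pos_run {Z Ω : Type} (F : ℕ → Ω → Z → Z) (ω : ℕ → Ω) (k j : ℕ) (x : Z) :
    pos F ω k j x = run (fun k => F k (ω k)) k j x := by
  induction j with
  | zero => rfl
  | succ j ih => rw [pos, run, ih]

/-- The births in a block. -/
noncomputable def EX (g : ℕ → V → V) (t : ℕ → V) (E₁ : ℕ → List X) (m : ℕ) {A : Finset ℂ} (k : ℕ)
    (ω : Option (Fin (m + 1) → A)) : List X :=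
  (List.range (m + 1)).flatMap fun r => (E₁ (k * (m + 1) + r)).map fun y =>
    run (hX g t (sh (k * (m + 1)) (kick ω))) (k * (m + 1) + r + 1) (m - r)
      (up (K (t (k * (m + 1) + r + 1)) (kick ω r)) y)

theorem EX_length (g : ℕ → V → V) (t : ℕ → V) (E₁ : ℕ → List X) (m : ℕ) {A : Finset ℂ} (k : ℕ)
    (ω : Option (Fin (m + 1) → A)) {b₀ : ℕ} (hE : ∀ n, (E₁ n).length ≤ b₀) :
    (EX g t E₁ m k ω).length ≤ (m + 1) * b₀ := by
  unfold EX
  rw [List.length_flatMap]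
  refine (List.sum_le_card_nsmul _ b₀ ?_).trans ?_
  · intro x hx
    obtain ⟨r, -, rfl⟩ := List.mem_map.1 hx
    rw [List.length_map]
    exact hE _
  · rw [List.length_map, List.length_range, smul_eq_mul]

theorem kicks {L ρ₁ : ℝ} (hL : 1 ≤ L) (hρ₁ : 0 < ρ₁) {e₀ : ℝ} (he₀ : 0 < e₀) {b₀ : ℕ}
    (hb₀ : 1 ≤ b₀) :
    ∃ δ C θ : ℝ, 0 < δ ∧ 0 < C ∧ 0 < θ ∧ θ < 1 ∧
      ∀ (g : ℕ → V → V) (t : ℕ → V) (E₁ : ℕ → List X), Lead g t L ρ₁ →
        (∀ n, (E₁ n).length ≤ b₀) →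
        ∃ a : ℕ → ℂ, (∀ n, ‖a n‖ ≤ e₀) ∧ (∀ n, ‖a n‖ ≤ 1 / 6) ∧
          ∀ (n : ℕ) (y : X), y ∈ E₁ n → ∀ m : ℕ,
          Stab (hX g t a) δ C θ (n + 1 + m)
            (run (hX g t a) (n + 1) m (up (K (t (n + 1)) (a n)) y)) := by
  classical
  have hL0 : 0 < L := by linarith
  set e : ℝ := min e₀ (1 / 6) with he
  have he0 : 0 < e := by rw [he]; positivity
  have he6 : e ≤ 1 / 6 := min_le_right _ _
  have hee : e ≤ e₀ := min_le_left _ _
  set B : ℝ := max (4 / ρ₁) 1 with hB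
  have hB1 : 1 ≤ B := le_max_right _ _
  have hBρ : 4 / ρ₁ ≤ B := le_max_left _ _
  have hB0 : 0 < B := by linarith
  set M : ℝ := 2 * B / e with hM
  have hM1 : 1 < M := by rw [hM, lt_div_iff₀ he0]; linarith
  have hM0 : 0 < M := by linarith
  set L' : ℝ := 32 * B ^ 2 * L with hL'
  have hBL : 1 ≤ B ^ 2 * L := by
    have : 1 ≤ B ^ 2 := one_le_pow₀ hB1
    nlinarith
  have hL'1 : 1 ≤ L' := by rw [hL']; linarith
  have hL'2 : 2 * L ≤ L' := by
    have : 1 ≤ B ^ 2 := one_le_pow₀ hB1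
    rw [hL']; nlinarith
  obtain ⟨m, n₀, hn₀, hlen⟩ := choose_length hL'1 hM1
  have hL'0 : 0 < L' := by linarith
  set κ : ℝ := L' * (M * (1 - 1 / M) ^ m) * L' with hκ
  set Λ : ℝ := L' ^ (m + 2) with hΛ
  have hMpos : 0 < 1 - 1 / M := by
    rw [sub_pos, div_lt_one (by linarith)]; exact hM1
  have hκ0 : 0 < κ := by rw [hκ]; positivity
  have hΛ1 : 1 ≤ Λ := by rw [hΛ]; exact one_le_pow₀ hL'1
  have hΛ0 : 0 < Λ := by linarith
  have hκ1 : M * (1 - 1 / M) ^ m * (16 * B ^ 2 * L) ≤ κ := by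
    rw [hκ]
    have h1 : 16 * B ^ 2 * L ≤ L' * L' := by rw [hL']; nlinarith
    calc M * (1 - 1 / M) ^ m * (16 * B ^ 2 * L) ≤ M * (1 - 1 / M) ^ m * (L' * L') := by gcongr
      _ = _ := by ring
  have hΛ2 : (2 * L) ^ (m + 1) ≤ Λ := by
    rw [hΛ]
    calc (2 * L) ^ (m + 1) ≤ L' ^ (m + 1) := by gcongr
      _ ≤ L' ^ (m + 2) := pow_le_pow_right₀ hL'1 (by omega)
  clear_value κ Λ
  -- the probability of a kick
  set q : ℝ := 1 / ((n₀ : ℝ) + 1) with hq
  have hn₀' : (0 : ℝ) < n₀ := by exact_mod_cast hn₀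
  have hq0 : 0 < q := by rw [hq]; positivity
  have hq1 : q < 1 := by rw [hq, div_lt_one (by positivity)]; linarith
  have hlog : (1 - q) * Real.log κ + q * Real.log Λ < 0 := by
    have h1 : Real.log (κ ^ n₀ * Λ) < 0 := Real.log_neg (by positivity) hlen
    rw [Real.log_mul (by positivity) hΛ0.ne', Real.log_pow] at h1
    have h2 : (1 - q) * Real.log κ + q * Real.log Λ = q * (n₀ * Real.log κ + Real.log Λ) := by
      have h3 : 1 - q = q * n₀ := by
        rw [hq]; field_simp; ring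
      rw [h3]; ring
    rw [h2]
    exact mul_neg_of_pos_of_neg hq0 h1
  -- the region of validity
  set ρ : ℝ := min (ρ₁ / 2) (e / (16 * B ^ 2 * L)) with hρ
  have hρ0 : 0 < ρ := by rw [hρ]; positivity
  have hρ1 : ρ ≤ ρ₁ / 2 := min_le_left _ _
  have hρ2 : 8 * B ^ 2 * (L * ρ) ≤ e / 2 := by
    have : ρ ≤ e / (16 * B ^ 2 * L) := min_le_right _ _
    calc 8 * B ^ 2 * (L * ρ) ≤ 8 * B ^ 2 * (L * (e / (16 * B ^ 2 * L))) := by gcongr
      _ = e / 2 := by field_simp; norm_num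
  have hC : CP L ρ₁ e B κ Λ ρ m := ⟨hL, hρ₁, he0, he6, hB1, hBρ, hκ0, hκ1, hΛ2, hρ0, hρ1, hρ2⟩
  clear_value ρ
  -- the menu
  set η : ℝ := ρ₁ / (8 * (((m + 1 : ℕ) : ℝ) * (2 * L) ^ (m + 1))) with hη
  have hm0 : (0 : ℝ) < ((m + 1 : ℕ) : ℝ) := by exact_mod_cast (by omega : 0 < m + 1)
  have hη0 : 0 < η := by rw [hη]; positivity
  have hη1 : 2 * η * (((m + 1 : ℕ) : ℝ) * (2 * L) ^ (m + 1)) ≤ ρ₁ / 4 := by
    rw [hη]
    apply le_of_eq
    field_simp
    norm_num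
  obtain ⟨A, hAne, hAe, hAη⟩ := exists_menu he0.le hη0
  have hneA : Nonempty A := hAne.to_subtype
  set Nw : ℝ := (Fintype.card (Fin (m + 1) → A) : ℝ) with hNw
  have hNw0 : 0 < Nw := by rw [hNw]; exact_mod_cast Fintype.card_pos
  obtain ⟨s, hs0, hs1, hs2⟩ := choose_exponent (p₀ := q / (2 * Nw)) hκ0 hΛ0 (by positivity) hlog
  have hs3 : (1 / 2 : ℝ) ^ s < 1 := Real.rpow_lt_one (by norm_num) (by norm_num) hs0
  set β₀ : ℝ := max (max ((1 - q) * κ ^ s + q * Λ ^ s) ((1 - q / (2 * Nw)) * Λ ^ s))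
    ((1 / 2 : ℝ) ^ s) with hβ₀
  have hβ₀1 : β₀ < 1 := max_lt (max_lt hs1 hs2) hs3
  have hβ₀0 : 0 < β₀ := by
    refine lt_of_lt_of_le ?_ (le_max_right _ _)
    positivity
  have hb1 : (1 - q) * κ ^ s + q * Λ ^ s ≤ β₀ := (le_max_left _ _).trans (le_max_left _ _)
  have hb2 : (1 - q / (2 * Nw)) * Λ ^ s ≤ β₀ := (le_max_right _ _).trans (le_max_left _ _)
  have hb3 : (1 / 2 : ℝ) ^ s ≤ β₀ := le_max_right _ _
  clear_value β₀
  set γ : ℝ := (1 + β₀) / (2 * β₀) with hγ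
  have hγ1 : 1 < γ := by
    rw [hγ, lt_div_iff₀ (by positivity)]; linarith
  have hγ0 : 0 < γ := by linarith
  set β : ℝ := γ * β₀ with hβ
  have hβeq : β = (1 + β₀) / 2 := by
    rw [hβ, hγ]; field_simp
  have hβ0 : 0 ≤ β := by rw [hβeq]; linarith
  have hβ1 : β < 1 := by rw [hβeq]; linarith
  obtain ⟨δ, C, θ, hδ, hCpos, hθ0, hθ1, hmain⟩ := greedy_stable (Z := X) (ρ := ρ)
    (exists_net (by positivity)) hρ0 hγ1 hs0 (v := 1 / 2) (by norm_num) (by norm_num) hβ0 hβ1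
    (b₀ := (m + 1) * b₀) (Nat.mul_pos (by omega) hb₀)
  obtain ⟨θ', hθ'0, hθ'1, hθ'⟩ := exists_root hθ0 hθ1 (show 0 < m + 1 by omega)
  refine ⟨δ / (2 * L) ^ (m + 1), (2 * L) ^ (m + 1) * (C + δ) / θ ^ 2, θ', by positivity,
    by positivity, hθ'0, hθ'1, ?_⟩
  intro g t E₁ hl hE
  obtain ⟨ω, hω⟩ := hmain (Option (Fin (m + 1) → A)) inferInstance (mu (m + 1) A q)
    (FX g t (m + 1)) (lX g t ρ₁ e B κ Λ (m + 1)) (GX g t ρ₁ e B κ Λ γ s (m + 1))
    (EX g t E₁ m) (sysX hl hC hAe) (mu_nonneg hq0.le hq1.le) (mu_sum hAne)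
    (fun k ω z => GX_nonneg hC hγ0.le k ω z)
    (fun k z => sum_GX hl hC hAne hAe hη0.le hη1 hAη hγ0 hq0.le hq1.le hb1 hb2 hb3 k z)
    (fun ω K n x => by
      rw [wt_GX hC]
      have h1 := vX_ge (t := t) (ρ₁ := ρ₁) (b := m + 1) (K + n) (pos (FX g t (m + 1)) ω K n x)
      have h2 := vX_le (t := t) (ρ₁ := ρ₁) (b := m + 1) K x
      have h3 := vX_pos (t := t) (ρ₁ := ρ₁) (b := m + 1) K x
      have h4 : 0 ≤ wt (FX g t (m + 1)) (lX g t ρ₁ e B κ Λ (m + 1)) ω K n x := by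
        have hw : ∀ n, 0 < wt (FX g t (m + 1)) (lX g t ρ₁ e B κ Λ (m + 1)) ω K n x := by
          intro n
          induction n with
          | zero => simp [wt]
          | succ n ih => rw [wt]; exact mul_pos ih (lX_pos hC _ _ _)
        exact (hw n).le
      rw [le_div_iff₀ h3]
      have h5 : 0 ≤ γ ^ n *
          (wt (FX g t (m + 1)) (lX g t ρ₁ e B κ Λ (m + 1)) ω K n x) ^ s := by positivity
      calc 1 / 2 * γ ^ n * (wt (FX g t (m + 1)) (lX g t ρ₁ e B κ Λ (m + 1)) ω K n x) ^ s *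
            vX t ρ₁ (m + 1) K x
          ≤ 1 / 2 * γ ^ n * (wt (FX g t (m + 1)) (lX g t ρ₁ e B κ Λ (m + 1)) ω K n x) ^ s *
            1 := by gcongr
        _ = γ ^ n * (wt (FX g t (m + 1)) (lX g t ρ₁ e B κ Λ (m + 1)) ω K n x) ^ s *
            (1 / 2) := by ring
        _ ≤ _ := by gcongr)
    (fun k ω => EX_length g t E₁ m k ω hE)
  set a : ℕ → ℂ := fun n => kick (ω (n / (m + 1))) (n % (m + 1)) with ha
  have ha0 : ∀ n, ‖a n‖ ≤ e := fun n => norm_kick he0.le hAe _ _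
  have ha6 : ∀ n, ‖a n‖ ≤ 1 / 6 := fun n => (ha0 n).trans he6
  have hblk : ∀ k i, i < m + 1 → a (k * (m + 1) + i) = kick (ω k) i := by
    intro k i hi
    have h1 : (k * (m + 1) + i) / (m + 1) = k := by
      rw [mul_comm, Nat.mul_add_div (by omega), Nat.div_eq_of_lt hi, Nat.add_zero]
    have h2 : (k * (m + 1) + i) % (m + 1) = i := by
      rw [mul_comm, Nat.mul_add_mod, Nat.mod_eq_of_lt hi]
    rw [ha]; simp only; rw [h1, h2]
  have hcon : ∀ k n, k * (m + 1) ≤ n → n < k * (m + 1) + (m + 1) →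
      hX g t (sh (k * (m + 1)) (kick (ω k))) n = hX g t a n := by
    intro k n h1 h2
    obtain ⟨i, rfl⟩ := Nat.exists_eq_add_of_le h1
    refine hX_congr ?_
    rw [sh, Nat.add_sub_cancel_left, hblk k i (by omega)]
  have hF : ∀ k, FX g t (m + 1) k (ω k) = run (hX g t a) (k * (m + 1)) (m + 1) := by
    intro k
    funext x
    unfold FX
    exact run_congr (fun n h1 h2 => hcon k n h1 h2) x
  have hpos : ∀ k j x, pos (FX g t (m + 1)) ω k j x =
      run (hX g t a) (k * (m + 1)) (j * (m + 1)) x := by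
    intro k j x
    rw [pos_run, ← run_block]
    simp only [hF]
  refine ⟨a, fun n => (ha0 n).trans hee, ha6, ?_⟩
  intro n y hy j
  set k := n / (m + 1) with hk
  set r := n % (m + 1) with hr
  have hnk : k * (m + 1) + r = n := by rw [Nat.mul_comm]; exact Nat.div_add_mod n (m + 1)
  have hrm : r < m + 1 := Nat.mod_lt n (by omega)
  set y' : X := up (K (t (n + 1)) (a n)) y with hy'
  set z : X := run (hX g t a) (n + 1) (m - r) y' with hz
  have hzE : z ∈ EX g t E₁ m k (ω k) := by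
    unfold EX
    rw [List.mem_flatMap]
    refine ⟨r, List.mem_range.2 hrm, List.mem_map.2 ⟨y, by rw [hnk]; exact hy, ?_⟩⟩
    rw [hz, hy', ← hnk, ← hblk k r hrm, hnk]
    refine run_congr (fun i h1 h2 => hcon k i (by omega) (by omega)) _
  set p := (n + 1 + j) / (m + 1) + 1 with hp
  have hp1 : n + 1 + j < p * (m + 1) := by
    have h1 := Nat.div_add_mod (n + 1 + j) (m + 1)
    have h2 := Nat.mod_lt (n + 1 + j) (show m + 1 > 0 by omega)
    rw [hp, Nat.succ_mul, Nat.mul_comm]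
    omega
  have hp2 : p * (m + 1) ≤ n + 1 + j + (m + 1) := by
    have h1 := Nat.div_add_mod (n + 1 + j) (m + 1)
    rw [hp, Nat.succ_mul, Nat.mul_comm]
    omega
  have hpk : k + 1 ≤ p := by
    by_contra hcon'
    push Not at hcon'
    have h1 : p * (m + 1) ≤ k * (m + 1) := Nat.mul_le_mul_right _ (by omega)
    omega
  obtain ⟨u, hu⟩ := Nat.exists_eq_add_of_le hpk
  have hn1 : (k + 1) * (m + 1) = n + 1 + (m - r) := by rw [Nat.succ_mul]; omega
  refine stab_block (L := 2 * L) (b := m + 1) (by linarith) (fun n w o => hX_lip hl ha6 n w o)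
    (by omega) hδ hCpos hθ'0 hθ'1.le hθ' (k := p) hp1.le hp2 ?_
  have hx : run (hX g t a) (n + 1 + j) (p * (m + 1) - (n + 1 + j))
      (run (hX g t a) (n + 1) j y') = pos (FX g t (m + 1)) ω (k + 1) u z := by
    rw [hpos, hz, hn1, ← run_add, ← run_add]
    congr 1
    rw [hu, Nat.add_mul, hn1]
    rw [hu, Nat.add_mul, hn1] at hp1
    omega
  rw [hx]
  intro w hw N
  have h1 := hω k z hzE u w hw N
  rw [pos_add, ← hu, pos_run, pos_run _ _ _ N] at h1
  simp only [hF] at h1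
  refine h1.trans ?_
  have h2 := dist_le_one w (pos (FX g t (m + 1)) ω (k + 1) u z)
  have h3 : 0 ≤ C * θ ^ N := by positivity
  nlinarith

end Pool.Agent.R241.RC
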