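import Pool.Agent.R241.SK1

/-!
# Hyperbolic polynomial skew products: markers
-/

set_option autoImplicit false

open Filter Topology Set Metric Polynomial
open Pool.Agent.R241.NR

namespace Pool.Agent.R241.SK

variable {Y : Type} [TopologicalSpace Y]

theorem fsymm (f : Y ≃ₜ Y) (i : ℕ) (y : Y) : f^[i] (f.symm^[i] y) = y :=
  Function.LeftInverse.iterate f.apply_symm_apply i y

theorem symmf (f : Y ≃ₜ Y) (i : ℕ) (y : Y) : f.symm^[i] (f^[i] y) = y :=
  Function.LeftInverse.iterate f.symm_apply_apply i y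

theorem fsymm_le (f : Y ≃ₜ Y) {i k : ℕ} (h : i ≤ k) (y : Y) :
    f^[i] (f.symm^[k] y) = f.symm^[k - i] y := by
  obtain ⟨j, rfl⟩ := Nat.exists_eq_add_of_le h
  rw [Nat.add_sub_cancel_left, Function.iterate_add_apply, fsymm]

theorem symmf_le (f : Y ≃ₜ Y) {i k : ℕ} (h : i ≤ k) (y : Y) :
    f.symm^[i] (f^[k] y) = f^[k - i] y := by
  obtain ⟨j, rfl⟩ := Nat.exists_eq_add_of_le h
  rw [Nat.add_sub_cancel_left, Function.iterate_add_apply, symmf]

/-- `N`-separated clopen sets. -/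
def Good (f : Y ≃ₜ Y) (N : ℕ) (U : Set Y) : Prop :=
  IsClopen U ∧ ∀ y ∈ U, ∀ i, 0 < i → i < N → f^[i] y ∉ U

theorem exists_good [CompactSpace Y] [T2Space Y] [TotallyDisconnectedSpace Y] (f : Y ≃ₜ Y)
    (hf : ∀ (y : Y) (n : ℕ), 0 < n → f^[n] y ≠ y) (N : ℕ) (x : Y) :
    ∃ U : Set Y, Good f N U ∧ x ∈ U := by
  have h1 : ∀ i : ℕ, ∃ V : Set Y, IsClopen V ∧ (0 < i → x ∈ V ∧ f^[i] x ∉ V) := by
    intro i
    rcases Nat.eq_zero_or_pos i with rfl | hi
    · exact ⟨∅, isClopen_empty, fun h => absurd h (lt_irrefl _)⟩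
    · obtain ⟨V, hV, h2, h3⟩ := exists_isClopen_of_totally_separated (hf x i hi).symm
      exact ⟨V, hV, fun _ => ⟨h2, h3⟩⟩
  choose V hV1 hV2 using h1
  refine ⟨⋂ i ∈ Finset.Ioo 0 N, (V i ∩ (f^[i]) ⁻¹' (V i)ᶜ), ⟨?_, ?_⟩, ?_⟩
  · refine isClopen_biInter_finset fun i _ => ?_
    exact (hV1 i).inter ((hV1 i).compl.preimage (f.continuous.iterate i))
  · intro y hy i hi hiN hcon
    have hm : i ∈ Finset.Ioo 0 N := Finset.mem_Ioo.2 ⟨hi, hiN⟩
    have h2 := mem_iInter₂.1 hy i hm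
    have h3 := mem_iInter₂.1 hcon i hm
    exact h2.2 h3.1
  · refine mem_iInter₂.2 fun i hi => ?_
    obtain ⟨h2, h3⟩ := hV2 i (Finset.mem_Ioo.1 hi).1
    exact ⟨h2, h3⟩

theorem marker [CompactSpace Y] [T2Space Y] [TotallyDisconnectedSpace Y] (f : Y ≃ₜ Y)
    (hf : ∀ (y : Y) (n : ℕ), 0 < n → f^[n] y ≠ y) {N : ℕ} (hN : 0 < N) :
    ∃ B : Set Y, Good f N B ∧ ∀ y, ∃ i < 2 * N - 1, f.symm^[i] y ∈ B := by
  choose U hU1 hU2 using exists_good f hf N
  obtain ⟨t, -, ht⟩ := (isCompact_univ (X := Y)).elim_nhds_subcover U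
    fun x _ => (hU1 x).1.isOpen.mem_nhds (hU2 x)
  have key : ∀ s : Finset Y, ∃ B : Set Y, Good f N B ∧
      ∀ y ∈ ⋃ x ∈ s, U x, ∃ i < N, f^[i] y ∈ B ∨ f.symm^[i] y ∈ B := by
    classical
    intro s
    induction s using Finset.induction_on with
    | empty => exact ⟨∅, ⟨isClopen_empty, by simp⟩, by simp⟩
    | insert x s _ ih =>
      obtain ⟨B, hB, h1⟩ := ih
      set W : Set Y := U x ∩ ⋂ i ∈ Finset.range N, ((f^[i]) ⁻¹' Bᶜ ∩ (f.symm^[i]) ⁻¹' Bᶜ) with hW
      have hWc : IsClopen W := by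
        refine (hU1 x).1.inter (isClopen_biInter_finset fun i _ => ?_)
        exact (hB.1.compl.preimage (f.continuous.iterate i)).inter
          (hB.1.compl.preimage (f.symm.continuous.iterate i))
      have hWm : ∀ y, y ∈ W → y ∈ U x ∧ ∀ i < N, f^[i] y ∉ B ∧ f.symm^[i] y ∉ B := by
        intro y hy
        refine ⟨hy.1, fun i hi => ?_⟩
        have := mem_iInter₂.1 hy.2 i (Finset.mem_range.2 hi)
        exact ⟨this.1, this.2⟩
      refine ⟨B ∪ W, ⟨hB.1.union hWc, ?_⟩, ?_⟩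
      · rintro y (hy | hy) i hi hiN (hi2 | hi2)
        · exact hB.2 y hy i hi hiN hi2
        · apply ((hWm _ hi2).2 i hiN).2
          rw [symmf]; exact hy
        · exact ((hWm _ hy).2 i hiN).1 hi2
        · exact (hU1 x).2 y (hWm _ hy).1 i hi hiN (hWm _ hi2).1
      · intro y hy
        by_cases hyW : y ∈ W
        · exact ⟨0, hN, Or.inl (Or.inr hyW)⟩
        rw [Finset.set_biUnion_insert] at hy
        rcases hy with hy | hy
        · have h2 : ∃ i < N, f^[i] y ∈ B ∨ f.symm^[i] y ∈ B := by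
            by_contra hcon
            push Not at hcon
            apply hyW
            refine ⟨hy, mem_iInter₂.2 fun i hi => ?_⟩
            exact hcon i (Finset.mem_range.1 hi)
          obtain ⟨i, hi, h3⟩ := h2
          exact ⟨i, hi, h3.imp Or.inl Or.inl⟩
        · obtain ⟨i, hi, h3⟩ := h1 y hy
          exact ⟨i, hi, h3.imp Or.inl Or.inl⟩
  obtain ⟨B, hB, h1⟩ := key t
  refine ⟨B, hB, fun y => ?_⟩
  obtain ⟨i, hi, h2⟩ := h1 (f.symm^[N - 1] y) (ht (mem_univ _))
  rcases h2 with h2 | h2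
  · rw [fsymm_le f (by omega)] at h2
    exact ⟨N - 1 - i, by omega, h2⟩
  · rw [← Function.iterate_add_apply] at h2
    exact ⟨i + (N - 1), by omega, h2⟩

/-- Sequences of labels: time since the last visit. -/
theorem labels [CompactSpace Y] [T2Space Y] [TotallyDisconnectedSpace Y] (f : Y ≃ₜ Y)
    (hf : ∀ (y : Y) (n : ℕ), 0 < n → f^[n] y ≠ y) {N : ℕ} (hN : 0 < N) :
    ∃ τ : Y → ℕ, Continuous τ ∧ (∀ y, τ y < 2 * N - 1) ∧
      ∀ y, ∃ l, τ y < l ∧ N ≤ l ∧ l < 2 * N ∧
        ∀ i < N, τ (f^[i] y) = if τ y + i < l then τ y + i else τ y + i - l := by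
  classical
  obtain ⟨B, hB, hcov⟩ := marker f hf hN
  have hex : ∀ y, ∃ i, f.symm^[i] y ∈ B := fun y => by
    obtain ⟨i, -, h⟩ := hcov y; exact ⟨i, h⟩
  set τ : Y → ℕ := fun y => Nat.find (hex y) with hτ
  have h1 : ∀ y, f.symm^[τ y] y ∈ B := fun y => Nat.find_spec (hex y)
  have h2 : ∀ y, ∀ j < τ y, f.symm^[j] y ∉ B := fun y j hj => Nat.find_min (hex y) hj
  have h3 : ∀ y j, f.symm^[j] y ∈ B → τ y ≤ j := fun y j hj => Nat.find_min' (hex y) hj
  have huniq : ∀ y j, f.symm^[j] y ∈ B → (∀ i < j, f.symm^[i] y ∉ B) → τ y = j := by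
    intro y j hj hi
    refine le_antisymm (h3 y j hj) ?_
    by_contra hcon
    exact hi _ (not_le.1 hcon) (h1 y)
  have hlt : ∀ y, τ y < 2 * N - 1 := fun y => by
    obtain ⟨i, hi, h⟩ := hcov y
    exact lt_of_le_of_lt (h3 y i h) hi
  refine ⟨τ, ?_, hlt, ?_⟩
  · rw [continuous_discrete_rng]
    intro k
    have : τ ⁻¹' {k} = (f.symm^[k]) ⁻¹' B ∩ ⋂ j ∈ Finset.range k, (f.symm^[j]) ⁻¹' Bᶜ := by
      ext y
      simp only [mem_preimage, mem_singleton_iff, mem_inter_iff, mem_iInter, Finset.mem_range,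
        mem_compl_iff]
      constructor
      · rintro rfl
        exact ⟨h1 y, h2 y⟩
      · rintro ⟨h4, h5⟩
        exact huniq y k h4 h5
    rw [this]
    refine ((hB.1.preimage (f.symm.continuous.iterate k)).inter
      (isClopen_biInter_finset fun j _ => ?_)).isOpen
    exact hB.1.compl.preimage (f.symm.continuous.iterate j)
  · intro y
    set t := τ y with ht
    set y₀ := f.symm^[t] y with hy₀
    have hy₀B : y₀ ∈ B := h1 y
    have hyy : f^[t] y₀ = y := fsymm f t y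
    -- the next visit
    have hnext : ∃ l, 0 < l ∧ f^[l] y₀ ∈ B := by
      set u := f^[2 * N - 1] y₀ with hu
      have h4 := h1 u
      have h5 := hlt u
      refine ⟨2 * N - 1 - τ u, by omega, ?_⟩
      have h6 : f.symm^[τ u] u = f^[2 * N - 1 - τ u] y₀ := symmf_le f (by omega) y₀
      rw [← h6]; exact h4
    set l := Nat.find hnext with hl
    have hl1 : 0 < l ∧ f^[l] y₀ ∈ B := Nat.find_spec hnext
    have hl2 : ∀ j, 0 < j → j < l → f^[j] y₀ ∉ B := by
      intro j hj hjl hcon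
      exact Nat.find_min hnext hjl ⟨hj, hcon⟩
    have hl3 : N ≤ l := by
      by_contra hcon
      exact hB.2 y₀ hy₀B l hl1.1 (by omega) hl1.2
    have hl4 : l < 2 * N := by
      set u := f^[2 * N - 1] y₀ with hu
      have h4 := h1 u
      have h5 := hlt u
      have h6 : f.symm^[τ u] u = f^[2 * N - 1 - τ u] y₀ := symmf_le f (by omega) y₀
      rw [h6] at h4
      by_contra hcon
      exact hl2 (2 * N - 1 - τ u) (by omega) (by omega) h4
    have hl5 : t < l := by
      by_contra hcon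
      have h4 : f^[l] y₀ = f.symm^[t - l] y := fsymm_le f (by omega) y
      have h5 := hl1.2
      rw [h4] at h5
      exact h2 y (t - l) (by omega) h5
    refine ⟨l, hl5, hl3, hl4, ?_⟩
    -- labels of the first block
    have hA : ∀ k < l, τ (f^[k] y₀) = k := by
      intro k hk
      refine huniq _ k (by rw [symmf]; exact hy₀B) ?_
      intro i hi
      rw [symmf_le f hi.le]
      exact hl2 _ (by omega) (by omega)
    have hA' : ∀ k < N, τ (f^[k] (f^[l] y₀)) = k := by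
      intro k hk
      refine huniq _ k (by rw [symmf]; exact hl1.2) ?_
      intro i hi
      rw [symmf_le f hi.le]
      exact hB.2 _ hl1.2 _ (by omega) (by omega)
    intro i hi
    have h4 : f^[i] y = f^[t + i] y₀ := by
      rw [Nat.add_comm, Function.iterate_add_apply, hyy]
    rw [h4]
    split_ifs with h5
    · exact hA _ h5
    · have h6 : f^[t + i] y₀ = f^[t + i - l] (f^[l] y₀) := by
        rw [← Function.iterate_add_apply]; congr 1; omega
      rw [h6]
      exact hA' _ (by omega)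

end Pool.Agent.R241.SK
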