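import Pool.Agent.R241.SK2

/-!
# Hyperbolic polynomial skew products: choice of the kicks
-/

set_option autoImplicit false

open Filter Topology Set Metric Polynomial MeasureTheory
open scoped ENNReal
open Pool.Agent.R241.NR

namespace Pool.Agent.R241.SK

theorem map_comp_inj {μ : Measure ℂ} [IsProbabilityMeasure μ] {m n : ℕ} (e : Fin n → Fin m)
    (he : Function.Injective e) :
    (Measure.pi (fun _ : Fin m => μ)).map (fun a i => a (e i)) =
      Measure.pi (fun _ : Fin n => μ) := by
  classical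
  symm
  apply Measure.pi_eq
  intro s hs
  rw [Measure.map_apply (by fun_prop) (MeasurableSet.univ_pi hs)]
  set F : Fin m → Set ℂ := fun j => if h : ∃ i, e i = j then s h.choose else univ with hF
  have hFe : ∀ i, F (e i) = s i := by
    intro i
    have h : ∃ k, e k = e i := ⟨i, rfl⟩
    have h2 : h.choose = i := he h.choose_spec
    simp only [hF]
    rw [dif_pos h, h2]
  have hset : (fun (a : Fin m → ℂ) (i : Fin n) => a (e i)) ⁻¹' (Set.univ.pi s) =
      Set.univ.pi F := by
    ext a
    simp only [mem_preimage, mem_univ_pi]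
    constructor
    · intro h j
      by_cases hj : ∃ i, e i = j
      · obtain ⟨i, rfl⟩ := hj
        rw [hFe]; exact h i
      · simp only [hF]; rw [dif_neg hj]; exact mem_univ _
    · intro h i
      rw [← hFe]; exact h _
  rw [hset, Measure.pi_pi]
  symm
  refine Fintype.prod_of_injective e he _ _ ?_ ?_
  · intro j hj
    have hj' : ¬ ∃ i, e i = j := fun ⟨i, hi⟩ => hj ⟨i, hi⟩
    simp only [hF]
    rw [dif_neg hj', measure_univ]
  · intro i
    rw [hFe]

theorem exists_kicks {T : ℂ[X]} (hT : 2 ≤ T.natDegree) {ε ρ : ℝ} (hε : 0 < ε) (hρ0 : 0 < ρ)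
    (hρ : ∀ z : ℂ, ρ < ‖z‖ → ∀ a : ℂ, ‖a‖ ≤ ε → 2 * ‖z‖ ≤ ‖T.eval z + a‖) :
    ∃ N : ℕ, 0 < N ∧ ∃ α : ℕ → ℂ, (∀ j, ‖α j‖ < ε) ∧
      ∀ ω : ℂ, (derivative T).eval ω = 0 → ∀ l t : ℕ, N ≤ l → l < 2 * N → t < l →
        S (fun w => T.eval w) (fun i => α (if t + i < l then t + i else t + i - l)) N ω ∈
          A (fun w => T.eval w) ε ρ := by
  classical
  have := isProb hε
  set g : ℂ → ℂ := fun w => T.eval w with hg
  have hgc : Continuous g := T.continuous
  have hT' : T.derivative ≠ 0 := by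
    intro h
    have := derivative_eq_zero.1 h
    omega
  obtain ⟨m, c, hc, hm⟩ := uniform_bound (g := g) hgc hε hρ hρ0
  set m' := m + 1 with hm'
  have hm2 : ∀ z, phi g ε ρ m' z ≤ c := fun z =>
    (phi_antitone hgc hε hρ hρ0 z (by omega)).trans (hm z)
  obtain ⟨q, hq0, hq1, hcq⟩ : ∃ q : ℝ, 0 < q ∧ q < 1 ∧ c ≤ ENNReal.ofReal q := by
    refine ⟨max c.toReal (1 / 2), by positivity, ?_, ?_⟩
    · refine max_lt ?_ (by norm_num)
      rw [← ENNReal.toReal_one]
      exact (ENNReal.toReal_lt_toReal (ne_top_of_lt hc) ENNReal.one_ne_top).2 hc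
    · rw [← ENNReal.ofReal_toReal (ne_top_of_lt hc)]
      exact ENNReal.ofReal_le_ofReal (by rw [ENNReal.toReal_ofReal ENNReal.toReal_nonneg]; exact le_max_left _ _)
  set D : ℕ := T.derivative.natDegree with hD
  -- choice of `N`
  obtain ⟨j, hj0, hj⟩ : ∃ j : ℕ, 0 < j ∧
      ((D * ((2 * (m' * j)) * (2 * (m' * j))) : ℕ) : ℝ) * q ^ j < 1 := by
    have h1 := (tendsto_pow_const_mul_const_pow_of_lt_one 2 hq0.le hq1).const_mul
      ((D : ℝ) * (4 * m' ^ 2))
    rw [mul_zero] at h1
    obtain ⟨j, h2, h3⟩ := ((h1.eventually (gt_mem_nhds one_pos)).and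
      (eventually_gt_atTop 0)).exists
    refine ⟨j, h3, ?_⟩
    push_cast
    push_cast at h2
    calc _ = (D : ℝ) * (4 * ((m : ℝ) + 1) ^ 2) * ((j : ℝ) ^ 2 * q ^ j) := by
            rw [hm']; push_cast; ring
      _ < 1 := by
            have : (D : ℝ) * (4 * ((m : ℝ) + 1) ^ 2) * ((j : ℝ) ^ 2 * q ^ j) =
              (D : ℝ) * (4 * (m' : ℝ) ^ 2) * ((j : ℝ) ^ 2 * q ^ j) := by rw [hm']; push_cast; ring
            rw [this]; exact h2
  set N := m' * j with hN
  have hN0 : 0 < N := by positivity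
  have hphi : ∀ z, phi g ε ρ N z ≤ ENNReal.ofReal (q ^ j) := by
    intro z
    refine (phi_mul_le hgc hε hρ hρ0 hc hm2 j z).trans ?_
    rw [ENNReal.ofReal_pow hq0.le]
    gcongr
  -- the index map
  have hlt : ∀ l t i : ℕ, l < 2 * N → t < l → i < N →
      (if t + i < l then t + i else t + i - l) < 2 * N := by
    intro l t i h1 h2 h3
    split_ifs <;> omega
  set E : (l t : ℕ) → l < 2 * N → t < l → Fin N → Fin (2 * N) := fun l t h1 h2 i =>
    ⟨if t + i < l then t + i else t + i - l, hlt l t i h1 h2 i.2⟩ with hE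
  have hEinj : ∀ (l t : ℕ) (h1 : l < 2 * N) (h2 : t < l), N ≤ l →
      Function.Injective (E l t h1 h2) := by
    intro l t h1 h2 h3 i i' hi
    have h4 := congrArg Fin.val hi
    simp only [hE] at h4
    have h5 := i.2
    have h6 := i'.2
    apply Fin.ext
    split_ifs at h4 <;> omega
  -- extension by zero
  set ext : (Fin (2 * N) → ℂ) → ℕ → ℂ := fun a j => if h : j < 2 * N then a ⟨j, h⟩ else 0 with hext
  set Bad : Set (Fin (2 * N) → ℂ) := ⋃ ω ∈ T.derivative.roots.toFinset,
    ⋃ l ∈ Finset.range (2 * N), ⋃ t ∈ Finset.range (2 * N),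
      {a | N ≤ l ∧ t < l ∧
        S g (fun i => ext a (if t + i < l then t + i else t + i - l)) N ω ∉ A g ε ρ} with hBad
  set Null : Set (Fin (2 * N) → ℂ) := ⋃ i : Fin (2 * N), (Function.eval i) ⁻¹' (ball (0 : ℂ) ε)ᶜ
    with hNull
  have hnull : Measure.pi (fun _ : Fin (2 * N) => unif ε) Null = 0 := by
    rw [hNull, measure_iUnion_null_iff]
    intro i
    exact Measure.pi_eval_preimage_null (fun _ : Fin (2 * N) => unif ε) (unif_compl hε)
  have hone : ∀ (ω : ℂ) (l t : ℕ), l < 2 * N → 
      Measure.pi (fun _ : Fin (2 * N) => unif ε) {a | N ≤ l ∧ t < l ∧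
        S g (fun i => ext a (if t + i < l then t + i else t + i - l)) N ω ∉ A g ε ρ} ≤
      ENNReal.ofReal (q ^ j) := by
    intro ω l t h1
    by_cases h2 : N ≤ l ∧ t < l
    · have hmB : MeasurableSet {a : Fin N → ℂ | orb g N a ω ∉ A g ε ρ} := by
        have h3 : Continuous fun a : Fin N → ℂ => orb g N a ω :=
          (orb_continuous hgc N).comp (continuous_id.prodMk continuous_const)
        exact (h3.measurable (measurable_A hgc)).compl
      have h4 := map_comp_inj (μ := unif ε) (E l t h1 h2.2) (hEinj l t h1 h2.2 h2.1)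
      have h5 : {a | N ≤ l ∧ t < l ∧
          S g (fun i => ext a (if t + i < l then t + i else t + i - l)) N ω ∉ A g ε ρ} =
          (fun (a : Fin (2 * N) → ℂ) (i : Fin N) => a (E l t h1 h2.2 i)) ⁻¹'
            {a : Fin N → ℂ | orb g N a ω ∉ A g ε ρ} := by
        ext a
        simp only [Set.mem_ofPred_eq, mem_preimage]
        rw [orb_eq_S g N _ (fun i => ext a (if t + i < l then t + i else t + i - l))]
        · constructor
          · rintro ⟨-, -, h⟩; exact h
          · intro h; exact ⟨h2.1, h2.2, h⟩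
        · intro i
          simp only [hext]
          rw [dif_pos (hlt l t i h1 h2.2 i.2)]
      rw [h5, ← Measure.map_apply (by fun_prop) hmB, h4]
      exact hphi ω
    · have h3 : {a | N ≤ l ∧ t < l ∧
          S g (fun i => ext a (if t + i < l then t + i else t + i - l)) N ω ∉ A g ε ρ} = ∅ := by
        ext a
        simp only [Set.mem_ofPred_eq, mem_empty_iff_false, iff_false]
        rintro ⟨h4, h5, -⟩
        exact h2 ⟨h4, h5⟩
      rw [h3, measure_empty]
      exact zero_le
  have hbad : Measure.pi (fun _ : Fin (2 * N) => unif ε) (Null ∪ Bad) < 1 := by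
    calc Measure.pi (fun _ : Fin (2 * N) => unif ε) (Null ∪ Bad)
        ≤ Measure.pi (fun _ : Fin (2 * N) => unif ε) Null +
          Measure.pi (fun _ : Fin (2 * N) => unif ε) Bad := measure_union_le _ _
      _ = Measure.pi (fun _ : Fin (2 * N) => unif ε) Bad := by rw [hnull, zero_add]
      _ ≤ ∑ ω ∈ T.derivative.roots.toFinset, ∑ l ∈ Finset.range (2 * N),
          ∑ t ∈ Finset.range (2 * N), ENNReal.ofReal (q ^ j) := by
          refine (measure_biUnion_finset_le _ _).trans (Finset.sum_le_sum fun ω _ => ?_)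
          refine (measure_biUnion_finset_le _ _).trans (Finset.sum_le_sum fun l hl => ?_)
          refine (measure_biUnion_finset_le _ _).trans (Finset.sum_le_sum fun t _ => ?_)
          exact hone ω l t (Finset.mem_range.1 hl)
      _ = (T.derivative.roots.toFinset.card * ((2 * N) * (2 * N)) : ℕ) *
            ENNReal.ofReal (q ^ j) := by
          simp only [Finset.sum_const, Finset.card_range, nsmul_eq_mul]
          push_cast
          ring
      _ ≤ (D * ((2 * N) * (2 * N)) : ℕ) * ENNReal.ofReal (q ^ j) := by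
          gcongr
          exact (Multiset.toFinset_card_le _).trans (card_roots' _)
      _ = ENNReal.ofReal (((D * ((2 * N) * (2 * N)) : ℕ) : ℝ) * q ^ j) := by
          rw [ENNReal.ofReal_mul (by positivity), ENNReal.ofReal_natCast]
      _ < 1 := by
          rw [← ENNReal.ofReal_one]
          exact (ENNReal.ofReal_lt_ofReal_iff one_pos).2 hj
  obtain ⟨a, ha⟩ : ∃ a, a ∉ Null ∪ Bad := by
    by_contra hcon
    push Not at hcon
    have h1 : Null ∪ Bad = univ := eq_univ_of_forall hcon
    rw [h1, measure_univ] at hbad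
    exact lt_irrefl _ hbad
  rw [mem_union, not_or] at ha
  refine ⟨N, hN0, ext a, ?_, ?_⟩
  · intro i
    simp only [hext]
    split_ifs with h
    · by_contra h4
      apply ha.1
      refine mem_iUnion.2 ⟨⟨i, h⟩, ?_⟩
      intro h5
      rw [mem_ball_zero_iff] at h5
      exact h4 h5
    · rw [norm_zero]; exact hε
  · intro ω hω l t h1 h2 h3
    by_contra h4
    apply ha.2
    refine mem_iUnion₂.2 ⟨ω, ?_, mem_iUnion₂.2 ⟨l, Finset.mem_range.2 h2,
      mem_iUnion₂.2 ⟨t, Finset.mem_range.2 (by omega), h1, h3, h4⟩⟩⟩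
    rw [Multiset.mem_toFinset, mem_roots hT']
    exact hω

end Pool.Agent.R241.SK
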