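import Mathlib

/-!
# Spacing shifts
-/

set_option autoImplicit false

open Filter Topology Set

namespace Pool.Agent.R241.SS

/-- The differences of the positions of the letters `true` of `x` belong to `P`. -/
def Adm (P : Set ℕ) (x : ℕ → Bool) : Prop :=
  ∀ i j, i < j → x i = true → x j = true → j - i ∈ P

/-- The spacing shift defined by `P`. -/
abbrev Sig (P : Set ℕ) : Type := {x : ℕ → Bool // Adm P x}

/-- The shift. -/
def shift (P : Set ℕ) (x : Sig P) : Sig P :=
  ⟨fun n => x.1 (n + 1), fun i j hij hi hj => by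
    have := x.2 (i + 1) (j + 1) (by omega) hi hj
    rwa [Nat.add_sub_add_right] at this⟩

variable {P : Set ℕ}

theorem shift_iterate (x : Sig P) (n i : ℕ) : ((shift P)^[n] x).1 i = x.1 (i + n) := by
  induction n generalizing i with
  | zero => rfl
  | succ n ih =>
    rw [Function.iterate_succ_apply']
    show ((shift P)^[n] x).1 (i + 1) = _
    rw [ih, show i + 1 + n = i + (n + 1) by omega]

theorem isClosed_adm (P : Set ℕ) : IsClosed {x : ℕ → Bool | Adm P x} := by
  have : {x : ℕ → Bool | Adm P x} = ⋂ (i : ℕ) (j : ℕ) (_ : i < j),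
      {x : ℕ → Bool | x i = true → x j = true → j - i ∈ P} := by
    ext x; simp [Adm]
  rw [this]
  refine isClosed_iInter fun i => isClosed_iInter fun j => isClosed_iInter fun _ => ?_
  by_cases h : j - i ∈ P
  · simp [h]
  · have h2 : {x : ℕ → Bool | x i = true → x j = true → j - i ∈ P} =
        {x : ℕ → Bool | x i = false} ∪ {x | x j = false} := by
      ext x
      simp only [Set.mem_ofPred_eq, h, mem_union]
      cases x i <;> cases x j <;> simp
    rw [h2]
    exact (isClosed_eq (continuous_apply i) continuous_const).union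
      (isClosed_eq (continuous_apply j) continuous_const)

instance (P : Set ℕ) : CompactSpace (Sig P) :=
  isCompact_iff_compactSpace.1 (isClosed_adm P).isCompact

theorem continuous_shift (P : Set ℕ) : Continuous (shift P) := by
  refine Continuous.subtype_mk ?_ _
  exact continuous_pi fun n => (continuous_apply (n + 1)).comp continuous_subtype_val

theorem shift_surjective (P : Set ℕ) : Function.Surjective (shift P) := by
  intro x
  refine ⟨⟨fun n => Nat.casesOn n false x.1, ?_⟩, ?_⟩
  · intro i j hij hi hj
    rcases i with _ | i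
    · simp at hi
    · rcases j with _ | j
      · omega
      · simp only at hi hj
        rw [Nat.add_sub_add_right]
        exact x.2 i j (by omega) hi hj
  · rfl

/-- Neighbourhoods contain cylinders. -/
theorem exists_cyl {x : ℕ → Bool} {U : Set (ℕ → Bool)} (hU : U ∈ 𝓝 x) :
    ∃ M : ℕ, ∀ y : ℕ → Bool, (∀ i < M, y i = x i) → y ∈ U := by
  obtain ⟨V, ⟨⟨z, n, rfl⟩, hx, hV⟩⟩ :=
    (PiNat.isTopologicalBasis_cylinders (fun _ : ℕ => Bool)).mem_nhds_iff.1 hU
  refine ⟨n, fun y hy => hV ?_⟩
  rw [PiNat.mem_cylinder_iff] at hx ⊢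
  intro i hi
  rw [hy i hi, hx i hi]

theorem exists_cyl_sig {x : Sig P} {U : Set (Sig P)} (hU : U ∈ 𝓝 x) :
    ∃ M : ℕ, ∀ y : Sig P, (∀ i < M, y.1 i = x.1 i) → y ∈ U := by
  rw [nhds_subtype_eq_comap] at hU
  obtain ⟨V, hV, hVU⟩ := hU
  obtain ⟨M, hM⟩ := exists_cyl hV
  exact ⟨M, fun y hy => hVU (hM y.1 hy)⟩

theorem isOpen_cyl (x : Sig P) (M : ℕ) : IsOpen {y : Sig P | ∀ i < M, y.1 i = x.1 i} := by
  have : {y : Sig P | ∀ i < M, y.1 i = x.1 i} = Subtype.val ⁻¹' (PiNat.cylinder x.1 M) := by
    ext y; simp [PiNat.mem_cylinder_iff]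
  rw [this]
  exact (PiNat.isOpen_cylinder _ _ _).preimage continuous_subtype_val

/-- The point which starts with the first `m` letters of `u`, continues with the first `m` letters of
`v` at the position `n`, and is `false` elsewhere. -/
def glue (u v : ℕ → Bool) (m n : ℕ) : ℕ → Bool := fun i =>
  if i < m then u i else if n ≤ i ∧ i < n + m then v (i - n) else false

theorem glue_adm {u v : ℕ → Bool} {m n : ℕ} (hmn : m ≤ n) (hu : Adm P u) (hv : Adm P v)
    (h : ∀ a < m, ∀ b < m, u a = true → v b = true → n + b - a ∈ P) : Adm P (glue u v m n) := by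
  intro i j hij hi hj
  unfold glue at hi hj
  split_ifs at hi with h1 h2
  · split_ifs at hj with h3 h4
    · exact hu i j hij hi hj
    · have := h i h1 (j - n) (by omega) hi hj
      rwa [show n + (j - n) - i = j - i by omega] at this
  · split_ifs at hj with h3 h4
    · omega
    · have := hv (i - n) (j - n) (by omega) hi hj
      rwa [show j - n - (i - n) = j - i by omega] at this

theorem glue_left {u v : ℕ → Bool} {m n i : ℕ} (hi : i < m) : glue u v m n i = u i := by
  simp [glue, hi]

theorem glue_right {u v : ℕ → Bool} {m n i : ℕ} (hmn : m ≤ n) (hi : i < m) :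
    glue u v m n (i + n) = v i := by
  unfold glue
  rw [if_neg (by omega), if_pos (by omega), Nat.add_sub_cancel]

/-- `P` is thick. -/
def Thick (P : Set ℕ) : Prop := ∀ N, ∃ s, ∀ r < N, s + r ∈ P

theorem Thick.far (hP : Thick P) (N M : ℕ) : ∃ n, M ≤ n ∧ ∀ r, n ≤ r + N → r ≤ n + N → r ∈ P := by
  obtain ⟨s, hs⟩ := hP (M + 2 * N + 1)
  refine ⟨s + M + N, by omega, fun r h1 h2 => ?_⟩
  have := hs (r - s) (by omega)
  rwa [show s + (r - s) = r by omega] at this

/-- A common time which glues. -/
theorem exists_glue (hP : Thick P) (m M : ℕ) : ∃ n, m ≤ n ∧ M ≤ n ∧ ∀ u v : ℕ → Bool,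
    Adm P u → Adm P v → Adm P (glue u v m n) := by
  obtain ⟨n, hn, h⟩ := hP.far m (max m M)
  refine ⟨n, (le_max_left _ _).trans hn, (le_max_right _ _).trans hn, fun u v hu hv => ?_⟩
  refine glue_adm ((le_max_left _ _).trans hn) hu hv fun a ha b hb _ _ => h _ ?_ ?_
  · have := (le_max_left m M).trans hn
    omega
  · omega

/-- The metric in which the distance is `(1 / 2) ^ n`, `n` the first index where the points differ. -/
@[reducible] noncomputable def boolMetric : MetricSpace (ℕ → Bool) :=
  PiNat.metricSpaceOfDiscreteUniformity fun _ => rfl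

/-- The induced metric on a spacing shift. -/
@[reducible] noncomputable def sigMetric (P : Set ℕ) : MetricSpace (Sig P) :=
  letI := boolMetric
  inferInstance

theorem sigMetric_top (P : Set ℕ) :
    (sigMetric P).toPseudoMetricSpace.toUniformSpace.toTopologicalSpace =
      instTopologicalSpaceSubtype := rfl

/-- The metric on a product of two spacing shifts. -/
@[reducible] noncomputable def prodMetric (P Q : Set ℕ) : MetricSpace (Sig P × Sig Q) :=
  @Prod.metricSpaceMax _ _ (sigMetric P) (sigMetric Q)

theorem prodMetric_top (P Q : Set ℕ) :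
    (prodMetric P Q).toPseudoMetricSpace.toUniformSpace.toTopologicalSpace =
      instTopologicalSpaceProd := rfl

end Pool.Agent.R241.SS
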