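import Pool.Agent.R241.SS1

/-!
# Spacing shifts and omega limit sets along return times
-/

set_option autoImplicit false

open Filter Topology Set

namespace Pool.Agent.R241.SS

section Defs

variable {X : Type*} [TopologicalSpace X]

/-- Open and nonempty. -/
def Opene (U : Set X) : Prop := IsOpen U ∧ U.Nonempty

/-- The return times `N_T(U, V) = {n : U ∩ T ^ (- n) V ≠ ∅}`. -/
def hits {X : Type*} (T : X → X) (U V : Set X) : Set ℕ := {n | (U ∩ T^[n] ⁻¹' V).Nonempty}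

/-- The family of the sets of numbers which contain some `N_T(U, V)` with `U`, `V` opene. -/
def returnFamily (T : X → X) : Set (Set ℕ) :=
  {F | ∃ U V : Set X, Opene U ∧ Opene V ∧ hits T U V ⊆ F}

/-- The intersection of the closures of `{T ^ i x : i ∈ F}` over the `F` in the family. -/
def omegaN (T : X → X) (x : X) : Set X :=
  ⋂ F ∈ returnFamily T, closure ((fun i : ℕ => T^[i] x) '' F)

/-- The usual omega limit set: the intersection of the closures of `{T ^ k y : k ≥ n}`, `n ≥ 1`. -/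
def omega (T : X → X) (y : X) : Set X :=
  ⋂ n ≥ 1, closure ((fun k : ℕ => T^[k] y) '' {k | n ≤ k})

/-- `T` is weakly mixing: `T × T` is topologically transitive. -/
def WeaklyMixing (T : X → X) : Prop :=
  ∀ W₁ W₂ : Set (X × X), Opene W₁ → Opene W₂ → (hits (Prod.map T T) W₁ W₂).Nonempty

end Defs

variable {P Q : Set ℕ}

/-- The product of two spacing shifts. -/
def T2 (P Q : Set ℕ) : Sig P × Sig Q → Sig P × Sig Q := Prod.map (shift P) (shift Q)

theorem T2_iterate (x : Sig P × Sig Q) (n : ℕ) :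
    (T2 P Q)^[n] x = ((shift P)^[n] x.1, (shift Q)^[n] x.2) := by
  unfold T2
  rw [Prod.map_iterate]
  rfl

theorem exists_cyl_prod {x : Sig P × Sig Q} {U : Set (Sig P × Sig Q)} (hU : U ∈ 𝓝 x) :
    ∃ M : ℕ, ∀ y : Sig P × Sig Q, (∀ i < M, y.1.1 i = x.1.1 i) → (∀ i < M, y.2.1 i = x.2.1 i) →
      y ∈ U := by
  rw [nhds_prod_eq, mem_prod_iff] at hU
  obtain ⟨V, hV, W, hW, hVW⟩ := hU
  obtain ⟨m, hm⟩ := exists_cyl_sig hV
  obtain ⟨k, hk⟩ := exists_cyl_sig hW
  refine ⟨max m k, fun y h1 h2 => hVW ⟨hm _ fun i hi => h1 i ?_, hk _ fun i hi => h2 i ?_⟩⟩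
  · exact lt_of_lt_of_le hi (le_max_left _ _)
  · exact lt_of_lt_of_le hi (le_max_right _ _)

/-- Gluing in the product of two spacing shifts. -/
theorem glue2 {m n : ℕ} (hmn : m ≤ n) (u v : Sig P × Sig Q) (h1 : Adm P (glue u.1.1 v.1.1 m n))
    (h2 : Adm Q (glue u.2.1 v.2.1 m n)) : ∃ z : Sig P × Sig Q,
      (∀ i < m, z.1.1 i = u.1.1 i) ∧ (∀ i < m, z.2.1 i = u.2.1 i) ∧
      (∀ i < m, ((T2 P Q)^[n] z).1.1 i = v.1.1 i) ∧
      (∀ i < m, ((T2 P Q)^[n] z).2.1 i = v.2.1 i) := by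
  refine ⟨(⟨_, h1⟩, ⟨_, h2⟩), fun i hi => glue_left hi, fun i hi => glue_left hi,
    fun i hi => ?_, fun i hi => ?_⟩
  · rw [T2_iterate]
    simp only
    rw [shift_iterate]
    exact glue_right hmn hi
  · rw [T2_iterate]
    simp only
    rw [shift_iterate]
    exact glue_right hmn hi

theorem weaklyMixing_T2 (h : ∀ m : ℕ, ∃ n, m ≤ n ∧
    (∀ u v : ℕ → Bool, Adm P u → Adm P v → Adm P (glue u v m n)) ∧
    ∀ u v : ℕ → Bool, Adm Q u → Adm Q v → Adm Q (glue u v m n)) : WeaklyMixing (T2 P Q) := by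
  rintro W₁ W₂ ⟨ho1, ⟨u, u'⟩, hu⟩ ⟨ho2, ⟨v, v'⟩, hv⟩
  have h1 := ho1.mem_nhds hu
  have h2 := ho2.mem_nhds hv
  rw [nhds_prod_eq, mem_prod_iff] at h1 h2
  obtain ⟨A, hA, A', hA', hAA⟩ := h1
  obtain ⟨B, hB, B', hB', hBB⟩ := h2
  obtain ⟨a, ha⟩ := exists_cyl_prod hA
  obtain ⟨a', ha'⟩ := exists_cyl_prod hA'
  obtain ⟨b, hb⟩ := exists_cyl_prod hB
  obtain ⟨b', hb'⟩ := exists_cyl_prod hB'
  obtain ⟨m, hm⟩ : ∃ m, m = a + a' + b + b' := ⟨_, rfl⟩
  obtain ⟨n, hmn, hg1, hg2⟩ := h m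
  obtain ⟨z, hz1, hz2, hz3, hz4⟩ := glue2 hmn u v (hg1 _ _ u.1.2 v.1.2) (hg2 _ _ u.2.2 v.2.2)
  obtain ⟨z', hz1', hz2', hz3', hz4'⟩ :=
    glue2 hmn u' v' (hg1 _ _ u'.1.2 v'.1.2) (hg2 _ _ u'.2.2 v'.2.2)
  refine ⟨n, (z, z'), hAA ⟨ha _ (fun i hi => hz1 i (by omega)) (fun i hi => hz2 i (by omega)),
    ha' _ (fun i hi => hz1' i (by omega)) (fun i hi => hz2' i (by omega))⟩, ?_⟩
  rw [mem_preimage, Prod.map_iterate]
  exact hBB ⟨hb _ (fun i hi => hz3 i (by omega)) (fun i hi => hz4 i (by omega)),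
    hb' _ (fun i hi => hz3' i (by omega)) (fun i hi => hz4' i (by omega))⟩

/-- The spacings. -/
def PA : Set ℕ := {p | ∃ k : ℕ, 1 ≤ k ∧ 10 ^ k ≤ p ∧ p ≤ 10 ^ k + k}

theorem thick_PA : Thick PA := by
  intro N
  exact ⟨10 ^ (N + 1), fun r hr => ⟨N + 1, by omega, by omega, by omega⟩⟩

/-- The blocks: `w n` is the parity of `k` for `5 * 10 ^ (k - 1) ≤ n < 5 * 10 ^ k`. -/
noncomputable def wA (n : ℕ) : Bool := decide (Nat.log 10 (2 * n) % 2 = 1)

theorem wA_eq {k n : ℕ} (hk : 1 ≤ k) (h1 : 10 ^ k ≤ 2 * n) (h2 : 2 * n < 10 ^ (k + 1)) :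
    wA n = decide (k % 2 = 1) := by
  unfold wA
  rw [(Nat.log_eq_iff (Or.inl (by omega : k ≠ 0))).2 ⟨h1, h2⟩]

theorem adm_univ (x : ℕ → Bool) : Adm univ x := fun _ _ _ _ _ => mem_univ _

theorem adm_zero (P : Set ℕ) : Adm P fun _ => false := fun _ _ _ h _ => by simp at h

theorem adm_single (P : Set ℕ) (a : ℕ) : Adm P fun i => decide (i = a) := by
  intro i j hij hi hj
  simp only [decide_eq_true_eq] at hi hj
  omega

/-- The point. -/
noncomputable def xA : Sig PA × Sig (univ : Set ℕ) := (⟨_, adm_zero PA⟩, ⟨wA, adm_univ wA⟩)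

/-- The two fixed points. -/
def pA (b : Bool) : Sig PA × Sig (univ : Set ℕ) := (⟨_, adm_zero PA⟩, ⟨fun _ => b, adm_univ _⟩)

theorem T2_xA (n i : ℕ) : ((T2 PA univ)^[n] xA).1.1 i = false ∧
    ((T2 PA univ)^[n] xA).2.1 i = wA (i + n) := by
  rw [T2_iterate]
  constructor
  · simp only
    rw [shift_iterate]
    rfl
  · simp only
    rw [shift_iterate]
    rfl

theorem pA_mem (b : Bool) : pA b ∈ omegaN (T2 PA univ) xA := by
  refine mem_iInter₂.2 fun F hF => ?_
  obtain ⟨U, V, ⟨hUo, u, hu⟩, ⟨hVo, v, hv⟩, hF⟩ := hF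
  rw [mem_closure_iff_nhds]
  intro G hG
  obtain ⟨a, ha⟩ := exists_cyl_prod (hUo.mem_nhds hu)
  obtain ⟨c, hc⟩ := exists_cyl_prod (hVo.mem_nhds hv)
  obtain ⟨l, hl⟩ := exists_cyl_prod hG
  obtain ⟨m, hm⟩ : ∃ m, m = a + c + l := ⟨_, rfl⟩
  obtain ⟨k, hk1, hk2⟩ : ∃ k, 2 * m + 1 ≤ k ∧ decide (k % 2 = 1) = b := by
    cases b
    · exact ⟨2 * m + 2, by omega, by simp⟩
    · exact ⟨2 * m + 1, by omega, by simp⟩
  have hk10 : k < 10 ^ k := Nat.lt_pow_self (by norm_num)
  obtain ⟨n, hn⟩ : ∃ n, n = 10 ^ k + m := ⟨_, rfl⟩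
  have hmn : m ≤ n := by omega
  obtain ⟨z, hz1, hz2, hz3, hz4⟩ := glue2 hmn u v
    (glue_adm hmn u.1.2 v.1.2 fun a' ha' b' hb' _ _ => ⟨k, by omega, by omega, by omega⟩)
    (adm_univ _)
  refine ⟨(T2 PA univ)^[n] xA, hl _ (fun i _ => ?_) (fun i hi => ?_), n, ?_, rfl⟩
  · rw [(T2_xA n i).1]; rfl
  · rw [(T2_xA n i).2, wA_eq (k := k) (by omega) (by omega) (by rw [pow_succ]; omega), hk2]
    rfl
  · apply hF
    exact ⟨z, ha _ (fun i hi => hz1 i (by omega)) (fun i hi => hz2 i (by omega)),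
      hc _ (fun i hi => hz3 i (by omega)) (fun i hi => hz4 i (by omega))⟩

theorem isOpen_coord1 (i : ℕ) (b : Bool) :
    IsOpen {y : Sig P × Sig Q | y.1.1 i = b} := by
  have : Continuous fun y : Sig P × Sig Q => y.1.1 i :=
    (continuous_apply i).comp (continuous_subtype_val.comp continuous_fst)
  exact (isOpen_discrete {b}).preimage this

theorem isOpen_coord2 (i : ℕ) (b : Bool) :
    IsOpen {y : Sig P × Sig Q | y.2.1 i = b} := by
  have : Continuous fun y : Sig P × Sig Q => y.2.1 i :=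
    (continuous_apply i).comp (continuous_subtype_val.comp continuous_snd)
  exact (isOpen_discrete {b}).preimage this

theorem omegaN_subset {z : Sig PA × Sig (univ : Set ℕ)} (hz : z ∈ omegaN (T2 PA univ) xA) :
    ∃ b, z = pA b := by
  have h1 : ∀ i, z.1.1 i = false := by
    intro i
    have h2 : (univ : Set ℕ) ∈ returnFamily (T2 PA univ) :=
      ⟨univ, univ, ⟨isOpen_univ, ⟨xA, mem_univ _⟩⟩, ⟨isOpen_univ, ⟨xA, mem_univ _⟩⟩,
        subset_univ _⟩
    have h3 := mem_iInter₂.1 hz _ h2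
    rw [mem_closure_iff] at h3
    obtain ⟨y, hy1, n, -, rfl⟩ := h3 _ (isOpen_coord1 i (z.1.1 i)) rfl
    have h4 := (T2_xA n i).1
    simp only [Set.mem_ofPred_eq] at hy1
    rw [← hy1, h4]
  have h2 : ∀ i, z.2.1 i = z.2.1 (i + 1) := by
    intro i
    by_contra hne
    obtain ⟨m, hm⟩ : ∃ m, m = 2 * 10 ^ (i + 1) := ⟨_, rfl⟩
    set U : Set (Sig PA × Sig (univ : Set ℕ)) :=
      {y | ∀ j < m + 1, y.1.1 j = decide (j = 0)} with hU
    set V : Set (Sig PA × Sig (univ : Set ℕ)) := {y | y.1.1 1 = true} with hV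
    have hUo : IsOpen U := by
      have : U = ⋂ j ∈ Finset.range (m + 1), {y | y.1.1 j = decide (j = 0)} := by
        ext y; simp [hU]
      rw [this]
      exact isOpen_biInter_finset fun j _ => isOpen_coord1 j _
    have hF : hits (T2 PA univ) U V ∈ returnFamily (T2 PA univ) := by
      refine ⟨U, V, ⟨hUo, ⟨(⟨_, adm_single PA 0⟩, ⟨_, adm_univ fun _ => false⟩), ?_⟩⟩,
        ⟨isOpen_coord1 1 true, ⟨(⟨_, adm_single PA 1⟩, ⟨_, adm_univ fun _ => false⟩), ?_⟩⟩,
        subset_rfl⟩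
      · intro j _; rfl
      · simp [hV]
    have h3 := mem_iInter₂.1 hz _ hF
    rw [mem_closure_iff] at h3
    obtain ⟨y, ⟨hy1, hy2⟩, n, ⟨u, huU, huV⟩, rfl⟩ := h3 _
      ((isOpen_coord2 i (z.2.1 i)).inter (isOpen_coord2 (i + 1) (z.2.1 (i + 1)))) ⟨rfl, rfl⟩
    simp only [Set.mem_ofPred_eq] at hy1 hy2
    rw [(T2_xA n _).2] at hy1 hy2
    have hu1 : u.1.1 (1 + n) = true := by
      have : ((T2 PA univ)^[n] u).1.1 1 = true := huV
      rw [T2_iterate] at this
      simp only at this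
      rwa [shift_iterate] at this
    have hu0 : u.1.1 0 = true := by rw [huU 0 (by omega)]; rfl
    have hn : m ≤ n := by
      by_contra h
      have := huU (1 + n) (by omega)
      rw [hu1] at this
      simp at this
    have hP := u.1.2 0 (1 + n) (by omega) hu0 hu1
    obtain ⟨k, hk, hk1, hk2⟩ := hP
    have hk10 : k < 10 ^ k := Nat.lt_pow_self (by norm_num)
    have hik : i + 1 ≤ k := by
      by_contra h
      have : 10 ^ k ≤ 10 ^ i := Nat.pow_le_pow_right (by norm_num) (by omega)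
      have : 10 ^ (i + 1) = 10 * 10 ^ i := by rw [pow_succ]; ring
      omega
    have e1 : 10 ^ (k + 1) = 10 * 10 ^ k := by rw [pow_succ]; ring
    rw [wA_eq (k := k) hk (by omega) (by omega)] at hy1 hy2
    exact hne (hy1.symm.trans hy2)
  refine ⟨z.2.1 0, ?_⟩
  have h3 : ∀ i, z.2.1 i = z.2.1 0 := fun i => by
    induction i with
    | zero => rfl
    | succ i ih => rw [← h2 i, ih]
  refine Prod.ext (Subtype.ext ?_) (Subtype.ext ?_)
  · funext i; exact h1 i
  · funext i; exact h3 i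

/-- No omega limit set consists of the two fixed points. -/
theorem omega_ne (y : Sig PA × Sig (univ : Set ℕ)) :
    omega (T2 PA univ) y ≠ omegaN (T2 PA univ) xA := by
  intro heq
  set T := T2 PA univ with hT
  set G : Bool → Set (Sig PA × Sig (univ : Set ℕ)) := fun b => {y | y.2.1 0 = b} ∩ {y | y.2.1 1 = b}
    with hG
  have hGo : ∀ b, IsOpen (G b) := fun b => (isOpen_coord2 0 b).inter (isOpen_coord2 1 b)
  have hGc : ∀ b, IsClosed (G b) := by
    intro b
    have c : ∀ i, IsClosed {y : Sig PA × Sig (univ : Set ℕ) | y.2.1 i = b} := by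
      intro i
      have : Continuous fun y : Sig PA × Sig (univ : Set ℕ) => y.2.1 i :=
        (continuous_apply i).comp (continuous_subtype_val.comp continuous_snd)
      exact (isClosed_discrete {b}).preimage this
    exact (c 0).inter (c 1)
  have hpG : ∀ b, pA b ∈ G b := fun b => ⟨rfl, rfl⟩
  -- eventually near the fixed points
  have hev : ∀ᶠ n in atTop, T^[n] y ∈ G false ∪ G true := by
    by_contra hcon
    have hfr : ∃ᶠ n in atTop, T^[n] y ∈ (G false ∪ G true)ᶜ := not_eventually.1 hcon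
    have hK : IsCompact (G false ∪ G true)ᶜ :=
      ((hGo false).union (hGo true)).isClosed_compl.isCompact
    obtain ⟨z, hz, hcl⟩ := hK.exists_mapClusterPt_of_frequently hfr
    have hz2 : z ∈ omega T y := by
      refine mem_iInter₂.2 fun n _ => ?_
      rw [mem_closure_iff_nhds]
      intro s hs
      have h1 := mapClusterPt_iff_frequently.1 hcl s hs
      obtain ⟨k, hk1, hk2⟩ := (h1.and_eventually (eventually_ge_atTop n)).exists
      exact ⟨_, hk1, k, hk2, rfl⟩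
    rw [heq] at hz2
    obtain ⟨b, rfl⟩ := omegaN_subset hz2
    apply hz
    cases b
    · exact Or.inl (hpG false)
    · exact Or.inr (hpG true)
  obtain ⟨N, hN⟩ := eventually_atTop.1 hev
  have hstep : ∀ n ≥ N, ∀ b, T^[n] y ∈ G b → T^[n + 1] y ∈ G b := by
    intro n hn b hb
    have h1 : (T^[n + 1] y).2.1 0 = b := by
      have h2 : (T^[n] y).2.1 1 = b := hb.2
      rw [Function.iterate_succ_apply']
      exact h2
    rcases hN (n + 1) (by omega) with h | h
    · have : (T^[n + 1] y).2.1 0 = false := h.1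
      rw [h1] at this
      rw [this]; exact h
    · have : (T^[n + 1] y).2.1 0 = true := h.1
      rw [h1] at this
      rw [this]; exact h
  have hstay : ∀ b, T^[N] y ∈ G b → ∀ n ≥ N, T^[n] y ∈ G b := by
    intro b hb n hn
    induction n, hn using Nat.le_induction with
    | base => exact hb
    | succ n hn ih => exact hstep n hn b ih
  have hfin : ∀ b, T^[N] y ∈ G b → ∀ b', pA b' ∈ G b := by
    intro b hb b'
    have h1 : pA b' ∈ omega T y := by rw [heq]; exact pA_mem b'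
    have h2 := mem_iInter₂.1 h1 (N + 1) (by omega)
    refine closure_minimal ?_ (hGc b) h2
    rintro _ ⟨k, hk, rfl⟩
    have hk' : N + 1 ≤ k := hk
    exact hstay b hb k (by omega)
  rcases hN N le_rfl with h | h
  · have := (hfin false h true).1
    simp [pA] at this
  · have := (hfin true h false).1
    simp [pA] at this

end Pool.Agent.R241.SS
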