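import Pool.Agent.R241.SSA

/-!
# A transitive point without a transitive partner
-/

set_option autoImplicit false

open Filter Topology Set

namespace Pool.Agent.R241.SS

/-- Transitive point: the forward orbit is dense. -/
def IsTransPt {X : Type*} [TopologicalSpace X] (T : X → X) (x : X) : Prop :=
  Dense (range fun n : ℕ => T^[n] x)

/-- Weak mixing gives a transitive point of the square. -/
theorem exists_transPt {X : Type*} [TopologicalSpace X] [SecondCountableTopology X]
    [CompactSpace X] [T2Space X] [Nonempty X] {T : X → X} (hT : Continuous T)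
    (h : WeaklyMixing T) : ∃ z : X × X, IsTransPt (Prod.map T T) z := by
  obtain ⟨b, hbc, hb0, hb⟩ := TopologicalSpace.exists_countable_basis (X × X)
  have hTT : Continuous (Prod.map T T) := hT.prodMap hT
  have hd : Dense (⋂ U ∈ b, ⋃ n : ℕ, (Prod.map T T)^[n] ⁻¹' U) := by
    refine dense_biInter_of_isOpen (fun U hU => isOpen_iUnion fun n =>
      (hb.isOpen hU).preimage (hTT.iterate n)) hbc fun U hU => ?_
    rw [dense_iff_inter_open]
    intro W hW hWne
    have hUne : U.Nonempty := by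
      rw [nonempty_iff_ne_empty]
      rintro rfl
      exact hb0 hU
    obtain ⟨n, z, hz1, hz2⟩ := h W U ⟨hW, hWne⟩ ⟨hb.isOpen hU, hUne⟩
    exact ⟨z, hz1, mem_iUnion.2 ⟨n, hz2⟩⟩
  obtain ⟨z, hz⟩ := hd.nonempty
  refine ⟨z, ?_⟩
  unfold IsTransPt
  rw [hb.dense_iff]
  intro U hU _
  obtain ⟨n, hn⟩ := mem_iUnion.1 (mem_iInter₂.1 hz U hU)
  exact ⟨_, hn, n, rfl⟩

/-- The pairs `(p, a)` with disjoint supports and such that the differences of the positions in the
support of `a` are in the support of `p`. -/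
def Good (q : (ℕ → Bool) × (ℕ → Bool)) : Prop :=
  (∀ i, q.2 i = true → q.1 i = false) ∧ q.2 0 = false ∧
    ∀ i j, i < j → q.2 i = true → q.2 j = true → q.1 (j - i) = true

/-- The space of the good pairs. -/
abbrev Y : Type := {q : (ℕ → Bool) × (ℕ → Bool) // Good q}

theorem continuous_p (i : ℕ) : Continuous fun q : (ℕ → Bool) × (ℕ → Bool) => q.1 i :=
  (continuous_apply i).comp continuous_fst

theorem continuous_a (i : ℕ) : Continuous fun q : (ℕ → Bool) × (ℕ → Bool) => q.2 i :=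
  (continuous_apply i).comp continuous_snd

theorem isClosed_good : IsClosed {q : (ℕ → Bool) × (ℕ → Bool) | Good q} := by
  have : {q : (ℕ → Bool) × (ℕ → Bool) | Good q} =
      (⋂ i : ℕ, {q : (ℕ → Bool) × (ℕ → Bool) | q.2 i = true → q.1 i = false}) ∩
      {q | q.2 0 = false} ∩
      ⋂ (i : ℕ) (j : ℕ) (_ : i < j), {q : (ℕ → Bool) × (ℕ → Bool) |
        q.2 i = true → q.2 j = true → q.1 (j - i) = true} := by
    ext q; simp [Good, and_assoc]
  rw [this]
  refine ((isClosed_iInter fun i => ?_).inter ?_).inter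
    (isClosed_iInter fun i => isClosed_iInter fun j => isClosed_iInter fun _ => ?_)
  · have : {q : (ℕ → Bool) × (ℕ → Bool) | q.2 i = true → q.1 i = false} =
        {q | q.2 i = false} ∪ {q | q.1 i = false} := by
      ext q
      simp only [Set.mem_ofPred_eq, mem_union]
      cases q.1 i <;> cases q.2 i <;> simp
    rw [this]
    exact (isClosed_eq (continuous_a i) continuous_const).union
      (isClosed_eq (continuous_p i) continuous_const)
  · exact isClosed_eq (continuous_a 0) continuous_const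
  · have : {q : (ℕ → Bool) × (ℕ → Bool) | q.2 i = true → q.2 j = true → q.1 (j - i) = true} =
        {q | q.2 i = false} ∪ {q | q.2 j = false} ∪ {q | q.1 (j - i) = true} := by
      ext q
      simp only [Set.mem_ofPred_eq, mem_union]
      cases q.2 i <;> cases q.2 j <;> cases q.1 (j - i) <;> simp
    rw [this]
    exact ((isClosed_eq (continuous_a i) continuous_const).union
      (isClosed_eq (continuous_a j) continuous_const)).union
      (isClosed_eq (continuous_p (j - i)) continuous_const)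

instance : CompactSpace Y := isCompact_iff_compactSpace.1 isClosed_good.isCompact

theorem good_zero : Good (fun _ => false, fun _ => false) :=
  ⟨fun _ _ => rfl, rfl, fun _ _ _ h _ => by simp at h⟩

instance : Nonempty Y := ⟨⟨_, good_zero⟩⟩

theorem exists_cyl_Y {x : Y} {U : Set Y} (hU : U ∈ 𝓝 x) :
    ∃ M : ℕ, ∀ y : Y, (∀ i < M, y.1.1 i = x.1.1 i) → (∀ i < M, y.1.2 i = x.1.2 i) → y ∈ U := by
  rw [nhds_subtype_eq_comap] at hU
  obtain ⟨V, hV, hVU⟩ := hU
  rw [nhds_prod_eq, mem_prod_iff] at hV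
  obtain ⟨A, hA, B, hB, hAB⟩ := hV
  obtain ⟨m, hm⟩ := exists_cyl hA
  obtain ⟨k, hk⟩ := exists_cyl hB
  refine ⟨max m k, fun y h1 h2 => hVU (hAB ⟨hm _ fun i hi => h1 i ?_, hk _ fun i hi => h2 i ?_⟩)⟩
  · exact lt_of_lt_of_le hi (le_max_left _ _)
  · exact lt_of_lt_of_le hi (le_max_right _ _)

/-- Extension of a good pair by a block at a far place. -/
theorem extend (q : Y) (M : ℕ) (B : Finset ℕ) (l N : ℕ) (hB : ∀ b ∈ B, b < l)
    (hBp : ∀ b ∈ B, ∀ b' ∈ B, b < b' → q.1.1 (b' - b) = true) :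
    ∃ q' : Y, (∀ i < M, q'.1.1 i = q.1.1 i) ∧ (∀ i < M, q'.1.2 i = q.1.2 i) ∧
      ∃ t, N ≤ t ∧ ∀ i < l, q'.1.2 (t + i) = decide (i ∈ B) := by
  obtain ⟨⟨p, a⟩, hg1, hg2, hg3⟩ := q
  simp only at hg1 hg2 hg3 hBp
  obtain ⟨K, hK⟩ : ∃ K, K = M + l + 1 := ⟨_, rfl⟩
  obtain ⟨t, ht⟩ : ∃ t, t = N + 2 * K := ⟨_, rfl⟩
  classical
  set p' : ℕ → Bool := fun i => if i < K then p i else
    decide (∃ b ∈ B, ∃ j < K, a j = true ∧ i = t + b - j) with hp'
  set a' : ℕ → Bool := fun i => if i < K then a i else decide (∃ b ∈ B, i = t + b) with ha'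
  have hlow : ∀ i < K, p' i = p i := fun i hi => by simp [hp', hi]
  have hlowa : ∀ i < K, a' i = a i := fun i hi => by simp [ha', hi]
  have hgood : Good (p', a') := by
    refine ⟨fun i hi => ?_, ?_, fun i j hij hi hj => ?_⟩
    · simp only at hi ⊢
      by_cases h : i < K
      · rw [hlowa i h] at hi
        rw [hlow i h]
        exact hg1 i hi
      · simp only [ha', if_neg h, decide_eq_true_eq] at hi
        simp only [hp', if_neg h, decide_eq_false_iff_not]
        obtain ⟨b, hb, rfl⟩ := hi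
        rintro ⟨b', hb', j, hj, haj, he⟩
        have hj0 : j ≠ 0 := by rintro rfl; rw [hg2] at haj; simp at haj
        have h2 : b' - b = j := by omega
        have h3 := hBp b hb b' hb' (by omega)
        rw [h2, hg1 j haj] at h3
        simp at h3
    · simp only
      rw [hlowa 0 (by omega)]
      exact hg2
    · simp only at hi hj ⊢
      by_cases h1 : i < K
      · rw [hlowa i h1] at hi
        by_cases h2 : j < K
        · rw [hlowa j h2] at hj
          rw [hlow _ (by omega)]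
          exact hg3 i j hij hi hj
        · simp only [ha', if_neg h2, decide_eq_true_eq] at hj
          obtain ⟨b, hb, rfl⟩ := hj
          have h3 : ¬ (t + b - i < K) := by omega
          simp only [hp', if_neg h3, decide_eq_true_eq]
          exact ⟨b, hb, i, h1, hi, rfl⟩
      · have h2 : ¬ j < K := by omega
        simp only [ha', if_neg h1, decide_eq_true_eq] at hi
        simp only [ha', if_neg h2, decide_eq_true_eq] at hj
        obtain ⟨b, hb, rfl⟩ := hi
        obtain ⟨b', hb', rfl⟩ := hj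
        have h3 := hBp b hb b' hb' (by omega)
        have h4 := hB b' hb'
        rw [show t + b' - (t + b) = b' - b by omega, hlow _ (by omega)]
        exact h3
  refine ⟨⟨(p', a'), hgood⟩, fun i hi => hlow i (by omega), fun i hi => hlowa i (by omega), t,
    by omega, fun i hi => ?_⟩
  have h1 : ¬ (t + i < K) := by omega
  simp only [ha', if_neg h1]
  congr 1
  apply propext
  constructor
  · rintro ⟨b, hb, he⟩
    rwa [show i = b by omega]
  · intro h
    exact ⟨i, h, rfl⟩

theorem extend_thick (q : Y) (M N : ℕ) :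
    ∃ q' : Y, (∀ i < M, q'.1.1 i = q.1.1 i) ∧ (∀ i < M, q'.1.2 i = q.1.2 i) ∧
      ∃ s, ∀ r < N, q'.1.1 (s + r) = true := by
  obtain ⟨⟨p, a⟩, hg1, hg2, hg3⟩ := q
  simp only at hg1 hg2 hg3
  obtain ⟨K, hK⟩ : ∃ K, K = M + 1 := ⟨_, rfl⟩
  refine ⟨⟨(fun i => if i < K then p i else true, fun i => if i < K then a i else false), ?_⟩,
    fun i hi => by simp [show i < K by omega], fun i hi => by simp [show i < K by omega], K,
    fun r _ => by simp⟩
  refine ⟨fun i hi => ?_, ?_, fun i j hij hi hj => ?_⟩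
  · simp only at hi ⊢
    split_ifs at hi ⊢ with h
    exact hg1 i hi
  · simp only
    rw [if_pos (by omega)]
    exact hg2
  · simp only at hi hj ⊢
    split_ifs at hi hj with h1 h2
    rw [if_pos (by omega)]
    exact hg3 i j hij hi hj

theorem isOpen_p (i : ℕ) (b : Bool) : IsOpen {q : Y | q.1.1 i = b} :=
  (isOpen_discrete {b}).preimage ((continuous_p i).comp continuous_subtype_val)

theorem isOpen_a (i : ℕ) (b : Bool) : IsOpen {q : Y | q.1.2 i = b} :=
  (isOpen_discrete {b}).preimage ((continuous_a i).comp continuous_subtype_val)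

/-- The generic pair. -/
theorem exists_pair : ∃ q : Y, (∀ N, ∃ s, ∀ r < N, q.1.1 (s + r) = true) ∧
    ∀ (B : Finset ℕ) (l N : ℕ), (∀ b ∈ B, b < l) →
      (∀ b ∈ B, ∀ b' ∈ B, b < b' → q.1.1 (b' - b) = true) →
      ∃ t, N ≤ t ∧ ∀ i < l, q.1.2 (t + i) = decide (i ∈ B) := by
  set D : ℕ → Set Y := fun N => ⋃ s : ℕ, ⋂ r ∈ Finset.range N, {q : Y | q.1.1 (s + r) = true}
    with hD
  set E : Finset ℕ × ℕ × ℕ → Set Y := fun w =>
    (⋃ b ∈ w.1, ⋃ b' ∈ w.1, ⋃ _ : b < b', {q : Y | q.1.1 (b' - b) = false}) ∪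
      ⋃ t : ℕ, ⋃ _ : w.2.2 ≤ t, ⋂ i ∈ Finset.range w.2.1, {q : Y | q.1.2 (t + i) = decide (i ∈ w.1)}
    with hE
  have hDo : ∀ N, IsOpen (D N) := fun N =>
    isOpen_iUnion fun s => isOpen_biInter_finset fun r _ => isOpen_p _ _
  have hEo : ∀ w, IsOpen (E w) := fun w =>
    (isOpen_biUnion fun b _ => isOpen_biUnion fun b' _ => isOpen_iUnion fun _ => isOpen_p _ _).union
      (isOpen_iUnion fun t => isOpen_iUnion fun _ => isOpen_biInter_finset fun i _ => isOpen_a _ _)
  have hDd : ∀ N, Dense (D N) := by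
    intro N
    rw [dense_iff_inter_open]
    rintro U hU ⟨q, hq⟩
    obtain ⟨M, hM⟩ := exists_cyl_Y (hU.mem_nhds hq)
    obtain ⟨q', h1, h2, s, h3⟩ := extend_thick q M N
    refine ⟨q', hM q' h1 h2, mem_iUnion.2 ⟨s, mem_iInter₂.2 fun r hr => ?_⟩⟩
    exact h3 r (Finset.mem_range.1 hr)
  have hEd : ∀ w, (∀ b ∈ w.1, b < w.2.1) → Dense (E w) := by
    intro w hw
    rw [dense_iff_inter_open]
    rintro U hU ⟨q, hq⟩
    by_cases hB : ∀ b ∈ w.1, ∀ b' ∈ w.1, b < b' → q.1.1 (b' - b) = true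
    · obtain ⟨M, hM⟩ := exists_cyl_Y (hU.mem_nhds hq)
      obtain ⟨q', h1, h2, t, ht, h3⟩ := extend q M w.1 w.2.1 w.2.2 hw hB
      refine ⟨q', hM q' h1 h2, Or.inr (mem_iUnion.2 ⟨t, mem_iUnion.2 ⟨ht,
        mem_iInter₂.2 fun i hi => ?_⟩⟩)⟩
      exact h3 i (Finset.mem_range.1 hi)
    · push Not at hB
      obtain ⟨b, hb, b', hb', hlt, hne⟩ := hB
      refine ⟨q, hq, Or.inl (mem_iUnion₂.2 ⟨b, hb, mem_iUnion₂.2 ⟨b', hb', mem_iUnion.2 ⟨hlt, ?_⟩⟩⟩)⟩
      simpa using hne
  have hdense : Dense ((⋂ N, D N) ∩ ⋂ w : {w : Finset ℕ × ℕ × ℕ // ∀ b ∈ w.1, b < w.2.1}, E w.1) := by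
    refine Dense.inter_of_Gδ ?_ ?_ (dense_iInter_of_isOpen hDo hDd)
      (dense_iInter_of_isOpen (fun w => hEo w.1) fun w => hEd w.1 w.2)
    · exact IsGδ.iInter fun N => (hDo N).isGδ
    · exact IsGδ.iInter fun w => (hEo w.1).isGδ
  obtain ⟨q, hq1, hq2⟩ := hdense.nonempty
  refine ⟨q, fun N => ?_, fun B l N hB hBp => ?_⟩
  · obtain ⟨s, hs⟩ := mem_iUnion.1 (mem_iInter.1 hq1 N)
    exact ⟨s, fun r hr => mem_iInter₂.1 hs r (Finset.mem_range.2 hr)⟩
  · rcases mem_iInter.1 hq2 ⟨(B, l, N), hB⟩ with h | h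
    · exfalso
      obtain ⟨b, hb, h⟩ := mem_iUnion₂.1 h
      obtain ⟨b', hb', h⟩ := mem_iUnion₂.1 h
      obtain ⟨hlt, h⟩ := mem_iUnion.1 h
      have h2 := hBp b hb b' hb' hlt
      have h3 : q.1.1 (b' - b) = false := h
      rw [h3] at h2
      simp at h2
    · obtain ⟨t, h⟩ := mem_iUnion.1 h
      obtain ⟨ht, h⟩ := mem_iUnion.1 h
      exact ⟨t, ht, fun i hi => mem_iInter₂.1 h i (Finset.mem_range.2 hi)⟩

/-- The main statement. -/
theorem mainB : ∃ P : Set ℕ, Thick P ∧ (∃ z, IsTransPt (Prod.map (shift P) (shift P)) z) ∧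
    ∃ x : Sig P, IsTransPt (shift P) x ∧
      ∀ y : Sig P, ¬ IsTransPt (Prod.map (shift P) (shift P)) (x, y) := by
  obtain ⟨⟨⟨p, a⟩, hg1, hg2, hg3⟩, hthick, hblock⟩ := exists_pair
  simp only at hg1 hg2 hg3 hthick hblock
  obtain ⟨P, hP⟩ : ∃ P : Set ℕ, P = {n | p n = true} := ⟨_, rfl⟩
  have hTP : Thick P := by
    intro N
    obtain ⟨s, hs⟩ := hthick N
    exact ⟨s, fun r hr => by rw [hP]; exact hs r hr⟩
  have ha : Adm P a := by
    intro i j hij hi hj
    rw [hP]
    exact hg3 i j hij hi hj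
  have hne : Nonempty (Sig P) := ⟨⟨_, adm_zero P⟩⟩
  refine ⟨P, hTP, ?_, ⟨a, ha⟩, ?_, ?_⟩
  · -- weak mixing of the spacing shift
    have hwm : WeaklyMixing (shift P) := by
      rintro W₁ W₂ ⟨ho1, u, hu⟩ ⟨ho2, v, hv⟩
      have e : ∀ n (z : Sig P × Sig P), (T2 P P)^[n] z = (Prod.map (shift P) (shift P))^[n] z :=
        fun _ _ => rfl
      obtain ⟨m1, h1⟩ := exists_cyl_prod (ho1.mem_nhds hu)
      obtain ⟨m2, h2⟩ := exists_cyl_prod (ho2.mem_nhds hv)
      obtain ⟨m, hm⟩ : ∃ m, m = m1 + m2 := ⟨_, rfl⟩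
      obtain ⟨n, hmn, -, hgl⟩ := exists_glue hTP m 0
      obtain ⟨z, hz1, hz2, hz3, hz4⟩ := glue2 hmn u v (hgl _ _ u.1.2 v.1.2) (hgl _ _ u.2.2 v.2.2)
      exact ⟨n, z, h1 z (fun i hi => hz1 i (by omega)) (fun i hi => hz2 i (by omega)),
        h2 _ (fun i hi => hz3 i (by omega)) (fun i hi => hz4 i (by omega))⟩
    have : SecondCountableTopology (ℕ → Bool) := inferInstance
    have : SecondCountableTopology (Sig P) := TopologicalSpace.Subtype.secondCountableTopology _
    exact exists_transPt (continuous_shift P) hwm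
  · -- transitivity of the point
    unfold IsTransPt
    rw [dense_iff_inter_open]
    rintro U hU ⟨u, hu⟩
    obtain ⟨M, hM⟩ := exists_cyl_sig (hU.mem_nhds hu)
    have hadm := u.2
    obtain ⟨t, -, ht⟩ := hblock ((Finset.range M).filter fun i => u.1 i = true) M 0
      (fun b hb => Finset.mem_range.1 (Finset.mem_filter.1 hb).1)
      (fun b hb b' hb' hlt => by
        have := hadm b b' hlt (Finset.mem_filter.1 hb).2 (Finset.mem_filter.1 hb').2
        rw [hP] at this
        exact this)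
    refine ⟨(shift P)^[t] ⟨a, ha⟩, hM _ fun i hi => ?_, t, rfl⟩
    rw [shift_iterate]
    simp only
    rw [Nat.add_comm, ht i hi]
    cases h : u.1 i <;> simp [h, hi]
  · -- no transitive partner
    intro y hy
    have cop : ∀ i (b : Bool), IsOpen {v : Sig P | v.1 i = b} := fun i b => by
      have : Continuous fun v : Sig P => v.1 i := (continuous_apply i).comp continuous_subtype_val
      exact (isOpen_discrete {b}).preimage this
    unfold IsTransPt at hy
    rw [dense_iff_inter_open] at hy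
    have hit : ∀ n (z : Sig P × Sig P), (Prod.map (shift P) (shift P))^[n] z =
        ((shift P)^[n] z.1, (shift P)^[n] z.2) := fun n z => by rw [Prod.map_iterate]; rfl
    obtain ⟨_, h1, j, rfl⟩ := hy (univ ×ˢ {v : Sig P | v.1 0 = true}) (isOpen_univ.prod (cop 0 true))
      ⟨(⟨_, adm_single P 0⟩, ⟨_, adm_single P 0⟩), ⟨mem_univ _, by simp⟩⟩
    have hyj : y.1 j = true := by
      have h2 := h1.2
      simp only [hit, Set.mem_ofPred_eq, shift_iterate, zero_add] at h2
      exact h2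
    obtain ⟨_, h2, n, rfl⟩ := hy ({u : Sig P | u.1 0 = true} ×ˢ {v : Sig P | v.1 j = true})
      ((cop 0 true).prod (cop j true))
      ⟨(⟨_, adm_single P 0⟩, ⟨_, adm_single P j⟩), ⟨by simp, by simp⟩⟩
    have h3 : a n = true := by
      have := h2.1
      simp only [hit, Set.mem_ofPred_eq, shift_iterate, zero_add] at this
      exact this
    have h4 : y.1 (j + n) = true := by
      have := h2.2
      simp only [hit, Set.mem_ofPred_eq, shift_iterate] at this
      exact this
    have hn : n ≠ 0 := by rintro rfl; rw [hg2] at h3; simp at h3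
    have h5 := y.2 j (j + n) (by omega) hyj h4
    rw [hP, show j + n - j = n by omega] at h5
    have h6 : p n = true := h5
    rw [hg1 n h3] at h6
    simp at h6

end Pool.Agent.R241.SS
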