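import Pool.Agent.R241.SSA

/-!
# Weak mixing does not imply filter-sensitivity
-/

set_option autoImplicit false

open Filter Topology Set

namespace Pool.Agent.R241.SS

section Defs

variable {X : Type*} [MetricSpace X]

/-- `S_T(U, δ) = {n : ∃ x y ∈ U, d(T ^ n x, T ^ n y) > δ}`. -/
def sepTimes (T : X → X) (U : Set X) (δ : ℝ) : Set ℕ :=
  {n | ∃ x ∈ U, ∃ y ∈ U, δ < dist (T^[n] x) (T^[n] y)}

/-- The family of the sets which contain some `S_T(U, δ)` with `U` opene. -/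
def sepFamily (T : X → X) (δ : ℝ) : Set (Set ℕ) :=
  {A | ∃ U : Set X, Opene U ∧ sepTimes T U δ ⊆ A}

/-- A family of sets of numbers is a filter: it is neither empty nor the whole power set, and it is
closed under intersections. -/
def IsFilterFamily (F : Set (Set ℕ)) : Prop :=
  F ≠ ∅ ∧ F ≠ univ ∧ ∀ A ∈ F, ∀ B ∈ F, A ∩ B ∈ F

/-- `T` is filter-sensitive. -/
def FilterSensitive (T : X → X) : Prop := ∃ δ : ℝ, 0 < δ ∧ IsFilterFamily (sepFamily T δ)

/-- `T` is thickly sensitive. -/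
def ThicklySensitive (T : X → X) : Prop :=
  ∃ δ : ℝ, 0 < δ ∧ ∀ U : Set X, Opene U → Thick (sepTimes T U δ)

/-- `T` is transitive. -/
def Transitive {X : Type*} [TopologicalSpace X] (T : X → X) : Prop :=
  ∀ U V : Set X, Opene U → Opene V → (hits T U V).Nonempty

end Defs

/-- The generic set of spacings. -/
theorem exists_P : ∃ p : ℕ → Bool, (∀ N, ∃ s, ∀ r < N, p (s + r) = true) ∧
    (∀ (A : Finset ℕ) (m N : ℕ), 0 ∉ A → ∃ n, N ≤ n ∧ (∀ a ∈ A, p (n - a) = true) ∧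
      ∀ i < m, p (n + i) = false) ∧
    ∀ (A : Finset ℕ) (m N j : ℕ), m ≤ j → (∀ i < m, p (j - i) = false) →
      (∀ a ∈ A, a ≠ 0 → p a = true) → ∃ n, N ≤ n ∧ (∀ a ∈ A, p (n - a) = true) ∧
      ∀ i < m, p (n - j + i) = false := by
  have ho : ∀ (i : ℕ) (b : Bool), IsOpen {p : ℕ → Bool | p i = b} := fun i b => by
    have : Continuous fun p : ℕ → Bool => p i := continuous_apply i
    exact (isOpen_discrete {b}).preimage this
  -- the pattern written at a far place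
  have write : ∀ (p : ℕ → Bool) (M : ℕ) (A : Finset ℕ) (n : ℕ), (∀ a ∈ A, M + a ≤ n) →
      ∃ p' : ℕ → Bool, (∀ i < M, p' i = p i) ∧ (∀ a ∈ A, p' (n - a) = true) ∧
        ∀ i, M ≤ i → (∀ a ∈ A, i + a ≠ n) → p' i = false := by
    intro p M A n hn
    refine ⟨fun i => if i < M then p i else decide (∃ a ∈ A, i + a = n), fun i hi => if_pos hi,
      fun a ha => ?_, fun i hi h => ?_⟩
    · have := hn a ha
      simp only
      rw [if_neg (by omega), decide_eq_true_eq]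
      exact ⟨a, ha, by omega⟩
    · simp only
      rw [if_neg (by omega), decide_eq_false_iff_not]
      rintro ⟨a, ha, h2⟩
      exact h a ha h2
  have hsup : ∀ A : Finset ℕ, ∃ L, ∀ a ∈ A, a ≤ L := fun A => ⟨A.sup id, fun a ha =>
    Finset.le_sup (f := id) ha⟩
  set D : ℕ → Set (ℕ → Bool) := fun N => ⋃ s : ℕ, ⋂ r ∈ Finset.range N, {p | p (s + r) = true}
    with hD
  set E : Finset ℕ × ℕ × ℕ → Set (ℕ → Bool) := fun w => ⋃ n : ℕ, ⋃ _ : w.2.2 ≤ n,
    (⋂ a ∈ w.1, {p | p (n - a) = true}) ∩ ⋂ i ∈ Finset.range w.2.1, {p | p (n + i) = false} with hE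
  set F : Finset ℕ × ℕ × ℕ × ℕ → Set (ℕ → Bool) := fun w =>
    (⋃ i ∈ Finset.range w.2.1, {p | p (w.2.2.2 - i) = true}) ∪
    (⋃ a ∈ w.1, ⋃ _ : a ≠ 0, {p | p a = false}) ∪
    ⋃ n : ℕ, ⋃ _ : w.2.2.1 ≤ n,
      (⋂ a ∈ w.1, {p | p (n - a) = true}) ∩
        ⋂ i ∈ Finset.range w.2.1, {p | p (n - w.2.2.2 + i) = false} with hF
  have hDo : ∀ N, IsOpen (D N) := fun N =>
    isOpen_iUnion fun s => isOpen_biInter_finset fun r _ => ho _ _
  have hEo : ∀ w, IsOpen (E w) := fun w => isOpen_iUnion fun n => isOpen_iUnion fun _ =>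
    (isOpen_biInter_finset fun a _ => ho _ _).inter (isOpen_biInter_finset fun i _ => ho _ _)
  have hFo : ∀ w, IsOpen (F w) := fun w =>
    ((isOpen_biUnion fun i _ => ho _ _).union (isOpen_biUnion fun a _ => isOpen_iUnion fun _ =>
      ho _ _)).union (isOpen_iUnion fun n => isOpen_iUnion fun _ =>
    (isOpen_biInter_finset fun a _ => ho _ _).inter (isOpen_biInter_finset fun i _ => ho _ _))
  have hDd : ∀ N, Dense (D N) := by
    intro N
    rw [dense_iff_inter_open]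
    rintro U hU ⟨q, hq⟩
    obtain ⟨M, hM⟩ := exists_cyl (hU.mem_nhds hq)
    refine ⟨fun i => if i < M then q i else true, hM _ fun i hi => if_pos hi,
      mem_iUnion.2 ⟨M, mem_iInter₂.2 fun r _ => ?_⟩⟩
    simp
  have hEd : ∀ w, 0 ∉ w.1 → Dense (E w) := by
    intro w hw
    rw [dense_iff_inter_open]
    rintro U hU ⟨q, hq⟩
    obtain ⟨M, hM⟩ := exists_cyl (hU.mem_nhds hq)
    obtain ⟨L, hL⟩ := hsup w.1
    obtain ⟨n, hn⟩ : ∃ n, n = w.2.2 + M + L := ⟨_, rfl⟩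
    obtain ⟨p', h1, h2, h3⟩ := write q M w.1 n fun a ha => by have := hL a ha; omega
    refine ⟨p', hM _ h1, mem_iUnion.2 ⟨n, mem_iUnion.2 ⟨by omega, mem_iInter₂.2 fun a ha => h2 a ha,
      mem_iInter₂.2 fun i _ => h3 _ (by omega) fun a ha h => ?_⟩⟩⟩
    have : a = 0 := by omega
    subst this
    exact hw ha
  have hFd : ∀ w, w.2.1 ≤ w.2.2.2 → Dense (F w) := by
    rintro ⟨A, m, N, j⟩ hw
    simp only at hw
    rw [dense_iff_inter_open]
    rintro U hU ⟨q, hq⟩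
    by_cases c1 : ∀ i < m, q (j - i) = false
    · by_cases c2 : ∀ a ∈ A, a ≠ 0 → q a = true
      · obtain ⟨M, hM⟩ := exists_cyl (hU.mem_nhds hq)
        obtain ⟨L, hL⟩ := hsup A
        obtain ⟨n, hn⟩ : ∃ n, n = N + M + L + j := ⟨_, rfl⟩
        obtain ⟨p', h1, h2, h3⟩ := write q M A n fun a ha => by have := hL a ha; omega
        refine ⟨p', hM _ h1, Or.inr (mem_iUnion.2 ⟨n, mem_iUnion.2 ⟨?_, mem_iInter₂.2 fun a ha => h2 a ha,
          mem_iInter₂.2 fun i hi => h3 _ ?_ fun a ha h => ?_⟩⟩)⟩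
        · show N ≤ n
          omega
        · simp only
          omega
        · simp only at h hi
          have hi' := Finset.mem_range.1 hi
          have e : a = j - i := by omega
          have h4 := c1 i hi'
          rw [← e, c2 a ha (by omega)] at h4
          simp at h4
      · push Not at c2
        obtain ⟨a, ha, ha0, hne⟩ := c2
        refine ⟨q, hq, Or.inl (Or.inr (mem_iUnion₂.2 ⟨a, ha, mem_iUnion.2 ⟨ha0, ?_⟩⟩))⟩
        simpa using hne
    · push Not at c1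
      obtain ⟨i, hi, hne⟩ := c1
      refine ⟨q, hq, Or.inl (Or.inl (mem_iUnion₂.2 ⟨i, Finset.mem_range.2 hi, ?_⟩))⟩
      simpa using hne
  have hdense : Dense (((⋂ N, D N) ∩ ⋂ w : {w : Finset ℕ × ℕ × ℕ // 0 ∉ w.1}, E w.1) ∩
      ⋂ w : {w : Finset ℕ × ℕ × ℕ × ℕ // w.2.1 ≤ w.2.2.2}, F w.1) := by
    refine Dense.inter_of_Gδ ?_ ?_ (Dense.inter_of_Gδ ?_ ?_ (dense_iInter_of_isOpen hDo hDd)
      (dense_iInter_of_isOpen (fun w => hEo w.1) fun w => hEd w.1 w.2))
      (dense_iInter_of_isOpen (fun w => hFo w.1) fun w => hFd w.1 w.2)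
    · exact (IsGδ.iInter fun N => (hDo N).isGδ).inter (IsGδ.iInter fun w => (hEo w.1).isGδ)
    · exact IsGδ.iInter fun w => (hFo w.1).isGδ
    · exact IsGδ.iInter fun N => (hDo N).isGδ
    · exact IsGδ.iInter fun w => (hEo w.1).isGδ
  obtain ⟨p, ⟨hp1, hp2⟩, hp3⟩ := hdense.nonempty
  refine ⟨p, fun N => ?_, fun A m N hA => ?_, fun A m N j hj h1 h2 => ?_⟩
  · obtain ⟨s, hs⟩ := mem_iUnion.1 (mem_iInter.1 hp1 N)
    exact ⟨s, fun r hr => mem_iInter₂.1 hs r (Finset.mem_range.2 hr)⟩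
  · obtain ⟨n, h⟩ := mem_iUnion.1 (mem_iInter.1 hp2 ⟨(A, m, N), hA⟩)
    obtain ⟨hn, h3, h4⟩ := mem_iUnion.1 h
    exact ⟨n, hn, fun a ha => mem_iInter₂.1 h3 a ha,
      fun i hi => mem_iInter₂.1 h4 i (Finset.mem_range.2 hi)⟩
  · rcases mem_iInter.1 hp3 ⟨(A, m, N, j), hj⟩ with (h | h) | h
    · exfalso
      obtain ⟨i, hi, h⟩ := mem_iUnion₂.1 h
      have h5 : p (j - i) = true := h
      rw [h1 i (Finset.mem_range.1 hi)] at h5
      simp at h5
    · exfalso
      obtain ⟨a, ha, h⟩ := mem_iUnion₂.1 h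
      obtain ⟨ha0, h⟩ := mem_iUnion.1 h
      have h5 : p a = false := h
      rw [h2 a ha ha0] at h5
      simp at h5
    · obtain ⟨n, h⟩ := mem_iUnion.1 h
      obtain ⟨hn, h3, h4⟩ := mem_iUnion.1 h
      exact ⟨n, hn, fun a ha => mem_iInter₂.1 h3 a ha,
        fun i hi => mem_iInter₂.1 h4 i (Finset.mem_range.2 hi)⟩

variable {P : Set ℕ}

theorem sig_dist (x y : Sig P) : @dist _ (sigMetric P).toPseudoMetricSpace.toDist x y =
    @dist (ℕ → Bool) PiNat.dist x.1 y.1 := rfl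

theorem lt_dist {x y : Sig P} {δ : ℝ} (hδ : 0 < δ)
    (h : δ < @dist _ (sigMetric P).toPseudoMetricSpace.toDist x y) :
    ∃ i, δ < (1 / 2 : ℝ) ^ i ∧ x.1 i ≠ y.1 i := by
  rw [sig_dist] at h
  have hne : x.1 ≠ y.1 := by
    intro he
    rw [he] at h
    have : @dist (ℕ → Bool) PiNat.dist y.1 y.1 = 0 := PiNat.dist_self _
    linarith
  rw [PiNat.dist_eq_of_ne hne] at h
  exact ⟨_, h, PiNat.apply_firstDiff_ne hne⟩

theorem dist_eq_one {x y : Sig P} (h : x.1 0 ≠ y.1 0) :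
    @dist _ (sigMetric P).toPseudoMetricSpace.toDist x y = 1 := by
  rw [sig_dist]
  have hne : x.1 ≠ y.1 := fun he => h (by rw [he])
  rw [PiNat.dist_eq_of_ne hne]
  have : PiNat.firstDiff x.1 y.1 = 0 := by
    by_contra hc
    exact h (PiNat.apply_eq_of_lt_firstDiff (Nat.pos_of_ne_zero hc))
  rw [this, pow_zero]

/-- The times at which the shift separates points. -/
theorem mem_sepTimes {U : Set (Sig P)} {δ : ℝ} {n : ℕ} (hδ : 0 < δ) {m : ℕ}
    (hm : (1 / 2 : ℝ) ^ m ≤ δ) (h : n ∈ @sepTimes _ (sigMetric P) (shift P) U δ) :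
    ∃ x ∈ U, ∃ i < m, x.1 (i + n) = true := by
  obtain ⟨x, hx, y, hy, h⟩ := h
  obtain ⟨i, hi, hne⟩ := lt_dist hδ h
  rw [shift_iterate, shift_iterate] at hne
  have him : i < m := by
    by_contra hc
    have : (1 / 2 : ℝ) ^ i ≤ (1 / 2 : ℝ) ^ m :=
      pow_le_pow_of_le_one (by norm_num) (by norm_num) (by omega)
    linarith
  cases hxi : x.1 (i + n)
  · cases hyi : y.1 (i + n)
    · rw [hxi, hyi] at hne
      exact absurd rfl hne
    · exact ⟨y, hy, i, him, hyi⟩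
  · exact ⟨x, hx, i, him, hxi⟩

/-- An open set separates points at the time `n`, if a letter `true` may be put at the place `n`. -/
theorem mem_sepTimes' {U : Set (Sig P)} {w : Sig P} {l : ℕ}
    (hU : ∀ y : Sig P, (∀ i < l, y.1 i = w.1 i) → y ∈ U) {δ : ℝ} (hδ : δ < 1) {n : ℕ}
    (hn : l ≤ n) (hP : ∀ a < l, w.1 a = true → n - a ∈ P) :
    n ∈ @sepTimes _ (sigMetric P) (shift P) U δ := by
  have h1 : Adm P fun i => if i < l then w.1 i else false := by
    intro i j hij hi hj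
    simp only at hi hj
    split_ifs at hi hj
    exact w.2 i j hij hi hj
  have h2 : Adm P fun i => if i < l then w.1 i else decide (i = n) := by
    intro i j hij hi hj
    simp only at hi hj
    split_ifs at hi hj with c1 c2 c3
    · exact w.2 i j hij hi hj
    · simp only [decide_eq_true_eq] at hj
      subst hj
      exact hP i c1 hi
    · omega
    · simp only [decide_eq_true_eq] at hi hj
      omega
  refine ⟨⟨_, h1⟩, hU _ fun i hi => by simp [hi], ⟨_, h2⟩, hU _ fun i hi => by simp [hi], ?_⟩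
  rw [dist_eq_one]
  · exact hδ
  · rw [shift_iterate, shift_iterate]
    simp [show ¬ n < l by omega]

theorem isOpen_coord (i : ℕ) (b : Bool) : IsOpen {y : Sig P | y.1 i = b} := by
  have : Continuous fun y : Sig P => y.1 i := (continuous_apply i).comp continuous_subtype_val
  exact (isOpen_discrete {b}).preimage this

/-- The main statement. -/
theorem mainC : ∃ P : Set ℕ, Thick P ∧
    (∀ δ : ℝ, 0 < δ → δ < 1 → ∀ U : Set (Sig P), Opene U →
      Thick (@sepTimes _ (sigMetric P) (shift P) U δ)) ∧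
    ∀ δ : ℝ, 0 < δ → δ < 1 → ∃ U V : Set (Sig P), Opene U ∧ Opene V ∧
      ∀ W : Set (Sig P), Opene W → ¬ @sepTimes _ (sigMetric P) (shift P) W δ ⊆
        @sepTimes _ (sigMetric P) (shift P) U δ ∩ @sepTimes _ (sigMetric P) (shift P) V δ := by
  obtain ⟨p, hp1, hp2, hp3⟩ := exists_P
  obtain ⟨P, hP⟩ : ∃ P : Set ℕ, P = {n | p n = true} := ⟨_, rfl⟩
  have hPm : ∀ n, n ∈ P ↔ p n = true := fun n => by rw [hP]; rfl
  have hTP : Thick P := by
    intro N
    obtain ⟨s, hs⟩ := hp1 N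
    exact ⟨s, fun r hr => (hPm _).2 (hs r hr)⟩
  refine ⟨P, hTP, ?_, ?_⟩
  · rintro δ hδ0 hδ1 U ⟨hUo, w, hw⟩ N
    obtain ⟨l, hl⟩ := exists_cyl_sig (hUo.mem_nhds hw)
    obtain ⟨n, hn, h⟩ := hTP.far (l + N) (l + N)
    refine ⟨n, fun r hr => mem_sepTimes' hl hδ1 (by omega) fun a ha _ => h _ (by omega) (by omega)⟩
  · intro δ hδ0 hδ1
    obtain ⟨m, hm⟩ := exists_pow_lt_of_lt_one hδ0 (by norm_num : (1 / 2 : ℝ) < 1)
    obtain ⟨k, hk, -, hk2⟩ := hp2 ∅ m 1 (by simp)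
    obtain ⟨j, hj⟩ : ∃ j, j = k + m - 1 := ⟨_, rfl⟩
    refine ⟨{y | y.1 0 = true}, {y | y.1 j = true}, ⟨isOpen_coord 0 true, ⟨⟨_, adm_single P 0⟩, ?_⟩⟩,
      ⟨isOpen_coord j true, ⟨⟨_, adm_single P j⟩, ?_⟩⟩, ?_⟩
    · simp
    · simp
    rintro W ⟨hWo, w, hw⟩ hsub
    obtain ⟨l, hl⟩ := exists_cyl_sig (hWo.mem_nhds hw)
    by_cases h0 : w.1 0 = true
    · obtain ⟨n, hn, h1, h2⟩ := hp3 ((Finset.range l).filter fun i => w.1 i = true) m (l + j + 1) j
        (by omega) (fun i hi => by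
          have := hk2 (m - 1 - i) (by omega)
          rwa [show k + (m - 1 - i) = j - i by omega] at this)
        (fun a ha ha0 => by
          have := w.2 0 a (by omega) h0 (Finset.mem_filter.1 ha).2
          exact (hPm _).1 this)
      have h3 := hsub (mem_sepTimes' hl hδ1 (n := n) (by omega) fun a ha hwa =>
        (hPm _).2 (h1 a (Finset.mem_filter.2 ⟨Finset.mem_range.2 ha, hwa⟩)))
      obtain ⟨x, hx, i, hi, hxi⟩ := mem_sepTimes hδ0 hm.le h3.2
      have h4 := x.2 j (i + n) (by omega) hx hxi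
      rw [hPm, show i + n - j = n - j + i by omega, h2 i hi] at h4
      simp at h4
    · obtain ⟨n, hn, h1, h2⟩ := hp2 ((Finset.range l).filter fun i => w.1 i = true) m (l + j + 1)
        (fun h => h0 (Finset.mem_filter.1 h).2)
      have h3 := hsub (mem_sepTimes' hl hδ1 (n := n) (by omega) fun a ha hwa =>
        (hPm _).2 (h1 a (Finset.mem_filter.2 ⟨Finset.mem_range.2 ha, hwa⟩)))
      obtain ⟨x, hx, i, hi, hxi⟩ := mem_sepTimes hδ0 hm.le h3.1
      have h4 := x.2 0 (i + n) (by omega) hx hxi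
      rw [hPm, show i + n - 0 = n + i by omega, h2 i hi] at h4
      simp at h4

end Pool.Agent.R241.SS
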